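import Pool.Agent.Lib.MP_4d5ce1_nt.Basic

set_option autoImplicit false

/-!
Rankin / Euler product bound for sums over ideals of a number field (helper62, JOB S).
-/

open NumberField IsDedekindDomain Filter

namespace Pool.Agent.Lib.MP_4d5ce1_nt

/-- number of ideals of norm `n`. -/
noncomputable def numId (K : Type*) [Field K] [NumberField K] (n : ℕ) : ℝ :=
  (Nat.card {I : Ideal (𝓞 K) // Ideal.absNorm I = n} : ℝ)

theorem numId_nonneg (K : Type*) [Field K] [NumberField K] (n : ℕ) : 0 ≤ numId K n :=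
  Nat.cast_nonneg _

theorem sum_numId (K : Type*) [Field K] [NumberField K] (n : ℕ) :
    ∑ k ∈ Finset.Icc 1 n, numId K k =
      (Nat.card {I : nonZeroDivisors (Ideal (𝓞 K)) //
        Ideal.absNorm (I : Ideal (𝓞 K)) ≤ n} : ℝ) := by
  unfold numId
  rw [← Nat.cast_sum]
  congr 1
  rw [← add_left_inj 1, ← Ideal.card_norm_le_eq_card_norm_le_add_one,
    show Finset.Icc 1 n = Finset.Ioc 0 n from Finset.Icc_succ_left_eq_Ioc _ _,
    show 1 = Nat.card {I : Ideal (𝓞 K) // Ideal.absNorm I = 0} by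
      simp [Ideal.absNorm_eq_zero_iff],
    Finset.sum_Ioc_add_eq_sum_Icc (n.zero_le),
    ← Finset.card_preimage_eq_sum_card_image_eq
      (fun k _ ↦ Ideal.finite_setOfPred_absNorm_eq k)]
  simp [Set.coe_eq_subtype]

theorem numId_bigO (K : Type*) [Field K] [NumberField K] :
    (fun n : ℕ ↦ ∑ k ∈ Finset.Icc 1 n, numId K k) =O[atTop] fun n ↦ (n : ℝ) ^ (1 : ℝ) := by
  have h := (NumberField.Ideal.tendsto_norm_le_div_atTop₀ K).comp tendsto_natCast_atTop_atTop
  have h1 := h.isBigO_one ℝ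
  have h2 : (fun n : ℕ ↦ ∑ k ∈ Finset.Icc 1 n, numId K k) =ᶠ[atTop]
      fun n : ℕ => (((fun s : ℝ ↦ (Nat.card {I : nonZeroDivisors (Ideal (𝓞 K)) //
        (Ideal.absNorm (I : Ideal (𝓞 K)) : ℝ) ≤ s} : ℝ) / s) ∘ Nat.cast) n) * (n : ℝ) := by
    filter_upwards [eventually_gt_atTop 0] with n hn
    have hn' : (n : ℝ) ≠ 0 := by exact_mod_cast hn.ne'
    rw [sum_numId]
    simp only [Function.comp_apply]
    rw [div_mul_cancel₀ _ hn']
    simp only [Nat.cast_le]
  refine h2.trans_isBigO ?_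
  have h3 := h1.mul (Asymptotics.isBigO_refl (fun n : ℕ => (n : ℝ)) atTop)
  simpa using h3

theorem summable_numId (K : Type*) [Field K] [NumberField K] (s : ℝ) (hs : 1 < s) :
    Summable (fun n : ℕ => numId K n * (n : ℝ) ^ (-s)) := by
  have h := LSeriesSummable_of_sum_norm_bigO_and_nonneg (f := numId K) (r := 1) (s := (s : ℂ))
    (numId_bigO K) (numId_nonneg K) zero_le_one (by simpa using hs)
  have h2 := h.norm
  refine h2.congr ?_
  intro n
  rw [LSeries.norm_term_eq]
  split_ifs with hn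
  · rw [hn]
    simp
    right
    rw [Real.zero_rpow (by linarith)]
  · rw [Complex.norm_real, Real.norm_eq_abs, abs_of_nonneg (numId_nonneg K n), Complex.ofReal_re,
      Real.rpow_neg (Nat.cast_nonneg n), div_eq_mul_inv]

variable {K : Type*} [Field K] [NumberField K]

theorem card_norm_eq_le (V : Finset (HeightOneSpectrum (𝓞 K))) (n : ℕ) :
    ((V.filter (fun v => Ideal.absNorm v.asIdeal = n)).card : ℝ) ≤ numId K n := by
  classical
  unfold numId
  have hfin : {I : Ideal (𝓞 K) | Ideal.absNorm I = n}.Finite :=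
    Ideal.finite_setOfPred_absNorm_eq n
  have e : Nat.card {I : Ideal (𝓞 K) // Ideal.absNorm I = n} = hfin.toFinset.card := by
    rw [← Set.ncard_eq_toFinset_card _ hfin]
    rfl
  rw [e]
  norm_cast
  refine Finset.card_le_card_of_injOn (fun v => v.asIdeal) ?_ ?_
  · intro v hv
    rw [Finset.mem_coe, Finset.mem_filter] at hv
    simp only [Finset.mem_coe, Set.Finite.mem_toFinset]
    exact hv.2
  · intro v _ w _ h
    exact HeightOneSpectrum.ext h

/-- The sum of `N(v)^{-s}` over finite sets of primes is bounded, for `s > 1`. -/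
theorem sum_nv_bound (K : Type*) [Field K] [NumberField K] (s : ℝ) (hs : 1 < s) :
    ∃ C : ℝ, 0 ≤ C ∧ ∀ V : Finset (HeightOneSpectrum (𝓞 K)),
      ∑ v ∈ V, (nv v) ^ (-s) ≤ C := by
  classical
  have hsum := summable_numId K s hs
  refine ⟨∑' n : ℕ, numId K n * (n : ℝ) ^ (-s), tsum_nonneg (fun n => by
    have := numId_nonneg K n
    positivity), ?_⟩
  intro V
  have h1 : ∑ v ∈ V, (nv v) ^ (-s) =
      ∑ n ∈ V.image (fun v => Ideal.absNorm v.asIdeal),
        ∑ v ∈ V.filter (fun v => Ideal.absNorm v.asIdeal = n), (nv v) ^ (-s) := by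
    rw [Finset.sum_fiberwise_of_maps_to]
    intro v hv
    exact Finset.mem_image_of_mem _ hv
  rw [h1]
  calc _ ≤ ∑ n ∈ V.image (fun v => Ideal.absNorm v.asIdeal), numId K n * (n : ℝ) ^ (-s) := by
        apply Finset.sum_le_sum
        intro n _
        have h2 : ∑ v ∈ V.filter (fun v => Ideal.absNorm v.asIdeal = n), (nv v) ^ (-s) =
            ((V.filter (fun v => Ideal.absNorm v.asIdeal = n)).card : ℝ) * (n : ℝ) ^ (-s) := by
          rw [← nsmul_eq_mul, ← Finset.sum_const]
          apply Finset.sum_congr rfl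
          intro v hv
          rw [Finset.mem_filter] at hv
          unfold nv
          rw [hv.2]
        rw [h2]
        exact mul_le_mul_of_nonneg_right (card_norm_eq_le V n) (by positivity)
    _ ≤ _ := hsum.sum_le_tsum _ (fun n _ => by
        have := numId_nonneg K n
        positivity)

/-- Sum over a block of exponents. -/
theorem sum_block (q : ℕ) (hq : 1 ≤ q) (f : ℕ → ℝ) (N : ℕ) :
    ∑ m ∈ Finset.range (q * N), f (m / q) = q * ∑ e ∈ Finset.range N, f e := by
  induction N with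
  | zero => simp
  | succ N ih =>
    rw [Nat.mul_succ, Finset.sum_range_add, ih, Finset.sum_range_succ, mul_add]
    congr 1
    rw [← nsmul_eq_mul, ← Finset.card_range q, ← Finset.sum_const, Finset.card_range]
    apply Finset.sum_congr rfl
    intro i hi
    rw [Finset.mem_range] at hi
    congr 1
    rw [Nat.mul_add_div (by omega), Nat.div_eq_of_lt hi, add_zero]

theorem sum_pow_block (q : ℕ) (hq : 1 ≤ q) (r : ℝ) (hr0 : 0 ≤ r) (hr1 : r < 1) (M : ℕ) :
    ∑ m ∈ Finset.range M, r ^ (m / q + 1) ≤ q * (r / (1 - r)) := by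
  have h1 : ∑ m ∈ Finset.range M, r ^ (m / q + 1) ≤
      ∑ m ∈ Finset.range (q * M), r ^ (m / q + 1) := by
    apply Finset.sum_le_sum_of_subset_of_nonneg
    · apply Finset.range_subset_range.mpr
      exact Nat.le_mul_of_pos_left M (by omega)
    · intro i _ _
      positivity
  refine h1.trans ?_
  rw [sum_block q hq (fun e => r ^ (e + 1)) M]
  gcongr
  have h2 : ∑ e ∈ Finset.range M, r ^ (e + 1) = r * ∑ e ∈ Finset.range M, r ^ e := by
    rw [Finset.mul_sum]
    apply Finset.sum_congr rfl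
    intro e _
    ring
  rw [h2, div_eq_mul_inv]
  gcongr
  have h3 := (summable_geometric_of_lt_one hr0 hr1).sum_le_tsum (Finset.range M)
    (fun i _ => by positivity)
  rwa [tsum_geometric_of_lt_one hr0 hr1] at h3

/-- Finite Euler product expansion bound. -/
theorem sum_finsupp_le {V : Type*} [DecidableEq V] (F : Finset (V →₀ ℕ)) (g : V → ℕ → ℝ)
    (hg : ∀ v m, 0 ≤ g v m) (S : V → ℝ) (hS : ∀ v, ∀ M : ℕ, ∑ m ∈ Finset.Ico 1 M, g v m ≤ S v) :
    ∑ κ ∈ F, ∏ v ∈ κ.support, g v (κ v) ≤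
      Real.exp (∑ v ∈ F.biUnion (fun κ => κ.support), S v) := by
  classical
  set W := F.biUnion (fun κ => κ.support) with hW
  -- bound for the values
  obtain ⟨M, hM⟩ : ∃ M : ℕ, ∀ κ ∈ F, ∀ v ∈ W, κ v < M := by
    refine ⟨(F.sup (fun κ => W.sup (fun v => κ v))) + 1, ?_⟩
    intro κ hκ v hv
    have h1 : κ v ≤ W.sup (fun v => κ v) := Finset.le_sup (f := fun v => κ v) hv
    have h2 : W.sup (fun v => κ v) ≤ F.sup (fun κ => W.sup (fun v => κ v)) :=
      Finset.le_sup (f := fun κ : V →₀ ℕ => W.sup (fun v => κ v)) hκ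
    omega
  set G : V → ℕ → ℝ := fun v m => if m = 0 then 1 else g v m with hG
  have hG0 : ∀ v m, 0 ≤ G v m := by
    intro v m
    simp only [hG]
    split_ifs
    · exact zero_le_one
    · exact hg v m
  have h1 : ∀ κ ∈ F, ∏ v ∈ κ.support, g v (κ v) = ∏ v ∈ W, G v (κ v) := by
    intro κ hκ
    have hsub : κ.support ⊆ W := Finset.subset_biUnion_of_mem (fun κ : V →₀ ℕ => κ.support) hκ
    rw [← Finset.prod_subset hsub]
    · apply Finset.prod_congr rfl
      intro v hv
      simp only [hG]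
      rw [if_neg (Finsupp.mem_support_iff.mp hv)]
    · intro v _ hv
      simp only [hG]
      rw [if_pos (Finsupp.notMem_support_iff.mp hv)]
  rw [Finset.sum_congr rfl h1]
  have h2 : ∑ κ ∈ F, ∏ v ∈ W, G v (κ v) ≤
      ∏ v ∈ W, ∑ m ∈ Finset.range M, G v m := by
    rw [Finset.prod_sum]
    set i : (V →₀ ℕ) → (∀ v ∈ W, ℕ) := fun κ v _ => κ v with hi
    have hinj : Set.InjOn i F := by
      intro κ hκ κ' hκ' h
      ext v
      by_cases hv : v ∈ W
      · exact congrFun (congrFun h v) hv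
      · have a1 : κ v = 0 := by
          by_contra hne
          exact hv (Finset.mem_biUnion.mpr ⟨κ, hκ, Finsupp.mem_support_iff.mpr hne⟩)
        have a2 : κ' v = 0 := by
          by_contra hne
          exact hv (Finset.mem_biUnion.mpr ⟨κ', hκ', Finsupp.mem_support_iff.mpr hne⟩)
        rw [a1, a2]
    have e1 : ∑ κ ∈ F, ∏ v ∈ W, G v (κ v) =
        ∑ p ∈ F.image i, ∏ x ∈ W.attach, G x.1 (p x.1 x.2) := by
      rw [Finset.sum_image hinj]
      apply Finset.sum_congr rfl
      intro κ _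
      rw [← Finset.prod_attach W (fun v => G v (κ v))]
    rw [e1]
    apply Finset.sum_le_sum_of_subset_of_nonneg
    · intro p hp
      rw [Finset.mem_image] at hp
      obtain ⟨κ, hκ, rfl⟩ := hp
      rw [Finset.mem_pi]
      intro v hv
      rw [Finset.mem_range]
      exact hM κ hκ v hv
    · intro p _ _
      exact Finset.prod_nonneg (fun x _ => hG0 _ _)
  refine h2.trans ?_
  rw [Real.exp_sum]
  apply Finset.prod_le_prod
  · intro v _
    exact Finset.sum_nonneg (fun m _ => hG0 _ _)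
  · intro v _
    have h3 : ∑ m ∈ Finset.range M, G v m ≤ 1 + S v := by
      rcases Nat.eq_zero_or_pos M with h0 | h0
      · subst h0
        have := hS v 0
        simp at this ⊢
        linarith
      · rw [Finset.range_eq_Ico, Finset.sum_eq_sum_Ico_succ_bot h0]
        have e2 : G v 0 = 1 := by simp [hG]
        rw [e2]
        have e3 : ∑ m ∈ Finset.Ico (0 + 1) M, G v m = ∑ m ∈ Finset.Ico 1 M, g v m := by
          apply Finset.sum_congr rfl
          intro m hm
          rw [Finset.mem_Ico] at hm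
          simp only [hG]
          rw [if_neg (by omega)]
        rw [e3]
        have := hS v M
        linarith
    refine h3.trans ?_
    have := Real.add_one_le_exp (S v)
    linarith

theorem rankin_sum (K : Type*) [Field K] [NumberField K] (q : ℕ) (hq : 1 ≤ q) (c η : ℝ)
    (hc : 0 ≤ c) (hη : 0 < η) :
    ∃ C : ℝ, 0 < C ∧ ∀ Y : ℝ, 1 ≤ Y → ∀ F : Finset (HeightOneSpectrum (𝓞 K) →₀ ℕ),
      (∀ κ ∈ F, ∑ v ∈ κ.support, (((κ v - 1) / q + 1 : ℕ) : ℝ) * Real.log (nv v) ≤ Real.log Y) →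
      ∑ κ ∈ F, ∏ v ∈ κ.support, (c / nv v) ≤ C * Y ^ η := by
  classical
  obtain ⟨C0, hC0, hV⟩ := sum_nv_bound K (1 + η) (by linarith)
  set D : ℝ := c * q / (1 - (2 : ℝ) ^ (-η)) with hD
  have h2η : (2 : ℝ) ^ (-η) < 1 := Real.rpow_lt_one_of_one_lt_of_neg (by norm_num) (by linarith)
  have hD0 : 0 ≤ D := by
    rw [hD]
    apply div_nonneg (by positivity)
    linarith
  refine ⟨Real.exp (D * C0), Real.exp_pos _, ?_⟩
  intro Y hY F hF
  have hY0 : 0 < Y := by linarith
  have hYη : 0 < Y ^ η := Real.rpow_pos_of_pos hY0 _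
  set g : HeightOneSpectrum (𝓞 K) → ℕ → ℝ := fun v m =>
    (c / nv v) * ((nv v) ^ (-η)) ^ ((m - 1) / q + 1) with hg
  have hg0 : ∀ v m, 0 ≤ g v m := by
    intro v m
    have := nv_pos v
    simp only [hg]
    positivity
  set S : HeightOneSpectrum (𝓞 K) → ℝ := fun v => D * (nv v) ^ (-(1 + η)) with hSdef
  have hS : ∀ v, ∀ M : ℕ, ∑ m ∈ Finset.Ico 1 M, g v m ≤ S v := by
    intro v M
    have hn := nv_pos v
    have hn2 := two_le_nv v
    have hr1 : (nv v) ^ (-η) ≤ (2 : ℝ) ^ (-η) :=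
      Real.rpow_le_rpow_of_nonpos (by norm_num) hn2 (by linarith)
    have hr0 : 0 < (nv v) ^ (-η) := Real.rpow_pos_of_pos hn _
    have e1 : ∑ m ∈ Finset.Ico 1 M, g v m =
        (c / nv v) * ∑ m ∈ Finset.range (M - 1), ((nv v) ^ (-η)) ^ (m / q + 1) := by
      rw [Finset.sum_Ico_eq_sum_range, Finset.mul_sum]
      apply Finset.sum_congr rfl
      intro m _
      simp only [hg]
      rw [Nat.add_sub_cancel_left]
    rw [e1]
    have e2 := sum_pow_block q hq _ hr0.le (lt_of_le_of_lt hr1 h2η) (M - 1)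
    calc (c / nv v) * ∑ m ∈ Finset.range (M - 1), ((nv v) ^ (-η)) ^ (m / q + 1)
        ≤ (c / nv v) * (q * ((nv v) ^ (-η) / (1 - (nv v) ^ (-η)))) := by
          gcongr
      _ ≤ (c / nv v) * (q * ((nv v) ^ (-η) / (1 - (2 : ℝ) ^ (-η)))) := by
          have : 0 < 1 - (2 : ℝ) ^ (-η) := by linarith
          gcongr
      _ = S v := by
          simp only [hSdef, hD]
          rw [show -(1 + η) = -1 + -η by ring, Real.rpow_add hn, Real.rpow_neg_one]
          field_simp
  have h1 : ∀ κ ∈ F, ∏ v ∈ κ.support, (c / nv v) ≤ Y ^ η * ∏ v ∈ κ.support, g v (κ v) := by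
    intro κ hκ
    have e1 : ∏ v ∈ κ.support, g v (κ v) = (∏ v ∈ κ.support, (c / nv v)) *
        ∏ v ∈ κ.support, ((nv v) ^ (-η)) ^ ((κ v - 1) / q + 1) := by
      rw [← Finset.prod_mul_distrib]
    have e2 : ∏ v ∈ κ.support, ((nv v) ^ (-η)) ^ ((κ v - 1) / q + 1) =
        Real.exp (-η * ∑ v ∈ κ.support, (((κ v - 1) / q + 1 : ℕ) : ℝ) * Real.log (nv v)) := by
      rw [Finset.mul_sum, Real.exp_sum]
      apply Finset.prod_congr rfl
      intro v _
      have hn := nv_pos v
      rw [← Real.rpow_natCast, ← Real.rpow_mul hn.le, Real.rpow_def_of_pos hn]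
      congr 1
      ring
    have e3 : Y ^ (-η) ≤ ∏ v ∈ κ.support, ((nv v) ^ (-η)) ^ ((κ v - 1) / q + 1) := by
      rw [e2, Real.rpow_def_of_pos hY0, Real.exp_le_exp]
      have := hF κ hκ
      nlinarith
    have e4 : 0 ≤ ∏ v ∈ κ.support, (c / nv v) := by
      apply Finset.prod_nonneg
      intro v _
      have := nv_pos v
      positivity
    rw [e1]
    calc ∏ v ∈ κ.support, (c / nv v) = Y ^ η * ((∏ v ∈ κ.support, (c / nv v)) * Y ^ (-η)) := by
          rw [mul_comm (∏ v ∈ κ.support, (c / nv v)), ← mul_assoc, ← Real.rpow_add hY0]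
          simp
      _ ≤ _ := by gcongr
  calc ∑ κ ∈ F, ∏ v ∈ κ.support, (c / nv v)
      ≤ ∑ κ ∈ F, Y ^ η * ∏ v ∈ κ.support, g v (κ v) := Finset.sum_le_sum h1
    _ = Y ^ η * ∑ κ ∈ F, ∏ v ∈ κ.support, g v (κ v) := by rw [Finset.mul_sum]
    _ ≤ Y ^ η * Real.exp (∑ v ∈ F.biUnion (fun κ => κ.support), S v) := by
        gcongr
        exact sum_finsupp_le F g hg0 S hS
    _ ≤ Y ^ η * Real.exp (D * C0) := by
        gcongr
        simp only [hSdef]
        rw [← Finset.mul_sum]
        gcongr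
        exact hV _
    _ = _ := by ring

end Pool.Agent.Lib.MP_4d5ce1_nt
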