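import Pool.Agent.Lib.MP_4d5ce1_nt.BDefs
import Pool.Agent.Lib.MP_4d5ce1_nt.Rankin

set_option autoImplicit false

/-!
Counting codes (module B of the bilinear theorem).
-/

open NumberField IsDedekindDomain

namespace Pool.Agent.Lib.MP_4d5ce1_nt

section codes

variable (K : Type*) [Field K] [NumberField K]

theorem code_count (q : ℕ) (hq : 1 ≤ q) (A₀ η : ℝ) (hA₀ : 0 ≤ A₀) (hη : 0 < η) :
    ∃ C : ℝ, 0 < C ∧ ∀ β z : ℝ, 0 ≤ β → ∀ F : Finset (HeightOneSpectrum (𝓞 K) →₀ ℕ),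
      (∀ κ ∈ F, ∑ v ∈ κ.support, lnv v ≤ z) →
      (∀ κ ∈ F, ∑ v ∈ κ.support, (((κ v - 1) / q + 1 : ℕ) : ℝ) * lnv v ≤ A₀ * (β + 1)) →
      (F.card : ℝ) ≤ C * Real.exp (z + η * β) := by
  have hη' : 0 < η / (A₀ + 1) := by positivity
  obtain ⟨C, hC, h⟩ := rankin_sum K q hq 1 (η / (A₀ + 1)) zero_le_one hη'
  refine ⟨C * Real.exp η, by positivity, ?_⟩
  intro β z hβ F hz hF
  have hY : (1 : ℝ) ≤ Real.exp (A₀ * (β + 1)) := by
    rw [Real.one_le_exp_iff]; positivity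
  have h1 := h (Real.exp (A₀ * (β + 1))) hY F (by
    intro κ hκ
    rw [Real.log_exp]
    exact hF κ hκ)
  have h2 : (Real.exp (A₀ * (β + 1))) ^ (η / (A₀ + 1)) ≤ Real.exp (η + η * β) := by
    rw [← Real.exp_mul, Real.exp_le_exp]
    have e1 : A₀ * (β + 1) * (η / (A₀ + 1)) = (A₀ / (A₀ + 1)) * (η + η * β) := by
      ring
    rw [e1]
    have e2 : A₀ / (A₀ + 1) ≤ 1 := by
      rw [div_le_one (by positivity)]; linarith
    have e3 : 0 ≤ η + η * β := by positivity
    nlinarith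
  have h3 : ∀ κ ∈ F, Real.exp (-z) ≤ ∏ v ∈ κ.support, (1 / nv v) := by
    intro κ hκ
    have e1 : ∏ v ∈ κ.support, (1 / nv v) = Real.exp (-∑ v ∈ κ.support, lnv v) := by
      rw [← Finset.sum_neg_distrib, Real.exp_sum]
      refine Finset.prod_congr rfl fun v _ => ?_
      unfold lnv
      rw [Real.exp_neg, Real.exp_log (nv_pos v), one_div]
    rw [e1, Real.exp_le_exp]
    linarith [hz κ hκ]
  have h4 : (F.card : ℝ) * Real.exp (-z) ≤ ∑ κ ∈ F, ∏ v ∈ κ.support, (1 / nv v) := by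
    rw [← nsmul_eq_mul, ← Finset.sum_const]
    exact Finset.sum_le_sum h3
  have h5 : (F.card : ℝ) * Real.exp (-z) ≤ C * Real.exp (η + η * β) :=
    h4.trans (h1.trans (mul_le_mul_of_nonneg_left h2 hC.le))
  calc (F.card : ℝ) = (F.card : ℝ) * Real.exp (-z) * Real.exp z := by
        rw [mul_assoc, ← Real.exp_add]; simp
    _ ≤ C * Real.exp (η + η * β) * Real.exp z :=
        mul_le_mul_of_nonneg_right h5 (Real.exp_pos _).le
    _ = C * Real.exp η * Real.exp (z + η * β) := by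
        rw [mul_assoc, mul_assoc, ← Real.exp_add, ← Real.exp_add]
        congr 2
        ring

theorem code_count_free (q : ℕ) (hq : 1 ≤ q) (A₀ η : ℝ) (hA₀ : 0 ≤ A₀) (hη : 0 < η) :
    ∃ C : ℝ, 0 < C ∧ ∀ β : ℝ, 0 ≤ β → ∀ (U : Finset (HeightOneSpectrum (𝓞 K)))
      (F : Finset (HeightOneSpectrum (𝓞 K) →₀ ℕ)),
      ∑ v ∈ U, lnv v ≤ A₀ * (β + 1) →
      (∀ κ ∈ F, κ.support ⊆ U) →
      (∀ κ ∈ F, ∑ v ∈ κ.support, (((κ v - 1) / q + 1 : ℕ) : ℝ) * lnv v ≤ A₀ * (β + 1)) →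
      (F.card : ℝ) ≤ C * Real.exp (η * β) := by
  classical
  set t : ℝ := η / (2 * (A₀ + 1)) with ht
  have ht0 : 0 < t := by rw [ht]; positivity
  have h2t : (2 : ℝ) ^ (-t) < 1 := Real.rpow_lt_one_of_one_lt_of_neg (by norm_num) (by linarith)
  set D : ℝ := q / (1 - (2 : ℝ) ^ (-t)) with hD
  have hq0 : (0 : ℝ) < q := by exact_mod_cast hq
  have hD0 : 0 < D := by
    rw [hD]
    exact div_pos hq0 (by linarith)
  obtain ⟨C2, hC2, hV⟩ := sum_nv_bound K 2 (by norm_num)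
  have hlog2 : 0 < Real.log 2 := Real.log_pos (by norm_num)
  set T0 : ℝ := (D / (t * Real.log 2)) ^ (1 / t) with hT0
  have hT0pos : 0 < T0 := by
    rw [hT0]; positivity
  -- local bound
  have hloc : ∀ v : HeightOneSpectrum (𝓞 K),
      D * (nv v) ^ (-t) ≤ t * lnv v + D * T0 ^ (2 : ℕ) * (nv v) ^ (-(2 : ℝ)) := by
    intro v
    have hn := nv_pos v
    have hl := lnv_pos v
    have hn1 := one_lt_nv v
    have hr0 : 0 < (nv v) ^ (-t) := Real.rpow_pos_of_pos hn _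
    have hr1 : (nv v) ^ (-t) ≤ 1 := Real.rpow_le_one_of_one_le_of_nonpos hn1.le (by linarith)
    have e2 : (nv v) ^ (-(2 : ℝ)) = 1 / (nv v) ^ (2 : ℕ) := by
      rw [Real.rpow_neg hn.le, one_div]
      norm_cast
    rcases le_total T0 (nv v) with hc | hc
    · -- large norm
      have h1 : T0 ^ t = D / (t * Real.log 2) := by
        rw [hT0, ← Real.rpow_mul (by positivity)]
        rw [one_div, inv_mul_cancel₀ ht0.ne', Real.rpow_one]
      have h2 : T0 ^ t ≤ (nv v) ^ t := Real.rpow_le_rpow hT0pos.le hc ht0.le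
      rw [h1] at h2
      have h3 : D ≤ (nv v) ^ t * (t * Real.log 2) := by
        rwa [div_le_iff₀ (by positivity)] at h2
      have h4 : D * (nv v) ^ (-t) ≤ t * Real.log 2 := by
        calc D * (nv v) ^ (-t) ≤ (nv v) ^ t * (t * Real.log 2) * (nv v) ^ (-t) :=
              mul_le_mul_of_nonneg_right h3 hr0.le
          _ = ((nv v) ^ t * (nv v) ^ (-t)) * (t * Real.log 2) := by ring
          _ = t * Real.log 2 := by
              rw [← Real.rpow_add hn]; simp
      have h5 : Real.log 2 ≤ lnv v := by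
        unfold lnv
        exact Real.log_le_log (by norm_num) (two_le_nv v)
      have h6 : 0 ≤ D * T0 ^ (2 : ℕ) * (nv v) ^ (-(2 : ℝ)) := by positivity
      have h7 : t * Real.log 2 ≤ t * lnv v := mul_le_mul_of_nonneg_left h5 ht0.le
      linarith
    · -- small norm
      have h1 : D * (nv v) ^ (-t) ≤ D := by nlinarith
      have h2 : D ≤ D * T0 ^ (2 : ℕ) * (nv v) ^ (-(2 : ℝ)) := by
        rw [e2]
        have h3 : (nv v) ^ (2 : ℕ) ≤ T0 ^ (2 : ℕ) := pow_le_pow_left₀ hn.le hc 2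
        rw [mul_one_div, le_div_iff₀ (by positivity)]
        exact mul_le_mul_of_nonneg_left h3 hD0.le
      have h4 : 0 ≤ t * lnv v := by positivity
      linarith
  refine ⟨Real.exp (η + D * T0 ^ (2 : ℕ) * C2), Real.exp_pos _, ?_⟩
  intro β hβ U F hU hsupp hF
  set g : HeightOneSpectrum (𝓞 K) → ℕ → ℝ := fun v m =>
    ((nv v) ^ (-t)) ^ ((m - 1) / q + 1) with hg
  have hg0 : ∀ v m, 0 ≤ g v m := by
    intro v m
    have := nv_pos v
    simp only [hg]
    positivity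
  set S : HeightOneSpectrum (𝓞 K) → ℝ := fun v => D * (nv v) ^ (-t) with hSdef
  have hS : ∀ v, ∀ M : ℕ, ∑ m ∈ Finset.Ico 1 M, g v m ≤ S v := by
    intro v M
    have hn := nv_pos v
    have hn2 := two_le_nv v
    have hr1 : (nv v) ^ (-t) ≤ (2 : ℝ) ^ (-t) :=
      Real.rpow_le_rpow_of_nonpos (by norm_num) hn2 (by linarith)
    have hr0 : 0 < (nv v) ^ (-t) := Real.rpow_pos_of_pos hn _
    have e1 : ∑ m ∈ Finset.Ico 1 M, g v m =
        ∑ m ∈ Finset.range (M - 1), ((nv v) ^ (-t)) ^ (m / q + 1) := by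
      rw [Finset.sum_Ico_eq_sum_range]
      apply Finset.sum_congr rfl
      intro m _
      simp only [hg]
      rw [Nat.add_sub_cancel_left]
    rw [e1]
    have e2 := sum_pow_block q hq _ hr0.le (lt_of_le_of_lt hr1 h2t) (M - 1)
    calc ∑ m ∈ Finset.range (M - 1), ((nv v) ^ (-t)) ^ (m / q + 1)
        ≤ q * ((nv v) ^ (-t) / (1 - (nv v) ^ (-t))) := e2
      _ ≤ q * ((nv v) ^ (-t) / (1 - (2 : ℝ) ^ (-t))) := by
          have : 0 < 1 - (2 : ℝ) ^ (-t) := by linarith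
          gcongr
      _ = S v := by
          simp only [hSdef, hD]
          ring
  have hone : ∀ κ ∈ F, (1 : ℝ) ≤ Real.exp (t * (A₀ * (β + 1))) * ∏ v ∈ κ.support, g v (κ v) := by
    intro κ hκ
    have e2 : ∏ v ∈ κ.support, g v (κ v) =
        Real.exp (-t * ∑ v ∈ κ.support, (((κ v - 1) / q + 1 : ℕ) : ℝ) * lnv v) := by
      rw [Finset.mul_sum, Real.exp_sum]
      apply Finset.prod_congr rfl
      intro v _
      have hn := nv_pos v
      simp only [hg]
      rw [← Real.rpow_natCast, ← Real.rpow_mul hn.le, Real.rpow_def_of_pos hn]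
      congr 1
      unfold lnv
      ring
    rw [e2, ← Real.exp_add, Real.one_le_exp_iff]
    have := hF κ hκ
    nlinarith
  have hsum : ∑ κ ∈ F, ∏ v ∈ κ.support, g v (κ v) ≤
      Real.exp (t * (A₀ * (β + 1)) + D * T0 ^ (2 : ℕ) * C2) := by
    refine (sum_finsupp_le F g hg0 S hS).trans ?_
    rw [Real.exp_le_exp]
    have hsub : F.biUnion (fun κ => κ.support) ⊆ U := by
      intro v hv
      rw [Finset.mem_biUnion] at hv
      obtain ⟨κ, hκ, hv⟩ := hv
      exact hsupp κ hκ hv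
    calc ∑ v ∈ F.biUnion (fun κ => κ.support), S v ≤ ∑ v ∈ U, S v := by
          refine Finset.sum_le_sum_of_subset_of_nonneg hsub fun v _ _ => ?_
          have := nv_pos v
          simp only [hSdef]
          positivity
      _ ≤ ∑ v ∈ U, (t * lnv v + D * T0 ^ (2 : ℕ) * (nv v) ^ (-(2 : ℝ))) :=
          Finset.sum_le_sum fun v _ => hloc v
      _ = t * ∑ v ∈ U, lnv v + D * T0 ^ (2 : ℕ) * ∑ v ∈ U, (nv v) ^ (-(2 : ℝ)) := by
          rw [Finset.sum_add_distrib, Finset.mul_sum, Finset.mul_sum]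
      _ ≤ t * (A₀ * (β + 1)) + D * T0 ^ (2 : ℕ) * C2 := by
          have h1 := hV U
          have h2 : 0 ≤ D * T0 ^ (2 : ℕ) := by positivity
          have h3 := mul_le_mul_of_nonneg_left hU ht0.le
          have h4 := mul_le_mul_of_nonneg_left h1 h2
          linarith
  calc (F.card : ℝ) = ∑ κ ∈ F, (1 : ℝ) := by simp
    _ ≤ ∑ κ ∈ F, Real.exp (t * (A₀ * (β + 1))) * ∏ v ∈ κ.support, g v (κ v) :=
        Finset.sum_le_sum hone
    _ = Real.exp (t * (A₀ * (β + 1))) * ∑ κ ∈ F, ∏ v ∈ κ.support, g v (κ v) := by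
        rw [Finset.mul_sum]
    _ ≤ Real.exp (t * (A₀ * (β + 1))) *
        Real.exp (t * (A₀ * (β + 1)) + D * T0 ^ (2 : ℕ) * C2) :=
        mul_le_mul_of_nonneg_left hsum (Real.exp_pos _).le
    _ ≤ Real.exp (η + D * T0 ^ (2 : ℕ) * C2) * Real.exp (η * β) := by
        rw [← Real.exp_add, ← Real.exp_add, Real.exp_le_exp]
        have h1 : t * (A₀ * (β + 1)) + t * (A₀ * (β + 1)) = (A₀ / (A₀ + 1)) * (η * (β + 1)) := by
          rw [ht]
          field_simp
          ring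
        have h2 : A₀ / (A₀ + 1) ≤ 1 := by
          rw [div_le_one (by positivity)]; linarith
        have h3 : 0 ≤ η * (β + 1) := by positivity
        have h4 : (A₀ / (A₀ + 1)) * (η * (β + 1)) ≤ 1 * (η * (β + 1)) :=
          mul_le_mul_of_nonneg_right h2 h3
        linarith

end codes

end Pool.Agent.Lib.MP_4d5ce1_nt
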