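import Pool.Agent.Lib.MP_4d5ce1_nt.Master

set_option autoImplicit false
set_option linter.unusedSectionVars false

open NumberField IsDedekindDomain

namespace Pool.Agent.Lib.MP_4d5ce1_nt

variable {K : Type*} [Field K] [NumberField K] {q : ℕ}

/-- The three points `0, ∞, 1`. -/
def al3 (K : Type*) [Field K] : Fin 3 → K × K := ![(0, 1), (1, 0), (1, 1)]

/-- `y = t_x / t_{x'}` with `t = L_i / L_j`, as a point of the projective line. -/
noncomputable def yy (α : Fin q → K × K) (i j : Fin q) (x x' : K × K) : K × K :=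
  (tt (α i) (α j) x / tt (α i) (α j) x', 1)

open Classical in
/-- The code of `x` on a set of primes, together with the finite key. -/
noncomputable def cd [NeZero q] (α : Fin q → K × K) (bad : Finset (HeightOneSpectrum (𝓞 K)))
    (P : K × K → Finset (HeightOneSpectrum (𝓞 K))) (x : K × K) :
    (KeyIdx K q bad → ℤ) × (HeightOneSpectrum (𝓞 K) →₀ ℕ) :=
  (key1 α bad x, kap α x (P x))

open Classical in
/-- The common part of `x` and `x'` inside `A`. -/
noncomputable def comm [NeZero q] (α : Fin q → K × K)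
    (A : K × K → Finset (HeightOneSpectrum (𝓞 K))) (x x' : K × K) :
    Finset (HeightOneSpectrum (𝓞 K)) :=
  (A x ∩ A x').filter fun v => labF α x v = labF α x' v ∧ expF α x v = expF α x' v

/-! ## Module G : block configurations and strategies

Blocks are numbered `b < E`: block `b` with `b + 1 < E` holds the primes of exponent `b + 1`, and
block `E - 1` holds the primes of exponent `≥ E` (the rest). -/

/-- A configuration: block sizes, and the index of the rest block of each form. The same type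
is used for the common parts `γ`. -/
structure Cfg where
  S : Fin 3 → ℕ → ℝ
  J : Fin 3 → ℝ

/-- Index of block `b` of form `l`. -/
def Cfg.I (E : ℕ) (p : Cfg) (l : Fin 3) (b : ℕ) : ℝ :=
  if b + 1 = E then p.J l else ((b : ℝ) + 1) * p.S l b

/-- Admissible configuration up to `ε`. -/
def Adm (E : ℕ) (ε : ℝ) (p : Cfg) : Prop :=
  (∀ l, ∀ b ∈ Finset.range E, -ε ≤ p.S l b) ∧
  (∀ l, (E : ℝ) * p.S l (E - 1) ≤ p.J l + ε) ∧
  (∀ l, ∑ b ∈ Finset.range E, p.I E l b = 1) ∧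
  (∑ l, ∑ b ∈ Finset.range E, p.S l b ≤ 1 + ε)

/-- Basic tool: `A l b` says that block `b` of the form `l ≠ k` is left out (an `n`-th power). -/
structure BT where
  k : Fin 3
  n : ℕ
  A : Fin 3 → ℕ → Bool
  T : ℕ → Bool

def BT.ok (E : ℕ) (t : BT) : Prop :=
  1 ≤ t.n ∧ t.n ≤ E ∧ ∀ l, l ≠ t.k → ∀ b ∈ Finset.range E, t.A l b = true →
    if b + 1 = E then t.n = 1 else t.n ∣ b + 1

noncomputable def BT.cost (E : ℕ) (t : BT) (p : Cfg) : ℝ :=
  (∑ l ∈ Finset.univ.filter (fun l => l ≠ t.k), ∑ b ∈ Finset.range E,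
      (if t.A l b then 0 else p.S l b)) +
    (∑ b ∈ Finset.range E, (if t.T b then p.S t.k b else 0)) +
    max 0 ((∑ l ∈ Finset.univ.filter (fun l => l ≠ t.k), ∑ b ∈ Finset.range E,
      (if t.A l b then p.I E l b else 0)) / (t.n : ℝ) -
      ∑ b ∈ Finset.range E, (if t.T b then p.I E t.k b else 0))

/-- `γ` is an admissible common part (up to `ε`) for the side `A` (blocks of the forms `≠ k`)
and the block set `T` of the form `k`. -/
def AdmG (E : ℕ) (ε : ℝ) (p : Cfg) (k : Fin 3) (A : Fin 3 → ℕ → Bool) (T : ℕ → Bool)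
    (g : Cfg) : Prop :=
  (∀ l, l ≠ k → ∀ b ∈ Finset.range E, A l b = true → -ε ≤ g.S l b ∧ g.S l b ≤ p.S l b + ε) ∧
  (∀ l, l ≠ k → A l (E - 1) = true → (E : ℝ) * g.S l (E - 1) ≤ g.J l + ε ∧
    (E : ℝ) * (p.S l (E - 1) - g.S l (E - 1)) ≤ p.J l - g.J l + ε) ∧
  (∑ b ∈ Finset.range E, (if T b then p.I E k b else 0) ≤
    ∑ l ∈ Finset.univ.filter (fun l => l ≠ k), ∑ b ∈ Finset.range E,
      (if A l b then p.I E l b - g.I E l b else 0) + ε)

/-- Tool for pairs: `out l b ∈ {0,1,2}` copies of block `b` of form `l` are left out. -/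
structure YT where
  n : ℕ
  out : Fin 3 → ℕ → ℕ
  tp : ℕ → Bool

def YT.ok (E : ℕ) (k : Fin 3) (A : Fin 3 → ℕ → Bool) (T : ℕ → Bool) (t : YT) : Prop :=
  1 ≤ t.n ∧ t.n ≤ E ∧
  (∀ l, l ≠ k → ∀ b ∈ Finset.range E, A l b = true → t.out l b ≤ 2 ∧
    (1 ≤ t.out l b → if b + 1 = E then t.n = 1 else t.n ∣ b + 1)) ∧
  (∀ b ∈ Finset.range E, t.tp b = true → T b = true)

noncomputable def YT.cost (E : ℕ) (k : Fin 3) (A : Fin 3 → ℕ → Bool) (t : YT) (p g : Cfg) : ℝ :=
  (∑ l ∈ Finset.univ.filter (fun l => l ≠ k), ∑ b ∈ Finset.range E,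
      (if A l b then (2 - (t.out l b : ℝ)) * (p.S l b - g.S l b) + g.S l b else 0)) +
    (∑ b ∈ Finset.range E, (if t.tp b then p.S k b else 0)) +
    max 0 ((∑ l ∈ Finset.univ.filter (fun l => l ≠ k), ∑ b ∈ Finset.range E,
      (if A l b then (t.out l b : ℝ) * (p.I E l b - g.I E l b) else 0)) / (t.n : ℝ) -
      ∑ b ∈ Finset.range E, (if t.tp b then p.I E k b else 0))

def GoodSide (E : ℕ) (ε : ℝ) (p : Cfg) (k : Fin 3) (A : Fin 3 → ℕ → Bool) (T : ℕ → Bool)
    (thr : ℝ) : Prop :=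
  ∀ g : Cfg, AdmG E ε p k A T g → ∃ t : YT, t.ok E k A T ∧ t.cost E k A p g ≤ thr

/-- A bilinear strategy of value `≤ thr` exists. -/
def GoodBil (E : ℕ) (ε : ℝ) (p : Cfg) (thr : ℝ) : Prop :=
  ∃ (k : Fin 3) (U : Fin 3 → ℕ → Bool) (T : ℕ → Bool) (m : ℝ), m ≤ thr ∧
    (∑ l ∈ Finset.univ.filter (fun l => l ≠ k), ∑ b ∈ Finset.range E,
      (if U l b then 0 else p.S l b)) +
      (∑ b ∈ Finset.range E, (if T b then p.S k b else 0)) ≤ m ∧
    GoodSide E ε p k (fun l b => !(U l b)) T m ∧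
    GoodSide E ε p k U T (2 * thr - m)

/-- The certified statement: every admissible configuration has a good strategy. -/
def Cert (E : ℕ) (θ : ℝ) : Prop :=
  ∃ ε₀ : ℝ, 0 < ε₀ ∧ ∀ ε : ℝ, 0 < ε → ε ≤ ε₀ → ∀ p : Cfg, Adm E ε p →
    (∃ t : BT, t.ok E ∧ t.cost E p ≤ θ) ∨ GoodBil E ε p θ

/-- The radical of form `l`. -/
def Cfg.rad (E : ℕ) (p : Cfg) (l : Fin 3) : ℝ := ∑ b ∈ Finset.range E, p.S l b

/-- The same for configurations whose radicals are sorted. -/
def CertSorted (E : ℕ) (θ : ℝ) : Prop :=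
  ∃ ε₀ : ℝ, 0 < ε₀ ∧ ∀ ε : ℝ, 0 < ε → ε ≤ ε₀ → ∀ p : Cfg, Adm E ε p →
    p.rad E 1 ≤ p.rad E 0 → p.rad E 2 ≤ p.rad E 1 →
    (∃ t : BT, t.ok E ∧ t.cost E p ≤ θ) ∨ GoodBil E ε p θ

end Pool.Agent.Lib.MP_4d5ce1_nt
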