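import Mathlib

set_option autoImplicit false

namespace Pool.Agent.Lib.MP_4d5ce1_nt

open Classical in
/-- Cost of the counting tool `(n, i, j, W)` for a combinatorial configuration:
`P` is a finite set of primes, `lab v` the form that `v` divides, `e v` its exponent, `b v` its
logarithmic size, and `I l ≥ 0` the index of the form `l` at the bad and infinite places. -/
noncomputable def toolCost {ι : Type*} {q : ℕ} (P : Finset ι) (lab : ι → Fin q) (e : ι → ℕ)
    (b : ι → ℝ) (I : Fin q → ℝ) (n : ℕ) (i j : Fin q) (W : Finset ι) : ℝ :=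
  ∑ v ∈ W, b v +
    max 0 ((∑ v ∈ P.filter (fun v => v ∉ W ∧ (lab v = i ∨ lab v = j)), (e v : ℝ) * b v) / (n : ℝ)
      - ∑ v ∈ W.filter (fun v => lab v ≠ i ∧ lab v ≠ j), (e v : ℝ) * b v
      - ∑ l ∈ Finset.univ.filter (fun l => l ≠ i ∧ l ≠ j), I l)

/-- The configuration admits a tool of level at most `N` and cost at most `c`. -/
def HasTool {ι : Type*} {q : ℕ} (P : Finset ι) (lab : ι → Fin q) (e : ι → ℕ)
    (b : ι → ℝ) (I : Fin q → ℝ) (N : ℕ) (c : ℝ) : Prop :=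
  ∃ n : ℕ, 1 ≤ n ∧ n ≤ N ∧ ∃ i j : Fin q, i ≠ j ∧ ∃ W : Finset ι, W ⊆ P ∧
    (∀ v ∈ P, v ∉ W → (lab v = i ∨ lab v = j) → n ∣ e v) ∧
    toolCost P lab e b I n i j W ≤ c

end Pool.Agent.Lib.MP_4d5ce1_nt
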