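import Pool.Agent.Lib.MP_4d5ce1_nt.Basic
import Pool.Agent.Lib.MP_4d5ce1_nt.Combi

section

set_option autoImplicit false

open NumberField IsDedekindDomain

namespace Pool.Agent.Lib.MP_4d5ce1_nt

set_option linter.unusedSectionVars false

variable {K : Type*} [Field K] [NumberField K]

/-- `x ∧ y`. -/
def wedge (x y : K × K) : K := x.1 * y.2 - x.2 * y.1

/-- Size at a finite place. -/
noncomputable def sz (v : HeightOneSpectrum (𝓞 K)) (x : K × K) : ℝ := max (fa v x.1) (fa v x.2)

/-- Size at an infinite place. -/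
noncomputable def szi (w : InfinitePlace K) (x : K × K) : ℝ := max (w x.1) (w x.2)

/-- Local height at a finite place (unnormalised). -/
noncomputable def lamf (v : HeightOneSpectrum (𝓞 K)) (a x : K × K) : ℝ :=
  Real.log (sz v x * sz v a / fa v (wedge x a))

/-- Local height at an infinite place (without multiplicity). -/
noncomputable def lami (w : InfinitePlace K) (a x : K × K) : ℝ :=
  Real.log (szi w x * szi w a / w (wedge x a))

/-- Unnormalised logarithmic height. -/
noncomputable def hh (x : K × K) : ℝ :=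
  ∑ w : InfinitePlace K, (w.mult : ℝ) * Real.log (szi w x) +
    ∑ᶠ v : HeightOneSpectrum (𝓞 K), Real.log (sz v x)

/-- The exponent: `lamf v a x = ef v a x * log (nv v)`. -/
noncomputable def ef (v : HeightOneSpectrum (𝓞 K)) (a x : K × K) : ℕ :=
  ⌊lamf v a x / Real.log (nv v)⌋₊

lemma plucker (x y a b : K × K) :
    wedge x a * wedge y b - wedge x b * wedge y a = wedge x y * wedge a b := by
  unfold wedge; ring

lemma three_term1 (x y a : K × K) :
    wedge x y * a.1 = wedge x a * y.1 - wedge y a * x.1 := by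
  unfold wedge; ring

lemma three_term2 (x y a : K × K) :
    wedge x y * a.2 = wedge x a * y.2 - wedge y a * x.2 := by
  unfold wedge; ring

lemma wedge_left_ne {x a : K × K} (h : wedge x a ≠ 0) : x ≠ 0 := by
  rintro rfl; exact h (by simp [wedge])

lemma wedge_right_ne {x a : K × K} (h : wedge x a ≠ 0) : a ≠ 0 := by
  rintro rfl; exact h (by simp [wedge])

lemma pair_ne_zero {x : K × K} (hx : x ≠ 0) : x.1 ≠ 0 ∨ x.2 ≠ 0 := by
  by_contra h
  push Not at h
  exact hx (Prod.ext h.1 h.2)

lemma sz_pos (v : HeightOneSpectrum (𝓞 K)) {x : K × K} (hx : x ≠ 0) : 0 < sz v x := by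
  rcases pair_ne_zero hx with h | h
  · exact (fa_pos v h).trans_le (le_max_left _ _)
  · exact (fa_pos v h).trans_le (le_max_right _ _)

lemma sz_nonneg (v : HeightOneSpectrum (𝓞 K)) (x : K × K) : 0 ≤ sz v x :=
  (fa_nonneg v x.1).trans (le_max_left _ _)

lemma szi_pos (w : InfinitePlace K) {x : K × K} (hx : x ≠ 0) : 0 < szi w x := by
  rcases pair_ne_zero hx with h | h
  · exact (InfinitePlace.pos_iff.mpr h).trans_le (le_max_left _ _)
  · exact (InfinitePlace.pos_iff.mpr h).trans_le (le_max_right _ _)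

lemma szi_nonneg (w : InfinitePlace K) (x : K × K) : 0 ≤ szi w x :=
  (apply_nonneg w x.1).trans (le_max_left _ _)

lemma fa_wedge_le (v : HeightOneSpectrum (𝓞 K)) (x y : K × K) :
    fa v (wedge x y) ≤ sz v x * sz v y := by
  unfold wedge
  refine (fa_sub_le v _ _).trans (max_le ?_ ?_)
  · rw [fa_mul]
    exact mul_le_mul (le_max_left _ _) (le_max_right _ _) (fa_nonneg v _) (sz_nonneg v _)
  · rw [fa_mul]
    exact mul_le_mul (le_max_right _ _) (le_max_left _ _) (fa_nonneg v _) (sz_nonneg v _)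

lemma w_sub_le (w : InfinitePlace K) (x y : K) : w (x - y) ≤ w x + w y := by
  have h := w.1.add_le x (-y)
  have h2 : w.1 (-y) = w.1 y := w.1.map_neg y
  rw [h2, ← sub_eq_add_neg] at h
  exact h

lemma w_add_le (w : InfinitePlace K) (x y : K) : w (x + y) ≤ w x + w y := w.1.add_le x y

lemma w_wedge_le (w : InfinitePlace K) (x y : K × K) :
    w (wedge x y) ≤ 2 * (szi w x * szi w y) := by
  unfold wedge
  refine (w_sub_le w _ _).trans ?_
  rw [map_mul, map_mul]
  have h1 : w x.1 * w y.2 ≤ szi w x * szi w y :=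
    mul_le_mul (le_max_left _ _) (le_max_right _ _) (apply_nonneg w _) (szi_nonneg w _)
  have h2 : w x.2 * w y.1 ≤ szi w x * szi w y :=
    mul_le_mul (le_max_right _ _) (le_max_left _ _) (apply_nonneg w _) (szi_nonneg w _)
  linarith

/-- Ultrametric three-term inequality. -/
lemma fa_three (v : HeightOneSpectrum (𝓞 K)) (x y a : K × K) :
    fa v (wedge x y) * sz v a ≤
      max (fa v (wedge x a) * sz v y) (fa v (wedge y a) * sz v x) := by
  have key : ∀ p q r : K, wedge x y * p = wedge x a * q - wedge y a * r →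
      fa v q ≤ sz v y → fa v r ≤ sz v x →
      fa v (wedge x y) * fa v p ≤
        max (fa v (wedge x a) * sz v y) (fa v (wedge y a) * sz v x) := by
    intro p q r h hq hr
    rw [← fa_mul, h]
    refine (fa_sub_le v _ _).trans (max_le_max ?_ ?_)
    · rw [fa_mul]; exact mul_le_mul_of_nonneg_left hq (fa_nonneg v _)
    · rw [fa_mul]; exact mul_le_mul_of_nonneg_left hr (fa_nonneg v _)
  unfold sz at *
  rw [mul_max_of_nonneg _ _ (fa_nonneg v _)]
  apply max_le
  · exact key _ _ _ (three_term1 x y a) (le_max_left _ _) (le_max_left _ _)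
  · exact key _ _ _ (three_term2 x y a) (le_max_right _ _) (le_max_right _ _)

/-- Archimedean three-term inequality. -/
lemma w_three (w : InfinitePlace K) (x y a : K × K) :
    w (wedge x y) * szi w a ≤ w (wedge x a) * szi w y + w (wedge y a) * szi w x := by
  have key : ∀ p q r : K, wedge x y * p = wedge x a * q - wedge y a * r →
      w q ≤ szi w y → w r ≤ szi w x →
      w (wedge x y) * w p ≤ w (wedge x a) * szi w y + w (wedge y a) * szi w x := by
    intro p q r h hq hr
    rw [← map_mul, h]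
    refine (w_sub_le w _ _).trans (add_le_add ?_ ?_)
    · rw [map_mul]; exact mul_le_mul_of_nonneg_left hq (apply_nonneg w _)
    · rw [map_mul]; exact mul_le_mul_of_nonneg_left hr (apply_nonneg w _)
  unfold szi at *
  rw [mul_max_of_nonneg _ _ (apply_nonneg w _)]
  apply max_le
  · exact key _ _ _ (three_term1 x y a) (le_max_left _ _) (le_max_left _ _)
  · exact key _ _ _ (three_term2 x y a) (le_max_right _ _) (le_max_right _ _)

lemma exists_zpow_sz (v : HeightOneSpectrum (𝓞 K)) {x : K × K} (hx : x ≠ 0) :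
    ∃ m : ℤ, sz v x = nv v ^ m := by
  unfold sz
  rcases max_choice (fa v x.1) (fa v x.2) with h | h
  · rw [h]
    by_cases h0 : x.1 = 0
    · exfalso
      rw [h0, fa_zero] at h
      have h1 := sz_pos v hx
      unfold sz at h1
      rw [h0, fa_zero, h] at h1
      exact lt_irrefl _ h1
    · exact ⟨_, fa_eq v h0⟩
  · rw [h]
    by_cases h0 : x.2 = 0
    · exfalso
      rw [h0, fa_zero] at h
      have h1 := sz_pos v hx
      unfold sz at h1
      rw [h0, fa_zero, h] at h1
      exact lt_irrefl _ h1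
    · exact ⟨_, fa_eq v h0⟩

lemma lamf_eq (v : HeightOneSpectrum (𝓞 K)) {a x : K × K} (h : wedge x a ≠ 0) :
    lamf v a x = (ef v a x : ℝ) * Real.log (nv v) := by
  have hx := wedge_left_ne h
  have ha := wedge_right_ne h
  obtain ⟨m, hm⟩ := exists_zpow_sz v hx
  obtain ⟨k, hk⟩ := exists_zpow_sz v ha
  have hq : sz v x * sz v a / fa v (wedge x a) = nv v ^ (m + k + ordv v (wedge x a)) := by
    rw [hm, hk, fa_eq v h, zpow_add₀ (nv_ne_zero v), zpow_add₀ (nv_ne_zero v), zpow_neg,
      div_inv_eq_mul]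
  have hge : 0 ≤ m + k + ordv v (wedge x a) := by
    have h1 : 1 ≤ sz v x * sz v a / fa v (wedge x a) := by
      rw [le_div_iff₀ (fa_pos v h), one_mul]
      exact fa_wedge_le v x a
    rw [hq] at h1
    by_contra hneg
    push Not at hneg
    have : nv v ^ (m + k + ordv v (wedge x a)) < 1 := zpow_lt_one_of_neg₀ (one_lt_nv v) hneg
    linarith
  obtain ⟨e, he⟩ := Int.eq_ofNat_of_zero_le hge
  have hl : lamf v a x = (e : ℝ) * Real.log (nv v) := by
    unfold lamf
    rw [hq, he, Real.log_zpow]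
    simp
  unfold ef
  rw [hl, mul_div_cancel_right₀ _ (log_nv_pos v).ne', Nat.floor_natCast]

lemma lamf_nonneg (v : HeightOneSpectrum (𝓞 K)) {a x : K × K} (h : wedge x a ≠ 0) :
    0 ≤ lamf v a x := by
  rw [lamf_eq v h]
  have := log_nv_pos v
  positivity

lemma fa_wedge_eq (v : HeightOneSpectrum (𝓞 K)) {a x : K × K} (h : wedge x a ≠ 0) :
    fa v (wedge x a) = sz v x * sz v a * (nv v ^ (ef v a x))⁻¹ := by
  have hx := sz_pos v (wedge_left_ne h)
  have ha := sz_pos v (wedge_right_ne h)
  have hf := fa_pos v h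
  have h1 := lamf_eq v h
  unfold lamf at h1
  have h2 : sz v x * sz v a / fa v (wedge x a) = nv v ^ (ef v a x) := by
    apply Real.log_injOn_pos (Set.mem_Ioi.mpr (by positivity))
      (Set.mem_Ioi.mpr (pow_pos (nv_pos v) _))
    rw [h1, Real.log_pow]
  rw [← h2]
  field_simp

lemma w_wedge_eq (w : InfinitePlace K) {a x : K × K} (h : wedge x a ≠ 0) :
    w (wedge x a) = szi w x * szi w a * Real.exp (- lami w a x) := by
  have hx := szi_pos w (wedge_left_ne h)
  have ha := szi_pos w (wedge_right_ne h)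
  have hf : 0 < w (wedge x a) := InfinitePlace.pos_iff.mpr h
  unfold lami
  rw [Real.exp_neg, Real.exp_log (by positivity)]
  field_simp

lemma lami_ge (w : InfinitePlace K) {a x : K × K} (h : wedge x a ≠ 0) :
    - Real.log 2 ≤ lami w a x := by
  have hx := szi_pos w (wedge_left_ne h)
  have ha := szi_pos w (wedge_right_ne h)
  have hf : 0 < w (wedge x a) := InfinitePlace.pos_iff.mpr h
  unfold lami
  rw [← Real.log_inv]
  apply Real.log_le_log (by norm_num)
  rw [le_div_iff₀ hf]
  have := w_wedge_le w x a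
  linarith

lemma finite_sz_ne_one {x : K × K} (hx : x ≠ 0) :
    {v : HeightOneSpectrum (𝓞 K) | sz v x ≠ 1}.Finite := by
  by_cases h1 : x.1 = 0
  · have h2 : x.2 ≠ 0 := by
      rcases pair_ne_zero hx with h | h
      · exact absurd h1 h
      · exact h
    refine (finite_fa_ne_one h2).subset ?_
    intro v hv h
    apply hv
    unfold sz
    rw [h1, fa_zero, h]
    exact max_eq_right zero_le_one
  · by_cases h2 : x.2 = 0
    · refine (finite_fa_ne_one h1).subset ?_
      intro v hv h
      apply hv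
      unfold sz
      rw [h2, fa_zero, h]
      exact max_eq_left zero_le_one
    · refine ((finite_fa_ne_one h1).union (finite_fa_ne_one h2)).subset ?_
      intro v hv
      by_contra hc
      rw [Set.mem_union] at hc
      push Not at hc
      obtain ⟨h3, h4⟩ := hc
      apply hv
      unfold sz
      have h3' : fa v x.1 = 1 := by
        by_contra h; exact h3 h
      have h4' : fa v x.2 = 1 := by
        by_contra h; exact h4 h
      rw [h3', h4', max_self]

lemma finite_ef_ne_zero {a x : K × K} (h : wedge x a ≠ 0) :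
    {v : HeightOneSpectrum (𝓞 K) | ef v a x ≠ 0}.Finite := by
  refine (((finite_sz_ne_one (wedge_left_ne h)).union
    (finite_sz_ne_one (wedge_right_ne h))).union (finite_fa_ne_one h)).subset ?_
  intro v hv
  by_contra hc
  simp only [Set.mem_union, not_or] at hc
  obtain ⟨⟨h1, h2⟩, h3⟩ := hc
  have h1' : sz v x = 1 := by by_contra h'; exact h1 h'
  have h2' : sz v a = 1 := by by_contra h'; exact h2 h'
  have h3' : fa v (wedge x a) = 1 := by by_contra h'; exact h3 h'
  apply hv
  unfold ef lamf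
  rw [h1', h2', h3']
  simp

/-- First main theorem. -/
lemma first_main {a x : K × K} (h : wedge x a ≠ 0) :
    ∑ w : InfinitePlace K, (w.mult : ℝ) * lami w a x +
      ∑ᶠ v : HeightOneSpectrum (𝓞 K), (ef v a x : ℝ) * Real.log (nv v) = hh x + hh a := by
  have hx := wedge_left_ne h
  have ha := wedge_right_ne h
  have hpf := product_formula h
  have h1 : ∑ w : InfinitePlace K, (w.mult : ℝ) * lami w a x =
      ∑ w : InfinitePlace K, (w.mult : ℝ) * Real.log (szi w x) +
      ∑ w : InfinitePlace K, (w.mult : ℝ) * Real.log (szi w a) -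
      ∑ w : InfinitePlace K, (w.mult : ℝ) * Real.log (w (wedge x a)) := by
    rw [← Finset.sum_add_distrib, ← Finset.sum_sub_distrib]
    refine Finset.sum_congr rfl fun w _ => ?_
    unfold lami
    have hwf : 0 < w (wedge x a) := InfinitePlace.pos_iff.mpr h
    rw [Real.log_div (mul_pos (szi_pos w hx) (szi_pos w ha)).ne' hwf.ne',
      Real.log_mul (szi_pos w hx).ne' (szi_pos w ha).ne']
    ring
  have hs1 : (Function.support fun v : HeightOneSpectrum (𝓞 K) => Real.log (sz v x)).Finite := by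
    refine (finite_sz_ne_one hx).subset fun v hv hv' => ?_
    rw [Function.mem_support] at hv
    exact hv (by rw [hv', Real.log_one])
  have hs2 : (Function.support fun v : HeightOneSpectrum (𝓞 K) => Real.log (sz v a)).Finite := by
    refine (finite_sz_ne_one ha).subset fun v hv hv' => ?_
    rw [Function.mem_support] at hv
    exact hv (by rw [hv', Real.log_one])
  have hs3 : (Function.support fun v : HeightOneSpectrum (𝓞 K) =>
      Real.log (fa v (wedge x a))).Finite := by
    refine (finite_fa_ne_one h).subset fun v hv hv' => ?_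
    rw [Function.mem_support] at hv
    exact hv (by rw [hv', Real.log_one])
  have hs12 : (Function.support fun v : HeightOneSpectrum (𝓞 K) =>
      Real.log (sz v x) + Real.log (sz v a)).Finite := by
    refine (hs1.union hs2).subset ?_
    exact Function.support_add _ _
  have h2 : ∑ᶠ v : HeightOneSpectrum (𝓞 K), (ef v a x : ℝ) * Real.log (nv v) =
      ∑ᶠ v : HeightOneSpectrum (𝓞 K), Real.log (sz v x) +
      ∑ᶠ v : HeightOneSpectrum (𝓞 K), Real.log (sz v a) -
      ∑ᶠ v : HeightOneSpectrum (𝓞 K), Real.log (fa v (wedge x a)) := by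
    rw [← finsum_add_distrib hs1 hs2, ← finsum_sub_distrib hs12 hs3]
    refine finsum_congr fun v => ?_
    rw [← lamf_eq v h]
    unfold lamf
    rw [Real.log_div (mul_pos (sz_pos v hx) (sz_pos v ha)).ne' (fa_pos v h).ne',
      Real.log_mul (sz_pos v hx).ne' (sz_pos v ha).ne']
  unfold hh
  rw [h1, h2]
  linarith

lemma hh_nonneg {x : K × K} (hx : x ≠ 0) : 0 ≤ hh x := by
  have key : ∀ p : K, p ≠ 0 → (∀ w : InfinitePlace K, w p ≤ szi w x) →
      (∀ v : HeightOneSpectrum (𝓞 K), fa v p ≤ sz v x) → 0 ≤ hh x := by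
    intro p hp h1 h2
    rw [← product_formula hp]
    unfold hh
    apply add_le_add
    · apply Finset.sum_le_sum
      intro w _
      apply mul_le_mul_of_nonneg_left _ (Nat.cast_nonneg _)
      exact Real.log_le_log (InfinitePlace.pos_iff.mpr hp) (h1 w)
    · refine finsum_le_finsum' ?_ ?_ ?_
      · refine (finite_fa_ne_one hp).subset fun v hv hv' => ?_
        rw [Function.mem_support] at hv
        exact hv (by rw [hv', Real.log_one])
      · refine (finite_sz_ne_one hx).subset fun v hv hv' => ?_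
        rw [Function.mem_support] at hv
        exact hv (by rw [hv', Real.log_one])
      · intro v
        exact Real.log_le_log (fa_pos v hp) (h2 v)
  rcases pair_ne_zero hx with h | h
  · exact key _ h (fun w => le_max_left _ _) (fun v => le_max_left _ _)
  · exact key _ h (fun w => le_max_right _ _) (fun v => le_max_right _ _)

end Pool.Agent.Lib.MP_4d5ce1_nt
end

section

set_option autoImplicit false
set_option linter.unusedSectionVars false

open NumberField IsDedekindDomain

namespace Pool.Agent.Lib.MP_4d5ce1_nt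

variable {K : Type*} [Field K] [NumberField K] {q : ℕ}

lemma wedge_comm (x y : K × K) : wedge x y = - wedge y x := by
  unfold wedge; ring

lemma fa_wedge_comm (v : HeightOneSpectrum (𝓞 K)) (x y : K × K) :
    fa v (wedge x y) = fa v (wedge y x) := by
  rw [wedge_comm, fa_neg]

lemma w_neg (w : InfinitePlace K) (x : K) : w (-x) = w x := w.1.map_neg x

lemma w_wedge_comm (w : InfinitePlace K) (x y : K × K) :
    w (wedge x y) = w (wedge y x) := by
  rw [wedge_comm, w_neg]

/-- Separation at a finite place. -/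
lemma fin_sep (v : HeightOneSpectrum (𝓞 K)) {a b x : K × K} (hab : wedge a b ≠ 0)
    (ha : wedge x a ≠ 0) (hb : wedge x b ≠ 0) :
    min (ef v a x) (ef v b x) ≤ ef v b a := by
  have hx := sz_pos v (wedge_left_ne ha)
  have hA := sz_pos v (wedge_right_ne ha)
  have hB := sz_pos v (wedge_right_ne hb)
  have h3 := fa_three v a b x
  rw [fa_wedge_comm v a x, fa_wedge_comm v b x, fa_wedge_eq v ha, fa_wedge_eq v hb,
    fa_wedge_eq v hab] at h3
  set m := min (ef v a x) (ef v b x) with hm
  have hp : ∀ k : ℕ, m ≤ k → (nv v ^ k)⁻¹ ≤ (nv v ^ m)⁻¹ := by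
    intro k hk
    apply inv_anti₀ (pow_pos (nv_pos v) _)
    exact pow_le_pow_right₀ (one_lt_nv v).le hk
  have h4 : sz v a * sz v b * (nv v ^ (ef v b a))⁻¹ * sz v x ≤
      sz v a * sz v b * sz v x * (nv v ^ m)⁻¹ := by
    refine h3.trans (max_le ?_ ?_)
    · have := hp _ (min_le_left _ _ : m ≤ ef v a x)
      calc sz v x * sz v a * (nv v ^ ef v a x)⁻¹ * sz v b
          = (sz v a * sz v b * sz v x) * (nv v ^ ef v a x)⁻¹ := by ring
        _ ≤ _ := mul_le_mul_of_nonneg_left this (by positivity)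
    · have := hp _ (min_le_right _ _ : m ≤ ef v b x)
      calc sz v x * sz v b * (nv v ^ ef v b x)⁻¹ * sz v a
          = (sz v a * sz v b * sz v x) * (nv v ^ ef v b x)⁻¹ := by ring
        _ ≤ _ := mul_le_mul_of_nonneg_left this (by positivity)
  have h5 : (nv v ^ (ef v b a))⁻¹ ≤ (nv v ^ m)⁻¹ := by
    have h6 : (sz v a * sz v b * sz v x) * (nv v ^ (ef v b a))⁻¹ ≤
      (sz v a * sz v b * sz v x) * (nv v ^ m)⁻¹ := by linarith
    exact le_of_mul_le_mul_left h6 (by positivity)
  have h6 : nv v ^ m ≤ nv v ^ (ef v b a) :=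
    (inv_le_inv₀ (pow_pos (nv_pos v) _) (pow_pos (nv_pos v) _)).mp h5
  exact (pow_le_pow_iff_right₀ (one_lt_nv v)).mp h6

/-- Separation at an infinite place. -/
lemma inf_sep (w : InfinitePlace K) {a b x : K × K} (hab : wedge a b ≠ 0)
    (ha : wedge x a ≠ 0) (hb : wedge x b ≠ 0) :
    min (lami w a x) (lami w b x) ≤ Real.log 2 + lami w b a := by
  have hx := szi_pos w (wedge_left_ne ha)
  have hA := szi_pos w (wedge_right_ne ha)
  have hB := szi_pos w (wedge_right_ne hb)
  have h3 := w_three w a b x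
  rw [w_wedge_comm w a x, w_wedge_comm w b x, w_wedge_eq w ha, w_wedge_eq w hb,
    w_wedge_eq w hab] at h3
  set m := min (lami w a x) (lami w b x) with hm
  have h1 : Real.exp (- lami w a x) ≤ Real.exp (-m) :=
    Real.exp_le_exp.mpr (neg_le_neg (min_le_left _ _))
  have h2 : Real.exp (- lami w b x) ≤ Real.exp (-m) :=
    Real.exp_le_exp.mpr (neg_le_neg (min_le_right _ _))
  have hP : 0 < szi w a * szi w b * szi w x := by positivity
  have h4 : (szi w a * szi w b * szi w x) * Real.exp (- lami w b a) ≤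
      (szi w a * szi w b * szi w x) * (2 * Real.exp (-m)) := by
    nlinarith [mul_le_mul_of_nonneg_left h1 hP.le, mul_le_mul_of_nonneg_left h2 hP.le]
  have h5 : Real.exp (- lami w b a) ≤ 2 * Real.exp (-m) := le_of_mul_le_mul_left h4 hP
  have h6 : Real.exp (- lami w b a) ≤ Real.exp (Real.log 2 - m) := by
    rw [Real.exp_sub, Real.exp_log (by norm_num)]
    rw [Real.exp_neg m] at h5
    rw [div_eq_mul_inv]
    exact h5
  have := Real.exp_le_exp.mp h6
  linarith

/-- The ratio `t_x = (x ∧ α_i) / (x ∧ α_j)`. -/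
noncomputable def tt (a b : K × K) (x : K × K) : K := wedge x a / wedge x b

lemma tt_ne_zero {a b x : K × K} (ha : wedge x a ≠ 0) (hb : wedge x b ≠ 0) :
    tt a b x ≠ 0 := div_ne_zero ha hb

lemma tt_sub_one {a b x y : K × K} (hxb : wedge x b ≠ 0)
    (hya : wedge y a ≠ 0) (hyb : wedge y b ≠ 0) :
    tt a b x / tt a b y - 1 = wedge x y * wedge a b / (wedge x b * wedge y a) := by
  unfold tt
  rw [← plucker x y a b]
  field_simp

lemma tt_inj {a b x y : K × K} (hab : wedge a b ≠ 0) (hxb : wedge x b ≠ 0)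
    (hya : wedge y a ≠ 0) (hyb : wedge y b ≠ 0) (h : tt a b x = tt a b y) : wedge x y = 0 := by
  have h1 := tt_sub_one (a := a) (b := b) (x := x) (y := y) hxb hya hyb
  have h0 : tt a b y ≠ 0 := tt_ne_zero hya hyb
  rw [h, div_self h0, sub_self] at h1
  have h2 := (div_eq_zero_iff.mp h1.symm)
  rcases h2 with h2 | h2
  · rcases mul_eq_zero.mp h2 with h3 | h3
    · exact h3
    · exact absurd h3 hab
  · rcases mul_eq_zero.mp h2 with h3 | h3
    · exact absurd h3 hxb
    · exact absurd h3 hya

lemma fa_tt_div (v : HeightOneSpectrum (𝓞 K)) {a b x y : K × K}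
    (hxa : wedge x a ≠ 0) (hxb : wedge x b ≠ 0)
    (hya : wedge y a ≠ 0) (hyb : wedge y b ≠ 0) :
    fa v (tt a b x / tt a b y) =
      nv v ^ ((ef v b x : ℤ) - ef v a x + ef v a y - ef v b y) := by
  have hx := sz_pos v (wedge_left_ne hxa)
  have hy := sz_pos v (wedge_left_ne hya)
  have hA := sz_pos v (wedge_right_ne hxa)
  have hB := sz_pos v (wedge_right_ne hxb)
  unfold tt
  rw [fa_div, fa_div, fa_div, fa_wedge_eq v hxa, fa_wedge_eq v hxb, fa_wedge_eq v hya,
    fa_wedge_eq v hyb]
  rw [zpow_sub₀ (nv_ne_zero v), zpow_add₀ (nv_ne_zero v), zpow_sub₀ (nv_ne_zero v)]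
  simp only [zpow_natCast]
  have h1 : nv v ^ (ef v a x) ≠ 0 := (pow_pos (nv_pos v) _).ne'
  have h2 : nv v ^ (ef v b x) ≠ 0 := (pow_pos (nv_pos v) _).ne'
  have h3 : nv v ^ (ef v a y) ≠ 0 := (pow_pos (nv_pos v) _).ne'
  have h4 : nv v ^ (ef v b y) ≠ 0 := (pow_pos (nv_pos v) _).ne'
  field_simp

lemma ordv_of_fa (v : HeightOneSpectrum (𝓞 K)) {z : K} (hz : z ≠ 0) {k : ℤ}
    (h : fa v z = nv v ^ k) : ordv v z = - k := by
  rw [fa_eq v hz] at h
  have := (zpow_right_inj₀ (nv_pos v) (one_lt_nv v).ne').mp h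
  omega

/-- Upper bound for `t_x / t_y - 1` at a finite place, given a third form. -/
lemma fa_tt_sub_one_le (v : HeightOneSpectrum (𝓞 K)) {a b c x y : K × K}
    (hxb : wedge x b ≠ 0) (hya : wedge y a ≠ 0) (hyb : wedge y b ≠ 0)
    (hxc : wedge x c ≠ 0) (hyc : wedge y c ≠ 0) :
    fa v (tt a b x / tt a b y - 1) ≤
      (nv v ^ (min (ef v c x) (ef v c y)))⁻¹ * nv v ^ (ef v b x + ef v a y) := by
  have hx := sz_pos v (wedge_left_ne hxb)
  have hy := sz_pos v (wedge_left_ne hya)
  have hA := sz_pos v (wedge_right_ne hya)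
  have hB := sz_pos v (wedge_right_ne hxb)
  have hC := sz_pos v (wedge_right_ne hxc)
  have hn := nv_pos v
  set m := min (ef v c x) (ef v c y) with hm
  have hp : ∀ k : ℕ, m ≤ k → (nv v ^ k)⁻¹ ≤ (nv v ^ m)⁻¹ := by
    intro k hk
    apply inv_anti₀ (pow_pos (nv_pos v) _)
    exact pow_le_pow_right₀ (one_lt_nv v).le hk
  have h3 := fa_three v x y c
  have h4 : fa v (wedge x y) * sz v c ≤ (sz v x * sz v y * (nv v ^ m)⁻¹) * sz v c := by
    refine h3.trans (max_le ?_ ?_)
    · rw [fa_wedge_eq v hxc]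
      have := hp _ (min_le_left _ _ : m ≤ ef v c x)
      calc sz v x * sz v c * (nv v ^ ef v c x)⁻¹ * sz v y
          = (sz v x * sz v y * sz v c) * (nv v ^ ef v c x)⁻¹ := by ring
        _ ≤ (sz v x * sz v y * sz v c) * (nv v ^ m)⁻¹ :=
            mul_le_mul_of_nonneg_left this (by positivity)
        _ = _ := by ring
    · rw [fa_wedge_eq v hyc]
      have := hp _ (min_le_right _ _ : m ≤ ef v c y)
      calc sz v y * sz v c * (nv v ^ ef v c y)⁻¹ * sz v x
          = (sz v x * sz v y * sz v c) * (nv v ^ ef v c y)⁻¹ := by ring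
        _ ≤ (sz v x * sz v y * sz v c) * (nv v ^ m)⁻¹ :=
            mul_le_mul_of_nonneg_left this (by positivity)
        _ = _ := by ring
  have h5 : fa v (wedge x y) ≤ sz v x * sz v y * (nv v ^ m)⁻¹ := le_of_mul_le_mul_right h4 hC
  rw [tt_sub_one hxb hya hyb, fa_div, fa_mul, fa_mul, fa_wedge_eq v hxb, fa_wedge_eq v hya]
  rw [div_le_iff₀ (by positivity)]
  have h6 : fa v (wedge a b) ≤ sz v a * sz v b := fa_wedge_le v a b
  calc fa v (wedge x y) * fa v (wedge a b)
      ≤ (sz v x * sz v y * (nv v ^ m)⁻¹) * (sz v a * sz v b) :=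
        mul_le_mul h5 h6 (fa_nonneg v _) (by positivity)
    _ = _ := by
        rw [pow_add]
        have h1 : nv v ^ (ef v b x) ≠ 0 := (pow_pos (nv_pos v) _).ne'
        have h2 : nv v ^ (ef v a y) ≠ 0 := (pow_pos (nv_pos v) _).ne'
        field_simp

/-- Upper bound for `t_x / t_y - 1` at an infinite place, given a form `c`. -/
lemma w_tt_sub_one_le (w : InfinitePlace K) {a b c x y : K × K}
    (hxb : wedge x b ≠ 0) (hya : wedge y a ≠ 0) (hyb : wedge y b ≠ 0)
    (hxc : wedge x c ≠ 0) (hyc : wedge y c ≠ 0) (f : ℝ)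
    (hfx : f ≤ lami w c x) (hfy : f ≤ lami w c y) :
    w (tt a b x / tt a b y - 1) ≤ 4 * Real.exp (lami w b x + lami w a y - f) := by
  have hx := szi_pos w (wedge_left_ne hxb)
  have hy := szi_pos w (wedge_left_ne hya)
  have hA := szi_pos w (wedge_right_ne hya)
  have hB := szi_pos w (wedge_right_ne hxb)
  have hC := szi_pos w (wedge_right_ne hxc)
  have h3 := w_three w x y c
  rw [w_wedge_eq w hxc, w_wedge_eq w hyc] at h3
  have e1 : Real.exp (- lami w c x) ≤ Real.exp (-f) := Real.exp_le_exp.mpr (by linarith)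
  have e2 : Real.exp (- lami w c y) ≤ Real.exp (-f) := Real.exp_le_exp.mpr (by linarith)
  have hP : 0 < szi w x * szi w y * szi w c := by positivity
  have h4 : w (wedge x y) * szi w c ≤ (2 * (szi w x * szi w y) * Real.exp (-f)) * szi w c := by
    nlinarith [mul_le_mul_of_nonneg_left e1 hP.le, mul_le_mul_of_nonneg_left e2 hP.le]
  have h5 : w (wedge x y) ≤ 2 * (szi w x * szi w y) * Real.exp (-f) :=
    le_of_mul_le_mul_right h4 hC
  rw [tt_sub_one hxb hya hyb, map_div₀, map_mul, map_mul, w_wedge_eq w hxb, w_wedge_eq w hya]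
  rw [div_le_iff₀ (by positivity)]
  have h6 := w_wedge_le w a b
  calc w (wedge x y) * w (wedge a b)
      ≤ (2 * (szi w x * szi w y) * Real.exp (-f)) * (2 * (szi w a * szi w b)) :=
        mul_le_mul h5 h6 (apply_nonneg w _) (by positivity)
    _ = _ := by
        rw [show lami w b x + lami w a y - f = -f + lami w b x + lami w a y by ring,
          Real.exp_add, Real.exp_add, Real.exp_neg (lami w b x), Real.exp_neg (lami w a y)]
        have h1 := Real.exp_pos (lami w b x)
        have h2 := Real.exp_pos (lami w a y)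
        field_simp
        ring

end Pool.Agent.Lib.MP_4d5ce1_nt
end

section

set_option autoImplicit false
set_option linter.unusedSectionVars false

open NumberField IsDedekindDomain

namespace Pool.Agent.Lib.MP_4d5ce1_nt

variable {K : Type*} [Field K] [NumberField K] {q : ℕ}

/-- Outside the finite set `bad` the points `α l` are pairwise distinct modulo `v`. -/
def GoodOff (α : Fin q → K × K) (bad : Finset (HeightOneSpectrum (𝓞 K))) : Prop :=
  ∀ v, v ∉ bad → ∀ l m, l ≠ m → ef v (α m) (α l) = 0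

/-- The primes outside `bad` dividing one of the forms at `x`. -/
def suppSet (α : Fin q → K × K) (bad : Finset (HeightOneSpectrum (𝓞 K))) (x : K × K) :
    Set (HeightOneSpectrum (𝓞 K)) := {v | v ∉ bad ∧ ∃ l, ef v (α l) x ≠ 0}

open Classical in
/-- The same, as a finset. -/
noncomputable def suppF (α : Fin q → K × K) (bad : Finset (HeightOneSpectrum (𝓞 K)))
    (x : K × K) : Finset (HeightOneSpectrum (𝓞 K)) :=
  if h : (suppSet α bad x).Finite then h.toFinset else ∅

/-- The form divisible by `v`. -/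
noncomputable def labF [NeZero q] (α : Fin q → K × K) (x : K × K)
    (v : HeightOneSpectrum (𝓞 K)) : Fin q :=
  Classical.epsilon fun l => ef v (α l) x ≠ 0

/-- The exponent of `v`. -/
noncomputable def expF [NeZero q] (α : Fin q → K × K) (x : K × K)
    (v : HeightOneSpectrum (𝓞 K)) : ℕ := ef v (α (labF α x v)) x

/-- The logarithm of the norm. -/
noncomputable def lnv (v : HeightOneSpectrum (𝓞 K)) : ℝ := Real.log (nv v)

lemma lnv_pos (v : HeightOneSpectrum (𝓞 K)) : 0 < lnv v := log_nv_pos v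

/-- Index of the form `l` at the bad and infinite places. -/
noncomputable def idxF (α : Fin q → K × K) (bad : Finset (HeightOneSpectrum (𝓞 K)))
    (x : K × K) (l : Fin q) : ℝ :=
  ∑ v ∈ bad, (ef v (α l) x : ℝ) * lnv v +
    ∑ w : InfinitePlace K, (w.mult : ℝ) * max 0 (lami w (α l) x)

lemma idxF_nonneg (α : Fin q → K × K) (bad : Finset (HeightOneSpectrum (𝓞 K)))
    (x : K × K) (l : Fin q) : 0 ≤ idxF α bad x l := by
  unfold idxF
  apply add_nonneg
  · exact Finset.sum_nonneg fun v _ => mul_nonneg (Nat.cast_nonneg _) (lnv_pos v).le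
  · exact Finset.sum_nonneg fun w _ => mul_nonneg (Nat.cast_nonneg _) (le_max_left _ _)

lemma suppSet_finite {α : Fin q → K × K} (bad : Finset (HeightOneSpectrum (𝓞 K)))
    {x : K × K} (hx : ∀ l, wedge x (α l) ≠ 0) : (suppSet α bad x).Finite := by
  refine (Set.finite_iUnion fun l => finite_ef_ne_zero (hx l)).subset ?_
  rintro v ⟨_, l, hl⟩
  exact Set.mem_iUnion.mpr ⟨l, hl⟩

lemma mem_suppF {α : Fin q → K × K} {bad : Finset (HeightOneSpectrum (𝓞 K))}
    {x : K × K} (hx : ∀ l, wedge x (α l) ≠ 0) (v : HeightOneSpectrum (𝓞 K)) :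
    v ∈ suppF α bad x ↔ v ∉ bad ∧ ∃ l, ef v (α l) x ≠ 0 := by
  unfold suppF
  rw [dif_pos (suppSet_finite bad hx), Set.Finite.mem_toFinset]
  rfl

lemma good_unique {α : Fin q → K × K} {bad : Finset (HeightOneSpectrum (𝓞 K))}
    (hα : ∀ l m, l ≠ m → wedge (α l) (α m) ≠ 0)
    (hbad : GoodOff α bad) {x : K × K} (hx : ∀ l, wedge x (α l) ≠ 0)
    {v : HeightOneSpectrum (𝓞 K)} (hv : v ∉ bad) {l m : Fin q} (hlm : l ≠ m)
    (hl : ef v (α l) x ≠ 0) : ef v (α m) x = 0 := by
  have h := fin_sep v (hα l m hlm) (hx l) (hx m)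
  rw [hbad v hv l m hlm] at h
  rcases min_choice (ef v (α l) x) (ef v (α m) x) with h1 | h1 <;> omega

lemma lab_spec [NeZero q] {α : Fin q → K × K} {bad : Finset (HeightOneSpectrum (𝓞 K))}
    {x : K × K} (hx : ∀ l, wedge x (α l) ≠ 0)
    {v : HeightOneSpectrum (𝓞 K)} (hv : v ∈ suppF α bad x) :
    ef v (α (labF α x v)) x ≠ 0 := by
  have h := ((mem_suppF hx v).mp hv).2
  exact Classical.epsilon_spec h

lemma exp_pos_of_mem [NeZero q] {α : Fin q → K × K} {bad : Finset (HeightOneSpectrum (𝓞 K))}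
    {x : K × K} (hx : ∀ l, wedge x (α l) ≠ 0)
    {v : HeightOneSpectrum (𝓞 K)} (hv : v ∈ suppF α bad x) : 1 ≤ expF α x v :=
  Nat.one_le_iff_ne_zero.mpr (lab_spec hx hv)

lemma ef_eq_ite [NeZero q] {α : Fin q → K × K} {bad : Finset (HeightOneSpectrum (𝓞 K))}
    (hα : ∀ l m, l ≠ m → wedge (α l) (α m) ≠ 0)
    (hbad : GoodOff α bad) {x : K × K} (hx : ∀ l, wedge x (α l) ≠ 0)
    {v : HeightOneSpectrum (𝓞 K)} (hv : v ∈ suppF α bad x) (l : Fin q) :
    ef v (α l) x = if labF α x v = l then expF α x v else 0 := by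
  split_ifs with h
  · unfold expF; rw [h]
  · exact good_unique hα hbad hx ((mem_suppF hx v).mp hv).1 h (lab_spec hx hv)

lemma ef_eq_zero_of_not_mem {α : Fin q → K × K} {bad : Finset (HeightOneSpectrum (𝓞 K))}
    {x : K × K} (hx : ∀ l, wedge x (α l) ≠ 0)
    {v : HeightOneSpectrum (𝓞 K)} (hvb : v ∉ bad) (hv : v ∉ suppF α bad x) (l : Fin q) :
    ef v (α l) x = 0 := by
  by_contra h
  exact hv ((mem_suppF hx v).mpr ⟨hvb, l, h⟩)

open Classical in
/-- The finite part of the height of the form `l`. -/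
lemma finsum_ef_eq [NeZero q] {α : Fin q → K × K} {bad : Finset (HeightOneSpectrum (𝓞 K))}
    (hα : ∀ l m, l ≠ m → wedge (α l) (α m) ≠ 0)
    (hbad : GoodOff α bad) {x : K × K} (hx : ∀ l, wedge x (α l) ≠ 0) (l : Fin q) :
    ∑ᶠ v : HeightOneSpectrum (𝓞 K), (ef v (α l) x : ℝ) * Real.log (nv v) =
      ∑ v ∈ bad, (ef v (α l) x : ℝ) * lnv v +
      ∑ v ∈ (suppF α bad x).filter (fun v => labF α x v = l), (expF α x v : ℝ) * lnv v := by
  have hsub : (Function.support fun v : HeightOneSpectrum (𝓞 K) =>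
      (ef v (α l) x : ℝ) * Real.log (nv v)) ⊆ ((bad ∪ suppF α bad x : Finset _) : Set _) := by
    intro v hv
    rw [Function.mem_support] at hv
    by_contra hc
    rw [Finset.mem_coe, Finset.mem_union] at hc
    push Not at hc
    apply hv
    rw [ef_eq_zero_of_not_mem hx hc.1 hc.2 l]
    simp
  rw [finsum_eq_sum_of_support_subset _ hsub, Finset.sum_union]
  · congr 1
    rw [Finset.sum_filter]
    refine Finset.sum_congr rfl fun v hv => ?_
    rw [ef_eq_ite hα hbad hx hv l]
    split_ifs with h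
    · rfl
    · simp
  · rw [Finset.disjoint_left]
    intro v hv hv'
    exact ((mem_suppF hx v).mp hv').1 hv

lemma sum_mult : ∑ w : InfinitePlace K, (w.mult : ℝ) = Module.finrank ℚ K := by
  rw [← InfinitePlace.sum_mult_eq (K := K)]
  push_cast
  rfl

lemma log_two_le_one : Real.log 2 ≤ 1 := by
  have := Real.log_le_sub_one_of_pos (show (0:ℝ) < 2 by norm_num)
  linarith

open Classical in
/-- The first main theorem for a configuration, with error term. -/
lemma config_fmt [NeZero q] {α : Fin q → K × K} {bad : Finset (HeightOneSpectrum (𝓞 K))}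
    (hα : ∀ l m, l ≠ m → wedge (α l) (α m) ≠ 0)
    (hbad : GoodOff α bad) {x : K × K} (hx : ∀ l, wedge x (α l) ≠ 0) (l : Fin q) :
    |∑ v ∈ (suppF α bad x).filter (fun v => labF α x v = l), (expF α x v : ℝ) * lnv v +
      idxF α bad x l - hh x| ≤ |hh (α l)| + Module.finrank ℚ K := by
  have h1 := first_main (hx l)
  rw [finsum_ef_eq hα hbad hx l] at h1
  have h2 : ∑ w : InfinitePlace K, (w.mult : ℝ) * lami w (α l) x ≤
      ∑ w : InfinitePlace K, (w.mult : ℝ) * max 0 (lami w (α l) x) :=
    Finset.sum_le_sum fun w _ =>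
      mul_le_mul_of_nonneg_left (le_max_right _ _) (Nat.cast_nonneg _)
  have h3 : ∑ w : InfinitePlace K, (w.mult : ℝ) * max 0 (lami w (α l) x) ≤
      ∑ w : InfinitePlace K, (w.mult : ℝ) * lami w (α l) x + Module.finrank ℚ K := by
    rw [← sum_mult, ← Finset.sum_add_distrib]
    refine Finset.sum_le_sum fun w _ => ?_
    have h4 := lami_ge w (hx l)
    have h5 := log_two_le_one
    have h6 : max 0 (lami w (α l) x) ≤ lami w (α l) x + 1 := by
      apply max_le <;> linarith
    calc (w.mult : ℝ) * max 0 (lami w (α l) x) ≤ (w.mult : ℝ) * (lami w (α l) x + 1) :=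
          mul_le_mul_of_nonneg_left h6 (Nat.cast_nonneg _)
      _ = _ := by ring
  unfold idxF
  have h7 := neg_abs_le (hh (α l))
  have h8 := le_abs_self (hh (α l))
  have h9 : (0:ℝ) ≤ Module.finrank ℚ K := Nat.cast_nonneg _
  rw [abs_le]
  constructor <;> linarith

end Pool.Agent.Lib.MP_4d5ce1_nt
end
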