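import Pool.Agent.Lib.MP_4d5ce1_nt.Packing
import Pool.Agent.Lib.MP_4d5ce1_nt.Config
import Pool.Agent.Lib.MP_4d5ce1_nt.Rankin

section

set_option autoImplicit false
set_option linter.unusedSectionVars false

open NumberField IsDedekindDomain

namespace Pool.Agent.Lib.MP_4d5ce1_nt

variable {K : Type*} [Field K] [NumberField K] {q : ℕ}

lemma sum_sep_real (s : Finset (Fin q)) (f : Fin q → ℝ) (c : ℝ) (hc : 0 ≤ c) (L : Fin q)
    (hL : 0 ≤ f L) (h : ∀ l ∈ s, l ≠ L → f l ≤ c) : ∑ l ∈ s, f l ≤ f L + q * c := by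
  classical
  have h1 : ∑ l ∈ s, f l ≤ ∑ l ∈ s, ((if l = L then f L else 0) + c) := by
    refine Finset.sum_le_sum fun l hl => ?_
    split_ifs with h2
    · rw [h2]; linarith
    · have := h l hl h2; linarith
  have h2 : ∑ l ∈ s, (if l = L then f L else 0) ≤ f L := by
    rw [Finset.sum_ite_eq']
    split_ifs
    · exact le_rfl
    · exact hL
  have h3 : ∑ l ∈ s, c ≤ q * c := by
    rw [Finset.sum_const, nsmul_eq_mul]
    apply mul_le_mul_of_nonneg_right _ hc
    have := Finset.card_le_univ s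
    rw [Fintype.card_fin] at this
    exact_mod_cast this
  rw [Finset.sum_add_distrib] at h1
  linarith

/-- Constants of separation at the infinite places. -/
lemma exists_csep (α : Fin q → K × K) (hα : ∀ l m, l ≠ m → wedge (α l) (α m) ≠ 0) :
    ∃ c : ℝ, 0 ≤ c ∧ ∀ (w : InfinitePlace K) (x : K × K), (∀ l, wedge x (α l) ≠ 0) →
      ∀ l m, l ≠ m → min (lami w (α l) x) (lami w (α m) x) ≤ c := by
  classical
  refine ⟨∑ w : InfinitePlace K, ∑ l : Fin q, ∑ m : Fin q, |Real.log 2 + lami w (α m) (α l)|,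
    by positivity, ?_⟩
  intro w x hx l m hlm
  refine (inf_sep w (hα l m hlm) (hx l) (hx m)).trans ?_
  refine (le_abs_self _).trans ?_
  refine (Finset.single_le_sum (f := fun m => |Real.log 2 + lami w (α m) (α l)|)
    (fun m _ => abs_nonneg _) (Finset.mem_univ m)).trans ?_
  refine (Finset.single_le_sum
    (f := fun l => ∑ m : Fin q, |Real.log 2 + lami w (α m) (α l)|)
    (fun l _ => by positivity) (Finset.mem_univ l)).trans ?_
  exact Finset.single_le_sum
    (f := fun w : InfinitePlace K => ∑ l : Fin q, ∑ m : Fin q, |Real.log 2 + lami w (α m) (α l)|)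
    (fun w _ => by positivity) (Finset.mem_univ w)

/-- Constants of separation at the bad places. -/
lemma exists_ssep (α : Fin q → K × K) (hα : ∀ l m, l ≠ m → wedge (α l) (α m) ≠ 0)
    (bad : Finset (HeightOneSpectrum (𝓞 K))) :
    ∃ s : ℕ, ∀ v ∈ bad, ∀ (x : K × K), (∀ l, wedge x (α l) ≠ 0) →
      ∀ l m, l ≠ m → min (ef v (α l) x) (ef v (α m) x) ≤ s := by
  classical
  refine ⟨∑ v ∈ bad, ∑ l : Fin q, ∑ m : Fin q, ef v (α m) (α l), ?_⟩
  intro v hv x hx l m hlm
  refine (fin_sep v (hα l m hlm) (hx l) (hx m)).trans ?_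
  refine (Finset.single_le_sum (f := fun m => ef v (α m) (α l))
    (fun m _ => Nat.zero_le _) (Finset.mem_univ m)).trans ?_
  refine (Finset.single_le_sum
    (f := fun l => ∑ m : Fin q, ef v (α m) (α l))
    (fun l _ => Nat.zero_le _) (Finset.mem_univ l)).trans ?_
  exact Finset.single_le_sum
    (f := fun v => ∑ l : Fin q, ∑ m : Fin q, ef v (α m) (α l))
    (fun v _ => Nat.zero_le _) hv

open Classical in
/-- Archimedean estimate within a class. -/
lemma arch_class (α : Fin q → K × K) (w : InfinitePlace K) (c : ℝ) (hc : 0 ≤ c)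
    (i j : Fin q) (hij : i ≠ j) (x₀ x y : K × K)
    (hx : ∀ l, wedge x (α l) ≠ 0) (hy : ∀ l, wedge y (α l) ≠ 0)
    (hsep : ∀ l m, l ≠ m → min (lami w (α l) x₀) (lami w (α m) x₀) ≤ c)
    (h1 : ∀ l, lami w (α l) x ≤ lami w (α l) x₀ + 1)
    (h2 : ∀ l, lami w (α l) x₀ ≤ lami w (α l) x + 1)
    (h3 : ∀ l, lami w (α l) y ≤ lami w (α l) x₀ + 1)
    (h4 : ∀ l, lami w (α l) x₀ ≤ lami w (α l) y + 1) :
    w (tt (α i) (α j) x / tt (α i) (α j) y - 1) ≤
      4 * Real.exp (2 * c + 3 + q * c) * Real.exp (- ∑ l ∈ Finset.univ.filter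
        (fun l => l ≠ i ∧ l ≠ j), max 0 (lami w (α l) x₀)) := by
  set S := ∑ l ∈ Finset.univ.filter (fun l => l ≠ i ∧ l ≠ j), max 0 (lami w (α l) x₀) with hS
  have hbd : ∀ L : Fin q, w (tt (α i) (α j) x / tt (α i) (α j) y - 1) ≤
      4 * Real.exp (lami w (α j) x + lami w (α i) y - (lami w (α L) x₀ - 1)) := fun L =>
    w_tt_sub_one_le w (hx j) (hy i) (hy j) (hx L) (hy L) _
      (by linarith [h2 L]) (by linarith [h4 L])
  have fin : ∀ (L : Fin q), lami w (α j) x + lami w (α i) y - (lami w (α L) x₀ - 1) ≤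
      2 * c + 3 + q * c - S → w (tt (α i) (α j) x / tt (α i) (α j) y - 1) ≤
      4 * Real.exp (2 * c + 3 + q * c) * Real.exp (- S) := by
    intro L hL
    refine (hbd L).trans ?_
    rw [mul_assoc, ← Real.exp_add]
    apply mul_le_mul_of_nonneg_left _ (by norm_num)
    apply Real.exp_le_exp.mpr
    linarith
  have hqc : 0 ≤ (q:ℝ) * c := by positivity
  have hjle := h1 j
  have hile := h3 i
  by_cases hcase : ∃ L, L ≠ i ∧ L ≠ j ∧ c < lami w (α L) x₀
  · obtain ⟨L, hLi, hLj, hLc⟩ := hcase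
    have hoth : ∀ l, l ≠ L → lami w (α l) x₀ ≤ c := by
      intro l hl
      rcases min_choice (lami w (α l) x₀) (lami w (α L) x₀) with h5 | h5
      · have := hsep l L hl; rw [h5] at this; exact this
      · have := hsep l L hl; rw [h5] at this; linarith
    have hSle : S ≤ lami w (α L) x₀ + q * c := by
      have := sum_sep_real (Finset.univ.filter (fun l => l ≠ i ∧ l ≠ j))
        (fun l => max 0 (lami w (α l) x₀)) c hc L (le_max_left _ _)
        (fun l _ hl => max_le hc (hoth l hl))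
      rw [max_eq_right (by linarith : 0 ≤ lami w (α L) x₀)] at this
      exact this
    apply fin L
    have h5 := hoth i hLi.symm
    have h6 := hoth j hLj.symm
    linarith
  · push Not at hcase
    have hSle : S ≤ q * c := by
      calc S ≤ ∑ l ∈ Finset.univ.filter (fun l => l ≠ i ∧ l ≠ j), c := by
            refine Finset.sum_le_sum fun l hl => ?_
            rw [Finset.mem_filter] at hl
            exact max_le hc (hcase l hl.2.1 hl.2.2)
        _ ≤ q * c := by
            rw [Finset.sum_const, nsmul_eq_mul]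
            apply mul_le_mul_of_nonneg_right _ hc
            have := Finset.card_le_univ (Finset.univ.filter (fun l : Fin q => l ≠ i ∧ l ≠ j))
            rw [Fintype.card_fin] at this
            exact_mod_cast this
    by_cases hi : c < lami w (α i) x₀
    · have hj : lami w (α j) x₀ ≤ c := by
        rcases min_choice (lami w (α i) x₀) (lami w (α j) x₀) with h5 | h5
        · have := hsep i j hij; rw [h5] at this; linarith
        · have := hsep i j hij; rw [h5] at this; exact this
      apply fin i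
      linarith
    · push Not at hi
      apply fin j
      linarith

open Classical in
/-- Estimate at a bad place within a class. -/
lemma bad_class (α : Fin q → K × K) (v : HeightOneSpectrum (𝓞 K)) (s : ℕ)
    (i j : Fin q) (x₀ x y : K × K)
    (hx : ∀ l, wedge x (α l) ≠ 0) (hy : ∀ l, wedge y (α l) ≠ 0)
    (hsep : ∀ l m, l ≠ m → min (ef v (α l) x₀) (ef v (α m) x₀) ≤ s)
    (h1 : ∀ l, ef v (α l) x = ef v (α l) x₀)
    (h2 : ∀ l, ef v (α l) y = ef v (α l) x₀) :
    fa v (tt (α i) (α j) x / tt (α i) (α j) y) = 1 ∧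
    fa v (tt (α i) (α j) x / tt (α i) (α j) y - 1) ≤
      nv v ^ ((q + 2) * s) * (nv v ^ (∑ l ∈ Finset.univ.filter
        (fun l => l ≠ i ∧ l ≠ j), ef v (α l) x₀))⁻¹ := by
  set S := ∑ l ∈ Finset.univ.filter (fun l => l ≠ i ∧ l ≠ j), ef v (α l) x₀ with hS
  have hone : fa v (tt (α i) (α j) x / tt (α i) (α j) y) = 1 := by
    rw [fa_tt_div v (hx i) (hx j) (hy i) (hy j), h1, h1, h2, h2]
    simp
  refine ⟨hone, ?_⟩
  have hn1 := (one_lt_nv v).le
  have hn := nv_pos v
  by_cases hcase : ∃ L, L ≠ i ∧ L ≠ j ∧ s < ef v (α L) x₀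
  · obtain ⟨L, hLi, hLj, hLc⟩ := hcase
    have hoth : ∀ l, l ≠ L → ef v (α l) x₀ ≤ s := by
      intro l hl
      have := hsep l L hl
      rcases min_choice (ef v (α l) x₀) (ef v (α L) x₀) with h5 | h5 <;> omega
    have hSle : S ≤ ef v (α L) x₀ + q * s := by
      have := sum_sep_real (Finset.univ.filter (fun l => l ≠ i ∧ l ≠ j))
        (fun l => (ef v (α l) x₀ : ℝ)) s (Nat.cast_nonneg _) L (Nat.cast_nonneg _)
        (fun l _ hl => by exact_mod_cast hoth l hl)
      rw [hS]
      exact_mod_cast this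
    have hb := fa_tt_sub_one_le v (a := α i) (b := α j) (c := α L) (hx j) (hy i) (hy j)
      (hx L) (hy L)
    rw [h1, h2, h1, h2, min_self] at hb
    refine hb.trans ?_
    have h5 := hoth i hLi.symm
    have h6 := hoth j hLj.symm
    have h7 : (nv v ^ ef v (α L) x₀)⁻¹ ≤ nv v ^ (q * s) * (nv v ^ S)⁻¹ := by
      rw [inv_le_iff_one_le_mul₀ (pow_pos hn _)]
      rw [mul_assoc, mul_comm, mul_assoc, ← pow_add, ← div_eq_inv_mul, le_div_iff₀ (pow_pos hn _),
        one_mul]
      exact pow_le_pow_right₀ hn1 hSle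
    have h8 : nv v ^ (ef v (α j) x₀ + ef v (α i) x₀) ≤ nv v ^ (2 * s) :=
      pow_le_pow_right₀ hn1 (by omega)
    calc (nv v ^ ef v (α L) x₀)⁻¹ * nv v ^ (ef v (α j) x₀ + ef v (α i) x₀)
        ≤ (nv v ^ (q * s) * (nv v ^ S)⁻¹) * nv v ^ (2 * s) :=
          mul_le_mul h7 h8 (by positivity) (by positivity)
      _ = _ := by ring
  · push Not at hcase
    have hSle : S ≤ q * s := by
      calc S ≤ ∑ l ∈ Finset.univ.filter (fun l => l ≠ i ∧ l ≠ j), s := by
            refine Finset.sum_le_sum fun l hl => ?_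
            rw [Finset.mem_filter] at hl
            exact hcase l hl.2.1 hl.2.2
        _ ≤ q * s := by
            rw [Finset.sum_const, smul_eq_mul]
            apply Nat.mul_le_mul_right
            have := Finset.card_le_univ (Finset.univ.filter (fun l : Fin q => l ≠ i ∧ l ≠ j))
            rw [Fintype.card_fin] at this
            exact this
    have h9 : fa v (tt (α i) (α j) x / tt (α i) (α j) y - 1) ≤ 1 := by
      refine (fa_sub_le v _ _).trans ?_
      rw [hone, fa_one, max_self]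
    refine h9.trans ?_
    rw [← div_eq_mul_inv, one_le_div (pow_pos hn _)]
    apply pow_le_pow_right₀ hn1
    nlinarith

open Classical in
/-- Mass of the form `l` outside `W`. -/
noncomputable def massF [NeZero q] (α : Fin q → K × K) (bad : Finset (HeightOneSpectrum (𝓞 K)))
    (W : Finset (HeightOneSpectrum (𝓞 K))) (x : K × K) (l : Fin q) : ℝ :=
  ∑ v ∈ (suppF α bad x).filter (fun v => v ∉ W ∧ labF α x v = l), (expF α x v : ℝ) * lnv v

open Classical in
lemma massF_eq [NeZero q] {α : Fin q → K × K} {bad : Finset (HeightOneSpectrum (𝓞 K))}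
    (hα : ∀ l m, l ≠ m → wedge (α l) (α m) ≠ 0)
    (hbad : GoodOff α bad) {x : K × K} (hx : ∀ l, wedge x (α l) ≠ 0)
    (W : Finset (HeightOneSpectrum (𝓞 K))) (hW : W ⊆ suppF α bad x) (l : Fin q) :
    massF α bad W x l = hh x + hh (α l) -
      ∑ w : InfinitePlace K, (w.mult : ℝ) * lami w (α l) x -
      ∑ v ∈ bad, (ef v (α l) x : ℝ) * lnv v -
      ∑ v ∈ W.filter (fun v => labF α x v = l), (expF α x v : ℝ) * lnv v := by
  have h1 := first_main (hx l)
  rw [finsum_ef_eq hα hbad hx l] at h1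
  have h2 : ∑ v ∈ (suppF α bad x).filter (fun v => labF α x v = l), (expF α x v : ℝ) * lnv v =
      ∑ v ∈ W.filter (fun v => labF α x v = l), (expF α x v : ℝ) * lnv v +
      massF α bad W x l := by
    unfold massF
    rw [← Finset.sum_filter_add_sum_filter_not ((suppF α bad x).filter
      (fun v => labF α x v = l)) (fun v => v ∈ W)]
    rw [Finset.filter_filter, Finset.filter_filter]
    congr 1
    · refine Finset.sum_congr ?_ fun _ _ => rfl
      ext v
      simp only [Finset.mem_filter]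
      constructor
      · rintro ⟨_, h3, h4⟩; exact ⟨h4, h3⟩
      · rintro ⟨h4, h3⟩; exact ⟨hW h4, h3, h4⟩
    · refine Finset.sum_congr ?_ fun _ _ => rfl
      ext v
      simp only [Finset.mem_filter]
      tauto
  linarith

lemma massF_nonneg [NeZero q] (α : Fin q → K × K) (bad : Finset (HeightOneSpectrum (𝓞 K)))
    (W : Finset (HeightOneSpectrum (𝓞 K))) (x : K × K) (l : Fin q) :
    0 ≤ massF α bad W x l :=
  Finset.sum_nonneg fun v _ => mul_nonneg (Nat.cast_nonneg _) (lnv_pos v).le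

open Classical in
lemma ef_eq_ite' [NeZero q] {α : Fin q → K × K} {bad : Finset (HeightOneSpectrum (𝓞 K))}
    (hα : ∀ l m, l ≠ m → wedge (α l) (α m) ≠ 0)
    (hbad : GoodOff α bad) {x : K × K} (hx : ∀ l, wedge x (α l) ≠ 0)
    {v : HeightOneSpectrum (𝓞 K)} (hv : v ∉ bad) (l : Fin q) :
    ef v (α l) x = if v ∈ suppF α bad x ∧ labF α x v = l then expF α x v else 0 := by
  by_cases h : v ∈ suppF α bad x
  · rw [ef_eq_ite hα hbad hx h l]
    simp [h]
  · rw [ef_eq_zero_of_not_mem hx hv h l]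
    simp [h]

open Classical in
/-- The finite part of the packing hypothesis. -/
lemma fin_class [NeZero q] {α : Fin q → K × K} {bad : Finset (HeightOneSpectrum (𝓞 K))}
    (hα : ∀ l m, l ≠ m → wedge (α l) (α m) ≠ 0)
    (hbad : GoodOff α bad) {x y : K × K} (hx : ∀ l, wedge x (α l) ≠ 0)
    (hy : ∀ l, wedge y (α l) ≠ 0) (i j : Fin q)
    (W : Finset (HeightOneSpectrum (𝓞 K)))
    (hbd : ∀ v ∈ bad, ∀ l, ef v (α l) x = ef v (α l) y)
    (hWe : ∀ v ∈ W, ∀ l, ef v (α l) x = ef v (α l) y) :
    ∑ᶠ v : HeightOneSpectrum (𝓞 K),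
      Real.log (max 1 (fa v (tt (α i) (α j) x / tt (α i) (α j) y))) ≤
      massF α bad W x j + massF α bad W y i := by
  set U := suppF α bad x ∪ suppF α bad y with hU
  have hzero : ∀ v : HeightOneSpectrum (𝓞 K), (∀ l, ef v (α l) x = ef v (α l) y) →
      Real.log (max 1 (fa v (tt (α i) (α j) x / tt (α i) (α j) y))) = 0 := by
    intro v h
    rw [fa_tt_div v (hx i) (hx j) (hy i) (hy j), h, h]
    simp
  have hsupp : (Function.support fun v : HeightOneSpectrum (𝓞 K) =>
      Real.log (max 1 (fa v (tt (α i) (α j) x / tt (α i) (α j) y)))) ⊆ (U : Set _) := by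
    intro v hv
    rw [Function.mem_support] at hv
    by_contra hc
    rw [Finset.mem_coe, hU, Finset.mem_union] at hc
    push Not at hc
    apply hv
    apply hzero
    by_cases hvb : v ∈ bad
    · exact hbd v hvb
    · intro l
      rw [ef_eq_zero_of_not_mem hx hvb hc.1, ef_eq_zero_of_not_mem hy hvb hc.2]
  rw [finsum_eq_sum_of_support_subset _ hsupp]
  have hterm : ∀ v ∈ U, Real.log (max 1 (fa v (tt (α i) (α j) x / tt (α i) (α j) y))) ≤
      (if v ∈ suppF α bad x ∧ (v ∉ W ∧ labF α x v = j) then (expF α x v : ℝ) * lnv v else 0) +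
      (if v ∈ suppF α bad y ∧ (v ∉ W ∧ labF α y v = i) then (expF α y v : ℝ) * lnv v else 0) := by
    intro v hv
    have hvb : v ∉ bad := by
      rw [hU, Finset.mem_union] at hv
      rcases hv with h | h
      · exact ((mem_suppF hx v).mp h).1
      · exact ((mem_suppF hy v).mp h).1
    have hn := lnv_pos v
    by_cases hvW : v ∈ W
    · rw [hzero v (hWe v hvW)]
      have h1 : 0 ≤ (expF α x v : ℝ) * lnv v := by positivity
      have h2 : 0 ≤ (expF α y v : ℝ) * lnv v := by positivity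
      split_ifs <;> linarith
    · have h1 : (if v ∈ suppF α bad x ∧ (v ∉ W ∧ labF α x v = j) then
          (expF α x v : ℝ) * lnv v else 0) = (ef v (α j) x : ℝ) * lnv v := by
        rw [ef_eq_ite' hα hbad hx hvb j]
        simp only [hvW, not_false_eq_true, true_and]
        split_ifs <;> simp
      have h2 : (if v ∈ suppF α bad y ∧ (v ∉ W ∧ labF α y v = i) then
          (expF α y v : ℝ) * lnv v else 0) = (ef v (α i) y : ℝ) * lnv v := by
        rw [ef_eq_ite' hα hbad hy hvb i]
        simp only [hvW, not_false_eq_true, true_and]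
        split_ifs <;> simp
      rw [h1, h2]
      have h3 : max 1 (fa v (tt (α i) (α j) x / tt (α i) (α j) y)) ≤
          nv v ^ (ef v (α j) x + ef v (α i) y) := by
        apply max_le
        · exact one_le_pow₀ (one_lt_nv v).le
        · rw [fa_tt_div v (hx i) (hx j) (hy i) (hy j), ← zpow_natCast]
          apply zpow_le_zpow_right₀ (one_lt_nv v).le
          push_cast
          omega
      calc Real.log (max 1 (fa v (tt (α i) (α j) x / tt (α i) (α j) y)))
          ≤ Real.log (nv v ^ (ef v (α j) x + ef v (α i) y)) :=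
            Real.log_le_log (lt_of_lt_of_le one_pos (le_max_left _ _)) h3
        _ = _ := by
            rw [Real.log_pow]
            push_cast
            unfold lnv
            ring
  refine (Finset.sum_le_sum hterm).trans ?_
  rw [Finset.sum_add_distrib]
  apply add_le_add
  · apply le_of_eq
    unfold massF
    rw [← Finset.sum_filter]
    refine Finset.sum_congr ?_ fun _ _ => rfl
    ext v
    simp only [Finset.mem_filter, hU, Finset.mem_union]
    tauto
  · apply le_of_eq
    unfold massF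
    rw [← Finset.sum_filter]
    refine Finset.sum_congr ?_ fun _ _ => rfl
    ext v
    simp only [Finset.mem_filter, hU, Finset.mem_union]
    tauto

end Pool.Agent.Lib.MP_4d5ce1_nt
end

section

set_option autoImplicit false
set_option linter.unusedSectionVars false

open NumberField IsDedekindDomain

namespace Pool.Agent.Lib.MP_4d5ce1_nt

variable {K : Type*} [Field K] [NumberField K] {q : ℕ}

open Classical in
theorem class_bound [NeZero q] (α : Fin q → K × K)
    (hα : ∀ l m, l ≠ m → wedge (α l) (α m) ≠ 0)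
    (bad : Finset (HeightOneSpectrum (𝓞 K))) (hbad : GoodOff α bad)
    (n : ℕ) (hn : 1 ≤ n) (i j : Fin q) (hij : i ≠ j) :
    ∃ C : ℝ, 0 < C ∧ ∀ (X : Finset (K × K)) (W : Finset (HeightOneSpectrum (𝓞 K)))
      (lab₀ : HeightOneSpectrum (𝓞 K) → Fin q) (e₀ : HeightOneSpectrum (𝓞 K) → ℕ) (z : ℝ),
    (∀ x ∈ X, ∀ l, wedge x (α l) ≠ 0) →
    (∀ x ∈ X, ∀ y ∈ X, x ≠ y → wedge x y ≠ 0) →
    (∀ x ∈ X, W ⊆ suppF α bad x) →
    (∀ x ∈ X, ∀ v ∈ W, labF α x v = lab₀ v ∧ expF α x v = e₀ v) →
    (∀ x ∈ X, ∀ v ∈ suppF α bad x, v ∉ W → (labF α x v = i ∨ labF α x v = j) →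
      n ∣ expF α x v) →
    (∀ x ∈ X, ∀ y ∈ X, hh x ≤ hh y + 1) →
    (∀ x ∈ X, ∀ y ∈ X, ∀ w : InfinitePlace K, ∀ l, lami w (α l) x ≤ lami w (α l) y + 1) →
    (∀ x ∈ X, ∀ y ∈ X, ∀ v ∈ bad, ∀ l, ef v (α l) x = ef v (α l) y) →
    (∀ x ∈ X, toolCost (suppF α bad x) (labF α x) (expF α x) lnv (idxF α bad x) n i j W ≤ z) →
    (X.card : ℝ) ≤ C * Real.exp z * ((n:ℝ) ^ W.card / ∏ v ∈ W, nv v) := by
  obtain ⟨c, hc0, hcsep⟩ := exists_csep α hα
  obtain ⟨s, hssep⟩ := exists_ssep α hα bad
  set A : ℝ := 1 + 4 * Real.exp (2 * c + 3 + q * c) + ∑ v ∈ bad, nv v ^ ((q + 2) * s) with hA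
  have hsumnn : 0 ≤ ∑ v ∈ bad, nv v ^ ((q + 2) * s) :=
    Finset.sum_nonneg fun v _ => (pow_pos (nv_pos v) _).le
  have hexp0 : 0 < Real.exp (2 * c + 3 + q * c) := Real.exp_pos _
  have hA1 : 1 ≤ A := by rw [hA]; linarith
  obtain ⟨C₀, hC₀, hpack⟩ := packing K n hn bad A hA1
  set d : ℝ := (Module.finrank ℚ K : ℝ) with hd
  have hd0 : 0 ≤ d := Nat.cast_nonneg _
  refine ⟨C₀ * (n:ℝ) ^ bad.card * (1 + Real.exp (2 * (1 + d))), by positivity, ?_⟩
  intro X W lab₀ e₀ z hX hXX hW hWk hdiv hhh hlam hefb hcost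
  have hprodW : 0 < ∏ v ∈ W, nv v := Finset.prod_pos fun v _ => nv_pos v
  have hn0 : (0:ℝ) < n := by exact_mod_cast hn
  have hn1 : (1:ℝ) ≤ n := by exact_mod_cast hn
  rcases X.eq_empty_or_nonempty with rfl | ⟨x₀, hx₀⟩
  · simp only [Finset.card_empty, Nat.cast_zero]
    positivity
  -- notations
  set Sw : InfinitePlace K → ℝ := fun w => ∑ l ∈ Finset.univ.filter
    (fun l : Fin q => l ≠ i ∧ l ≠ j), max 0 (lami w (α l) x₀) with hSw
  set Sb : HeightOneSpectrum (𝓞 K) → ℕ := fun v => ∑ l ∈ Finset.univ.filter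
    (fun l : Fin q => l ≠ i ∧ l ≠ j), ef v (α l) x₀ with hSb
  set T₁ : Finset (HeightOneSpectrum (𝓞 K)) :=
    W.filter (fun v => lab₀ v ≠ i ∧ lab₀ v ≠ j) with hT₁
  set T : Finset (HeightOneSpectrum (𝓞 K)) := T₁ ∪ bad with hT
  set e : HeightOneSpectrum (𝓞 K) → ℕ := fun v => if v ∈ bad then Sb v else e₀ v with he
  set F : ℝ := massF α bad W x₀ i + massF α bad W x₀ j with hF
  set M : ℝ := Real.exp ((F + 2 * (1 + d)) / n) with hM
  have hdisj : Disjoint T₁ bad := by
    rw [Finset.disjoint_left]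
    intro v hv hv'
    rw [hT₁, Finset.mem_filter] at hv
    exact ((mem_suppF (hX x₀ hx₀) v).mp (hW x₀ hx₀ hv.1)).1 hv'
  have hWbad : ∀ v ∈ W, v ∉ bad := fun v hv =>
    ((mem_suppF (hX x₀ hx₀) v).mp (hW x₀ hx₀ hv)).1
  -- exponents at places of W
  have hWef : ∀ x ∈ X, ∀ v ∈ W, ∀ l, ef v (α l) x = if lab₀ v = l then e₀ v else 0 := by
    intro x hx v hv l
    rw [ef_eq_ite hα hbad (hX x hx) (hW x hx hv) l, (hWk x hx v hv).1, (hWk x hx v hv).2]
  -- comparison of masses
  have hmass : ∀ x ∈ X, ∀ y ∈ X, ∀ l, massF α bad W x l ≤ massF α bad W y l + (1 + d) := by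
    intro x hx y hy l
    rw [massF_eq hα hbad (hX x hx) W (hW x hx) l, massF_eq hα hbad (hX y hy) W (hW y hy) l]
    have h1 : ∑ v ∈ bad, (ef v (α l) x : ℝ) * lnv v = ∑ v ∈ bad, (ef v (α l) y : ℝ) * lnv v :=
      Finset.sum_congr rfl fun v hv => by rw [hefb x hx y hy v hv l]
    have h2 : ∑ v ∈ W.filter (fun v => labF α x v = l), (expF α x v : ℝ) * lnv v =
        ∑ v ∈ W.filter (fun v => labF α y v = l), (expF α y v : ℝ) * lnv v := by
      rw [Finset.sum_filter, Finset.sum_filter]
      refine Finset.sum_congr rfl fun v hv => ?_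
      rw [(hWk x hx v hv).1, (hWk y hy v hv).1, (hWk x hx v hv).2, (hWk y hy v hv).2]
    have h3 : ∑ w : InfinitePlace K, (w.mult : ℝ) * lami w (α l) y ≤
        ∑ w : InfinitePlace K, (w.mult : ℝ) * lami w (α l) x + d := by
      rw [hd, ← sum_mult, ← Finset.sum_add_distrib]
      refine Finset.sum_le_sum fun w _ => ?_
      have := hlam y hy x hx w l
      have hm : (0:ℝ) ≤ w.mult := Nat.cast_nonneg _
      nlinarith
    have h4 := hhh x hx y hy
    rw [h1, h2]
    linarith
  -- the image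
  set 𝒯 : Finset K := X.image (tt (α i) (α j)) with h𝒯
  have hcard : 𝒯.card = X.card := by
    apply Finset.card_image_of_injOn
    intro x hx y hy hxy
    by_contra hne
    exact hXX x hx y hy hne (tt_inj (hα i j hij) (hX x hx j) (hX y hy i) (hX y hy j) hxy)
  have hmain := hpack 𝒯 T e (fun w => Real.exp (- Sw w)) M (Real.exp_pos _) ?_ ?_ ?_ ?_ ?_ ?_ ?_
  · -- conclusion
    rw [hcard] at hmain
    have hTcard : T.card ≤ W.card + bad.card := by
      refine (Finset.card_union_le _ _).trans ?_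
      exact Nat.add_le_add_right (Finset.card_filter_le _ _) _
    have hnT : (n:ℝ) ^ T.card ≤ (n:ℝ) ^ bad.card * (n:ℝ) ^ W.card := by
      rw [← pow_add]
      apply pow_le_pow_right₀ hn1
      omega
    -- the inner quantity
    set Q : ℝ := F / n - ∑ v ∈ T₁, (e₀ v : ℝ) * lnv v -
      ∑ l ∈ Finset.univ.filter (fun l : Fin q => l ≠ i ∧ l ≠ j), idxF α bad x₀ l with hQ
    have hidx : ∑ l ∈ Finset.univ.filter (fun l : Fin q => l ≠ i ∧ l ≠ j), idxF α bad x₀ l =
        ∑ v ∈ bad, (Sb v : ℝ) * lnv v + ∑ w : InfinitePlace K, (w.mult : ℝ) * Sw w := by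
      unfold idxF
      rw [Finset.sum_add_distrib, Finset.sum_comm]
      congr 1
      · refine Finset.sum_congr rfl fun v _ => ?_
        rw [hSb, ← Finset.sum_mul]
        push_cast
        rfl
      · rw [Finset.sum_comm]
        refine Finset.sum_congr rfl fun w _ => ?_
        rw [hSw, Finset.mul_sum]
    have hsecond : M * (∏ w : InfinitePlace K, Real.exp (- Sw w) ^ w.mult) /
        ∏ v ∈ T, nv v ^ (e v) ≤ Real.exp (2 * (1 + d)) * Real.exp Q := by
      have h1 : ∏ w : InfinitePlace K, Real.exp (- Sw w) ^ w.mult =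
          Real.exp (- ∑ w : InfinitePlace K, (w.mult : ℝ) * Sw w) := by
        rw [← Finset.sum_neg_distrib, Real.exp_sum]
        refine Finset.prod_congr rfl fun w _ => ?_
        rw [← Real.exp_nat_mul]
        congr 1
        ring
      have h2 : ∏ v ∈ T, nv v ^ (e v) =
          Real.exp (∑ v ∈ T₁, (e₀ v : ℝ) * lnv v + ∑ v ∈ bad, (Sb v : ℝ) * lnv v) := by
        have h3 : ∑ v ∈ T₁, (e₀ v : ℝ) * lnv v + ∑ v ∈ bad, (Sb v : ℝ) * lnv v =
            ∑ v ∈ T, (e v : ℝ) * lnv v := by
          rw [hT, Finset.sum_union hdisj]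
          congr 1
          · refine Finset.sum_congr rfl fun v hv => ?_
            have : v ∉ bad := Finset.disjoint_left.mp hdisj hv
            simp only [he, this, if_false]
          · refine Finset.sum_congr rfl fun v hv => ?_
            simp only [he, hv, if_true]
        rw [h3, Real.exp_sum]
        refine Finset.prod_congr rfl fun v _ => ?_
        rw [Real.exp_nat_mul]
        congr 1
        unfold lnv
        rw [Real.exp_log (nv_pos v)]
      rw [h1, h2, hM, ← Real.exp_add, ← Real.exp_sub, ← Real.exp_add]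
      apply Real.exp_le_exp.mpr
      rw [hQ, hidx]
      have h5 : (F + 2 * (1 + d)) / n ≤ F / n + 2 * (1 + d) := by
        rw [add_div]
        have : 2 * (1 + d) / n ≤ 2 * (1 + d) := div_le_self (by positivity) hn1
        linarith
      linarith
    have hone : 1 + M * (∏ w : InfinitePlace K, Real.exp (- Sw w) ^ w.mult) /
        ∏ v ∈ T, nv v ^ (e v) ≤ (1 + Real.exp (2 * (1 + d))) * Real.exp (max 0 Q) := by
      have h1 : (1:ℝ) ≤ Real.exp (max 0 Q) := Real.one_le_exp (le_max_left _ _)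
      have h2 : Real.exp Q ≤ Real.exp (max 0 Q) := Real.exp_le_exp.mpr (le_max_right _ _)
      have h3 : 0 < Real.exp (2 * (1 + d)) := Real.exp_pos _
      nlinarith
    have hQz : max 0 Q ≤ z - ∑ v ∈ W, lnv v := by
      have h1 := hcost x₀ hx₀
      unfold toolCost at h1
      have h2 : ∑ v ∈ (suppF α bad x₀).filter
          (fun v => v ∉ W ∧ (labF α x₀ v = i ∨ labF α x₀ v = j)), (expF α x₀ v : ℝ) * lnv v = F := by
        rw [hF]
        unfold massF
        rw [← Finset.sum_union]
        · refine Finset.sum_congr ?_ fun _ _ => rfl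
          ext v
          simp only [Finset.mem_filter, Finset.mem_union]
          tauto
        · rw [Finset.disjoint_left]
          intro v hv hv'
          rw [Finset.mem_filter] at hv hv'
          exact hij (hv.2.2.symm.trans hv'.2.2)
      have h3 : ∑ v ∈ W.filter (fun v => labF α x₀ v ≠ i ∧ labF α x₀ v ≠ j),
          (expF α x₀ v : ℝ) * lnv v = ∑ v ∈ T₁, (e₀ v : ℝ) * lnv v := by
        rw [hT₁, Finset.sum_filter, Finset.sum_filter]
        refine Finset.sum_congr rfl fun v hv => ?_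
        rw [(hWk x₀ hx₀ v hv).1, (hWk x₀ hx₀ v hv).2]
      rw [h2, h3] at h1
      rw [hQ]
      linarith
    have hexpQ : Real.exp (max 0 Q) ≤ Real.exp z / ∏ v ∈ W, nv v := by
      calc Real.exp (max 0 Q) ≤ Real.exp (z - ∑ v ∈ W, lnv v) := Real.exp_le_exp.mpr hQz
        _ = _ := by
          rw [Real.exp_sub, Real.exp_sum]
          congr 1
          refine Finset.prod_congr rfl fun v _ => ?_
          unfold lnv
          rw [Real.exp_log (nv_pos v)]
    calc (X.card : ℝ) ≤ C₀ * (n:ℝ) ^ T.card * (1 + M * (∏ w : InfinitePlace K,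
          Real.exp (- Sw w) ^ w.mult) / ∏ v ∈ T, nv v ^ (e v)) := hmain
      _ ≤ C₀ * ((n:ℝ) ^ bad.card * (n:ℝ) ^ W.card) *
          ((1 + Real.exp (2 * (1 + d))) * (Real.exp z / ∏ v ∈ W, nv v)) := by
          apply mul_le_mul
          · exact mul_le_mul_of_nonneg_left hnT hC₀.le
          · refine hone.trans ?_
            exact mul_le_mul_of_nonneg_left hexpQ (by positivity)
          · have : 0 < ∏ v ∈ T, nv v ^ (e v) := Finset.prod_pos fun v _ => pow_pos (nv_pos v) _
            have h7 : 0 < ∏ w : InfinitePlace K, Real.exp (- Sw w) ^ w.mult :=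
              Finset.prod_pos fun w _ => pow_pos (Real.exp_pos _) _
            positivity
          · positivity
      _ = _ := by ring
  · -- nonzero
    intro t ht
    rw [h𝒯, Finset.mem_image] at ht
    obtain ⟨x, hx, rfl⟩ := ht
    exact tt_ne_zero (hX x hx i) (hX x hx j)
  · -- divisibility
    intro t ht t' ht' v
    rw [h𝒯, Finset.mem_image] at ht ht'
    obtain ⟨x, hx, rfl⟩ := ht
    obtain ⟨y, hy, rfl⟩ := ht'
    rw [ordv_of_fa v (div_ne_zero (tt_ne_zero (hX x hx i) (hX x hx j))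
      (tt_ne_zero (hX y hy i) (hX y hy j)))
      (fa_tt_div v (hX x hx i) (hX x hx j) (hX y hy i) (hX y hy j))]
    by_cases hvb : v ∈ bad
    · rw [hefb x hx y hy v hvb, hefb x hx y hy v hvb]
      simp
    · by_cases hvW : v ∈ W
      · rw [hWef x hx v hvW, hWef x hx v hvW, hWef y hy v hvW, hWef y hy v hvW]
        simp
      · have hd1 : ∀ x ∈ X, ∀ l, (l = i ∨ l = j) → (n : ℤ) ∣ (ef v (α l) x : ℤ) := by
          intro x hx l hl
          rw [Int.natCast_dvd_natCast, ef_eq_ite' hα hbad (hX x hx) hvb l]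
          split_ifs with h
          · apply hdiv x hx v h.1 hvW
            rw [h.2]; exact hl
          · exact dvd_zero _
        have h1 := hd1 x hx i (Or.inl rfl)
        have h2 := hd1 x hx j (Or.inr rfl)
        have h3 := hd1 y hy i (Or.inl rfl)
        have h4 := hd1 y hy j (Or.inr rfl)
        rw [dvd_neg]
        exact dvd_sub (dvd_add (dvd_sub h2 h1) h3) h4
  · -- exponents positive
    intro v hv hvb
    rw [hT, Finset.mem_union] at hv
    rcases hv with hv | hv
    · rw [hT₁, Finset.mem_filter] at hv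
      simp only [he, hvb, if_false]
      rw [← (hWk x₀ hx₀ v hv.1).2]
      exact exp_pos_of_mem (hX x₀ hx₀) (hW x₀ hx₀ hv.1)
    · exact absurd hv hvb
  · -- local conditions
    intro t ht t' ht' v hv
    rw [h𝒯, Finset.mem_image] at ht ht'
    obtain ⟨x, hx, rfl⟩ := ht
    obtain ⟨y, hy, rfl⟩ := ht'
    by_cases hvb : v ∈ bad
    · simp only [he, hvb, if_true]
      have h1 := bad_class α v s i j x₀ x y (hX x hx) (hX y hy)
        (fun l m hlm => hssep v hvb x₀ (hX x₀ hx₀) l m hlm)
        (fun l => hefb x hx x₀ hx₀ v hvb l) (fun l => hefb y hy x₀ hx₀ v hvb l)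
      refine ⟨h1.1, h1.2.trans ?_⟩
      apply mul_le_mul_of_nonneg_right _ (inv_nonneg.mpr (pow_pos (nv_pos v) _).le)
      rw [hA]
      have : nv v ^ ((q + 2) * s) ≤ ∑ v ∈ bad, nv v ^ ((q + 2) * s) :=
        Finset.single_le_sum (f := fun v => nv v ^ ((q + 2) * s))
          (fun v _ => (pow_pos (nv_pos v) _).le) hvb
      linarith
    · simp only [he, hvb, if_false, one_mul]
      rw [hT, Finset.mem_union] at hv
      have hv1 : v ∈ T₁ := by
        rcases hv with hv | hv
        · exact hv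
        · exact absurd hv hvb
      rw [hT₁, Finset.mem_filter] at hv1
      obtain ⟨hvW, hli, hlj⟩ := hv1
      constructor
      · rw [fa_tt_div v (hX x hx i) (hX x hx j) (hX y hy i) (hX y hy j),
          hWef x hx v hvW, hWef x hx v hvW, hWef y hy v hvW, hWef y hy v hvW]
        simp
      · have h1 := fa_tt_sub_one_le v (a := α i) (b := α j) (c := α (lab₀ v))
          (hX x hx j) (hX y hy i) (hX y hy j) (hX x hx (lab₀ v)) (hX y hy (lab₀ v))
        rw [hWef x hx v hvW, hWef x hx v hvW, hWef y hy v hvW, hWef y hy v hvW] at h1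
        simpa [hli, hlj] using h1
  · -- radii
    intro w
    refine ⟨Real.exp_pos _, ?_⟩
    rw [← Real.exp_zero]
    apply Real.exp_le_exp.mpr
    have : 0 ≤ Sw w := Finset.sum_nonneg fun l _ => le_max_left _ _
    linarith
  · -- archimedean
    intro t ht t' ht' w
    rw [h𝒯, Finset.mem_image] at ht ht'
    obtain ⟨x, hx, rfl⟩ := ht
    obtain ⟨y, hy, rfl⟩ := ht'
    refine (arch_class α w c hc0 i j hij x₀ x y (hX x hx) (hX y hy)
      (fun l m hlm => hcsep w x₀ (hX x₀ hx₀) l m hlm)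
      (fun l => hlam x hx x₀ hx₀ w l) (fun l => hlam x₀ hx₀ x hx w l)
      (fun l => hlam y hy x₀ hx₀ w l) (fun l => hlam x₀ hx₀ y hy w l)).trans ?_
    apply mul_le_mul_of_nonneg_right _ (Real.exp_pos _).le
    rw [hA]
    linarith
  · -- finite mass
    intro t ht t' ht'
    rw [h𝒯, Finset.mem_image] at ht ht'
    obtain ⟨x, hx, rfl⟩ := ht
    obtain ⟨y, hy, rfl⟩ := ht'
    refine (fin_class hα hbad (hX x hx) (hX y hy) i j W (hefb x hx y hy)
      (fun v hv l => by rw [hWef x hx v hv, hWef y hy v hv])).trans ?_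
    rw [hM, Real.log_exp, mul_div_cancel₀ _ hn0.ne']
    have h1 := hmass x hx x₀ hx₀ j
    have h2 := hmass y hy x₀ hx₀ i
    rw [hF]
    linarith

end Pool.Agent.Lib.MP_4d5ce1_nt
end

section

set_option autoImplicit false
set_option linter.unusedSectionVars false

open NumberField IsDedekindDomain

namespace Pool.Agent.Lib.MP_4d5ce1_nt

variable {K : Type*} [Field K] [NumberField K] {q : ℕ}

open Classical in
/-- The code of the labels and exponents at the primes of `W`. -/
noncomputable def kap [NeZero q] (α : Fin q → K × K) (x : K × K)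
    (W : Finset (HeightOneSpectrum (𝓞 K))) : HeightOneSpectrum (𝓞 K) →₀ ℕ :=
  Finsupp.onFinset W
    (fun v => if v ∈ W then q * (expF α x v - 1) + (labF α x v : ℕ) + 1 else 0)
    (by
      intro v hv
      by_contra h
      simp [h] at hv)

lemma kap_apply [NeZero q] (α : Fin q → K × K) (x : K × K)
    (W : Finset (HeightOneSpectrum (𝓞 K))) {v : HeightOneSpectrum (𝓞 K)} (hv : v ∈ W) :
    kap α x W v = q * (expF α x v - 1) + (labF α x v : ℕ) + 1 := by
  unfold kap
  rw [Finsupp.onFinset_apply, if_pos hv]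

lemma kap_support [NeZero q] (α : Fin q → K × K) (x : K × K)
    (W : Finset (HeightOneSpectrum (𝓞 K))) : (kap α x W).support = W := by
  ext v
  rw [Finsupp.mem_support_iff]
  constructor
  · intro h
    by_contra hv
    apply h
    unfold kap
    rw [Finsupp.onFinset_apply, if_neg hv]
  · intro hv
    rw [kap_apply α x W hv]
    omega

lemma kap_exp [NeZero q] (α : Fin q → K × K) (x : K × K)
    (W : Finset (HeightOneSpectrum (𝓞 K))) {v : HeightOneSpectrum (𝓞 K)} (hv : v ∈ W)
    (he : 1 ≤ expF α x v) : (kap α x W v - 1) / q + 1 = expF α x v := by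
  rw [kap_apply α x W hv, Nat.add_sub_cancel]
  have hq : 0 < q := Nat.pos_of_ne_zero (NeZero.ne q)
  rw [Nat.mul_add_div hq, Nat.div_eq_of_lt (labF α x v).2]
  omega

lemma kap_lab [NeZero q] (α : Fin q → K × K) (x : K × K)
    (W : Finset (HeightOneSpectrum (𝓞 K))) {v : HeightOneSpectrum (𝓞 K)} (hv : v ∈ W) :
    Fin.ofNat q (kap α x W v - 1) = labF α x v := by
  rw [kap_apply α x W hv, Nat.add_sub_cancel]
  apply Fin.ext
  simp only [Fin.ofNat, Nat.mul_add_mod]
  exact Nat.mod_eq_of_lt (labF α x v).2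

/-- Polynomial growth is absorbed by the exponential. -/
lemma poly_le_exp (m : ℕ) (a b η : ℝ) (ha : 0 ≤ a) (hb : 0 < b) (hη : 0 < η) :
    ∃ C : ℝ, 0 < C ∧ ∀ β : ℝ, 0 ≤ β → (a * β + b) ^ m ≤ C * Real.exp (η * β) := by
  set L : ℝ := b + a * (m + 1) / η with hL
  have hL0 : 0 < L := by positivity
  refine ⟨L ^ m, by positivity, ?_⟩
  intro β hβ
  have h1 : a * β + b ≤ L * (1 + η * β / (m + 1)) := by
    have h2 : L * (1 + η * β / (m + 1)) = b + a * β + a * (m + 1) / η + b * (η * β / (m + 1)) := by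
      rw [hL]
      field_simp
      ring
    rw [h2]
    have h3 : 0 ≤ a * (m + 1) / η := by positivity
    have h4 : 0 ≤ b * (η * β / (m + 1)) := by positivity
    linarith
  have h5 : 1 + η * β / (m + 1) ≤ Real.exp (η * β / (m + 1)) := by
    have := Real.add_one_le_exp (η * β / (m + 1))
    linarith
  have h6 : a * β + b ≤ L * Real.exp (η * β / (m + 1)) :=
    h1.trans (mul_le_mul_of_nonneg_left h5 hL0.le)
  have h7 : 0 ≤ a * β + b := by positivity
  calc (a * β + b) ^ m ≤ (L * Real.exp (η * β / (m + 1))) ^ m := pow_le_pow_left₀ h7 h6 m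
    _ = L ^ m * Real.exp (m * (η * β / (m + 1))) := by rw [mul_pow, ← Real.exp_nat_mul]
    _ ≤ L ^ m * Real.exp (η * β) := by
        apply mul_le_mul_of_nonneg_left _ (by positivity)
        apply Real.exp_le_exp.mpr
        have h8 : (m:ℝ) * (η * β / (m + 1)) = (m / (m + 1)) * (η * β) := by ring
        rw [h8]
        have h9 : (m:ℝ) / (m + 1) ≤ 1 := by
          rw [div_le_one (by positivity)]
          linarith
        have h10 : 0 ≤ η * β := by positivity
        nlinarith

/-- Index type of the finite part of the key. -/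
abbrev KeyIdx (K : Type*) [Field K] [NumberField K] (q : ℕ)
    (bad : Finset (HeightOneSpectrum (𝓞 K))) : Type _ :=
  Unit ⊕ ((InfinitePlace K × Fin q) ⊕ (bad × Fin q))

/-- The finite part of the key. -/
noncomputable def key1 (α : Fin q → K × K) (bad : Finset (HeightOneSpectrum (𝓞 K)))
    (x : K × K) : KeyIdx K q bad → ℤ
  | Sum.inl _ => ⌊hh x⌋
  | Sum.inr (Sum.inl p) => ⌊lami p.1 (α p.2) x⌋
  | Sum.inr (Sum.inr p) => (ef p.1.1 (α p.2) x : ℤ)

lemma key1_hh {α : Fin q → K × K} {bad : Finset (HeightOneSpectrum (𝓞 K))}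
    {x y : K × K} (h : key1 α bad x = key1 α bad y) : hh x ≤ hh y + 1 := by
  have h1 := congrFun h (Sum.inl ())
  simp only [key1] at h1
  have h2 := Int.lt_floor_add_one (hh x)
  have h3 := Int.floor_le (hh y)
  rw [h1] at h2
  linarith

lemma key1_lami {α : Fin q → K × K} {bad : Finset (HeightOneSpectrum (𝓞 K))}
    {x y : K × K} (h : key1 α bad x = key1 α bad y) (w : InfinitePlace K) (l : Fin q) :
    lami w (α l) x ≤ lami w (α l) y + 1 := by
  have h1 := congrFun h (Sum.inr (Sum.inl (w, l)))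
  simp only [key1] at h1
  have h2 := Int.lt_floor_add_one (lami w (α l) x)
  have h3 := Int.floor_le (lami w (α l) y)
  rw [h1] at h2
  linarith

lemma key1_ef {α : Fin q → K × K} {bad : Finset (HeightOneSpectrum (𝓞 K))}
    {x y : K × K} (h : key1 α bad x = key1 α bad y) {v : HeightOneSpectrum (𝓞 K)}
    (hv : v ∈ bad) (l : Fin q) : ef v (α l) x = ef v (α l) y := by
  have h1 := congrFun h (Sum.inr (Sum.inr (⟨v, hv⟩, l)))
  simp only [key1] at h1
  exact_mod_cast h1

lemma one_le_mult (w : InfinitePlace K) : (1:ℝ) ≤ w.mult := by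
  have := InfinitePlace.mult_pos (w := w)
  exact_mod_cast this

lemma half_le_log_two : (1/2 : ℝ) ≤ Real.log 2 := by
  have := Real.log_two_gt_d9
  linarith

lemma half_le_lnv (v : HeightOneSpectrum (𝓞 K)) : (1/2 : ℝ) ≤ lnv v :=
  half_le_log_two.trans (Real.log_le_log (by norm_num) (two_le_nv v))

open Classical in
theorem master [NeZero q] (α : Fin q → K × K)
    (hα : ∀ l m, l ≠ m → wedge (α l) (α m) ≠ 0)
    (bad : Finset (HeightOneSpectrum (𝓞 K))) (hbad : GoodOff α bad)
    (n : ℕ) (hn : 1 ≤ n) (i j : Fin q) (hij : i ≠ j) (η : ℝ) (hη : 0 < η) :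
    ∃ C : ℝ, 0 < C ∧ ∀ (β z : ℝ) (X : Finset (K × K)),
    (∀ x ∈ X, ∀ l, wedge x (α l) ≠ 0) →
    (∀ x ∈ X, ∀ y ∈ X, x ≠ y → wedge x y ≠ 0) →
    (∀ x ∈ X, hh x ≤ β) →
    (∀ x ∈ X, ∃ W : Finset (HeightOneSpectrum (𝓞 K)), W ⊆ suppF α bad x ∧
      (∀ v ∈ suppF α bad x, v ∉ W → (labF α x v = i ∨ labF α x v = j) →
        n ∣ expF α x v) ∧
      toolCost (suppF α bad x) (labF α x) (expF α x) lnv (idxF α bad x) n i j W ≤ z) →
    (X.card : ℝ) ≤ C * Real.exp (z + η * β) := by
  have hq : 1 ≤ q := Nat.one_le_iff_ne_zero.mpr (NeZero.ne q)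
  have hq0 : (0:ℝ) < q := by exact_mod_cast hq
  obtain ⟨C₀, hC₀, hclass⟩ := class_bound α hα bad hbad n hn i j hij
  obtain ⟨C₁, hC₁, hrank⟩ := rankin_sum K q hq (n:ℝ) (η / (2 * q)) (Nat.cast_nonneg _)
    (by positivity)
  set K₀ : ℝ := ∑ l, (|hh (α l)| + Module.finrank ℚ K) with hK₀
  have hK₀0 : 0 ≤ K₀ := by positivity
  have hKl : ∀ l, |hh (α l)| + Module.finrank ℚ K ≤ K₀ := fun l =>
    Finset.single_le_sum (f := fun l => |hh (α l)| + (Module.finrank ℚ K : ℝ))
      (fun l _ => by positivity) (Finset.mem_univ l)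
  obtain ⟨C₂, hC₂, hpoly⟩ := poly_le_exp (Fintype.card (KeyIdx K q bad)) 2 (2 * K₀ + 2)
    (η / 2) (by norm_num) (by positivity) (by positivity)
  refine ⟨C₂ * C₀ * C₁ * Real.exp (η / (2 * q) * K₀), by positivity, ?_⟩
  intro β z X hX hXX hβ hW
  rcases X.eq_empty_or_nonempty with rfl | ⟨x₁, hx₁⟩
  · simp only [Finset.card_empty, Nat.cast_zero]
    positivity
  have hβ0 : 0 ≤ β := (hh_nonneg (wedge_left_ne (hX x₁ hx₁ i))).trans (hβ x₁ hx₁)
  choose! Wf hWsub hWdiv hWcost using hW
  -- the ranges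
  set N : ℤ := ⌊2 * (β + K₀)⌋ with hN
  have hN0 : 0 ≤ N := Int.floor_nonneg.mpr (by positivity)
  set R₁ : Finset (KeyIdx K q bad → ℤ) := Fintype.piFinset fun _ => Finset.Icc (-1) N with hR₁
  set 𝓕 : Finset (HeightOneSpectrum (𝓞 K) →₀ ℕ) := X.image fun x => kap α x (Wf x) with h𝓕
  -- bounds on indices
  have hfmt : ∀ x ∈ X, ∀ l, ∑ v ∈ (suppF α bad x).filter (fun v => labF α x v = l),
      (expF α x v : ℝ) * lnv v + idxF α bad x l ≤ β + (|hh (α l)| + Module.finrank ℚ K) := by
    intro x hx l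
    have h1 := (abs_le.mp (config_fmt hα hbad (hX x hx) l)).2
    have h2 := hβ x hx
    linarith
  have hidx : ∀ x ∈ X, ∀ l, idxF α bad x l ≤ β + K₀ := by
    intro x hx l
    have h1 := hfmt x hx l
    have h2 : 0 ≤ ∑ v ∈ (suppF α bad x).filter (fun v => labF α x v = l),
      (expF α x v : ℝ) * lnv v :=
      Finset.sum_nonneg fun v _ => mul_nonneg (Nat.cast_nonneg _) (lnv_pos v).le
    have h3 := hKl l
    linarith
  have hkey1 : ∀ x ∈ X, key1 α bad x ∈ R₁ := by
    intro x hx
    rw [hR₁, Fintype.mem_piFinset]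
    intro a
    rw [Finset.mem_Icc]
    rcases a with a | a | a
    · simp only [key1]
      constructor
      · have := Int.floor_nonneg.mpr (hh_nonneg (wedge_left_ne (hX x hx i)))
        omega
      · rw [hN]
        apply Int.floor_le_floor
        have := hβ x hx
        linarith
    · simp only [key1]
      constructor
      · rw [Int.le_floor]
        have h1 := lami_ge a.1 (hX x hx a.2)
        have h2 := log_two_le_one
        push_cast
        linarith
      · rw [hN]
        apply Int.floor_le_floor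
        have h1 := hidx x hx a.2
        unfold idxF at h1
        have h2 : 0 ≤ ∑ v ∈ bad, (ef v (α a.2) x : ℝ) * lnv v :=
          Finset.sum_nonneg fun v _ => mul_nonneg (Nat.cast_nonneg _) (lnv_pos v).le
        have h3 : (a.1.mult : ℝ) * max 0 (lami a.1 (α a.2) x) ≤
            ∑ w : InfinitePlace K, (w.mult : ℝ) * max 0 (lami w (α a.2) x) :=
          Finset.single_le_sum (f := fun w : InfinitePlace K =>
            (w.mult : ℝ) * max 0 (lami w (α a.2) x))
            (fun w _ => mul_nonneg (Nat.cast_nonneg _) (le_max_left _ _)) (Finset.mem_univ a.1)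
        have h4 := one_le_mult a.1
        have h5 : (0:ℝ) ≤ max 0 (lami a.1 (α a.2) x) := le_max_left _ _
        have h6 : lami a.1 (α a.2) x ≤ max 0 (lami a.1 (α a.2) x) := le_max_right _ _
        nlinarith
    · simp only [key1]
      constructor
      · omega
      · rw [hN, Int.le_floor]
        have h1 := hidx x hx a.2
        unfold idxF at h1
        have h2 : 0 ≤ ∑ w : InfinitePlace K, (w.mult : ℝ) * max 0 (lami w (α a.2) x) :=
          Finset.sum_nonneg fun w _ => mul_nonneg (Nat.cast_nonneg _) (le_max_left _ _)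
        have h3 : (ef a.1.1 (α a.2) x : ℝ) * lnv a.1.1 ≤
            ∑ v ∈ bad, (ef v (α a.2) x : ℝ) * lnv v :=
          Finset.single_le_sum (f := fun v => (ef v (α a.2) x : ℝ) * lnv v)
            (fun v _ => mul_nonneg (Nat.cast_nonneg _) (lnv_pos v).le) a.1.2
        have h4 := half_le_lnv a.1.1
        have h5 : (0:ℝ) ≤ (ef a.1.1 (α a.2) x : ℝ) := Nat.cast_nonneg _
        push_cast
        nlinarith
  have hmaps : ∀ x ∈ X, (key1 α bad x, kap α x (Wf x)) ∈ R₁ ×ˢ 𝓕 := by
    intro x hx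
    rw [Finset.mem_product]
    exact ⟨hkey1 x hx, Finset.mem_image_of_mem _ hx⟩
  -- each fiber
  have hfib : ∀ k ∈ R₁ ×ˢ 𝓕,
      ((X.filter fun x => (key1 α bad x, kap α x (Wf x)) = k).card : ℝ) ≤
      C₀ * Real.exp z * ∏ v ∈ k.2.support, ((n:ℝ) / nv v) := by
    rintro ⟨k₁, κ⟩ -
    have hsub : ∀ x ∈ X.filter (fun x => (key1 α bad x, kap α x (Wf x)) = (k₁, κ)),
        x ∈ X ∧ key1 α bad x = k₁ ∧ kap α x (Wf x) = κ := by
      intro x hx
      rw [Finset.mem_filter, Prod.mk.injEq] at hx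
      exact hx
    have hsupp : ∀ x ∈ X.filter (fun x => (key1 α bad x, kap α x (Wf x)) = (k₁, κ)),
        κ.support = Wf x := by
      intro x hx
      rw [← (hsub x hx).2.2, kap_support]
    have h := hclass (X.filter fun x => (key1 α bad x, kap α x (Wf x)) = (k₁, κ)) κ.support
      (fun v => Fin.ofNat q (κ v - 1)) (fun v => (κ v - 1) / q + 1) z
      (fun x hx => hX x (hsub x hx).1)
      (fun x hx y hy => hXX x (hsub x hx).1 y (hsub y hy).1)
      (fun x hx => by rw [hsupp x hx]; exact hWsub x (hsub x hx).1)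
      (fun x hx v hv => by
        rw [hsupp x hx] at hv
        have h1 := hsub x hx
        constructor
        · simp only [← h1.2.2]
          rw [kap_lab α x _ hv]
        · simp only [← h1.2.2]
          rw [kap_exp α x _ hv (exp_pos_of_mem (hX x h1.1) (hWsub x h1.1 hv))])
      (fun x hx v hv hvW => by
        rw [hsupp x hx] at hvW
        exact hWdiv x (hsub x hx).1 v hv hvW)
      (fun x hx y hy => key1_hh ((hsub x hx).2.1.trans (hsub y hy).2.1.symm))
      (fun x hx y hy => key1_lami ((hsub x hx).2.1.trans (hsub y hy).2.1.symm))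
      (fun x hx y hy v hv => key1_ef ((hsub x hx).2.1.trans (hsub y hy).2.1.symm) hv)
      (fun x hx => by
        rw [hsupp x hx]
        exact hWcost x (hsub x hx).1)
    rw [Finset.prod_div_distrib, Finset.prod_const]
    exact h
  -- the Rankin sum
  have hR : ∑ κ ∈ 𝓕, ∏ v ∈ κ.support, ((n:ℝ) / nv v) ≤
      C₁ * Real.exp (q * β + K₀) ^ (η / (2 * q)) := by
    apply hrank
    · exact Real.one_le_exp (by positivity)
    · intro κ hκ
      rw [h𝓕, Finset.mem_image] at hκ
      obtain ⟨x, hx, rfl⟩ := hκ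
      rw [kap_support, Real.log_exp]
      have h1 : ∑ v ∈ Wf x, (((kap α x (Wf x) v - 1) / q + 1 : ℕ) : ℝ) * Real.log (nv v) =
          ∑ v ∈ Wf x, (expF α x v : ℝ) * lnv v := by
        refine Finset.sum_congr rfl fun v hv => ?_
        rw [kap_exp α x _ hv (exp_pos_of_mem (hX x hx) (hWsub x hx hv))]
        rfl
      rw [h1]
      calc ∑ v ∈ Wf x, (expF α x v : ℝ) * lnv v
          ≤ ∑ v ∈ suppF α bad x, (expF α x v : ℝ) * lnv v :=
            Finset.sum_le_sum_of_subset_of_nonneg (hWsub x hx)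
              (fun v _ _ => mul_nonneg (Nat.cast_nonneg _) (lnv_pos v).le)
        _ = ∑ l, ∑ v ∈ (suppF α bad x).filter (fun v => labF α x v = l),
              (expF α x v : ℝ) * lnv v :=
            (Finset.sum_fiberwise_of_maps_to (fun v _ => Finset.mem_univ _) _).symm
        _ ≤ ∑ l : Fin q, (β + (|hh (α l)| + Module.finrank ℚ K)) := by
            refine Finset.sum_le_sum fun l _ => ?_
            have h2 := hfmt x hx l
            have h3 := idxF_nonneg α bad x l
            linarith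
        _ = q * β + K₀ := by
            rw [Finset.sum_add_distrib, Finset.sum_const, Finset.card_univ, Fintype.card_fin,
              nsmul_eq_mul]
  have hR' : Real.exp (q * β + K₀) ^ (η / (2 * q)) =
      Real.exp (η / 2 * β) * Real.exp (η / (2 * q) * K₀) := by
    rw [← Real.exp_mul, ← Real.exp_add]
    congr 1
    field_simp
  have hcardR : (R₁.card : ℝ) ≤ C₂ * Real.exp (η / 2 * β) := by
    refine le_trans ?_ (hpoly β hβ0)
    rw [hR₁, Fintype.card_piFinset]
    simp only [Int.card_Icc, Finset.prod_const, Finset.card_univ]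
    push_cast
    apply pow_le_pow_left₀ (by positivity)
    have h1 : ((N + 1 - -1).toNat : ℝ) = (N:ℝ) + 2 := by
      have h2 : (((N + 1 - -1).toNat : ℤ) : ℝ) = ((N + 2 : ℤ) : ℝ) := by
        congr 1
        rw [Int.toNat_of_nonneg (by omega)]
        ring
      rw [Int.cast_natCast] at h2
      rw [h2]
      push_cast
      ring
    rw [h1]
    have h3 : (N:ℝ) ≤ 2 * (β + K₀) := Int.floor_le _
    linarith
  have hcount := Finset.card_eq_sum_card_fiberwise (s := X) (t := R₁ ×ˢ 𝓕)
    (f := fun x => (key1 α bad x, kap α x (Wf x))) hmaps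
  have hP : 0 ≤ ∑ κ ∈ 𝓕, ∏ v ∈ κ.support, ((n:ℝ) / nv v) :=
    Finset.sum_nonneg fun κ _ => Finset.prod_nonneg fun v _ =>
      div_nonneg (Nat.cast_nonneg _) (nv_pos v).le
  calc (X.card : ℝ) = ∑ k ∈ R₁ ×ˢ 𝓕,
        ((X.filter fun x => (key1 α bad x, kap α x (Wf x)) = k).card : ℝ) := by
        rw [hcount]; push_cast; rfl
    _ ≤ ∑ k ∈ R₁ ×ˢ 𝓕, C₀ * Real.exp z * ∏ v ∈ k.2.support, ((n:ℝ) / nv v) :=
        Finset.sum_le_sum hfib
    _ = R₁.card * (C₀ * Real.exp z * ∑ κ ∈ 𝓕, ∏ v ∈ κ.support, ((n:ℝ) / nv v)) := by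
        rw [Finset.sum_product]
        simp only
        rw [Finset.sum_const, nsmul_eq_mul, Finset.mul_sum, Finset.mul_sum, Finset.mul_sum]
    _ ≤ (C₂ * Real.exp (η / 2 * β)) * (C₀ * Real.exp z *
          (C₁ * (Real.exp (η / 2 * β) * Real.exp (η / (2 * q) * K₀)))) := by
        rw [← hR']
        apply mul_le_mul hcardR _ (by positivity) (by positivity)
        exact mul_le_mul_of_nonneg_left hR (by positivity)
    _ = C₂ * C₀ * C₁ * Real.exp (η / (2 * q) * K₀) * Real.exp (z + η * β) := by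
        have : Real.exp (z + η * β) = Real.exp z * (Real.exp (η / 2 * β) * Real.exp (η / 2 * β)) := by
          rw [← Real.exp_add, ← Real.exp_add]
          congr 1
          ring
        rw [this]
        ring

end Pool.Agent.Lib.MP_4d5ce1_nt
end
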