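import Pool.Agent.Lib.MP_4d5ce1_nt.BDefs
import Pool.Agent.Lib.MP_4d5ce1_nt.Master

set_option autoImplicit false
set_option linter.unusedSectionVars false

open NumberField IsDedekindDomain

namespace Pool.Agent.Lib.MP_4d5ce1_nt

/-! ## Module D : the point `y = t_x / t_{x'}` -/

variable {K : Type*} [Field K] [NumberField K] {q : ℕ}

section al3

lemma sz_al3 (v : HeightOneSpectrum (𝓞 K)) (l : Fin 3) : sz v (al3 K l) = 1 := by
  fin_cases l <;> simp [sz, al3]

lemma szi_al3 (w : InfinitePlace K) (l : Fin 3) : szi w (al3 K l) = 1 := by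
  fin_cases l <;> simp [szi, al3]

lemma wedge_al3_0 (z : K) : wedge ((z, 1) : K × K) (al3 K 0) = z := by
  simp [wedge, al3]

lemma wedge_al3_1 (z : K) : wedge ((z, 1) : K × K) (al3 K 1) = -1 := by
  simp [wedge, al3]

lemma wedge_al3_2 (z : K) : wedge ((z, 1) : K × K) (al3 K 2) = z - 1 := by
  simp [wedge, al3]

lemma al3_wedge_cases (l m : Fin 3) (h : l ≠ m) :
    wedge (al3 K l) (al3 K m) = 1 ∨ wedge (al3 K l) (al3 K m) = -1 := by
  fin_cases l <;> fin_cases m <;> simp [wedge, al3] at h ⊢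

lemma al3_wedge (l m : Fin 3) (h : l ≠ m) : wedge (al3 K l) (al3 K m) ≠ 0 := by
  rcases al3_wedge_cases (K := K) l m h with h1 | h1 <;> rw [h1]
  · exact one_ne_zero
  · exact neg_ne_zero.mpr one_ne_zero

lemma al3_good (bad : Finset (HeightOneSpectrum (𝓞 K))) : GoodOff (al3 K) bad := by
  intro v _ l m hlm
  have h1 : fa v (wedge (al3 K l) (al3 K m)) = 1 := by
    rcases al3_wedge_cases (K := K) l m hlm with h1 | h1 <;> rw [h1]
    · exact fa_one v
    · rw [fa_neg, fa_one]
  unfold ef lamf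
  rw [sz_al3, sz_al3, h1]
  simp

lemma sz_yy (v : HeightOneSpectrum (𝓞 K)) (z : K) :
    sz v ((z, 1) : K × K) = max (fa v z) 1 := by
  simp [sz]

lemma szi_yy (w : InfinitePlace K) (z : K) : szi w ((z, 1) : K × K) = max (w z) 1 := by
  simp [szi]

lemma ef_of_log (v : HeightOneSpectrum (𝓞 K)) {a x : K × K} {k : ℕ}
    (h : lamf v a x = (k : ℝ) * Real.log (nv v)) : ef v a x = k := by
  unfold ef
  rw [h, mul_div_cancel_right₀ _ (log_nv_pos v).ne', Nat.floor_natCast]

/-- exponent at `0` -/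
lemma ef_al3_0 (v : HeightOneSpectrum (𝓞 K)) {z : K} {k : ℤ}
    (h : fa v z = nv v ^ k) : ef v (al3 K 0) (z, 1) = (-k).toNat := by
  apply ef_of_log
  unfold lamf
  rw [sz_yy, sz_al3, wedge_al3_0, h, mul_one]
  rcases le_or_gt 0 k with hk | hk
  · have h1 : (1:ℝ) ≤ nv v ^ k := one_le_zpow₀ (one_lt_nv v).le hk
    rw [max_eq_left h1, div_self (zpow_pos (nv_pos v) k).ne', Real.log_one]
    have : (-k).toNat = 0 := by omega
    rw [this]; simp
  · have h1 : nv v ^ k ≤ (1:ℝ) := (zpow_lt_one_of_neg₀ (one_lt_nv v) hk).le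
    rw [max_eq_right h1, one_div, Real.log_inv, Real.log_zpow]
    have h2 : (((-k).toNat : ℕ) : ℤ) = -k := Int.toNat_of_nonneg (by omega)
    have h3 : (((-k).toNat : ℕ) : ℝ) = -(k : ℝ) := by
      have := congrArg (fun n : ℤ => (n : ℝ)) h2
      push_cast at this
      exact this
    rw [h3]; ring

/-- exponent at `∞` -/
lemma ef_al3_1 (v : HeightOneSpectrum (𝓞 K)) {z : K} {k : ℤ}
    (h : fa v z = nv v ^ k) : ef v (al3 K 1) (z, 1) = k.toNat := by
  apply ef_of_log
  unfold lamf
  rw [sz_yy, sz_al3, wedge_al3_1, h, mul_one, fa_neg, fa_one, div_one]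
  rcases le_or_gt 0 k with hk | hk
  · have h1 : (1:ℝ) ≤ nv v ^ k := one_le_zpow₀ (one_lt_nv v).le hk
    rw [max_eq_left h1, Real.log_zpow]
    have h2 : ((k.toNat : ℕ) : ℤ) = k := Int.toNat_of_nonneg hk
    have h3 : ((k.toNat : ℕ) : ℝ) = (k : ℝ) := by
      have := congrArg (fun n : ℤ => (n : ℝ)) h2
      push_cast at this
      exact this
    rw [h3]
  · have h1 : nv v ^ k ≤ (1:ℝ) := (zpow_lt_one_of_neg₀ (one_lt_nv v) hk).le
    rw [max_eq_right h1, Real.log_one]
    have : k.toNat = 0 := by omega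
    rw [this]; simp

/-- exponent at `1` -/
lemma ef_al3_2 (v : HeightOneSpectrum (𝓞 K)) {z : K} (hz1 : z - 1 ≠ 0) {m s : ℕ}
    (h : fa v (z - 1) ≤ nv v ^ s * (nv v ^ m)⁻¹) :
    m ≤ ef v (al3 K 2) (z, 1) + s := by
  have hw : wedge ((z, 1) : K × K) (al3 K 2) ≠ 0 := by rw [wedge_al3_2]; exact hz1
  have h1 := lamf_eq v hw
  have hpos := fa_pos v hz1
  have hn := nv_pos v
  have h2 : (m : ℝ) * Real.log (nv v) - s * Real.log (nv v) ≤ lamf v (al3 K 2) (z, 1) := by
    unfold lamf
    rw [sz_yy, sz_al3, wedge_al3_2, mul_one,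
      Real.log_div (lt_of_lt_of_le one_pos (le_max_right _ _)).ne' hpos.ne']
    have h3 : 0 ≤ Real.log (max (fa v z) 1) := Real.log_nonneg (le_max_right _ _)
    have h4 := Real.log_le_log hpos h
    rw [Real.log_mul (pow_pos hn _).ne' (inv_ne_zero (pow_pos hn _).ne'), Real.log_inv,
      Real.log_pow, Real.log_pow] at h4
    linarith
  rw [h1] at h2
  have hl := log_nv_pos v
  have h5 : (m : ℝ) - s ≤ ef v (al3 K 2) (z, 1) := by
    have : ((m : ℝ) - s) * Real.log (nv v) ≤ ef v (al3 K 2) (z, 1) * Real.log (nv v) := by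
      linarith
    exact le_of_mul_le_mul_right this hl
  have h6 : (m : ℝ) ≤ ef v (al3 K 2) (z, 1) + s := by linarith
  exact_mod_cast h6

lemma lami_al3_0 (w : InfinitePlace K) {z : K} (hz : z ≠ 0) :
    lami w (al3 K 0) (z, 1) = max 0 (- Real.log (w z)) := by
  have hp : 0 < w z := InfinitePlace.pos_iff.mpr hz
  unfold lami
  rw [szi_yy, szi_al3, wedge_al3_0, mul_one]
  rcases le_total (w z) 1 with h | h
  · rw [max_eq_right h, one_div, Real.log_inv, max_eq_right]
    have := Real.log_nonpos hp.le h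
    linarith
  · rw [max_eq_left h, div_self hp.ne', Real.log_one, max_eq_left]
    have := Real.log_nonneg h
    linarith

lemma lami_al3_1 (w : InfinitePlace K) {z : K} (hz : z ≠ 0) :
    lami w (al3 K 1) (z, 1) = max 0 (Real.log (w z)) := by
  have hp : 0 < w z := InfinitePlace.pos_iff.mpr hz
  unfold lami
  rw [szi_yy, szi_al3, wedge_al3_1, mul_one, w_neg, map_one, div_one]
  rcases le_total (w z) 1 with h | h
  · rw [max_eq_right h, Real.log_one, max_eq_left]
    exact Real.log_nonpos hp.le h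
  · rw [max_eq_left h, max_eq_right]
    exact Real.log_nonneg h

lemma lami_al3_2_ge (w : InfinitePlace K) {z : K} (hz1 : z - 1 ≠ 0) {A S : ℝ} (hA : 0 < A)
    (h : w (z - 1) ≤ A * Real.exp (-S)) :
    S - Real.log A ≤ lami w (al3 K 2) (z, 1) := by
  have hp : 0 < w (z - 1) := InfinitePlace.pos_iff.mpr hz1
  unfold lami
  rw [szi_yy, szi_al3, wedge_al3_2, mul_one,
    Real.log_div (lt_of_lt_of_le one_pos (le_max_right _ _)).ne' hp.ne']
  have h3 : 0 ≤ Real.log (max (w z) 1) := Real.log_nonneg (le_max_right _ _)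
  have h4 := Real.log_le_log hp h
  rw [Real.log_mul hA.ne' (Real.exp_pos _).ne', Real.log_exp] at h4
  linarith

end al3

lemma yy_ne_zero (α : Fin q → K × K) (i j : Fin q) {x x' : K × K}
    (hx : ∀ l, wedge x (α l) ≠ 0) (hx' : ∀ l, wedge x' (α l) ≠ 0) :
    tt (α i) (α j) x / tt (α i) (α j) x' ≠ 0 :=
  div_ne_zero (tt_ne_zero (hx i) (hx j)) (tt_ne_zero (hx' i) (hx' j))

lemma yy_sub_ne_zero (α : Fin q → K × K) (i j : Fin q) (hij : wedge (α i) (α j) ≠ 0)
    {x x' : K × K} (hx : ∀ l, wedge x (α l) ≠ 0) (hx' : ∀ l, wedge x' (α l) ≠ 0)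
    (hxx : wedge x x' ≠ 0) :
    tt (α i) (α j) x / tt (α i) (α j) x' - 1 ≠ 0 := by
  rw [tt_sub_one (hx j) (hx' i) (hx' j)]
  exact div_ne_zero (mul_ne_zero hxx hij) (mul_ne_zero (hx j) (hx' i))

lemma yy_wedge (α : Fin q → K × K) (i j : Fin q) (hij : wedge (α i) (α j) ≠ 0) {x x' : K × K}
    (hx : ∀ l, wedge x (α l) ≠ 0) (hx' : ∀ l, wedge x' (α l) ≠ 0) (hxx : wedge x x' ≠ 0)
    (l : Fin 3) : wedge (yy α i j x x') (al3 K l) ≠ 0 := by
  unfold yy
  fin_cases l
  · show wedge _ (al3 K 0) ≠ 0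
    rw [wedge_al3_0]
    exact yy_ne_zero α i j hx hx'
  · show wedge _ (al3 K 1) ≠ 0
    rw [wedge_al3_1]
    exact neg_ne_zero.mpr one_ne_zero
  · show wedge _ (al3 K 2) ≠ 0
    rw [wedge_al3_2]
    exact yy_sub_ne_zero α i j hij hx hx' hxx

/-- Local exponents of `y` at `0` and `∞`, any finite place. -/
lemma yy_ef01 (α : Fin q → K × K) (i j : Fin q) (hij : i ≠ j) (v : HeightOneSpectrum (𝓞 K))
    {x x' : K × K} (hx : ∀ l, wedge x (α l) ≠ 0) (hx' : ∀ l, wedge x' (α l) ≠ 0) :
    ef v (al3 K 0) (yy α i j x x') =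
        ((ef v (α i) x + ef v (α j) x') - (ef v (α j) x + ef v (α i) x') : ℕ) ∧
    ef v (al3 K 1) (yy α i j x x') =
        ((ef v (α j) x + ef v (α i) x') - (ef v (α i) x + ef v (α j) x') : ℕ) := by
  have h := fa_tt_div v (hx i) (hx j) (hx' i) (hx' j)
  unfold yy
  rw [ef_al3_0 v h, ef_al3_1 v h]
  constructor <;> omega

/-- Local exponent of `y` at `1`. -/
lemma yy_ef2 (α : Fin q → K × K) (i j : Fin q) (hij : i ≠ j) (v : HeightOneSpectrum (𝓞 K))
    (hα : ∀ l m, l ≠ m → wedge (α l) (α m) ≠ 0)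
    {bad : Finset (HeightOneSpectrum (𝓞 K))} (hbad : GoodOff α bad) (hv : v ∉ bad)
    {x x' : K × K} (hx : ∀ l, wedge x (α l) ≠ 0) (hx' : ∀ l, wedge x' (α l) ≠ 0)
    (hxx : wedge x x' ≠ 0) (l : Fin q) (hli : l ≠ i) (hlj : l ≠ j) :
    min (ef v (α l) x) (ef v (α l) x') ≤ ef v (al3 K 2) (yy α i j x x') := by
  by_cases h0 : min (ef v (α l) x) (ef v (α l) x') = 0
  · rw [h0]; exact Nat.zero_le _
  have h1 : ef v (α l) x ≠ 0 := by
    intro h; apply h0; rw [h]; simp
  have h2 : ef v (α l) x' ≠ 0 := by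
    intro h; apply h0; rw [h]; simp
  have hjx := good_unique hα hbad hx hv hlj h1
  have hix' := good_unique hα hbad hx' hv hli h2
  have hb := fa_tt_sub_one_le v (a := α i) (b := α j) (c := α l) (hx j) (hx' i) (hx' j)
      (hx l) (hx' l)
  rw [hjx, hix'] at hb
  have h3 := ef_al3_2 v (yy_sub_ne_zero α i j (hα i j hij) hx hx' hxx)
    (m := min (ef v (α l) x) (ef v (α l) x')) (s := 0)
    (by rw [mul_comm]; simpa using hb)
  unfold yy
  omega

lemma log_w_yy (α : Fin q → K × K) (i j : Fin q) (w : InfinitePlace K) {x x' : K × K}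
    (hx : ∀ l, wedge x (α l) ≠ 0) (hx' : ∀ l, wedge x' (α l) ≠ 0) :
    Real.log (w (tt (α i) (α j) x / tt (α i) (α j) x')) =
      (lami w (α j) x + lami w (α i) x') - (lami w (α i) x + lami w (α j) x') := by
  have hpx := szi_pos w (wedge_left_ne (hx i))
  have hpx' := szi_pos w (wedge_left_ne (hx' i))
  have hpi := szi_pos w (wedge_right_ne (hx i))
  have hpj := szi_pos w (wedge_right_ne (hx j))
  have h : w (tt (α i) (α j) x / tt (α i) (α j) x') =
      Real.exp ((lami w (α j) x + lami w (α i) x') - (lami w (α i) x + lami w (α j) x')) := by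
    unfold tt
    rw [map_div₀, map_div₀, map_div₀, w_wedge_eq w (hx i), w_wedge_eq w (hx j),
      w_wedge_eq w (hx' i), w_wedge_eq w (hx' j)]
    rw [show (lami w (α j) x + lami w (α i) x') - (lami w (α i) x + lami w (α j) x') =
      -lami w (α i) x + lami w (α j) x + -lami w (α j) x' + lami w (α i) x' by ring,
      Real.exp_add, Real.exp_add, Real.exp_add, Real.exp_neg, Real.exp_neg, Real.exp_neg,
      Real.exp_neg]
    have h1 := Real.exp_pos (lami w (α i) x)
    have h2 := Real.exp_pos (lami w (α j) x)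
    have h3 := Real.exp_pos (lami w (α i) x')
    have h4 := Real.exp_pos (lami w (α j) x')
    field_simp
  rw [h, Real.log_exp]

/-- the height of `y` -/
lemma yy_hh (α : Fin q → K × K) (i j : Fin q) {x x' : K × K}
    (hx : ∀ l, wedge x (α l) ≠ 0) (hx' : ∀ l, wedge x' (α l) ≠ 0) :
    hh (yy α i j x x') ≤ hh x + hh x' + (hh (α i) + hh (α j) + 2 * Module.finrank ℚ K) := by
  set z := tt (α i) (α j) x / tt (α i) (α j) x' with hz
  have hz0 : z ≠ 0 := yy_ne_zero α i j hx hx'
  have hy : yy α i j x x' = (z, 1) := rfl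
  have hyne : ((z, 1) : K × K) ≠ 0 := by
    intro h
    have := congrArg Prod.fst h
    exact hz0 this
  have fm1 := first_main (hx j)
  have fm2 := first_main (hx' i)
  have hinf : ∑ w : InfinitePlace K, (w.mult : ℝ) * Real.log (szi w (z, 1)) ≤
      ∑ w : InfinitePlace K, (w.mult : ℝ) * lami w (α j) x +
      ∑ w : InfinitePlace K, (w.mult : ℝ) * lami w (α i) x' + 2 * Module.finrank ℚ K := by
    rw [← sum_mult (K := K), Finset.mul_sum, ← Finset.sum_add_distrib, ← Finset.sum_add_distrib]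
    refine Finset.sum_le_sum fun w _ => ?_
    have hwp : 0 < w z := InfinitePlace.pos_iff.mpr hz0
    have h1 : Real.log (szi w (z, 1)) ≤ lami w (α j) x + lami w (α i) x' + 2 := by
      rw [szi_yy]
      have g1 := lami_ge w (hx i)
      have g2 := lami_ge w (hx j)
      have g3 := lami_ge w (hx' i)
      have g4 := lami_ge w (hx' j)
      have g5 := log_two_le_one
      have g6 := log_w_yy α i j w hx hx'
      rcases le_total (w z) 1 with h | h
      · rw [max_eq_right h, Real.log_one]; linarith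
      · rw [max_eq_left h, hz, g6]; linarith
    calc (w.mult : ℝ) * Real.log (szi w (z, 1)) ≤
        (w.mult : ℝ) * (lami w (α j) x + lami w (α i) x' + 2) :=
          mul_le_mul_of_nonneg_left h1 (Nat.cast_nonneg _)
      _ = _ := by ring
  have hs1 : (Function.support fun v : HeightOneSpectrum (𝓞 K) =>
      Real.log (sz v ((z, 1) : K × K))).Finite := by
    refine (finite_sz_ne_one hyne).subset fun v hv hv' => ?_
    rw [Function.mem_support] at hv
    exact hv (by rw [hv', Real.log_one])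
  have hs2 : (Function.support fun v : HeightOneSpectrum (𝓞 K) =>
      (ef v (α j) x : ℝ) * Real.log (nv v)).Finite := by
    refine (finite_ef_ne_zero (hx j)).subset fun v hv hv' => ?_
    rw [Function.mem_support] at hv
    exact hv (by rw [hv']; simp)
  have hs3 : (Function.support fun v : HeightOneSpectrum (𝓞 K) =>
      (ef v (α i) x' : ℝ) * Real.log (nv v)).Finite := by
    refine (finite_ef_ne_zero (hx' i)).subset fun v hv hv' => ?_
    rw [Function.mem_support] at hv
    exact hv (by rw [hv']; simp)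
  have hfin : ∑ᶠ v : HeightOneSpectrum (𝓞 K), Real.log (sz v ((z, 1) : K × K)) ≤
      ∑ᶠ v : HeightOneSpectrum (𝓞 K), (ef v (α j) x : ℝ) * Real.log (nv v) +
      ∑ᶠ v : HeightOneSpectrum (𝓞 K), (ef v (α i) x' : ℝ) * Real.log (nv v) := by
    rw [← finsum_add_distrib hs2 hs3]
    refine finsum_le_finsum' hs1 ?_ ?_
    · exact (hs2.union hs3).subset (Function.support_add _ _)
    · intro v
      have hl := log_nv_pos v
      beta_reduce
      rw [sz_yy]
      have h3 : max (fa v z) 1 ≤ nv v ^ (ef v (α j) x + ef v (α i) x') := by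
        apply max_le
        · rw [hz, fa_tt_div v (hx i) (hx j) (hx' i) (hx' j), ← zpow_natCast]
          apply zpow_le_zpow_right₀ (one_lt_nv v).le
          push_cast
          omega
        · exact one_le_pow₀ (one_lt_nv v).le
      calc Real.log (max (fa v z) 1)
          ≤ Real.log (nv v ^ (ef v (α j) x + ef v (α i) x')) :=
            Real.log_le_log (lt_of_lt_of_le one_pos (le_max_right _ _)) h3
        _ = _ := by
            rw [Real.log_pow]
            push_cast
            ring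
  rw [hy]
  have hdef : hh ((z, 1) : K × K) = ∑ w : InfinitePlace K, (w.mult : ℝ) * Real.log (szi w (z, 1)) +
    ∑ᶠ v : HeightOneSpectrum (𝓞 K), Real.log (sz v ((z, 1) : K × K)) := rfl
  rw [hdef]
  linarith

/-- Global comparison: the height of `y`, and its indices at the bad and infinite places. -/
lemma yy_global [NeZero q] (α : Fin q → K × K) (hα : ∀ l m, l ≠ m → wedge (α l) (α m) ≠ 0)
    (bad : Finset (HeightOneSpectrum (𝓞 K))) (hbad : GoodOff α bad) (i j : Fin q) (hij : i ≠ j) :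
    ∃ C : ℝ, 0 < C ∧ ∀ x x' : K × K, (∀ l, wedge x (α l) ≠ 0) → (∀ l, wedge x' (α l) ≠ 0) →
      wedge x x' ≠ 0 → key1 α bad x = key1 α bad x' →
      hh (yy α i j x x') ≤ hh x + hh x' + C ∧
      idxF (al3 K) bad (yy α i j x x') 0 ≤ C ∧ idxF (al3 K) bad (yy α i j x x') 1 ≤ C ∧
      ∑ l ∈ Finset.univ.filter (fun l : Fin q => l ≠ i ∧ l ≠ j), idxF α bad x l ≤
        idxF (al3 K) bad (yy α i j x x') 2 + C := by
  obtain ⟨c, hc, hcsep⟩ := exists_csep α hα
  obtain ⟨s, hssep⟩ := exists_ssep α hα bad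
  set C₁ : ℝ := |hh (α i) + hh (α j)| + 2 * Module.finrank ℚ K with hC₁
  set A : ℝ := 4 * Real.exp (2 * c + 3 + q * c) with hA
  set C₃ : ℝ := ∑ v ∈ bad, (((q + 2) * s : ℕ) : ℝ) * lnv v +
    |Real.log A| * Module.finrank ℚ K with hC₃
  have hApos : 0 < A := by positivity
  have hd : (0:ℝ) ≤ Module.finrank ℚ K := Nat.cast_nonneg _
  have hC₃0 : 0 ≤ C₃ := by
    apply add_nonneg
    · exact Finset.sum_nonneg fun v _ => mul_nonneg (Nat.cast_nonneg _) (lnv_pos v).le
    · positivity
  have hC₁0 : 0 ≤ C₁ := by positivity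
  refine ⟨C₁ + 2 * Module.finrank ℚ K + C₃ + 1, by positivity, ?_⟩
  intro x x' hx hx' hxx hkey
  have hz0 := yy_ne_zero α i j hx hx'
  have hz1 := yy_sub_ne_zero α i j (hα i j hij) hx hx' hxx
  have hlog : ∀ w : InfinitePlace K,
      |Real.log (w (tt (α i) (α j) x / tt (α i) (α j) x'))| ≤ 2 := by
    intro w
    rw [log_w_yy α i j w hx hx', abs_le]
    have k1 := key1_lami hkey w i
    have k2 := key1_lami hkey w j
    have k3 := key1_lami hkey.symm w i
    have k4 := key1_lami hkey.symm w j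
    constructor <;> linarith
  have hidx01 : ∀ l : Fin 3, (∀ v ∈ bad, ef v (al3 K l) (yy α i j x x') = 0) →
      (∀ w : InfinitePlace K, lami w (al3 K l) (yy α i j x x') ≤ 2) →
      idxF (al3 K) bad (yy α i j x x') l ≤ 2 * Module.finrank ℚ K := by
    intro l h1 h2
    unfold idxF
    have e1 : ∑ v ∈ bad, (ef v (al3 K l) (yy α i j x x') : ℝ) * lnv v = 0 := by
      apply Finset.sum_eq_zero
      intro v hv
      rw [h1 v hv]; simp
    rw [e1, zero_add, ← sum_mult (K := K), Finset.mul_sum]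
    refine Finset.sum_le_sum fun w _ => ?_
    rw [mul_comm (2:ℝ)]
    exact mul_le_mul_of_nonneg_left (max_le (by norm_num) (h2 w)) (Nat.cast_nonneg _)
  refine ⟨?_, ?_, ?_, ?_⟩
  · have h1 := yy_hh α i j hx hx'
    have h2 := le_abs_self (hh (α i) + hh (α j))
    linarith
  · have h1 := hidx01 0 (by
      intro v hv
      rw [(yy_ef01 α i j hij v hx hx').1, key1_ef hkey hv i, key1_ef hkey hv j]
      omega) (by
      intro w
      unfold yy
      rw [lami_al3_0 w hz0]
      have := hlog w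
      rw [abs_le] at this
      apply max_le (by norm_num)
      linarith)
    linarith
  · have h1 := hidx01 1 (by
      intro v hv
      rw [(yy_ef01 α i j hij v hx hx').2, key1_ef hkey hv i, key1_ef hkey hv j]
      omega) (by
      intro w
      unfold yy
      rw [lami_al3_1 w hz0]
      have := hlog w
      rw [abs_le] at this
      apply max_le (by norm_num)
      linarith)
    linarith
  · unfold idxF
    have hsw1 : ∑ l ∈ Finset.univ.filter (fun l : Fin q => l ≠ i ∧ l ≠ j), ∑ v ∈ bad,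
        (ef v (α l) x : ℝ) * lnv v = ∑ v ∈ bad, ∑ l ∈ Finset.univ.filter
        (fun l : Fin q => l ≠ i ∧ l ≠ j), (ef v (α l) x : ℝ) * lnv v := Finset.sum_comm
    have hsw2 : ∑ l ∈ Finset.univ.filter (fun l : Fin q => l ≠ i ∧ l ≠ j),
        ∑ w : InfinitePlace K, (w.mult : ℝ) * max 0 (lami w (α l) x) =
        ∑ w : InfinitePlace K, ∑ l ∈ Finset.univ.filter
        (fun l : Fin q => l ≠ i ∧ l ≠ j), (w.mult : ℝ) * max 0 (lami w (α l) x) :=
      Finset.sum_comm
    rw [Finset.sum_add_distrib, hsw1, hsw2]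
    have hb : ∑ v ∈ bad, ∑ l ∈ Finset.univ.filter (fun l : Fin q => l ≠ i ∧ l ≠ j),
        (ef v (α l) x : ℝ) * lnv v ≤
        ∑ v ∈ bad, (ef v (al3 K 2) (yy α i j x x') : ℝ) * lnv v +
        ∑ v ∈ bad, (((q + 2) * s : ℕ) : ℝ) * lnv v := by
      rw [← Finset.sum_add_distrib]
      refine Finset.sum_le_sum fun v hv => ?_
      rw [← Finset.sum_mul, ← add_mul]
      apply mul_le_mul_of_nonneg_right _ (lnv_pos v).le
      have h1 := bad_class α v s i j x x x' hx hx'
        (fun l m hlm => hssep v hv x hx l m hlm) (fun l => rfl)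
        (fun l => (key1_ef hkey hv l).symm)
      have h2 := ef_al3_2 v hz1 h1.2
      exact_mod_cast h2
    have hi : ∑ w : InfinitePlace K, ∑ l ∈ Finset.univ.filter (fun l : Fin q => l ≠ i ∧ l ≠ j),
        (w.mult : ℝ) * max 0 (lami w (α l) x) ≤
        ∑ w : InfinitePlace K, (w.mult : ℝ) * max 0 (lami w (al3 K 2) (yy α i j x x')) +
        |Real.log A| * Module.finrank ℚ K := by
      rw [← sum_mult (K := K), Finset.mul_sum, ← Finset.sum_add_distrib]
      refine Finset.sum_le_sum fun w _ => ?_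
      rw [← Finset.mul_sum, mul_comm (|Real.log A|), ← mul_add]
      apply mul_le_mul_of_nonneg_left _ (Nat.cast_nonneg _)
      have h1 := arch_class α w c hc i j hij x x x' hx hx'
        (fun l m hlm => hcsep w x hx l m hlm) (fun l => by linarith) (fun l => by linarith)
        (fun l => key1_lami hkey.symm w l) (fun l => key1_lami hkey w l)
      have h2 := lami_al3_2_ge w hz1 hApos h1
      have h3 := le_max_right 0 (lami w (al3 K 2) (yy α i j x x'))
      have h4 := le_abs_self (Real.log A)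
      have h5 : lami w (al3 K 2) (yy α i j x x') = lami w (al3 K 2)
        (tt (α i) (α j) x / tt (α i) (α j) x', 1) := rfl
      linarith
    linarith

end Pool.Agent.Lib.MP_4d5ce1_nt
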