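import Pool.Agent.Lib.MP_4d5ce1_nt.BCodes
import Pool.Agent.Lib.MP_4d5ce1_nt.BY

set_option autoImplicit false
set_option linter.unusedSectionVars false

open NumberField IsDedekindDomain

namespace Pool.Agent.Lib.MP_4d5ce1_nt

variable {K : Type*} [Field K] [NumberField K] {q : ℕ}

/-! ## Module E : off-diagonal pairs -/

lemma kap_eq_imp [NeZero q] {α : Fin q → K × K} {x x' : K × K}
    {U U' : Finset (HeightOneSpectrum (𝓞 K))} (h : kap α x U = kap α x' U')
    (h1 : ∀ v ∈ U, 1 ≤ expF α x v) (h2 : ∀ v ∈ U', 1 ≤ expF α x' v) :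
    U = U' ∧ ∀ v ∈ U, labF α x v = labF α x' v ∧ expF α x v = expF α x' v := by
  have hU : U = U' := by
    have := congrArg Finsupp.support h
    rwa [kap_support, kap_support] at this
  subst hU
  refine ⟨rfl, fun v hv => ⟨?_, ?_⟩⟩
  · have e1 := kap_lab α x U hv
    have e2 := kap_lab α x' U hv
    rw [← e1, ← e2, h]
  · have e1 := kap_exp α x U hv (h1 v hv)
    have e2 := kap_exp α x' U hv (h2 v hv)
    rw [← e1, ← e2, h]

open Classical in
/-- A prime at which the `(i, j)`-parts of `x` and `x'` differ divides `y`. -/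
lemma mem_supp_yy {α : Fin q → K × K} {bad : Finset (HeightOneSpectrum (𝓞 K))}
    (hα : ∀ l m, l ≠ m → wedge (α l) (α m) ≠ 0)
    {i j : Fin q} (hij : i ≠ j) {x x' : K × K}
    (hx : ∀ l, wedge x (α l) ≠ 0) (hx' : ∀ l, wedge x' (α l) ≠ 0) (hxx : wedge x x' ≠ 0)
    {v : HeightOneSpectrum (𝓞 K)} (hv : v ∉ bad)
    (h : ef v (α i) x + ef v (α j) x' ≠ ef v (α j) x + ef v (α i) x') :
    v ∈ suppF (al3 K) bad (yy α i j x x') := by
  rw [mem_suppF (yy_wedge α i j (hα i j hij) hx hx' hxx)]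
  refine ⟨hv, ?_⟩
  obtain ⟨h0, h1⟩ := yy_ef01 α i j hij v hx hx'
  rcases lt_or_gt_of_ne h with hlt | hgt
  · refine ⟨1, ?_⟩
    rw [h1]
    omega
  · refine ⟨0, ?_⟩
    rw [h0]
    omega

open Classical in
lemma ef_diff [NeZero q] {α : Fin q → K × K} {bad : Finset (HeightOneSpectrum (𝓞 K))}
    (hα : ∀ l m, l ≠ m → wedge (α l) (α m) ≠ 0) (hbad : GoodOff α bad)
    {i j : Fin q} (hij : i ≠ j) {x x' : K × K}
    (hx : ∀ l, wedge x (α l) ≠ 0) (hx' : ∀ l, wedge x' (α l) ≠ 0)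
    {v : HeightOneSpectrum (𝓞 K)} (hv : v ∈ suppF α bad x)
    (hlab : labF α x v = i ∨ labF α x v = j)
    (h : ¬ (v ∈ suppF α bad x' ∧ (labF α x' v = i ∨ labF α x' v = j) ∧
      labF α x v = labF α x' v ∧ expF α x v = expF α x' v)) :
    ef v (α i) x + ef v (α j) x' ≠ ef v (α j) x + ef v (α i) x' := by
  have hvb : v ∉ bad := ((mem_suppF hx v).mp hv).1
  have he := exp_pos_of_mem hx hv
  have pos : ∀ {y : K × K}, (∀ l, wedge y (α l) ≠ 0) → ∀ l, v ∈ suppF α bad y →
      labF α y v = l → ef v (α l) y = expF α y v := by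
    intro y hy l h1 h2
    rw [ef_eq_ite' hα hbad hy hvb l, if_pos ⟨h1, h2⟩]
  have zer : ∀ {y : K × K}, (∀ l, wedge y (α l) ≠ 0) → ∀ l,
      ¬ (v ∈ suppF α bad y ∧ labF α y v = l) → ef v (α l) y = 0 := by
    intro y hy l h1
    rw [ef_eq_ite' hα hbad hy hvb l, if_neg h1]
  by_cases hv' : v ∈ suppF α bad x'
  · have he' := exp_pos_of_mem hx' hv'
    rcases hlab with hl | hl
    · have hne : labF α x v ≠ j := by rw [hl]; exact hij
      have e1 := pos hx i hv hl
      have e2 := zer hx j (fun hh => hne hh.2)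
      by_cases hi : labF α x' v = i
      · have hne' : labF α x' v ≠ j := by rw [hi]; exact hij
        have e3 := pos hx' i hv' hi
        have e4 := zer hx' j (fun hh => hne' hh.2)
        intro hcon
        apply h
        refine ⟨hv', Or.inl hi, hl.trans hi.symm, by omega⟩
      · have e3 := zer hx' i (fun hh => hi hh.2)
        omega
    · have hne : labF α x v ≠ i := by rw [hl]; exact hij.symm
      have e1 := zer hx i (fun hh => hne hh.2)
      have e2 := pos hx j hv hl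
      by_cases hj : labF α x' v = j
      · have hne' : labF α x' v ≠ i := by rw [hj]; exact hij.symm
        have e3 := zer hx' i (fun hh => hne' hh.2)
        have e4 := pos hx' j hv' hj
        intro hcon
        apply h
        refine ⟨hv', Or.inr hj, hl.trans hj.symm, by omega⟩
      · have e3 := zer hx' j (fun hh => hj hh.2)
        omega
  · have z1 : ∀ l, ef v (α l) x' = 0 := fun l => zer hx' l (fun hh => hv' hh.1)
    have e3 := z1 i
    have e4 := z1 j
    rcases hlab with hl | hl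
    · have hne : labF α x v ≠ j := by rw [hl]; exact hij
      have e1 := pos hx i hv hl
      have e2 := zer hx j (fun hh => hne hh.2)
      omega
    · have hne : labF α x v ≠ i := by rw [hl]; exact hij.symm
      have e1 := zer hx i (fun hh => hne hh.2)
      have e2 := pos hx j hv hl
      omega

open Classical in
/-- A common prime outside the `(i, j)`-part divides `y`. -/
lemma mem_supp_yy2 [NeZero q] {α : Fin q → K × K} {bad : Finset (HeightOneSpectrum (𝓞 K))}
    (hα : ∀ l m, l ≠ m → wedge (α l) (α m) ≠ 0) (hbad : GoodOff α bad)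
    {i j : Fin q} (hij : i ≠ j) {x x' : K × K}
    (hx : ∀ l, wedge x (α l) ≠ 0) (hx' : ∀ l, wedge x' (α l) ≠ 0) (hxx : wedge x x' ≠ 0)
    {v : HeightOneSpectrum (𝓞 K)} (hv : v ∈ suppF α bad x) (hv' : v ∈ suppF α bad x')
    (hli : labF α x v ≠ i) (hlj : labF α x v ≠ j) (hl : labF α x v = labF α x' v) :
    v ∈ suppF (al3 K) bad (yy α i j x x') := by
  have hvb : v ∉ bad := ((mem_suppF hx v).mp hv).1
  rw [mem_suppF (yy_wedge α i j (hα i j hij) hx hx' hxx)]
  refine ⟨hvb, 2, ?_⟩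
  have h := yy_ef2 α i j hij v hα hbad hvb hx hx' hxx (labF α x v) hli hlj
  have h1 := exp_pos_of_mem hx hv
  have h2 := exp_pos_of_mem hx' hv'
  have h3 : ef v (α (labF α x v)) x = expF α x v := rfl
  have h4 : ef v (α (labF α x v)) x' = expF α x' v := by
    rw [hl]
    rfl
  rw [h3, h4] at h
  have h5 : 1 ≤ min (expF α x v) (expF α x' v) := le_min h1 h2
  omega

lemma kap_union [NeZero q] (α : Fin q → K × K) (x : K × K)
    {U V : Finset (HeightOneSpectrum (𝓞 K))} [DecidableEq (HeightOneSpectrum (𝓞 K))]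
    (h : Disjoint U V) : kap α x (U ∪ V) = kap α x U + kap α x V := by
  have zer : ∀ {W : Finset (HeightOneSpectrum (𝓞 K))} {v : HeightOneSpectrum (𝓞 K)}, v ∉ W →
      kap α x W v = 0 := by
    intro W v hv
    apply Finsupp.notMem_support_iff.mp
    rw [kap_support]
    exact hv
  ext v
  rw [Finsupp.add_apply]
  by_cases hU : v ∈ U
  · have hV : v ∉ V := Finset.disjoint_left.mp h hU
    rw [kap_apply α x _ hU, kap_apply α x _ (Finset.mem_union_left _ hU), zer hV, add_zero]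
  · by_cases hV : v ∈ V
    · rw [kap_apply α x _ hV, kap_apply α x _ (Finset.mem_union_right _ hV), zer hU, zero_add]
    · rw [zer hU, zer hV, zer (fun hh => (Finset.mem_union.mp hh).elim hU hV)]

lemma kap_congr [NeZero q] (α : Fin q → K × K) (x x' : K × K)
    {U : Finset (HeightOneSpectrum (𝓞 K))}
    (h : ∀ v ∈ U, labF α x v = labF α x' v ∧ expF α x v = expF α x' v) :
    kap α x U = kap α x' U := by
  ext v
  by_cases hU : v ∈ U
  · rw [kap_apply α x _ hU, kap_apply α x' _ hU, (h v hU).1, (h v hU).2]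
  · rw [Finsupp.notMem_support_iff.mp (by rw [kap_support]; exact hU),
      Finsupp.notMem_support_iff.mp (by rw [kap_support]; exact hU)]

open Classical in
/-- Total mass of a configuration. -/
lemma total_exp [NeZero q] {α : Fin q → K × K} {bad : Finset (HeightOneSpectrum (𝓞 K))}
    (hα : ∀ l m, l ≠ m → wedge (α l) (α m) ≠ 0) (hbad : GoodOff α bad) :
    ∃ K₀ : ℝ, 0 ≤ K₀ ∧ ∀ x : K × K, (∀ l, wedge x (α l) ≠ 0) →
      (∀ l, idxF α bad x l ≤ hh x + K₀) ∧
      ∑ v ∈ suppF α bad x, (expF α x v : ℝ) * lnv v ≤ q * hh x + K₀ ∧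
      ∑ v ∈ suppF α bad x, lnv v ≤ q * hh x + K₀ := by
  set K₀ : ℝ := ∑ l, (|hh (α l)| + Module.finrank ℚ K) with hK₀
  have hK₀0 : 0 ≤ K₀ := by positivity
  have hKl : ∀ l, |hh (α l)| + Module.finrank ℚ K ≤ K₀ := fun l =>
    Finset.single_le_sum (f := fun l => |hh (α l)| + (Module.finrank ℚ K : ℝ))
      (fun l _ => by positivity) (Finset.mem_univ l)
  refine ⟨K₀, hK₀0, fun x hx => ?_⟩
  have hfmt : ∀ l, ∑ v ∈ (suppF α bad x).filter (fun v => labF α x v = l),
      (expF α x v : ℝ) * lnv v + idxF α bad x l ≤ hh x + (|hh (α l)| + Module.finrank ℚ K) := by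
    intro l
    have h1 := (abs_le.mp (config_fmt hα hbad hx l)).2
    linarith
  have htot : ∑ v ∈ suppF α bad x, (expF α x v : ℝ) * lnv v ≤ q * hh x + K₀ := by
    calc ∑ v ∈ suppF α bad x, (expF α x v : ℝ) * lnv v
        = ∑ l, ∑ v ∈ (suppF α bad x).filter (fun v => labF α x v = l),
              (expF α x v : ℝ) * lnv v :=
            (Finset.sum_fiberwise_of_maps_to (fun v _ => Finset.mem_univ _) _).symm
      _ ≤ ∑ l : Fin q, (hh x + (|hh (α l)| + Module.finrank ℚ K)) := by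
            refine Finset.sum_le_sum fun l _ => ?_
            have h2 := hfmt l
            have h3 := idxF_nonneg α bad x l
            linarith
      _ = q * hh x + K₀ := by
            rw [Finset.sum_add_distrib, Finset.sum_const, Finset.card_univ, Fintype.card_fin,
              nsmul_eq_mul]
  refine ⟨fun l => ?_, htot, ?_⟩
  · have h1 := hfmt l
    have h2 : 0 ≤ ∑ v ∈ (suppF α bad x).filter (fun v => labF α x v = l),
      (expF α x v : ℝ) * lnv v :=
      Finset.sum_nonneg fun v _ => mul_nonneg (Nat.cast_nonneg _) (lnv_pos v).le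
    have h3 := hKl l
    linarith
  · refine le_trans (Finset.sum_le_sum fun v hv => ?_) htot
    have h1 : (1:ℝ) ≤ (expF α x v : ℝ) := by exact_mod_cast exp_pos_of_mem hx hv
    have h2 := (lnv_pos v).le
    nlinarith

open Classical in
/-- The number of values of the finite key. -/
lemma key1_range [NeZero q] {α : Fin q → K × K} {bad : Finset (HeightOneSpectrum (𝓞 K))}
    (hα : ∀ l m, l ≠ m → wedge (α l) (α m) ≠ 0) (hbad : GoodOff α bad) (η : ℝ) (hη : 0 < η) :
    ∃ C : ℝ, 0 < C ∧ ∀ β : ℝ, 0 ≤ β → ∃ R : Finset (KeyIdx K q bad → ℤ),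
      (R.card : ℝ) ≤ C * Real.exp (η * β) ∧
      ∀ x : K × K, (∀ l, wedge x (α l) ≠ 0) → hh x ≤ β → key1 α bad x ∈ R := by
  obtain ⟨K₀, hK₀0, htot⟩ := total_exp hα hbad
  obtain ⟨C₂, hC₂, hpoly⟩ := poly_le_exp (Fintype.card (KeyIdx K q bad)) 2 (2 * K₀ + 2)
    η (by norm_num) (by positivity) hη
  refine ⟨C₂, hC₂, fun β hβ0 => ?_⟩
  set N : ℤ := ⌊2 * (β + K₀)⌋ with hN
  have hN0 : 0 ≤ N := Int.floor_nonneg.mpr (by positivity)
  set R₁ : Finset (KeyIdx K q bad → ℤ) := Fintype.piFinset fun _ => Finset.Icc (-1) N with hR₁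
  refine ⟨R₁, ?_, ?_⟩
  · refine le_trans ?_ (hpoly β hβ0)
    rw [hR₁, Fintype.card_piFinset]
    simp only [Int.card_Icc, Finset.prod_const, Finset.card_univ]
    push_cast
    apply pow_le_pow_left₀ (by positivity)
    have h1 : ((N + 1 - -1).toNat : ℝ) = (N:ℝ) + 2 := by
      have h2 : (((N + 1 - -1).toNat : ℤ) : ℝ) = ((N + 2 : ℤ) : ℝ) := by
        congr 1
        rw [Int.toNat_of_nonneg (by omega)]
        ring
      rw [Int.cast_natCast] at h2
      rw [h2]
      push_cast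
      ring
    rw [h1]
    have h3 : (N:ℝ) ≤ 2 * (β + K₀) := Int.floor_le _
    linarith
  · intro x hx hβ
    have hidx : ∀ l, idxF α bad x l ≤ β + K₀ := fun l => by
      have := (htot x hx).1 l
      linarith
    have i0 : Fin q := ⟨0, Nat.pos_of_ne_zero (NeZero.ne q)⟩
    rw [hR₁, Fintype.mem_piFinset]
    intro a
    rw [Finset.mem_Icc]
    rcases a with a | a | a
    · simp only [key1]
      constructor
      · have := Int.floor_nonneg.mpr (hh_nonneg (wedge_left_ne (hx i0)))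
        omega
      · rw [hN]
        apply Int.floor_le_floor
        linarith
    · simp only [key1]
      constructor
      · rw [Int.le_floor]
        have h1 := lami_ge a.1 (hx a.2)
        have h2 := log_two_le_one
        push_cast
        linarith
      · rw [hN]
        apply Int.floor_le_floor
        have h1 := hidx a.2
        unfold idxF at h1
        have h2 : 0 ≤ ∑ v ∈ bad, (ef v (α a.2) x : ℝ) * lnv v :=
          Finset.sum_nonneg fun v _ => mul_nonneg (Nat.cast_nonneg _) (lnv_pos v).le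
        have h3 : (a.1.mult : ℝ) * max 0 (lami a.1 (α a.2) x) ≤
            ∑ w : InfinitePlace K, (w.mult : ℝ) * max 0 (lami w (α a.2) x) :=
          Finset.single_le_sum (f := fun w : InfinitePlace K =>
            (w.mult : ℝ) * max 0 (lami w (α a.2) x))
            (fun w _ => mul_nonneg (Nat.cast_nonneg _) (le_max_left _ _)) (Finset.mem_univ a.1)
        have h4 := one_le_mult a.1
        have h5 : (0:ℝ) ≤ max 0 (lami a.1 (α a.2) x) := le_max_left _ _
        have h6 : lami a.1 (α a.2) x ≤ max 0 (lami a.1 (α a.2) x) := le_max_right _ _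
        nlinarith
    · simp only [key1]
      constructor
      · omega
      · rw [hN, Int.le_floor]
        have h1 := hidx a.2
        unfold idxF at h1
        have h2 : 0 ≤ ∑ w : InfinitePlace K, (w.mult : ℝ) * max 0 (lami w (α a.2) x) :=
          Finset.sum_nonneg fun w _ => mul_nonneg (Nat.cast_nonneg _) (le_max_left _ _)
        have h3 : (ef a.1.1 (α a.2) x : ℝ) * lnv a.1.1 ≤
            ∑ v ∈ bad, (ef v (α a.2) x : ℝ) * lnv v :=
          Finset.single_le_sum (f := fun v => (ef v (α a.2) x : ℝ) * lnv v)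
            (fun v _ => mul_nonneg (Nat.cast_nonneg _) (lnv_pos v).le) a.1.2
        have h4 := half_le_lnv a.1.1
        have h5 : (0:ℝ) ≤ (ef a.1.1 (α a.2) x : ℝ) := Nat.cast_nonneg _
        push_cast
        nlinarith

/-- Uniform constant in the master theorem for the points `0, ∞, 1`. -/
lemma master_al3 (K : Type*) [Field K] [NumberField K]
    (bad : Finset (HeightOneSpectrum (𝓞 K))) (N : ℕ) (η : ℝ) (hη : 0 < η) :
    ∃ C : ℝ, 0 < C ∧ ∀ n : ℕ, 1 ≤ n → n ≤ N → ∀ (β z : ℝ) (X : Finset (K × K)),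
    (∀ x ∈ X, ∀ l, wedge x (al3 K l) ≠ 0) →
    (∀ x ∈ X, ∀ y ∈ X, x ≠ y → wedge x y ≠ 0) →
    (∀ x ∈ X, hh x ≤ β) →
    (∀ x ∈ X, ∃ W : Finset (HeightOneSpectrum (𝓞 K)), W ⊆ suppF (al3 K) bad x ∧
      (∀ v ∈ suppF (al3 K) bad x, v ∉ W → (labF (al3 K) x v = 0 ∨ labF (al3 K) x v = 1) →
        n ∣ expF (al3 K) x v) ∧
      toolCost (suppF (al3 K) bad x) (labF (al3 K) x) (expF (al3 K) x) lnv (idxF (al3 K) bad x)
        n 0 1 W ≤ z) →
    (X.card : ℝ) ≤ C * Real.exp (z + η * β) := by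
  induction N with
  | zero =>
    refine ⟨1, one_pos, ?_⟩
    intro n h1 h2
    omega
  | succ N ih =>
    obtain ⟨C, hC, h⟩ := ih
    obtain ⟨C', hC', h'⟩ := master (al3 K) al3_wedge bad (al3_good bad) (N + 1) (by omega)
      0 1 (by decide) η hη
    refine ⟨C + C', by positivity, ?_⟩
    intro n h1 h2 β z X a1 a2 a3 a4
    have e := (Real.exp_pos (z + η * β)).le
    rcases Nat.lt_or_ge n (N + 1) with h3 | h3
    · refine (h n h1 (by omega) β z X a1 a2 a3 a4).trans ?_
      apply mul_le_mul_of_nonneg_right _ e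
      linarith
    · have h4 : n = N + 1 := by omega
      subst h4
      refine (h' β z X a1 a2 a3 a4).trans ?_
      apply mul_le_mul_of_nonneg_right _ e
      linarith

open Classical in
lemma mem_comm [NeZero q] {α : Fin q → K × K}
    {A : K × K → Finset (HeightOneSpectrum (𝓞 K))} {x x' : K × K}
    {v : HeightOneSpectrum (𝓞 K)} :
    v ∈ comm α A x x' ↔ (v ∈ A x ∧ v ∈ A x') ∧ labF α x v = labF α x' v ∧
      expF α x v = expF α x' v := by
  unfold comm
  rw [Finset.mem_filter, Finset.mem_inter]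

open Classical in
lemma pair_facts [NeZero q] {α : Fin q → K × K} {bad : Finset (HeightOneSpectrum (𝓞 K))}
    (hα : ∀ l m, l ≠ m → wedge (α l) (α m) ≠ 0) (hbad : GoodOff α bad)
    {i j : Fin q} (hij : i ≠ j) {x x' : K × K}
    (hx : ∀ l, wedge x (α l) ≠ 0) (hx' : ∀ l, wedge x' (α l) ≠ 0) (hxx : wedge x x' ≠ 0)
    {A A' T : K × K → Finset (HeightOneSpectrum (𝓞 K))}
    (hd : Disjoint (A x) (A' x)) (hd' : Disjoint (A x') (A' x'))
    (hu : A x ∪ A' x = (suppF α bad x).filter fun v => labF α x v = i ∨ labF α x v = j)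
    (hu' : A x' ∪ A' x' = (suppF α bad x').filter fun v => labF α x' v = i ∨ labF α x' v = j)
    (hT : T x ⊆ (suppF α bad x).filter fun v => labF α x v ≠ i ∧ labF α x v ≠ j)
    (hT' : T x' ⊆ (suppF α bad x').filter fun v => labF α x' v ≠ i ∧ labF α x' v ≠ j)
    (hcd : kap α x (A' x ∪ T x) = kap α x' (A' x' ∪ T x')) :
    (A x \ comm α A x x') ∪ T x ⊆ suppF (al3 K) bad (yy α i j x x') ∧
    (A x' \ comm α A x x') ∪ T x' ⊆ suppF (al3 K) bad (yy α i j x x') ∧
    kap α x (A x ∪ T x) = kap α x (comm α A x x') +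
      kap α x ((A x \ comm α A x x') ∪ T x) ∧
    kap α x' (A x' ∪ T x') = kap α x (comm α A x x') +
      kap α x' ((A x' \ comm α A x x') ∪ T x') := by
  have mA : ∀ v, v ∈ A x → v ∈ suppF α bad x ∧ (labF α x v = i ∨ labF α x v = j) := by
    intro v hv
    have h : v ∈ A x ∪ A' x := Finset.mem_union_left _ hv
    rw [hu, Finset.mem_filter] at h
    exact h
  have mA' : ∀ v, v ∈ A' x → v ∈ suppF α bad x ∧ (labF α x v = i ∨ labF α x v = j) := by
    intro v hv
    have h : v ∈ A x ∪ A' x := Finset.mem_union_right _ hv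
    rw [hu, Finset.mem_filter] at h
    exact h
  have nA : ∀ v, v ∈ A x' → v ∈ suppF α bad x' ∧ (labF α x' v = i ∨ labF α x' v = j) := by
    intro v hv
    have h : v ∈ A x' ∪ A' x' := Finset.mem_union_left _ hv
    rw [hu', Finset.mem_filter] at h
    exact h
  have nA' : ∀ v, v ∈ A' x' → v ∈ suppF α bad x' ∧ (labF α x' v = i ∨ labF α x' v = j) := by
    intro v hv
    have h : v ∈ A x' ∪ A' x' := Finset.mem_union_right _ hv
    rw [hu', Finset.mem_filter] at h
    exact h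
  have mT : ∀ v, v ∈ T x → v ∈ suppF α bad x ∧ (labF α x v ≠ i ∧ labF α x v ≠ j) := by
    intro v hv
    exact Finset.mem_filter.mp (hT hv)
  have nT : ∀ v, v ∈ T x' → v ∈ suppF α bad x' ∧ (labF α x' v ≠ i ∧ labF α x' v ≠ j) := by
    intro v hv
    exact Finset.mem_filter.mp (hT' hv)
  obtain ⟨hU, hle⟩ := kap_eq_imp hcd
    (fun v hv => by
      rcases Finset.mem_union.mp hv with h | h
      · exact exp_pos_of_mem hx (mA' v h).1
      · exact exp_pos_of_mem hx (mT v h).1)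
    (fun v hv => by
      rcases Finset.mem_union.mp hv with h | h
      · exact exp_pos_of_mem hx' (nA' v h).1
      · exact exp_pos_of_mem hx' (nT v h).1)
  have a1 : ∀ v, v ∈ A x → v ∈ suppF α bad x' → (labF α x' v = i ∨ labF α x' v = j) →
      v ∈ A x' := by
    intro v hv h1 h2
    have h3 : v ∈ A x' ∪ A' x' := by
      rw [hu', Finset.mem_filter]
      exact ⟨h1, h2⟩
    rcases Finset.mem_union.mp h3 with h4 | h4
    · exact h4
    · exfalso
      have h5 : v ∈ A' x ∪ T x := by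
        rw [hU]
        exact Finset.mem_union_left _ h4
      rcases Finset.mem_union.mp h5 with h6 | h6
      · exact Finset.disjoint_left.mp hd hv h6
      · exact (mT v h6).2.1 ((mA v hv).2.resolve_right (mT v h6).2.2)
  have a2 : ∀ v, v ∈ A x' → v ∈ suppF α bad x → (labF α x v = i ∨ labF α x v = j) →
      v ∈ A x := by
    intro v hv h1 h2
    have h3 : v ∈ A x ∪ A' x := by
      rw [hu, Finset.mem_filter]
      exact ⟨h1, h2⟩
    rcases Finset.mem_union.mp h3 with h4 | h4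
    · exact h4
    · exfalso
      have h5 : v ∈ A' x' ∪ T x' := by
        rw [← hU]
        exact Finset.mem_union_left _ h4
      rcases Finset.mem_union.mp h5 with h6 | h6
      · exact Finset.disjoint_left.mp hd' hv h6
      · exact (nT v h6).2.1 ((nA v hv).2.resolve_right (nT v h6).2.2)
  have s1 : (A x \ comm α A x x') ∪ T x ⊆ suppF (al3 K) bad (yy α i j x x') := by
    intro v hv
    rcases Finset.mem_union.mp hv with h | h
    · rw [Finset.mem_sdiff] at h
      have hvb : v ∉ bad := ((mem_suppF hx v).mp (mA v h.1).1).1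
      apply mem_supp_yy hα hij hx hx' hxx hvb
      apply ef_diff hα hbad hij hx hx' (mA v h.1).1 (mA v h.1).2
      rintro ⟨b1, b2, b3, b4⟩
      exact h.2 (mem_comm.mpr ⟨⟨h.1, a1 v h.1 b1 b2⟩, b3, b4⟩)
    · have h1 : v ∈ A' x ∪ T x := Finset.mem_union_right _ h
      have h2 : v ∈ A' x' ∪ T x' := by rw [← hU]; exact h1
      have h3 : v ∈ suppF α bad x' := by
        rcases Finset.mem_union.mp h2 with h4 | h4
        · exact (nA' v h4).1
        · exact (nT v h4).1
      exact mem_supp_yy2 hα hbad hij hx hx' hxx (mT v h).1 h3 (mT v h).2.1 (mT v h).2.2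
        (hle v h1).1
  have s2 : (A x' \ comm α A x x') ∪ T x' ⊆ suppF (al3 K) bad (yy α i j x x') := by
    intro v hv
    rcases Finset.mem_union.mp hv with h | h
    · rw [Finset.mem_sdiff] at h
      have hvb : v ∉ bad := ((mem_suppF hx' v).mp (nA v h.1).1).1
      apply mem_supp_yy hα hij hx hx' hxx hvb
      have h5 := ef_diff hα hbad hij hx' hx (nA v h.1).1 (nA v h.1).2 (by
        rintro ⟨b1, b2, b3, b4⟩
        exact h.2 (mem_comm.mpr ⟨⟨a2 v h.1 b1 b2, h.1⟩, b3.symm, b4.symm⟩))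
      omega
    · have h2 : v ∈ A' x' ∪ T x' := Finset.mem_union_right _ h
      have h1 : v ∈ A' x ∪ T x := by rw [hU]; exact h2
      have h3 : v ∈ suppF α bad x := by
        rcases Finset.mem_union.mp h1 with h4 | h4
        · exact (mA' v h4).1
        · exact (mT v h4).1
      have h4 := (hle v h1).1
      refine mem_supp_yy2 hα hbad hij hx hx' hxx h3 (nT v h).1 ?_ ?_ h4
      · rw [h4]
        exact (nT v h).2.1
      · rw [h4]
        exact (nT v h).2.2
  have g1 : ∀ v, v ∈ comm α A x x' → v ∈ A x := fun v hv => (mem_comm.mp hv).1.1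
  have g2 : ∀ v, v ∈ comm α A x x' → v ∈ A x' := fun v hv => (mem_comm.mp hv).1.2
  refine ⟨s1, s2, ?_, ?_⟩
  · rw [← kap_union]
    · congr 1
      ext v
      simp only [Finset.mem_union, Finset.mem_sdiff]
      constructor
      · rintro (h | h)
        · by_cases hg : v ∈ comm α A x x'
          · exact Or.inl hg
          · exact Or.inr (Or.inl ⟨h, hg⟩)
        · exact Or.inr (Or.inr h)
      · rintro (h | h | h)
        · exact Or.inl (g1 v h)
        · exact Or.inl h.1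
        · exact Or.inr h
    · rw [Finset.disjoint_left]
      intro v hv hv'
      rcases Finset.mem_union.mp hv' with h | h
      · exact (Finset.mem_sdiff.mp h).2 hv
      · exact (mT v h).2.1 ((mA v (g1 v hv)).2.resolve_right (mT v h).2.2)
  · rw [kap_congr α x x' (fun v hv => (mem_comm.mp hv).2), ← kap_union]
    · congr 1
      ext v
      simp only [Finset.mem_union, Finset.mem_sdiff]
      constructor
      · rintro (h | h)
        · by_cases hg : v ∈ comm α A x x'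
          · exact Or.inl hg
          · exact Or.inr (Or.inl ⟨h, hg⟩)
        · exact Or.inr (Or.inr h)
      · rintro (h | h | h)
        · exact Or.inl (g2 v h)
        · exact Or.inl h.1
        · exact Or.inr h
    · rw [Finset.disjoint_left]
      intro v hv hv'
      rcases Finset.mem_union.mp hv' with h | h
      · exact (Finset.mem_sdiff.mp h).2 hv
      · exact (nT v h).2.1 ((nA v (g2 v hv)).2.resolve_right (nT v h).2.2)

open Classical in
theorem offdiag [NeZero q] (α : Fin q → K × K)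
    (hα : ∀ l m, l ≠ m → wedge (α l) (α m) ≠ 0)
    (bad : Finset (HeightOneSpectrum (𝓞 K))) (hbad : GoodOff α bad)
    (i j : Fin q) (hij : i ≠ j) (N : ℕ) (η : ℝ) (hη : 0 < η) :
    ∃ C : ℝ, 0 < C ∧ ∀ (β z : ℝ) (X : Finset (K × K))
      (A A' T : K × K → Finset (HeightOneSpectrum (𝓞 K))),
    0 ≤ z →
    (∀ x ∈ X, ∀ l, wedge x (α l) ≠ 0) →
    (∀ x ∈ X, ∀ y ∈ X, x ≠ y → wedge x y ≠ 0) →
    (∀ x ∈ X, hh x ≤ β) →
    (∀ x ∈ X, Disjoint (A x) (A' x)) →
    (∀ x ∈ X, A x ∪ A' x = (suppF α bad x).filter fun v => labF α x v = i ∨ labF α x v = j) →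
    (∀ x ∈ X, T x ⊆ (suppF α bad x).filter fun v => labF α x v ≠ i ∧ labF α x v ≠ j) →
    (∀ x ∈ X, ∀ x' ∈ X,
      cd α bad (fun x => A' x ∪ T x) x = cd α bad (fun x => A' x ∪ T x) x' →
      cd α bad (fun x => A x ∪ T x) x ≠ cd α bad (fun x => A x ∪ T x) x' →
      ∃ n : ℕ, 1 ≤ n ∧ n ≤ N ∧ ∃ W : Finset (HeightOneSpectrum (𝓞 K)),
        W ⊆ suppF (al3 K) bad (yy α i j x x') ∧
        (∀ v ∈ suppF (al3 K) bad (yy α i j x x'), v ∉ W →
          (labF (al3 K) (yy α i j x x') v = 0 ∨ labF (al3 K) (yy α i j x x') v = 1) →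
          n ∣ expF (al3 K) (yy α i j x x') v) ∧
        toolCost (suppF (al3 K) bad (yy α i j x x')) (labF (al3 K) (yy α i j x x'))
          (expF (al3 K) (yy α i j x x')) lnv (idxF (al3 K) bad (yy α i j x x')) n 0 1 W +
          ∑ v ∈ comm α A x x', lnv v ≤ z) →
    ((((X ×ˢ X).filter (fun p =>
        cd α bad (fun x => A' x ∪ T x) p.1 = cd α bad (fun x => A' x ∪ T x) p.2 ∧
        cd α bad (fun x => A x ∪ T x) p.1 ≠ cd α bad (fun x => A x ∪ T x) p.2)).image
      (fun p => (cd α bad (fun x => A x ∪ T x) p.1,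
        cd α bad (fun x => A x ∪ T x) p.2))).card : ℝ) ≤ C * Real.exp (z + η * β) := by
  have hq : 1 ≤ q := Nat.one_le_iff_ne_zero.mpr (NeZero.ne q)
  set η₁ : ℝ := η / 7 with hη₁
  have hη₁0 : 0 < η₁ := by positivity
  obtain ⟨C₀, hC₀, hglob⟩ := yy_global α hα bad hbad i j hij
  obtain ⟨K₁, hK₁, htot⟩ := total_exp hα hbad
  obtain ⟨K₂, hK₂, htot3⟩ := total_exp (al3_wedge (K := K)) (al3_good bad)
  set A₀ : ℝ := (q + K₁) + (6 + 3 * C₀ + K₂) with hA₀
  have hA₀0 : 0 ≤ A₀ := by positivity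
  obtain ⟨CR, hCR, hR⟩ := key1_range hα hbad η₁ hη₁0
  obtain ⟨Cc, hCc, hcode⟩ := code_count K q hq A₀ η₁ hA₀0 hη₁0
  obtain ⟨Cf, hCf, hfree⟩ := code_count_free K q hq A₀ η₁ hA₀0 hη₁0
  obtain ⟨Cm, hCm, hmas⟩ := master_al3 K bad N η₁ hη₁0
  obtain ⟨Cp, hCp, hpoly⟩ := poly_le_exp 1 A₀ (A₀ + 1) η₁ hA₀0 (by positivity) hη₁0
  refine ⟨CR * Cp * (N + 1) * (Cm * Cc * Cf * Cf) * Real.exp (1 + η₁ * C₀), by positivity, ?_⟩
  intro β z X A A' T hz hX hXX hβ hdisj hunion hT htool
  set c := cd α bad (fun x => A x ∪ T x) with hc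
  set c' := cd α bad (fun x => A' x ∪ T x) with hc'
  set Im := ((X ×ˢ X).filter (fun p => c' p.1 = c' p.2 ∧ c p.1 ≠ c p.2)).image
    (fun p => (c p.1, c p.2)) with hIm
  rcases Im.eq_empty_or_nonempty with hemp | hne
  · rw [hemp]
    simp only [Finset.card_empty, Nat.cast_zero]
    positivity
  -- `β ≥ 0`
  have hβ0 : 0 ≤ β := by
    obtain ⟨P, hP⟩ := hne
    rw [hIm, Finset.mem_image] at hP
    obtain ⟨p, hp, _⟩ := hP
    have hx1 : p.1 ∈ X := (Finset.mem_product.mp (Finset.mem_filter.mp hp).1).1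
    exact (hh_nonneg (wedge_left_ne (hX _ hx1 i))).trans (hβ _ hx1)
  obtain ⟨R, hRcard, hRmem⟩ := hR β hβ0
  -- the choice of the pairs
  have hch : ∀ P ∈ Im, ∃ p : (K × K) × (K × K), p.1 ∈ X ∧ p.2 ∈ X ∧ c' p.1 = c' p.2 ∧
      c p.1 ≠ c p.2 ∧ (c p.1, c p.2) = P := by
    intro P hP
    rw [hIm, Finset.mem_image] at hP
    obtain ⟨p, hp, hpP⟩ := hP
    obtain ⟨h1, h2, h3⟩ := Finset.mem_filter.mp hp
    rw [Finset.mem_product] at h1
    exact ⟨p, h1.1, h1.2, h2, h3, hpP⟩
  choose! pr hpr using hch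
  have htl : ∀ P ∈ Im, ∃ n : ℕ, 1 ≤ n ∧ n ≤ N ∧ ∃ W : Finset (HeightOneSpectrum (𝓞 K)),
        W ⊆ suppF (al3 K) bad (yy α i j (pr P).1 (pr P).2) ∧
        (∀ v ∈ suppF (al3 K) bad (yy α i j (pr P).1 (pr P).2), v ∉ W →
          (labF (al3 K) (yy α i j (pr P).1 (pr P).2) v = 0 ∨
            labF (al3 K) (yy α i j (pr P).1 (pr P).2) v = 1) →
          n ∣ expF (al3 K) (yy α i j (pr P).1 (pr P).2) v) ∧
        toolCost (suppF (al3 K) bad (yy α i j (pr P).1 (pr P).2))
          (labF (al3 K) (yy α i j (pr P).1 (pr P).2))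
          (expF (al3 K) (yy α i j (pr P).1 (pr P).2)) lnv
          (idxF (al3 K) bad (yy α i j (pr P).1 (pr P).2)) n 0 1 W +
          ∑ v ∈ comm α A (pr P).1 (pr P).2, lnv v ≤ z := by
    intro P hP
    obtain ⟨h1, h2, h3, h4, -⟩ := hpr P hP
    exact htool _ h1 _ h2 h3 h4
  choose! nn hnn using htl
  -- abbreviations
  set G : _ → Finset (HeightOneSpectrum (𝓞 K)) := fun P => comm α A (pr P).1 (pr P).2 with hG
  set yv : _ → K × K := fun P => yy α i j (pr P).1 (pr P).2 with hyv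
  set kG : _ → (HeightOneSpectrum (𝓞 K) →₀ ℕ) := fun P => kap α (pr P).1 (G P) with hkG
  set k1 : _ → (HeightOneSpectrum (𝓞 K) →₀ ℕ) := fun P =>
    kap α (pr P).1 ((A (pr P).1 \ G P) ∪ T (pr P).1) with hk1
  set k2 : _ → (HeightOneSpectrum (𝓞 K) →₀ ℕ) := fun P =>
    kap α (pr P).2 ((A (pr P).2 \ G P) ∪ T (pr P).2) with hk2
  set mm : _ → ℕ := fun P => ⌊∑ v ∈ G P, lnv v⌋₊ with hmm
  have hxx : ∀ P ∈ Im, wedge (pr P).1 (pr P).2 ≠ 0 := by
    intro P hP
    obtain ⟨h1, h2, h3, h4, -⟩ := hpr P hP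
    apply hXX _ h1 _ h2
    intro h
    exact h4 (by rw [h])
  have hkey : ∀ P ∈ Im, key1 α bad (pr P).1 = key1 α bad (pr P).2 := by
    intro P hP
    exact congrArg Prod.fst (hpr P hP).2.2.1
  have hfacts : ∀ P ∈ Im,
      (A (pr P).1 \ G P) ∪ T (pr P).1 ⊆ suppF (al3 K) bad (yv P) ∧
      (A (pr P).2 \ G P) ∪ T (pr P).2 ⊆ suppF (al3 K) bad (yv P) ∧
      kap α (pr P).1 (A (pr P).1 ∪ T (pr P).1) = kG P + k1 P ∧
      kap α (pr P).2 (A (pr P).2 ∪ T (pr P).2) = kG P + k2 P := by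
    intro P hP
    obtain ⟨h1, h2, h3, h4, -⟩ := hpr P hP
    exact pair_facts hα hbad hij (hX _ h1) (hX _ h2) (hxx P hP) (hdisj _ h1) (hdisj _ h2)
      (hunion _ h1) (hunion _ h2) (hT _ h1) (hT _ h2) (congrArg Prod.snd h3)
  have hP_eq : ∀ P ∈ Im, P = ((key1 α bad (pr P).1, kG P + k1 P),
      (key1 α bad (pr P).1, kG P + k2 P)) := by
    intro P hP
    obtain ⟨h1, h2, h3, h4, h5⟩ := hpr P hP
    obtain ⟨-, -, f3, f4⟩ := hfacts P hP
    rw [← f3, ← f4]
    have e1 : c (pr P).1 = (key1 α bad (pr P).1, kap α (pr P).1 (A (pr P).1 ∪ T (pr P).1)) := rfl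
    have e2 : c (pr P).2 = (key1 α bad (pr P).1, kap α (pr P).2 (A (pr P).2 ∪ T (pr P).2)) := by
      rw [hkey P hP]
      rfl
    rw [← e1, ← e2]
    exact h5.symm
  -- memberships in supports
  have hAsub : ∀ x ∈ X, A x ∪ T x ⊆ suppF α bad x := by
    intro x hx v hv
    rcases Finset.mem_union.mp hv with h | h
    · have h' : v ∈ A x ∪ A' x := Finset.mem_union_left _ h
      rw [hunion x hx] at h'
      exact (Finset.mem_filter.mp h').1
    · exact (Finset.mem_filter.mp (hT x hx h)).1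
  have hGsub : ∀ P ∈ Im, G P ⊆ suppF α bad (pr P).1 := by
    intro P hP v hv
    exact hAsub _ (hpr P hP).1 (Finset.mem_union_left _ (mem_comm.mp hv).1.1)
  have h1sub : ∀ P ∈ Im, (A (pr P).1 \ G P) ∪ T (pr P).1 ⊆ suppF α bad (pr P).1 := by
    intro P hP v hv
    apply hAsub _ (hpr P hP).1
    rcases Finset.mem_union.mp hv with h | h
    · exact Finset.mem_union_left _ (Finset.mem_sdiff.mp h).1
    · exact Finset.mem_union_right _ h
  have h2sub : ∀ P ∈ Im, (A (pr P).2 \ G P) ∪ T (pr P).2 ⊆ suppF α bad (pr P).2 := by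
    intro P hP v hv
    apply hAsub _ (hpr P hP).2.1
    rcases Finset.mem_union.mp hv with h | h
    · exact Finset.mem_union_left _ (Finset.mem_sdiff.mp h).1
    · exact Finset.mem_union_right _ h
  have hq0 : (0:ℝ) ≤ q := Nat.cast_nonneg _
  have hqA : ∀ x ∈ X, (q:ℝ) * hh x + K₁ ≤ A₀ * (β + 1) := by
    intro x hx
    have h1 := mul_le_mul_of_nonneg_left (hβ x hx) hq0
    have h2 : 0 ≤ (6 + 3 * C₀ + K₂) * (β + 1) := by positivity
    have h3 : 0 ≤ K₁ * β := by positivity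
    rw [hA₀]
    nlinarith
  -- weighted sums of codes
  have hwt : ∀ x ∈ X, ∀ U : Finset (HeightOneSpectrum (𝓞 K)), U ⊆ suppF α bad x →
      ∑ v ∈ (kap α x U).support, (((kap α x U v - 1) / q + 1 : ℕ) : ℝ) * lnv v ≤
        A₀ * (β + 1) := by
    intro x hx U hU
    rw [kap_support]
    have h1 : ∑ v ∈ U, (((kap α x U v - 1) / q + 1 : ℕ) : ℝ) * lnv v =
        ∑ v ∈ U, (expF α x v : ℝ) * lnv v := by
      refine Finset.sum_congr rfl fun v hv => ?_
      rw [kap_exp α x _ hv (exp_pos_of_mem (hX x hx) (hU hv))]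
    rw [h1]
    calc ∑ v ∈ U, (expF α x v : ℝ) * lnv v
        ≤ ∑ v ∈ suppF α bad x, (expF α x v : ℝ) * lnv v :=
          Finset.sum_le_sum_of_subset_of_nonneg hU
            (fun v _ _ => mul_nonneg (Nat.cast_nonneg _) (lnv_pos v).le)
      _ ≤ _ := ((htot x (hX x hx)).2.1).trans (hqA x hx)
  have hGsum : ∀ P ∈ Im, ∑ v ∈ G P, lnv v ≤ A₀ * (β + 1) := by
    intro P hP
    have h1 := (hpr P hP).1
    calc ∑ v ∈ G P, lnv v ≤ ∑ v ∈ suppF α bad (pr P).1, lnv v :=
          Finset.sum_le_sum_of_subset_of_nonneg (hGsub P hP) (fun v _ _ => (lnv_pos v).le)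
      _ ≤ _ := ((htot _ (hX _ h1)).2.2).trans (hqA _ h1)
  have hG0 : ∀ P, 0 ≤ ∑ v ∈ G P, lnv v := fun P => Finset.sum_nonneg fun v _ => (lnv_pos v).le
  set M : ℕ := ⌊A₀ * (β + 1)⌋₊ with hM
  have hmm_mem : ∀ P ∈ Im, mm P ∈ Finset.range (M + 1) := by
    intro P hP
    rw [Finset.mem_range, Nat.lt_succ_iff]
    exact Nat.floor_le_floor (hGsum P hP)
  -- the points `y`
  have hyw : ∀ P ∈ Im, ∀ l, wedge (yv P) (al3 K l) ≠ 0 := by
    intro P hP
    exact yy_wedge α i j (hα i j hij) (hX _ (hpr P hP).1) (hX _ (hpr P hP).2.1) (hxx P hP)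
  have hyh : ∀ P ∈ Im, hh (yv P) ≤ 2 * β + C₀ := by
    intro P hP
    have h1 := (hpr P hP).1
    have h2 := (hpr P hP).2.1
    have h3 := (hglob _ _ (hX _ h1) (hX _ h2) (hxx P hP) (hkey P hP)).1
    have h4 := hβ _ h1
    have h5 := hβ _ h2
    linarith
  have hysum : ∀ P ∈ Im, ∑ v ∈ suppF (al3 K) bad (yv P), lnv v ≤ A₀ * (β + 1) := by
    intro P hP
    have h1 := (htot3 (yv P) (hyw P hP)).2.2
    have h2 := hyh P hP
    refine h1.trans ?_
    have h3 : 0 ≤ (q + K₁) * (β + 1) := by positivity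
    have h4 : 0 ≤ (3 * C₀ + K₂) * β := by positivity
    rw [hA₀]
    push_cast
    nlinarith
  -- the families
  set YS : ℕ → ℕ → Finset (K × K) := fun m n =>
    (Im.filter (fun P => mm P = m ∧ nn P = n)).image yv with hYS
  set FG : ℕ → Finset (HeightOneSpectrum (𝓞 K) →₀ ℕ) := fun m =>
    (Im.filter (fun P => mm P = m)).image kG with hFG
  set F1 : K × K → Finset (HeightOneSpectrum (𝓞 K) →₀ ℕ) := fun y =>
    (Im.filter (fun P => yv P = y)).image k1 with hF1
  set F2 : K × K → Finset (HeightOneSpectrum (𝓞 K) →₀ ℕ) := fun y =>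
    (Im.filter (fun P => yv P = y)).image k2 with hF2
  have bYS : ∀ m n, 1 ≤ n → n ≤ N → ((YS m n).card : ℝ) ≤
      Cm * Real.exp ((z - m) + η₁ * (2 * β + C₀)) := by
    intro m n hn1 hnN
    apply hmas n hn1 hnN
    · intro y hy
      rw [hYS, Finset.mem_image] at hy
      obtain ⟨P, hP, rfl⟩ := hy
      exact hyw P (Finset.mem_filter.mp hP).1
    · intro y hy y' hy' hne'
      rw [hYS, Finset.mem_image] at hy hy'
      obtain ⟨P, hP, rfl⟩ := hy
      obtain ⟨P', hP', rfl⟩ := hy'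
      simp only [hyv, yy, wedge] at hne' ⊢
      intro h
      apply hne'
      have h1 : tt (α i) (α j) (pr P).1 / tt (α i) (α j) (pr P).2 =
          tt (α i) (α j) (pr P').1 / tt (α i) (α j) (pr P').2 := by
        have := sub_eq_zero.mp h
        simpa using this
      rw [h1]
    · intro y hy
      rw [hYS, Finset.mem_image] at hy
      obtain ⟨P, hP, rfl⟩ := hy
      exact hyh P (Finset.mem_filter.mp hP).1
    · intro y hy
      rw [hYS, Finset.mem_image] at hy
      obtain ⟨P, hP, rfl⟩ := hy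
      obtain ⟨hPI, hPm, hPn⟩ := Finset.mem_filter.mp hP
      obtain ⟨-, -, W, w1, w2, w3⟩ := hnn P hPI
      refine ⟨W, w1, ?_, ?_⟩
      · rw [← hPn]
        exact w2
      · have h1 : (m:ℝ) ≤ ∑ v ∈ G P, lnv v := by
          rw [← hPm]
          exact Nat.floor_le (hG0 P)
        rw [← hPn]
        have h2 : toolCost (suppF (al3 K) bad (yv P)) (labF (al3 K) (yv P))
          (expF (al3 K) (yv P)) lnv (idxF (al3 K) bad (yv P)) (nn P) 0 1 W +
          ∑ v ∈ G P, lnv v ≤ z := w3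
        linarith
  have bFG : ∀ m, ((FG m).card : ℝ) ≤ Cc * Real.exp (((m:ℝ) + 1) + η₁ * β) := by
    intro m
    apply hcode β _ hβ0
    · intro κ hκ
      rw [hFG, Finset.mem_image] at hκ
      obtain ⟨P, hP, rfl⟩ := hκ
      obtain ⟨hPI, hPm⟩ := Finset.mem_filter.mp hP
      rw [hkG]
      simp only
      rw [kap_support, ← hPm]
      exact (Nat.lt_floor_add_one _).le
    · intro κ hκ
      rw [hFG, Finset.mem_image] at hκ
      obtain ⟨P, hP, rfl⟩ := hκ
      obtain ⟨hPI, -⟩ := Finset.mem_filter.mp hP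
      exact hwt _ (hpr P hPI).1 _ (hGsub P hPI)
  have bF1 : ∀ m n, ∀ y ∈ YS m n, ((F1 y).card : ℝ) ≤ Cf * Real.exp (η₁ * β) := by
    intro m n y hy
    rw [hYS, Finset.mem_image] at hy
    obtain ⟨P₀, hP₀, rfl⟩ := hy
    apply hfree β hβ0 (suppF (al3 K) bad (yv P₀)) _ (hysum P₀ (Finset.mem_filter.mp hP₀).1)
    · intro κ hκ
      rw [hF1, Finset.mem_image] at hκ
      obtain ⟨P, hP, rfl⟩ := hκ
      obtain ⟨hPI, hPy⟩ := Finset.mem_filter.mp hP
      rw [hk1]
      simp only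
      rw [kap_support, ← hPy]
      exact (hfacts P hPI).1
    · intro κ hκ
      rw [hF1, Finset.mem_image] at hκ
      obtain ⟨P, hP, rfl⟩ := hκ
      obtain ⟨hPI, hPy⟩ := Finset.mem_filter.mp hP
      exact hwt _ (hpr P hPI).1 _ (h1sub P hPI)
  have bF2 : ∀ m n, ∀ y ∈ YS m n, ((F2 y).card : ℝ) ≤ Cf * Real.exp (η₁ * β) := by
    intro m n y hy
    rw [hYS, Finset.mem_image] at hy
    obtain ⟨P₀, hP₀, rfl⟩ := hy
    apply hfree β hβ0 (suppF (al3 K) bad (yv P₀)) _ (hysum P₀ (Finset.mem_filter.mp hP₀).1)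
    · intro κ hκ
      rw [hF2, Finset.mem_image] at hκ
      obtain ⟨P, hP, rfl⟩ := hκ
      obtain ⟨hPI, hPy⟩ := Finset.mem_filter.mp hP
      rw [hk2]
      simp only
      rw [kap_support, ← hPy]
      exact (hfacts P hPI).2.1
    · intro κ hκ
      rw [hF2, Finset.mem_image] at hκ
      obtain ⟨P, hP, rfl⟩ := hκ
      obtain ⟨hPI, hPy⟩ := Finset.mem_filter.mp hP
      exact hwt _ (hpr P hPI).2.1 _ (h2sub P hPI)
  -- the injection
  set Big := R ×ˢ ((Finset.range (M + 1) ×ˢ Finset.Icc 1 N).sigma fun mn =>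
    (YS mn.1 mn.2).sigma fun y => FG mn.1 ×ˢ (F1 y ×ˢ F2 y)) with hBig
  have hcard : Im.card ≤ Big.card := by
    apply Finset.card_le_card_of_injOn (fun P =>
      (key1 α bad (pr P).1, ⟨(mm P, nn P), ⟨yv P, (kG P, (k1 P, k2 P))⟩⟩))
    · intro P hP
      have hP' : P ∈ Im := hP
      rw [hBig]
      simp only [Finset.coe_product, Finset.coe_sigma, Set.mem_prod, Finset.mem_coe,
        Set.mem_sigma_iff]
      refine ⟨hRmem _ (hX _ (hpr P hP').1) (hβ _ (hpr P hP').1), ⟨hmm_mem P hP', ?_⟩, ?_, ?_, ?_, ?_⟩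
      · rw [Finset.mem_Icc]
        exact ⟨(hnn P hP').1, (hnn P hP').2.1⟩
      · exact Finset.mem_image_of_mem _ (Finset.mem_filter.mpr ⟨hP', rfl, rfl⟩)
      · exact Finset.mem_image_of_mem _ (Finset.mem_filter.mpr ⟨hP', rfl⟩)
      · exact Finset.mem_image_of_mem _ (Finset.mem_filter.mpr ⟨hP', rfl⟩)
      · exact Finset.mem_image_of_mem _ (Finset.mem_filter.mpr ⟨hP', rfl⟩)
    · intro P hP P' hP' heq
      have e1 := hP_eq P hP
      have e2 := hP_eq P' hP'
      have r1 := congrArg Prod.fst heq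
      have r2 := congrArg (fun w => w.2.2.2.1) heq
      have r3 := congrArg (fun w => w.2.2.2.2.1) heq
      have r4 := congrArg (fun w => w.2.2.2.2.2) heq
      simp only at r1 r2 r3 r4
      rw [e1, e2, r1, r2, r3, r4]
  have hBcard : (Big.card : ℝ) ≤ CR * Real.exp (η₁ * β) *
      (((M:ℝ) + 1) * N * (Cm * Cc * Cf * Cf * Real.exp (z + 1 + η₁ * (2 * β + C₀) +
        3 * (η₁ * β)))) := by
    have eR : 0 ≤ Real.exp (η₁ * β) := (Real.exp_pos _).le
    have hin : ∀ mn ∈ (Finset.range (M + 1) ×ˢ Finset.Icc 1 N),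
        ((((YS mn.1 mn.2).sigma fun y => FG mn.1 ×ˢ (F1 y ×ˢ F2 y)).card : ℕ) : ℝ) ≤
        Cm * Cc * Cf * Cf * Real.exp (z + 1 + η₁ * (2 * β + C₀) + 3 * (η₁ * β)) := by
      rintro ⟨m, n⟩ hmn
      rw [Finset.mem_product, Finset.mem_Icc] at hmn
      simp only at hmn ⊢
      rw [Finset.card_sigma]
      push_cast
      have h1 : ∀ y ∈ YS m n, (((FG m ×ˢ (F1 y ×ˢ F2 y)).card : ℕ) : ℝ) ≤
          (Cc * Real.exp (((m:ℝ) + 1) + η₁ * β)) *
            ((Cf * Real.exp (η₁ * β)) * (Cf * Real.exp (η₁ * β))) := by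
        intro y hy
        rw [Finset.card_product, Finset.card_product]
        push_cast
        have hC1 : 0 ≤ Cf * Real.exp (η₁ * β) := mul_nonneg hCf.le eR
        have hC2 : 0 ≤ Cc * Real.exp (((m:ℝ) + 1) + η₁ * β) := mul_nonneg hCc.le (Real.exp_pos _).le
        exact mul_le_mul (bFG m) (mul_le_mul (bF1 m n y hy) (bF2 m n y hy) (Nat.cast_nonneg _)
          hC1) (mul_nonneg (Nat.cast_nonneg _) (Nat.cast_nonneg _)) hC2
      calc ∑ y ∈ YS m n, (((FG m ×ˢ (F1 y ×ˢ F2 y)).card : ℕ) : ℝ)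
          ≤ ∑ y ∈ YS m n, (Cc * Real.exp (((m:ℝ) + 1) + η₁ * β)) *
            ((Cf * Real.exp (η₁ * β)) * (Cf * Real.exp (η₁ * β))) := Finset.sum_le_sum h1
        _ = ((YS m n).card : ℝ) * ((Cc * Real.exp (((m:ℝ) + 1) + η₁ * β)) *
            ((Cf * Real.exp (η₁ * β)) * (Cf * Real.exp (η₁ * β)))) := by
            rw [Finset.sum_const, nsmul_eq_mul]
        _ ≤ (Cm * Real.exp ((z - m) + η₁ * (2 * β + C₀))) *
            ((Cc * Real.exp (((m:ℝ) + 1) + η₁ * β)) *
            ((Cf * Real.exp (η₁ * β)) * (Cf * Real.exp (η₁ * β)))) :=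
            mul_le_mul_of_nonneg_right (bYS m n hmn.2.1 hmn.2.2) (by positivity)
        _ = Cm * Cc * Cf * Cf * (Real.exp ((z - m) + η₁ * (2 * β + C₀)) *
            Real.exp (((m:ℝ) + 1) + η₁ * β) * Real.exp (η₁ * β) * Real.exp (η₁ * β)) := by ring
        _ = _ := by
            rw [← Real.exp_add, ← Real.exp_add, ← Real.exp_add]
            congr 2
            ring
    have hsig : ((((Finset.range (M + 1) ×ˢ Finset.Icc 1 N).sigma fun mn =>
        (YS mn.1 mn.2).sigma fun y => FG mn.1 ×ˢ (F1 y ×ˢ F2 y)).card : ℕ) : ℝ) ≤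
        ((M:ℝ) + 1) * N * (Cm * Cc * Cf * Cf * Real.exp (z + 1 + η₁ * (2 * β + C₀) +
        3 * (η₁ * β))) := by
      rw [Finset.card_sigma]
      push_cast
      refine (Finset.sum_le_sum hin).trans_eq ?_
      rw [Finset.sum_const, Finset.card_product, Finset.card_range, Nat.card_Icc, nsmul_eq_mul]
      push_cast
      congr 2
    rw [hBig, Finset.card_product]
    push_cast
    exact mul_le_mul hRcard hsig (Nat.cast_nonneg _) (by positivity)
  have hMle : (M:ℝ) + 1 ≤ Cp * Real.exp (η₁ * β) := by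
    have h1 : (M:ℝ) ≤ A₀ * (β + 1) := Nat.floor_le (by positivity)
    have h2 := hpoly β hβ0
    rw [pow_one] at h2
    linarith
  calc (Im.card : ℝ) ≤ (Big.card : ℝ) := by exact_mod_cast hcard
    _ ≤ CR * Real.exp (η₁ * β) *
      (((M:ℝ) + 1) * N * (Cm * Cc * Cf * Cf * Real.exp (z + 1 + η₁ * (2 * β + C₀) +
        3 * (η₁ * β)))) := hBcard
    _ ≤ CR * Real.exp (η₁ * β) *
      ((Cp * Real.exp (η₁ * β)) * (N + 1) * (Cm * Cc * Cf * Cf *
        Real.exp (z + 1 + η₁ * (2 * β + C₀) + 3 * (η₁ * β)))) := by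
        have hN : (N:ℝ) ≤ N + 1 := by linarith
        gcongr
    _ = CR * Cp * (N + 1) * (Cm * Cc * Cf * Cf) * (Real.exp (η₁ * β) * Real.exp (η₁ * β) *
        Real.exp (z + 1 + η₁ * (2 * β + C₀) + 3 * (η₁ * β))) := by ring
    _ = CR * Cp * (N + 1) * (Cm * Cc * Cf * Cf) * (Real.exp (1 + η₁ * C₀) *
        Real.exp (z + η * β)) := by
        rw [← Real.exp_add, ← Real.exp_add, ← Real.exp_add]
        congr 2
        rw [hη₁]
        ring
    _ = _ := by ring

end Pool.Agent.Lib.MP_4d5ce1_nt
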