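import Pool.Agent.Lib.MP_4d5ce1_nt.BDefs

/-! Statements of the off-diagonal and bilinear theorems (so that files can be compiled in
parallel). -/

set_option autoImplicit false

open NumberField IsDedekindDomain

namespace Pool.Agent.Lib.MP_4d5ce1_nt

open Classical in
/-- The statement of the off-diagonal theorem. -/
def OffStmt (K : Type*) [Field K] [NumberField K] (q : ℕ) [NeZero q] : Prop :=
  ∀ (α : Fin q → K × K)
    (hα : ∀ l m, l ≠ m → wedge (α l) (α m) ≠ 0)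
    (bad : Finset (HeightOneSpectrum (𝓞 K))) (hbad : GoodOff α bad)
    (i j : Fin q) (hij : i ≠ j) (N : ℕ) (η : ℝ) (hη : 0 < η),
    ∃ C : ℝ, 0 < C ∧ ∀ (β z : ℝ) (X : Finset (K × K))
      (A A' T : K × K → Finset (HeightOneSpectrum (𝓞 K))),
    0 ≤ z →
    (∀ x ∈ X, ∀ l, wedge x (α l) ≠ 0) →
    (∀ x ∈ X, ∀ y ∈ X, x ≠ y → wedge x y ≠ 0) →
    (∀ x ∈ X, hh x ≤ β) →
    (∀ x ∈ X, Disjoint (A x) (A' x)) →
    (∀ x ∈ X, A x ∪ A' x = (suppF α bad x).filter fun v => labF α x v = i ∨ labF α x v = j) →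
    (∀ x ∈ X, T x ⊆ (suppF α bad x).filter fun v => labF α x v ≠ i ∧ labF α x v ≠ j) →
    (∀ x ∈ X, ∀ x' ∈ X,
      cd α bad (fun x => A' x ∪ T x) x = cd α bad (fun x => A' x ∪ T x) x' →
      cd α bad (fun x => A x ∪ T x) x ≠ cd α bad (fun x => A x ∪ T x) x' →
      ∃ n : ℕ, 1 ≤ n ∧ n ≤ N ∧ ∃ W : Finset (HeightOneSpectrum (𝓞 K)),
        W ⊆ suppF (al3 K) bad (yy α i j x x') ∧
        (∀ v ∈ suppF (al3 K) bad (yy α i j x x'), v ∉ W →
          (labF (al3 K) (yy α i j x x') v = 0 ∨ labF (al3 K) (yy α i j x x') v = 1) →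
          n ∣ expF (al3 K) (yy α i j x x') v) ∧
        toolCost (suppF (al3 K) bad (yy α i j x x')) (labF (al3 K) (yy α i j x x'))
          (expF (al3 K) (yy α i j x x')) lnv (idxF (al3 K) bad (yy α i j x x')) n 0 1 W +
          ∑ v ∈ comm α A x x', lnv v ≤ z) →
    ((((X ×ˢ X).filter (fun p =>
        cd α bad (fun x => A' x ∪ T x) p.1 = cd α bad (fun x => A' x ∪ T x) p.2 ∧
        cd α bad (fun x => A x ∪ T x) p.1 ≠ cd α bad (fun x => A x ∪ T x) p.2)).image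
      (fun p => (cd α bad (fun x => A x ∪ T x) p.1,
        cd α bad (fun x => A x ∪ T x) p.2))).card : ℝ) ≤ C * Real.exp (z + η * β)

open Classical in
/-- The statement of the bilinear counting theorem. -/
def BilStmt (K : Type*) [Field K] [NumberField K] (q : ℕ) [NeZero q] : Prop :=
  ∀ (α : Fin q → K × K)
    (hα : ∀ l m, l ≠ m → wedge (α l) (α m) ≠ 0)
    (bad : Finset (HeightOneSpectrum (𝓞 K))) (hbad : GoodOff α bad)
    (i j : Fin q) (hij : i ≠ j) (N : ℕ) (η : ℝ) (hη : 0 < η),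
    ∃ C : ℝ, 0 < C ∧ ∀ (β a m : ℝ) (X : Finset (K × K))
      (U V T : K × K → Finset (HeightOneSpectrum (𝓞 K))),
    0 ≤ a → 0 ≤ m →
    (∀ x ∈ X, ∀ l, wedge x (α l) ≠ 0) →
    (∀ x ∈ X, ∀ y ∈ X, x ≠ y → wedge x y ≠ 0) →
    (∀ x ∈ X, hh x ≤ β) →
    (∀ x ∈ X, Disjoint (U x) (V x)) →
    (∀ x ∈ X, U x ∪ V x = (suppF α bad x).filter fun v => labF α x v = i ∨ labF α x v = j) →
    (∀ x ∈ X, T x ⊆ (suppF α bad x).filter fun v => labF α x v ≠ i ∧ labF α x v ≠ j) →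
    (∀ x ∈ X, ∑ v ∈ V x ∪ T x, lnv v ≤ m) →
    -- the `V`-side tools
    (∀ x ∈ X, ∀ x' ∈ X,
      cd α bad (fun x => U x ∪ T x) x = cd α bad (fun x => U x ∪ T x) x' →
      cd α bad (fun x => V x ∪ T x) x ≠ cd α bad (fun x => V x ∪ T x) x' →
      ∃ n : ℕ, 1 ≤ n ∧ n ≤ N ∧ ∃ W : Finset (HeightOneSpectrum (𝓞 K)),
        W ⊆ suppF (al3 K) bad (yy α i j x x') ∧
        (∀ v ∈ suppF (al3 K) bad (yy α i j x x'), v ∉ W →
          (labF (al3 K) (yy α i j x x') v = 0 ∨ labF (al3 K) (yy α i j x x') v = 1) →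
          n ∣ expF (al3 K) (yy α i j x x') v) ∧
        toolCost (suppF (al3 K) bad (yy α i j x x')) (labF (al3 K) (yy α i j x x'))
          (expF (al3 K) (yy α i j x x')) lnv (idxF (al3 K) bad (yy α i j x x')) n 0 1 W +
          ∑ v ∈ comm α V x x', lnv v ≤ m) →
    -- the `U`-side tools
    (∀ x ∈ X, ∀ x' ∈ X,
      cd α bad (fun x => V x ∪ T x) x = cd α bad (fun x => V x ∪ T x) x' →
      cd α bad (fun x => U x ∪ T x) x ≠ cd α bad (fun x => U x ∪ T x) x' →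
      ∃ n : ℕ, 1 ≤ n ∧ n ≤ N ∧ ∃ W : Finset (HeightOneSpectrum (𝓞 K)),
        W ⊆ suppF (al3 K) bad (yy α i j x x') ∧
        (∀ v ∈ suppF (al3 K) bad (yy α i j x x'), v ∉ W →
          (labF (al3 K) (yy α i j x x') v = 0 ∨ labF (al3 K) (yy α i j x x') v = 1) →
          n ∣ expF (al3 K) (yy α i j x x') v) ∧
        toolCost (suppF (al3 K) bad (yy α i j x x')) (labF (al3 K) (yy α i j x x'))
          (expF (al3 K) (yy α i j x x')) lnv (idxF (al3 K) bad (yy α i j x x')) n 0 1 W +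
          ∑ v ∈ comm α U x x', lnv v ≤ a) →
    (X.card : ℝ) ≤ C * Real.exp (max m ((a + m) / 2) + η * β)

end Pool.Agent.Lib.MP_4d5ce1_nt
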