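import Mathlib

set_option autoImplicit false

open NumberField IsDedekindDomain

namespace Pool.Agent.Lib.MP_4d5ce1_nt

/-- The absolute logarithmic height of the point `[x.1 : x.2]` of the projective line. -/
noncomputable def ht {K : Type*} [Field K] [NumberField K] (x : K × K) : ℝ :=
  (∑ w : InfinitePlace K, (w.mult : ℝ) * Real.log (max (w x.1) (w x.2)) +
    ∑ᶠ v : HeightOneSpectrum (𝓞 K),
      Real.log (max (FinitePlace.mk v x.1) (FinitePlace.mk v x.2))) /
    (Module.finrank ℚ K : ℝ)

/-- The sum over the primes `v` outside `S` and over `l` of the truncated local heights of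
`x` relative to the point `α l`. -/
noncomputable def trunc {K : Type*} [Field K] [NumberField K] {q : ℕ}
    (S : Set (HeightOneSpectrum (𝓞 K))) (α : Fin q → K × K) (x : K × K) : ℝ :=
  ∑ᶠ (v : HeightOneSpectrum (𝓞 K)) (_ : v ∉ S), ∑ l : Fin q,
    min (Real.log (max (FinitePlace.mk v x.1) (FinitePlace.mk v x.2) *
          max (FinitePlace.mk v (α l).1) (FinitePlace.mk v (α l).2) /
          FinitePlace.mk v (x.1 * (α l).2 - x.2 * (α l).1)) /
        (Module.finrank ℚ K : ℝ))
      (Real.log (Ideal.absNorm v.asIdeal : ℝ) / (Module.finrank ℚ K : ℝ))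

end Pool.Agent.Lib.MP_4d5ce1_nt
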