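import Pool.Agent.Lib.MP_4d5ce1_nt.Master
import Pool.Agent.Lib.MP_4d5ce1_nt.Defs

set_option autoImplicit false
set_option linter.unusedSectionVars false

open NumberField IsDedekindDomain

namespace Pool.Agent.Lib.MP_4d5ce1_nt

universe u

variable {K : Type u} [Field K] [NumberField K] {q : ℕ}

lemma ht_eq (x : K × K) : ht x = hh x / (Module.finrank ℚ K : ℝ) := rfl

lemma exists_bad (α : Fin q → K × K) (hα : ∀ l m, l ≠ m → wedge (α l) (α m) ≠ 0)
    (S : Set (HeightOneSpectrum (𝓞 K))) (hS : S.Finite) :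
    ∃ bad : Finset (HeightOneSpectrum (𝓞 K)), (∀ v ∈ S, v ∈ bad) ∧ GoodOff α bad := by
  classical
  have hfin : (⋃ l : Fin q, ⋃ m : Fin q, {v : HeightOneSpectrum (𝓞 K) | l ≠ m ∧
      ef v (α m) (α l) ≠ 0}).Finite := by
    refine Set.finite_iUnion fun l => Set.finite_iUnion fun m => ?_
    by_cases hlm : l = m
    · refine Set.Finite.subset Set.finite_empty ?_
      rintro v ⟨h, _⟩
      exact absurd hlm h
    · refine (finite_ef_ne_zero (hα l m hlm)).subset ?_
      rintro v ⟨_, h⟩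
      exact h
  refine ⟨hS.toFinset ∪ hfin.toFinset, ?_, ?_⟩
  · intro v hv
    rw [Finset.mem_union, Set.Finite.mem_toFinset]
    exact Or.inl hv
  · intro v hv l m hlm
    rw [Finset.mem_union, not_or] at hv
    by_contra hne
    apply hv.2
    rw [Set.Finite.mem_toFinset]
    exact Set.mem_iUnion.mpr ⟨l, Set.mem_iUnion.mpr ⟨m, hlm, hne⟩⟩

/-- The truncated sum controls the total mass of the support. -/
lemma trunc_ge [NeZero q] (α : Fin q → K × K) (bad : Finset (HeightOneSpectrum (𝓞 K)))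
    (S : Set (HeightOneSpectrum (𝓞 K))) (hSb : ∀ v ∈ S, v ∈ bad)
    {x : K × K} (hx : ∀ l, wedge x (α l) ≠ 0) :
    ∑ v ∈ suppF α bad x, lnv v ≤ (Module.finrank ℚ K : ℝ) * trunc S α x := by
  classical
  have hd : (0:ℝ) < Module.finrank ℚ K := by exact_mod_cast finrank_pos'
  set g : HeightOneSpectrum (𝓞 K) → ℝ := fun v =>
    ∑ᶠ (_ : v ∉ S), ∑ l : Fin q, min (lamf v (α l) x / (Module.finrank ℚ K : ℝ))
      (Real.log (nv v) / (Module.finrank ℚ K : ℝ)) with hg
  have htr : trunc S α x = ∑ᶠ v, g v := rfl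
  have hterm : ∀ v, ∀ l, 0 ≤ min (lamf v (α l) x / (Module.finrank ℚ K : ℝ))
      (Real.log (nv v) / (Module.finrank ℚ K : ℝ)) := by
    intro v l
    apply le_min
    · exact div_nonneg (lamf_nonneg v (hx l)) hd.le
    · exact div_nonneg (log_nv_pos v).le hd.le
  have hg0 : ∀ v, 0 ≤ g v := by
    intro v
    by_cases hv : v ∈ S
    · have : g v = 0 := by
        simp only [hg]
        rw [finsum_eq_if, if_neg (not_not.mpr hv)]
      rw [this]
    · have : g v = ∑ l : Fin q, min (lamf v (α l) x / (Module.finrank ℚ K : ℝ))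
          (Real.log (nv v) / (Module.finrank ℚ K : ℝ)) := by
        simp only [hg]
        rw [finsum_eq_if, if_pos hv]
      rw [this]
      exact Finset.sum_nonneg fun l _ => hterm v l
  have hgsupp : (Function.support g) ⊆ ((bad ∪ suppF α bad x : Finset _) : Set _) := by
    intro v hv
    rw [Function.mem_support] at hv
    by_contra hc
    rw [Finset.mem_coe, Finset.mem_union] at hc
    push Not at hc
    apply hv
    simp only [hg]
    rw [finsum_eq_if]
    split_ifs with hvS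
    · rfl
    apply Finset.sum_eq_zero
    intro l _
    rw [lamf_eq v (hx l), ef_eq_zero_of_not_mem hx hc.1 hc.2 l]
    have := (log_nv_pos v).le
    simp only [Nat.cast_zero, zero_mul, zero_div]
    exact min_eq_left (div_nonneg this hd.le)
  have hge : ∀ v ∈ suppF α bad x, lnv v / (Module.finrank ℚ K : ℝ) ≤ g v := by
    intro v hv
    have hvb := ((mem_suppF hx v).mp hv).1
    have hvS : v ∉ S := fun h => hvb (hSb v h)
    have : g v = ∑ l : Fin q, min (lamf v (α l) x / (Module.finrank ℚ K : ℝ))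
          (Real.log (nv v) / (Module.finrank ℚ K : ℝ)) := by
      simp only [hg]
      rw [finsum_eq_if, if_pos hvS]
    rw [this]
    have h1 := lab_spec hx hv
    have h2 : lnv v / (Module.finrank ℚ K : ℝ) ≤
        min (lamf v (α (labF α x v)) x / (Module.finrank ℚ K : ℝ))
          (Real.log (nv v) / (Module.finrank ℚ K : ℝ)) := by
      apply le_min
      · rw [lamf_eq v (hx _)]
        apply div_le_div_of_nonneg_right _ hd.le
        have h3 : (1:ℝ) ≤ (ef v (α (labF α x v)) x : ℝ) := by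
          exact_mod_cast Nat.one_le_iff_ne_zero.mpr h1
        have h4 := log_nv_pos v
        unfold lnv
        nlinarith
      · exact le_rfl
    exact h2.trans (Finset.single_le_sum (f := fun l =>
      min (lamf v (α l) x / (Module.finrank ℚ K : ℝ))
          (Real.log (nv v) / (Module.finrank ℚ K : ℝ))) (fun l _ => hterm v l)
          (Finset.mem_univ _))
  rw [htr, finsum_eq_sum_of_support_subset _ hgsupp]
  have h5 : ∑ v ∈ suppF α bad x, lnv v / (Module.finrank ℚ K : ℝ) ≤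
      ∑ v ∈ bad ∪ suppF α bad x, g v :=
    (Finset.sum_le_sum hge).trans
      (Finset.sum_le_sum_of_subset_of_nonneg Finset.subset_union_right fun v _ _ => hg0 v)
  rw [← Finset.sum_div, div_le_iff₀ hd] at h5
  linarith

/-- The combinatorial input. -/
def CombBound (q : ℕ) (D θ : ℝ) (N : ℕ) : Prop :=
  ∃ C : ℝ, 0 < C ∧ ∀ {ι : Type u} (P : Finset ι) (lab : ι → Fin q) (e : ι → ℕ)
    (b : ι → ℝ) (I : Fin q → ℝ) (H K : ℝ), 0 ≤ H → 0 < K → (∀ v ∈ P, 1 ≤ e v ∧ 0 < b v) →
    (∀ l, 0 ≤ I l) →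
    (∀ l, |∑ v ∈ P.filter (fun v => lab v = l), (e v : ℝ) * b v + I l - H| ≤ K) →
    ∑ v ∈ P, b v ≤ (q - D) * H + K →
    HasTool P lab e b I N (θ * H + C * K)

open Classical in
theorem counting [NeZero q] (D θ : ℝ) (hθ : 0 ≤ θ) (N : ℕ) (hcomb : CombBound.{u} q D θ N)
    (S : Set (HeightOneSpectrum (𝓞 K))) (hS : S.Finite)
    (α : Fin q → K × K) (hα : ∀ l m, l ≠ m → wedge (α l) (α m) ≠ 0)
    (c₀ η : ℝ) (hη : 0 < η) :
    ∃ C : ℝ, ∀ B : ℝ, 1 ≤ B → ∀ X : Finset (K × K),
      (∀ x ∈ X, ∀ l, wedge x (α l) ≠ 0) →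
      (∀ x ∈ X, ∀ y ∈ X, x ≠ y → wedge x y ≠ 0) →
      (∀ x ∈ X, Real.exp (ht x) ≤ B) →
      (∀ x ∈ X, trunc S α x ≤ ((q:ℝ) - D) * ht x + c₀) →
      (X.card : ℝ) ≤ C * B ^ (θ * (Module.finrank ℚ K : ℝ) + η) := by
  have hd : (0:ℝ) < Module.finrank ℚ K := by exact_mod_cast finrank_pos'
  set d : ℝ := (Module.finrank ℚ K : ℝ) with hdd
  obtain ⟨bad, hSb, hbad⟩ := exists_bad α hα S hS
  obtain ⟨C₁, hC₁, hC⟩ := hcomb
  have hmas := fun (n : ℕ) (i j : Fin q) (h : 1 ≤ n ∧ i ≠ j) =>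
    master α hα bad hbad n h.1 i j h.2 (η / d) (by positivity)
  choose Cm hCm hmas using hmas
  set K₀ : ℝ := ∑ l, (|hh (α l)| + d) with hK₀
  have hK₀0 : 0 ≤ K₀ := by positivity
  have hKl : ∀ l, |hh (α l)| + d ≤ K₀ := fun l =>
    Finset.single_le_sum (f := fun l => |hh (α l)| + d)
      (fun l _ => by positivity) (Finset.mem_univ l)
  set K₁ : ℝ := K₀ + d * |c₀| + 1 with hK₁
  have hK₁0 : 0 < K₁ := by positivity
  set J : Finset (ℕ × Fin q × Fin q) := Finset.range (N + 1) ×ˢ Finset.univ with hJ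
  set Cf : ℕ × Fin q × Fin q → ℝ := fun p =>
    if h : 1 ≤ p.1 ∧ p.2.1 ≠ p.2.2 then Cm p.1 p.2.1 p.2.2 h else 0 with hCf
  have hCf0 : ∀ p, 0 ≤ Cf p := by
    intro p
    simp only [hCf]
    split_ifs with h
    · exact (hCm _ _ _ h).le
    · exact le_rfl
  refine ⟨(∑ p ∈ J, Cf p) * Real.exp (C₁ * K₁), ?_⟩
  intro B hB X hX hXX hH hN
  have hB0 : 0 < B := by linarith
  set β : ℝ := d * Real.log B with hβ
  have hβ0 : 0 ≤ β := mul_nonneg hd.le (Real.log_nonneg hB)
  have hhβ : ∀ x ∈ X, hh x ≤ β := by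
    intro x hx
    have h1 := hH x hx
    rw [← Real.le_log_iff_exp_le hB0, ht_eq, div_le_iff₀ hd] at h1
    rw [hβ]
    linarith
  -- tools
  have htool : ∀ x ∈ X, HasTool (suppF α bad x) (labF α x) (expF α x) lnv (idxF α bad x) N
      (θ * hh x + C₁ * K₁) := by
    intro x hx
    apply hC _ _ _ _ _ _ _ (hh_nonneg (wedge_left_ne (hX x hx 0))) hK₁0
    · intro v hv
      exact ⟨exp_pos_of_mem (hX x hx) hv, lnv_pos v⟩
    · exact idxF_nonneg α bad x
    · intro l
      refine (config_fmt hα hbad (hX x hx) l).trans ?_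
      have h1 := hKl l
      have h2 : 0 ≤ d * |c₀| := by positivity
      rw [hK₁]
      linarith
    · have h1 := trunc_ge α bad S hSb (hX x hx)
      have h2 := hN x hx
      have h3 : d * trunc S α x ≤ d * (((q:ℝ) - D) * ht x + c₀) :=
        mul_le_mul_of_nonneg_left h2 hd.le
      have h4 : d * (((q:ℝ) - D) * ht x + c₀) = ((q:ℝ) - D) * hh x + d * c₀ := by
        rw [ht_eq, ← hdd]
        field_simp
      have h5 : d * c₀ ≤ d * |c₀| := mul_le_mul_of_nonneg_left (le_abs_self _) hd.le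
      rw [hK₁]
      linarith
  set Xp : ℕ × Fin q × Fin q → Finset (K × K) := fun p => X.filter fun x =>
    (1 ≤ p.1 ∧ p.2.1 ≠ p.2.2) ∧ ∃ W : Finset (HeightOneSpectrum (𝓞 K)), W ⊆ suppF α bad x ∧
      (∀ v ∈ suppF α bad x, v ∉ W → (labF α x v = p.2.1 ∨ labF α x v = p.2.2) →
        p.1 ∣ expF α x v) ∧
      toolCost (suppF α bad x) (labF α x) (expF α x) lnv (idxF α bad x) p.1 p.2.1 p.2.2 W ≤
        θ * β + C₁ * K₁ with hXp
  have hcover : X ⊆ J.biUnion Xp := by
    intro x hx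
    obtain ⟨n, hn1, hnN, i, j, hij, W, hWs, hWd, hWc⟩ := htool x hx
    rw [Finset.mem_biUnion]
    refine ⟨(n, i, j), ?_, ?_⟩
    · rw [hJ, Finset.mem_product]
      exact ⟨Finset.mem_range.mpr (by omega), Finset.mem_univ _⟩
    · rw [hXp, Finset.mem_filter]
      refine ⟨hx, ⟨hn1, hij⟩, W, hWs, hWd, hWc.trans ?_⟩
      have := mul_le_mul_of_nonneg_left (hhβ x hx) hθ
      linarith
  have hpart : ∀ p ∈ J, ((Xp p).card : ℝ) ≤
      Cf p * Real.exp (θ * β + C₁ * K₁ + η / d * β) := by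
    intro p _
    by_cases hp : 1 ≤ p.1 ∧ p.2.1 ≠ p.2.2
    · simp only [hCf]
      rw [dif_pos hp]
      refine hmas p.1 p.2.1 p.2.2 hp β _ (Xp p) ?_ ?_ ?_ ?_
      · intro x hx
        exact hX x (Finset.mem_filter.mp hx).1
      · intro x hx y hy
        exact hXX x (Finset.mem_filter.mp hx).1 y (Finset.mem_filter.mp hy).1
      · intro x hx
        exact hhβ x (Finset.mem_filter.mp hx).1
      · intro x hx
        exact (Finset.mem_filter.mp hx).2.2
    · have : Xp p = ∅ := by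
        rw [hXp, Finset.filter_eq_empty_iff]
        intro x _ h
        exact hp h.1
      rw [this, Finset.card_empty, Nat.cast_zero]
      exact mul_nonneg (hCf0 p) (Real.exp_pos _).le
  have hexp : Real.exp (θ * β + C₁ * K₁ + η / d * β) =
      Real.exp (C₁ * K₁) * B ^ (θ * d + η) := by
    rw [Real.rpow_def_of_pos hB0, ← Real.exp_add]
    congr 1
    rw [hβ]
    field_simp
    ring
  calc (X.card : ℝ) ≤ ((J.biUnion Xp).card : ℝ) := by
        exact_mod_cast Finset.card_le_card hcover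
    _ ≤ ((∑ p ∈ J, (Xp p).card : ℕ) : ℝ) := by
        exact_mod_cast Finset.card_biUnion_le
    _ = ∑ p ∈ J, ((Xp p).card : ℝ) := by push_cast; rfl
    _ ≤ ∑ p ∈ J, Cf p * Real.exp (θ * β + C₁ * K₁ + η / d * β) := Finset.sum_le_sum hpart
    _ = _ := by
        rw [← Finset.sum_mul, hexp]
        ring

end Pool.Agent.Lib.MP_4d5ce1_nt
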