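import Pool.Agent.Lib.MP_4d5ce1_nt.BTrB
import Pool.Agent.Lib.MP_4d5ce1_nt.BY
import Pool.Agent.Lib.MP_4d5ce1_nt.BStmt
import Pool.Agent.Lib.MP_4d5ce1_nt.Count

section

set_option autoImplicit false
set_option linter.unusedSectionVars false

open NumberField IsDedekindDomain

namespace Pool.Agent.Lib.MP_4d5ce1_nt

variable {K : Type*} [Field K] [NumberField K]

/-- Primes of the blocks `A` of the forms `≠ k`. -/
noncomputable def aset (E : ℕ) (α : Fin 3 → K × K) (bad : Finset (HeightOneSpectrum (𝓞 K)))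
    (k : Fin 3) (A : Fin 3 → ℕ → Bool) (x : K × K) : Finset (HeightOneSpectrum (𝓞 K)) :=
  (suppF α bad x).filter
    (fun v => labF α x v ≠ k ∧ A (labF α x v) (blk E (expF α x v)) = true)

/-- Primes of the blocks `T` of the form `k`. -/
noncomputable def tset (E : ℕ) (α : Fin 3 → K × K) (bad : Finset (HeightOneSpectrum (𝓞 K)))
    (k : Fin 3) (T : ℕ → Bool) (x : K × K) : Finset (HeightOneSpectrum (𝓞 K)) :=
  (suppF α bad x).filter
    (fun v => labF α x v = k ∧ T (blk E (expF α x v)) = true)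

lemma mem_aset {E : ℕ} {α : Fin 3 → K × K} {bad : Finset (HeightOneSpectrum (𝓞 K))}
    {k : Fin 3} {A : Fin 3 → ℕ → Bool} {x : K × K} {v : HeightOneSpectrum (𝓞 K)} :
    v ∈ aset E α bad k A x ↔ v ∈ suppF α bad x ∧ labF α x v ≠ k ∧
      A (labF α x v) (blk E (expF α x v)) = true := by
  unfold aset; rw [Finset.mem_filter]

lemma mem_tset {E : ℕ} {α : Fin 3 → K × K} {bad : Finset (HeightOneSpectrum (𝓞 K))}
    {k : Fin 3} {T : ℕ → Bool} {x : K × K} {v : HeightOneSpectrum (𝓞 K)} :
    v ∈ tset E α bad k T x ↔ v ∈ suppF α bad x ∧ labF α x v = k ∧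
      T (blk E (expF α x v)) = true := by
  unfold tset; rw [Finset.mem_filter]

open Classical in
/-- Equality of codes. -/
lemma cd_eq {α : Fin 3 → K × K} {bad : Finset (HeightOneSpectrum (𝓞 K))}
    {R : K × K → Finset (HeightOneSpectrum (𝓞 K))} {x x' : K × K}
    (hx : ∀ l, wedge x (α l) ≠ 0) (hx' : ∀ l, wedge x' (α l) ≠ 0)
    (hR : R x ⊆ suppF α bad x) (hR' : R x' ⊆ suppF α bad x')
    (h : cd α bad R x = cd α bad R x') :
    key1 α bad x = key1 α bad x' ∧ R x = R x' ∧
      ∀ v ∈ R x, labF α x v = labF α x' v ∧ expF α x v = expF α x' v := by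
  have h1 : key1 α bad x = key1 α bad x' := congrArg Prod.fst h
  have h2 : kap α x (R x) = kap α x' (R x') := congrArg Prod.snd h
  have h3 : R x = R x' := by
    rw [← kap_support α x (R x), h2, kap_support]
  refine ⟨h1, h3, ?_⟩
  intro v hv
  have hv' : v ∈ R x' := h3 ▸ hv
  constructor
  · rw [← kap_lab α x (R x) hv, h2, kap_lab α x' (R x') hv']
  · rw [← kap_exp α x (R x) hv (exp_pos_of_mem hx (hR hv)), h2,
      kap_exp α x' (R x') hv' (exp_pos_of_mem hx' (hR' hv'))]

open Classical in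
lemma pair_PD {E : ℕ} (hE : 2 ≤ E) (α : Fin 3 → K × K)
    (hα : ∀ l m, l ≠ m → wedge (α l) (α m) ≠ 0)
    (bad : Finset (HeightOneSpectrum (𝓞 K))) (hbad : GoodOff α bad) {i j k : Fin 3}
    (hij : i ≠ j) (hik : i ≠ k) (hjk : j ≠ k) :
    ∃ C : ℝ, 0 < C ∧ ∀ (A A' : Fin 3 → ℕ → Bool) (T : ℕ → Bool),
      (∀ l b, A' l b = !(A l b)) → ∀ (x x' : K × K),
      (∀ l, wedge x (α l) ≠ 0) → (∀ l, wedge x' (α l) ≠ 0) → wedge x x' ≠ 0 →
      cd α bad (fun x => aset E α bad k A' x ∪ tset E α bad k T x) x =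
        cd α bad (fun x => aset E α bad k A' x ∪ tset E α bad k T x) x' →
      PD E k i j A T lnv (suppF α bad x) (suppF α bad x') (labF α x) (labF α x')
        (expF α x) (expF α x') (idxF α bad x) (idxF α bad x')
        (comm α (aset E α bad k A) x x') (tset E α bad k T x)
        (suppF (al3 K) bad (yy α i j x x')) (labF (al3 K) (yy α i j x x'))
        (expF (al3 K) (yy α i j x x')) (idxF (al3 K) bad (yy α i j x x')) C := by
  obtain ⟨C₀, hC₀, hglob⟩ := yy_global α hα bad hbad i j hij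
  set C₁ : ℝ := |hh (al3 K 0)| + |hh (al3 K 2)| + 2 * Module.finrank ℚ K with hC₁
  have hC₁0 : 0 ≤ C₁ := by positivity
  refine ⟨3 * C₀ + C₁, by positivity, ?_⟩
  intro A A' T hAA' x x' hx hx' hxx hcd
  set y := yy α i j x x' with hy
  have hyw : ∀ l, wedge y (al3 K l) ≠ 0 := yy_wedge α i j (hα i j hij) hx hx' hxx
  have h3w : ∀ l m : Fin 3, l ≠ m → wedge (al3 K l) (al3 K m) ≠ 0 := al3_wedge
  have h3b : GoodOff (al3 K) bad := al3_good bad
  obtain ⟨hkey, hsets, hval⟩ := cd_eq hx hx'
    (by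
      intro v hv
      rcases Finset.mem_union.mp hv with h | h
      · exact (mem_aset.mp h).1
      · exact (mem_tset.mp h).1)
    (by
      intro v hv
      rcases Finset.mem_union.mp hv with h | h
      · exact (mem_aset.mp h).1
      · exact (mem_tset.mp h).1) hcd
  set G := comm α (aset E α bad k A) x x' with hG
  have hGmem : ∀ v, v ∈ G ↔ (v ∈ aset E α bad k A x ∧ v ∈ aset E α bad k A x') ∧
      labF α x v = labF α x' v ∧ expF α x v = expF α x' v := by
    intro v
    rw [hG]
    unfold comm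
    rw [Finset.mem_filter, Finset.mem_inter]
  obtain ⟨hg1, hg2, hg3, hg4⟩ := hglob x x' hx hx' hxx hkey
  have hidx : ∑ l ∈ Finset.univ.filter (fun l : Fin 3 => l ≠ i ∧ l ≠ j), idxF α bad x l =
      idxF α bad x k := by
    have : Finset.univ.filter (fun l : Fin 3 => l ≠ i ∧ l ≠ j) = {k} := by
      ext l
      simp only [Finset.mem_filter, Finset.mem_univ, true_and, Finset.mem_singleton]
      exact ne_and_iff hij hik hjk l
    rw [this, Finset.sum_singleton]
  rw [hidx] at hg4
  -- local structure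
  have hloc : ∀ v, v ∉ bad →
      (∀ l, ef v (α l) x = ef v (α l) x') ∨
      ((∀ l, l ≠ k → ef v (α l) x = if v ∈ ax E k A (suppF α bad x) (labF α x) (expF α x) G ∧
          labF α x v = l then expF α x v else 0) ∧
       (∀ l, l ≠ k → ef v (α l) x' =
        if v ∈ ax E k A (suppF α bad x') (labF α x') (expF α x') G ∧
          labF α x' v = l then expF α x' v else 0)) := by
    intro v hvb
    by_cases h1 : v ∈ aset E α bad k A' x ∪ tset E α bad k T x
    · left
      have h1' : v ∈ aset E α bad k A' x' ∪ tset E α bad k T x' := by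
        rw [← hsets]; exact h1
      have hs : v ∈ suppF α bad x := by
        rcases Finset.mem_union.mp h1 with h | h
        · exact (mem_aset.mp h).1
        · exact (mem_tset.mp h).1
      have hs' : v ∈ suppF α bad x' := by
        rcases Finset.mem_union.mp h1' with h | h
        · exact (mem_aset.mp h).1
        · exact (mem_tset.mp h).1
      obtain ⟨h2, h3⟩ := hval v h1
      intro l
      rw [ef_eq_ite hα hbad hx hs, ef_eq_ite hα hbad hx' hs', h2, h3]
    by_cases h2 : v ∈ G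
    · left
      obtain ⟨⟨h3, h4⟩, h5, h6⟩ := (hGmem v).mp h2
      intro l
      rw [ef_eq_ite hα hbad hx (mem_aset.mp h3).1, ef_eq_ite hα hbad hx' (mem_aset.mp h4).1,
        h5, h6]
    right
    have h1' : v ∉ aset E α bad k A' x' ∪ tset E α bad k T x' := by
      rw [← hsets]; exact h1
    constructor
    · intro l hl
      rw [ef_eq_ite' hα hbad hx hvb l]
      congr 1
      apply propext
      rw [mem_ax]
      constructor
      · rintro ⟨h3, h4⟩
        refine ⟨⟨⟨h3, by rw [h4]; exact hl, ?_⟩, h2⟩, h4⟩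
        by_contra h5
        apply h1
        rw [Finset.mem_union, mem_aset]
        left
        refine ⟨h3, by rw [h4]; exact hl, ?_⟩
        rw [hAA']
        simpa using h5
      · rintro ⟨⟨⟨h3, _⟩, _⟩, h4⟩
        exact ⟨h3, h4⟩
    · intro l hl
      rw [ef_eq_ite' hα hbad hx' hvb l]
      congr 1
      apply propext
      rw [mem_ax]
      constructor
      · rintro ⟨h3, h4⟩
        refine ⟨⟨⟨h3, by rw [h4]; exact hl, ?_⟩, h2⟩, h4⟩
        by_contra h5
        apply h1'
        rw [Finset.mem_union, mem_aset]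
        left
        refine ⟨h3, by rw [h4]; exact hl, ?_⟩
        rw [hAA']
        simpa using h5
      · rintro ⟨⟨⟨h3, _⟩, _⟩, h4⟩
        exact ⟨h3, h4⟩
  -- exponents of `y`
  have hexp0 : ∀ v, labF (al3 K) y v = 0 → expF (al3 K) y v =
      ((ef v (α i) x + ef v (α j) x') - (ef v (α j) x + ef v (α i) x') : ℕ) := by
    intro v hv
    unfold expF
    rw [hv]
    exact (yy_ef01 α i j hij v hx hx').1
  have hexp1 : ∀ v, labF (al3 K) y v = 1 → expF (al3 K) y v =
      ((ef v (α j) x + ef v (α i) x') - (ef v (α i) x + ef v (α j) x') : ℕ) := by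
    intro v hv
    unfold expF
    rw [hv]
    exact (yy_ef01 α i j hij v hx hx').2
  have hT : ∀ v ∈ tset E α bad k T x, v ∈ suppF (al3 K) bad y ∧ labF (al3 K) y v = 2 ∧
      expF α x v ≤ expF (al3 K) y v := by
    intro v hv
    have h1 := mem_tset.mp hv
    have hvb : v ∉ bad := ((mem_suppF hx v).mp h1.1).1
    have h2 := hval v (Finset.mem_union_right _ hv)
    have h3 : v ∈ aset E α bad k A' x' ∪ tset E α bad k T x' := by
      rw [← hsets]; exact Finset.mem_union_right _ hv
    have h4 : v ∈ suppF α bad x' := by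
      rcases Finset.mem_union.mp h3 with h | h
      · exact (mem_aset.mp h).1
      · exact (mem_tset.mp h).1
    have h5 : min (ef v (α k) x) (ef v (α k) x') ≤ ef v (al3 K 2) y :=
      yy_ef2 α i j hij v hα hbad hvb hx hx' hxx k hik.symm hjk.symm
    rw [ef_eq_ite hα hbad hx h1.1, if_pos h1.2.1, ef_eq_ite hα hbad hx' h4,
      if_pos (h2.1 ▸ h1.2.1), ← h2.2, min_self] at h5
    have h6 := exp_pos_of_mem hx h1.1
    have h7 : v ∈ suppF (al3 K) bad y :=
      (mem_suppF hyw v).mpr ⟨hvb, 2, by omega⟩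
    rw [ef_eq_ite h3w h3b hyw h7] at h5
    by_cases h8 : labF (al3 K) y v = 2
    · rw [if_pos h8] at h5
      exact ⟨h7, h8, h5⟩
    · rw [if_neg h8] at h5
      omega
  constructor
  · exact hE
  · exact hij
  · exact hik
  · exact hjk
  · exact fun v => (lnv_pos v).le
  · exact fun v hv => exp_pos_of_mem hx hv
  · exact fun v hv => exp_pos_of_mem hx' hv
  · exact idxF_nonneg α bad x
  · exact idxF_nonneg α bad x'
  · intro v hv
    obtain ⟨⟨h1, h2⟩, h3, h4⟩ := (hGmem v).mp hv
    exact ⟨(mem_aset.mp h1).1, (mem_aset.mp h2).1, (mem_aset.mp h1).2.1, (mem_aset.mp h1).2.2,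
      h3.symm, h4.symm⟩
  · rfl
  · -- divisibility
    intro v hv hl n hn hn'
    have hvb : v ∉ bad := ((mem_suppF hyw v).mp hv).1
    rcases hloc v hvb with h | ⟨h, h'⟩
    · have : expF (al3 K) y v = 0 := by
        rcases hl with hl | hl
        · rw [hexp0 v hl, h, h]; omega
        · rw [hexp1 v hl, h, h]; omega
      rw [this]; exact dvd_zero _
    · have d1 : ∀ l, l ≠ k → n ∣ ef v (α l) x := by
        intro l hl
        rw [h l hl]
        split_ifs with h1
        · exact hn h1.1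
        · exact dvd_zero _
      have d2 : ∀ l, l ≠ k → n ∣ ef v (α l) x' := by
        intro l hl
        rw [h' l hl]
        split_ifs with h1
        · exact hn' h1.1
        · exact dvd_zero _
      rcases hl with hl | hl
      · rw [hexp0 v hl]
        exact Nat.dvd_sub (dvd_add (d1 i hik) (d2 j hjk)) (dvd_add (d1 j hjk) (d2 i hik))
      · rw [hexp1 v hl]
        exact Nat.dvd_sub (dvd_add (d1 j hjk) (d2 i hik)) (dvd_add (d1 i hik) (d2 j hjk))
  · -- size
    intro v hv hl
    have hvb : v ∉ bad := ((mem_suppF hyw v).mp hv).1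
    have hcast : ∀ a b : ℕ, ∀ (p q : Prop) [Decidable p] [Decidable q], expF (al3 K) y v ≤ (if p then a else 0) +
        (if q then b else 0) → (expF (al3 K) y v : ℝ) ≤ (if p then (a:ℝ) else 0) +
        (if q then (b:ℝ) else 0) := by
      intro a b p q _ _ h
      have h2 : ((expF (al3 K) y v : ℕ) : ℝ) ≤ (((if p then a else 0) +
        (if q then b else 0) : ℕ) : ℝ) := by exact_mod_cast h
      push_cast at h2
      exact h2
    apply hcast
    rcases hloc v hvb with h | ⟨h, h'⟩
    · have : expF (al3 K) y v = 0 := by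
        rcases hl with hl | hl
        · rw [hexp0 v hl, h, h]; omega
        · rw [hexp1 v hl, h, h]; omega
      omega
    · have d1 : ∀ l, l ≠ k → ef v (α l) x ≤
          if v ∈ ax E k A (suppF α bad x) (labF α x) (expF α x) G then expF α x v else 0 := by
        intro l hl
        rw [h l hl]
        split_ifs with h1 h2 h3
        · exact le_rfl
        · exact absurd h1.1 h2
        · exact Nat.zero_le _
        · exact le_rfl
      have d2 : ∀ l, l ≠ k → ef v (α l) x' ≤
          if v ∈ ax E k A (suppF α bad x') (labF α x') (expF α x') G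
            then expF α x' v else 0 := by
        intro l hl
        rw [h' l hl]
        split_ifs with h1 h2 h3
        · exact le_rfl
        · exact absurd h1.1 h2
        · exact Nat.zero_le _
        · exact le_rfl
      have e1 := d1 i hik
      have e2 := d1 j hjk
      have e3 := d2 i hik
      have e4 := d2 j hjk
      rcases hl with hl | hl
      · rw [hexp0 v hl]; omega
      · rw [hexp1 v hl]; omega
  · exact hT
  · have : 0 ≤ 2 * C₀ + C₁ := by positivity
    linarith
  · positivity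
  · -- the height inequality
    have f0 := abs_le.mp (config_fmt h3w h3b hyw 0)
    have f2 := abs_le.mp (config_fmt h3w h3b hyw 2)
    have s2 : ∑ v ∈ tset E α bad k T x, (expF α x v : ℝ) * lnv v ≤
        ∑ v ∈ (suppF (al3 K) bad y).filter (fun v => labF (al3 K) y v = 2),
          (expF (al3 K) y v : ℝ) * lnv v := by
      calc ∑ v ∈ tset E α bad k T x, (expF α x v : ℝ) * lnv v
          ≤ ∑ v ∈ tset E α bad k T x, (expF (al3 K) y v : ℝ) * lnv v := by
            refine Finset.sum_le_sum fun v hv => ?_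
            apply mul_le_mul_of_nonneg_right _ (lnv_pos v).le
            exact_mod_cast (hT v hv).2.2
        _ ≤ _ := by
            apply Finset.sum_le_sum_of_subset_of_nonneg
            · intro v hv
              rw [Finset.mem_filter]
              exact ⟨(hT v hv).1, (hT v hv).2.1⟩
            · intro v _ _
              exact mul_nonneg (Nat.cast_nonneg _) (lnv_pos v).le
    have s0 : ∑ v ∈ (suppF (al3 K) bad y).filter (fun v => labF (al3 K) y v = 0),
          (expF (al3 K) y v : ℝ) * lnv v ≤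
        ∑ v ∈ (ax E k A (suppF α bad x) (labF α x) (expF α x) G).filter
            (fun v => labF α x v = i), (expF α x v : ℝ) * lnv v +
        ∑ v ∈ (ax E k A (suppF α bad x') (labF α x') (expF α x') G).filter
            (fun v => labF α x' v = j), (expF α x' v : ℝ) * lnv v := by
      have t1 : ∀ v ∈ (suppF (al3 K) bad y).filter (fun v => labF (al3 K) y v = 0),
          (expF (al3 K) y v : ℝ) * lnv v ≤
          (if v ∈ (ax E k A (suppF α bad x) (labF α x) (expF α x) G).filter
            (fun v => labF α x v = i) then (expF α x v : ℝ) * lnv v else 0) +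
          (if v ∈ (ax E k A (suppF α bad x') (labF α x') (expF α x') G).filter
            (fun v => labF α x' v = j) then (expF α x' v : ℝ) * lnv v else 0) := by
        intro v hv
        obtain ⟨hv1, hv2⟩ := Finset.mem_filter.mp hv
        have hvb : v ∉ bad := ((mem_suppF hyw v).mp hv1).1
        have hn := (lnv_pos v).le
        rcases hloc v hvb with h | ⟨h, h'⟩
        · have h1 : expF (al3 K) y v = 0 := by rw [hexp0 v hv2, h, h]; omega
          rw [h1]
          have a1 : 0 ≤ (expF α x v : ℝ) * lnv v := by positivity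
          have a2 : 0 ≤ (expF α x' v : ℝ) * lnv v := by positivity
          simp only [Nat.cast_zero, zero_mul]
          split_ifs <;> linarith
        · have h1 : expF (al3 K) y v ≤ ef v (α i) x + ef v (α j) x' := by
            rw [hexp0 v hv2]; omega
          have h2 : (expF (al3 K) y v : ℝ) ≤ (ef v (α i) x : ℝ) + (ef v (α j) x' : ℝ) := by
            exact_mod_cast h1
          refine (mul_le_mul_of_nonneg_right h2 hn).trans (le_of_eq ?_)
          rw [add_mul, h i hik, h' j hjk]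
          simp only [Finset.mem_filter]
          congr 1
          · split_ifs <;> simp
          · split_ifs <;> simp
      refine (Finset.sum_le_sum t1).trans ?_
      rw [Finset.sum_add_distrib]
      apply add_le_add
      · rw [← Finset.sum_filter]
        apply Finset.sum_le_sum_of_subset_of_nonneg
        · intro v hv
          exact (Finset.mem_filter.mp hv).2
        · intro v _ _
          exact mul_nonneg (Nat.cast_nonneg _) (lnv_pos v).le
      · rw [← Finset.sum_filter]
        apply Finset.sum_le_sum_of_subset_of_nonneg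
        · intro v hv
          exact (Finset.mem_filter.mp hv).2
        · intro v _ _
          exact mul_nonneg (Nat.cast_nonneg _) (lnv_pos v).le
    rw [hC₁]
    linarith [f0.1, f0.2, f2.1, f2.2]

end Pool.Agent.Lib.MP_4d5ce1_nt
end

section

set_option autoImplicit false
set_option linter.unusedSectionVars false

open NumberField IsDedekindDomain

namespace Pool.Agent.Lib.MP_4d5ce1_nt

variable {K : Type*} [Field K] [NumberField K]

/-- The configuration of a point at scale `r`. -/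
noncomputable def qc (E : ℕ) (α : Fin 3 → K × K) (bad : Finset (HeightOneSpectrum (𝓞 K)))
    (r : ℝ) (x : K × K) : Cfg :=
  cf E r (suppF α bad x) (labF α x) (expF α x) lnv (idxF α bad x)

lemma Close.trans {E : ℕ} {δ δ' : ℝ} {p q s : Cfg} (h : Close E δ p q) (h' : Close E δ' q s) :
    Close E (δ + δ') p s := by
  constructor
  · intro l b hb
    have h1 := h.1 l b hb
    have h2 := h'.1 l b hb
    calc |p.S l b - s.S l b| = |(p.S l b - q.S l b) + (q.S l b - s.S l b)| := by ring_nf
      _ ≤ _ := (abs_add_le _ _).trans (add_le_add h1 h2)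
  · intro l
    have h1 := h.2 l
    have h2 := h'.2 l
    calc |p.J l - s.J l| = |(p.J l - q.J l) + (q.J l - s.J l)| := by ring_nf
      _ ≤ _ := (abs_add_le _ _).trans (add_le_add h1 h2)

/-- Total index of a form. -/
lemma sum_I_eq {E : ℕ} (hE : 2 ≤ E) {ι : Type*} {r : ℝ} (hr : 0 < r) (P : Finset ι)
    (lab : ι → Fin 3) (e : ι → ℕ) (w : ι → ℝ) (he : ∀ v ∈ P, 1 ≤ e v) (I : Fin 3 → ℝ)
    (l : Fin 3) :
    r * ∑ b ∈ Finset.range E, (cf E r P lab e w I).I E l b =
      ∑ v ∈ P.filter (fun v => lab v = l), (e v : ℝ) * w v + I l := by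
  rw [Finset.mul_sum, Finset.sum_congr rfl fun b _ => cf_I hE hr P lab e w he I l b,
    Finset.sum_add_distrib]
  congr 1
  · have h := sum_blocks_eq hE P lab e (fun v => (e v : ℝ) * w v) l (fun _ => True)
    simp only [and_true, if_true] at h
    exact h.symm
  · rw [Finset.sum_eq_single (E - 1)]
    · rw [if_pos (by omega)]
    · intro b hb hb'
      have := Finset.mem_range.mp hb
      rw [if_neg (by omega)]
    · intro h
      exact absurd (Finset.mem_range.mpr (by omega)) h

/-- Total size. -/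
lemma sum_S_eq {E : ℕ} (hE : 2 ≤ E) {ι : Type*} {r : ℝ} (hr : 0 < r) (P : Finset ι)
    (lab : ι → Fin 3) (e : ι → ℕ) (w : ι → ℝ) (I : Fin 3 → ℝ) :
    r * ∑ l, ∑ b ∈ Finset.range E, (cf E r P lab e w I).S l b = ∑ v ∈ P, w v := by
  have h := sum_blocks hE P lab e w (fun _ _ => True)
  simp only [Finset.filter_true, if_true] at h
  rw [h, Finset.mul_sum]
  refine Finset.sum_congr rfl fun l _ => ?_
  rw [Finset.mul_sum]
  exact Finset.sum_congr rfl fun b _ => cf_S E hr P lab e w I l b

/-- The normalised configuration. -/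
noncomputable def nc (E : ℕ) (q : Cfg) : Cfg where
  S := fun l b => q.S l b - (if b = 0 then (∑ c ∈ Finset.range E, q.I E l c) - 1 else 0)
  J := q.J

lemma nc_I {E : ℕ} (hE : 2 ≤ E) (q : Cfg) (l : Fin 3) (b : ℕ) :
    (nc E q).I E l b = q.I E l b -
      (if b = 0 then (∑ c ∈ Finset.range E, q.I E l c) - 1 else 0) := by
  unfold Cfg.I
  by_cases h : b + 1 = E
  · rw [if_pos h, if_pos h, if_neg (by omega)]
    simp [nc]
  · rw [if_neg h, if_neg h]
    simp only [nc]
    split_ifs with h1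
    · subst h1
      simp only [Nat.cast_zero, zero_add, one_mul, Cfg.I]
    · simp

lemma nc_sum {E : ℕ} (hE : 2 ≤ E) (q : Cfg) (l : Fin 3) :
    ∑ b ∈ Finset.range E, (nc E q).I E l b = 1 := by
  rw [Finset.sum_congr rfl fun b _ => nc_I hE q l b, Finset.sum_sub_distrib,
    Finset.sum_ite_eq', if_pos (Finset.mem_range.mpr (by omega))]
  ring

lemma nc_close {E : ℕ} (q : Cfg) {τ : ℝ} (hτ : 0 ≤ τ)
    (h : ∀ l, |(∑ c ∈ Finset.range E, q.I E l c) - 1| ≤ τ) : Close E τ q (nc E q) := by
  constructor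
  · intro l b _
    simp only [nc]
    split_ifs
    · rw [show ∀ a b : ℝ, a - (a - b) = b by intros; ring]
      exact h l
    · simpa using hτ
  · intro l
    simpa [nc] using hτ

lemma nc_adm {E : ℕ} (hE : 2 ≤ E) {ι : Type*} {r : ℝ} (hr : 0 < r) (P : Finset ι)
    (lab : ι → Fin 3) (e : ι → ℕ) (w : ι → ℝ) (he : ∀ v ∈ P, 1 ≤ e v) (hw : ∀ v ∈ P, 0 ≤ w v)
    (I : Fin 3 → ℝ) (hI : ∀ l, 0 ≤ I l) {τ ε : ℝ} (hτ : 0 ≤ τ) (hτε : τ ≤ ε)
    (h : ∀ l, |(∑ c ∈ Finset.range E, (cf E r P lab e w I).I E l c) - 1| ≤ τ)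
    (hrad : ∑ v ∈ P, w v + r * (3 * τ) ≤ r * (1 + ε)) :
    Adm E ε (nc E (cf E r P lab e w I)) := by
  set q := cf E r P lab e w I with hq
  have hcl := nc_close (E := E) q hτ h
  refine ⟨?_, ?_, ?_, ?_⟩
  · intro l b hb
    have h1 := (abs_le.mp (hcl.1 l b hb)).2
    have h2 : 0 ≤ q.S l b := div_nonneg (bs_nonneg E P lab e w hw l b) hr.le
    linarith
  · intro l
    have h1 : (nc E q).S l (E - 1) = q.S l (E - 1) := by
      simp only [nc]
      rw [if_neg (by omega)]
      ring
    rw [h1]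
    have h2 : (E:ℝ) * bs E P lab e w l (E - 1) ≤
        bs E P lab e (fun v => (e v : ℝ) * w v) l (E - 1) := by
      unfold bs
      rw [Finset.mul_sum]
      refine Finset.sum_le_sum fun v hv => ?_
      obtain ⟨h1, _, h2⟩ := Finset.mem_filter.mp hv
      have h3 := le_of_blk_last (he v h1) (by rw [h2]; omega)
      have h4 : (E:ℝ) ≤ e v := by exact_mod_cast h3
      exact mul_le_mul_of_nonneg_right h4 (hw v h1)
    have h3 : (E:ℝ) * q.S l (E - 1) ≤ q.J l := by
      simp only [hq, cf]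
      rw [← mul_div_assoc]
      apply div_le_div_of_nonneg_right _ hr.le
      have := hI l
      linarith
    have h4 : (nc E q).J l = q.J l := rfl
    rw [h4]
    linarith
  · intro l
    exact nc_sum hE q l
  · have h1 : ∑ l, ∑ b ∈ Finset.range E, (nc E q).S l b =
        ∑ l, ∑ b ∈ Finset.range E, q.S l b - ∑ l, ((∑ c ∈ Finset.range E, q.I E l c) - 1) := by
      rw [← Finset.sum_sub_distrib]
      refine Finset.sum_congr rfl fun l _ => ?_
      simp only [nc]
      rw [Finset.sum_sub_distrib, Finset.sum_ite_eq',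
        if_pos (Finset.mem_range.mpr (by omega))]
    have h2 : - ∑ l : Fin 3, ((∑ c ∈ Finset.range E, q.I E l c) - 1) ≤ 3 * τ := by
      rw [← Finset.sum_neg_distrib]
      calc ∑ l : Fin 3, -((∑ c ∈ Finset.range E, q.I E l c) - 1) ≤ ∑ l : Fin 3, τ := by
            refine Finset.sum_le_sum fun l _ => ?_
            have := (abs_le.mp (h l)).1
            linarith
        _ = 3 * τ := by simp
    have h3 := sum_S_eq hE hr P lab e w I
    rw [← hq] at h3
    have h4 : r * ∑ l, ∑ b ∈ Finset.range E, (nc E q).S l b ≤ r * (1 + ε) := by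
      rw [h1, mul_sub, h3]
      have := mul_le_mul_of_nonneg_left h2 hr.le
      linarith
    exact le_of_mul_le_mul_left h4 hr

lemma fin3_succ (k : Fin 3) : k + 1 ≠ k + 2 ∧ k + 1 ≠ k ∧ k + 2 ≠ k := by
  revert k; decide

/-- The sum of the sizes on a union of blocks. -/
lemma sum_blocks_close {E : ℕ} (hE : 2 ≤ E) {ι : Type*} [DecidableEq ι] {r : ℝ} (hr : 0 < r)
    (P : Finset ι)
    (lab : ι → Fin 3) (e : ι → ℕ) (w : ι → ℝ) (I : Fin 3 → ℝ) {δ : ℝ} (hδ : 0 ≤ δ) {p : Cfg}
    (hp : Close E δ (cf E r P lab e w I) p) (k : Fin 3) (U : Fin 3 → ℕ → Bool) (T : ℕ → Bool)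
    (hw : ∀ v, 0 ≤ w v) :
    ∑ v ∈ P.filter (fun v => lab v ≠ k ∧ (!(U (lab v) (blk E (e v)))) = true) ∪
      P.filter (fun v => lab v = k ∧ T (blk E (e v)) = true), w v ≤
    r * ((∑ l ∈ Finset.univ.filter (fun l => l ≠ k), ∑ b ∈ Finset.range E,
      (if U l b then 0 else p.S l b)) +
      (∑ b ∈ Finset.range E, (if T b then p.S k b else 0)) + 4 * (E * δ)) := by
  refine (sum_union_le' _ _ w hw).trans ?_
  rw [sum_blocks_ne hE P lab e w k (fun l b => (!(U l b)) = true),
    sum_blocks_eq hE P lab e w k (fun b => T b = true)]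
  have hrδ : 0 ≤ r * δ := mul_nonneg hr.le hδ
  have d : ∀ l, ∀ b ∈ Finset.range E, bs E P lab e w l b ≤ r * p.S l b + r * δ := by
    intro l b hb
    have h1 := (abs_le.mp (hp.1 l b hb)).2
    have h2 := mul_le_mul_of_nonneg_left h1 hr.le
    have h3 := cf_S E hr P lab e w I l b
    linarith
  have h1 : ∑ l ∈ Finset.univ.filter (fun l => l ≠ k), ∑ b ∈ Finset.range E,
      (if (!(U l b)) = true then bs E P lab e w l b else 0) ≤
      r * (∑ l ∈ Finset.univ.filter (fun l => l ≠ k), ∑ b ∈ Finset.range E,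
      (if U l b then 0 else p.S l b)) + 3 * (E * (r * δ)) := by
    rw [Finset.mul_sum]
    simp_rw [Finset.mul_sum]
    apply sum3E_le hrδ
    intro l _ b hb
    have := d l b hb
    by_cases hU : U l b = true
    · simp [hU]; exact hrδ
    · simp [hU]; exact this
  have h2 : ∑ b ∈ Finset.range E, (if T b = true then bs E P lab e w k b else 0) ≤
      r * (∑ b ∈ Finset.range E, (if T b then p.S k b else 0)) + E * (r * δ) := by
    rw [Finset.mul_sum]
    apply sumE_le
    intro b hb
    have := d k b hb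
    split_ifs <;> linarith
  have h3 : r * (4 * ((E:ℝ) * δ)) = 4 * (E * (r * δ)) := by ring
  rw [mul_add, mul_add, h3]
  linarith

open Classical in
/-- The tool for a pair of points in a cell. -/
lemma side_tool {E : ℕ} (hE : 2 ≤ E) (α : Fin 3 → K × K) (bad : Finset (HeightOneSpectrum (𝓞 K)))
    {k : Fin 3} {C : ℝ} (A A' : Fin 3 → ℕ → Bool) (T : ℕ → Bool) (x x' : K × K)
    (hPD : PD E k (k + 1) (k + 2) A T lnv (suppF α bad x) (suppF α bad x') (labF α x)
        (labF α x')
        (expF α x) (expF α x') (idxF α bad x) (idxF α bad x')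
        (comm α (aset E α bad k A) x x') (tset E α bad k T x)
        (suppF (al3 K) bad (yy α (k + 1) (k + 2) x x'))
        (labF (al3 K) (yy α (k + 1) (k + 2) x x'))
        (expF (al3 K) (yy α (k + 1) (k + 2) x x'))
        (idxF (al3 K) bad (yy α (k + 1) (k + 2) x x')) C)
    {r δ ε : ℝ} (hr : 0 < r) (hδ : 0 ≤ δ) {p : Cfg} (hp : Close E δ (qc E α bad r x) p)
    (hp' : Close E δ (qc E α bad r x') p) (hε : 3 * E ^ 2 * δ + C / r ≤ ε) {thr z : ℝ}
    (hside : GoodSide E ε p k A T thr) (hz : r * (thr + 20 * E ^ 2 * δ) + C ≤ z) :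
    ∃ n : ℕ, 1 ≤ n ∧ n ≤ E ∧ ∃ W : Finset (HeightOneSpectrum (𝓞 K)),
        W ⊆ suppF (al3 K) bad (yy α (k + 1) (k + 2) x x') ∧
        (∀ v ∈ suppF (al3 K) bad (yy α (k + 1) (k + 2) x x'), v ∉ W →
          (labF (al3 K) (yy α (k + 1) (k + 2) x x') v = 0 ∨
            labF (al3 K) (yy α (k + 1) (k + 2) x x') v = 1) →
          n ∣ expF (al3 K) (yy α (k + 1) (k + 2) x x') v) ∧
        toolCost (suppF (al3 K) bad (yy α (k + 1) (k + 2) x x'))
          (labF (al3 K) (yy α (k + 1) (k + 2) x x'))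
          (expF (al3 K) (yy α (k + 1) (k + 2) x x')) lnv
          (idxF (al3 K) bad (yy α (k + 1) (k + 2) x x')) n 0 1 W +
          ∑ v ∈ comm α (aset E α bad k A) x x', lnv v ≤ z := by
  have hadm := admG hPD hr hδ hp hp' hε
  obtain ⟨t, ht, htc⟩ := hside _ hadm
  have h1 := yt_cost hPD hr hδ hp hp' t ht
  refine ⟨t.n, ht.1, ht.2.1, _, ?_, yt_dvd hPD t ht, ?_⟩
  · unfold ytW
    exact Finset.filter_subset _ _
  · refine h1.trans (le_trans ?_ hz)
    have h2 := mul_le_mul_of_nonneg_left htc hr.le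
    clear hPD hside hadm hp hp' ht hz hε
    linarith only [h2]

private lemma bd_four {E : ℝ} (hE : 2 ≤ E) : 4 ≤ E ^ 2 := by nlinarith

private lemma bd_sq {E : ℝ} (hE : 2 ≤ E) : E ≤ E ^ 2 := by nlinarith

private lemma bd_48 {E δ ε : ℝ} (hE2 : 4 ≤ E ^ 2) (hδ : 0 ≤ δ) (h : 12 * E ^ 2 * δ = ε) :
    48 * δ ≤ ε := by nlinarith

private lemma bd_err {E δ ε η : ℝ} (hE : 2 ≤ E) (hε : 0 ≤ ε) (h : 12 * E ^ 2 * δ = ε)
    (h2 : 16 * E * ε ≤ η) : 4 * E * ε + 20 * E ^ 2 * (2 * δ) ≤ η / 2 := by
  have h3 : 2 * ε ≤ E * ε := mul_le_mul_of_nonneg_right hE hε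
  linarith

open Classical in
/-- The bound for one cell. -/
lemma cell_bound (hbilS : BilStmt K 3) {E : ℕ} (hE : 2 ≤ E) (θ : ℝ) (hθ : 0 ≤ θ) (hcert : Cert E θ)
    (α : Fin 3 → K × K) (hα : ∀ l m, l ≠ m → wedge (α l) (α m) ≠ 0)
    (bad : Finset (HeightOneSpectrum (𝓞 K))) (hbad : GoodOff α bad)
    (K₂ η : ℝ) (hη : 0 < η) :
    ∃ C δ R₀ : ℝ, 0 < C ∧ 0 < δ ∧ 1 ≤ R₀ ∧ ∀ (β r : ℝ) (X : Finset (K × K)), R₀ ≤ r →
      r ≤ β + 1 →
      (∀ x ∈ X, ∀ l, wedge x (α l) ≠ 0) →
      (∀ x ∈ X, ∀ y ∈ X, x ≠ y → wedge x y ≠ 0) →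
      (∀ x ∈ X, hh x ≤ β) → (∀ x ∈ X, |hh x - r| ≤ 1) →
      (∀ x ∈ X, ∑ v ∈ suppF α bad x, lnv v ≤ hh x + K₂) →
      (∀ x ∈ X, ∀ y ∈ X, Close E δ (qc E α bad r x) (qc E α bad r y)) →
      (X.card : ℝ) ≤ C * Real.exp (θ * β + η * β) := by
  obtain ⟨ε₀, hε₀, hcert⟩ := hcert
  have hE' : (2:ℝ) ≤ E := by exact_mod_cast hE
  have hd : (0:ℝ) ≤ Module.finrank ℚ K := Nat.cast_nonneg _
  -- constants
  choose Cp hCp hpair using fun k : Fin 3 => pair_PD hE α hα bad hbad
    (fin3_succ k).1 (fin3_succ k).2.1 (fin3_succ k).2.2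
  choose Cb hCb hbil using fun k : Fin 3 => hbilS α hα bad hbad (k + 1) (k + 2)
    (fin3_succ k).1 E (η / 2) (by positivity)
  choose Cm hCm hmas using fun (n : ℕ) (hn : 1 ≤ n) (k : Fin 3) =>
    master α hα bad hbad n hn (k + 1) (k + 2) (fin3_succ k).1 (η / 2) (by positivity)
  set Cm' : ℕ → Fin 3 → ℝ := fun n k => if h : 1 ≤ n then Cm n h k else 0 with hCm'
  have hCm'0 : ∀ n k, 0 ≤ Cm' n k := by
    intro n k
    simp only [hCm']
    split_ifs with h
    · exact (hCm n h k).le
    · exact le_rfl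
  set Kp : ℝ := ∑ k, Cp k with hKp
  have hKp1 : ∀ k, Cp k ≤ Kp := fun k =>
    Finset.single_le_sum (f := Cp) (fun k _ => (hCp k).le) (Finset.mem_univ k)
  have hKp0 : 0 < Kp := lt_of_lt_of_le (hCp 0) (hKp1 0)
  set K₀ : ℝ := ∑ l, (|hh (α l)| + Module.finrank ℚ K) with hK₀
  have hK₀0 : 0 ≤ K₀ := by positivity
  have hKl : ∀ l, |hh (α l)| + Module.finrank ℚ K ≤ K₀ := fun l =>
    Finset.single_le_sum (f := fun l => |hh (α l)| + (Module.finrank ℚ K : ℝ))
      (fun l _ => by positivity) (Finset.mem_univ l)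
  set ε : ℝ := min ε₀ (η / (16 * E)) with hε
  have hε0 : 0 < ε := lt_min hε₀ (by positivity)
  have hεη : 16 * E * ε ≤ η := by
    have := min_le_right ε₀ (η / (16 * E))
    rw [← hε, le_div_iff₀ (by positivity)] at this
    linarith
  set δ : ℝ := ε / (12 * E ^ 2) with hδ
  have hδ0 : 0 < δ := by positivity
  have hδε : 12 * (E:ℝ) ^ 2 * δ = ε := by
    rw [hδ]; field_simp
  have hE2 : (4:ℝ) ≤ (E:ℝ) ^ 2 := bd_four hE'
  have hδε2 : 48 * δ ≤ ε := bd_48 hE2 hδ0.le hδε
  have hEδ : E * δ ≤ (E:ℝ) ^ 2 * δ := mul_le_mul_of_nonneg_right (bd_sq hE') hδ0.le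
  set K₁ : ℝ := 4 + |K₂| + 3 * K₀ + Kp with hK₁
  have hK₁0 : 0 < K₁ := by positivity
  refine ⟨((∑ n ∈ Finset.range (E + 1), ∑ k, Cm' n k) + ∑ k, Cb k) *
    Real.exp (θ + η + Kp), δ, max 1 (K₁ / δ), ?_, hδ0, le_max_left _ _, ?_⟩
  · apply mul_pos _ (Real.exp_pos _)
    have h1 : 0 ≤ ∑ n ∈ Finset.range (E + 1), ∑ k, Cm' n k :=
      Finset.sum_nonneg fun n _ => Finset.sum_nonneg fun k _ => hCm'0 n k
    have h2 : 0 < ∑ k, Cb k := Finset.sum_pos (fun k _ => hCb k) Finset.univ_nonempty
    linarith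
  intro β r X hrR hrβ hX hXX hXβ hXr hrad hcl
  have hr1 : 1 ≤ r := (le_max_left _ _).trans hrR
  have hr0 : 0 < r := by linarith
  have hβ0 : 0 ≤ β := by linarith
  have hrK : K₁ ≤ r * δ := by
    have := (le_max_right _ _).trans hrR
    rwa [div_le_iff₀ hδ0] at this
  rcases X.eq_empty_or_nonempty with hem | ⟨x₀, hx₀⟩
  · rw [hem, Finset.card_empty, Nat.cast_zero]
    apply mul_nonneg _ (Real.exp_pos _).le
    apply mul_nonneg _ (Real.exp_pos _).le
    have h1 : 0 ≤ ∑ n ∈ Finset.range (E + 1), ∑ k, Cm' n k :=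
      Finset.sum_nonneg fun n _ => Finset.sum_nonneg fun k _ => hCm'0 n k
    have h2 : 0 ≤ ∑ k, Cb k := Finset.sum_nonneg (fun k _ => (hCb k).le)
    linarith
  -- the representative
  set q₀ := qc E α bad r x₀ with hq₀
  set p := nc E q₀ with hp
  have hτ : ∀ l, |(∑ c ∈ Finset.range E, q₀.I E l c) - 1| ≤ (K₀ + 1) / r := by
    intro l
    have h1 := sum_I_eq hE hr0 (suppF α bad x₀) (labF α x₀) (expF α x₀) lnv
      (fun v hv => exp_pos_of_mem (hX x₀ hx₀) hv) (idxF α bad x₀) l
    have h2 := config_fmt hα hbad (hX x₀ hx₀) l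
    have h3 := hKl l
    have h4 := hXr x₀ hx₀
    rw [abs_le] at h2 h4 ⊢
    have h5 : r * (∑ c ∈ Finset.range E, q₀.I E l c) =
      ∑ v ∈ (suppF α bad x₀).filter (fun v => labF α x₀ v = l), (expF α x₀ v : ℝ) * lnv v +
        idxF α bad x₀ l := h1
    have h6 : r * ((∑ c ∈ Finset.range E, q₀.I E l c) - 1) =
      ∑ v ∈ (suppF α bad x₀).filter (fun v => labF α x₀ v = l), (expF α x₀ v : ℝ) * lnv v +
        idxF α bad x₀ l - r := by rw [mul_sub, h5]; ring
    have h7 : r * ((K₀ + 1) / r) = K₀ + 1 := by field_simp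
    constructor
    · apply le_of_mul_le_mul_left _ hr0
      rw [mul_neg, h7, h6]
      linarith [h2.1, h2.2, h4.1, h4.2]
    · apply le_of_mul_le_mul_left _ hr0
      rw [h7, h6]
      linarith [h2.1, h2.2, h4.1, h4.2]
  have hτ0 : 0 ≤ (K₀ + 1) / r := by positivity
  have hτδ : (K₀ + 1) / r ≤ δ := by
    rw [div_le_iff₀ hr0]
    have h1 := abs_nonneg K₂
    linarith only [h1, hrK, hK₁, hK₀0, hKp0]
  have hclp : ∀ x ∈ X, Close E (2 * δ) (qc E α bad r x) p := by
    intro x hx
    have h1 := (hcl x hx x₀ hx₀).trans (nc_close (E := E) q₀ hδ0.le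
      (fun l => (hτ l).trans hτδ))
    rw [two_mul]
    exact h1
  have hadm : Adm E ε p := by
    apply nc_adm hE hr0 (suppF α bad x₀) (labF α x₀) (expF α x₀) lnv
      (fun v hv => exp_pos_of_mem (hX x₀ hx₀) hv) (fun v _ => (lnv_pos v).le)
      (idxF α bad x₀) (idxF_nonneg α bad x₀) hτ0 (by linarith) hτ
    have h1 := hrad x₀ hx₀
    have h2 := abs_le.mp (hXr x₀ hx₀)
    have h3 := le_abs_self K₂
    have h4 : r * (3 * ((K₀ + 1) / r)) = 3 * (K₀ + 1) := by field_simp
    rw [h4]
    have h5 : r * δ ≤ r * ε := mul_le_mul_of_nonneg_left (by linarith only [hδε2, hδ0]) hr0.le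
    linarith only [h1, h2.2, h3, h5, hrK, hK₁, hK₀0, hKp0]
  have hKpr : ∀ k, 3 * (E:ℝ) ^ 2 * (2 * δ) + Cp k / r ≤ ε := by
    intro k
    have h1 : Cp k / r ≤ δ := by
      rw [div_le_iff₀ hr0]
      have h2 := hKp1 k
      have h3 := abs_nonneg K₂
      linarith only [h2, h3, hrK, hK₁, hK₀0]
    linarith only [h1, hδε, hδε2, hδ0]
  have herr : 4 * E * ε + 20 * (E:ℝ) ^ 2 * (2 * δ) ≤ η / 2 := bd_err hE' hε0.le hδε hεη
  have hfin : ∀ c z : ℝ, 0 ≤ c → c ≤ (∑ n ∈ Finset.range (E + 1), ∑ k, Cm' n k) + ∑ k, Cb k →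
      z ≤ r * (θ + η / 2) + Kp → (X.card : ℝ) ≤ c * Real.exp (z + η / 2 * β) →
      (X.card : ℝ) ≤ ((∑ n ∈ Finset.range (E + 1), ∑ k, Cm' n k) + ∑ k, Cb k) *
        Real.exp (θ + η + Kp) * Real.exp (θ * β + η * β) := by
    intro c z hc hcc hz hcard
    rw [mul_assoc, ← Real.exp_add]
    refine hcard.trans (mul_le_mul hcc ?_ (Real.exp_pos _).le (hc.trans hcc))
    apply Real.exp_le_exp.mpr
    have h1 : r * (θ + η / 2) ≤ (β + 1) * (θ + η / 2) :=
      mul_le_mul_of_nonneg_right hrβ (by positivity)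
    linarith only [h1, hz, hη]
  rcases hcert ε hε0 (min_le_left _ _) p hadm with ⟨t, ht, htc⟩ | ⟨k, U, T, m, hmθ, hm, hV, hU⟩
  · -- basic tool
    have hk := fin3_succ t.k
    refine hfin (Cm' t.n t.k) (r * (θ + η / 2)) (hCm'0 _ _) ?_ (by linarith) ?_
    · have h1 : Cm' t.n t.k ≤ ∑ k, Cm' t.n k :=
        Finset.single_le_sum (f := fun k => Cm' t.n k) (fun k _ => hCm'0 _ k)
          (Finset.mem_univ _)
      have h2 : ∑ k, Cm' t.n k ≤ ∑ n ∈ Finset.range (E + 1), ∑ k, Cm' n k :=
        Finset.single_le_sum (f := fun n => ∑ k, Cm' n k)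
          (fun n _ => Finset.sum_nonneg fun k _ => hCm'0 n k)
          (Finset.mem_range.mpr (by have := ht.2.1; omega))
      have h3 : 0 ≤ ∑ k, Cb k := Finset.sum_nonneg (fun k _ => (hCb k).le)
      linarith
    · simp only [hCm']
      rw [dif_pos ht.1]
      refine hmas t.n ht.1 t.k β _ X hX hXX hXβ ?_
      intro x hx
      refine ⟨btW E (suppF α bad x) (labF α x) (expF α x) t, Finset.filter_subset _ _,
        bt_dvd hE _ _ _ (fun v hv => exp_pos_of_mem (hX x hx) hv) t ht hk.1 hk.2.1 hk.2.2, ?_⟩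
      refine (bt_cost hE hr0 _ _ _ _ (fun v hv => exp_pos_of_mem (hX x hx) hv) _
        (idxF_nonneg α bad x) t ht hk.1 hk.2.1 hk.2.2).trans ?_
      apply mul_le_mul_of_nonneg_left _ hr0.le
      have h1 := bt_lip hE (by positivity : 0 ≤ 2 * δ) (hclp x hx) t ht
      have h2 : 0 ≤ (E:ℝ) * ε := by positivity
      have h3 : 0 ≤ (E:ℝ) ^ 2 * δ := by positivity
      have h4 : BT.cost E t (cf E r (suppF α bad x) (labF α x) (expF α x) lnv (idxF α bad x)) =
        BT.cost E t (qc E α bad r x) := rfl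
      rw [h4]
      linarith only [h1, h2, h3, htc, herr]
  · -- bilinear tool
    have hk := fin3_succ k
    set A : Fin 3 → ℕ → Bool := fun l b => !(U l b) with hA
    have hUA : ∀ l b, U l b = !(A l b) := by intro l b; simp [hA]
    set m' : ℝ := r * (m + (4 * E * ε + 20 * (E:ℝ) ^ 2 * (2 * δ))) + Kp with hm'
    set a' : ℝ := r * (2 * θ - m + (4 * E * ε + 20 * (E:ℝ) ^ 2 * (2 * δ))) + Kp with ha'
    have hm0 : -(4 * E * ε) ≤ m := by
      have h1 : ∑ l ∈ Finset.univ.filter (fun l => l ≠ k), ∑ b ∈ Finset.range E, (0:ℝ) ≤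
          ∑ l ∈ Finset.univ.filter (fun l => l ≠ k), ∑ b ∈ Finset.range E,
            (if U l b then 0 else p.S l b) + 3 * (E * ε) := by
        apply sum3E_le hε0.le
        intro l _ b hb
        have := hadm.1 l b hb
        split_ifs <;> linarith
      have h2 : ∑ b ∈ Finset.range E, (0:ℝ) ≤
          ∑ b ∈ Finset.range E, (if T b then p.S k b else 0) + E * ε := by
        apply sumE_le
        intro b hb
        have := hadm.1 k b hb
        split_ifs <;> linarith
      simp only [Finset.sum_const_zero] at h1 h2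
      linarith
    have hEE : 0 ≤ 20 * (E:ℝ) ^ 2 * (2 * δ) := by positivity
    have hEε : 0 ≤ 4 * E * ε := by positivity
    have hm'0 : 0 ≤ m' := by
      have : 0 ≤ r * (m + (4 * E * ε + 20 * (E:ℝ) ^ 2 * (2 * δ))) :=
        mul_nonneg hr0.le (by linarith)
      linarith
    have ha'0 : 0 ≤ a' := by
      have : 0 ≤ r * (2 * θ - m + (4 * E * ε + 20 * (E:ℝ) ^ 2 * (2 * δ))) :=
        mul_nonneg hr0.le (by linarith)
      linarith
    have hmax : max m' ((a' + m') / 2) ≤ r * (θ + η / 2) + Kp := by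
      apply max_le
      · rw [hm']
        have : r * (m + (4 * E * ε + 20 * (E:ℝ) ^ 2 * (2 * δ))) ≤ r * (θ + η / 2) :=
          mul_le_mul_of_nonneg_left (by linarith) hr0.le
        linarith
      · rw [hm', ha']
        have : r * (θ + (4 * E * ε + 20 * (E:ℝ) ^ 2 * (2 * δ))) ≤ r * (θ + η / 2) :=
          mul_le_mul_of_nonneg_left (by linarith) hr0.le
        linarith
    refine hfin (Cb k) (max m' ((a' + m') / 2)) (hCb k).le ?_ hmax ?_
    · have h1 : Cb k ≤ ∑ k, Cb k :=
        Finset.single_le_sum (f := Cb) (fun k _ => (hCb k).le) (Finset.mem_univ _)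
      have h2 : 0 ≤ ∑ n ∈ Finset.range (E + 1), ∑ k, Cm' n k :=
        Finset.sum_nonneg fun n _ => Finset.sum_nonneg fun k _ => hCm'0 n k
      linarith
    · have hne : ∀ x ∈ X, ∀ x' ∈ X, ∀ R : K × K → Finset (HeightOneSpectrum (𝓞 K)),
          cd α bad R x ≠ cd α bad R x' → wedge x x' ≠ 0 := by
        intro x hx x' hx' R hR
        apply hXX x hx x' hx'
        rintro rfl
        exact hR rfl
      refine hbil k β a' m' X (aset E α bad k U) (aset E α bad k A) (tset E α bad k T)
        ha'0 hm'0 hX hXX hXβ ?_ ?_ ?_ ?_ ?_ ?_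
      · intro x _
        rw [Finset.disjoint_left]
        intro v hv hv'
        have h1 := (mem_aset.mp hv).2.2
        have h2 := (mem_aset.mp hv').2.2
        rw [hUA] at h1
        rw [h2] at h1
        exact absurd h1 (by simp)
      · intro x _
        ext v
        rw [Finset.mem_union, mem_aset, mem_aset, Finset.mem_filter,
          ne_iff_or hk.1 hk.2.1 hk.2.2]
        constructor
        · rintro (⟨h1, h2, _⟩ | ⟨h1, h2, _⟩) <;> exact ⟨h1, h2⟩
        · rintro ⟨h1, h2⟩
          by_cases h3 : U (labF α x v) (blk E (expF α x v)) = true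
          · exact Or.inl ⟨h1, h2, h3⟩
          · refine Or.inr ⟨h1, h2, ?_⟩
            simp only [hA]
            simpa using h3
      · intro x _ v hv
        rw [Finset.mem_filter, ne_and_iff hk.1 hk.2.1 hk.2.2]
        exact ⟨(mem_tset.mp hv).1, (mem_tset.mp hv).2.1⟩
      · intro x hx
        have h1 := sum_blocks_close hE hr0 (suppF α bad x) (labF α x) (expF α x) lnv
          (idxF α bad x) (by positivity : 0 ≤ 2 * δ) (hclp x hx) k U T
          (fun v => (lnv_pos v).le)
        refine le_trans (le_of_eq ?_) (h1.trans ?_)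
        · rfl
        · rw [hm']
          have h2 : 4 * (E * (2 * δ)) ≤ 20 * (E:ℝ) ^ 2 * (2 * δ) := by
            linarith only [hEδ, mul_nonneg (sq_nonneg (E:ℝ)) hδ0.le]
          have h3 : r * ((∑ l ∈ Finset.univ.filter (fun l => l ≠ k), ∑ b ∈ Finset.range E,
            (if U l b then 0 else p.S l b)) +
            (∑ b ∈ Finset.range E, (if T b then p.S k b else 0)) + 4 * (E * (2 * δ))) ≤
            r * (m + (4 * E * ε + 20 * (E:ℝ) ^ 2 * (2 * δ))) :=
            mul_le_mul_of_nonneg_left (by linarith) hr0.le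
          linarith
      · -- V side
        intro x hx x' hx' hcd hcd'
        have hPD := hpair k A U T hUA x x' (hX x hx) (hX x' hx')
          (hne x hx x' hx' _ hcd') hcd
        refine side_tool hE α bad A U T x x' hPD hr0 (by positivity : 0 ≤ 2 * δ)
          (hclp x hx) (hclp x' hx') (hKpr k) hV ?_
        rw [hm']
        have h1 := hKp1 k
        have h2 : r * (m + 20 * (E:ℝ) ^ 2 * (2 * δ)) ≤
            r * (m + (4 * E * ε + 20 * (E:ℝ) ^ 2 * (2 * δ))) :=
          mul_le_mul_of_nonneg_left (by linarith) hr0.le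
        linarith
      · -- U side
        intro x hx x' hx' hcd hcd'
        have hPD := hpair k U A T (fun _ _ => rfl) x x' (hX x hx) (hX x' hx')
          (hne x hx x' hx' _ hcd') hcd
        refine side_tool hE α bad U A T x x' hPD hr0 (by positivity : 0 ≤ 2 * δ)
          (hclp x hx) (hclp x' hx') (hKpr k) hU ?_
        rw [ha']
        have h1 := hKp1 k
        have h2 : r * (2 * θ - m + 20 * (E:ℝ) ^ 2 * (2 * δ)) ≤
            r * (2 * θ - m + (4 * E * ε + 20 * (E:ℝ) ^ 2 * (2 * δ))) :=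
          mul_le_mul_of_nonneg_left (by linarith) hr0.le
        linarith

end Pool.Agent.Lib.MP_4d5ce1_nt
end
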