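import Mathlib
import Pool.Agent.Lib.MP_4d5ce1_nt.BDefs
import Pool.Agent.Lib.MP_4d5ce1_nt.BCodes
import Pool.Agent.Lib.MP_4d5ce1_nt.BStmt
import Pool.Agent.Lib.MP_4d5ce1_nt.BTrD
import Pool.Agent.Lib.MP_4d5ce1_nt.BOff

section

/-!
The graph inequality `|E| ^ 2 ≤ |P_A| |P_B|` for a bipartite graph with edge set `E`, where `P_A`
(resp. `P_B`) is the set of pairs of vertices on the left (right) with a common neighbour.
-/

set_option autoImplicit false

namespace Pool.Agent.Lib.MP_4d5ce1_nt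

open Finset

theorem graph_half {α A B : Type*} [DecidableEq α] [DecidableEq A] [DecidableEq B]
    (E : Finset α) (f : α → A) (g : α → B)
    (hinj : ∀ x ∈ E, ∀ y ∈ E, f x = f y → g x = g y → x = y) :
    ∑ e ∈ E, ((E.filter (fun e' => g e = g e')).card : ℝ) /
      ((E.filter (fun e' => f e' = f e)).card : ℝ) ≤
      ((((E ×ˢ E).filter (fun p => g p.1 = g p.2)).image (fun p => (f p.1, f p.2))).card : ℝ) := by
  set W := (E ×ˢ E).filter (fun p => g p.1 = g p.2) with hW
  have h1 : ∑ e ∈ E, ((E.filter (fun e' => g e = g e')).card : ℝ) /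
      ((E.filter (fun e' => f e' = f e)).card : ℝ) =
      ∑ p ∈ W, 1 / ((E.filter (fun e' => f e' = f p.1)).card : ℝ) := by
    rw [hW, Finset.sum_filter, Finset.sum_product]
    refine Finset.sum_congr rfl fun e _ => ?_
    rw [← Finset.sum_filter]
    show _ = ∑ _a ∈ E.filter (fun e' => g e = g e'), 1 /
      ((E.filter (fun e' => f e' = f e)).card : ℝ)
    rw [Finset.sum_const, nsmul_eq_mul, mul_one_div]
  rw [h1]
  have h2 : ∀ p ∈ W, (f p.1, f p.2) ∈ W.image (fun p => (f p.1, f p.2)) := fun p hp =>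
    Finset.mem_image_of_mem _ hp
  rw [← Finset.sum_fiberwise_of_maps_to h2, Finset.card_eq_sum_ones]
  push_cast
  refine Finset.sum_le_sum fun y hy => ?_
  have h3 : ∀ p ∈ W.filter (fun p => (f p.1, f p.2) = y),
      1 / ((E.filter (fun e' => f e' = f p.1)).card : ℝ) =
      1 / ((E.filter (fun e' => f e' = y.1)).card : ℝ) := by
    intro p hp
    rw [Finset.mem_filter] at hp
    rw [← hp.2]
  rw [Finset.sum_congr rfl h3, Finset.sum_const, nsmul_eq_mul, mul_one_div]
  apply div_le_one_of_le₀ _ (Nat.cast_nonneg _)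
  have h4 : (W.filter (fun p => (f p.1, f p.2) = y)).card ≤
      (E.filter (fun e' => f e' = y.1)).card := by
    apply Finset.card_le_card_of_injOn (fun p => p.1)
    · intro p hp
      rw [Finset.mem_coe, Finset.mem_filter, hW, Finset.mem_filter, Finset.mem_product] at hp
      rw [Finset.mem_coe, Finset.mem_filter]
      exact ⟨hp.1.1.1, by rw [← hp.2]⟩
    · intro p hp q hq hpq
      rw [Finset.mem_coe, Finset.mem_filter, hW, Finset.mem_filter, Finset.mem_product] at hp hq
      have hpq' : p.1 = q.1 := hpq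
      refine Prod.ext hpq' ?_
      apply hinj _ hp.1.1.2 _ hq.1.1.2
      · have e1 := congrArg Prod.snd hp.2
        have e2 := congrArg Prod.snd hq.2
        simp only at e1 e2
        rw [e1, e2]
      · rw [← hp.1.2, ← hq.1.2, hpq']
  exact_mod_cast h4

theorem graph_cs {A B : Type*} [DecidableEq A] [DecidableEq B] (E : Finset (A × B)) :
    (E.card : ℝ) ^ 2 ≤
      ((((E ×ˢ E).filter (fun p => p.1.2 = p.2.2)).image (fun p => (p.1.1, p.2.1))).card : ℝ) *
      ((((E ×ˢ E).filter (fun p => p.1.1 = p.2.1)).image (fun p => (p.1.2, p.2.2))).card : ℝ) := by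
  have hA := graph_half E Prod.fst Prod.snd (fun x _ y _ h1 h2 => Prod.ext h1 h2)
  have hB := graph_half E Prod.snd Prod.fst (fun x _ y _ h1 h2 => Prod.ext h2 h1)
  set dA : A × B → ℝ := fun e => ((E.filter (fun e' => e'.1 = e.1)).card : ℝ) with hdA
  set dB : A × B → ℝ := fun e => ((E.filter (fun e' => e'.2 = e.2)).card : ℝ) with hdB
  have hA' : ∑ e ∈ E, dB e / dA e ≤
      ((((E ×ˢ E).filter (fun p => p.1.2 = p.2.2)).image (fun p => (p.1.1, p.2.1))).card : ℝ) := by
    refine le_trans (le_of_eq ?_) hA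
    refine Finset.sum_congr rfl fun e _ => ?_
    simp only [hdA, hdB, eq_comm]
  have hB' : ∑ e ∈ E, dA e / dB e ≤
      ((((E ×ˢ E).filter (fun p => p.1.1 = p.2.1)).image (fun p => (p.1.2, p.2.2))).card : ℝ) := by
    refine le_trans (le_of_eq ?_) hB
    refine Finset.sum_congr rfl fun e _ => ?_
    simp only [hdA, hdB, eq_comm]
  have hpos : ∀ e ∈ E, 0 < dA e ∧ 0 < dB e := by
    intro e he
    constructor
    · have : 0 < (E.filter (fun e' => e'.1 = e.1)).card :=
        Finset.card_pos.mpr ⟨e, Finset.mem_filter.mpr ⟨he, rfl⟩⟩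
      simp only [hdA]
      exact_mod_cast this
    · have : 0 < (E.filter (fun e' => e'.2 = e.2)).card :=
        Finset.card_pos.mpr ⟨e, Finset.mem_filter.mpr ⟨he, rfl⟩⟩
      simp only [hdB]
      exact_mod_cast this
  have h1 : (E.card : ℝ) = ∑ e ∈ E, Real.sqrt (dB e / dA e) * Real.sqrt (dA e / dB e) := by
    rw [Finset.card_eq_sum_ones]
    push_cast
    refine Finset.sum_congr rfl fun e he => ?_
    obtain ⟨h1, h2⟩ := hpos e he
    rw [← Real.sqrt_mul (by positivity)]
    have : dB e / dA e * (dA e / dB e) = 1 := by field_simp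
    rw [this, Real.sqrt_one]
  have h2 := Finset.sum_mul_sq_le_sq_mul_sq E (fun e => Real.sqrt (dB e / dA e))
    (fun e => Real.sqrt (dA e / dB e))
  rw [← h1] at h2
  have h3 : ∑ e ∈ E, Real.sqrt (dB e / dA e) ^ 2 = ∑ e ∈ E, dB e / dA e :=
    Finset.sum_congr rfl fun e he => by
      obtain ⟨h1, h2⟩ := hpos e he
      rw [Real.sq_sqrt (by positivity)]
  have h4 : ∑ e ∈ E, Real.sqrt (dA e / dB e) ^ 2 = ∑ e ∈ E, dA e / dB e :=
    Finset.sum_congr rfl fun e he => by
      obtain ⟨h1, h2⟩ := hpos e he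
      rw [Real.sq_sqrt (by positivity)]
  rw [h3, h4] at h2
  refine h2.trans ?_
  apply mul_le_mul hA' hB' _ (Nat.cast_nonneg _)
  apply Finset.sum_nonneg
  intro e he
  obtain ⟨h1, h2⟩ := hpos e he
  positivity

theorem graph_bound {Ω A B : Type*} [DecidableEq Ω] [DecidableEq A] [DecidableEq B]
    (X : Finset Ω) (f : Ω → A) (g : Ω → B) (M a m : ℝ) (hM0 : 0 ≤ M) (ha0 : 0 ≤ a) (hm0 : 0 ≤ m)
    (hM : ∀ p : A × B, ((X.filter (fun x => (f x, g x) = p)).card : ℝ) ≤ M)
    (ha : ((((X ×ˢ X).filter (fun p => g p.1 = g p.2 ∧ f p.1 ≠ f p.2)).image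
      (fun p => (f p.1, f p.2))).card : ℝ) ≤ a)
    (hm : ((((X ×ˢ X).filter (fun p => f p.1 = f p.2)).image
      (fun p => (g p.1, g p.2))).card : ℝ) ≤ m) :
    (X.card : ℝ) ≤ M * max (2 * m) (Real.sqrt (2 * a * m)) := by
  set E := X.image (fun x => (f x, g x)) with hE
  have h1 : (X.card : ℝ) ≤ M * E.card := by
    have h2 : X.card = ∑ y ∈ E, (X.filter (fun x => (f x, g x) = y)).card :=
      Finset.card_eq_sum_card_fiberwise (fun x hx => Finset.mem_image_of_mem _ hx)
    rw [h2]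
    push_cast
    calc ∑ y ∈ E, ((X.filter (fun x => (f x, g x) = y)).card : ℝ) ≤ ∑ _y ∈ E, M :=
          Finset.sum_le_sum fun y _ => hM y
      _ = M * E.card := by rw [Finset.sum_const, nsmul_eq_mul, mul_comm]
  refine h1.trans (mul_le_mul_of_nonneg_left ?_ hM0)
  have hcs := graph_cs E
  have hPA : ((((E ×ˢ E).filter (fun p => p.1.2 = p.2.2)).image
      (fun p => (p.1.1, p.2.1))).card : ℝ) ≤ E.card + a := by
    have hsub : ((E ×ˢ E).filter (fun p => p.1.2 = p.2.2)).image (fun p => (p.1.1, p.2.1)) ⊆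
        E.image (fun e => (e.1, e.1)) ∪ ((X ×ˢ X).filter (fun p => g p.1 = g p.2 ∧
          f p.1 ≠ f p.2)).image (fun p => (f p.1, f p.2)) := by
      intro y hy
      rw [Finset.mem_image] at hy
      obtain ⟨⟨e, e'⟩, hp, rfl⟩ := hy
      rw [Finset.mem_filter, Finset.mem_product] at hp
      obtain ⟨⟨he, he'⟩, hee⟩ := hp
      simp only at he he' hee ⊢
      by_cases hf : e.1 = e'.1
      · rw [Finset.mem_union]
        left
        exact Finset.mem_image.mpr ⟨e, he, by rw [← hf]⟩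
      · rw [Finset.mem_union]
        right
        rw [hE, Finset.mem_image] at he he'
        obtain ⟨x, hx, rfl⟩ := he
        obtain ⟨x', hx', rfl⟩ := he'
        refine Finset.mem_image.mpr ⟨(x, x'), ?_, rfl⟩
        rw [Finset.mem_filter, Finset.mem_product]
        exact ⟨⟨hx, hx'⟩, hee, hf⟩
    have h3 := (Finset.card_le_card hsub).trans (Finset.card_union_le _ _)
    have h4 : (E.image (fun e => (e.1, e.1))).card ≤ E.card := Finset.card_image_le
    have h5 : ((((E ×ˢ E).filter (fun p => p.1.2 = p.2.2)).image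
      (fun p => (p.1.1, p.2.1))).card : ℝ) ≤ (E.card : ℝ) +
        ((((X ×ˢ X).filter (fun p => g p.1 = g p.2 ∧ f p.1 ≠ f p.2)).image
        (fun p => (f p.1, f p.2))).card : ℝ) := by
      exact_mod_cast h3.trans (Nat.add_le_add_right h4 _)
    linarith
  have hPB : ((((E ×ˢ E).filter (fun p => p.1.1 = p.2.1)).image
      (fun p => (p.1.2, p.2.2))).card : ℝ) ≤ m := by
    refine le_trans ?_ hm
    have hsub : ((E ×ˢ E).filter (fun p => p.1.1 = p.2.1)).image (fun p => (p.1.2, p.2.2)) ⊆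
        ((X ×ˢ X).filter (fun p => f p.1 = f p.2)).image (fun p => (g p.1, g p.2)) := by
      intro y hy
      rw [Finset.mem_image] at hy
      obtain ⟨⟨e, e'⟩, hp, rfl⟩ := hy
      rw [Finset.mem_filter, Finset.mem_product] at hp
      obtain ⟨⟨he, he'⟩, hee⟩ := hp
      simp only at he he' hee ⊢
      rw [hE, Finset.mem_image] at he he'
      obtain ⟨x, hx, rfl⟩ := he
      obtain ⟨x', hx', rfl⟩ := he'
      refine Finset.mem_image.mpr ⟨(x, x'), ?_, rfl⟩
      rw [Finset.mem_filter, Finset.mem_product]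
      exact ⟨⟨hx, hx'⟩, hee⟩
    exact_mod_cast Finset.card_le_card hsub
  have hE0 : (0:ℝ) ≤ E.card := Nat.cast_nonneg _
  have h6 : (E.card : ℝ) ^ 2 ≤ (E.card + a) * m := by
    refine hcs.trans (mul_le_mul hPA hPB (Nat.cast_nonneg _) (by positivity))
  rcases le_total a (E.card : ℝ) with h | h
  · refine le_trans ?_ (le_max_left _ _)
    have h7 : (E.card : ℝ) * E.card ≤ E.card * (2 * m) := by nlinarith
    rcases hE0.eq_or_lt with h8 | h8
    · rw [← h8]; positivity
    · exact le_of_mul_le_mul_left h7 h8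
  · refine le_trans ?_ (le_max_right _ _)
    apply Real.le_sqrt_of_sq_le
    nlinarith

end Pool.Agent.Lib.MP_4d5ce1_nt
end

section

/-! Number of values of the finite key, total mass, bounded fibres (used in `BEngine`). -/

set_option autoImplicit false
set_option linter.unusedSectionVars false

open NumberField IsDedekindDomain

namespace Pool.Agent.Lib.MP_4d5ce1_nt

variable {K : Type*} [Field K] [NumberField K] {q : ℕ}

open Classical in
/-- The number of values of the finite key. -/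
lemma be_key1_card [NeZero q] (α : Fin q → K × K)
    (hα : ∀ l m, l ≠ m → wedge (α l) (α m) ≠ 0)
    (bad : Finset (HeightOneSpectrum (𝓞 K))) (hbad : GoodOff α bad) (η : ℝ) (hη : 0 < η) :
    ∃ C : ℝ, 0 < C ∧ ∀ β : ℝ, 0 ≤ β → ∀ X : Finset (K × K),
      (∀ x ∈ X, ∀ l, wedge x (α l) ≠ 0) → (∀ x ∈ X, hh x ≤ β) →
      ((X.image (key1 α bad)).card : ℝ) ≤ C * Real.exp (η * β) := by
  set K₀ : ℝ := ∑ l, (|hh (α l)| + Module.finrank ℚ K) with hK₀
  have hK₀0 : 0 ≤ K₀ := by positivity
  have hKl : ∀ l, |hh (α l)| + Module.finrank ℚ K ≤ K₀ := fun l =>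
    Finset.single_le_sum (f := fun l => |hh (α l)| + (Module.finrank ℚ K : ℝ))
      (fun l _ => by positivity) (Finset.mem_univ l)
  obtain ⟨C₂, hC₂, hpoly⟩ := poly_le_exp (Fintype.card (KeyIdx K q bad)) 2 (2 * K₀ + 2)
    η (by norm_num) (by positivity) (by positivity)
  refine ⟨C₂, hC₂, ?_⟩
  intro β hβ0 X hX hβ
  set N : ℤ := ⌊2 * (β + K₀)⌋ with hN
  have hN0 : 0 ≤ N := Int.floor_nonneg.mpr (by positivity)
  set R₁ : Finset (KeyIdx K q bad → ℤ) := Fintype.piFinset fun _ => Finset.Icc (-1) N with hR₁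
  have hfmt : ∀ x ∈ X, ∀ l, ∑ v ∈ (suppF α bad x).filter (fun v => labF α x v = l),
      (expF α x v : ℝ) * lnv v + idxF α bad x l ≤ β + (|hh (α l)| + Module.finrank ℚ K) := by
    intro x hx l
    have h1 := (abs_le.mp (config_fmt hα hbad (hX x hx) l)).2
    have h2 := hβ x hx
    linarith
  have hidx : ∀ x ∈ X, ∀ l, idxF α bad x l ≤ β + K₀ := by
    intro x hx l
    have h1 := hfmt x hx l
    have h2 : 0 ≤ ∑ v ∈ (suppF α bad x).filter (fun v => labF α x v = l),
      (expF α x v : ℝ) * lnv v :=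
      Finset.sum_nonneg fun v _ => mul_nonneg (Nat.cast_nonneg _) (lnv_pos v).le
    have h3 := hKl l
    linarith
  have hkey1 : ∀ x ∈ X, key1 α bad x ∈ R₁ := by
    intro x hx
    rw [hR₁, Fintype.mem_piFinset]
    intro a
    rw [Finset.mem_Icc]
    rcases a with a | a | a
    · simp only [key1]
      constructor
      · have := Int.floor_nonneg.mpr (hh_nonneg (wedge_left_ne (hX x hx 0)))
        omega
      · rw [hN]
        apply Int.floor_le_floor
        have := hβ x hx
        linarith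
    · simp only [key1]
      constructor
      · rw [Int.le_floor]
        have h1 := lami_ge a.1 (hX x hx a.2)
        have h2 := log_two_le_one
        push_cast
        linarith
      · rw [hN]
        apply Int.floor_le_floor
        have h1 := hidx x hx a.2
        unfold idxF at h1
        have h2 : 0 ≤ ∑ v ∈ bad, (ef v (α a.2) x : ℝ) * lnv v :=
          Finset.sum_nonneg fun v _ => mul_nonneg (Nat.cast_nonneg _) (lnv_pos v).le
        have h3 : (a.1.mult : ℝ) * max 0 (lami a.1 (α a.2) x) ≤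
            ∑ w : InfinitePlace K, (w.mult : ℝ) * max 0 (lami w (α a.2) x) :=
          Finset.single_le_sum (f := fun w : InfinitePlace K =>
            (w.mult : ℝ) * max 0 (lami w (α a.2) x))
            (fun w _ => mul_nonneg (Nat.cast_nonneg _) (le_max_left _ _)) (Finset.mem_univ a.1)
        have h4 := one_le_mult a.1
        have h5 : (0:ℝ) ≤ max 0 (lami a.1 (α a.2) x) := le_max_left _ _
        have h6 : lami a.1 (α a.2) x ≤ max 0 (lami a.1 (α a.2) x) := le_max_right _ _
        nlinarith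
    · simp only [key1]
      constructor
      · omega
      · rw [hN, Int.le_floor]
        have h1 := hidx x hx a.2
        unfold idxF at h1
        have h2 : 0 ≤ ∑ w : InfinitePlace K, (w.mult : ℝ) * max 0 (lami w (α a.2) x) :=
          Finset.sum_nonneg fun w _ => mul_nonneg (Nat.cast_nonneg _) (le_max_left _ _)
        have h3 : (ef a.1.1 (α a.2) x : ℝ) * lnv a.1.1 ≤
            ∑ v ∈ bad, (ef v (α a.2) x : ℝ) * lnv v :=
          Finset.single_le_sum (f := fun v => (ef v (α a.2) x : ℝ) * lnv v)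
            (fun v _ => mul_nonneg (Nat.cast_nonneg _) (lnv_pos v).le) a.1.2
        have h4 := half_le_lnv a.1.1
        have h5 : (0:ℝ) ≤ (ef a.1.1 (α a.2) x : ℝ) := Nat.cast_nonneg _
        push_cast
        nlinarith
  have hsub : X.image (key1 α bad) ⊆ R₁ := by
    intro k hk
    rw [Finset.mem_image] at hk
    obtain ⟨x, hx, rfl⟩ := hk
    exact hkey1 x hx
  have hcardR : (R₁.card : ℝ) ≤ C₂ * Real.exp (η * β) := by
    refine le_trans ?_ (hpoly β hβ0)
    rw [hR₁, Fintype.card_piFinset]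
    simp only [Int.card_Icc, Finset.prod_const, Finset.card_univ]
    push_cast
    apply pow_le_pow_left₀ (by positivity)
    have h1 : ((N + 1 - -1).toNat : ℝ) = (N:ℝ) + 2 := by
      have h2 : (((N + 1 - -1).toNat : ℤ) : ℝ) = ((N + 2 : ℤ) : ℝ) := by
        congr 1
        rw [Int.toNat_of_nonneg (by omega)]
        ring
      rw [Int.cast_natCast] at h2
      rw [h2]
      push_cast
      ring
    rw [h1]
    have h3 : (N:ℝ) ≤ 2 * (β + K₀) := Int.floor_le _
    linarith
  refine le_trans ?_ hcardR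
  exact_mod_cast Finset.card_le_card hsub

open Classical in
/-- The total mass of a configuration. -/
lemma be_exp_sum [NeZero q] {α : Fin q → K × K}
    (hα : ∀ l m, l ≠ m → wedge (α l) (α m) ≠ 0)
    {bad : Finset (HeightOneSpectrum (𝓞 K))} (hbad : GoodOff α bad) {x : K × K}
    (hx : ∀ l, wedge x (α l) ≠ 0) {β : ℝ} (hβ : hh x ≤ β)
    (P : Finset (HeightOneSpectrum (𝓞 K))) (hP : P ⊆ suppF α bad x) :
    ∑ v ∈ P, (expF α x v : ℝ) * lnv v ≤
      q * β + ∑ l, (|hh (α l)| + (Module.finrank ℚ K : ℝ)) := by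
  calc ∑ v ∈ P, (expF α x v : ℝ) * lnv v
      ≤ ∑ v ∈ suppF α bad x, (expF α x v : ℝ) * lnv v :=
        Finset.sum_le_sum_of_subset_of_nonneg hP
          (fun v _ _ => mul_nonneg (Nat.cast_nonneg _) (lnv_pos v).le)
    _ = ∑ l, ∑ v ∈ (suppF α bad x).filter (fun v => labF α x v = l),
          (expF α x v : ℝ) * lnv v :=
        (Finset.sum_fiberwise_of_maps_to (fun v _ => Finset.mem_univ _) _).symm
    _ ≤ ∑ l : Fin q, (β + (|hh (α l)| + Module.finrank ℚ K)) := by
        refine Finset.sum_le_sum fun l _ => ?_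
        have h1 := (abs_le.mp (config_fmt hα hbad hx l)).2
        have h3 := idxF_nonneg α bad x l
        linarith
    _ = _ := by
        rw [Finset.sum_add_distrib, Finset.sum_const, Finset.card_univ, Fintype.card_fin,
          nsmul_eq_mul]

open Classical in
/-- Bounded fibres. -/
lemma be_fibre [NeZero q] (α : Fin q → K × K)
    (hα : ∀ l m, l ≠ m → wedge (α l) (α m) ≠ 0)
    (bad : Finset (HeightOneSpectrum (𝓞 K))) (hbad : GoodOff α bad)
    (i j : Fin q) (hij : i ≠ j) :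
    ∃ C : ℝ, 0 < C ∧ ∀ (X : Finset (K × K)) (P Q : K × K → Finset (HeightOneSpectrum (𝓞 K))),
      (∀ x ∈ X, ∀ l, wedge x (α l) ≠ 0) →
      (∀ x ∈ X, ∀ y ∈ X, x ≠ y → wedge x y ≠ 0) →
      (∀ x ∈ X, P x ⊆ suppF α bad x) → (∀ x ∈ X, Q x ⊆ suppF α bad x) →
      (∀ x ∈ X, ∀ v ∈ suppF α bad x, (labF α x v = i ∨ labF α x v = j) → v ∈ P x ∪ Q x) →
      ∀ p, ((X.filter (fun x => (cd α bad P x, cd α bad Q x) = p)).card : ℝ) ≤ C := by
  obtain ⟨C, hC, hclass⟩ := class_bound α hα bad hbad 1 le_rfl i j hij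
  refine ⟨C, hC, ?_⟩
  intro X P Q hX hXX hP hQ hPQ p
  set Y := X.filter (fun x => (cd α bad P x, cd α bad Q x) = p) with hY
  rcases Y.eq_empty_or_nonempty with h0 | ⟨x₀, hx₀⟩
  · rw [h0, Finset.card_empty, Nat.cast_zero]
    exact hC.le
  have hsub : ∀ x ∈ Y, x ∈ X ∧ cd α bad P x = cd α bad P x₀ ∧ cd α bad Q x = cd α bad Q x₀ := by
    intro x hx
    rw [hY, Finset.mem_filter] at hx hx₀
    have h := hx.2.trans hx₀.2.symm
    rw [Prod.mk.injEq] at h
    exact ⟨hx.1, h.1, h.2⟩
  have hkey : ∀ x ∈ Y, key1 α bad x = key1 α bad x₀ := fun x hx =>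
    congrArg Prod.fst (hsub x hx).2.1
  have hkP : ∀ x ∈ Y, kap α x (P x) = kap α x₀ (P x₀) := fun x hx =>
    congrArg Prod.snd (hsub x hx).2.1
  have hkQ : ∀ x ∈ Y, kap α x (Q x) = kap α x₀ (Q x₀) := fun x hx =>
    congrArg Prod.snd (hsub x hx).2.2
  have hPeq : ∀ x ∈ Y, P x = P x₀ := by
    intro x hx
    rw [← kap_support α x (P x), hkP x hx, kap_support]
  have hQeq : ∀ x ∈ Y, Q x = Q x₀ := by
    intro x hx
    rw [← kap_support α x (Q x), hkQ x hx, kap_support]
  have hx₀X : x₀ ∈ X := (hsub x₀ hx₀).1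
  -- labels and exponents from a code
  have hlabexp : ∀ (R : K × K → Finset (HeightOneSpectrum (𝓞 K))),
      (∀ x ∈ X, R x ⊆ suppF α bad x) → ∀ x ∈ Y, R x = R x₀ →
      kap α x (R x) = kap α x₀ (R x₀) → ∀ v ∈ R x₀,
      labF α x v = labF α x₀ v ∧ expF α x v = expF α x₀ v := by
    intro R hR x hx hRx hk v hv
    have hv' : v ∈ R x := by rw [hRx]; exact hv
    constructor
    · rw [← kap_lab α x (R x) hv', ← kap_lab α x₀ (R x₀) hv, hk]
    · rw [← kap_exp α x (R x) hv' (exp_pos_of_mem (hX x (hsub x hx).1)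
          (hR x (hsub x hx).1 hv')), ← kap_exp α x₀ (R x₀) hv
          (exp_pos_of_mem (hX x₀ hx₀X) (hR x₀ hx₀X hv)), hk]
  have h := hclass Y (P x₀ ∪ Q x₀) (fun v => labF α x₀ v) (fun v => expF α x₀ v)
    (∑ v ∈ P x₀ ∪ Q x₀, lnv v)
    (fun x hx => hX x (hsub x hx).1)
    (fun x hx y hy => hXX x (hsub x hx).1 y (hsub y hy).1)
    (fun x hx => by
      rw [← hPeq x hx, ← hQeq x hx]
      exact Finset.union_subset (hP x (hsub x hx).1) (hQ x (hsub x hx).1))
    (fun x hx v hv => by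
      rw [Finset.mem_union] at hv
      rcases hv with hv | hv
      · exact hlabexp P hP x hx (hPeq x hx) (hkP x hx) v hv
      · exact hlabexp Q hQ x hx (hQeq x hx) (hkQ x hx) v hv)
    (fun x hx v hv hvW hl => one_dvd _)
    (fun x hx y hy => key1_hh ((hkey x hx).trans (hkey y hy).symm))
    (fun x hx y hy => key1_lami ((hkey x hx).trans (hkey y hy).symm))
    (fun x hx y hy v hv => key1_ef ((hkey x hx).trans (hkey y hy).symm) hv)
    (fun x hx => by
      unfold toolCost
      have h1 : (suppF α bad x).filter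
          (fun v => v ∉ P x₀ ∪ Q x₀ ∧ (labF α x v = i ∨ labF α x v = j)) = ∅ := by
        rw [Finset.filter_eq_empty_iff]
        intro v hv hc
        apply hc.1
        rw [← hPeq x hx, ← hQeq x hx]
        exact hPQ x (hsub x hx).1 v hv hc.2
      rw [h1, Finset.sum_empty, zero_div, zero_sub]
      have h2 : 0 ≤ ∑ v ∈ (P x₀ ∪ Q x₀).filter (fun v => labF α x v ≠ i ∧ labF α x v ≠ j),
          (expF α x v : ℝ) * lnv v :=
        Finset.sum_nonneg fun v _ => mul_nonneg (Nat.cast_nonneg _) (lnv_pos v).le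
      have h3 : 0 ≤ ∑ l ∈ Finset.univ.filter (fun l : Fin q => l ≠ i ∧ l ≠ j), idxF α bad x l :=
        Finset.sum_nonneg fun l _ => idxF_nonneg α bad x l
      rw [max_eq_left (by linarith)]
      simp)
  refine h.trans (le_of_eq ?_)
  rw [Nat.cast_one, one_pow, Real.exp_sum]
  have h5 : ∏ v ∈ P x₀ ∪ Q x₀, Real.exp (lnv v) = ∏ v ∈ P x₀ ∪ Q x₀, nv v := by
    refine Finset.prod_congr rfl fun v _ => ?_
    unfold lnv
    rw [Real.exp_log (nv_pos v)]
  have h6 : ∏ v ∈ P x₀ ∪ Q x₀, nv v ≠ 0 := Finset.prod_ne_zero_iff.mpr fun v _ => (nv_pos v).ne'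
  rw [h5]
  field_simp

end Pool.Agent.Lib.MP_4d5ce1_nt
end

section

/-! The bilinear counting theorem. -/

set_option autoImplicit false
set_option linter.unusedSectionVars false

open NumberField IsDedekindDomain

namespace Pool.Agent.Lib.MP_4d5ce1_nt

variable {K : Type*} [Field K] [NumberField K] {q : ℕ}

/-- Change of an instance of a subsingleton class. -/
private lemma be_inst_aux {ι : Type*} [Subsingleton ι] (Q : ι → Prop) (s t : ι) (h : Q s) : Q t :=
  (Subsingleton.elim s t) ▸ h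

/-- `graph_bound` for arbitrary decidability instances. -/
private lemma be_graph_aux {Ω A B : Type*}
    (X : Finset Ω) (f : Ω → A) (g : Ω → B) (M a m : ℝ) (hM0 : 0 ≤ M) (ha0 : 0 ≤ a) (hm0 : 0 ≤ m)
    (i₁ : ∀ p : A × B, DecidablePred (fun x => (f x, g x) = p))
    (hM : ∀ p : A × B, ((X.filter (fun x => (f x, g x) = p)).card : ℝ) ≤ M)
    (i₂ : DecidablePred (fun p : Ω × Ω => g p.1 = g p.2 ∧ f p.1 ≠ f p.2))
    (i₃ : DecidableEq (A × A))
    (ha : ((((X ×ˢ X).filter (fun p => g p.1 = g p.2 ∧ f p.1 ≠ f p.2)).image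
      (fun p => (f p.1, f p.2))).card : ℝ) ≤ a)
    (i₄ : DecidablePred (fun p : Ω × Ω => f p.1 = f p.2))
    (i₅ : DecidableEq (B × B))
    (hm : ((((X ×ˢ X).filter (fun p => f p.1 = f p.2)).image
      (fun p => (g p.1, g p.2))).card : ℝ) ≤ m) :
    (X.card : ℝ) ≤ M * max (2 * m) (Real.sqrt (2 * a * m)) := by
  classical
  refine graph_bound X f g M a m hM0 ha0 hm0 (fun p => ?_) ?_ ?_
  · exact be_inst_aux (fun i : DecidablePred (fun x => (f x, g x) = p) =>
      ((@Finset.filter Ω (fun x => (f x, g x) = p) i X).card : ℝ) ≤ M) _ _ (hM p)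
  · refine be_inst_aux (fun i : DecidablePred (fun p : Ω × Ω => g p.1 = g p.2 ∧ f p.1 ≠ f p.2) =>
      ((@Finset.image _ _ (fun a b => instDecidableEqProd a b) (fun p : Ω × Ω => (f p.1, f p.2))
        (@Finset.filter _ (fun p : Ω × Ω => g p.1 = g p.2 ∧ f p.1 ≠ f p.2) i (X ×ˢ X))).card : ℝ)
          ≤ a) i₂ _ ?_
    exact be_inst_aux (fun i : DecidableEq (A × A) =>
      ((@Finset.image _ _ i (fun p : Ω × Ω => (f p.1, f p.2))
        (@Finset.filter _ (fun p : Ω × Ω => g p.1 = g p.2 ∧ f p.1 ≠ f p.2) i₂ (X ×ˢ X))).card : ℝ)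
          ≤ a) _ _ ha
  · refine be_inst_aux (fun i : DecidablePred (fun p : Ω × Ω => f p.1 = f p.2) =>
      ((@Finset.image _ _ (fun a b => instDecidableEqProd a b) (fun p : Ω × Ω => (g p.1, g p.2))
        (@Finset.filter _ (fun p : Ω × Ω => f p.1 = f p.2) i (X ×ˢ X))).card : ℝ)
          ≤ m) i₄ _ ?_
    exact be_inst_aux (fun i : DecidableEq (B × B) =>
      ((@Finset.image _ _ i (fun p : Ω × Ω => (g p.1, g p.2))
        (@Finset.filter _ (fun p : Ω × Ω => f p.1 = f p.2) i₄ (X ×ˢ X))).card : ℝ)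
          ≤ m) _ _ hm

open Classical in
/-- The number of codes of small radical. -/
lemma be_cd_card [NeZero q] (α : Fin q → K × K)
    (hα : ∀ l m, l ≠ m → wedge (α l) (α m) ≠ 0)
    (bad : Finset (HeightOneSpectrum (𝓞 K))) (hbad : GoodOff α bad) (η : ℝ) (hη : 0 < η) :
    ∃ C : ℝ, 0 < C ∧ ∀ β m : ℝ, 0 ≤ β → ∀ (X : Finset (K × K))
      (P : K × K → Finset (HeightOneSpectrum (𝓞 K))),
      (∀ x ∈ X, ∀ l, wedge x (α l) ≠ 0) → (∀ x ∈ X, hh x ≤ β) →
      (∀ x ∈ X, P x ⊆ suppF α bad x) → (∀ x ∈ X, ∑ v ∈ P x, lnv v ≤ m) →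
      ((X.image (cd α bad P)).card : ℝ) ≤ C * Real.exp (m + η * β) := by
  have hq : 1 ≤ q := Nat.one_le_iff_ne_zero.mpr (NeZero.ne q)
  set K₀ : ℝ := ∑ l, (|hh (α l)| + (Module.finrank ℚ K : ℝ)) with hK₀
  have hK₀0 : 0 ≤ K₀ := by positivity
  obtain ⟨C₁, hC₁, hkey⟩ := be_key1_card α hα bad hbad (η / 2) (by positivity)
  obtain ⟨C₂, hC₂, hcode⟩ := code_count K q hq (q + K₀) (η / 2) (by positivity) (by positivity)
  refine ⟨C₁ * C₂, by positivity, ?_⟩
  intro β m hβ0 X P hX hβ hP hm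
  have h1 := hkey β hβ0 X hX hβ
  have h2 := hcode β m hβ0 (X.image fun x => kap α x (P x)) (by
    intro κ hκ
    rw [Finset.mem_image] at hκ
    obtain ⟨x, hx, rfl⟩ := hκ
    rw [kap_support]
    exact hm x hx) (by
    intro κ hκ
    rw [Finset.mem_image] at hκ
    obtain ⟨x, hx, rfl⟩ := hκ
    rw [kap_support]
    have h3 : ∑ v ∈ P x, (((kap α x (P x) v - 1) / q + 1 : ℕ) : ℝ) * lnv v =
        ∑ v ∈ P x, (expF α x v : ℝ) * lnv v := by
      refine Finset.sum_congr rfl fun v hv => ?_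
      rw [kap_exp α x _ hv (exp_pos_of_mem (hX x hx) (hP x hx hv))]
    rw [h3]
    refine (be_exp_sum hα hbad (hX x hx) (hβ x hx) (P x) (hP x hx)).trans ?_
    rw [← hK₀]
    have hq0 : (0:ℝ) ≤ q := Nat.cast_nonneg _
    nlinarith)
  have hsub : X.image (cd α bad P) ⊆
      (X.image (key1 α bad)) ×ˢ (X.image fun x => kap α x (P x)) := by
    intro k hk
    rw [Finset.mem_image] at hk
    obtain ⟨x, hx, rfl⟩ := hk
    rw [Finset.mem_product]
    exact ⟨Finset.mem_image_of_mem _ hx, Finset.mem_image_of_mem _ hx⟩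
  have h4 : ((X.image (cd α bad P)).card : ℝ) ≤
      ((X.image (key1 α bad)).card : ℝ) * ((X.image fun x => kap α x (P x)).card : ℝ) := by
    rw [← Nat.cast_mul, ← Finset.card_product]
    exact_mod_cast Finset.card_le_card hsub
  calc ((X.image (cd α bad P)).card : ℝ) ≤
      ((X.image (key1 α bad)).card : ℝ) * ((X.image fun x => kap α x (P x)).card : ℝ) := h4
    _ ≤ (C₁ * Real.exp (η / 2 * β)) * (C₂ * Real.exp (m + η / 2 * β)) :=
        mul_le_mul h1 h2 (Nat.cast_nonneg _) (by positivity)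
    _ = C₁ * C₂ * Real.exp (m + η * β) := by
        have : Real.exp (m + η * β) = Real.exp (η / 2 * β) * Real.exp (m + η / 2 * β) := by
          rw [← Real.exp_add]
          congr 1
          ring
        rw [this]
        ring

open Classical in
/-- The bilinear counting theorem. -/
theorem bilinear_of {K : Type*} [Field K] [NumberField K] {q : ℕ} [NeZero q]
    (hoffS : OffStmt K q) (α : Fin q → K × K)
    (hα : ∀ l m, l ≠ m → wedge (α l) (α m) ≠ 0)
    (bad : Finset (HeightOneSpectrum (𝓞 K))) (hbad : GoodOff α bad)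
    (i j : Fin q) (hij : i ≠ j) (N : ℕ) (η : ℝ) (hη : 0 < η) :
    ∃ C : ℝ, 0 < C ∧ ∀ (β a m : ℝ) (X : Finset (K × K))
      (U V T : K × K → Finset (HeightOneSpectrum (𝓞 K))),
    0 ≤ a → 0 ≤ m →
    (∀ x ∈ X, ∀ l, wedge x (α l) ≠ 0) →
    (∀ x ∈ X, ∀ y ∈ X, x ≠ y → wedge x y ≠ 0) →
    (∀ x ∈ X, hh x ≤ β) →
    (∀ x ∈ X, Disjoint (U x) (V x)) →
    (∀ x ∈ X, U x ∪ V x = (suppF α bad x).filter fun v => labF α x v = i ∨ labF α x v = j) →
    (∀ x ∈ X, T x ⊆ (suppF α bad x).filter fun v => labF α x v ≠ i ∧ labF α x v ≠ j) →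
    (∀ x ∈ X, ∑ v ∈ V x ∪ T x, lnv v ≤ m) →
    -- the `V`-side tools
    (∀ x ∈ X, ∀ x' ∈ X,
      cd α bad (fun x => U x ∪ T x) x = cd α bad (fun x => U x ∪ T x) x' →
      cd α bad (fun x => V x ∪ T x) x ≠ cd α bad (fun x => V x ∪ T x) x' →
      ∃ n : ℕ, 1 ≤ n ∧ n ≤ N ∧ ∃ W : Finset (HeightOneSpectrum (𝓞 K)),
        W ⊆ suppF (al3 K) bad (yy α i j x x') ∧
        (∀ v ∈ suppF (al3 K) bad (yy α i j x x'), v ∉ W →
          (labF (al3 K) (yy α i j x x') v = 0 ∨ labF (al3 K) (yy α i j x x') v = 1) →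
          n ∣ expF (al3 K) (yy α i j x x') v) ∧
        toolCost (suppF (al3 K) bad (yy α i j x x')) (labF (al3 K) (yy α i j x x'))
          (expF (al3 K) (yy α i j x x')) lnv (idxF (al3 K) bad (yy α i j x x')) n 0 1 W +
          ∑ v ∈ comm α V x x', lnv v ≤ m) →
    -- the `U`-side tools
    (∀ x ∈ X, ∀ x' ∈ X,
      cd α bad (fun x => V x ∪ T x) x = cd α bad (fun x => V x ∪ T x) x' →
      cd α bad (fun x => U x ∪ T x) x ≠ cd α bad (fun x => U x ∪ T x) x' →
      ∃ n : ℕ, 1 ≤ n ∧ n ≤ N ∧ ∃ W : Finset (HeightOneSpectrum (𝓞 K)),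
        W ⊆ suppF (al3 K) bad (yy α i j x x') ∧
        (∀ v ∈ suppF (al3 K) bad (yy α i j x x'), v ∉ W →
          (labF (al3 K) (yy α i j x x') v = 0 ∨ labF (al3 K) (yy α i j x x') v = 1) →
          n ∣ expF (al3 K) (yy α i j x x') v) ∧
        toolCost (suppF (al3 K) bad (yy α i j x x')) (labF (al3 K) (yy α i j x x'))
          (expF (al3 K) (yy α i j x x')) lnv (idxF (al3 K) bad (yy α i j x x')) n 0 1 W +
          ∑ v ∈ comm α U x x', lnv v ≤ a) →
    (X.card : ℝ) ≤ C * Real.exp (max m ((a + m) / 2) + η * β) := by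
  obtain ⟨C₁, hC₁, hoff⟩ := hoffS α hα bad hbad i j hij N η hη
  obtain ⟨C₂, hC₂, hcd⟩ := be_cd_card α hα bad hbad η hη
  obtain ⟨C₃, hC₃, hfib⟩ := be_fibre α hα bad hbad i j hij
  refine ⟨C₃ * (2 * (C₁ + C₂)), by positivity, ?_⟩
  intro β a m X U V T ha hm hX hXX hβ hdisj hUV hT hVT hVtool hUtool
  rcases X.eq_empty_or_nonempty with rfl | ⟨x₁, hx₁⟩
  · simp only [Finset.card_empty, Nat.cast_zero]
    positivity
  have hβ0 : 0 ≤ β := (hh_nonneg (wedge_left_ne (hX x₁ hx₁ i))).trans (hβ x₁ hx₁)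
  have hUs : ∀ x ∈ X, U x ⊆ suppF α bad x := by
    intro x hx v hv
    have h1 : v ∈ U x ∪ V x := Finset.mem_union_left _ hv
    rw [hUV x hx, Finset.mem_filter] at h1
    exact h1.1
  have hVs : ∀ x ∈ X, V x ⊆ suppF α bad x := by
    intro x hx v hv
    have h1 : v ∈ U x ∪ V x := Finset.mem_union_right _ hv
    rw [hUV x hx, Finset.mem_filter] at h1
    exact h1.1
  have hTs : ∀ x ∈ X, T x ⊆ suppF α bad x := by
    intro x hx v hv
    have h1 := hT x hx hv
    rw [Finset.mem_filter] at h1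
    exact h1.1
  have hdisj' : ∀ x ∈ X, Disjoint (V x) (U x) := fun x hx => (hdisj x hx).symm
  have hVU : ∀ x ∈ X, V x ∪ U x =
      (suppF α bad x).filter fun v => labF α x v = i ∨ labF α x v = j := by
    intro x hx
    rw [Finset.union_comm]
    exact hUV x hx
  have hA := hoff β a X U V T ha hX hXX hβ hdisj hUV hT hUtool
  have hM := hoff β m X V U T hm hX hXX hβ hdisj' hVU hT hVtool
  have hG := hcd β m hβ0 X (fun x => V x ∪ T x) hX hβ
    (fun x hx => Finset.union_subset (hVs x hx) (hTs x hx)) hVT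
  have hF := hfib X (fun x => U x ∪ T x) (fun x => V x ∪ T x) hX hXX
    (fun x hx => Finset.union_subset (hUs x hx) (hTs x hx))
    (fun x hx => Finset.union_subset (hVs x hx) (hTs x hx))
    (fun x hx v hv hl => by
      have h1 : v ∈ U x ∪ V x := by
        rw [hUV x hx, Finset.mem_filter]
        exact ⟨hv, hl⟩
      simp only [Finset.mem_union] at h1 ⊢
      tauto)
  set f := cd α bad (fun x => U x ∪ T x) with hf
  set g := cd α bad (fun x => V x ∪ T x) with hg
  have hm' : ((((X ×ˢ X).filter (fun p => f p.1 = f p.2)).image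
      (fun p => (g p.1, g p.2))).card : ℝ) ≤ (C₁ + C₂) * Real.exp (m + η * β) := by
    have hsub : ((X ×ˢ X).filter (fun p => f p.1 = f p.2)).image (fun p => (g p.1, g p.2)) ⊆
        ((X ×ˢ X).filter (fun p => f p.1 = f p.2 ∧ g p.1 ≠ g p.2)).image
          (fun p => (g p.1, g p.2)) ∪ (X.image g).image (fun y => (y, y)) := by
      intro y hy
      rw [Finset.mem_image] at hy
      obtain ⟨p, hp, rfl⟩ := hy
      rw [Finset.mem_filter, Finset.mem_product] at hp
      by_cases h1 : g p.1 = g p.2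
      · apply Finset.mem_union_right
        rw [Finset.mem_image]
        exact ⟨g p.1, Finset.mem_image_of_mem _ hp.1.1, by rw [← h1]⟩
      · apply Finset.mem_union_left
        rw [Finset.mem_image]
        refine ⟨p, ?_, rfl⟩
        rw [Finset.mem_filter, Finset.mem_product]
        exact ⟨hp.1, hp.2, h1⟩
    have h1 := (Finset.card_le_card hsub).trans (Finset.card_union_le _ _)
    have h2 : ((X.image g).image (fun y => (y, y))).card ≤ (X.image g).card :=
      Finset.card_image_le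
    have h3 : ((((X ×ˢ X).filter (fun p => f p.1 = f p.2)).image
      (fun p => (g p.1, g p.2))).card : ℝ) ≤
      ((((X ×ˢ X).filter (fun p => f p.1 = f p.2 ∧ g p.1 ≠ g p.2)).image
          (fun p => (g p.1, g p.2))).card : ℝ) + ((X.image g).card : ℝ) := by
      exact_mod_cast h1.trans (Nat.add_le_add_left h2 _)
    rw [add_mul]
    exact h3.trans (add_le_add hM hG)
  have hgb := be_graph_aux X f g C₃ (C₁ * Real.exp (a + η * β))
    ((C₁ + C₂) * Real.exp (m + η * β)) hC₃.le (by positivity) (by positivity)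
    _ hF _ _ hA _ _ hm'
  refine hgb.trans ?_
  rw [mul_assoc C₃]
  apply mul_le_mul_of_nonneg_left _ hC₃.le
  set Z := max m ((a + m) / 2) with hZ
  apply max_le
  · have h1 : Real.exp (m + η * β) ≤ Real.exp (Z + η * β) :=
      Real.exp_le_exp.mpr (by have := le_max_left m ((a + m) / 2); rw [← hZ] at this; linarith)
    nlinarith
  · rw [Real.sqrt_le_left (by positivity)]
    have h1 : Real.exp (a + η * β) * Real.exp (m + η * β) ≤ Real.exp (Z + η * β) ^ 2 := by
      rw [← Real.exp_add, ← Real.exp_nat_mul]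
      apply Real.exp_le_exp.mpr
      have := le_max_right m ((a + m) / 2)
      rw [← hZ] at this
      push_cast
      linarith
    have h2 : 0 < Real.exp (a + η * β) := Real.exp_pos _
    have h3 : 0 < Real.exp (m + η * β) := Real.exp_pos _
    calc 2 * (C₁ * Real.exp (a + η * β)) * ((C₁ + C₂) * Real.exp (m + η * β))
        = 2 * (C₁ * (C₁ + C₂)) * (Real.exp (a + η * β) * Real.exp (m + η * β)) := by ring
      _ ≤ 4 * (C₁ + C₂) ^ 2 * (Real.exp (a + η * β) * Real.exp (m + η * β)) := by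
          apply mul_le_mul_of_nonneg_right _ (by positivity)
          nlinarith [mul_pos hC₁ hC₂, sq_nonneg C₁, sq_nonneg C₂]
      _ ≤ 4 * (C₁ + C₂) ^ 2 * Real.exp (Z + η * β) ^ 2 :=
          mul_le_mul_of_nonneg_left h1 (by positivity)
      _ = (2 * (C₁ + C₂) * Real.exp (Z + η * β)) ^ 2 := by ring

end Pool.Agent.Lib.MP_4d5ce1_nt
end

section

set_option autoImplicit false
set_option linter.unusedSectionVars false

open NumberField IsDedekindDomain

namespace Pool.Agent.Lib.MP_4d5ce1_nt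

/-- Coordinates of a configuration. -/
noncomputable def coo (E : ℕ) (p : Cfg) (c : Fin 3 × Fin (E + 1)) : ℝ :=
  if (c.2 : ℕ) < E then p.S c.1 c.2 else p.J c.1

lemma close_of_floor {E : ℕ} {δ : ℝ} (hδ : 0 < δ) {p q : Cfg}
    (h : ∀ c : Fin 3 × Fin (E + 1), ⌊coo E p c / δ⌋ = ⌊coo E q c / δ⌋) : Close E δ p q := by
  have key : ∀ c : Fin 3 × Fin (E + 1), |coo E p c - coo E q c| ≤ δ := by
    intro c
    have h1 := Int.abs_sub_lt_one_of_floor_eq_floor (h c)
    rw [← sub_div, abs_div, abs_of_pos hδ, div_lt_one hδ] at h1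
    exact h1.le
  constructor
  · intro l b hb
    have hb' := Finset.mem_range.mp hb
    have := key (l, ⟨b, by omega⟩)
    simpa [coo, hb'] using this
  · intro l
    have := key (l, ⟨E, by omega⟩)
    simpa [coo] using this

universe u

lemma sel_sum_or' {ι : Type*} [DecidableEq ι] (P : Finset ι) (lab : ι → Fin 3) (g : ι → ℝ) :
    ∑ v ∈ P.filter (fun v => lab v = 0 ∨ lab v = 1), g v =
      ∑ v ∈ P.filter (fun v => lab v = 0), g v + ∑ v ∈ P.filter (fun v => lab v = 1), g v := by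
  rw [Finset.filter_or, Finset.sum_union]
  rw [Finset.disjoint_filter]
  intro v _ h1 h2
  rw [h1] at h2
  exact absurd h2 (by decide)

open Classical in
/-- The transfer theorem. -/
theorem bil_counting_of {K : Type u} [Field K] [NumberField K] (hbilS : BilStmt K 3) (E : ℕ) (hE : 2 ≤ E) (θ : ℝ)
    (hθ : 0 ≤ θ) (hcert : Cert E θ)
    (S : Set (HeightOneSpectrum (𝓞 K))) (hS : S.Finite)
    (α : Fin 3 → K × K) (hα : ∀ l m, l ≠ m → wedge (α l) (α m) ≠ 0)
    (c₀ η : ℝ) (hη : 0 < η) :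
    ∃ C : ℝ, ∀ B : ℝ, 1 ≤ B → ∀ X : Finset (K × K),
      (∀ x ∈ X, ∀ l, wedge x (α l) ≠ 0) →
      (∀ x ∈ X, ∀ y ∈ X, x ≠ y → wedge x y ≠ 0) →
      (∀ x ∈ X, Real.exp (ht x) ≤ B) →
      (∀ x ∈ X, trunc S α x ≤ ht x + c₀) →
      (X.card : ℝ) ≤ C * B ^ (θ * (Module.finrank ℚ K : ℝ) + η) := by
  have hd : (0:ℝ) < Module.finrank ℚ K := by exact_mod_cast finrank_pos'
  set d : ℝ := (Module.finrank ℚ K : ℝ) with hdd
  obtain ⟨bad, hSb, hbad⟩ := exists_bad α hα S hS
  obtain ⟨C₁, δ, R₀, hC₁, hδ, hR₀, hcell⟩ := cell_bound hbilS hE θ hθ hcert α hα bad hbad (d * |c₀|)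
    (η / (2 * d)) (by positivity)
  obtain ⟨C₂, hC₂, hsmall⟩ := master α hα bad hbad 1 le_rfl 0 1 (by decide) 1 one_pos
  obtain ⟨C₃, hC₃, hpoly⟩ := poly_le_exp 1 1 3 (η / (2 * d)) zero_le_one (by norm_num)
    (by positivity)
  set K₀ : ℝ := ∑ l, (|hh (α l)| + d) with hK₀
  have hK₀0 : 0 ≤ K₀ := by positivity
  have hKl : ∀ l, |hh (α l)| + d ≤ K₀ := fun l =>
    Finset.single_le_sum (f := fun l => |hh (α l)| + d)
      (fun l _ => by positivity) (Finset.mem_univ l)
  set M : ℤ := ⌊(2 + d * |c₀| + K₀) / δ⌋ with hM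
  set cells : Finset (Fin 3 × Fin (E + 1) → ℤ) :=
    Fintype.piFinset (fun _ => Finset.Icc 0 M) with hcells
  refine ⟨C₂ * Real.exp (2 * (R₀ + K₀) + 1 * R₀) + C₁ * cells.card * C₃, ?_⟩
  intro B hB X hX hXX hH hN
  have hB0 : 0 < B := by linarith
  set β : ℝ := d * Real.log B with hβ
  have hβ0 : 0 ≤ β := mul_nonneg hd.le (Real.log_nonneg hB)
  have hhβ : ∀ x ∈ X, hh x ≤ β := by
    intro x hx
    have h1 := hH x hx
    rw [← Real.le_log_iff_exp_le hB0, ht_eq, div_le_iff₀ hd] at h1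
    rw [hβ]
    linarith
  have hh0 : ∀ x ∈ X, 0 ≤ hh x := fun x hx => hh_nonneg (wedge_left_ne (hX x hx 0))
  have hrad : ∀ x ∈ X, ∑ v ∈ suppF α bad x, lnv v ≤ hh x + d * |c₀| := by
    intro x hx
    have h1 := trunc_ge α bad S hSb (hX x hx)
    have h2 := hN x hx
    have h3 : d * trunc S α x ≤ d * (ht x + c₀) := mul_le_mul_of_nonneg_left h2 hd.le
    have h4 : d * (ht x + c₀) = hh x + d * c₀ := by
      rw [ht_eq, ← hdd]
      field_simp
    have h5 : d * c₀ ≤ d * |c₀| := mul_le_mul_of_nonneg_left (le_abs_self _) hd.le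
    linarith
  -- splitting
  have hsplit : X.card = (X.filter (fun x => hh x ≤ R₀)).card +
      (X.filter (fun x => ¬ hh x ≤ R₀)).card :=
    (Finset.card_filter_add_card_filter_not (fun x => hh x ≤ R₀)).symm
  -- small heights
  have hX1 : ((X.filter (fun x => hh x ≤ R₀)).card : ℝ) ≤
      C₂ * Real.exp (2 * (R₀ + K₀) + 1 * R₀) := by
    refine hsmall R₀ _ _ ?_ ?_ ?_ ?_
    · intro x hx
      exact hX x (Finset.mem_filter.mp hx).1
    · intro x hx y hy
      exact hXX x (Finset.mem_filter.mp hx).1 y (Finset.mem_filter.mp hy).1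
    · intro x hx
      exact (Finset.mem_filter.mp hx).2
    · intro x hx
      obtain ⟨hx1, hx2⟩ := Finset.mem_filter.mp hx
      refine ⟨∅, Finset.empty_subset _, fun _ _ _ _ => one_dvd _, ?_⟩
      unfold toolCost
      have h0 := config_fmt hα hbad (hX x hx1) 0
      have h1 := config_fmt hα hbad (hX x hx1) 1
      rw [abs_le] at h0 h1
      have h2 := sel_sum_or' (suppF α bad x) (labF α x)
        (fun v => (expF α x v : ℝ) * lnv v)
      have h3 := hKl 0
      have h4 := hKl 1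
      have h5 := idxF_nonneg α bad x
      have h6 : 0 ≤ ∑ l ∈ Finset.univ.filter (fun l : Fin 3 => l ≠ 0 ∧ l ≠ 1),
          idxF α bad x l := Finset.sum_nonneg fun l _ => h5 l
      simp only [Finset.sum_empty, Finset.filter_empty, Nat.cast_one, div_one, sub_zero,
        zero_add, Finset.notMem_empty, not_false_eq_true, true_and]
      apply max_le
      · have := hh0 x hx1
        linarith
      · have h7 := h5 0
        have h8 := h5 1
        linarith [h0.2, h1.2]
  -- large heights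
  set Y := X.filter (fun x => ¬ hh x ≤ R₀) with hY
  set f : K × K → ℕ × (Fin 3 × Fin (E + 1) → ℤ) := fun x =>
    (⌈hh x⌉₊, fun c => ⌊coo E (qc E α bad (⌈hh x⌉₊ : ℝ) x) c / δ⌋) with hf
  have hYmem : ∀ x ∈ Y, x ∈ X ∧ R₀ < hh x := by
    intro x hx
    obtain ⟨h1, h2⟩ := Finset.mem_filter.mp hx
    exact ⟨h1, not_le.mp h2⟩
  have hceil : ∀ x ∈ Y, R₀ ≤ (⌈hh x⌉₊ : ℝ) ∧ (⌈hh x⌉₊ : ℝ) ≤ β + 1 ∧
      |hh x - (⌈hh x⌉₊ : ℝ)| ≤ 1 := by
    intro x hx
    obtain ⟨h1, h2⟩ := hYmem x hx
    have h3 := Nat.le_ceil (hh x)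
    have h4 := Nat.ceil_lt_add_one (hh0 x h1)
    have h5 := hhβ x h1
    refine ⟨by linarith, by linarith, ?_⟩
    rw [abs_le]
    constructor <;> linarith
  have hmaps : ∀ x ∈ Y, f x ∈ Finset.range (⌈β⌉₊ + 2) ×ˢ cells := by
    intro x hx
    obtain ⟨h1, h2⟩ := hYmem x hx
    obtain ⟨h3, h4, h5⟩ := hceil x hx
    rw [Finset.mem_product]
    constructor
    · rw [Finset.mem_range]
      have h6 : (⌈hh x⌉₊ : ℝ) ≤ ((⌈β⌉₊ + 1 : ℕ) : ℝ) := by
        push_cast
        have := Nat.le_ceil β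
        linarith
      have h7 : ⌈hh x⌉₊ ≤ ⌈β⌉₊ + 1 := by exact_mod_cast h6
      simp only [hf]
      omega
    · rw [hcells, Fintype.mem_piFinset]
      intro c
      rw [Finset.mem_Icc]
      have hr0 : (0:ℝ) < ⌈hh x⌉₊ := by linarith
      have hle1 := (abs_le.mp h5).2
      -- bounds for the coordinates
      have hb : 0 ≤ coo E (qc E α bad (⌈hh x⌉₊ : ℝ) x) c ∧
          coo E (qc E α bad (⌈hh x⌉₊ : ℝ) x) c ≤ 2 + d * |c₀| + K₀ := by
        have hrr : (1:ℝ) ≤ ⌈hh x⌉₊ := by linarith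
        have hdc : 0 ≤ d * |c₀| := by positivity
        unfold coo
        split_ifs with hc
        · have e1 : ((⌈hh x⌉₊ : ℝ)) * (qc E α bad (⌈hh x⌉₊ : ℝ) x).S c.1 c.2 =
            bs E (suppF α bad x) (labF α x) (expF α x) lnv c.1 c.2 :=
            cf_S E hr0 _ _ _ _ _ _ _
          have e2 : bs E (suppF α bad x) (labF α x) (expF α x) lnv c.1 c.2 ≤
              ∑ v ∈ suppF α bad x, lnv v := by
            unfold bs
            exact Finset.sum_le_sum_of_subset_of_nonneg (Finset.filter_subset _ _)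
              fun v _ _ => (lnv_pos v).le
          have e3 := bs_nonneg E (suppF α bad x) (labF α x) (expF α x) lnv
            (fun v _ => (lnv_pos v).le) c.1 c.2
          have e4 := hrad x h1
          constructor
          · rw [← e1] at e3
            exact (mul_nonneg_iff_of_pos_left hr0).mp e3
          · apply le_of_mul_le_mul_left _ hr0
            rw [e1]
            nlinarith
        · have e1 : ((⌈hh x⌉₊ : ℝ)) * (qc E α bad (⌈hh x⌉₊ : ℝ) x).J c.1 =
            bs E (suppF α bad x) (labF α x) (expF α x)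
              (fun v => (expF α x v : ℝ) * lnv v) c.1 (E - 1) + idxF α bad x c.1 := by
            simp only [qc, cf]
            field_simp
          have hw0 : ∀ v, 0 ≤ (expF α x v : ℝ) * lnv v := fun v =>
            mul_nonneg (Nat.cast_nonneg _) (lnv_pos v).le
          have e2 : bs E (suppF α bad x) (labF α x) (expF α x)
              (fun v => (expF α x v : ℝ) * lnv v) c.1 (E - 1) ≤
              ∑ v ∈ (suppF α bad x).filter (fun v => labF α x v = c.1),
                (expF α x v : ℝ) * lnv v := by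
            unfold bs
            apply Finset.sum_le_sum_of_subset_of_nonneg
            · intro v hv
              obtain ⟨g1, g2, _⟩ := Finset.mem_filter.mp hv
              exact Finset.mem_filter.mpr ⟨g1, g2⟩
            · intro v _ _
              exact hw0 v
          have e3 := bs_nonneg E (suppF α bad x) (labF α x) (expF α x)
            (fun v => (expF α x v : ℝ) * lnv v) (fun v _ => hw0 v) c.1 (E - 1)
          have e4 := (abs_le.mp (config_fmt hα hbad (hX x h1) c.1)).2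
          have e5 := hKl c.1
          have e6 := idxF_nonneg α bad x c.1
          constructor
          · have : 0 ≤ ((⌈hh x⌉₊ : ℝ)) * (qc E α bad (⌈hh x⌉₊ : ℝ) x).J c.1 := by
              rw [e1]; linarith
            exact (mul_nonneg_iff_of_pos_left hr0).mp this
          · apply le_of_mul_le_mul_left _ hr0
            rw [e1]
            nlinarith
      constructor
      · exact Int.floor_nonneg.mpr (div_nonneg hb.1 hδ.le)
      · rw [hM]
        exact Int.floor_le_floor (div_le_div_of_nonneg_right hb.2 hδ.le)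
  have hfib : ∀ b ∈ Finset.range (⌈β⌉₊ + 2) ×ˢ cells,
      ((Y.filter (fun x => f x = b)).card : ℝ) ≤
        C₁ * Real.exp (θ * β + η / (2 * d) * β) := by
    intro b _
    rcases (Y.filter (fun x => f x = b)).eq_empty_or_nonempty with hem | ⟨x₀, hx₀⟩
    · rw [hem, Finset.card_empty, Nat.cast_zero]
      positivity
    · have hmem : ∀ x ∈ Y.filter (fun x => f x = b), x ∈ Y ∧ f x = b := fun x hx =>
        Finset.mem_filter.mp hx
      have hb1 : ∀ x ∈ Y.filter (fun x => f x = b), ⌈hh x⌉₊ = b.1 := by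
        intro x hx
        rw [← (hmem x hx).2]
      obtain ⟨h1, h2⟩ := hmem x₀ hx₀
      obtain ⟨h3, h4, h5⟩ := hceil x₀ h1
      rw [hb1 x₀ hx₀] at h3 h4
      refine hcell β b.1 _ h3 h4 ?_ ?_ ?_ ?_ ?_ ?_
      · intro x hx
        exact hX x (hYmem x (hmem x hx).1).1
      · intro x hx y hy
        exact hXX x (hYmem x (hmem x hx).1).1 y (hYmem y (hmem y hy).1).1
      · intro x hx
        exact hhβ x (hYmem x (hmem x hx).1).1
      · intro x hx
        have := (hceil x (hmem x hx).1).2.2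
        rwa [hb1 x hx] at this
      · intro x hx
        exact hrad x (hYmem x (hmem x hx).1).1
      · intro x hx y hy
        apply close_of_floor hδ
        intro c
        have g1 := congrArg (fun p => p.2 c) (hmem x hx).2
        have g2 := congrArg (fun p => p.2 c) (hmem y hy).2
        simp only [hf, hb1 x hx, hb1 y hy] at g1 g2
        rw [g1, g2]
  have hYcard : (Y.card : ℝ) ≤ ((⌈β⌉₊ + 2 : ℕ) : ℝ) * cells.card *
      (C₁ * Real.exp (θ * β + η / (2 * d) * β)) := by
    rw [Finset.card_eq_sum_card_fiberwise (f := f)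
      (t := Finset.range (⌈β⌉₊ + 2) ×ˢ cells) hmaps]
    push_cast
    calc ∑ b ∈ Finset.range (⌈β⌉₊ + 2) ×ˢ cells, ((Y.filter (fun x => f x = b)).card : ℝ)
        ≤ ∑ b ∈ Finset.range (⌈β⌉₊ + 2) ×ˢ cells,
          C₁ * Real.exp (θ * β + η / (2 * d) * β) := Finset.sum_le_sum hfib
      _ = _ := by
        rw [Finset.sum_const, Finset.card_product, Finset.card_range, nsmul_eq_mul]
        push_cast
        ring
  have hβ3 : ((⌈β⌉₊ + 2 : ℕ) : ℝ) ≤ C₃ * Real.exp (η / (2 * d) * β) := by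
    have h1 := hpoly β hβ0
    have h2 := Nat.ceil_lt_add_one hβ0
    push_cast
    rw [pow_one] at h1
    linarith
  have hexp : Real.exp (η / (2 * d) * β) * Real.exp (θ * β + η / (2 * d) * β) =
      B ^ (θ * d + η) := by
    rw [Real.rpow_def_of_pos hB0, ← Real.exp_add]
    congr 1
    rw [hβ]
    field_simp
    ring
  have hY2 : (Y.card : ℝ) ≤ C₁ * cells.card * C₃ * B ^ (θ * d + η) := by
    rw [← hexp]
    refine hYcard.trans ?_
    have hc : (0:ℝ) ≤ cells.card := Nat.cast_nonneg _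
    have he := Real.exp_pos (θ * β + η / (2 * d) * β)
    calc ((⌈β⌉₊ + 2 : ℕ) : ℝ) * cells.card * (C₁ * Real.exp (θ * β + η / (2 * d) * β))
        ≤ (C₃ * Real.exp (η / (2 * d) * β)) * cells.card *
          (C₁ * Real.exp (θ * β + η / (2 * d) * β)) := by
          apply mul_le_mul_of_nonneg_right _ (by positivity)
          exact mul_le_mul_of_nonneg_right hβ3 hc
      _ = _ := by ring
  have hB1 : 1 ≤ B ^ (θ * d + η) := Real.one_le_rpow hB (by positivity)
  rw [hsplit]
  push_cast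
  rw [add_mul]
  apply add_le_add _ hY2
  refine hX1.trans ?_
  exact le_mul_of_one_le_right (by positivity) hB1

end Pool.Agent.Lib.MP_4d5ce1_nt
end

section

/-! The bilinear counting theorem and the transfer theorem. -/

set_option autoImplicit false

open NumberField IsDedekindDomain

namespace Pool.Agent.Lib.MP_4d5ce1_nt

universe u

theorem offStmt (K : Type u) [Field K] [NumberField K] (q : ℕ) [NeZero q] : OffStmt K q := by
  intro α hα bad hbad i j hij N η hη
  exact offdiag α hα bad hbad i j hij N η hη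

theorem bilStmt (K : Type u) [Field K] [NumberField K] (q : ℕ) [NeZero q] : BilStmt K q := by
  intro α hα bad hbad i j hij N η hη
  exact bilinear_of (offStmt K q) α hα bad hbad i j hij N η hη

open Classical in
/-- The transfer theorem. -/
theorem bil_counting {K : Type u} [Field K] [NumberField K] (E : ℕ) (hE : 2 ≤ E) (θ : ℝ)
    (hθ : 0 ≤ θ) (hcert : Cert E θ)
    (S : Set (HeightOneSpectrum (𝓞 K))) (hS : S.Finite)
    (α : Fin 3 → K × K) (hα : ∀ l m, l ≠ m → wedge (α l) (α m) ≠ 0)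
    (c₀ η : ℝ) (hη : 0 < η) :
    ∃ C : ℝ, ∀ B : ℝ, 1 ≤ B → ∀ X : Finset (K × K),
      (∀ x ∈ X, ∀ l, wedge x (α l) ≠ 0) →
      (∀ x ∈ X, ∀ y ∈ X, x ≠ y → wedge x y ≠ 0) →
      (∀ x ∈ X, Real.exp (ht x) ≤ B) →
      (∀ x ∈ X, trunc S α x ≤ ht x + c₀) →
      (X.card : ℝ) ≤ C * B ^ (θ * (Module.finrank ℚ K : ℝ) + η) :=
  bil_counting_of (bilStmt K 3) E hE θ hθ hcert S hS α hα c₀ η hη

end Pool.Agent.Lib.MP_4d5ce1_nt
end
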