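import Pool.Agent.Lib.MP_4d5ce1_nt.Basic

set_option autoImplicit false

open NumberField IsDedekindDomain

namespace Pool.Agent.Lib.MP_4d5ce1_nt

open scoped nonZeroDivisors
open FractionalIdeal

section Kummer

variable {K : Type*} [Field K] [NumberField K]

lemma count_spanSingleton_alg (v : HeightOneSpectrum (𝓞 K)) {r : 𝓞 K} (hr : r ≠ 0) :
    FractionalIdeal.count K v (spanSingleton (𝓞 K)⁰ (algebraMap (𝓞 K) K r)) =
      ordv v (algebraMap (𝓞 K) K r) := by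
  classical
  rw [← coeIdeal_span_singleton, FractionalIdeal.count_coe K v
    (by simpa only [Submodule.zero_eq_bot, ne_eq, Ideal.span_singleton_eq_bot] using hr)]
  unfold ordv
  rw [HeightOneSpectrum.valuation_of_algebraMap, HeightOneSpectrum.intValuation_if_neg v hr,
    WithZero.log_exp]
  simp

lemma count_spanSingleton (v : HeightOneSpectrum (𝓞 K)) {x : K} (hx : x ≠ 0) :
    FractionalIdeal.count K v (spanSingleton (𝓞 K)⁰ x) = ordv v x := by
  obtain ⟨r, s, hs, rfl⟩ := IsFractionRing.div_surjective (A := 𝓞 K) x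
  have hs0 : s ≠ 0 := nonZeroDivisors.ne_zero hs
  have hsK : algebraMap (𝓞 K) K s ≠ 0 := by
    simpa using hs0
  have hrK : algebraMap (𝓞 K) K r ≠ 0 := by
    intro h; apply hx; rw [h, zero_div]
  have hr0 : r ≠ 0 := by
    intro h; apply hrK; rw [h, map_zero]
  rw [ordv_div v hrK hsK, ← count_spanSingleton_alg v hr0, ← count_spanSingleton_alg v hs0,
    div_eq_mul_inv, ← spanSingleton_mul_spanSingleton, FractionalIdeal.count_mul,
    ← spanSingleton_inv, FractionalIdeal.count_inv]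
  · ring
  · exact spanSingleton_ne_zero_iff.mpr hrK
  · exact spanSingleton_ne_zero_iff.mpr (inv_ne_zero hsK)

/-- If all orders of `x` are divisible by `n`, the principal fractional ideal is an `n`-th power. -/
lemma exists_root_ideal (n : ℕ) (hn : 1 ≤ n) {x : K} (hx : x ≠ 0)
    (h : ∀ v : HeightOneSpectrum (𝓞 K), (n : ℤ) ∣ ordv v x) :
    ∃ J : (FractionalIdeal (𝓞 K)⁰ K)ˣ,
      (J : FractionalIdeal (𝓞 K)⁰ K) ^ n = spanSingleton (𝓞 K)⁰ x := by
  choose e he using h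
  have hx' : spanSingleton (𝓞 K)⁰ x ≠ 0 := spanSingleton_ne_zero_iff.mpr hx
  have key : (∏ᶠ v : HeightOneSpectrum (𝓞 K),
      (v.asIdeal : FractionalIdeal (𝓞 K)⁰ K) ^ (e v)) ^ n = spanSingleton (𝓞 K)⁰ x := by
    rw [finprod_pow]
    · rw [← FractionalIdeal.finprod_heightOneSpectrum_factorization' K hx']
      refine finprod_congr fun v => ?_
      rw [count_spanSingleton v hx, he v, ← zpow_natCast, ← zpow_mul, mul_comm]
    · refine (finite_ordv_ne_zero hx).subset ?_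
      intro v hv h0
      apply hv
      rw [he v] at h0
      have : e v = 0 := by
        rcases mul_eq_zero.mp h0 with h1 | h1
        · exfalso
          have : n = 0 := by exact_mod_cast h1
          omega
        · exact h1
      simp only [this, zpow_zero]
  refine ⟨Units.mk0 _ ?_, key⟩
  intro h0
  rw [h0, zero_pow (by omega)] at key
  exact hx' key.symm

/-- Units modulo `n`-th powers are finite. -/
lemma finite_units_mod (n : ℕ) (hn : 1 ≤ n) :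
    Finite ((𝓞 K)ˣ ⧸ (powMonoidHom n : (𝓞 K)ˣ →* (𝓞 K)ˣ).range) := by
  have : Group.FG ((𝓞 K)ˣ ⧸ (powMonoidHom n : (𝓞 K)ˣ →* (𝓞 K)ˣ).range) := by
    have : Group.FG (𝓞 K)ˣ := Group.fg_iff_monoid_fg.mpr inferInstance
    infer_instance
  apply CommGroup.finite_of_fg_isMulTorsion
  intro x
  induction x using QuotientGroup.induction_on with
  | H u =>
    rw [isOfFinOrder_iff_pow_eq_one]
    refine ⟨n, by omega, ?_⟩
    rw [← QuotientGroup.mk_pow, QuotientGroup.eq_one_iff]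
    exact ⟨u, rfl⟩

theorem kummer_classes (K : Type*) [Field K] [NumberField K] (n : Nat) (hn : 1 ≤ n) :
    ∃ N : ℕ, ∀ T : Finset K, (∀ t ∈ T, t ≠ 0) →
      (∀ t ∈ T, ∀ t' ∈ T, ∀ v : HeightOneSpectrum (𝓞 K), (n : ℤ) ∣ ordv v (t / t')) →
      ∃ f : K → Fin N, ∀ t ∈ T, ∀ t' ∈ T, f t = f t' → ∃ w : K, w ^ n = t / t' := by
  classical
  have hU : Finite ((𝓞 K)ˣ ⧸ (powMonoidHom n : (𝓞 K)ˣ →* (𝓞 K)ˣ).range) :=
    finite_units_mod n hn
  let A := ClassGroup (𝓞 K) × ((𝓞 K)ˣ ⧸ (powMonoidHom n : (𝓞 K)ˣ →* (𝓞 K)ˣ).range)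
  have hA : Finite A := inferInstance
  obtain ⟨N, ⟨g⟩⟩ := Finite.exists_equiv_fin A
  refine ⟨N, fun T hT0 hT => ?_⟩
  -- it suffices to give a map to `A`
  suffices H : ∃ f : K → A, ∀ t ∈ T, ∀ t' ∈ T, f t = f t' → ∃ w : K, w ^ n = t / t' by
    obtain ⟨f, hf⟩ := H
    exact ⟨fun t => g (f t), fun t ht t' ht' h => hf t ht t' ht' (g.injective h)⟩
  rcases T.eq_empty_or_nonempty with rfl | ⟨t₀, ht₀⟩
  · exact ⟨fun _ => 1, by simp⟩
  have ht₀0 := hT0 t₀ ht₀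
  -- root ideals
  have hJ : ∀ t : K, ∃ J : (FractionalIdeal (𝓞 K)⁰ K)ˣ, t ∈ T →
      (J : FractionalIdeal (𝓞 K)⁰ K) ^ n = spanSingleton (𝓞 K)⁰ (t / t₀) := by
    intro t
    by_cases ht : t ∈ T
    · obtain ⟨J, hJ⟩ := exists_root_ideal n hn (div_ne_zero (hT0 t ht) ht₀0) (hT t ht t₀ ht₀)
      exact ⟨J, fun _ => hJ⟩
    · exact ⟨1, fun h => absurd h ht⟩
  choose J hJ using hJ
  let c : K → ClassGroup (𝓞 K) := fun t => ClassGroup.mk K (J t)
  -- comparison of two elements with the same class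
  have hcomp : ∀ t ∈ T, ∀ t' ∈ T, c t = c t' →
      ∃ (u : (𝓞 K)ˣ) (γ : K), t / t' = (u : 𝓞 K) * γ ^ n := by
    intro t ht t' ht' hc
    have h1 : ClassGroup.mk K (J t * (J t')⁻¹) = 1 := by
      rw [map_mul, map_inv, mul_inv_eq_one]
      exact hc
    rw [ClassGroup.mk_eq_one_iff] at h1
    obtain ⟨γ, hγ⟩ := @Submodule.IsPrincipal.principal _ _ _ _ _ _ h1
    have h2 : ((J t * (J t')⁻¹ : (FractionalIdeal (𝓞 K)⁰ K)ˣ) : FractionalIdeal (𝓞 K)⁰ K) =
        spanSingleton (𝓞 K)⁰ γ := by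
      apply Subtype.coe_injective
      simp only [val_eq_coe, hγ, coe_spanSingleton]
    have h3 : spanSingleton (𝓞 K)⁰ (t / t') = spanSingleton (𝓞 K)⁰ (γ ^ n) := by
      rw [← spanSingleton_pow, ← h2, Units.val_mul, mul_pow, hJ t ht,
        Units.val_inv_eq_inv_val, inv_pow, hJ t' ht', spanSingleton_inv,
        spanSingleton_mul_spanSingleton]
      congr 1
      have := hT0 t' ht'
      field_simp
    rw [spanSingleton_eq_spanSingleton] at h3
    obtain ⟨z, hz⟩ := h3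
    refine ⟨z⁻¹, γ, ?_⟩
    rw [← hz, Units.smul_def, Algebra.smul_def, ← mul_assoc]
    have h4 : ((z⁻¹ : (𝓞 K)ˣ) : 𝓞 K) * (z : 𝓞 K) = 1 := Units.inv_mul z
    have h5 : algebraMap (𝓞 K) K ((z⁻¹ : (𝓞 K)ˣ) : 𝓞 K) * algebraMap (𝓞 K) K (z : 𝓞 K) = 1 := by
      rw [← map_mul, h4, map_one]
    rw [h5, one_mul]
  -- base points
  have hb : ∀ k : ClassGroup (𝓞 K), ∃ b : K, (∃ t ∈ T, c t = k) → b ∈ T ∧ c b = k := by
    intro k
    by_cases hk : ∃ t ∈ T, c t = k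
    · obtain ⟨t, ht, htk⟩ := hk
      exact ⟨t, fun _ => ⟨ht, htk⟩⟩
    · exact ⟨1, fun h => absurd h hk⟩
  choose b hb using hb
  have hu : ∀ t : K, ∃ (u : (𝓞 K)ˣ) (γ : K), t ∈ T → t / b (c t) = (u : 𝓞 K) * γ ^ n := by
    intro t
    by_cases ht : t ∈ T
    · obtain ⟨hbT, hbc⟩ := hb (c t) ⟨t, ht, rfl⟩
      obtain ⟨u, γ, h⟩ := hcomp t ht (b (c t)) hbT hbc.symm
      exact ⟨u, γ, fun _ => h⟩
    · exact ⟨1, 1, fun h => absurd h ht⟩
  choose u γ hu using hu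
  refine ⟨fun t => (c t, QuotientGroup.mk (u t)), fun t ht t' ht' h => ?_⟩
  rw [Prod.mk.injEq] at h
  obtain ⟨hc, hq⟩ := h
  obtain ⟨hbT, -⟩ := hb (c t) ⟨t, ht, rfl⟩
  have hb0 : b (c t) ≠ 0 := hT0 _ hbT
  have e1 := hu t ht
  have e2 := hu t' ht'
  rw [← hc] at e2
  rw [QuotientGroup.eq] at hq
  obtain ⟨ω, hω⟩ := hq
  have hω' : ω ^ n = (u t)⁻¹ * u t' := hω
  have hγ' : γ t' ^ n ≠ 0 := by
    intro h0
    rw [h0, mul_zero] at e2
    exact div_ne_zero (hT0 t' ht') hb0 e2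
  have hω2 : (algebraMap (𝓞 K) K (ω : 𝓞 K)) ^ n * algebraMap (𝓞 K) K (u t : 𝓞 K) =
      algebraMap (𝓞 K) K (u t' : 𝓞 K) := by
    rw [← map_pow, ← map_mul, ← Units.val_pow_eq_pow_val, hω', ← Units.val_mul]
    congr 2
    rw [mul_comm, mul_inv_cancel_left]
  have hωn : (algebraMap (𝓞 K) K (ω : 𝓞 K)) ^ n ≠ 0 := by
    rw [← map_pow, ← Units.val_pow_eq_pow_val]
    simp
  refine ⟨(algebraMap (𝓞 K) K (ω : 𝓞 K))⁻¹ * (γ t / γ t'), ?_⟩
  have e3 : t / t' = (t / b (c t)) / (t' / b (c t)) := by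
    have := hT0 t' ht'
    field_simp
  have hut : algebraMap (𝓞 K) K (u t : 𝓞 K) ≠ 0 := by simp
  rw [e3, e1, e2]
  change _ = algebraMap (𝓞 K) K (u t : 𝓞 K) * γ t ^ n / (algebraMap (𝓞 K) K (u t' : 𝓞 K) * γ t' ^ n)
  rw [← hω2, mul_pow, inv_pow, div_pow]
  field_simp

end Kummer

end Pool.Agent.Lib.MP_4d5ce1_nt
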