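import Mathlib

set_option autoImplicit false

open NumberField IsDedekindDomain

namespace Pool.Agent.Lib.MP_4d5ce1_nt

variable {K : Type*} [Field K] [NumberField K]

/-- The `v`-adic absolute value, `|x|_v = N(v)^{-ord_v x}`. -/
noncomputable def fa (v : HeightOneSpectrum (𝓞 K)) (x : K) : ℝ := FinitePlace.mk v x

/-- The norm of the prime ideal `v`. -/
noncomputable def nv (v : HeightOneSpectrum (𝓞 K)) : ℝ := (Ideal.absNorm v.asIdeal : ℝ)

/-- The `v`-adic order of `x` (junk value at `x = 0`). -/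
noncomputable def ordv (v : HeightOneSpectrum (𝓞 K)) (x : K) : ℤ :=
  - WithZero.log (v.valuation K x)

lemma two_le_nv (v : HeightOneSpectrum (𝓞 K)) : 2 ≤ nv v := by
  have := HeightOneSpectrum.one_lt_absNorm v
  unfold nv
  exact_mod_cast this

lemma nv_pos (v : HeightOneSpectrum (𝓞 K)) : 0 < nv v := by linarith [two_le_nv v]

lemma one_lt_nv (v : HeightOneSpectrum (𝓞 K)) : 1 < nv v := by linarith [two_le_nv v]

lemma nv_ne_zero (v : HeightOneSpectrum (𝓞 K)) : nv v ≠ 0 := (nv_pos v).ne'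

lemma log_nv_pos (v : HeightOneSpectrum (𝓞 K)) : 0 < Real.log (nv v) := Real.log_pos (one_lt_nv v)

lemma fa_eq_adic (v : HeightOneSpectrum (𝓞 K)) (x : K) :
    fa v x = NumberField.HeightOneSpectrum.adicAbv K v x := by
  unfold fa
  rw [FinitePlace.mk_apply, FinitePlace.norm_embedding]

lemma fa_eq (v : HeightOneSpectrum (𝓞 K)) {x : K} (hx : x ≠ 0) :
    fa v x = nv v ^ (- ordv v x) := by
  rw [fa_eq_adic, HeightOneSpectrum.adicAbv_def]
  have hne : v.valuation K x ≠ 0 := (Valuation.ne_zero_iff _).mpr hx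
  rw [WithZeroMulInt.toNNReal_neg_apply _ hne]
  unfold ordv nv
  rw [WithZero.toAdd_unzero_eq_log, neg_neg]
  push_cast
  rfl

@[simp] lemma fa_zero (v : HeightOneSpectrum (𝓞 K)) : fa v (0 : K) = 0 := map_zero _

@[simp] lemma fa_one (v : HeightOneSpectrum (𝓞 K)) : fa v (1 : K) = 1 := map_one _

lemma fa_mul (v : HeightOneSpectrum (𝓞 K)) (x y : K) : fa v (x * y) = fa v x * fa v y :=
  map_mul _ _ _

lemma fa_neg (v : HeightOneSpectrum (𝓞 K)) (x : K) : fa v (-x) = fa v x := by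
  rw [fa_eq_adic, fa_eq_adic]; exact map_neg_eq_map _ _

lemma fa_sub_comm (v : HeightOneSpectrum (𝓞 K)) (x y : K) : fa v (x - y) = fa v (y - x) := by
  rw [← fa_neg, neg_sub]

lemma fa_nonneg (v : HeightOneSpectrum (𝓞 K)) (x : K) : 0 ≤ fa v x := apply_nonneg _ _

lemma fa_pos (v : HeightOneSpectrum (𝓞 K)) {x : K} (hx : x ≠ 0) : 0 < fa v x :=
  FinitePlace.pos_iff.mpr hx

lemma fa_eq_zero_iff (v : HeightOneSpectrum (𝓞 K)) {x : K} : fa v x = 0 ↔ x = 0 := by
  constructor
  · intro h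
    by_contra hx
    exact absurd h (fa_pos v hx).ne'
  · rintro rfl; simp

lemma fa_div (v : HeightOneSpectrum (𝓞 K)) (x y : K) : fa v (x / y) = fa v x / fa v y :=
  map_div₀ _ _ _

lemma fa_inv (v : HeightOneSpectrum (𝓞 K)) (x : K) : fa v (x⁻¹) = (fa v x)⁻¹ :=
  map_inv₀ _ _

lemma fa_pow (v : HeightOneSpectrum (𝓞 K)) (x : K) (n : ℕ) : fa v (x ^ n) = fa v x ^ n :=
  map_pow _ _ _

lemma fa_add_le (v : HeightOneSpectrum (𝓞 K)) (x y : K) :
    fa v (x + y) ≤ max (fa v x) (fa v y) := FinitePlace.add_le _ _ _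

lemma fa_sub_le (v : HeightOneSpectrum (𝓞 K)) (x y : K) :
    fa v (x - y) ≤ max (fa v x) (fa v y) := by
  rw [sub_eq_add_neg, ← fa_neg v y]; exact fa_add_le v x (-y)

lemma fa_natCast_le_one (v : HeightOneSpectrum (𝓞 K)) (n : ℕ) : fa v (n : K) ≤ 1 := by
  rw [fa_eq_adic]; exact HeightOneSpectrum.adicAbv_natCast_le_one K v n

lemma fa_sum_le (v : HeightOneSpectrum (𝓞 K)) {ι : Type*} (s : Finset ι) (f : ι → K) (c : ℝ)
    (hc : 0 ≤ c) (h : ∀ i ∈ s, fa v (f i) ≤ c) : fa v (∑ i ∈ s, f i) ≤ c := by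
  classical
  induction s using Finset.induction_on with
  | empty => simpa using hc
  | insert a s ha ih =>
    rw [Finset.sum_insert ha]
    refine (fa_add_le v _ _).trans (max_le (h a (Finset.mem_insert_self _ _)) (ih ?_))
    intro i hi
    exact h i (Finset.mem_insert_of_mem hi)

/-- If `|x| < |y|` then `|x + y| = |y|`. -/
lemma fa_add_eq_right (v : HeightOneSpectrum (𝓞 K)) {x y : K} (h : fa v x < fa v y) :
    fa v (x + y) = fa v y := by
  apply le_antisymm
  · exact (fa_add_le v x y).trans (max_le h.le le_rfl)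
  · by_contra hlt
    push Not at hlt
    have : fa v y ≤ max (fa v (x + y)) (fa v x) := by
      have := fa_sub_le v (x + y) x
      simpa using this
    rcases le_max_iff.mp this with h1 | h1 <;> linarith

lemma ordv_mul (v : HeightOneSpectrum (𝓞 K)) {x y : K} (hx : x ≠ 0) (hy : y ≠ 0) :
    ordv v (x * y) = ordv v x + ordv v y := by
  unfold ordv
  rw [map_mul, WithZero.log_mul ((Valuation.ne_zero_iff _).mpr hx)
    ((Valuation.ne_zero_iff _).mpr hy)]
  ring

lemma ordv_inv (v : HeightOneSpectrum (𝓞 K)) (x : K) : ordv v x⁻¹ = - ordv v x := by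
  unfold ordv
  rw [map_inv₀, WithZero.log_inv]

lemma ordv_div (v : HeightOneSpectrum (𝓞 K)) {x y : K} (hx : x ≠ 0) (hy : y ≠ 0) :
    ordv v (x / y) = ordv v x - ordv v y := by
  rw [div_eq_mul_inv, ordv_mul v hx (inv_ne_zero hy), ordv_inv]; ring

lemma ordv_pow (v : HeightOneSpectrum (𝓞 K)) (x : K) (n : ℕ) :
    ordv v (x ^ n) = n * ordv v x := by
  unfold ordv
  rw [map_pow, WithZero.log_pow]
  simp

lemma ordv_one (v : HeightOneSpectrum (𝓞 K)) : ordv v (1 : K) = 0 := by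
  unfold ordv
  simp

lemma fa_le_one_iff (v : HeightOneSpectrum (𝓞 K)) {x : K} (hx : x ≠ 0) :
    fa v x ≤ 1 ↔ 0 ≤ ordv v x := by
  rw [fa_eq v hx]
  rw [show (1:ℝ) = nv v ^ (0:ℤ) by simp, zpow_le_zpow_iff_right₀ (one_lt_nv v)]
  omega

lemma fa_eq_one_iff (v : HeightOneSpectrum (𝓞 K)) {x : K} (hx : x ≠ 0) :
    fa v x = 1 ↔ ordv v x = 0 := by
  rw [fa_eq v hx]
  rw [show (1:ℝ) = nv v ^ (0:ℤ) by simp]
  rw [zpow_right_inj₀ (nv_pos v) (one_lt_nv v).ne']
  omega

lemma log_fa (v : HeightOneSpectrum (𝓞 K)) {x : K} (hx : x ≠ 0) :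
    Real.log (fa v x) = - (ordv v x) * Real.log (nv v) := by
  rw [fa_eq v hx, Real.log_zpow]; push_cast; ring

lemma finite_fa_ne_one {x : K} (hx : x ≠ 0) :
    {v : HeightOneSpectrum (𝓞 K) | fa v x ≠ 1}.Finite := by
  have h := FinitePlace.hasFiniteMulSupport (K := K) hx
  have h2 : (Function.mulSupport fun w : FinitePlace K => w x).Finite := h
  have h3 := h2.preimage (f := FinitePlace.equivHeightOneSpectrum.symm)
    (FinitePlace.equivHeightOneSpectrum.symm.injective.injOn)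
  refine h3.subset ?_
  intro v hv
  exact hv

lemma finite_ordv_ne_zero {x : K} (hx : x ≠ 0) :
    {v : HeightOneSpectrum (𝓞 K) | ordv v x ≠ 0}.Finite := by
  refine (finite_fa_ne_one hx).subset ?_
  intro v hv h
  exact hv ((fa_eq_one_iff v hx).mp h)

/-- The product formula, logarithmic form. -/
lemma product_formula {x : K} (hx : x ≠ 0) :
    ∑ w : InfinitePlace K, (w.mult : ℝ) * Real.log (w x) +
      ∑ᶠ v : HeightOneSpectrum (𝓞 K), Real.log (fa v x) = 0 := by
  have h := NumberField.prod_abs_eq_one (K := K) hx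
  have hfin : ∏ᶠ w : FinitePlace K, w x =
      ∏ᶠ v : HeightOneSpectrum (𝓞 K), fa v x := by
    rw [← finprod_comp_equiv (FinitePlace.equivHeightOneSpectrum (K := K)).symm]
    rfl
  rw [hfin] at h
  have hpos1 : ∀ w : InfinitePlace K, 0 < w x := fun w => InfinitePlace.pos_iff.mpr hx
  have hlog := congrArg Real.log h
  rw [Real.log_one, Real.log_mul] at hlog
  · rw [Real.log_prod (fun w _ => (pow_pos (hpos1 w) _).ne')] at hlog
    rw [Real.log_finprod (fun v => fa_pos v hx)] at hlog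
    simpa [Real.log_pow] using hlog
  · exact (Finset.prod_pos fun w _ => pow_pos (hpos1 w) _).ne'
  · have hfs : (Function.mulSupport fun v : HeightOneSpectrum (𝓞 K) => fa v x).Finite :=
      finite_fa_ne_one hx
    rw [finprod_eq_prod _ hfs]
    exact (Finset.prod_pos fun v _ => fa_pos v hx).ne'

/-- Product formula in terms of orders. -/
lemma product_formula' {x : K} (hx : x ≠ 0) :
    ∑ w : InfinitePlace K, (w.mult : ℝ) * Real.log (w x) =
      ∑ᶠ v : HeightOneSpectrum (𝓞 K), (ordv v x : ℝ) * Real.log (nv v) := by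
  have h := product_formula hx
  have : ∑ᶠ v : HeightOneSpectrum (𝓞 K), Real.log (fa v x) =
      - ∑ᶠ v : HeightOneSpectrum (𝓞 K), (ordv v x : ℝ) * Real.log (nv v) := by
    rw [← finsum_neg_distrib]
    refine finsum_congr fun v => ?_
    rw [log_fa v hx]; ring
  rw [this] at h
  linarith

end Pool.Agent.Lib.MP_4d5ce1_nt
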