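import Mathlib.Data.Nat.Notation
import Mathlib.Util.CompileInductive

set_option autoImplicit false

/-!
# A checker for branch-and-bound certificates: the program

Linear forms with integer coefficients in variables `v 0 = 1, v 1, v 2, ...` are packed into one
natural number: `+ v j` is `2 ^ (w j) + 2 ^ (2 w K)` and `- v j` is `2 ^ (w (K + j)) + 2 ^ (2 w K)`.
-/

namespace Pool.Agent.Lib.MP_4d5ce1_nt.BC

/-- The parameters: number of blocks `E`, threshold `tn / td`, digit width `w`, number of slots `K`. -/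
structure Par where
  E : ℕ
  tn : ℕ
  td : ℕ
  w : ℕ
  K : ℕ

/-- `f n`, computed after `n` has been evaluated -/
def force {α : Type} (n : ℕ) (f : ℕ → α) : α := Nat.rec (f 0) (fun m _ => f (Nat.succ m)) n

/-- `f 0 + ... + f (n - 1)` -/
def sumTo (f : ℕ → ℕ) (n : ℕ) : ℕ := Nat.rec 0 (fun i acc => Nat.add acc (f i)) n

/-- `f 0 && ... && f (n - 1)` -/
def allTo (f : ℕ → Bool) (n : ℕ) : Bool := Nat.rec true (fun i acc => and acc (f i)) n

/-- bit `i` of `m` -/
def bt (m i : ℕ) : Bool := Nat.beq (Nat.mod (Nat.shiftRight m i) 2) 1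

/-- the packed form of `+ v j` or `- v j` -/
def atm (P : Par) (s : Bool) (j : ℕ) : ℕ :=
  Nat.add (cond s (Nat.pow 2 (Nat.mul P.w j)) (Nat.pow 2 (Nat.mul P.w (Nat.add P.K j))))
    (Nat.pow 2 (Nat.mul P.w (Nat.mul 2 P.K)))

/-- slot of block `b` of form `l`, in the group of slots starting at `off` -/
def slot (P : Par) (off l b : ℕ) : ℕ := Nat.add off (Nat.add (Nat.mul (Nat.succ P.E) l) b)

/-- block size, root variables -/
def sF (P : Par) (s : Bool) (l b : ℕ) : ℕ :=
  cond (Nat.beq b 0)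
    (Nat.add (Nat.add (atm P s 0) (atm P (not s) (slot P 1 l P.E)))
      (sumTo (fun i => Nat.mul (Nat.add i 2) (atm P (not s) (slot P 1 l (Nat.succ i))))
        (Nat.sub P.E 2)))
    (atm P s (slot P 1 l b))

/-- block index, root variables -/
def iF (P : Par) (s : Bool) (l b : ℕ) : ℕ :=
  cond (Nat.beq (Nat.succ b) P.E) (atm P s (slot P 1 l P.E)) (Nat.mul (Nat.succ b) (sF P s l b))

/-- block size, side variables -/
def gS (P : Par) (s : Bool) (off l b : ℕ) : ℕ := atm P s (slot P off l b)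

/-- block index, side variables -/
def gI (P : Par) (s : Bool) (off l b : ℕ) : ℕ :=
  cond (Nat.beq (Nat.succ b) P.E) (atm P s (slot P off l P.E)) (Nat.mul (Nat.succ b) (gS P s off l b))

/-- membership of block `i = E l + b` in the side: for `l = k` the bit of `m`, for `l ≠ k` the
bit of `m`, negated if `neg` -/
def sb (P : Par) (k m : ℕ) (neg : Bool) (i : ℕ) : Bool :=
  cond (Nat.beq (Nat.div i P.E) k) (bt m i) (xor neg (bt m i))

/-! ### Basic tools -/

def basicOk (P : Par) (k n m : ℕ) : Bool :=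
  and (and (Nat.blt k 3) (and (Nat.blt 0 n) (Nat.ble n P.E)))
    (allTo (fun i => or (Nat.beq (Nat.div i P.E) k) (or (not (bt m i))
      (cond (Nat.beq (Nat.succ (Nat.mod i P.E)) P.E) (Nat.beq n 1)
        (Nat.beq (Nat.mod (Nat.succ (Nat.mod i P.E)) n) 0)))) (Nat.mul 3 P.E))

/-- total size of the blocks which are not left out, and of the `T`-blocks; also `kV` -/
def kvF (P : Par) (s : Bool) (k m : ℕ) : ℕ :=
  sumTo (fun i => cond (sb P k m true i) (sF P s (Nat.div i P.E) (Nat.mod i P.E)) 0)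
    (Nat.mul 3 P.E)

def bF1 (P : Par) (k m : ℕ) : ℕ :=
  Nat.add (Nat.mul P.td (kvF P true k m)) (Nat.mul P.tn (atm P false 0))

def bAr (P : Par) (k n m : ℕ) : ℕ :=
  sumTo (fun i => cond (bt m i)
    (cond (Nat.beq (Nat.div i P.E) k) (Nat.mul n (iF P false (Nat.div i P.E) (Nat.mod i P.E)))
      (iF P true (Nat.div i P.E) (Nat.mod i P.E))) 0) (Nat.mul 3 P.E)

def bF2 (P : Par) (k n m f1 : ℕ) : ℕ :=
  Nat.add (Nat.mul n f1) (Nat.mul P.td (bAr P k n m))

/-! ### Sides -/

/-- An active side; `thr` is the packed form of `- td * threshold`. -/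
structure Side where
  k : ℕ
  m : ℕ
  neg : Bool
  off : ℕ
  thr : ℕ

/-- push a form and continue -/
def push (X : ℕ) (l : List ℕ) (κ : List ℕ → Bool) : Bool := force X (fun Y => κ (Y :: l))

/-- the constraints of a block of a side -/
def sideStep (P : Par) (k m : ℕ) (neg : Bool) (off i : ℕ) (l : List ℕ) (κ : List ℕ → Bool) :
    Bool :=
  cond (and (not (Nat.beq (Nat.div i P.E) k)) (sb P k m neg i))
    (push (gS P true off (Nat.div i P.E) (Nat.mod i P.E)) l fun l =>
      push (Nat.add (sF P true (Nat.div i P.E) (Nat.mod i P.E))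
        (gS P false off (Nat.div i P.E) (Nat.mod i P.E))) l fun l =>
      cond (Nat.beq (Nat.succ (Nat.mod i P.E)) P.E)
        (push (gI P true off (Nat.div i P.E) (Nat.mod i P.E)) l fun l =>
         push (Nat.add (iF P true (Nat.div i P.E) (Nat.mod i P.E))
          (gI P false off (Nat.div i P.E) (Nat.mod i P.E))) l fun l =>
         push (Nat.add (gI P true off (Nat.div i P.E) (Nat.mod i P.E))
          (Nat.mul P.E (gS P false off (Nat.div i P.E) (Nat.mod i P.E)))) l fun l =>
         push (Nat.add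
          (Nat.add (iF P true (Nat.div i P.E) (Nat.mod i P.E))
            (gI P false off (Nat.div i P.E) (Nat.mod i P.E)))
          (Nat.mul P.E (Nat.add (sF P false (Nat.div i P.E) (Nat.mod i P.E))
            (gS P true off (Nat.div i P.E) (Nat.mod i P.E))))) l κ)
        (κ l))
    (κ l)

def sideLoop (P : Par) (k m : ℕ) (neg : Bool) (off : ℕ) (n : ℕ) :
    List ℕ → (List ℕ → Bool) → Bool :=
  Nat.rec (fun l κ => κ l) (fun i ih l κ => sideStep P k m neg off i l fun l' => ih l' κ) n

def sideHyp (P : Par) (k m : ℕ) (neg : Bool) (off : ℕ) : ℕ :=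
  sumTo (fun i => cond (sb P k m neg i)
    (cond (Nat.beq (Nat.div i P.E) k) (iF P false (Nat.div i P.E) (Nat.mod i P.E))
      (Nat.add (iF P true (Nat.div i P.E) (Nat.mod i P.E))
        (gI P false off (Nat.div i P.E) (Nat.mod i P.E)))) 0) (Nat.mul 3 P.E)

def sideAll (P : Par) (k m : ℕ) (neg : Bool) (off : ℕ) (l : List ℕ) (κ : List ℕ → Bool) : Bool :=
  sideLoop P k m neg off (Nat.mul 3 P.E) l fun l => push (sideHyp P k m neg off) l κ

/-! ### Tools for pairs -/

/-- copies of block `i` left out -/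
def outv (o i : ℕ) : ℕ := Nat.mod (Nat.shiftRight o (Nat.mul 2 i)) 4

def yOk (P : Par) (s : Side) (n o tp : ℕ) : Bool :=
  and (and (Nat.blt 0 n) (Nat.ble n P.E))
    (allTo (fun i => cond (Nat.beq (Nat.div i P.E) s.k)
      (or (not (bt tp (Nat.mod i P.E))) (sb P s.k s.m s.neg i))
      (or (not (sb P s.k s.m s.neg i)) (and (Nat.ble (outv o i) 2)
        (or (Nat.beq (outv o i) 0)
          (cond (Nat.beq (Nat.succ (Nat.mod i P.E)) P.E) (Nat.beq n 1)
            (Nat.beq (Nat.mod (Nat.succ (Nat.mod i P.E)) n) 0)))))) (Nat.mul 3 P.E))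

def yC (P : Par) (s : Side) (o tp : ℕ) : ℕ :=
  sumTo (fun i => cond (Nat.beq (Nat.div i P.E) s.k)
    (cond (bt tp (Nat.mod i P.E)) (sF P true (Nat.div i P.E) (Nat.mod i P.E)) 0)
    (cond (sb P s.k s.m s.neg i)
      (Nat.add (Nat.mul (Nat.sub 2 (outv o i)) (Nat.add
        (sF P true (Nat.div i P.E) (Nat.mod i P.E))
        (gS P false s.off (Nat.div i P.E) (Nat.mod i P.E))))
        (gS P true s.off (Nat.div i P.E) (Nat.mod i P.E))) 0)) (Nat.mul 3 P.E)

def yF1 (P : Par) (s : Side) (o tp : ℕ) : ℕ := Nat.add (Nat.mul P.td (yC P s o tp)) s.thr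

def yAr (P : Par) (s : Side) (n o tp : ℕ) : ℕ :=
  sumTo (fun i => cond (Nat.beq (Nat.div i P.E) s.k)
    (cond (bt tp (Nat.mod i P.E)) (Nat.mul n (iF P false (Nat.div i P.E) (Nat.mod i P.E))) 0)
    (cond (sb P s.k s.m s.neg i)
      (Nat.mul (outv o i) (Nat.add (iF P true (Nat.div i P.E) (Nat.mod i P.E))
        (gI P false s.off (Nat.div i P.E) (Nat.mod i P.E)))) 0)) (Nat.mul 3 P.E)

def yF2 (P : Par) (s : Side) (n o tp f1 : ℕ) : ℕ :=
  Nat.add (Nat.mul n f1) (Nat.mul P.td (yAr P s n o tp))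

/-! ### Leaves -/

/-- the combination of the forms in `ctx` coded by the gap `g` and the number `N` -/
def comb (wl : ℕ) (ctx : List ℕ) : ℕ → ℕ → ℕ → ℕ :=
  List.rec (fun _ _ acc => acc)
    (fun X _ ih g N acc => Nat.rec
      (cond (Nat.beq N 0) acc
        (force (Nat.shiftRight N wl) fun N1 => force (Nat.shiftRight N1 8) fun N2 =>
          ih (Nat.mod N1 256) N2 (Nat.add acc (Nat.mul (Nat.mod N (Nat.pow 2 wl)) X))))
      (fun g' _ => ih g' N acc) g) ctx

/-- the packed form `T` is a negative constant -/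
def negOk (P : Par) (T : ℕ) : Bool :=
  force (Nat.mod T (Nat.pow 2 (Nat.mul P.w P.K))) fun p =>
  force (Nat.mod (Nat.shiftRight T (Nat.mul P.w P.K)) (Nat.pow 2 (Nat.mul P.w P.K))) fun q =>
    and (Nat.blt p q)
      (Nat.blt (Nat.add (Nat.shiftRight T (Nat.mul P.w (Nat.mul 2 P.K))) (Nat.sub q p))
        (Nat.pow 2 P.w))

def leafOk (P : Par) (wl N : ℕ) (ctx : List ℕ) : Bool :=
  force (Nat.shiftRight N 8) fun N' => force (comb wl ctx (Nat.mod N 256) N' 0) (negOk P)

/-! ### The tree -/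

/-- Certificates. -/
inductive Tree where
  | leaf (wl N : ℕ)
  | basic (k n m : ℕ) (t1 t2 : Tree)
  | bil (k m : ℕ) (tA tB tC tD : Tree)
  | ytool (s n o tp : ℕ) (t1 t2 : Tree)

/-- the side number `s` -/
def nthSide (sd : List Side) : ℕ → (Side → Bool) → Bool :=
  List.rec (fun _ _ => false)
    (fun X _ ih s κ => Nat.rec (κ X) (fun s' _ => ih s' κ) s) sd

/-- The checker. -/
noncomputable def check (P : Par) (t : Tree) : List ℕ → List Side → ℕ → Bool :=
  Tree.rec (motive := fun _ => List ℕ → List Side → ℕ → Bool)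
    (fun wl N ctx _ _ => leafOk P wl N ctx)
    (fun k n m _ _ ih1 ih2 ctx sd nv => and (basicOk P k n m)
      (force (bF1 P k m) fun f1 => and (ih1 (f1 :: ctx) sd nv)
        (force (bF2 P k n m f1) fun f2 => ih2 (f2 :: ctx) sd nv)))
    (fun k m _ _ _ _ ihA ihB ihC ihD ctx sd nv =>
      and (and (Nat.blt k 3) (Nat.ble (Nat.add nv (Nat.succ (Nat.mul 6 (Nat.succ P.E)))) P.K))
      (force (kvF P true k m) fun kp => force (kvF P false k m) fun kn =>
      and (push (Nat.add (Nat.mul P.td kp) (Nat.mul P.tn (atm P false 0))) ctx fun l =>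
        ihA l sd nv)
      (push (Nat.add (Nat.mul P.td kn) (Nat.mul P.tn (atm P true 0))) ctx fun ctx =>
      force (Nat.add nv (Nat.mul 3 (Nat.succ P.E))) fun nv1 =>
      and (sideAll P k m false nv ctx fun l =>
        force (Nat.add (Nat.mul P.td kp) (Nat.mul (Nat.mul 2 P.tn) (atm P false 0))) fun th =>
          ihB l (⟨k, m, false, nv, th⟩ :: sd) nv1)
      (and (force (Nat.succ nv) fun o1 => force (Nat.add o1 (Nat.mul 3 (Nat.succ P.E))) fun o2 =>
        force (Nat.add o2 (Nat.mul 3 (Nat.succ P.E))) fun o3 =>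
        push (atm P true nv) ctx fun l =>
        push (Nat.add (Nat.mul P.tn (atm P true 0)) (Nat.mul P.td (atm P false nv))) l fun l =>
        push (Nat.add kn (atm P true nv)) l fun l =>
        sideAll P k m true o1 l fun l => sideAll P k m false o2 l fun l =>
        force (Nat.mul P.td (atm P false nv)) fun th1 =>
        force (Nat.add (Nat.mul (Nat.mul 2 P.tn) (atm P false 0)) (Nat.mul P.td (atm P true nv)))
          fun th2 =>
          ihC l (⟨k, m, false, o2, th2⟩ :: ⟨k, m, true, o1, th1⟩ :: sd) o3)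
      (sideAll P k m true nv ctx fun l =>
        force (Nat.mul P.tn (atm P false 0)) fun th =>
          ihD l (⟨k, m, true, nv, th⟩ :: sd) nv1)))))
    (fun s n o tp _ _ ih1 ih2 ctx sd nv => nthSide sd s fun side => and (yOk P side n o tp)
      (force (yF1 P side o tp) fun f1 => and (ih1 (f1 :: ctx) sd nv)
        (force (yF2 P side n o tp f1) fun f2 => ih2 (f2 :: ctx) sd nv)))
    t

/-! ### The root -/

def radF (P : Par) (s : Bool) (l : ℕ) : ℕ := sumTo (fun b => sF P s l b) P.E

/-- the root constraints of the form `l` -/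
def rootForm (P : Par) (l : ℕ) (c : List ℕ) (κ : List ℕ → Bool) : Bool :=
  Nat.rec (motive := fun _ => List ℕ → (List ℕ → Bool) → Bool) (fun c κ => κ c)
    (fun b ih c κ => push (sF P true l b) c fun c' => ih c' κ) P.E c fun c =>
  push (iF P true l (Nat.sub P.E 1)) c fun c =>
  push (Nat.add (iF P true l (Nat.sub P.E 1)) (Nat.mul P.E (sF P false l (Nat.sub P.E 1)))) c κ

def root (P : Par) (κ : List ℕ → Bool) : Bool :=
  rootForm P 0 [] fun c => rootForm P 1 c fun c => rootForm P 2 c fun c =>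
  push (Nat.add (atm P true 0) (Nat.add (radF P false 0)
    (Nat.add (radF P false 1) (radF P false 2)))) c fun c =>
  push (Nat.add (radF P true 0) (radF P false 1)) c fun c =>
  push (Nat.add (radF P true 1) (radF P false 2)) c κ

noncomputable def checkAll (P : Par) (t : Tree) : Bool :=
  and (and (and (Nat.ble 2 P.E) (Nat.ble 1 P.td))
    (Nat.ble (Nat.succ (Nat.mul 3 (Nat.succ P.E))) P.K))
    (root P fun c => check P t c [] (Nat.succ (Nat.mul 3 (Nat.succ P.E))))

end Pool.Agent.Lib.MP_4d5ce1_nt.BC
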