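import Mathlib
import Pool.Agent.Lib.MP_4d5ce1_nt.BCheckCore
import Pool.Agent.Lib.MP_4d5ce1_nt.BDefs

section

set_option autoImplicit false

/-!
# The checker: packed linear forms
-/

namespace Pool.Agent.Lib.MP_4d5ce1_nt.BC

open Finset

theorem force_eq {α : Type} (n : ℕ) (f : ℕ → α) : force n f = f n := by
  cases n <;> rfl

theorem sumTo_eq (f : ℕ → ℕ) (n : ℕ) : sumTo f n = ∑ i ∈ range n, f i := by
  induction n with
  | zero => rfl
  | succ n ih =>
    rw [Finset.sum_range_succ, ← ih]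
    rfl

theorem allTo_iff (f : ℕ → Bool) (n : ℕ) : allTo f n = true ↔ ∀ i < n, f i = true := by
  induction n with
  | zero => simp [allTo]
  | succ n ih =>
    have h : allTo f (n + 1) = (allTo f n && f n) := rfl
    rw [h, Bool.and_eq_true, ih]
    constructor
    · rintro ⟨h1, h2⟩ i hi
      rcases Nat.lt_succ_iff_lt_or_eq.1 hi with h3 | h3
      · exact h1 i h3
      · rwa [h3]
    · intro h1
      exact ⟨fun i hi => h1 i (by omega), h1 n (by omega)⟩

theorem push_eq (X : ℕ) (l : List ℕ) (κ : List ℕ → Bool) : push X l κ = κ (X :: l) := by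
  unfold push
  rw [force_eq]

/-- sign -/
def sg (s : Bool) : ℝ := cond s 1 (-1)

theorem sg_not (s : Bool) : sg (!s) = -sg s := by cases s <;> simp [sg]

@[simp] theorem sg_true : sg true = 1 := rfl
@[simp] theorem sg_false : sg false = -1 := rfl

/-- The packed form `X` involves only the slots below `n` and has the value `r` at `v`. -/
def Rep (P : Par) (n : ℕ) (v : ℕ → ℝ) (X : ℕ) (r : ℝ) : Prop :=
  ∃ a b : ℕ → ℕ, (∀ j, n ≤ j → a j = 0 ∧ b j = 0) ∧
    X = ∑ j ∈ range P.K, (a j * atm P true j + b j * atm P false j) ∧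
    r = ∑ j ∈ range P.K, ((a j : ℝ) - b j) * v j

variable {P : Par} {n : ℕ} {v : ℕ → ℝ}

theorem Rep.zero : Rep P n v 0 0 :=
  ⟨fun _ => 0, fun _ => 0, fun _ _ => ⟨rfl, rfl⟩, by simp, by simp⟩

theorem Rep.add {X Y : ℕ} {r s : ℝ} (h1 : Rep P n v X r) (h2 : Rep P n v Y s) :
    Rep P n v (X + Y) (r + s) := by
  obtain ⟨a, b, h3, rfl, rfl⟩ := h1
  obtain ⟨a', b', h3', rfl, rfl⟩ := h2
  refine ⟨fun j => a j + a' j, fun j => b j + b' j, fun j hj => ?_, ?_, ?_⟩
  · simp [(h3 j hj).1, (h3 j hj).2, (h3' j hj).1, (h3' j hj).2]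
  · rw [← Finset.sum_add_distrib]
    refine Finset.sum_congr rfl fun j _ => ?_
    ring
  · rw [← Finset.sum_add_distrib]
    refine Finset.sum_congr rfl fun j _ => ?_
    push_cast
    ring

theorem Rep.mul (k : ℕ) {X : ℕ} {r : ℝ} (h1 : Rep P n v X r) : Rep P n v (k * X) (k * r) := by
  obtain ⟨a, b, h3, rfl, rfl⟩ := h1
  refine ⟨fun j => k * a j, fun j => k * b j, fun j hj => ?_, ?_, ?_⟩
  · simp [(h3 j hj).1, (h3 j hj).2]
  · rw [Finset.mul_sum]
    refine Finset.sum_congr rfl fun j _ => ?_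
    ring
  · rw [Finset.mul_sum]
    refine Finset.sum_congr rfl fun j _ => ?_
    push_cast
    ring

theorem Rep.atm {j : ℕ} (s : Bool) (hj : j < n) (hn : n ≤ P.K) :
    Rep P n v (atm P s j) (sg s * v j) := by
  have hjK : j ∈ range P.K := Finset.mem_range.2 (by omega)
  cases s
  · refine ⟨fun _ => 0, fun i => if i = j then 1 else 0, fun i hi => ?_, ?_, ?_⟩
    · have : i ≠ j := by omega
      simp [this]
    · rw [Finset.sum_eq_single_of_mem j hjK]
      · simp
      · intro i _ hi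
        simp [hi]
    · rw [Finset.sum_eq_single_of_mem j hjK]
      · simp
      · intro i _ hi
        simp [hi]
  · refine ⟨fun i => if i = j then 1 else 0, fun _ => 0, fun i hi => ?_, ?_, ?_⟩
    · have : i ≠ j := by omega
      simp [this]
    · rw [Finset.sum_eq_single_of_mem j hjK]
      · simp
      · intro i _ hi
        simp [hi]
    · rw [Finset.sum_eq_single_of_mem j hjK]
      · simp
      · intro i _ hi
        simp [hi]

theorem Rep.mono {n' : ℕ} (h : n ≤ n') {X : ℕ} {r : ℝ} (h1 : Rep P n v X r) :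
    Rep P n' v X r := by
  obtain ⟨a, b, h3, h4, h5⟩ := h1
  exact ⟨a, b, fun j hj => h3 j (h.trans hj), h4, h5⟩

theorem Rep.congr {v' : ℕ → ℝ} (h : ∀ j < n, v' j = v j) {X : ℕ} {r : ℝ} (h1 : Rep P n v X r) :
    Rep P n v' X r := by
  obtain ⟨a, b, h3, h4, h5⟩ := h1
  refine ⟨a, b, h3, h4, h5.trans (Finset.sum_congr rfl fun j _ => ?_)⟩
  by_cases hj : j < n
  · rw [h j hj]
  · rw [(h3 j (not_lt.1 hj)).1, (h3 j (not_lt.1 hj)).2]
    simp

theorem Rep.sumTo {f : ℕ → ℕ} {r : ℕ → ℝ} {m : ℕ} (h : ∀ i < m, Rep P n v (f i) (r i)) :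
    Rep P n v (sumTo f m) (∑ i ∈ range m, r i) := by
  rw [sumTo_eq]
  induction m with
  | zero => simpa using Rep.zero
  | succ m ih =>
    rw [Finset.sum_range_succ, Finset.sum_range_succ]
    exact (ih fun i hi => h i (by omega)).add (h m (by omega))

theorem Rep.cast {X : ℕ} {r r' : ℝ} (h1 : Rep P n v X r) (h : r = r') : Rep P n v X r' := h ▸ h1

/-! ### Negative constants -/

theorem sum_digits_lt {B : ℕ} (hB : 0 < B) (a : ℕ → ℕ) (K : ℕ) (ha : ∀ j < K, a j < B) :
    ∑ j ∈ range K, a j * B ^ j < B ^ K := by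
  induction K with
  | zero => simp
  | succ K ih =>
    rw [Finset.sum_range_succ, pow_succ]
    have h1 := ih fun j hj => ha j (by omega)
    have h2 : a K + 1 ≤ B := ha K (by omega)
    have h3 : (a K + 1) * B ^ K ≤ B * B ^ K := Nat.mul_le_mul_right _ h2
    have h4 : (a K + 1) * B ^ K = a K * B ^ K + B ^ K := by ring
    have h5 : B * B ^ K = B ^ K * B := by ring
    omega

theorem digits_unique {B : ℕ} (hB : 0 < B) (a b : ℕ → ℕ) (K : ℕ) (ha : ∀ j < K, a j < B)
    (hb : ∀ j < K, b j < B)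
    (h : ∑ j ∈ range K, a j * B ^ j = ∑ j ∈ range K, b j * B ^ j) : ∀ j < K, a j = b j := by
  induction K with
  | zero => intro j hj; omega
  | succ K ih =>
    rw [Finset.sum_range_succ, Finset.sum_range_succ] at h
    have h1 := sum_digits_lt hB a K fun j hj => ha j (by omega)
    have h2 := sum_digits_lt hB b K fun j hj => hb j (by omega)
    have hpos : 0 < B ^ K := Nat.pow_pos hB
    have h3 : a K = b K := by
      have h4 : (∑ j ∈ range K, a j * B ^ j + a K * B ^ K) / B ^ K = a K := by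
        rw [Nat.add_mul_div_right _ _ hpos, Nat.div_eq_of_lt h1, zero_add]
      have h5 : (∑ j ∈ range K, b j * B ^ j + b K * B ^ K) / B ^ K = b K := by
        rw [Nat.add_mul_div_right _ _ hpos, Nat.div_eq_of_lt h2, zero_add]
      rw [← h4, ← h5, h]
    have h4 : ∑ j ∈ range K, a j * B ^ j = ∑ j ∈ range K, b j * B ^ j := by
      rw [h3] at h
      exact Nat.add_right_cancel h
    intro j hj
    rcases Nat.lt_succ_iff_lt_or_eq.1 hj with h5 | h5
    · exact ih (fun j hj => ha j (by omega)) (fun j hj => hb j (by omega)) h4 j h5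
    · rw [h5, h3]

theorem atm_true (P : Par) (j : ℕ) : atm P true j = (2 ^ P.w) ^ j + ((2 ^ P.w) ^ P.K) ^ 2 := by
  show 2 ^ (P.w * j) + 2 ^ (P.w * (2 * P.K)) = _
  rw [pow_mul, ← pow_mul, ← pow_mul, ← pow_mul]
  congr 2
  ring

theorem atm_false (P : Par) (j : ℕ) :
    atm P false j = (2 ^ P.w) ^ P.K * (2 ^ P.w) ^ j + ((2 ^ P.w) ^ P.K) ^ 2 := by
  show 2 ^ (P.w * (P.K + j)) + 2 ^ (P.w * (2 * P.K)) = _
  rw [← pow_mul, ← pow_mul, ← pow_mul, ← pow_add]
  congr 2 <;> ring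

theorem negOk_eq (P : Par) (T : ℕ) : negOk P T =
    (decide (T % (2 ^ P.w) ^ P.K < T / (2 ^ P.w) ^ P.K % (2 ^ P.w) ^ P.K) &&
    decide (T / ((2 ^ P.w) ^ P.K) ^ 2 +
      (T / (2 ^ P.w) ^ P.K % (2 ^ P.w) ^ P.K - T % (2 ^ P.w) ^ P.K) < 2 ^ P.w)) := by
  unfold negOk
  rw [force_eq, force_eq]
  show (Nat.blt (T % 2 ^ (P.w * P.K)) ((T >>> (P.w * P.K)) % 2 ^ (P.w * P.K)) &&
    Nat.blt (T >>> (P.w * (2 * P.K)) + ((T >>> (P.w * P.K)) % 2 ^ (P.w * P.K) -
      T % 2 ^ (P.w * P.K))) (2 ^ P.w)) = _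
  rw [Nat.shiftRight_eq_div_pow, Nat.shiftRight_eq_div_pow]
  have h1 : 2 ^ (P.w * P.K) = (2 ^ P.w) ^ P.K := by rw [pow_mul]
  have h2 : 2 ^ (P.w * (2 * P.K)) = ((2 ^ P.w) ^ P.K) ^ 2 := by
    rw [← pow_mul, ← pow_mul]
    congr 1
    ring
  rw [h1, h2]
  have h3 : ∀ a b : ℕ, Nat.blt a b = decide (a < b) := by
    intro a b
    rw [Bool.eq_iff_iff]
    simp [Nat.blt_eq]
  rw [h3, h3]

theorem neg_of_negOk {T : ℕ} {r : ℝ} (h : negOk P T = true) (hr : Rep P n v T r) (h0 : v 0 = 1) :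
    ∃ c : ℕ, 1 ≤ c ∧ r = -(c : ℝ) := by
  obtain ⟨a, b, -, hT, hr⟩ := hr
  rw [negOk_eq, Bool.and_eq_true, decide_eq_true_iff, decide_eq_true_iff] at h
  obtain ⟨h1, h2⟩ := h
  set B : ℕ := 2 ^ P.w with hB
  have hBpos : 0 < B := Nat.pow_pos (by norm_num)
  set M : ℕ := B ^ P.K with hM
  have hMpos : 0 < M := Nat.pow_pos hBpos
  set p' : ℕ := ∑ j ∈ range P.K, a j * B ^ j with hp'
  set q' : ℕ := ∑ j ∈ range P.K, b j * B ^ j with hq'
  set s' : ℕ := ∑ j ∈ range P.K, (a j + b j) with hs'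
  have hTe : T = p' + M * (q' + M * s') := by
    rw [hT, hp', hq', hs', Finset.mul_sum, ← Finset.sum_add_distrib, Finset.mul_sum,
      ← Finset.sum_add_distrib]
    refine Finset.sum_congr rfl fun j _ => ?_
    rw [atm_true, atm_false]
    ring
  have hs1 : s' ≤ T / M ^ 2 := by
    rw [Nat.le_div_iff_mul_le (Nat.pow_pos hMpos), hTe]
    have : s' * M ^ 2 = M * (M * s') := by ring
    rw [this]
    have h3 : M * (M * s') ≤ M * (q' + M * s') := Nat.mul_le_mul_left _ (Nat.le_add_left _ _)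
    omega
  have hsB : s' < B := by omega
  have hab : ∀ j ∈ range P.K, a j + b j ≤ s' := fun j hj =>
    Finset.single_le_sum (f := fun j => a j + b j) (fun _ _ => Nat.zero_le _) hj
  have ha : ∀ j < P.K, a j < B := fun j hj => by
    have := hab j (Finset.mem_range.2 hj)
    omega
  have hb : ∀ j < P.K, b j < B := fun j hj => by
    have := hab j (Finset.mem_range.2 hj)
    omega
  have hpM : p' < M := sum_digits_lt hBpos a P.K ha
  have hqM : q' < M := sum_digits_lt hBpos b P.K hb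
  have hp : T % M = p' := by
    rw [hTe, Nat.add_mul_mod_self_left, Nat.mod_eq_of_lt hpM]
  have hTM : T / M = q' + M * s' := by
    rw [hTe, Nat.add_mul_div_left _ _ hMpos, Nat.div_eq_of_lt hpM, zero_add]
  have hq : T / M % M = q' := by
    rw [hTM, Nat.add_mul_mod_self_left, Nat.mod_eq_of_lt hqM]
  have hs : T / M ^ 2 = s' := by
    rw [pow_two, ← Nat.div_div_eq_div_mul, hTM, Nat.add_mul_div_left _ _ hMpos,
      Nat.div_eq_of_lt hqM, zero_add]
  rw [hp, hq] at h1
  rw [hs, hp, hq] at h2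
  have hK : 0 < P.K := by
    rcases Nat.eq_zero_or_pos P.K with h3 | h3
    · rw [hp', hq', h3] at h1
      simp at h1
    · exact h3
  set c : ℕ := q' - p' with hc
  have hcq : p' + c = q' := by omega
  have key : ∀ j < P.K, (fun j => a j + if j = 0 then c else 0) j = b j := by
    refine digits_unique hBpos _ _ P.K ?_ hb ?_
    · intro j hj
      have h3 := hab j (Finset.mem_range.2 hj)
      show a j + (if j = 0 then c else 0) < B
      split_ifs <;> omega
    · show ∑ j ∈ range P.K, (a j + if j = 0 then c else 0) * B ^ j = q'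
      rw [← hcq]
      have h3 : ∀ j ∈ range P.K, (a j + if j = 0 then c else 0) * B ^ j =
          a j * B ^ j + if j = 0 then c else 0 := by
        intro j _
        split_ifs with h4
        · rw [h4, pow_zero]
          ring
        · ring
      rw [Finset.sum_congr rfl h3, Finset.sum_add_distrib, Finset.sum_ite_eq' (range P.K) 0,
        if_pos (Finset.mem_range.2 hK)]
  refine ⟨c, by omega, ?_⟩
  rw [hr]
  have h3 : ∀ j ∈ range P.K, ((a j : ℝ) - b j) * v j = if j = 0 then -(c : ℝ) else 0 := by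
    intro j hj
    have h4 := key j (Finset.mem_range.1 hj)
    simp only at h4
    rw [← h4]
    split_ifs with h5
    · rw [h5, h0]
      push_cast
      ring
    · push_cast
      ring
  rw [Finset.sum_congr rfl h3, Finset.sum_ite_eq' (range P.K) 0,
    if_pos (Finset.mem_range.2 hK)]

/-! ### Combinations -/

/-- all forms of the context are `≥ -δ` -/
def CtxOk (P : Par) (n : ℕ) (v : ℕ → ℝ) (δ : ℝ) (ctx : List ℕ) : Prop :=
  ∀ X ∈ ctx, ∃ r, Rep P n v X r ∧ -δ ≤ r

theorem comb_cons_zero (wl X : ℕ) (ctx : List ℕ) (N acc : ℕ) :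
    comb wl (X :: ctx) 0 N acc = cond (Nat.beq N 0) acc
      (comb wl ctx (Nat.mod (Nat.shiftRight N wl) 256) (Nat.shiftRight (Nat.shiftRight N wl) 8)
        (acc + (N % 2 ^ wl) * X)) := by
  show cond (Nat.beq N 0) acc
        (force (Nat.shiftRight N wl) fun N1 => force (Nat.shiftRight N1 8) fun N2 =>
          comb wl ctx (Nat.mod N1 256) N2 (Nat.add acc (Nat.mul (Nat.mod N (Nat.pow 2 wl)) X))) = _
  rw [force_eq, force_eq]
  rfl

theorem comb_cons_succ (wl X : ℕ) (ctx : List ℕ) (g N acc : ℕ) :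
    comb wl (X :: ctx) (g + 1) N acc = comb wl ctx g N acc := rfl

theorem comb_sound (wl : ℕ) (ctx : List ℕ) : ∀ g N Λ : ℕ, ∃ Λ' : ℕ, ∀ (P : Par) (n : ℕ) (v : ℕ → ℝ)
    (δ : ℝ) (acc : ℕ), 0 ≤ δ → CtxOk P n v δ ctx → (∃ r, Rep P n v acc r ∧ -(Λ * δ) ≤ r) →
    ∃ r, Rep P n v (comb wl ctx g N acc) r ∧ -(Λ' * δ) ≤ r := by
  induction ctx with
  | nil =>
    intro g N Λ
    exact ⟨Λ, fun P n v δ acc _ _ h => h⟩
  | cons X ctx ih =>
    intro g N Λ
    cases g with
    | succ g =>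
      obtain ⟨Λ', h⟩ := ih g N Λ
      refine ⟨Λ', fun P n v δ acc h0 h1 h2 => ?_⟩
      rw [comb_cons_succ]
      exact h P n v δ acc h0 (fun Y hY => h1 Y (List.mem_cons_of_mem _ hY)) h2
    | zero =>
      by_cases hN : N = 0
      · refine ⟨Λ, fun P n v δ acc h0 h1 h2 => ?_⟩
        rw [comb_cons_zero, hN]
        exact h2
      · obtain ⟨Λ', h⟩ := ih (Nat.mod (Nat.shiftRight N wl) 256)
          (Nat.shiftRight (Nat.shiftRight N wl) 8) (Λ + N % 2 ^ wl)
        refine ⟨Λ', fun P n v δ acc h0 h1 h2 => ?_⟩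
        have hN' : Nat.beq N 0 = false := by
          rw [← Bool.not_eq_true, Nat.beq_eq]
          exact hN
        rw [comb_cons_zero, hN']
        refine h P n v δ _ h0 (fun Y hY => h1 Y (List.mem_cons_of_mem _ hY)) ?_
        obtain ⟨r, hr1, hr2⟩ := h2
        obtain ⟨s, hs1, hs2⟩ := h1 X (List.mem_cons_self ..)
        refine ⟨_, hr1.add (hs1.mul (N % 2 ^ wl)), ?_⟩
        have h3 : -((N % 2 ^ wl : ℕ) * δ) ≤ ((N % 2 ^ wl : ℕ) : ℝ) * s := by
          have := mul_le_mul_of_nonneg_left hs2 (Nat.cast_nonneg (α := ℝ) (N % 2 ^ wl))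
          linarith
        push_cast at h3 ⊢
        linarith

/-- Soundness of the leaves. -/
theorem leaf_sound (P : Par) (wl N : ℕ) (ctx : List ℕ) (h : leafOk P wl N ctx = true) :
    ∃ δ₀ : ℝ, 0 < δ₀ ∧ ∀ (n : ℕ) (v : ℕ → ℝ) (δ : ℝ), 0 ≤ δ → δ ≤ δ₀ → v 0 = 1 →
      CtxOk P n v δ ctx → False := by
  unfold leafOk at h
  rw [force_eq, force_eq] at h
  obtain ⟨Λ, hΛ⟩ := comb_sound wl ctx (Nat.mod N 256) (Nat.shiftRight N 8) 0
  refine ⟨1 / (Λ + 1), by positivity, fun n v δ h0 h1 hv hctx => ?_⟩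
  obtain ⟨r, hr1, hr2⟩ := hΛ P n v δ 0 h0 hctx ⟨0, Rep.zero, by simp⟩
  obtain ⟨c, hc1, hc2⟩ := neg_of_negOk h hr1 hv
  have hc : (1 : ℝ) ≤ c := by exact_mod_cast hc1
  have h2 : (Λ : ℝ) * δ ≤ Λ * (1 / (Λ + 1)) := by gcongr
  have h3 : (Λ : ℝ) * (1 / (Λ + 1)) < 1 := by
    rw [mul_one_div, div_lt_one (by positivity)]
    linarith
  linarith

end Pool.Agent.Lib.MP_4d5ce1_nt.BC
end

section

set_option autoImplicit false

/-!
# The checker: values of the forms
-/

namespace Pool.Agent.Lib.MP_4d5ce1_nt.BC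

open Finset

variable {P : Par} {n : ℕ} {v : ℕ → ℝ} {p g : Cfg}

theorem Rep.sum {ι : Type*} {s : Finset ι} {f : ι → ℕ} {r : ι → ℝ}
    (h : ∀ i ∈ s, Rep P n v (f i) (r i)) : Rep P n v (∑ i ∈ s, f i) (∑ i ∈ s, r i) := by
  classical
  induction s using Finset.induction_on with
  | empty => simpa using Rep.zero
  | insert a s ha ih =>
    rw [Finset.sum_insert ha, Finset.sum_insert ha]
    exact (h a (Finset.mem_insert_self _ _)).add
      (ih fun i hi => h i (Finset.mem_insert_of_mem hi))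

theorem slot_eq (P : Par) (off l b : ℕ) : slot P off l b = off + ((P.E + 1) * l + b) := rfl

/-- The root variables are the coordinates of `p`. -/
structure RootInv (P : Par) (v : ℕ → ℝ) (p : Cfg) : Prop where
  v0 : v 0 = 1
  J : ∀ l : Fin 3, v (slot P 1 l P.E) = p.J l
  S : ∀ l : Fin 3, ∀ b, b < P.E → v (slot P 1 l b) = p.S l b
  sum : ∀ l, ∑ b ∈ range P.E, p.I P.E l b = 1

theorem slot_lt (P : Par) (off : ℕ) (l : Fin 3) (b : ℕ) (hb : b ≤ P.E) :
    slot P off l b < off + 3 * (P.E + 1) := by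
  rw [slot_eq]
  have hl : (l : ℕ) ≤ 2 := by omega
  have : (P.E + 1) * (l : ℕ) ≤ (P.E + 1) * 2 := Nat.mul_le_mul_left _ hl
  omega

theorem S_zero (hE : 2 ≤ P.E) (hR : RootInv P v p) (l : Fin 3) :
    p.S l 0 = 1 - p.J l - ∑ i ∈ range (P.E - 2), ((i : ℝ) + 2) * p.S l (i + 1) := by
  have h := hR.sum l
  obtain ⟨e, he⟩ : ∃ e, P.E = e + 2 := ⟨P.E - 2, by omega⟩
  rw [he, Finset.sum_range_succ, Finset.sum_range_succ'] at h
  have h1 : p.I (e + 2) l (e + 1) = p.J l := by simp [Cfg.I]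
  have h2 : p.I (e + 2) l 0 = p.S l 0 := by simp [Cfg.I]
  have h3 : ∀ i ∈ range e, p.I (e + 2) l (i + 1) = ((i : ℝ) + 2) * p.S l (i + 1) := by
    intro i hi
    have : i + 1 + 1 ≠ e + 2 := by
      have := Finset.mem_range.1 hi
      omega
    simp only [Cfg.I, if_neg this]
    push_cast
    ring
  rw [h1, h2, Finset.sum_congr rfl h3] at h
  rw [he, Nat.add_sub_cancel]
  linarith

theorem sF_rep (hE : 2 ≤ P.E) (hR : RootInv P v p) (hn0 : 1 + 3 * (P.E + 1) ≤ n) (hn : n ≤ P.K)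
    (s : Bool) (l : Fin 3) (b : ℕ) (hb : b < P.E) :
    Rep P n v (sF P s l b) (sg s * p.S l b) := by
  have hs : ∀ b ≤ P.E, slot P 1 l b < n := fun b hb => (slot_lt P 1 l b hb).trans_le hn0
  cases b with
  | zero =>
    have h1 : Rep P n v (sF P s l 0) (sg s * v 0 + sg (!s) * v (slot P 1 l P.E) +
        ∑ i ∈ range (P.E - 2), ((i + 2 : ℕ) : ℝ) * (sg (!s) * v (slot P 1 l (i + 1)))) := by
      refine ((Rep.atm s (by omega) hn).add (Rep.atm (!s) (hs P.E le_rfl) hn)).add ?_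
      refine Rep.sumTo fun i hi => ?_
      have hi' : i < P.E - 2 := hi
      exact (Rep.atm (!s) (hs (i + 1) (by omega)) hn).mul (i + 2)
    refine h1.cast ?_
    rw [hR.v0, hR.J, sg_not, S_zero hE hR l, mul_sub, mul_sub, Finset.mul_sum, mul_one]
    rw [sub_eq_add_neg, sub_eq_add_neg, ← Finset.sum_neg_distrib]
    congr 1
    · ring
    · refine Finset.sum_congr rfl fun i hi => ?_
      rw [hR.S l (i + 1) (by have := Finset.mem_range.1 hi; omega)]
      push_cast
      ring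
  | succ b =>
    have h1 : Rep P n v (sF P s l (b + 1)) (sg s * v (slot P 1 l (b + 1))) :=
      Rep.atm s (hs (b + 1) hb.le) hn
    rwa [hR.S l (b + 1) hb] at h1

theorem beq_succ (P : Par) (b : ℕ) : Nat.beq (Nat.succ b) P.E = decide (b + 1 = P.E) := by
  rw [Bool.eq_iff_iff, Nat.beq_eq, decide_eq_true_iff]

theorem iF_rep (hE : 2 ≤ P.E) (hR : RootInv P v p) (hn0 : 1 + 3 * (P.E + 1) ≤ n) (hn : n ≤ P.K)
    (s : Bool) (l : Fin 3) (b : ℕ) (hb : b < P.E) :
    Rep P n v (iF P s l b) (sg s * p.I P.E l b) := by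
  unfold iF Cfg.I
  rw [beq_succ]
  by_cases h : b + 1 = P.E
  · rw [if_pos h, decide_eq_true h]
    have h1 : Rep P n v (atm P s (slot P 1 l P.E)) (sg s * v (slot P 1 l P.E)) :=
      Rep.atm s ((slot_lt P 1 l _ le_rfl).trans_le hn0) hn
    rwa [hR.J] at h1
  · rw [if_neg h, decide_eq_false h]
    refine ((sF_rep hE hR hn0 hn s l b hb).mul (b + 1)).cast ?_
    push_cast
    ring

/-- The slots from `off` on hold the coordinates of `g`. -/
structure SlotInv (P : Par) (n : ℕ) (v : ℕ → ℝ) (off : ℕ) (g : Cfg) : Prop where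
  le : off + 3 * (P.E + 1) ≤ n
  J : ∀ l : Fin 3, v (slot P off l P.E) = g.J l
  S : ∀ l : Fin 3, ∀ b, b < P.E → v (slot P off l b) = g.S l b

theorem gS_rep {off : ℕ} (hg : SlotInv P n v off g) (hn : n ≤ P.K)
    (s : Bool) (l : Fin 3) (b : ℕ) (hb : b < P.E) :
    Rep P n v (gS P s off l b) (sg s * g.S l b) := by
  have h1 : Rep P n v (atm P s (slot P off l b)) (sg s * v (slot P off l b)) :=
    Rep.atm s ((slot_lt P off l b hb.le).trans_le hg.le) hn
  rwa [hg.S l b hb] at h1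

theorem gI_rep {off : ℕ} (hg : SlotInv P n v off g) (hn : n ≤ P.K)
    (s : Bool) (l : Fin 3) (b : ℕ) (hb : b < P.E) :
    Rep P n v (gI P s off l b) (sg s * g.I P.E l b) := by
  unfold gI Cfg.I
  rw [beq_succ]
  by_cases h : b + 1 = P.E
  · rw [if_pos h, decide_eq_true h]
    have h1 : Rep P n v (atm P s (slot P off l P.E)) (sg s * v (slot P off l P.E)) :=
      Rep.atm s ((slot_lt P off l _ le_rfl).trans_le hg.le) hn
    rwa [hg.J] at h1
  · rw [if_neg h, decide_eq_false h]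
    refine ((gS_rep hg hn s l b hb).mul (b + 1)).cast ?_
    push_cast
    ring

/-! ### Sums over blocks -/

theorem sum_blocks (E m : ℕ) (f : ℕ → ℕ) :
    ∑ i ∈ range (m * E), f i = ∑ l ∈ range m, ∑ b ∈ range E, f (E * l + b) := by
  induction m with
  | zero => simp
  | succ m ih =>
    rw [Finset.sum_range_succ, ← ih, Nat.succ_mul, Finset.sum_range_add]
    congr 1
    refine Finset.sum_congr rfl fun b _ => ?_
    rw [mul_comm]

theorem rep_blocks {f : ℕ → ℕ} {r : Fin 3 → ℕ → ℝ}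
    (h : ∀ l : Fin 3, ∀ b < P.E, Rep P n v (f (P.E * l + b)) (r l b)) :
    Rep P n v (sumTo f (Nat.mul 3 P.E)) (∑ l, ∑ b ∈ range P.E, r l b) := by
  rw [sumTo_eq]
  show Rep P n v (∑ i ∈ range (3 * P.E), f i) _
  rw [sum_blocks, Finset.sum_range]
  exact Rep.sum fun l _ => Rep.sum fun b hb => h l b (Finset.mem_range.1 hb)

theorem div_blk {E l b : ℕ} (hb : b < E) : Nat.div (E * l + b) E = l := by
  show (E * l + b) / E = l
  rw [Nat.mul_add_div (by omega), Nat.div_eq_of_lt hb, add_zero]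

theorem mod_blk {E l b : ℕ} (hb : b < E) : Nat.mod (E * l + b) E = b := by
  show (E * l + b) % E = b
  rw [Nat.mul_add_mod, Nat.mod_eq_of_lt hb]

theorem beq_fin (l k : Fin 3) : Nat.beq (l : ℕ) (k : ℕ) = decide (l = k) := by
  rw [Bool.eq_iff_iff, Nat.beq_eq, decide_eq_true_iff, Fin.ext_iff]

theorem split_k (k : Fin 3) (F : Fin 3 → ℝ) :
    ∑ l, F l = ∑ l ∈ univ.filter (fun l => l ≠ k), F l + F k := by
  rw [← Finset.sum_filter_add_sum_filter_not univ (fun l => l ≠ k)]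
  congr 1
  have : univ.filter (fun l : Fin 3 => ¬ l ≠ k) = {k} := by
    ext l
    simp
  rw [this, Finset.sum_singleton]

/-- block sum of a form which treats the form `k` differently -/
theorem rep_blocks_k {f : ℕ → ℕ} (k : Fin 3) {r1 : Fin 3 → ℕ → ℝ} {r2 : ℕ → ℝ}
    (h1 : ∀ l : Fin 3, l ≠ k → ∀ b < P.E, Rep P n v (f (P.E * l + b)) (r1 l b))
    (h2 : ∀ b < P.E, Rep P n v (f (P.E * k + b)) (r2 b)) :
    Rep P n v (sumTo f (Nat.mul 3 P.E))
      (∑ l ∈ univ.filter (fun l => l ≠ k), ∑ b ∈ range P.E, r1 l b + ∑ b ∈ range P.E, r2 b) := by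
  have h3 := rep_blocks (P := P) (n := n) (v := v) (f := f)
    (r := fun l b => if l = k then r2 b else r1 l b) (by
      intro l b hb
      by_cases h : l = k
      · subst h
        simpa using h2 b hb
      · simpa [h] using h1 l h b hb)
  refine h3.cast ?_
  rw [split_k k]
  congr 1
  · refine Finset.sum_congr rfl fun l hl => ?_
    have : l ≠ k := (Finset.mem_filter.1 hl).2
    simp [this]
  · simp

/-! ### Membership bits -/

theorem sb_ne {k : Fin 3} {m : ℕ} {neg : Bool} {l : Fin 3} (h : l ≠ k) {b : ℕ} (hb : b < P.E) :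
    sb P k m neg (P.E * l + b) = xor neg (bt m (P.E * l + b)) := by
  unfold sb
  rw [div_blk hb, beq_fin, decide_eq_false h]
  rfl

theorem sb_k {k : Fin 3} {m : ℕ} {neg : Bool} {b : ℕ} (hb : b < P.E) :
    sb P k m neg (P.E * k + b) = bt m (P.E * k + b) := by
  unfold sb
  rw [div_blk hb, beq_fin, decide_eq_true rfl]
  rfl

/-- the value `kV` -/
noncomputable def kv (P : Par) (p : Cfg) (k : Fin 3) (m : ℕ) : ℝ :=
  ∑ l ∈ univ.filter (fun l => l ≠ k), ∑ b ∈ range P.E,
      (if bt m (P.E * l + b) = true then 0 else p.S l b) +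
    ∑ b ∈ range P.E, (if bt m (P.E * k + b) = true then p.S k b else 0)

theorem kvF_rep (hE : 2 ≤ P.E) (hR : RootInv P v p) (hn0 : 1 + 3 * (P.E + 1) ≤ n) (hn : n ≤ P.K)
    (s : Bool) (k : Fin 3) (m : ℕ) : Rep P n v (kvF P s k m) (sg s * kv P p k m) := by
  have h := rep_blocks_k (P := P) (n := n) (v := v)
    (f := fun i => cond (sb P k m true i) (sF P s (Nat.div i P.E) (Nat.mod i P.E)) 0) k
    (r1 := fun l b => sg s * (if bt m (P.E * l + b) = true then 0 else p.S l b))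
    (r2 := fun b => sg s * (if bt m (P.E * k + b) = true then p.S k b else 0)) ?_ ?_
  · refine h.cast ?_
    unfold kv
    simp only [← Finset.mul_sum]
    ring
  · intro l hl b hb
    simp only [sb_ne hl hb, div_blk hb, mod_blk hb]
    cases h : bt m (P.E * l + b)
    · simpa using sF_rep hE hR hn0 hn s l b hb
    · simpa using Rep.zero
  · intro b hb
    simp only [sb_k hb, div_blk hb, mod_blk hb]
    cases h : bt m (P.E * k + b)
    · simpa using Rep.zero
    · simpa using sF_rep hE hR hn0 hn s k b hb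

end Pool.Agent.Lib.MP_4d5ce1_nt.BC
end
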