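import Pool.Agent.Lib.MP_4d5ce1_nt.BCheckForms

set_option autoImplicit false

/-!
# The checker: tools and sides
-/

namespace Pool.Agent.Lib.MP_4d5ce1_nt.BC

open Finset

variable {P : Par} {n : ℕ} {v : ℕ → ℝ} {p g : Cfg}

/-! ### Basic tools -/

/-- the basic tool coded by `k, n, m` -/
def mkBT (P : Par) (k : Fin 3) (n m : ℕ) : BT :=
  ⟨k, n, fun l b => bt m (P.E * l + b), fun b => bt m (P.E * k + b)⟩

theorem blk_lt {E b : ℕ} {l : Fin 3} (hb : b < E) : E * (l : ℕ) + b < Nat.mul 3 E := by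
  show E * (l : ℕ) + b < 3 * E
  have hl : (l : ℕ) ≤ 2 := by omega
  have : E * (l : ℕ) ≤ E * 2 := Nat.mul_le_mul_left _ hl
  omega

theorem blt_iff (a b : ℕ) : Nat.blt a b = true ↔ a < b := by rw [Nat.blt_eq]

theorem ble_iff (a b : ℕ) : Nat.ble a b = true ↔ a ≤ b := by rw [Nat.ble_eq]

theorem dvd_of_mod {a n : ℕ} (h : Nat.beq (Nat.mod a n) 0 = true) : n ∣ a :=
  Nat.dvd_of_mod_eq_zero (Nat.beq_eq ▸ h)

theorem blockTest {n b : ℕ}
    (h : cond (Nat.beq (Nat.succ b) P.E) (Nat.beq n 1)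
        (Nat.beq (Nat.mod (Nat.succ b) n) 0) = true) :
    if b + 1 = P.E then n = 1 else n ∣ b + 1 := by
  rw [beq_succ] at h
  by_cases hb : b + 1 = P.E
  · rw [decide_eq_true hb, cond_true, Nat.beq_eq] at h
    rw [if_pos hb]
    exact h
  · rw [decide_eq_false hb, cond_false] at h
    rw [if_neg hb]
    exact dvd_of_mod h

theorem basicOk_ok {k : ℕ} {nn m : ℕ} (h : basicOk P k nn m = true) :
    ∃ hk : k < 3, 1 ≤ nn ∧ nn ≤ P.E ∧ (mkBT P ⟨k, hk⟩ nn m).ok P.E := by
  unfold basicOk at h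
  rw [Bool.and_eq_true, Bool.and_eq_true, Bool.and_eq_true, blt_iff, blt_iff, ble_iff,
    allTo_iff] at h
  obtain ⟨⟨hk, h1, h2⟩, h3⟩ := h
  refine ⟨hk, h1, h2, h1, h2, ?_⟩
  intro l hl b hb hA
  have hb' := Finset.mem_range.1 hb
  have h4 := h3 (P.E * l + b) (blk_lt hb')
  rw [div_blk hb', mod_blk hb'] at h4
  have h5 : Nat.beq (l : ℕ) k = false := by
    rw [← Bool.not_eq_true, Nat.beq_eq]
    intro h
    exact hl (Fin.ext h)
  have hA' : bt m (P.E * l + b) = true := hA
  rw [h5, hA'] at h4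
  simp only [Bool.not_true, Bool.false_or] at h4
  exact blockTest h4

/-- the index left out by a basic tool -/
noncomputable def arA (P : Par) (p : Cfg) (k : Fin 3) (m : ℕ) : ℝ :=
  ∑ l ∈ univ.filter (fun l => l ≠ k), ∑ b ∈ range P.E,
      (if bt m (P.E * l + b) = true then p.I P.E l b else 0)

/-- the index on the `T`-blocks -/
noncomputable def arT (P : Par) (p : Cfg) (k : Fin 3) (m : ℕ) : ℝ :=
  ∑ b ∈ range P.E, (if bt m (P.E * k + b) = true then p.I P.E k b else 0)

theorem cost_mkBT (k : Fin 3) (nn m : ℕ) :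
    (mkBT P k nn m).cost P.E p = kv P p k m + max 0 (arA P p k m / (nn : ℝ) - arT P p k m) := rfl

theorem bAr_rep (hE : 2 ≤ P.E) (hR : RootInv P v p) (hn0 : 1 + 3 * (P.E + 1) ≤ n) (hn : n ≤ P.K)
    (k : Fin 3) (nn m : ℕ) :
    Rep P n v (bAr P k nn m) (arA P p k m - nn * arT P p k m) := by
  have h := rep_blocks_k (P := P) (n := n) (v := v)
    (f := fun i => cond (bt m i)
    (cond (Nat.beq (Nat.div i P.E) k) (Nat.mul nn (iF P false (Nat.div i P.E) (Nat.mod i P.E)))
      (iF P true (Nat.div i P.E) (Nat.mod i P.E))) 0) k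
    (r1 := fun l b => (if bt m (P.E * l + b) = true then p.I P.E l b else 0))
    (r2 := fun b => -(nn : ℝ) * (if bt m (P.E * k + b) = true then p.I P.E k b else 0)) ?_ ?_
  · refine h.cast ?_
    unfold arA arT
    simp only [← Finset.mul_sum]
    ring
  · intro l hl b hb
    simp only [div_blk hb, mod_blk hb, beq_fin, decide_eq_false hl]
    cases h : bt m (P.E * l + b)
    · simpa using Rep.zero
    · simpa using iF_rep hE hR hn0 hn true l b hb
  · intro b hb
    simp only [div_blk hb, mod_blk hb, beq_fin, decide_true]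
    cases h : bt m (P.E * k + b)
    · simpa using Rep.zero
    · have := (iF_rep hE hR hn0 hn false k b hb).mul nn
      refine Rep.cast (X := Nat.mul nn (iF P false k b)) this ?_
      simp

theorem bF1_rep (hE : 2 ≤ P.E) (hR : RootInv P v p) (hn0 : 1 + 3 * (P.E + 1) ≤ n) (hn : n ≤ P.K)
    (k : Fin 3) (m : ℕ) : Rep P n v (bF1 P k m) (P.td * kv P p k m - P.tn) := by
  have h := ((kvF_rep hE hR hn0 hn true k m).mul P.td).add
    ((Rep.atm (P := P) (n := n) (v := v) (j := 0) false (by omega) hn).mul P.tn)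
  refine Rep.cast (X := bF1 P k m) h ?_
  rw [hR.v0]
  simp
  ring

theorem bF2_rep (hE : 2 ≤ P.E) (hR : RootInv P v p) (hn0 : 1 + 3 * (P.E + 1) ≤ n) (hn : n ≤ P.K)
    (k : Fin 3) (nn m : ℕ) : Rep P n v (bF2 P k nn m (bF1 P k m))
      (nn * (P.td * kv P p k m - P.tn) + P.td * (arA P p k m - nn * arT P p k m)) :=
  ((bF1_rep hE hR hn0 hn k m).mul nn).add ((bAr_rep hE hR hn0 hn k nn m).mul P.td)

/-- If a basic tool has cost `> θ`, one of its two forms is positive. -/
theorem basic_cases (htd : 1 ≤ P.td) (k : Fin 3) {nn : ℕ} (hnn : 1 ≤ nn) (m : ℕ)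
    (h : (P.tn : ℝ) / P.td < (mkBT P k nn m).cost P.E p) :
    0 < P.td * kv P p k m - P.tn ∨
      0 < nn * (P.td * kv P p k m - P.tn) + P.td * (arA P p k m - nn * arT P p k m) := by
  have htd' : (0 : ℝ) < P.td := by exact_mod_cast htd
  have hnn' : (0 : ℝ) < nn := by exact_mod_cast hnn
  rw [cost_mkBT, div_lt_iff₀ htd'] at h
  rcases le_total (arA P p k m / (nn : ℝ) - arT P p k m) 0 with h1 | h1
  · left
    rw [max_eq_left h1] at h
    linarith
  · right
    rw [max_eq_right h1] at h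
    have h2 : nn * (P.td * kv P p k m - P.tn) + P.td * (arA P p k m - nn * arT P p k m) =
        nn * ((kv P p k m + (arA P p k m / nn - arT P p k m)) * P.td - P.tn) := by
      field_simp
      ring
    rw [h2]
    exact mul_pos hnn' (by linarith)

/-! ### Sides -/

/-- The side `(A, T)` is coded by `k, m, neg`. -/
def SideCode (P : Par) (k : Fin 3) (m : ℕ) (neg : Bool) (A : Fin 3 → ℕ → Bool) (T : ℕ → Bool) :
    Prop :=
  (∀ l, l ≠ k → ∀ b < P.E, A l b = sb P k m neg (P.E * l + b)) ∧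
    ∀ b < P.E, T b = sb P k m neg (P.E * k + b)

/-- the slack constant -/
noncomputable def slackC (P : Par) : ℝ := 3 * (P.E + 1) * (P.td + 1)

/-- data of a side -/
structure SideHyp (P : Par) (n : ℕ) (v : ℕ → ℝ) (p g : Cfg) (ε : ℝ) (k : Fin 3) (m : ℕ)
    (neg : Bool) (off : ℕ) : Prop where
  hE : 2 ≤ P.E
  root : RootInv P v p
  hn0 : 1 + 3 * (P.E + 1) ≤ n
  hn : n ≤ P.K
  eps : 0 < ε
  slots : SlotInv P n v off g
  adm : ∃ A T, SideCode P k m neg A T ∧ AdmG P.E ε p k A T g

theorem slack_ge (ε : ℝ) (hε : 0 < ε) (c : ℝ) (hc : c ≤ 3 * (P.E + 1)) :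
    -(slackC P * ε) ≤ -(c * ε) := by
  have htd' : (0 : ℝ) ≤ P.td := Nat.cast_nonneg _
  have h1 : c ≤ slackC P := by
    unfold slackC
    have h2 : (0 : ℝ) ≤ 3 * ((P.E : ℝ) + 1) := by positivity
    nlinarith
  have := mul_le_mul_of_nonneg_right h1 hε.le
  linarith

theorem I_last {b : ℕ} (hb : b + 1 = P.E) (l : Fin 3) : p.I P.E l b = p.J l := by
  simp [Cfg.I, hb]

theorem ctxOk_cons {δ : ℝ} {X : ℕ} {l : List ℕ} {r : ℝ} (h1 : CtxOk P n v δ l)
    (h2 : Rep P n v X r) (h3 : -δ ≤ r) : CtxOk P n v δ (X :: l) := by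
  intro Y hY
  rcases List.mem_cons.1 hY with rfl | hY
  · exact ⟨r, h2, h3⟩
  · exact h1 Y hY

theorem sideStep_sound {k : Fin 3} {m : ℕ} {neg : Bool} {off : ℕ} {ll : Fin 3} {b : ℕ}
    (hb : b < P.E) {l : List ℕ} {κ : List ℕ → Bool}
    (h : sideStep P k m neg off (P.E * ll + b) l κ = true) :
    ∃ l', κ l' = true ∧ ∀ (n : ℕ) (v : ℕ → ℝ) (p g : Cfg) (ε : ℝ),
      SideHyp P n v p g ε k m neg off → CtxOk P n v (slackC P * ε) l →
      CtxOk P n v (slackC P * ε) l' := by
  unfold sideStep at h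
  rw [div_blk hb, mod_blk hb, beq_fin] at h
  by_cases hl : ll = k
  · rw [decide_eq_true hl] at h
    exact ⟨l, h, fun _ _ _ _ _ _ hc => hc⟩
  · rw [decide_eq_false hl] at h
    cases hs : sb P k m neg (P.E * ll + b)
    · rw [hs] at h
      exact ⟨l, h, fun _ _ _ _ _ _ hc => hc⟩
    · rw [hs] at h
      simp only [Bool.not_false, Bool.and_self, cond_true, push_eq, beq_succ] at h
      have hbase : ∀ (n : ℕ) (v : ℕ → ℝ) (p g : Cfg) (ε : ℝ),
          SideHyp P n v p g ε k m neg off → CtxOk P n v (slackC P * ε) l →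
          CtxOk P n v (slackC P * ε) (Nat.add (sF P true ll b) (gS P false off ll b) ::
            gS P true off ll b :: l) := by
        intro n v p g ε hh hc
        obtain ⟨A, T, hcode, hadm⟩ := hh.adm
        have hA : A ll b = true := by rw [hcode.1 ll hl b hb, hs]
        obtain ⟨h1, h2⟩ := hadm.1 ll hl b (Finset.mem_range.2 hb) hA
        have hsl : -(slackC P * ε) ≤ -ε := by
          have := slack_ge (P := P) ε hh.eps 1 (by
            have : (0 : ℝ) ≤ P.E := Nat.cast_nonneg _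
            linarith)
          linarith
        refine ctxOk_cons (ctxOk_cons hc (gS_rep hh.slots hh.hn true ll b hb) ?_)
          ((sF_rep hh.hE hh.root hh.hn0 hh.hn true ll b hb).add
            (gS_rep hh.slots hh.hn false ll b hb)) ?_
        · rw [sg_true]
          linarith
        · rw [sg_true, sg_false]
          linarith
      by_cases hlast : b + 1 = P.E
      · rw [decide_eq_true hlast] at h
        simp only [cond_true] at h
        refine ⟨_, h, fun n v p g ε hh hc => ?_⟩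
        have hbase' := hbase n v p g ε hh hc
        obtain ⟨A, T, hcode, hadm⟩ := hh.adm
        have hA : A ll b = true := by rw [hcode.1 ll hl b hb, hs]
        have hb1 : P.E - 1 = b := by omega
        obtain ⟨h3, h4⟩ := hadm.1 ll hl b (Finset.mem_range.2 hb) hA
        obtain ⟨h1, h2⟩ := hadm.2.1 ll hl (by rw [hb1]; exact hA)
        rw [hb1] at h1 h2
        have hEpos : (0 : ℝ) ≤ P.E := Nat.cast_nonneg _
        have hsl1 : -(slackC P * ε) ≤ -ε := by
          have := slack_ge (P := P) ε hh.eps 1 (by linarith)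
          linarith
        have hsl2 : -(slackC P * ε) ≤ -((P.E + 1) * ε) :=
          slack_ge (P := P) ε hh.eps _ (by linarith)
        have h5 : -(P.E * ε) ≤ P.E * g.S ll b := by
          have := mul_le_mul_of_nonneg_left h3 hEpos
          linarith
        have h6 : -(P.E * ε) ≤ P.E * (p.S ll b - g.S ll b) := by
          have := mul_le_mul_of_nonneg_left (show -ε ≤ p.S ll b - g.S ll b by linarith) hEpos
          linarith
        have hgI := fun s => gI_rep (g := g) hh.slots hh.hn s ll b hb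
        have hpI := fun s => iF_rep (p := p) hh.hE hh.root hh.hn0 hh.hn s ll b hb
        simp only [I_last hlast] at hgI hpI
        have hgS := fun s => gS_rep (g := g) hh.slots hh.hn s ll b hb
        have hpS := fun s => sF_rep (p := p) hh.hE hh.root hh.hn0 hh.hn s ll b hb
        refine ctxOk_cons (ctxOk_cons (ctxOk_cons (ctxOk_cons hbase' (hgI true) ?_)
          ((hpI true).add (hgI false)) ?_) ((hgI true).add ((hgS false).mul P.E)) ?_)
          (((hpI true).add (hgI false)).add (((hpS false).add (hgS true)).mul P.E)) ?_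
        · rw [sg_true]
          linarith
        · rw [sg_true, sg_false]
          linarith
        · rw [sg_true, sg_false]
          linarith
        · rw [sg_true, sg_false]
          linarith
      · rw [decide_eq_false hlast] at h
        simp only [cond_false] at h
        exact ⟨_, h, hbase⟩

theorem sideLoop_sound {k : Fin 3} {m : ℕ} {neg : Bool} {off : ℕ} (N : ℕ) (hN : N ≤ 3 * P.E) :
    ∀ {l : List ℕ} {κ : List ℕ → Bool}, sideLoop P k m neg off N l κ = true →
    ∃ l', κ l' = true ∧ ∀ (n : ℕ) (v : ℕ → ℝ) (p g : Cfg) (ε : ℝ),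
      SideHyp P n v p g ε k m neg off → CtxOk P n v (slackC P * ε) l →
      CtxOk P n v (slackC P * ε) l' := by
  induction N with
  | zero =>
    intro l κ h
    exact ⟨l, h, fun _ _ _ _ _ _ hc => hc⟩
  | succ N ih =>
    intro l κ h
    have h1 : sideStep P k m neg off N l (fun l' => sideLoop P k m neg off N l' κ) = true := h
    have hE : 0 < P.E := by omega
    have hdiv : N / P.E < 3 := by
      rw [Nat.div_lt_iff_lt_mul hE]
      omega
    have hN' : N = P.E * ((⟨N / P.E, hdiv⟩ : Fin 3) : ℕ) + N % P.E := (Nat.div_add_mod N P.E).symm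
    rw [hN'] at h1
    obtain ⟨l1, h2, h3⟩ := sideStep_sound (Nat.mod_lt N hE) h1
    rw [← hN'] at h2
    obtain ⟨l2, h4, h5⟩ := ih (by omega) h2
    exact ⟨l2, h4, fun n v p g ε hh hc => h5 n v p g ε hh (h3 n v p g ε hh hc)⟩

theorem sideHyp_rep {k : Fin 3} {m : ℕ} {neg : Bool} {off : ℕ} {ε : ℝ}
    (hh : SideHyp P n v p g ε k m neg off) :
    ∃ r, Rep P n v (sideHyp P k m neg off) r ∧ -ε ≤ r := by
  obtain ⟨A, T, hcode, hadm⟩ := hh.adm
  have h := rep_blocks_k (P := P) (n := n) (v := v)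
    (f := fun i => cond (sb P k m neg i)
    (cond (Nat.beq (Nat.div i P.E) k) (iF P false (Nat.div i P.E) (Nat.mod i P.E))
      (Nat.add (iF P true (Nat.div i P.E) (Nat.mod i P.E))
        (gI P false off (Nat.div i P.E) (Nat.mod i P.E)))) 0) k
    (r1 := fun l b => if A l b = true then p.I P.E l b - g.I P.E l b else 0)
    (r2 := fun b => -(if T b = true then p.I P.E k b else 0)) ?_ ?_
  · refine ⟨_, h, ?_⟩
    have h1 := hadm.2.2
    rw [Finset.sum_neg_distrib]
    have h2 : ∀ F G : ℝ, G ≤ F + ε → -ε ≤ F + -G := fun F G h => by linarith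
    exact h2 _ _ h1
  · intro l hl b hb
    simp only [div_blk hb, mod_blk hb, beq_fin, decide_eq_false hl, ← hcode.1 l hl b hb]
    cases h : A l b
    · simpa using Rep.zero
    · refine Rep.cast (X := Nat.add (iF P true l b) (gI P false off l b))
        ((iF_rep hh.hE hh.root hh.hn0 hh.hn true l b hb).add
        (gI_rep hh.slots hh.hn false l b hb)) ?_
      simp
      ring
  · intro b hb
    simp only [div_blk hb, mod_blk hb, beq_fin, decide_true, ← hcode.2 b hb]
    cases h : T b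
    · simpa using Rep.zero
    · refine Rep.cast (X := iF P false k b)
        (iF_rep hh.hE hh.root hh.hn0 hh.hn false k b hb) ?_
      simp

theorem sideAll_sound {k : Fin 3} {m : ℕ} {neg : Bool} {off : ℕ} {l : List ℕ}
    {κ : List ℕ → Bool} (h : sideAll P k m neg off l κ = true) :
    ∃ l', κ l' = true ∧ ∀ (n : ℕ) (v : ℕ → ℝ) (p g : Cfg) (ε : ℝ),
      SideHyp P n v p g ε k m neg off → CtxOk P n v (slackC P * ε) l →
      CtxOk P n v (slackC P * ε) l' := by
  obtain ⟨l1, h1, h2⟩ := sideLoop_sound (Nat.mul 3 P.E) le_rfl h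
  rw [push_eq] at h1
  refine ⟨_, h1, fun n v p g ε hh hc => ?_⟩
  obtain ⟨r, hr1, hr2⟩ := sideHyp_rep hh
  refine ctxOk_cons (h2 n v p g ε hh hc) hr1 (le_trans ?_ hr2)
  have := slack_ge (P := P) ε hh.eps 1 (by
    have : (0 : ℝ) ≤ P.E := Nat.cast_nonneg _
    linarith)
  linarith

/-! ### Tools for pairs -/

/-- the tool coded by `n, o, tp` -/
def mkYT (P : Par) (nn o tp : ℕ) : YT :=
  ⟨nn, fun l b => outv o (P.E * l + b), fun b => bt tp b⟩

theorem yOk_ok {s : Side} {k : Fin 3} (hk : s.k = k) {A : Fin 3 → ℕ → Bool} {T : ℕ → Bool}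
    (hcode : SideCode P k s.m s.neg A T) {nn o tp : ℕ} (h : yOk P s nn o tp = true) :
    1 ≤ nn ∧ nn ≤ P.E ∧ (mkYT P nn o tp).ok P.E k A T := by
  unfold yOk at h
  rw [Bool.and_eq_true, Bool.and_eq_true, blt_iff, ble_iff, allTo_iff, hk] at h
  obtain ⟨⟨h1, h2⟩, h3⟩ := h
  refine ⟨h1, h2, h1, h2, ?_, ?_⟩
  · intro l hl b hb hA
    have hb' := Finset.mem_range.1 hb
    have h4 := h3 (P.E * l + b) (blk_lt hb')
    rw [div_blk hb', mod_blk hb', beq_fin, decide_eq_false hl, cond_false, ← hcode.1 l hl b hb',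
      hA] at h4
    simp only [Bool.not_true, Bool.false_or, Bool.and_eq_true, ble_iff] at h4
    refine ⟨h4.1, fun h5 => ?_⟩
    have h5' : 1 ≤ outv o (P.E * l + b) := h5
    have h6 : Nat.beq (outv o (P.E * l + b)) 0 = false := by
      rw [← Bool.not_eq_true, Nat.beq_eq]
      omega
    rw [h6, Bool.false_or] at h4
    exact blockTest h4.2
  · intro b hb ht
    have hb' := Finset.mem_range.1 hb
    have h4 := h3 (P.E * k + b) (blk_lt hb')
    have ht' : bt tp b = true := ht
    rw [div_blk hb', mod_blk hb', beq_fin, decide_eq_true rfl, cond_true, ← hcode.2 b hb',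
      ht'] at h4
    simpa using h4

/-- first part of the cost -/
noncomputable def yc (P : Par) (p g : Cfg) (k : Fin 3) (A : Fin 3 → ℕ → Bool) (t : YT) : ℝ :=
  (∑ l ∈ Finset.univ.filter (fun l => l ≠ k), ∑ b ∈ Finset.range P.E,
      (if A l b then (2 - (t.out l b : ℝ)) * (p.S l b - g.S l b) + g.S l b else 0)) +
    (∑ b ∈ Finset.range P.E, (if t.tp b then p.S k b else 0))

/-- index left out -/
noncomputable def ya (P : Par) (p g : Cfg) (k : Fin 3) (A : Fin 3 → ℕ → Bool) (t : YT) : ℝ :=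
  ∑ l ∈ Finset.univ.filter (fun l => l ≠ k), ∑ b ∈ Finset.range P.E,
      (if A l b then (t.out l b : ℝ) * (p.I P.E l b - g.I P.E l b) else 0)

/-- index on the `T`-blocks -/
noncomputable def yt (P : Par) (p : Cfg) (k : Fin 3) (t : YT) : ℝ :=
  ∑ b ∈ Finset.range P.E, (if t.tp b then p.I P.E k b else 0)

theorem cost_eq (k : Fin 3) (A : Fin 3 → ℕ → Bool) (t : YT) : t.cost P.E k A p g =
    yc P p g k A t + max 0 (ya P p g k A t / (t.n : ℝ) - yt P p k t) := rfl

/-- invariant of a side -/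
structure SideData (P : Par) (n : ℕ) (v : ℕ → ℝ) (p g : Cfg) (s : Side) (k : Fin 3)
    (A : Fin 3 → ℕ → Bool) (T : ℕ → Bool) : Prop where
  hE : 2 ≤ P.E
  root : RootInv P v p
  hn0 : 1 + 3 * (P.E + 1) ≤ n
  hn : n ≤ P.K
  hk : s.k = k
  code : SideCode P k s.m s.neg A T
  slots : SlotInv P n v s.off g

theorem yC_rep {s : Side} {k : Fin 3} {A : Fin 3 → ℕ → Bool} {T : ℕ → Bool}
    (hs : SideData P n v p g s k A T) {nn o tp : ℕ} (h : (mkYT P nn o tp).ok P.E k A T) :
    Rep P n v (yC P s o tp) (yc P p g k A (mkYT P nn o tp)) := by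
  refine rep_blocks_k (P := P) (n := n) (v := v)
    (f := fun i => cond (Nat.beq (Nat.div i P.E) s.k)
    (cond (bt tp (Nat.mod i P.E)) (sF P true (Nat.div i P.E) (Nat.mod i P.E)) 0)
    (cond (sb P s.k s.m s.neg i)
      (Nat.add (Nat.mul (Nat.sub 2 (outv o i)) (Nat.add
        (sF P true (Nat.div i P.E) (Nat.mod i P.E))
        (gS P false s.off (Nat.div i P.E) (Nat.mod i P.E))))
        (gS P true s.off (Nat.div i P.E) (Nat.mod i P.E))) 0)) k ?_ ?_
  · intro l hl b hb
    simp only [div_blk hb, mod_blk hb, hs.hk, beq_fin, decide_eq_false hl,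
      ← hs.code.1 l hl b hb, cond_false]
    cases hA : A l b
    · simpa using Rep.zero
    · have ho : outv o (P.E * l + b) ≤ 2 := (h.2.2.1 l hl b (Finset.mem_range.2 hb) hA).1
      refine Rep.cast (X := Nat.sub 2 (outv o (P.E * l + b)) *
          (sF P true l b + gS P false s.off l b) + gS P true s.off l b)
        ((((sF_rep hs.hE hs.root hs.hn0 hs.hn true l b hb).add
        (gS_rep hs.slots hs.hn false l b hb)).mul (Nat.sub 2 (outv o (P.E * l + b)))).add
        (gS_rep hs.slots hs.hn true l b hb)) ?_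
      have h1 : ((Nat.sub 2 (outv o (P.E * l + b)) : ℕ) : ℝ) =
          2 - (outv o (P.E * l + b) : ℝ) := by
        show ((2 - outv o (P.E * l + b) : ℕ) : ℝ) = _
        rw [Nat.cast_sub ho]
        simp
      rw [h1]
      simp only [mkYT, sg_true, sg_false, if_true]
      ring
  · intro b hb
    simp only [div_blk hb, mod_blk hb, hs.hk, beq_fin, decide_true, cond_true]
    cases h : bt tp b
    · simpa [mkYT, h] using Rep.zero
    · refine Rep.cast (X := sF P true k b)
        (sF_rep hs.hE hs.root hs.hn0 hs.hn true k b hb) ?_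
      simp [mkYT, h]

theorem yAr_rep {s : Side} {k : Fin 3} {A : Fin 3 → ℕ → Bool} {T : ℕ → Bool}
    (hs : SideData P n v p g s k A T) {nn o tp : ℕ} :
    Rep P n v (yAr P s nn o tp) (ya P p g k A (mkYT P nn o tp) -
      nn * yt P p k (mkYT P nn o tp)) := by
  have h := rep_blocks_k (P := P) (n := n) (v := v)
    (f := fun i => cond (Nat.beq (Nat.div i P.E) s.k)
    (cond (bt tp (Nat.mod i P.E)) (Nat.mul nn (iF P false (Nat.div i P.E) (Nat.mod i P.E))) 0)
    (cond (sb P s.k s.m s.neg i)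
      (Nat.mul (outv o i) (Nat.add (iF P true (Nat.div i P.E) (Nat.mod i P.E))
        (gI P false s.off (Nat.div i P.E) (Nat.mod i P.E)))) 0)) k
    (r1 := fun l b => (if A l b then ((mkYT P nn o tp).out l b : ℝ) *
      (p.I P.E l b - g.I P.E l b) else 0))
    (r2 := fun b => -(nn : ℝ) * (if (mkYT P nn o tp).tp b then p.I P.E k b else 0)) ?_ ?_
  · refine h.cast ?_
    unfold ya yt
    simp only [← Finset.mul_sum]
    ring
  · intro l hl b hb
    simp only [div_blk hb, mod_blk hb, hs.hk, beq_fin, decide_eq_false hl,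
      ← hs.code.1 l hl b hb, cond_false]
    cases hA : A l b
    · simpa using Rep.zero
    · refine Rep.cast (X := outv o (P.E * l + b) * (iF P true l b + gI P false s.off l b))
        (((iF_rep hs.hE hs.root hs.hn0 hs.hn true l b hb).add
        (gI_rep hs.slots hs.hn false l b hb)).mul (outv o (P.E * l + b))) ?_
      simp only [mkYT, sg_true, sg_false, if_true]
      ring
  · intro b hb
    simp only [div_blk hb, mod_blk hb, hs.hk, beq_fin, decide_true, cond_true]
    cases h : bt tp b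
    · simpa [mkYT, h] using Rep.zero
    · refine Rep.cast (X := nn * iF P false k b)
        ((iF_rep hs.hE hs.root hs.hn0 hs.hn false k b hb).mul nn) ?_
      simp [mkYT, h]

/-- If a tool for pairs has cost `> thr - ε`, one of its two forms is `> - slack`. -/
theorem y_cases {s : Side} {k : Fin 3} {A : Fin 3 → ℕ → Bool} {T : ℕ → Bool}
    (hs : SideData P n v p g s k A T) {nn o tp : ℕ} (hnn : 1 ≤ nn) (hnE : nn ≤ P.E)
    (h : (mkYT P nn o tp).ok P.E k A T) {thr ε : ℝ} (hε : 0 < ε)
    (hthr : Rep P n v s.thr (-(P.td * thr)))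
    (hcost : thr - ε < (mkYT P nn o tp).cost P.E k A p g) :
    (∃ r, Rep P n v (yF1 P s o tp) r ∧ -(slackC P * ε) ≤ r) ∨
      ∃ r, Rep P n v (yF2 P s nn o tp (yF1 P s o tp)) r ∧ -(slackC P * ε) ≤ r := by
  have hnn' : (0 : ℝ) < nn := by exact_mod_cast hnn
  have hnE' : (nn : ℝ) ≤ P.E := by exact_mod_cast hnE
  have htd' : (0 : ℝ) ≤ P.td := Nat.cast_nonneg _
  have hEpos : (0 : ℝ) ≤ P.E := Nat.cast_nonneg _
  have h1 : Rep P n v (yF1 P s o tp) (P.td * yc P p g k A (mkYT P nn o tp) + -(P.td * thr)) :=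
    ((yC_rep hs h).mul P.td).add hthr
  have h2 := (h1.mul nn).add ((yAr_rep hs (nn := nn) (o := o) (tp := tp)).mul P.td)
  have hC1 : (P.td : ℝ) * ε ≤ slackC P * ε := by
    apply mul_le_mul_of_nonneg_right _ hε.le
    unfold slackC
    nlinarith
  have hC2 : (nn : ℝ) * P.td * ε ≤ slackC P * ε := by
    apply mul_le_mul_of_nonneg_right _ hε.le
    unfold slackC
    nlinarith [mul_le_mul_of_nonneg_right hnE' htd']
  rw [cost_eq] at hcost
  rcases le_total (ya P p g k A (mkYT P nn o tp) / ((mkYT P nn o tp).n : ℝ) -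
    yt P p k (mkYT P nn o tp)) 0 with h3 | h3
  · left
    refine ⟨_, h1, ?_⟩
    rw [max_eq_left h3] at hcost
    have h4 := mul_le_mul_of_nonneg_left hcost.le htd'
    linarith
  · right
    refine ⟨_, h2, ?_⟩
    rw [max_eq_right h3] at hcost
    have h5 : (mkYT P nn o tp).n = nn := rfl
    rw [h5] at hcost
    have h4 := mul_le_mul_of_nonneg_left hcost.le (mul_nonneg hnn'.le htd')
    have h6 : (nn : ℝ) * P.td * (yc P p g k A (mkYT P nn o tp) +
        (ya P p g k A (mkYT P nn o tp) / nn - yt P p k (mkYT P nn o tp))) =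
        nn * (P.td * yc P p g k A (mkYT P nn o tp)) +
        P.td * (ya P p g k A (mkYT P nn o tp) - nn * yt P p k (mkYT P nn o tp)) := by
      field_simp
    rw [h6] at h4
    linarith

end Pool.Agent.Lib.MP_4d5ce1_nt.BC
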