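import Pool.Agent.Lib.MP_4d5ce1_nt.BCheckCore

/-!
# A faster equivalent form of the checker `BCheckCore.check`: the program

`checkF = check` as functions (see `BFast`); the kernel evaluates `checkF` faster (no forced forms,
shorter leaf loop, lazy side constraints).
-/

set_option autoImplicit false

namespace Pool.Agent.Lib.MP_4d5ce1_nt.BC

def combH (wl wl8 : ℕ) (X : ℕ) (ih : ℕ → ℕ → ℕ → ℕ) (N acc : ℕ) : ℕ :=
  ih (Nat.mod (Nat.shiftRight N wl) 256) (Nat.shiftRight N wl8)
    (Nat.add acc (Nat.mul (Nat.mod N (Nat.pow 2 wl)) X))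

def combF (wl wl8 : ℕ) (ctx : List ℕ) : ℕ → ℕ → ℕ → ℕ :=
  List.rec (fun _ _ acc => acc)
    (fun X _ ih g N acc => Nat.rec (combH wl wl8 X ih N acc) (fun g' _ => ih g' N acc) g) ctx

def leafF (P : Par) (wl N : ℕ) (ctx : List ℕ) : Bool :=
  negOk P (combF wl (Nat.add wl 8) ctx (Nat.mod N 256) (Nat.shiftRight N 8) 0)

def sideStepF (P : Par) (k m : ℕ) (neg : Bool) (off i : ℕ) (l : List ℕ) (κ : List ℕ → Bool) :
    Bool :=
  Bool.rec (κ l)
    (Bool.rec
      (κ (Nat.add (sF P true (Nat.div i P.E) (Nat.mod i P.E))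
          (gS P false off (Nat.div i P.E) (Nat.mod i P.E)) ::
        gS P true off (Nat.div i P.E) (Nat.mod i P.E) :: l))
      (κ (Nat.add
          (Nat.add (iF P true (Nat.div i P.E) (Nat.mod i P.E))
            (gI P false off (Nat.div i P.E) (Nat.mod i P.E)))
          (Nat.mul P.E (Nat.add (sF P false (Nat.div i P.E) (Nat.mod i P.E))
            (gS P true off (Nat.div i P.E) (Nat.mod i P.E)))) ::
        Nat.add (gI P true off (Nat.div i P.E) (Nat.mod i P.E))
          (Nat.mul P.E (gS P false off (Nat.div i P.E) (Nat.mod i P.E))) ::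
        Nat.add (iF P true (Nat.div i P.E) (Nat.mod i P.E))
          (gI P false off (Nat.div i P.E) (Nat.mod i P.E)) ::
        gI P true off (Nat.div i P.E) (Nat.mod i P.E) ::
        Nat.add (sF P true (Nat.div i P.E) (Nat.mod i P.E))
          (gS P false off (Nat.div i P.E) (Nat.mod i P.E)) ::
        gS P true off (Nat.div i P.E) (Nat.mod i P.E) :: l))
      (Nat.beq (Nat.succ (Nat.mod i P.E)) P.E))
    (and (not (Nat.beq (Nat.div i P.E) k)) (sb P k m neg i))

def sideLoopF (P : Par) (k m : ℕ) (neg : Bool) (off : ℕ) (n : ℕ) :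
    List ℕ → (List ℕ → Bool) → Bool :=
  Nat.rec (fun l κ => κ l) (fun i ih l κ => sideStepF P k m neg off i l fun l' => ih l' κ) n

def sideAllF (P : Par) (k m : ℕ) (neg : Bool) (off : ℕ) (l : List ℕ) (κ : List ℕ → Bool) : Bool :=
  sideLoopF P k m neg off (Nat.mul 3 P.E) l fun l => κ (sideHyp P k m neg off :: l)

/-- The checker, evaluated lazily. -/
noncomputable def checkF (P : Par) (t : Tree) : List ℕ → List Side → ℕ → Bool :=
  Tree.rec (motive := fun _ => List ℕ → List Side → ℕ → Bool)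
    (fun wl N ctx _ _ => leafF P wl N ctx)
    (fun k n m _ _ ih1 ih2 ctx sd nv => and (basicOk P k n m)
      (and (ih1 (bF1 P k m :: ctx) sd nv) (ih2 (bF2 P k n m (bF1 P k m) :: ctx) sd nv)))
    (fun k m _ _ _ _ ihA ihB ihC ihD ctx sd nv =>
      and (and (Nat.blt k 3) (Nat.ble (Nat.add nv (Nat.succ (Nat.mul 6 (Nat.succ P.E)))) P.K))
      (and (ihA (Nat.add (Nat.mul P.td (kvF P true k m)) (Nat.mul P.tn (atm P false 0)) :: ctx)
        sd nv)
      ((fun ctx =>
      force (Nat.add nv (Nat.mul 3 (Nat.succ P.E))) fun nv1 =>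
      and (sideAllF P k m false nv ctx fun l =>
          ihB l (⟨k, m, false, nv, Nat.add (Nat.mul P.td (kvF P true k m))
            (Nat.mul (Nat.mul 2 P.tn) (atm P false 0))⟩ :: sd) nv1)
      (and (force (Nat.succ nv) fun o1 => force (Nat.add o1 (Nat.mul 3 (Nat.succ P.E))) fun o2 =>
        force (Nat.add o2 (Nat.mul 3 (Nat.succ P.E))) fun o3 =>
        sideAllF P k m true o1 (Nat.add (kvF P false k m) (atm P true nv) ::
          Nat.add (Nat.mul P.tn (atm P true 0)) (Nat.mul P.td (atm P false nv)) ::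
          atm P true nv :: ctx) fun l =>
        sideAllF P k m false o2 l fun l =>
          ihC l (⟨k, m, false, o2, Nat.add (Nat.mul (Nat.mul 2 P.tn) (atm P false 0))
              (Nat.mul P.td (atm P true nv))⟩ ::
            ⟨k, m, true, o1, Nat.mul P.td (atm P false nv)⟩ :: sd) o3)
      (sideAllF P k m true nv ctx fun l =>
          ihD l (⟨k, m, true, nv, Nat.mul P.tn (atm P false 0)⟩ :: sd) nv1)))
        (Nat.add (Nat.mul P.td (kvF P false k m)) (Nat.mul P.tn (atm P true 0)) :: ctx))))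
    (fun s n o tp _ _ ih1 ih2 ctx sd nv => nthSide sd s fun side => and (yOk P side n o tp)
      (and (ih1 (yF1 P side o tp :: ctx) sd nv)
        (ih2 (yF2 P side n o tp (yF1 P side o tp) :: ctx) sd nv)))
    t

end Pool.Agent.Lib.MP_4d5ce1_nt.BC
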