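import Pool.Agent.Lib.MP_4d5ce1_nt.BCheckTools
import Pool.Agent.Lib.MP_4d5ce1_nt.BFastCore
import Pool.Agent.Lib.MP_4d5ce1_nt.Cert56Tree
import Pool.Agent.Lib.MP_4d5ce1_nt.BDefs

section

set_option autoImplicit false

/-!
# The checker: soundness
-/

namespace Pool.Agent.Lib.MP_4d5ce1_nt.BC

open Finset

variable {P : Par} {n : ℕ} {v : ℕ → ℝ} {p g : Cfg}

/-! ### The equations of the checker -/

theorem check_leaf (wl N : ℕ) (ctx : List ℕ) (sd : List Side) (nv : ℕ) :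
    check P (.leaf wl N) ctx sd nv = leafOk P wl N ctx := rfl

theorem check_basic (k nn m : ℕ) (t1 t2 : Tree) (ctx : List ℕ) (sd : List Side) (nv : ℕ) :
    check P (.basic k nn m t1 t2) ctx sd nv = (basicOk P k nn m &&
      (check P t1 (bF1 P k m :: ctx) sd nv &&
        check P t2 (bF2 P k nn m (bF1 P k m) :: ctx) sd nv)) := by
  have h : check P (.basic k nn m t1 t2) ctx sd nv = (basicOk P k nn m &&
      force (bF1 P k m) fun f1 => (check P t1 (f1 :: ctx) sd nv &&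
        force (bF2 P k nn m f1) fun f2 => check P t2 (f2 :: ctx) sd nv)) := rfl
  rw [h, force_eq, force_eq]

theorem check_ytool (s nn o tp : ℕ) (t1 t2 : Tree) (ctx : List ℕ) (sd : List Side) (nv : ℕ) :
    check P (.ytool s nn o tp t1 t2) ctx sd nv = nthSide sd s (fun side => yOk P side nn o tp &&
      (check P t1 (yF1 P side o tp :: ctx) sd nv &&
        check P t2 (yF2 P side nn o tp (yF1 P side o tp) :: ctx) sd nv)) := by
  have h : check P (.ytool s nn o tp t1 t2) ctx sd nv =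
      nthSide sd s (fun side => yOk P side nn o tp &&
      force (yF1 P side o tp) fun f1 => (check P t1 (f1 :: ctx) sd nv &&
        force (yF2 P side nn o tp f1) fun f2 => check P t2 (f2 :: ctx) sd nv)) := rfl
  rw [h]
  congr 1
  funext side
  rw [force_eq, force_eq]

/-- the context after `kV ≤ θ` -/
def ctxB (P : Par) (k m : ℕ) (ctx : List ℕ) : List ℕ :=
  (P.td * kvF P false k m + P.tn * atm P true 0) :: ctx

theorem check_bil (k m : ℕ) (tA tB tC tD : Tree) (ctx : List ℕ) (sd : List Side) (nv : ℕ) :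
    check P (.bil k m tA tB tC tD) ctx sd nv =
      ((Nat.blt k 3 && Nat.ble (nv + (6 * (P.E + 1) + 1)) P.K) &&
      (check P tA ((P.td * kvF P true k m + P.tn * atm P false 0) :: ctx) sd nv &&
      (sideAll P k m false nv (ctxB P k m ctx) (fun l =>
          check P tB l (⟨k, m, false, nv,
            P.td * kvF P true k m + 2 * P.tn * atm P false 0⟩ :: sd) (nv + 3 * (P.E + 1))) &&
      (sideAll P k m true (nv + 1)
          ((kvF P false k m + atm P true nv) ::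
            (P.tn * atm P true 0 + P.td * atm P false nv) :: atm P true nv :: ctxB P k m ctx)
          (fun l => sideAll P k m false (nv + 1 + 3 * (P.E + 1)) l (fun l =>
            check P tC l
              (⟨k, m, false, nv + 1 + 3 * (P.E + 1),
                2 * P.tn * atm P false 0 + P.td * atm P true nv⟩ ::
                ⟨k, m, true, nv + 1, P.td * atm P false nv⟩ :: sd)
              (nv + 1 + 3 * (P.E + 1) + 3 * (P.E + 1)))) &&
      sideAll P k m true nv (ctxB P k m ctx) (fun l =>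
          check P tD l (⟨k, m, true, nv, P.tn * atm P false 0⟩ :: sd)
            (nv + 3 * (P.E + 1))))))) := by
  have h : check P (.bil k m tA tB tC tD) ctx sd nv =
      (and (and (Nat.blt k 3) (Nat.ble (Nat.add nv (Nat.succ (Nat.mul 6 (Nat.succ P.E)))) P.K))
      (force (kvF P true k m) fun kp => force (kvF P false k m) fun kn =>
      and (push (Nat.add (Nat.mul P.td kp) (Nat.mul P.tn (atm P false 0))) ctx fun l =>
        check P tA l sd nv)
      (push (Nat.add (Nat.mul P.td kn) (Nat.mul P.tn (atm P true 0))) ctx fun ctx =>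
      force (Nat.add nv (Nat.mul 3 (Nat.succ P.E))) fun nv1 =>
      and (sideAll P k m false nv ctx fun l =>
        force (Nat.add (Nat.mul P.td kp) (Nat.mul (Nat.mul 2 P.tn) (atm P false 0))) fun th =>
          check P tB l (⟨k, m, false, nv, th⟩ :: sd) nv1)
      (and (force (Nat.succ nv) fun o1 => force (Nat.add o1 (Nat.mul 3 (Nat.succ P.E))) fun o2 =>
        force (Nat.add o2 (Nat.mul 3 (Nat.succ P.E))) fun o3 =>
        push (atm P true nv) ctx fun l =>
        push (Nat.add (Nat.mul P.tn (atm P true 0)) (Nat.mul P.td (atm P false nv))) l fun l =>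
        push (Nat.add kn (atm P true nv)) l fun l =>
        sideAll P k m true o1 l fun l => sideAll P k m false o2 l fun l =>
        force (Nat.mul P.td (atm P false nv)) fun th1 =>
        force (Nat.add (Nat.mul (Nat.mul 2 P.tn) (atm P false 0)) (Nat.mul P.td (atm P true nv)))
          fun th2 =>
          check P tC l (⟨k, m, false, o2, th2⟩ :: ⟨k, m, true, o1, th1⟩ :: sd) o3)
      (sideAll P k m true nv ctx fun l =>
        force (Nat.mul P.tn (atm P false 0)) fun th =>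
          check P tD l (⟨k, m, true, nv, th⟩ :: sd) nv1))))) := rfl
  rw [h]
  simp only [force_eq, push_eq]
  rfl

theorem nthSide_sound (sd : List Side) : ∀ (s : ℕ) (κ : Side → Bool), nthSide sd s κ = true →
    ∃ side ∈ sd, κ side = true := by
  induction sd with
  | nil => intro s κ h; exact absurd h (by simp [nthSide])
  | cons X sd ih =>
    intro s κ h
    cases s with
    | zero => exact ⟨X, List.mem_cons_self .., h⟩
    | succ s =>
      obtain ⟨side, h1, h2⟩ := ih s κ h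
      exact ⟨side, List.mem_cons_of_mem _ h1, h2⟩

/-! ### Extending the assignment -/

/-- `v` below `off`, the coordinates of `g` from `off` on -/
noncomputable def extV (P : Par) (v : ℕ → ℝ) (off : ℕ) (g : Cfg) (j : ℕ) : ℝ :=
  if j < off then v j else
    if (j - off) % (P.E + 1) = P.E then g.J (Fin.ofNat 3 ((j - off) / (P.E + 1)))
    else g.S (Fin.ofNat 3 ((j - off) / (P.E + 1))) ((j - off) % (P.E + 1))

theorem extV_lt {off j : ℕ} (h : j < off) : extV P v off g j = v j := by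
  simp [extV, h]

theorem ofNat_coe (l : Fin 3) : Fin.ofNat 3 (l : ℕ) = l := by
  fin_cases l <;> rfl

theorem extV_S {off : ℕ} (l : Fin 3) {b : ℕ} (hb : b < P.E) :
    extV P v off g (slot P off l b) = g.S l b := by
  have h1 : ¬ slot P off l b < off := by
    rw [slot_eq]
    omega
  have h2 : slot P off l b - off = (P.E + 1) * l + b := by
    rw [slot_eq]
    omega
  have hb' : b < P.E + 1 := by omega
  rw [extV, if_neg h1, h2, Nat.mul_add_mod, Nat.mod_eq_of_lt hb', if_neg hb.ne,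
    Nat.mul_add_div (by omega), Nat.div_eq_of_lt hb', add_zero, ofNat_coe]

theorem extV_J {off : ℕ} (l : Fin 3) : extV P v off g (slot P off l P.E) = g.J l := by
  have h1 : ¬ slot P off l P.E < off := by
    rw [slot_eq]
    omega
  have h2 : slot P off l P.E - off = (P.E + 1) * l + P.E := by
    rw [slot_eq]
    omega
  have hb' : P.E < P.E + 1 := by omega
  rw [extV, if_neg h1, h2, Nat.mul_add_mod, Nat.mod_eq_of_lt hb', if_pos rfl,
    Nat.mul_add_div (by omega), Nat.div_eq_of_lt hb', add_zero, ofNat_coe]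

theorem slotInv_ext {off : ℕ} (h : off + 3 * (P.E + 1) ≤ n) :
    SlotInv P n (extV P v off g) off g :=
  ⟨h, fun l => extV_J l, fun l _ hb => extV_S l hb⟩

theorem RootInv.congr {v' : ℕ → ℝ} (hR : RootInv P v p) (hn0 : 1 + 3 * (P.E + 1) ≤ n)
    (h : ∀ j < n, v' j = v j) : RootInv P v' p := by
  refine ⟨?_, fun l => ?_, fun l b hb => ?_, hR.sum⟩
  · rw [h 0 (by omega), hR.v0]
  · rw [h _ ((slot_lt P 1 l _ le_rfl).trans_le hn0), hR.J]
  · rw [h _ ((slot_lt P 1 l _ hb.le).trans_le hn0), hR.S l b hb]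

theorem SlotInv.congr {v' : ℕ → ℝ} {off n' : ℕ} (hS : SlotInv P n v off g)
    (h : ∀ j < n, v' j = v j) (hn : n ≤ n') : SlotInv P n' v' off g := by
  refine ⟨hS.le.trans hn, fun l => ?_, fun l b hb => ?_⟩
  · rw [h _ ((slot_lt P off l _ le_rfl).trans_le hS.le), hS.J]
  · rw [h _ ((slot_lt P off l _ hb.le).trans_le hS.le), hS.S l b hb]

theorem CtxOk.congr {v' : ℕ → ℝ} {δ : ℝ} {n' : ℕ} {l : List ℕ} (hc : CtxOk P n v δ l)
    (h : ∀ j < n, v' j = v j) (hn : n ≤ n') : CtxOk P n' v' δ l := by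
  intro X hX
  obtain ⟨r, h1, h2⟩ := hc X hX
  exact ⟨r, (h1.congr h).mono hn, h2⟩

/-- invariant of the active sides -/
def SideInv (P : Par) (ε : ℝ) (n : ℕ) (v : ℕ → ℝ) (p : Cfg) (s : Side) : Prop :=
  ∃ (k : Fin 3) (g : Cfg) (A : Fin 3 → ℕ → Bool) (T : ℕ → Bool) (thr : ℝ),
    SideData P n v p g s k A T ∧ Rep P n v s.thr (-(P.td * thr)) ∧
      ∀ t : YT, t.ok P.E k A T → thr - ε < t.cost P.E k A p g

theorem SideInv.congr {v' : ℕ → ℝ} {ε : ℝ} {n' : ℕ} {s : Side} (hs : SideInv P ε n v p s)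
    (h : ∀ j < n, v' j = v j) (hn : n ≤ n') (hK : n' ≤ P.K) : SideInv P ε n' v' p s := by
  obtain ⟨k, g, A, T, thr, h1, h2, h3⟩ := hs
  exact ⟨k, g, A, T, thr, ⟨h1.hE, h1.root.congr h1.hn0 h, h1.hn0.trans hn, hK, h1.hk, h1.code,
    h1.slots.congr h hn⟩, (h2.congr h).mono hn, h3⟩

/-! ### Soundness -/

/-- the conclusion -/
def Good (P : Par) (ε : ℝ) (p : Cfg) : Prop :=
  (∃ t : BT, t.ok P.E ∧ t.cost P.E p ≤ (P.tn : ℝ) / P.td) ∨
    GoodBil P.E ε p ((P.tn : ℝ) / P.td)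

/-- hypotheses at a node -/
structure NodeHyp (P : Par) (ε : ℝ) (nv : ℕ) (v : ℕ → ℝ) (p : Cfg) (ctx : List ℕ)
    (sd : List Side) : Prop where
  adm : Adm P.E ε p
  root : RootInv P v p
  hn0 : 1 + 3 * (P.E + 1) ≤ nv
  hn : nv ≤ P.K
  ctx : CtxOk P nv v (slackC P * ε) ctx
  sides : ∀ s ∈ sd, SideInv P ε nv v p s

/-- the statement at a node -/
def NodeOk (P : Par) (t : Tree) : Prop :=
  ∀ (ctx : List ℕ) (sd : List Side) (nv : ℕ), check P t ctx sd nv = true →
    ∃ ε₀ : ℝ, 0 < ε₀ ∧ ∀ ε : ℝ, 0 < ε → ε ≤ ε₀ → ∀ (v : ℕ → ℝ) (p : Cfg),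
      NodeHyp P ε nv v p ctx sd → Good P ε p

theorem leaf_ok (wl N : ℕ) : NodeOk P (.leaf wl N) := by
  intro ctx sd nv h
  obtain ⟨δ₀, h1, h2⟩ := leaf_sound P wl N ctx h
  have hC : 0 < slackC P := by
    unfold slackC
    positivity
  refine ⟨δ₀ / slackC P, div_pos h1 hC, fun ε h3 h4 v p hh => ?_⟩
  exfalso
  refine h2 nv v (slackC P * ε) (by positivity) ?_ hh.root.v0 hh.ctx
  rw [le_div_iff₀ hC] at h4
  linarith

theorem slackC_pos (P : Par) : 0 < slackC P := by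
  unfold slackC
  positivity

theorem basic_ok (hE : 2 ≤ P.E) (htd : 1 ≤ P.td) (k nn m : ℕ) {t1 t2 : Tree}
    (ih1 : NodeOk P t1) (ih2 : NodeOk P t2) : NodeOk P (.basic k nn m t1 t2) := by
  intro ctx sd nv h
  rw [check_basic, Bool.and_eq_true, Bool.and_eq_true] at h
  obtain ⟨h0, h1, h2⟩ := h
  obtain ⟨hk, hnn, -, hok⟩ := basicOk_ok h0
  obtain ⟨e1, he1, h1⟩ := ih1 _ _ _ h1
  obtain ⟨e2, he2, h2⟩ := ih2 _ _ _ h2
  refine ⟨min e1 e2, lt_min he1 he2, fun ε hε hle v p hh => ?_⟩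
  by_cases hcost : (mkBT P ⟨k, hk⟩ nn m).cost P.E p ≤ (P.tn : ℝ) / P.td
  · exact Or.inl ⟨_, hok, hcost⟩
  · push Not at hcost
    have hsl : -(slackC P * ε) ≤ 0 := by
      have := mul_pos (slackC_pos P) hε
      linarith
    rcases basic_cases htd ⟨k, hk⟩ hnn m hcost with h3 | h3
    · refine h1 ε hε (hle.trans (min_le_left _ _)) v p
        ⟨hh.adm, hh.root, hh.hn0, hh.hn, ctxOk_cons hh.ctx
          (bF1_rep hE hh.root hh.hn0 hh.hn ⟨k, hk⟩ m) (hsl.trans h3.le), hh.sides⟩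
    · refine h2 ε hε (hle.trans (min_le_right _ _)) v p
        ⟨hh.adm, hh.root, hh.hn0, hh.hn, ctxOk_cons hh.ctx
          (bF2_rep hE hh.root hh.hn0 hh.hn ⟨k, hk⟩ nn m) (hsl.trans h3.le), hh.sides⟩

theorem ytool_ok (s nn o tp : ℕ) {t1 t2 : Tree}
    (ih1 : NodeOk P t1) (ih2 : NodeOk P t2) : NodeOk P (.ytool s nn o tp t1 t2) := by
  intro ctx sd nv h
  rw [check_ytool] at h
  obtain ⟨side, hmem, h⟩ := nthSide_sound sd s _ h
  rw [Bool.and_eq_true, Bool.and_eq_true] at h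
  obtain ⟨h0, h1, h2⟩ := h
  obtain ⟨e1, he1, h1⟩ := ih1 _ _ _ h1
  obtain ⟨e2, he2, h2⟩ := ih2 _ _ _ h2
  refine ⟨min e1 e2, lt_min he1 he2, fun ε hε hle v p hh => ?_⟩
  obtain ⟨k, g, A, T, thr, hd, hr, hc⟩ := hh.sides side hmem
  obtain ⟨hnn, hnE, hok⟩ := yOk_ok hd.hk hd.code h0
  rcases y_cases hd hnn hnE hok hε hr (hc _ hok) with ⟨r, h3, h4⟩ | ⟨r, h3, h4⟩
  · exact h1 ε hε (hle.trans (min_le_left _ _)) v p
      ⟨hh.adm, hh.root, hh.hn0, hh.hn, ctxOk_cons hh.ctx h3 h4, hh.sides⟩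
  · exact h2 ε hε (hle.trans (min_le_right _ _)) v p
      ⟨hh.adm, hh.root, hh.hn0, hh.hn, ctxOk_cons hh.ctx h3 h4, hh.sides⟩

theorem grid (Q : ℝ → Prop) {a b ε : ℝ} (hab : a ≤ b) (ha : ¬ Q a) (hb : Q b) (hε : 0 < ε) :
    ∃ x y : ℝ, a ≤ x ∧ x ≤ y ∧ y ≤ b ∧ y ≤ x + ε ∧ ¬ Q x ∧ Q y := by
  obtain ⟨N, hN⟩ := exists_nat_gt ((b - a) / ε)
  rw [div_lt_iff₀ hε] at hN
  have hN1 : (0 : ℝ) < N + 1 := by positivity
  by_contra hcon
  push Not at hcon
  have key : ∀ i : ℕ, i ≤ N + 1 → ¬ Q (a + i * ((b - a) / (N + 1))) := by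
    intro i
    induction i with
    | zero => intro _; simpa using ha
    | succ i ih =>
      intro hi hQ
      have hstep : 0 ≤ (b - a) / (N + 1) := div_nonneg (by linarith) hN1.le
      have hi' : ((i : ℝ) + 1) ≤ N + 1 := by exact_mod_cast hi
      refine hcon (a + i * ((b - a) / (N + 1))) (a + (i + 1 : ℕ) * ((b - a) / (N + 1)))
        ?_ ?_ ?_ ?_ (ih (by omega)) hQ
      · have : 0 ≤ (i : ℝ) * ((b - a) / (N + 1)) := mul_nonneg (Nat.cast_nonneg _) hstep
        linarith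
      · push_cast
        linarith
      · push_cast
        have h1 : ((i : ℝ) + 1) * ((b - a) / (N + 1)) ≤ (N + 1) * ((b - a) / (N + 1)) :=
          mul_le_mul_of_nonneg_right hi' hstep
        rw [mul_div_cancel₀ _ hN1.ne'] at h1
        linarith
      · push_cast
        have h1 : (b - a) / (N + 1) ≤ ε := by
          rw [div_le_iff₀ hN1]
          linarith
        linarith
  refine key (N + 1) le_rfl ?_
  have : a + ((N + 1 : ℕ) : ℝ) * ((b - a) / (N + 1)) = b := by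
    push_cast
    rw [mul_div_cancel₀ _ hN1.ne']
    ring
  rwa [this]

theorem kv_ge {ε : ℝ} (hε : 0 < ε) (h : Adm P.E ε p) (k : Fin 3) (m : ℕ) :
    -(3 * P.E * ε) ≤ kv P p k m := by
  have h1 : ∀ l : Fin 3, -(P.E * ε) ≤
      ∑ b ∈ range P.E, (if bt m (P.E * l + b) = true then 0 else p.S l b) := by
    intro l
    have : ∑ b ∈ range P.E, (-ε) ≤
        ∑ b ∈ range P.E, (if bt m (P.E * l + b) = true then 0 else p.S l b) := by
      refine Finset.sum_le_sum fun b hb => ?_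
      split_ifs
      · linarith
      · exact h.1 l b hb
    rw [Finset.sum_const, Finset.card_range, nsmul_eq_mul] at this
    linarith
  have h2 : -(P.E * ε) ≤
      ∑ b ∈ range P.E, (if bt m (P.E * k + b) = true then p.S k b else 0) := by
    have : ∑ b ∈ range P.E, (-ε) ≤
        ∑ b ∈ range P.E, (if bt m (P.E * k + b) = true then p.S k b else 0) := by
      refine Finset.sum_le_sum fun b hb => ?_
      split_ifs
      · exact h.1 k b hb
      · linarith
    rw [Finset.sum_const, Finset.card_range, nsmul_eq_mul] at this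
    linarith
  have h3 : -(2 * (P.E * ε)) ≤ ∑ l ∈ univ.filter (fun l => l ≠ k), ∑ b ∈ range P.E,
      (if bt m (P.E * l + b) = true then 0 else p.S l b) := by
    have h4 := Finset.sum_le_sum (s := univ.filter (fun l => l ≠ k)) fun l _ => h1 l
    have h5 : (univ.filter (fun l : Fin 3 => l ≠ k)).card = 2 := by
      fin_cases k <;> rfl
    rw [Finset.sum_const, h5, nsmul_eq_mul] at h4
    push_cast at h4
    linarith
  unfold kv
  linarith

theorem bil_ok (hE : 2 ≤ P.E) (htd : 1 ≤ P.td) (k m : ℕ) {tA tB tC tD : Tree}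
    (ihA : NodeOk P tA) (ihB : NodeOk P tB) (ihC : NodeOk P tC) (ihD : NodeOk P tD) :
    NodeOk P (.bil k m tA tB tC tD) := by
  intro ctx sd nv h
  rw [check_bil, Bool.and_eq_true, Bool.and_eq_true, Bool.and_eq_true, Bool.and_eq_true,
    Bool.and_eq_true, blt_iff, ble_iff] at h
  obtain ⟨⟨hk, hK⟩, hA, hB, hC, hD⟩ := h
  obtain ⟨lB, hB1, hB2⟩ := sideAll_sound (k := ⟨k, hk⟩) hB
  obtain ⟨lC, hC1, hC2⟩ := sideAll_sound (k := ⟨k, hk⟩) hC
  obtain ⟨lC', hC3, hC4⟩ := sideAll_sound (k := ⟨k, hk⟩) hC1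
  obtain ⟨lD, hD1, hD2⟩ := sideAll_sound (k := ⟨k, hk⟩) hD
  obtain ⟨eA, heA, hA⟩ := ihA _ _ _ hA
  obtain ⟨eB, heB, hB⟩ := ihB _ _ _ hB1
  obtain ⟨eC, heC, hC⟩ := ihC _ _ _ hC3
  obtain ⟨eD, heD, hD⟩ := ihD _ _ _ hD1
  refine ⟨min (min eA eB) (min eC eD), lt_min (lt_min heA heB) (lt_min heC heD),
    fun ε hε hle v p hh => ?_⟩
  have hleA : ε ≤ eA := hle.trans ((min_le_left _ _).trans (min_le_left _ _))
  have hleB : ε ≤ eB := hle.trans ((min_le_left _ _).trans (min_le_right _ _))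
  have hleC : ε ≤ eC := hle.trans ((min_le_right _ _).trans (min_le_left _ _))
  have hleD : ε ≤ eD := hle.trans ((min_le_right _ _).trans (min_le_right _ _))
  set θ : ℝ := (P.tn : ℝ) / P.td with hθ
  have htd' : (0 : ℝ) < P.td := by exact_mod_cast htd
  have hθtd : P.td * θ = P.tn := by
    rw [hθ]
    field_simp
  by_cases hgb : GoodBil P.E ε p θ
  · exact Or.inr hgb
  set K' : Fin 3 := ⟨k, hk⟩ with hK'
  let U : Fin 3 → ℕ → Bool := fun l b => bt m (P.E * l + b)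
  let T : ℕ → Bool := fun b => bt m (P.E * K' + b)
  set kV : ℝ := kv P p K' m with hkV
  have hsl0 : -(slackC P * ε) ≤ 0 := by
    have := mul_pos (slackC_pos P) hε
    linarith
  have hcodeU : SideCode P K' m false U T := by
    refine ⟨fun l hl b hb => ?_, fun b hb => ?_⟩
    · rw [sb_ne hl hb]
      simp [U]
    · rw [sb_k hb]
  have hcodeV : SideCode P K' m true (fun l b => !(U l b)) T := by
    refine ⟨fun l hl b hb => ?_, fun b hb => ?_⟩
    · rw [sb_ne hl hb]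
      simp [U]
    · rw [sb_k hb]
  have hno : ∀ m0 : ℝ, m0 ≤ θ → kV ≤ m0 → GoodSide P.E ε p K' (fun l b => !(U l b)) T m0 →
      ¬ GoodSide P.E ε p K' U T (2 * θ - m0) := by
    intro m0 h1 h2 h3 h4
    exact hgb ⟨K', U, T, m0, h1, h2, h3, h4⟩
  rcases lt_or_ge θ kV with hcase | hcase
  · -- child A
    refine hA ε hε hleA v p ⟨hh.adm, hh.root, hh.hn0, hh.hn, ctxOk_cons hh.ctx
      (((kvF_rep hE hh.root hh.hn0 hh.hn true K' m).mul P.td).add
        ((Rep.atm (P := P) (n := nv) (v := v) (j := 0) false (by have := hh.hn0; omega)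
          hh.hn).mul P.tn)) ?_, hh.sides⟩
    rw [hh.root.v0, sg_true, sg_false]
    have h1 : (P.tn : ℝ) < P.td * kV := by
      rw [← hθtd]
      exact mul_lt_mul_of_pos_left hcase htd'
    rw [hkV] at h1
    linarith
  · have hctxB : CtxOk P nv v (slackC P * ε) (ctxB P k m ctx) := by
      refine ctxOk_cons hh.ctx
        (((kvF_rep hE hh.root hh.hn0 hh.hn false K' m).mul P.td).add
        ((Rep.atm (P := P) (n := nv) (v := v) (j := 0) true (by have := hh.hn0; omega)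
          hh.hn).mul P.tn)) ?_
      rw [hh.root.v0, sg_true, sg_false]
      have h1 : P.td * kV ≤ (P.tn : ℝ) := by
        rw [← hθtd]
        exact mul_le_mul_of_nonneg_left hcase htd'.le
      rw [hkV] at h1
      linarith
    by_cases hVθ : GoodSide P.E ε p K' (fun l b => !(U l b)) T θ
    · by_cases hUk : GoodSide P.E ε p K' U T (2 * θ - kV)
      · -- child C
        have hVk : ¬ GoodSide P.E ε p K' (fun l b => !(U l b)) T kV := fun h1 =>
          hno kV hcase le_rfl h1 hUk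
        obtain ⟨m1, m2, hm1, hm12, hm2, hmε, hQ1, hQ2⟩ := grid
          (fun x => GoodSide P.E ε p K' (fun l b => !(U l b)) T x) hcase hVk hVθ hε
        have hU2 : ¬ GoodSide P.E ε p K' U T (2 * θ - m2) :=
          hno m2 hm2 (hm1.trans hm12) hQ2
        unfold GoodSide at hQ1 hU2
        push Not at hQ1 hU2
        obtain ⟨gV, hgV1, hgV2⟩ := hQ1
        obtain ⟨gU, hgU1, hgU2⟩ := hU2
        let v1 : ℕ → ℝ := fun j => if j = nv then m1 else v j
        let v3 : ℕ → ℝ := extV P (extV P v1 (nv + 1) gV) (nv + 1 + 3 * (P.E + 1)) gU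
        have hagree : ∀ j < nv, v3 j = v j := by
          intro j hj
          show extV P (extV P v1 (nv + 1) gV) (nv + 1 + 3 * (P.E + 1)) gU j = v j
          rw [extV_lt (by omega), extV_lt (by omega)]
          show (if j = nv then m1 else v j) = v j
          rw [if_neg hj.ne]
        have hvm : v3 nv = m1 := by
          show extV P (extV P v1 (nv + 1) gV) (nv + 1 + 3 * (P.E + 1)) gU nv = m1
          rw [extV_lt (by omega), extV_lt (by omega)]
          show (if nv = nv then m1 else v nv) = m1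
          rw [if_pos rfl]
        set n3 : ℕ := nv + 1 + 3 * (P.E + 1) + 3 * (P.E + 1) with hn3
        have hn3K : n3 ≤ P.K := by omega
        have hn03 : 1 + 3 * (P.E + 1) ≤ n3 := by have := hh.hn0; omega
        have hroot : RootInv P v3 p := hh.root.congr hh.hn0 hagree
        have hslotV : SlotInv P n3 v3 (nv + 1) gV := by
          refine (slotInv_ext (P := P) (v := v1) (g := gV) (off := nv + 1) le_rfl).congr
            (fun j hj => ?_) (by omega)
          exact extV_lt hj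
        have hslotU : SlotInv P n3 v3 (nv + 1 + 3 * (P.E + 1)) gU := slotInv_ext le_rfl
        have hSV : SideHyp P n3 v3 p gV ε K' m true (nv + 1) :=
          ⟨hE, hroot, hn03, hn3K, hε, hslotV, _, T, hcodeV, hgV1⟩
        have hSU : SideHyp P n3 v3 p gU ε K' m false (nv + 1 + 3 * (P.E + 1)) :=
          ⟨hE, hroot, hn03, hn3K, hε, hslotU, U, T, hcodeU, hgU1⟩
        have hbase : CtxOk P n3 v3 (slackC P * ε) (ctxB P k m ctx) :=
          hctxB.congr hagree (by omega)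
        have hat : ∀ s, Rep P n3 v3 (atm P s nv) (sg s * m1) := by
          intro s
          have := Rep.atm (P := P) (n := n3) (v := v3) (j := nv) s (by omega) hn3K
          rwa [hvm] at this
        have hat0 : ∀ s, Rep P n3 v3 (atm P s 0) (sg s * 1) := by
          intro s
          have := Rep.atm (P := P) (n := n3) (v := v3) (j := 0) s (by omega) hn3K
          rwa [hroot.v0] at this
        have hkvge := kv_ge hε hh.adm K' m
        have hsl3 : -(slackC P * ε) ≤ -(3 * P.E * ε) :=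
          slack_ge (P := P) ε hε (3 * P.E) (by linarith)
        have hctx3 : CtxOk P n3 v3 (slackC P * ε)
            ((kvF P false k m + atm P true nv) ::
            (P.tn * atm P true 0 + P.td * atm P false nv) :: atm P true nv ::
              ctxB P k m ctx) := by
          refine ctxOk_cons (ctxOk_cons (ctxOk_cons hbase (hat true) ?_)
            (((hat0 true).mul P.tn).add ((hat false).mul P.td)) ?_)
            ((kvF_rep hE hroot hn03 hn3K false K' m).add (hat true)) ?_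
          · rw [sg_true]
            linarith
          · rw [sg_true, sg_false]
            have h1 : P.td * m1 ≤ (P.tn : ℝ) := by
              rw [← hθtd]
              exact mul_le_mul_of_nonneg_left (hm12.trans hm2) htd'.le
            linarith
          · rw [sg_true, sg_false]
            linarith
        have hctx4 := hC4 n3 v3 p gU ε hSU (hC2 n3 v3 p gV ε hSV hctx3)
        refine hC ε hε hleC v3 p ⟨hh.adm, hroot, hn03, hn3K, hctx4, ?_⟩
        intro s hs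
        rcases List.mem_cons.1 hs with rfl | hs
        · refine ⟨K', gU, U, T, 2 * θ - m1, ⟨hE, hroot, hn03, hn3K, rfl, hcodeU, hslotU⟩,
            ?_, fun t ht => ?_⟩
          · refine (((hat0 false).mul (2 * P.tn)).add ((hat true).mul P.td)).cast ?_
            rw [sg_true, sg_false]
            push_cast
            linear_combination 2 * hθtd
          · have := hgU2 t ht
            linarith
        · rcases List.mem_cons.1 hs with rfl | hs
          · refine ⟨K', gV, _, T, m1, ⟨hE, hroot, hn03, hn3K, rfl, hcodeV, hslotV⟩,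
              ?_, fun t ht => ?_⟩
            · refine ((hat false).mul P.td).cast ?_
              rw [sg_false]
              ring
            · have := hgV2 t ht
              linarith
          · exact (hh.sides s hs).congr hagree (by omega) hn3K
      · -- child B
        unfold GoodSide at hUk
        push Not at hUk
        obtain ⟨gU, hg1, hg2⟩ := hUk
        have hagree : ∀ j < nv, extV P v nv gU j = v j := fun j hj => extV_lt hj
        have hn' : nv + 3 * (P.E + 1) ≤ P.K := by omega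
        have hn0' : 1 + 3 * (P.E + 1) ≤ nv + 3 * (P.E + 1) := by have := hh.hn0; omega
        have hroot : RootInv P (extV P v nv gU) p := hh.root.congr hh.hn0 hagree
        have hslot : SlotInv P (nv + 3 * (P.E + 1)) (extV P v nv gU) nv gU :=
          slotInv_ext le_rfl
        have hS : SideHyp P (nv + 3 * (P.E + 1)) (extV P v nv gU) p gU ε K' m false nv :=
          ⟨hE, hroot, hn0', hn', hε, hslot, U, T, hcodeU, hg1⟩
        refine hB ε hε hleB (extV P v nv gU) p ⟨hh.adm, hroot, hn0', hn',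
          hB2 _ _ p gU ε hS (hctxB.congr hagree (by omega)), ?_⟩
        intro s hs
        rcases List.mem_cons.1 hs with rfl | hs
        · refine ⟨K', gU, U, T, 2 * θ - kV, ⟨hE, hroot, hn0', hn', rfl, hcodeU, hslot⟩,
            ?_, fun t ht => ?_⟩
          · have hat0 := Rep.atm (P := P) (n := nv + 3 * (P.E + 1)) (v := extV P v nv gU)
              (j := 0) false (by omega) hn'
            rw [hroot.v0] at hat0
            refine (((kvF_rep hE hroot hn0' hn' true K' m).mul P.td).add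
              (hat0.mul (2 * P.tn))).cast ?_
            rw [sg_true, sg_false]
            push_cast
            linear_combination 2 * hθtd
          · have := hg2 t ht
            linarith
        · exact (hh.sides s hs).congr hagree (by omega) hn'
    · -- child D
      unfold GoodSide at hVθ
      push Not at hVθ
      obtain ⟨gV, hg1, hg2⟩ := hVθ
      have hagree : ∀ j < nv, extV P v nv gV j = v j := fun j hj => extV_lt hj
      have hn' : nv + 3 * (P.E + 1) ≤ P.K := by omega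
      have hn0' : 1 + 3 * (P.E + 1) ≤ nv + 3 * (P.E + 1) := by have := hh.hn0; omega
      have hroot : RootInv P (extV P v nv gV) p := hh.root.congr hh.hn0 hagree
      have hslot : SlotInv P (nv + 3 * (P.E + 1)) (extV P v nv gV) nv gV :=
        slotInv_ext le_rfl
      have hS : SideHyp P (nv + 3 * (P.E + 1)) (extV P v nv gV) p gV ε K' m true nv :=
        ⟨hE, hroot, hn0', hn', hε, hslot, _, T, hcodeV, hg1⟩
      refine hD ε hε hleD (extV P v nv gV) p ⟨hh.adm, hroot, hn0', hn',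
        hD2 _ _ p gV ε hS (hctxB.congr hagree (by omega)), ?_⟩
      intro s hs
      rcases List.mem_cons.1 hs with rfl | hs
      · refine ⟨K', gV, _, T, θ, ⟨hE, hroot, hn0', hn', rfl, hcodeV, hslot⟩,
          ?_, fun t ht => ?_⟩
        · have hat0 := Rep.atm (P := P) (n := nv + 3 * (P.E + 1)) (v := extV P v nv gV)
            (j := 0) false (by omega) hn'
          rw [hroot.v0] at hat0
          refine (hat0.mul P.tn).cast ?_
          rw [sg_false]
          linear_combination hθtd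
        · have := hg2 t ht
          linarith
      · exact (hh.sides s hs).congr hagree (by omega) hn'

theorem node_ok (hE : 2 ≤ P.E) (htd : 1 ≤ P.td) (t : Tree) : NodeOk P t := by
  induction t with
  | leaf wl N => exact leaf_ok wl N
  | basic k nn m t1 t2 ih1 ih2 => exact basic_ok hE htd k nn m ih1 ih2
  | bil k m tA tB tC tD ihA ihB ihC ihD => exact bil_ok hE htd k m ihA ihB ihC ihD
  | ytool s nn o tp t1 t2 ih1 ih2 => exact ytool_ok s nn o tp ih1 ih2

/-! ### The root -/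

/-- hypotheses at the root -/
structure RootHyp (P : Par) (ε : ℝ) (n : ℕ) (v : ℕ → ℝ) (p : Cfg) : Prop where
  hE : 2 ≤ P.E
  eps : 0 < ε
  adm : Adm P.E ε p
  root : RootInv P v p
  hn0 : 1 + 3 * (P.E + 1) ≤ n
  hn : n ≤ P.K
  r01 : p.rad P.E 1 ≤ p.rad P.E 0
  r12 : p.rad P.E 2 ≤ p.rad P.E 1

theorem rootLoop_sound (l : Fin 3) (N : ℕ) (hN : N ≤ P.E) :
    ∀ {c : List ℕ} {κ : List ℕ → Bool},
    (Nat.rec (motive := fun _ => List ℕ → (List ℕ → Bool) → Bool) (fun c κ => κ c)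
    (fun b ih c κ => push (sF P true l b) c fun c' => ih c' κ) N c κ : Bool) = true →
    ∃ c', κ c' = true ∧ ∀ (n : ℕ) (v : ℕ → ℝ) (p : Cfg) (ε : ℝ),
      RootHyp P ε n v p → CtxOk P n v (slackC P * ε) c →
      CtxOk P n v (slackC P * ε) c' := by
  induction N with
  | zero =>
    intro c κ h
    exact ⟨c, h, fun _ _ _ _ _ hc => hc⟩
  | succ N ih =>
    intro c κ h
    have h1 : push (sF P true l N) c (fun c' =>
      (Nat.rec (motive := fun _ => List ℕ → (List ℕ → Bool) → Bool) (fun c κ => κ c)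
      (fun b ih c κ => push (sF P true l b) c fun c' => ih c' κ) N c' κ : Bool)) = true := h
    rw [push_eq] at h1
    obtain ⟨c', h2, h3⟩ := ih (by omega) h1
    refine ⟨c', h2, fun n v p ε hh hc => h3 n v p ε hh ?_⟩
    refine ctxOk_cons hc (sF_rep hh.hE hh.root hh.hn0 hh.hn true l N (by omega)) ?_
    rw [sg_true]
    have h4 := hh.adm.1 l N (Finset.mem_range.2 (by omega))
    have h5 := slack_ge (P := P) ε hh.eps 1 (by
      have : (0 : ℝ) ≤ P.E := Nat.cast_nonneg _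
      linarith)
    linarith

theorem rootForm_sound (l : Fin 3) {c : List ℕ} {κ : List ℕ → Bool}
    (h : rootForm P l c κ = true) :
    ∃ c', κ c' = true ∧ ∀ (n : ℕ) (v : ℕ → ℝ) (p : Cfg) (ε : ℝ),
      RootHyp P ε n v p → CtxOk P n v (slackC P * ε) c →
      CtxOk P n v (slackC P * ε) c' := by
  obtain ⟨c1, h1, h2⟩ := rootLoop_sound l P.E le_rfl h
  rw [push_eq, push_eq] at h1
  refine ⟨_, h1, fun n v p ε hh hc => ?_⟩
  have hb : P.E - 1 < P.E := by have := hh.hE; omega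
  have hlast : P.E - 1 + 1 = P.E := by have := hh.hE; omega
  have hI := fun s => iF_rep (p := p) hh.hE hh.root hh.hn0 hh.hn s l (P.E - 1) hb
  simp only [I_last hlast] at hI
  have hS := fun s => sF_rep (p := p) hh.hE hh.root hh.hn0 hh.hn s l (P.E - 1) hb
  have hEpos : (0 : ℝ) ≤ P.E := Nat.cast_nonneg _
  have h3 := hh.adm.1 l (P.E - 1) (Finset.mem_range.2 hb)
  have h4 := hh.adm.2.1 l
  have hsl1 := slack_ge (P := P) ε hh.eps 1 (by linarith)
  have hsl2 := slack_ge (P := P) ε hh.eps (P.E + 1) (by linarith)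
  have h5 : -(P.E * ε) ≤ P.E * p.S l (P.E - 1) := by
    have := mul_le_mul_of_nonneg_left h3 hEpos
    linarith
  refine ctxOk_cons (ctxOk_cons (h2 n v p ε hh hc) (hI true) ?_)
    ((hI true).add ((hS false).mul P.E)) ?_
  · rw [sg_true]
    linarith
  · rw [sg_true, sg_false]
    linarith

theorem radF_rep {ε : ℝ} (hh : RootHyp P ε n v p) (s : Bool) (l : Fin 3) :
    Rep P n v (radF P s l) (sg s * p.rad P.E l) := by
  have h : Rep P n v (radF P s l) (∑ b ∈ range P.E, sg s * p.S l b) :=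
    Rep.sumTo fun b hb => sF_rep hh.hE hh.root hh.hn0 hh.hn s l b hb
  refine h.cast ?_
  rw [← Finset.mul_sum]
  rfl

theorem root_sound {κ : List ℕ → Bool} (h : root P κ = true) :
    ∃ c', κ c' = true ∧ ∀ (n : ℕ) (v : ℕ → ℝ) (p : Cfg) (ε : ℝ),
      RootHyp P ε n v p → CtxOk P n v (slackC P * ε) c' := by
  obtain ⟨c1, h1, h2⟩ := rootForm_sound (0 : Fin 3) h
  obtain ⟨c2, h3, h4⟩ := rootForm_sound (1 : Fin 3) h1
  obtain ⟨c3, h5, h6⟩ := rootForm_sound (2 : Fin 3) h3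
  rw [push_eq, push_eq, push_eq] at h5
  refine ⟨_, h5, fun n v p ε hh => ?_⟩
  have hc := h6 n v p ε hh (h4 n v p ε hh (h2 n v p ε hh (fun X hX => by simp at hX)))
  have hEpos : (0 : ℝ) ≤ P.E := Nat.cast_nonneg _
  have hsl1 := slack_ge (P := P) ε hh.eps 1 (by linarith)
  have hsl0 : -(slackC P * ε) ≤ 0 := by
    have := mul_pos (slackC_pos P) hh.eps
    linarith
  have hat := Rep.atm (P := P) (n := n) (v := v) (j := 0) true
    (by have := hh.hn0; omega) hh.hn
  rw [hh.root.v0] at hat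
  have h7 := hh.adm.2.2.2
  have h8 : ∑ l, ∑ b ∈ range P.E, p.S l b = p.rad P.E 0 + p.rad P.E 1 + p.rad P.E 2 := by
    rw [Fin.sum_univ_three]
    rfl
  rw [h8] at h7
  refine ctxOk_cons (ctxOk_cons (ctxOk_cons hc
    (hat.add ((radF_rep hh false 0).add ((radF_rep hh false 1).add (radF_rep hh false 2)))) ?_)
    ((radF_rep hh true 0).add (radF_rep hh false 1)) ?_)
    ((radF_rep hh true 1).add (radF_rep hh false 2)) ?_
  · rw [sg_true, sg_false]
    linarith
  · rw [sg_true, sg_false]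
    have := hh.r01
    linarith
  · rw [sg_true, sg_false]
    have := hh.r12
    linarith

/-- **Soundness of the checker.** -/
theorem certSorted_of_checkAll {t : Tree} (h : checkAll P t = true) :
    CertSorted P.E ((P.tn : ℝ) / P.td) := by
  unfold checkAll at h
  rw [Bool.and_eq_true, Bool.and_eq_true, Bool.and_eq_true, ble_iff, ble_iff, ble_iff] at h
  obtain ⟨⟨⟨hE, htd⟩, hK⟩, h⟩ := h
  obtain ⟨c, h1, h2⟩ := root_sound h
  obtain ⟨ε₀, h3, h4⟩ := node_ok hE htd t c [] _ h1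
  have hn0 : Nat.succ (Nat.mul 3 (Nat.succ P.E)) = 1 + 3 * (P.E + 1) := by
    show 3 * (P.E + 1) + 1 = _
    omega
  rw [hn0] at h4 hK
  refine ⟨ε₀, h3, fun ε hε hle p hadm h01 h12 => ?_⟩
  have hroot : RootInv P (extV P (fun _ => 1) 1 p) p :=
    ⟨by rw [extV_lt (by omega)], fun l => extV_J l, fun l b hb => extV_S l hb, hadm.2.2.1⟩
  have hh : RootHyp P ε (1 + 3 * (P.E + 1)) (extV P (fun _ => 1) 1 p) p :=
    ⟨hE, hε, hadm, hroot, le_rfl, hK, h01, h12⟩
  exact h4 ε hε hle (extV P (fun _ => 1) 1 p) p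
    ⟨hadm, hroot, le_rfl, hK, h2 _ _ p ε hh, fun s hs => by simp at hs⟩

end Pool.Agent.Lib.MP_4d5ce1_nt.BC
end

section

/-!
# A faster equivalent form of the checker `BCheckCore.check`: equality
-/

set_option autoImplicit false

namespace Pool.Agent.Lib.MP_4d5ce1_nt.BC

/-! ### Equality with the original checker -/

theorem combF_zero (wl : ℕ) (l : List ℕ) (acc : ℕ) : combF wl (Nat.add wl 8) l 0 0 acc = acc := by
  induction l generalizing acc with
  | nil => rfl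
  | cons X tl ih =>
    have h : combF wl (Nat.add wl 8) (X :: tl) 0 0 acc =
      combF wl (Nat.add wl 8) tl (Nat.mod (Nat.shiftRight 0 wl) 256)
        (Nat.shiftRight 0 (Nat.add wl 8))
        (Nat.add acc (Nat.mul (Nat.mod 0 (Nat.pow 2 wl)) X)) := rfl
    have h1 : Nat.shiftRight 0 wl = 0 := Nat.zero_shiftRight wl
    have h2 : Nat.shiftRight 0 (Nat.add wl 8) = 0 := Nat.zero_shiftRight _
    have h3 : Nat.mod 0 (Nat.pow 2 wl) = 0 := Nat.zero_mod _
    have h4 : Nat.mul 0 X = 0 := Nat.zero_mul X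
    have h5 : Nat.mod 0 256 = 0 := rfl
    rw [h, h1, h2, h3, h4, h5]
    exact ih acc

theorem combF_eq (wl : ℕ) (l : List ℕ) (g N acc : ℕ) :
    combF wl (Nat.add wl 8) l g N acc = comb wl l g N acc := by
  induction l generalizing g N acc with
  | nil => rfl
  | cons X tl ih =>
    cases g with
    | succ g => exact ih g N acc
    | zero =>
      have h : combF wl (Nat.add wl 8) (X :: tl) 0 N acc =
        combF wl (Nat.add wl 8) tl (Nat.mod (Nat.shiftRight N wl) 256)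
          (Nat.shiftRight N (Nat.add wl 8))
          (Nat.add acc (Nat.mul (Nat.mod N (Nat.pow 2 wl)) X)) := rfl
      have h' : comb wl (X :: tl) 0 N acc = cond (Nat.beq N 0) acc
        (force (Nat.shiftRight N wl) fun N1 => force (Nat.shiftRight N1 8) fun N2 =>
          comb wl tl (Nat.mod N1 256) N2
            (Nat.add acc (Nat.mul (Nat.mod N (Nat.pow 2 wl)) X))) := rfl
      rcases Nat.eq_zero_or_pos N with h0 | h0
      · subst h0
        rw [combF_zero, h']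
        rfl
      · have hb : Nat.beq N 0 = false := by
          cases N with
          | zero => exact absurd h0 (lt_irrefl 0)
          | succ N => rfl
        have hs : Nat.shiftRight N (Nat.add wl 8) = Nat.shiftRight (Nat.shiftRight N wl) 8 :=
          Nat.shiftRight_add N wl 8
        rw [h', hb, force_eq, force_eq, h, hs, ih]
        rfl

theorem leafF_eq (P : Par) (wl N : ℕ) (ctx : List ℕ) : leafF P wl N ctx = leafOk P wl N ctx := by
  unfold leafF leafOk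
  rw [force_eq, force_eq, combF_eq]

theorem sideStepF_eq (P : Par) (k m : ℕ) (neg : Bool) (off i : ℕ) (l : List ℕ)
    (κ : List ℕ → Bool) : sideStepF P k m neg off i l κ = sideStep P k m neg off i l κ := by
  unfold sideStepF sideStep
  cases and (not (Nat.beq (Nat.div i P.E) k)) (sb P k m neg i) with
  | false => rfl
  | true =>
    simp only [push_eq]
    cases Nat.beq (Nat.succ (Nat.mod i P.E)) P.E <;> rfl

theorem sideLoopF_eq (P : Par) (k m : ℕ) (neg : Bool) (off n : ℕ) (l : List ℕ)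
    (κ : List ℕ → Bool) : sideLoopF P k m neg off n l κ = sideLoop P k m neg off n l κ := by
  induction n generalizing l with
  | zero => rfl
  | succ n ih =>
    have h : sideLoopF P k m neg off (n + 1) l κ =
      sideStepF P k m neg off n l fun l' => sideLoopF P k m neg off n l' κ := rfl
    have h' : sideLoop P k m neg off (n + 1) l κ =
      sideStep P k m neg off n l fun l' => sideLoop P k m neg off n l' κ := rfl
    rw [h, h', sideStepF_eq]
    simp only [ih]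

theorem sideAllF_eq (P : Par) (k m : ℕ) (neg : Bool) (off : ℕ) (l : List ℕ)
    (κ : List ℕ → Bool) : sideAllF P k m neg off l κ = sideAll P k m neg off l κ := by
  unfold sideAllF sideAll
  rw [sideLoopF_eq]
  simp only [push_eq]

theorem checkF_eq (P : Par) (t : Tree) : checkF P t = check P t := by
  induction t with
  | leaf wl N =>
    funext ctx sd nv
    exact leafF_eq P wl N ctx
  | basic k nn m t1 t2 ih1 ih2 =>
    funext ctx sd nv
    rw [check_basic, ← ih1, ← ih2]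
    rfl
  | ytool s nn o tp t1 t2 ih1 ih2 =>
    funext ctx sd nv
    rw [check_ytool, ← ih1, ← ih2]
    rfl
  | bil k m tA tB tC tD ihA ihB ihC ihD =>
    funext ctx sd nv
    rw [check_bil, ← ihA, ← ihB, ← ihC, ← ihD]
    simp only [← sideAllF_eq]
    have h : checkF P (.bil k m tA tB tC tD) ctx sd nv =
      (and (and (Nat.blt k 3) (Nat.ble (Nat.add nv (Nat.succ (Nat.mul 6 (Nat.succ P.E)))) P.K))
      (and (checkF P tA (Nat.add (Nat.mul P.td (kvF P true k m))
          (Nat.mul P.tn (atm P false 0)) :: ctx) sd nv)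
      (force (Nat.add nv (Nat.mul 3 (Nat.succ P.E))) fun nv1 =>
      and (sideAllF P k m false nv (ctxB P k m ctx) fun l =>
          checkF P tB l (⟨k, m, false, nv, Nat.add (Nat.mul P.td (kvF P true k m))
            (Nat.mul (Nat.mul 2 P.tn) (atm P false 0))⟩ :: sd) nv1)
      (and (force (Nat.succ nv) fun o1 => force (Nat.add o1 (Nat.mul 3 (Nat.succ P.E))) fun o2 =>
        force (Nat.add o2 (Nat.mul 3 (Nat.succ P.E))) fun o3 =>
        sideAllF P k m true o1 (Nat.add (kvF P false k m) (atm P true nv) ::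
          Nat.add (Nat.mul P.tn (atm P true 0)) (Nat.mul P.td (atm P false nv)) ::
          atm P true nv :: ctxB P k m ctx) fun l =>
        sideAllF P k m false o2 l fun l =>
          checkF P tC l (⟨k, m, false, o2, Nat.add (Nat.mul (Nat.mul 2 P.tn) (atm P false 0))
              (Nat.mul P.td (atm P true nv))⟩ ::
            ⟨k, m, true, o1, Nat.mul P.td (atm P false nv)⟩ :: sd) o3)
      (sideAllF P k m true nv (ctxB P k m ctx) fun l =>
          checkF P tD l (⟨k, m, true, nv, Nat.mul P.tn (atm P false 0)⟩ :: sd) nv1))))) := rfl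
    rw [h]
    simp only [force_eq]
    rfl

theorem rootForm_eq (P : Par) (l : ℕ) (c : List ℕ) : ∃ c', ∀ κ, rootForm P l c κ = κ c' := by
  have key : ∀ (n : ℕ) (c : List ℕ), ∃ c', ∀ κ : List ℕ → Bool,
      Nat.rec (motive := fun _ => List ℕ → (List ℕ → Bool) → Bool) (fun c κ => κ c)
        (fun b ih c κ => push (sF P true l b) c fun c' => ih c' κ) n c κ = κ c' := by
    intro n
    induction n with
    | zero => exact fun c => ⟨c, fun κ => rfl⟩
    | succ n ih =>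
      intro c
      obtain ⟨c', h⟩ := ih (sF P true l n :: c)
      refine ⟨c', fun κ => ?_⟩
      rw [← h κ]
      exact push_eq _ _ _
  obtain ⟨c', h⟩ := key P.E c
  refine ⟨Nat.add (iF P true l (Nat.sub P.E 1)) (Nat.mul P.E (sF P false l (Nat.sub P.E 1))) ::
    iF P true l (Nat.sub P.E 1) :: c', fun κ => ?_⟩
  unfold rootForm
  rw [h, push_eq, push_eq]

theorem root_eq (P : Par) : ∃ c', ∀ κ, root P κ = κ c' := by
  obtain ⟨c0, h0⟩ := rootForm_eq P 0 []
  obtain ⟨c1, h1⟩ := rootForm_eq P 1 c0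
  obtain ⟨c2, h2⟩ := rootForm_eq P 2 c1
  refine ⟨Nat.add (radF P true 1) (radF P false 2) :: Nat.add (radF P true 0) (radF P false 1) ::
    Nat.add (atm P true 0) (Nat.add (radF P false 0)
      (Nat.add (radF P false 1) (radF P false 2))) :: c2, fun κ => ?_⟩
  unfold root
  rw [h0, h1, h2, push_eq, push_eq, push_eq]

theorem root_and {P : Par} {κ₁ κ₂ : List ℕ → Bool} (h1 : root P κ₁ = true)
    (h2 : root P κ₂ = true) : root P (fun c => κ₁ c && κ₂ c) = true := by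
  obtain ⟨c, h⟩ := root_eq P
  rw [h] at h1 h2 ⊢
  rw [h1, h2]
  rfl

theorem root_basic {P : Par} {k n m : ℕ} {t1 t2 : Tree} {f : List ℕ → List ℕ}
    (h0 : basicOk P k n m = true)
    (h1 : root P (fun c => checkF P t1 (bF1 P k m :: f c) []
      (Nat.succ (Nat.mul 3 (Nat.succ P.E)))) = true)
    (h2 : root P (fun c => checkF P t2 (bF2 P k n m (bF1 P k m) :: f c) []
      (Nat.succ (Nat.mul 3 (Nat.succ P.E)))) = true) :
    root P (fun c => checkF P (.basic k n m t1 t2) (f c) []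
      (Nat.succ (Nat.mul 3 (Nat.succ P.E)))) = true := by
  obtain ⟨c, h⟩ := root_eq P
  rw [h] at h1 h2 ⊢
  have h3 : checkF P (.basic k n m t1 t2) (f c) [] (Nat.succ (Nat.mul 3 (Nat.succ P.E))) =
    (basicOk P k n m && (checkF P t1 (bF1 P k m :: f c) [] (Nat.succ (Nat.mul 3 (Nat.succ P.E))) &&
      checkF P t2 (bF2 P k n m (bF1 P k m) :: f c) []
        (Nat.succ (Nat.mul 3 (Nat.succ P.E))))) := rfl
  rw [h3, h0, h1, h2]
  rfl

theorem checkAll_of_root {P : Par} {t : Tree}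
    (h0 : (and (and (Nat.ble 2 P.E) (Nat.ble 1 P.td))
      (Nat.ble (Nat.succ (Nat.mul 3 (Nat.succ P.E))) P.K)) = true)
    (h : root P (fun c => checkF P t c [] (Nat.succ (Nat.mul 3 (Nat.succ P.E)))) = true) :
    checkAll P t = true := by
  unfold checkAll
  rw [h0, ← checkF_eq, h]
  rfl

end Pool.Agent.Lib.MP_4d5ce1_nt.BC
end

section

/-!
# Certificate: E = 5, theta = 14/25 (generated by branch and bound, checked by `BCheck`)
-/

set_option autoImplicit false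

namespace Pool.Agent.Lib.MP_4d5ce1_nt.Cert56

open BC BC.Tree

noncomputable def tree : Tree :=
(basic (nat_lit 0) (nat_lit 4) (nat_lit 8456) (basic (nat_lit 0) (nat_lit 3) (nat_lit 4232) (basic (nat_lit 1) (nat_lit 4) (nat_lit 8712) (basic (nat_lit 2) (nat_lit 1) (nat_lit 16417) (basic (nat_lit 2) (nat_lit 2) (nat_lit 16458) (basic (nat_lit 0) (nat_lit 1) (nat_lit 1320) t0 t1) t2) t3) t4) (basic (nat_lit 2) (nat_lit 3) (nat_lit 4228) t5 t6)) (basic (nat_lit 1) (nat_lit 3) (nat_lit 260) (basic (nat_lit 0) (nat_lit 4) (nat_lit 8468) (basic (nat_lit 0) (nat_lit 3) (nat_lit 4114) (basic (nat_lit 0) (nat_lit 3) (nat_lit 4244) (basic (nat_lit 0) (nat_lit 2) (nat_lit 10516) (basic (nat_lit 2) (nat_lit 3) (nat_lit 24708) (basic (nat_lit 0) (nat_lit 2) (nat_lit 8532) (basic (nat_lit 0) (nat_lit 1) (nat_lit 5300) (basic (nat_lit 0) (nat_lit 1) (nat_lit 3184) t7 (basic (nat_lit 2) (nat_lit 2) (nat_lit 16706) (basic (nat_lit 0) (nat_lit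 2) (nat_lit 2372) (basic (nat_lit 0) (nat_lit 1) (nat_lit 1074) (basic (nat_lit 1) (nat_lit 1) (nat_lit 3973) t8 t9) t10) t11) t12)) t13) t14) t15) t16) t17) t18) t19) (basic (nat_lit 2) (nat_lit 3) (nat_lit 8324) t20 t21)))

set_option maxHeartbeats 0 in
theorem tree_ok : checkAll ⟨5, 14, 25, 36, 93⟩ tree = true :=
  checkAll_of_root (by decide +kernel) (root_basic (f := fun c => c) (by decide +kernel)
  (root_basic (f := fun c => bF1 (⟨5, 14, 25, 36, 93⟩ : Par) (nat_lit 0) (nat_lit 8456) :: c) (by decide +kernel)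
  (root_basic (f := fun c => bF1 (⟨5, 14, 25, 36, 93⟩ : Par) (nat_lit 0) (nat_lit 4232) :: bF1 (⟨5, 14, 25, 36, 93⟩ : Par) (nat_lit 0) (nat_lit 8456) :: c) (by decide +kernel)
  (root_basic (f := fun c => bF1 (⟨5, 14, 25, 36, 93⟩ : Par) (nat_lit 1) (nat_lit 8712) :: bF1 (⟨5, 14, 25, 36, 93⟩ : Par) (nat_lit 0) (nat_lit 4232) :: bF1 (⟨5, 14, 25, 36, 93⟩ : Par) (nat_lit 0) (nat_lit 8456) :: c) (by decide +kernel)
  (root_basic (f := fun c => bF1 (⟨5, 14, 25, 36, 93⟩ : Par) (nat_lit 2) (nat_lit 16417) :: bF1 (⟨5, 14, 25, 36, 93⟩ : Par) (nat_lit 1) (nat_lit 8712) :: bF1 (⟨5, 14, 25, 36, 93⟩ : Par) (nat_lit 0) (nat_lit 4232) :: bF1 (⟨5, 14, 25, 36, 93⟩ : Par) (nat_lit 0) (nat_lit 8456) :: c) (by decide +kernel)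
  (root_basic (f := fun c => bF1 (⟨5, 14, 25, 36, 93⟩ : Par) (nat_lit 2) (nat_lit 16458) :: bF1 (⟨5, 14, 25, 36, 93⟩ : Par) (nat_lit 2) (nat_lit 16417) :: bF1 (⟨5, 14, 25, 36, 93⟩ : Par) (nat_lit 1) (nat_lit 8712) :: bF1 (⟨5, 14, 25, 36, 93⟩ : Par) (nat_lit 0) (nat_lit 4232) :: bF1 (⟨5, 14, 25, 36, 93⟩ : Par) (nat_lit 0) (nat_lit 8456) :: c) (by decide +kernel)
  ok0 ok1) ok2) ok3) ok4) (root_basic (f := fun c => bF2 (⟨5, 14, 25, 36, 93⟩ : Par) (nat_lit 0) (nat_lit 3) (nat_lit 4232) (bF1 (⟨5, 14, 25, 36, 93⟩ : Par) (nat_lit 0) (nat_lit 4232)) :: bF1 (⟨5, 14, 25, 36, 93⟩ : Par) (nat_lit 0) (nat_lit 8456) :: c) (by decide +kernel)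
  ok5 ok6)) (root_basic (f := fun c => bF2 (⟨5, 14, 25, 36, 93⟩ : Par) (nat_lit 0) (nat_lit 4) (nat_lit 8456) (bF1 (⟨5, 14, 25, 36, 93⟩ : Par) (nat_lit 0) (nat_lit 8456)) :: c) (by decide +kernel)
  (root_basic (f := fun c => bF1 (⟨5, 14, 25, 36, 93⟩ : Par) (nat_lit 1) (nat_lit 260) :: bF2 (⟨5, 14, 25, 36, 93⟩ : Par) (nat_lit 0) (nat_lit 4) (nat_lit 8456) (bF1 (⟨5, 14, 25, 36, 93⟩ : Par) (nat_lit 0) (nat_lit 8456)) :: c) (by decide +kernel)
  (root_basic (f := fun c => bF1 (⟨5, 14, 25, 36, 93⟩ : Par) (nat_lit 0) (nat_lit 8468) :: bF1 (⟨5, 14, 25, 36, 93⟩ : Par) (nat_lit 1) (nat_lit 260) :: bF2 (⟨5, 14, 25, 36, 93⟩ : Par) (nat_lit 0) (nat_lit 4) (nat_lit 8456) (bF1 (⟨5, 14, 25, 36, 93⟩ : Par) (nat_lit 0) (nat_lit 8456)) :: c) (by decide +kernel)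
  (root_basic (f := fun c => bF1 (⟨5, 14, 25, 36, 93⟩ : Par) (nat_lit 0) (nat_lit 4114) :: bF1 (⟨5, 14, 25, 36, 93⟩ : Par) (nat_lit 0) (nat_lit 8468) :: bF1 (⟨5, 14, 25, 36, 93⟩ : Par) (nat_lit 1) (nat_lit 260) :: bF2 (⟨5, 14, 25, 36, 93⟩ : Par) (nat_lit 0) (nat_lit 4) (nat_lit 8456) (bF1 (⟨5, 14, 25, 36, 93⟩ : Par) (nat_lit 0) (nat_lit 8456)) :: c) (by decide +kernel)
  (root_basic (f := fun c => bF1 (⟨5, 14, 25, 36, 93⟩ : Par) (nat_lit 0) (nat_lit 4244) :: bF1 (⟨5, 14, 25, 36, 93⟩ : Par) (nat_lit 0) (nat_lit 4114) :: bF1 (⟨5, 14, 25, 36, 93⟩ : Par) (nat_lit 0) (nat_lit 8468) :: bF1 (⟨5, 14, 25, 36, 93⟩ : Par) (nat_lit 1) (nat_lit 260) :: bF2 (⟨5, 14, 25, 36, 93⟩ : Par) (nat_lit 0) (nat_lit 4) (nat_lit 8456) (bF1 (⟨5, 14, 25, 36, 93⟩ : Par) (nat_lit 0) (nat_lit 8456)) :: c) (by decide +kernel)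
  (root_basic (f := fun c => bF1 (⟨5, 14, 25, 36, 93⟩ : Par) (nat_lit 0) (nat_lit 10516) :: bF1 (⟨5, 14, 25, 36, 93⟩ : Par) (nat_lit 0) (nat_lit 4244) :: bF1 (⟨5, 14, 25, 36, 93⟩ : Par) (nat_lit 0) (nat_lit 4114) :: bF1 (⟨5, 14, 25, 36, 93⟩ : Par) (nat_lit 0) (nat_lit 8468) :: bF1 (⟨5, 14, 25, 36, 93⟩ : Par) (nat_lit 1) (nat_lit 260) :: bF2 (⟨5, 14, 25, 36, 93⟩ : Par) (nat_lit 0) (nat_lit 4) (nat_lit 8456) (bF1 (⟨5, 14, 25, 36, 93⟩ : Par) (nat_lit 0) (nat_lit 8456)) :: c) (by decide +kernel)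
  (root_basic (f := fun c => bF1 (⟨5, 14, 25, 36, 93⟩ : Par) (nat_lit 2) (nat_lit 24708) :: bF1 (⟨5, 14, 25, 36, 93⟩ : Par) (nat_lit 0) (nat_lit 10516) :: bF1 (⟨5, 14, 25, 36, 93⟩ : Par) (nat_lit 0) (nat_lit 4244) :: bF1 (⟨5, 14, 25, 36, 93⟩ : Par) (nat_lit 0) (nat_lit 4114) :: bF1 (⟨5, 14, 25, 36, 93⟩ : Par) (nat_lit 0) (nat_lit 8468) :: bF1 (⟨5, 14, 25, 36, 93⟩ : Par) (nat_lit 1) (nat_lit 260) :: bF2 (⟨5, 14, 25, 36, 93⟩ : Par) (nat_lit 0) (nat_lit 4) (nat_lit 8456) (bF1 (⟨5, 14, 25, 36, 93⟩ : Par) (nat_lit 0) (nat_lit 8456)) :: c) (by decide +kernel)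
  (root_basic (f := fun c => bF1 (⟨5, 14, 25, 36, 93⟩ : Par) (nat_lit 0) (nat_lit 8532) :: bF1 (⟨5, 14, 25, 36, 93⟩ : Par) (nat_lit 2) (nat_lit 24708) :: bF1 (⟨5, 14, 25, 36, 93⟩ : Par) (nat_lit 0) (nat_lit 10516) :: bF1 (⟨5, 14, 25, 36, 93⟩ : Par) (nat_lit 0) (nat_lit 4244) :: bF1 (⟨5, 14, 25, 36, 93⟩ : Par) (nat_lit 0) (nat_lit 4114) :: bF1 (⟨5, 14, 25, 36, 93⟩ : Par) (nat_lit 0) (nat_lit 8468) :: bF1 (⟨5, 14, 25, 36, 93⟩ : Par) (nat_lit 1) (nat_lit 260) :: bF2 (⟨5, 14, 25, 36, 93⟩ : Par) (nat_lit 0) (nat_lit 4) (nat_lit 8456) (bF1 (⟨5, 14, 25, 36, 93⟩ : Par) (nat_lit 0) (nat_lit 8456)) :: c) (by decide +kernel)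
  (root_basic (f := fun c => bF1 (⟨5, 14, 25, 36, 93⟩ : Par) (nat_lit 0) (nat_lit 5300) :: bF1 (⟨5, 14, 25, 36, 93⟩ : Par) (nat_lit 0) (nat_lit 8532) :: bF1 (⟨5, 14, 25, 36, 93⟩ : Par) (nat_lit 2) (nat_lit 24708) :: bF1 (⟨5, 14, 25, 36, 93⟩ : Par) (nat_lit 0) (nat_lit 10516) :: bF1 (⟨5, 14, 25, 36, 93⟩ : Par) (nat_lit 0) (nat_lit 4244) :: bF1 (⟨5, 14, 25, 36, 93⟩ : Par) (nat_lit 0) (nat_lit 4114) :: bF1 (⟨5, 14, 25, 36, 93⟩ : Par) (nat_lit 0) (nat_lit 8468) :: bF1 (⟨5, 14, 25, 36, 93⟩ : Par) (nat_lit 1) (nat_lit 260) :: bF2 (⟨5, 14, 25, 36, 93⟩ : Par) (nat_lit 0) (nat_lit 4) (nat_lit 8456) (bF1 (⟨5, 14, 25, 36, 93⟩ : Par) (nat_lit 0) (nat_lit 8456)) :: c) (by decide +kernel)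
  ok7 (root_basic (f := fun c => bF2 (⟨5, 14, 25, 36, 93⟩ : Par) (nat_lit 0) (nat_lit 1) (nat_lit 3184) (bF1 (⟨5, 14, 25, 36, 93⟩ : Par) (nat_lit 0) (nat_lit 3184)) :: bF1 (⟨5, 14, 25, 36, 93⟩ : Par) (nat_lit 0) (nat_lit 5300) :: bF1 (⟨5, 14, 25, 36, 93⟩ : Par) (nat_lit 0) (nat_lit 8532) :: bF1 (⟨5, 14, 25, 36, 93⟩ : Par) (nat_lit 2) (nat_lit 24708) :: bF1 (⟨5, 14, 25, 36, 93⟩ : Par) (nat_lit 0) (nat_lit 10516) :: bF1 (⟨5, 14, 25, 36, 93⟩ : Par) (nat_lit 0) (nat_lit 4244) :: bF1 (⟨5, 14, 25, 36, 93⟩ : Par) (nat_lit 0) (nat_lit 4114) :: bF1 (⟨5, 14, 25, 36, 93⟩ : Par) (nat_lit 0) (nat_lit 8468) :: bF1 (⟨5, 14, 25, 36, 93⟩ : Par) (nat_lit 1) (nat_lit 260) :: bF2 (⟨5, 14, 25, 36, 93⟩ : Par) (nat_lit 0) (nat_lit 4) (nat_lit 8456) (bF1 (⟨5, 14, 25, 36, 93⟩ : Par) (nat_lit 0) (nat_lit 8456)) :: c) (by decide +kernel)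
  (root_basic (f := fun c => bF1 (⟨5, 14, 25, 36, 93⟩ : Par) (nat_lit 2) (nat_lit 16706) :: bF2 (⟨5, 14, 25, 36, 93⟩ : Par) (nat_lit 0) (nat_lit 1) (nat_lit 3184) (bF1 (⟨5, 14, 25, 36, 93⟩ : Par) (nat_lit 0) (nat_lit 3184)) :: bF1 (⟨5, 14, 25, 36, 93⟩ : Par) (nat_lit 0) (nat_lit 5300) :: bF1 (⟨5, 14, 25, 36, 93⟩ : Par) (nat_lit 0) (nat_lit 8532) :: bF1 (⟨5, 14, 25, 36, 93⟩ : Par) (nat_lit 2) (nat_lit 24708) :: bF1 (⟨5, 14, 25, 36, 93⟩ : Par) (nat_lit 0) (nat_lit 10516) :: bF1 (⟨5, 14, 25, 36, 93⟩ : Par) (nat_lit 0) (nat_lit 4244) :: bF1 (⟨5, 14, 25, 36, 93⟩ : Par) (nat_lit 0) (nat_lit 4114) :: bF1 (⟨5, 14, 25, 36, 93⟩ : Par) (nat_lit 0) (nat_lit 8468) :: bF1 (⟨5, 14, 25, 36, 93⟩ : Par) (nat_lit 1) (nat_lit 260) :: bF2 (⟨5, 14, 25, 36, 93⟩ : Par) (nat_lit 0) (nat_lit 4) (nat_lit 8456) (bF1 (⟨5, 14, 25, 36, 93⟩ : Par) (nat_lit 0) (nat_lit 8456)) :: c) (by decide +kernel)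
  (root_basic (f := fun c => bF1 (⟨5, 14, 25, 36, 93⟩ : Par) (nat_lit 0) (nat_lit 2372) :: bF1 (⟨5, 14, 25, 36, 93⟩ : Par) (nat_lit 2) (nat_lit 16706) :: bF2 (⟨5, 14, 25, 36, 93⟩ : Par) (nat_lit 0) (nat_lit 1) (nat_lit 3184) (bF1 (⟨5, 14, 25, 36, 93⟩ : Par) (nat_lit 0) (nat_lit 3184)) :: bF1 (⟨5, 14, 25, 36, 93⟩ : Par) (nat_lit 0) (nat_lit 5300) :: bF1 (⟨5, 14, 25, 36, 93⟩ : Par) (nat_lit 0) (nat_lit 8532) :: bF1 (⟨5, 14, 25, 36, 93⟩ : Par) (nat_lit 2) (nat_lit 24708) :: bF1 (⟨5, 14, 25, 36, 93⟩ : Par) (nat_lit 0) (nat_lit 10516) :: bF1 (⟨5, 14, 25, 36, 93⟩ : Par) (nat_lit 0) (nat_lit 4244) :: bF1 (⟨5, 14, 25, 36, 93⟩ : Par) (nat_lit 0) (nat_lit 4114) :: bF1 (⟨5, 14, 25, 36, 93⟩ : Par) (nat_lit 0) (nat_lit 8468) :: bF1 (⟨5, 14, 25, 36, 93⟩ : Par) (nat_lit 1) (nat_lit 260) :: bF2 (⟨5, 14, 25, 36, 93⟩ : Par) (nat_lit 0) (nat_lit 4) (nat_lit 8456) (bF1 (⟨5, 14, 25, 36, 93⟩ : Par) (nat_lit 0) (nat_lit 8456)) :: c) (by decide +kernel)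
  (root_basic (f := fun c => bF1 (⟨5, 14, 25, 36, 93⟩ : Par) (nat_lit 0) (nat_lit 1074) :: bF1 (⟨5, 14, 25, 36, 93⟩ : Par) (nat_lit 0) (nat_lit 2372) :: bF1 (⟨5, 14, 25, 36, 93⟩ : Par) (nat_lit 2) (nat_lit 16706) :: bF2 (⟨5, 14, 25, 36, 93⟩ : Par) (nat_lit 0) (nat_lit 1) (nat_lit 3184) (bF1 (⟨5, 14, 25, 36, 93⟩ : Par) (nat_lit 0) (nat_lit 3184)) :: bF1 (⟨5, 14, 25, 36, 93⟩ : Par) (nat_lit 0) (nat_lit 5300) :: bF1 (⟨5, 14, 25, 36, 93⟩ : Par) (nat_lit 0) (nat_lit 8532) :: bF1 (⟨5, 14, 25, 36, 93⟩ : Par) (nat_lit 2) (nat_lit 24708) :: bF1 (⟨5, 14, 25, 36, 93⟩ : Par) (nat_lit 0) (nat_lit 10516) :: bF1 (⟨5, 14, 25, 36, 93⟩ : Par) (nat_lit 0) (nat_lit 4244) :: bF1 (⟨5, 14, 25, 36, 93⟩ : Par) (nat_lit 0) (nat_lit 4114) :: bF1 (⟨5, 14, 25, 36, 93⟩ : Par) (nat_lit 0) (nat_lit 8468) :: bF1 (⟨5, 14, 25, 36, 93⟩ : Par) (nat_lit 1) (nat_lit 260) :: bF2 (⟨5, 14, 25, 36, 93⟩ : Par) (nat_lit 0) (nat_lit 4) (nat_lit 8456) (bF1 (⟨5, 14, 25,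 36, 93⟩ : Par) (nat_lit 0) (nat_lit 8456)) :: c) (by decide +kernel)
  ok8 ok9) ok10) ok11) ok12)) ok13) ok14) ok15) ok16) ok17) ok18) ok19) (root_basic (f := fun c => bF2 (⟨5, 14, 25, 36, 93⟩ : Par) (nat_lit 1) (nat_lit 3) (nat_lit 260) (bF1 (⟨5, 14, 25, 36, 93⟩ : Par) (nat_lit 1) (nat_lit 260)) :: bF2 (⟨5, 14, 25, 36, 93⟩ : Par) (nat_lit 0) (nat_lit 4) (nat_lit 8456) (bF1 (⟨5, 14, 25, 36, 93⟩ : Par) (nat_lit 0) (nat_lit 8456)) :: c) (by decide +kernel)
  ok20 ok21)))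

theorem cert : CertSorted 5 ((14 : ℕ) / (25 : ℕ)) := certSorted_of_checkAll tree_ok

end Pool.Agent.Lib.MP_4d5ce1_nt.Cert56
end

section

set_option autoImplicit false
set_option linter.unusedSectionVars false

open NumberField IsDedekindDomain

namespace Pool.Agent.Lib.MP_4d5ce1_nt

/-! # Module S : symmetry

Permuting the three forms does not change the value of a strategy, so it is enough to certify the
configurations with sorted radicals. -/

/-- Permute the forms of a configuration. -/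
def Cfg.perm (s : Equiv.Perm (Fin 3)) (p : Cfg) : Cfg :=
  ⟨fun l => p.S (s l), fun l => p.J (s l)⟩

lemma Cfg.perm_I (E : ℕ) (s : Equiv.Perm (Fin 3)) (p : Cfg) (l : Fin 3) (b : ℕ) :
    (p.perm s).I E l b = p.I E (s l) b := rfl

lemma sum_ne_perm (s : Equiv.Perm (Fin 3)) (k : Fin 3) (f : Fin 3 → ℝ) :
    ∑ l ∈ Finset.univ.filter (fun l => l ≠ s k), f l =
      ∑ l ∈ Finset.univ.filter (fun l => l ≠ k), f (s l) := by
  rw [Finset.sum_filter, Finset.sum_filter, ← Equiv.sum_comp s]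
  refine Finset.sum_congr rfl fun l _ => ?_
  by_cases h : l = k
  · subst h; simp
  · have h' : s l ≠ s k := fun e => h (s.injective e)
    simp [h]

lemma sum_univ_perm (s : Equiv.Perm (Fin 3)) (f : Fin 3 → ℝ) :
    ∑ l, f (s l) = ∑ l, f l := Equiv.sum_comp s f

lemma Adm.perm {E : ℕ} {ε : ℝ} {p : Cfg} (h : Adm E ε p) (s : Equiv.Perm (Fin 3)) :
    Adm E ε (p.perm s) := by
  obtain ⟨h1, h2, h3, h4⟩ := h
  refine ⟨fun l => h1 (s l), fun l => h2 (s l), fun l => h3 (s l), ?_⟩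
  have := sum_univ_perm s (fun l => ∑ b ∈ Finset.range E, p.S l b)
  change ∑ l, ∑ b ∈ Finset.range E, p.S (s l) b ≤ 1 + ε
  rw [this]
  exact h4

/-- Permute a basic tool back. -/
def BT.perm (s : Equiv.Perm (Fin 3)) (t : BT) : BT :=
  ⟨s t.k, t.n, fun l => t.A (s.symm l), t.T⟩

lemma BT.ok_perm {E : ℕ} {t : BT} (h : t.ok E) (s : Equiv.Perm (Fin 3)) : (t.perm s).ok E := by
  obtain ⟨h1, h2, h3⟩ := h
  refine ⟨h1, h2, fun l hl b hb hA => ?_⟩
  refine h3 (s.symm l) (fun e => hl ?_) b hb hA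
  change l = s t.k
  rw [← e, Equiv.apply_symm_apply]

lemma BT.cost_perm (E : ℕ) (t : BT) (s : Equiv.Perm (Fin 3)) (p : Cfg) :
    (t.perm s).cost E p = t.cost E (p.perm s) := by
  have e : ∀ f : Fin 3 → ℝ, ∑ l ∈ Finset.univ.filter (fun l => l ≠ (t.perm s).k), f l =
      ∑ l ∈ Finset.univ.filter (fun l => l ≠ t.k), f (s l) := fun f => sum_ne_perm s t.k f
  unfold BT.cost
  rw [e, e]
  simp only [BT.perm, Equiv.symm_apply_apply]
  rfl

lemma AdmG.perm {E : ℕ} {ε : ℝ} {p : Cfg} {s : Equiv.Perm (Fin 3)} {k : Fin 3}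
    {A : Fin 3 → ℕ → Bool} {T : ℕ → Bool} {g : Cfg}
    (h : AdmG E ε p (s k) (fun l => A (s.symm l)) T g) :
    AdmG E ε (p.perm s) k A T (g.perm s) := by
  obtain ⟨h1, h2, h3⟩ := h
  have hne : ∀ l, l ≠ k → s l ≠ s k := fun l hl e => hl (s.injective e)
  refine ⟨fun l hl b hb hA => ?_, fun l hl hA => ?_, ?_⟩
  · exact h1 (s l) (hne l hl) b hb (by simpa using hA)
  · exact h2 (s l) (hne l hl) (by simpa using hA)
  · rw [sum_ne_perm] at h3
    simp only [Equiv.symm_apply_apply] at h3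
    exact h3

/-- Permute a tool for pairs back. -/
def YT.perm (s : Equiv.Perm (Fin 3)) (t : YT) : YT := ⟨t.n, fun l => t.out (s.symm l), t.tp⟩

lemma YT.ok_perm {E : ℕ} {k : Fin 3} {A : Fin 3 → ℕ → Bool} {T : ℕ → Bool} {t : YT}
    (h : t.ok E k A T) (s : Equiv.Perm (Fin 3)) :
    (t.perm s).ok E (s k) (fun l => A (s.symm l)) T := by
  obtain ⟨h1, h2, h3, h4⟩ := h
  refine ⟨h1, h2, fun l hl b hb hA => ?_, h4⟩
  refine h3 (s.symm l) (fun e => hl ?_) b hb hA
  rw [← e, Equiv.apply_symm_apply]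

lemma YT.cost_perm (E : ℕ) (k : Fin 3) (A : Fin 3 → ℕ → Bool) (t : YT)
    (s : Equiv.Perm (Fin 3)) (p g : Cfg) :
    (t.perm s).cost E (s k) (fun l => A (s.symm l)) p g =
      t.cost E k A (p.perm s) (g.perm s) := by
  unfold YT.cost
  rw [sum_ne_perm, sum_ne_perm]
  simp only [YT.perm, Equiv.symm_apply_apply]
  rfl

lemma GoodSide.perm {E : ℕ} {ε : ℝ} {p : Cfg} {s : Equiv.Perm (Fin 3)} {k : Fin 3}
    {A : Fin 3 → ℕ → Bool} {T : ℕ → Bool} {thr : ℝ}
    (h : GoodSide E ε (p.perm s) k A T thr) :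
    GoodSide E ε p (s k) (fun l => A (s.symm l)) T thr := by
  intro g hg
  obtain ⟨t, ht, hc⟩ := h (g.perm s) hg.perm
  exact ⟨t.perm s, YT.ok_perm ht s, by rw [YT.cost_perm]; exact hc⟩

lemma GoodBil.perm {E : ℕ} {ε : ℝ} {p : Cfg} {s : Equiv.Perm (Fin 3)} {thr : ℝ}
    (h : GoodBil E ε (p.perm s) thr) : GoodBil E ε p thr := by
  obtain ⟨k, U, T, m, hm, h1, h2, h3⟩ := h
  refine ⟨s k, fun l => U (s.symm l), T, m, hm, ?_, ?_, h3.perm⟩
  · rw [sum_ne_perm]
    simp only [Equiv.symm_apply_apply]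
    exact h1
  · exact h2.perm (A := fun l b => !(U l b))

lemma exists_sort (r : Fin 3 → ℝ) :
    ∃ s : Equiv.Perm (Fin 3), r (s 1) ≤ r (s 0) ∧ r (s 2) ≤ r (s 1) := by
  refine ⟨Tuple.sort (fun l => -r l), ?_, ?_⟩
  · have := Tuple.monotone_sort (fun l => -r l) (show (0 : Fin 3) ≤ 1 by decide)
    simpa using this
  · have := Tuple.monotone_sort (fun l => -r l) (show (1 : Fin 3) ≤ 2 by decide)
    simpa using this

theorem cert_of_sorted (E : ℕ) (θ : ℝ) (h : CertSorted E θ) : Cert E θ := by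
  obtain ⟨ε₀, hε₀, H⟩ := h
  refine ⟨ε₀, hε₀, fun ε hε hle p hp => ?_⟩
  obtain ⟨s, hs1, hs2⟩ := exists_sort (fun l => p.rad E l)
  rcases H ε hε hle (p.perm s) (hp.perm s) hs1 hs2 with ⟨t, ht, hc⟩ | hB
  · exact Or.inl ⟨t.perm s, BT.ok_perm ht s, by rw [BT.cost_perm]; exact hc⟩
  · exact Or.inr hB.perm

end Pool.Agent.Lib.MP_4d5ce1_nt
end
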