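import Pool.Agent.Lib.MP_4d5ce1_nt.BDefs

section

set_option autoImplicit false
set_option linter.unusedSectionVars false

namespace Pool.Agent.Lib.MP_4d5ce1_nt

/-- The block of an exponent. -/
def blk (E e : ℕ) : ℕ := min e E - 1

lemma blk_lt {E e : ℕ} (hE : 2 ≤ E) : blk E e < E := by unfold blk; omega

lemma blk_mem {E e : ℕ} (hE : 2 ≤ E) : blk E e ∈ Finset.range E :=
  Finset.mem_range.mpr (blk_lt hE)

lemma blk_eq_of_lt {E e : ℕ} (he : 1 ≤ e) (h : blk E e + 1 ≠ E) (hE : 2 ≤ E) :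
    e = blk E e + 1 := by unfold blk at *; omega

lemma le_of_blk_last {E e : ℕ} (he : 1 ≤ e) (h : blk E e + 1 = E) : E ≤ e := by
  unfold blk at *; omega

section abs

variable {ι : Type*}

/-- Sum of `f` over the elements of label `l` in block `b`. -/
noncomputable def bs (E : ℕ) (P : Finset ι) (lab : ι → Fin 3) (e : ι → ℕ) (f : ι → ℝ)
    (l : Fin 3) (b : ℕ) : ℝ :=
  ∑ v ∈ P.filter (fun v => lab v = l ∧ blk E (e v) = b), f v

lemma sum_blocks {E : ℕ} (hE : 2 ≤ E) (P : Finset ι) (lab : ι → Fin 3) (e : ι → ℕ) (f : ι → ℝ)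
    (c : Fin 3 → ℕ → Prop) [∀ l b, Decidable (c l b)] :
    ∑ v ∈ P.filter (fun v => c (lab v) (blk E (e v))), f v =
      ∑ l, ∑ b ∈ Finset.range E, if c l b then bs E P lab e f l b else 0 := by
  have h1 : ∀ l, ∀ b ∈ Finset.range E, (if c l b then bs E P lab e f l b else 0) =
      ∑ v ∈ P, (if lab v = l then (if blk E (e v) = b then (if c l b then f v else 0) else 0)
        else 0) := by
    intro l b _
    unfold bs
    rw [Finset.sum_filter]
    split_ifs with h
    · refine Finset.sum_congr rfl fun v _ => ?_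
      split_ifs with h1 h2 h3 h4 <;> tauto
    · symm
      apply Finset.sum_eq_zero
      intro v _
      simp
  rw [Finset.sum_congr rfl fun l _ => Finset.sum_congr rfl fun b hb => h1 l b hb]
  have h2 : ∀ l : Fin 3, ∑ b ∈ Finset.range E, ∑ v ∈ P, (if lab v = l then
      (if blk E (e v) = b then (if c l b then f v else 0) else 0) else 0) =
      ∑ v ∈ P, if lab v = l then (if c l (blk E (e v)) then f v else 0) else 0 := by
    intro l
    rw [Finset.sum_comm]
    refine Finset.sum_congr rfl fun v _ => ?_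
    by_cases hl : lab v = l
    · simp only [hl, if_true]
      rw [Finset.sum_ite_eq, if_pos (blk_mem hE)]
    · simp [hl]
  rw [Finset.sum_congr rfl fun l _ => h2 l, Finset.sum_comm, Finset.sum_filter]
  refine Finset.sum_congr rfl fun v _ => ?_
  rw [Finset.sum_ite_eq, if_pos (Finset.mem_univ _)]

lemma sum_ne_add (k : Fin 3) (f : Fin 3 → ℝ) :
    ∑ l, f l = ∑ l ∈ Finset.univ.filter (fun l => l ≠ k), f l + f k := by
  rw [← Finset.sum_filter_add_sum_filter_not Finset.univ (fun l => l ≠ k) f]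
  congr 1
  have : Finset.univ.filter (fun l => ¬ l ≠ k) = {k} := by
    ext l; simp
  rw [this, Finset.sum_singleton]

/-- Blocks of the forms `≠ k`. -/
lemma sum_blocks_ne {E : ℕ} (hE : 2 ≤ E) (P : Finset ι) (lab : ι → Fin 3) (e : ι → ℕ)
    (f : ι → ℝ) (k : Fin 3) (c : Fin 3 → ℕ → Prop) [∀ l b, Decidable (c l b)] :
    ∑ v ∈ P.filter (fun v => lab v ≠ k ∧ c (lab v) (blk E (e v))), f v =
      ∑ l ∈ Finset.univ.filter (fun l => l ≠ k), ∑ b ∈ Finset.range E,
        if c l b then bs E P lab e f l b else 0 := by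
  rw [sum_blocks hE P lab e f (fun l b => l ≠ k ∧ c l b), sum_ne_add k]
  have : ∑ b ∈ Finset.range E, (if k ≠ k ∧ c k b then bs E P lab e f k b else 0) = 0 := by
    apply Finset.sum_eq_zero
    intro b _
    simp
  rw [this, add_zero]
  refine Finset.sum_congr rfl fun l hl => Finset.sum_congr rfl fun b _ => ?_
  have hl' := (Finset.mem_filter.mp hl).2
  simp [hl']

/-- Blocks of the form `k`. -/
lemma sum_blocks_eq {E : ℕ} (hE : 2 ≤ E) (P : Finset ι) (lab : ι → Fin 3) (e : ι → ℕ)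
    (f : ι → ℝ) (k : Fin 3) (c : ℕ → Prop) [∀ b, Decidable (c b)] :
    ∑ v ∈ P.filter (fun v => lab v = k ∧ c (blk E (e v))), f v =
      ∑ b ∈ Finset.range E, if c b then bs E P lab e f k b else 0 := by
  rw [sum_blocks hE P lab e f (fun l b => l = k ∧ c b), sum_ne_add k]
  have : ∑ l ∈ Finset.univ.filter (fun l => l ≠ k), ∑ b ∈ Finset.range E,
      (if l = k ∧ c b then bs E P lab e f l b else 0) = 0 := by
    apply Finset.sum_eq_zero
    intro l hl
    have hl' := (Finset.mem_filter.mp hl).2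
    apply Finset.sum_eq_zero
    intro b _
    simp [hl']
  rw [this, zero_add]
  refine Finset.sum_congr rfl fun b _ => ?_
  simp

/-- The configuration of a labelled finite set at scale `r`. -/
noncomputable def cf (E : ℕ) (r : ℝ) (P : Finset ι) (lab : ι → Fin 3) (e : ι → ℕ) (w : ι → ℝ)
    (I : Fin 3 → ℝ) : Cfg where
  S := fun l b => bs E P lab e w l b / r
  J := fun l => (bs E P lab e (fun v => (e v : ℝ) * w v) l (E - 1) + I l) / r

lemma bs_nonneg (E : ℕ) (P : Finset ι) (lab : ι → Fin 3) (e : ι → ℕ) (f : ι → ℝ)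
    (hf : ∀ v ∈ P, 0 ≤ f v) (l : Fin 3) (b : ℕ) : 0 ≤ bs E P lab e f l b :=
  Finset.sum_nonneg fun v hv => hf v (Finset.mem_filter.mp hv).1

lemma bs_exp {E : ℕ} (hE : 2 ≤ E) (P : Finset ι) (lab : ι → Fin 3) (e : ι → ℕ) (w : ι → ℝ)
    (he : ∀ v ∈ P, 1 ≤ e v) (l : Fin 3) (b : ℕ) (hb : b + 1 ≠ E) :
    bs E P lab e (fun v => (e v : ℝ) * w v) l b = ((b : ℝ) + 1) * bs E P lab e w l b := by
  unfold bs
  rw [Finset.mul_sum]
  refine Finset.sum_congr rfl fun v hv => ?_
  obtain ⟨hv, _, h2⟩ := Finset.mem_filter.mp hv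
  have h3 := blk_eq_of_lt (he v hv) (by rw [h2]; exact hb) hE
  rw [h2] at h3
  simp only [h3]
  push_cast
  ring

lemma cf_S (E : ℕ) {r : ℝ} (hr : 0 < r) (P : Finset ι) (lab : ι → Fin 3) (e : ι → ℕ) (w : ι → ℝ)
    (I : Fin 3 → ℝ) (l : Fin 3) (b : ℕ) :
    r * (cf E r P lab e w I).S l b = bs E P lab e w l b := by
  simp only [cf]
  field_simp

lemma cf_I {E : ℕ} (hE : 2 ≤ E) {r : ℝ} (hr : 0 < r) (P : Finset ι) (lab : ι → Fin 3)
    (e : ι → ℕ) (w : ι → ℝ) (he : ∀ v ∈ P, 1 ≤ e v) (I : Fin 3 → ℝ) (l : Fin 3) (b : ℕ) :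
    r * (cf E r P lab e w I).I E l b = bs E P lab e (fun v => (e v : ℝ) * w v) l b +
      (if b + 1 = E then I l else 0) := by
  unfold Cfg.I
  split_ifs with h
  · have : b = E - 1 := by omega
    subst this
    simp only [cf]
    field_simp
  · rw [bs_exp hE P lab e w he l b h]
    simp only [cf]
    field_simp
    ring

lemma sum_last_le {E : ℕ} (hE : 2 ≤ E) (T : ℕ → Bool) (I : ℝ) (hI : 0 ≤ I) :
    ∑ b ∈ Finset.range E, (if T b then (if b + 1 = E then I else 0) else 0) ≤ I := by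
  calc ∑ b ∈ Finset.range E, (if T b then (if b + 1 = E then I else 0) else 0)
      ≤ ∑ b ∈ Finset.range E, (if b = E - 1 then I else 0) := by
        refine Finset.sum_le_sum fun b hb => ?_
        have hb := Finset.mem_range.mp hb
        split_ifs <;> first | omega | linarith
    _ ≤ I := by
        rw [Finset.sum_ite_eq']
        split_ifs <;> linarith

lemma max_zero_mul {r a b : ℝ} (hr : 0 < r) (h : a ≤ r * b) : max 0 a ≤ r * max 0 b := by
  apply max_le
  · exact mul_nonneg hr.le (le_max_left _ _)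
  · exact h.trans (mul_le_mul_of_nonneg_left (le_max_right _ _) hr.le)

lemma ne_iff_or {i j k : Fin 3} (hij : i ≠ j) (hik : i ≠ k) (hjk : j ≠ k) (l : Fin 3) :
    (l = i ∨ l = j) ↔ l ≠ k := by
  revert i j k l; decide

lemma ne_and_iff {i j k : Fin 3} (hij : i ≠ j) (hik : i ≠ k) (hjk : j ≠ k) (l : Fin 3) :
    (l ≠ i ∧ l ≠ j) ↔ l = k := by
  revert i j k l; decide

/-- The set of primes given away by a basic tool. -/
def btW (E : ℕ) (P : Finset ι) (lab : ι → Fin 3) (e : ι → ℕ) (t : BT) : Finset ι :=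
  P.filter (fun v => (lab v ≠ t.k ∧ t.A (lab v) (blk E (e v)) = false) ∨
    (lab v = t.k ∧ t.T (blk E (e v)) = true))

lemma bt_dvd {E : ℕ} (hE : 2 ≤ E) (P : Finset ι) (lab : ι → Fin 3) (e : ι → ℕ)
    (he : ∀ v ∈ P, 1 ≤ e v) (t : BT) (ht : t.ok E) {i j : Fin 3} (hij : i ≠ j) (hik : i ≠ t.k)
    (hjk : j ≠ t.k) :
    ∀ v ∈ P, v ∉ btW E P lab e t → (lab v = i ∨ lab v = j) → t.n ∣ e v := by
  intro v hv hW hl
  have hlk := (ne_iff_or hij hik hjk _).mp hl
  have hA : t.A (lab v) (blk E (e v)) = true := by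
    by_contra h
    apply hW
    unfold btW
    rw [Finset.mem_filter]
    exact ⟨hv, Or.inl ⟨hlk, by simpa using h⟩⟩
  have h1 := ht.2.2 (lab v) hlk _ (blk_mem hE) hA
  split_ifs at h1 with h2
  · rw [h1]; exact one_dvd _
  · rw [← blk_eq_of_lt (he v hv) h2 hE] at h1
    exact h1

lemma bt_cost {E : ℕ} (hE : 2 ≤ E) {r : ℝ} (hr : 0 < r) (P : Finset ι) (lab : ι → Fin 3)
    (e : ι → ℕ) (w : ι → ℝ) (he : ∀ v ∈ P, 1 ≤ e v) (I : Fin 3 → ℝ)
    (hI : ∀ l, 0 ≤ I l) (t : BT) (ht : t.ok E) {i j : Fin 3} (hij : i ≠ j) (hik : i ≠ t.k)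
    (hjk : j ≠ t.k) :
    toolCost P lab e w I t.n i j (btW E P lab e t) ≤ r * t.cost E (cf E r P lab e w I) := by
  classical
  have hn : (0:ℝ) < t.n := by exact_mod_cast ht.1
  unfold toolCost BT.cost
  rw [mul_add, mul_add]
  have hc : ∀ (s : Finset (Fin 3)) (c : Fin 3 → ℕ → Bool) (f : Fin 3 → ℕ → ℝ),
      r * ∑ l ∈ s, ∑ b ∈ Finset.range E, (if c l b then f l b else 0) =
      ∑ l ∈ s, ∑ b ∈ Finset.range E, (if c l b then r * f l b else 0) := by
    intro s c f
    rw [Finset.mul_sum]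
    refine Finset.sum_congr rfl fun l _ => ?_
    rw [Finset.mul_sum]
    refine Finset.sum_congr rfl fun b _ => ?_
    split_ifs <;> simp
  have h1 : ∑ v ∈ btW E P lab e t, w v =
      r * (∑ l ∈ Finset.univ.filter (fun l => l ≠ t.k), ∑ b ∈ Finset.range E,
        (if t.A l b then 0 else (cf E r P lab e w I).S l b)) +
      r * (∑ b ∈ Finset.range E, (if t.T b then (cf E r P lab e w I).S t.k b else 0)) := by
    unfold btW
    rw [Finset.filter_or, Finset.sum_union]
    · rw [sum_blocks_ne hE P lab e w t.k (fun l b => t.A l b = false),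
        sum_blocks_eq hE P lab e w t.k (fun b => t.T b = true)]
      congr 1
      · rw [Finset.mul_sum]
        refine Finset.sum_congr rfl fun l _ => ?_
        rw [Finset.mul_sum]
        refine Finset.sum_congr rfl fun b _ => ?_
        by_cases hA : t.A l b
        · simp [hA]
        · simp only [hA, if_true, Bool.false_eq_true, if_false]
          rw [cf_S E hr]
      · rw [Finset.mul_sum]
        refine Finset.sum_congr rfl fun b _ => ?_
        split_ifs
        · rw [cf_S E hr]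
        · simp
    · rw [Finset.disjoint_filter]
      rintro v _ ⟨h, _⟩ ⟨h', _⟩
      exact h h'
  rw [h1]
  have h2 : ∑ v ∈ P.filter (fun v => v ∉ btW E P lab e t ∧ (lab v = i ∨ lab v = j)),
      (e v : ℝ) * w v = ∑ l ∈ Finset.univ.filter (fun l => l ≠ t.k), ∑ b ∈ Finset.range E,
        (if t.A l b then bs E P lab e (fun v => (e v : ℝ) * w v) l b else 0) := by
    rw [← sum_blocks_ne hE P lab e (fun v => (e v : ℝ) * w v) t.k (fun l b => t.A l b = true)]
    refine Finset.sum_congr ?_ fun _ _ => rfl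
    ext v
    simp only [Finset.mem_filter, ne_iff_or hij hik hjk, btW]
    constructor
    · rintro ⟨hv, h3, h4⟩
      refine ⟨hv, h4, ?_⟩
      by_contra h5
      exact h3 ⟨hv, Or.inl ⟨h4, by simpa using h5⟩⟩
    · rintro ⟨hv, h3, h4⟩
      refine ⟨hv, ?_, h3⟩
      rintro ⟨_, ⟨_, h5⟩ | ⟨h5, _⟩⟩
      · rw [h4] at h5; exact absurd h5 (by simp)
      · exact h3 h5
  have h3 : ∑ v ∈ (btW E P lab e t).filter (fun v => lab v ≠ i ∧ lab v ≠ j),
      (e v : ℝ) * w v = ∑ b ∈ Finset.range E,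
        (if t.T b then bs E P lab e (fun v => (e v : ℝ) * w v) t.k b else 0) := by
    rw [← sum_blocks_eq hE P lab e (fun v => (e v : ℝ) * w v) t.k (fun b => t.T b = true)]
    refine Finset.sum_congr ?_ fun _ _ => rfl
    ext v
    simp only [Finset.mem_filter, ne_and_iff hij hik hjk, btW]
    constructor
    · rintro ⟨⟨hv, ⟨h4, _⟩ | ⟨h4, h5⟩⟩, h6⟩
      · exact absurd h6 h4
      · exact ⟨hv, h4, h5⟩
    · rintro ⟨hv, h4, h5⟩
      exact ⟨⟨hv, Or.inr ⟨h4, h5⟩⟩, h4⟩
  have h4 : ∑ l ∈ Finset.univ.filter (fun l => l ≠ i ∧ l ≠ j), I l = I t.k := by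
    have : Finset.univ.filter (fun l => l ≠ i ∧ l ≠ j) = {t.k} := by
      ext l
      simp only [Finset.mem_filter, Finset.mem_univ, true_and, Finset.mem_singleton,
        ne_and_iff hij hik hjk]
    rw [this, Finset.sum_singleton]
  rw [h4]
  apply add_le_add le_rfl
  apply max_zero_mul hr
  have h5 : ∑ l ∈ Finset.univ.filter (fun l => l ≠ t.k), ∑ b ∈ Finset.range E,
        (if t.A l b then bs E P lab e (fun v => (e v : ℝ) * w v) l b else 0) ≤
      r * ∑ l ∈ Finset.univ.filter (fun l => l ≠ t.k), ∑ b ∈ Finset.range E,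
      (if t.A l b then (cf E r P lab e w I).I E l b else 0) := by
    rw [hc]
    refine Finset.sum_le_sum fun l _ => Finset.sum_le_sum fun b _ => ?_
    split_ifs
    · rw [cf_I hE hr P lab e w he]
      have := hI l
      split_ifs <;> linarith
    · exact le_rfl
  have h6 : r * ∑ b ∈ Finset.range E, (if t.T b then (cf E r P lab e w I).I E t.k b else 0) ≤
      ∑ b ∈ Finset.range E,
        (if t.T b then bs E P lab e (fun v => (e v : ℝ) * w v) t.k b else 0) + I t.k := by
    have h7 := sum_last_le hE t.T (I t.k) (hI t.k)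
    have h8 : r * ∑ b ∈ Finset.range E, (if t.T b then (cf E r P lab e w I).I E t.k b else 0) =
      ∑ b ∈ Finset.range E,
        (if t.T b then bs E P lab e (fun v => (e v : ℝ) * w v) t.k b else 0) +
      ∑ b ∈ Finset.range E, (if t.T b then (if b + 1 = E then I t.k else 0) else 0) := by
      rw [Finset.mul_sum, ← Finset.sum_add_distrib]
      refine Finset.sum_congr rfl fun b _ => ?_
      split_ifs with h9 h10
      · rw [cf_I hE hr P lab e w he, if_pos h10]
      · rw [cf_I hE hr P lab e w he, if_neg h10]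
      · simp
    linarith
  have h7 : (∑ v ∈ P.filter (fun v => v ∉ btW E P lab e t ∧ (lab v = i ∨ lab v = j)),
      (e v : ℝ) * w v) / (t.n : ℝ) ≤ (r * ∑ l ∈ Finset.univ.filter (fun l => l ≠ t.k),
      ∑ b ∈ Finset.range E, (if t.A l b then (cf E r P lab e w I).I E l b else 0)) / t.n := by
    apply div_le_div_of_nonneg_right _ hn.le
    rw [h2]; exact h5
  rw [mul_sub, ← mul_div_assoc]
  have h8 : ∑ v ∈ (btW E P lab e t).filter (fun v => lab v ≠ i ∧ lab v ≠ j),
      (e v : ℝ) * w v + I t.k ≥ r * ∑ b ∈ Finset.range E,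
        (if t.T b then (cf E r P lab e w I).I E t.k b else 0) := by
    rw [h3]; exact h6
  linarith

end abs

/-! ### Lipschitz bounds -/

/-- Two configurations are close. -/
def Close (E : ℕ) (δ : ℝ) (p q : Cfg) : Prop :=
  (∀ l, ∀ b ∈ Finset.range E, |p.S l b - q.S l b| ≤ δ) ∧ ∀ l, |p.J l - q.J l| ≤ δ

lemma Close.I_le {E : ℕ} (hE : 2 ≤ E) {δ : ℝ} (hδ : 0 ≤ δ) {p q : Cfg} (h : Close E δ p q)
    (l : Fin 3) (b : ℕ) (hb : b ∈ Finset.range E) : |p.I E l b - q.I E l b| ≤ E * δ := by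
  have hE' : (2:ℝ) ≤ E := by exact_mod_cast hE
  unfold Cfg.I
  split_ifs with h1
  · have := h.2 l
    nlinarith
  · have h2 := h.1 l b hb
    rw [← mul_sub, abs_mul, abs_of_nonneg (by positivity)]
    have h3 : (b:ℝ) + 1 ≤ E := by
      have := Finset.mem_range.mp hb
      exact_mod_cast this
    have h4 := abs_nonneg (p.S l b - q.S l b)
    have h5 : (0:ℝ) ≤ b := Nat.cast_nonneg _
    nlinarith

lemma sumE_le {E : ℕ} {f g : ℕ → ℝ} {x : ℝ} (h : ∀ b ∈ Finset.range E, f b ≤ g b + x) :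
    ∑ b ∈ Finset.range E, f b ≤ ∑ b ∈ Finset.range E, g b + E * x := by
  calc ∑ b ∈ Finset.range E, f b ≤ ∑ b ∈ Finset.range E, (g b + x) := Finset.sum_le_sum h
    _ = _ := by rw [Finset.sum_add_distrib]; simp

lemma sum3_le {s : Finset (Fin 3)} {f g : Fin 3 → ℝ} {x : ℝ} (hx : 0 ≤ x)
    (h : ∀ l ∈ s, f l ≤ g l + x) :
    ∑ l ∈ s, f l ≤ ∑ l ∈ s, g l + 3 * x := by
  calc ∑ l ∈ s, f l ≤ ∑ l ∈ s, (g l + x) := Finset.sum_le_sum h
    _ = ∑ l ∈ s, g l + s.card * x := by rw [Finset.sum_add_distrib]; simp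
    _ ≤ _ := by
      have h1 : s.card ≤ 3 := by
        have := Finset.card_le_univ s
        simpa using this
      have h2 : (s.card : ℝ) ≤ 3 := by exact_mod_cast h1
      have := mul_le_mul_of_nonneg_right h2 hx
      linarith

lemma sum3E_le {E : ℕ} {s : Finset (Fin 3)} {f g : Fin 3 → ℕ → ℝ} {x : ℝ} (hx : 0 ≤ x)
    (h : ∀ l ∈ s, ∀ b ∈ Finset.range E, f l b ≤ g l b + x) :
    ∑ l ∈ s, ∑ b ∈ Finset.range E, f l b ≤ ∑ l ∈ s, ∑ b ∈ Finset.range E, g l b + 3 * (E * x) :=
  sum3_le (by positivity) fun l hl => sumE_le (h l hl)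

lemma max_zero_add {a b c : ℝ} (hc : 0 ≤ c) (h : a ≤ b + c) : max 0 a ≤ max 0 b + c := by
  apply max_le
  · have := le_max_left 0 b; linarith
  · have := le_max_right 0 b; linarith

lemma bt_lip {E : ℕ} (hE : 2 ≤ E) {δ : ℝ} (hδ : 0 ≤ δ) {p q : Cfg} (h : Close E δ p q) (t : BT)
    (ht : t.ok E) : t.cost E p ≤ t.cost E q + 6 * E ^ 2 * δ := by
  have hE' : (2:ℝ) ≤ E := by exact_mod_cast hE
  have hn : (1:ℝ) ≤ t.n := by exact_mod_cast ht.1
  unfold BT.cost
  have h1 : ∑ l ∈ Finset.univ.filter (fun l => l ≠ t.k), ∑ b ∈ Finset.range E,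
      (if t.A l b then 0 else p.S l b) ≤ ∑ l ∈ Finset.univ.filter (fun l => l ≠ t.k),
      ∑ b ∈ Finset.range E, (if t.A l b then 0 else q.S l b) + 3 * (E * δ) := by
    apply sum3E_le hδ
    intro l _ b hb
    have := (abs_le.mp (h.1 l b hb)).2
    split_ifs <;> linarith
  have h2 : ∑ b ∈ Finset.range E, (if t.T b then p.S t.k b else 0) ≤
      ∑ b ∈ Finset.range E, (if t.T b then q.S t.k b else 0) + E * δ := by
    apply sumE_le
    intro b hb
    have := (abs_le.mp (h.1 t.k b hb)).2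
    split_ifs <;> linarith
  have h3 : ∑ l ∈ Finset.univ.filter (fun l => l ≠ t.k), ∑ b ∈ Finset.range E,
      (if t.A l b then p.I E l b else 0) ≤ ∑ l ∈ Finset.univ.filter (fun l => l ≠ t.k),
      ∑ b ∈ Finset.range E, (if t.A l b then q.I E l b else 0) + 3 * (E * (E * δ)) := by
    apply sum3E_le (by positivity)
    intro l _ b hb
    have := (abs_le.mp (h.I_le hE hδ l b hb)).2
    have h4 : 0 ≤ (E:ℝ) * δ := by positivity
    split_ifs <;> linarith
  have h4 : ∑ b ∈ Finset.range E, (if t.T b then q.I E t.k b else 0) ≤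
      ∑ b ∈ Finset.range E, (if t.T b then p.I E t.k b else 0) + E * (E * δ) := by
    apply sumE_le
    intro b hb
    have := (abs_le.mp (h.I_le hE hδ t.k b hb)).1
    have h4 : 0 ≤ (E:ℝ) * δ := by positivity
    split_ifs <;> linarith
  have h5 : max 0 ((∑ l ∈ Finset.univ.filter (fun l => l ≠ t.k), ∑ b ∈ Finset.range E,
      (if t.A l b then p.I E l b else 0)) / (t.n : ℝ) -
      ∑ b ∈ Finset.range E, (if t.T b then p.I E t.k b else 0)) ≤
      max 0 ((∑ l ∈ Finset.univ.filter (fun l => l ≠ t.k), ∑ b ∈ Finset.range E,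
      (if t.A l b then q.I E l b else 0)) / (t.n : ℝ) -
      ∑ b ∈ Finset.range E, (if t.T b then q.I E t.k b else 0)) + 4 * (E * (E * δ)) := by
    apply max_zero_add (by positivity)
    have h6 : (∑ l ∈ Finset.univ.filter (fun l => l ≠ t.k), ∑ b ∈ Finset.range E,
      (if t.A l b then p.I E l b else 0)) / (t.n : ℝ) ≤
      (∑ l ∈ Finset.univ.filter (fun l => l ≠ t.k),
      ∑ b ∈ Finset.range E, (if t.A l b then q.I E l b else 0)) / t.n + 3 * (E * (E * δ)) := by
      refine (div_le_div_of_nonneg_right h3 (by linarith)).trans ?_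
      rw [add_div]
      have : 3 * ((E:ℝ) * (E * δ)) / t.n ≤ 3 * (E * (E * δ)) :=
        div_le_self (by positivity) hn
      linarith
    linarith
  have h6 : (E:ℝ) * δ * 2 ≤ E * (E * δ) := by
    have : 0 ≤ (E:ℝ) * δ := by positivity
    nlinarith
  have h7 : 6 * (E:ℝ) ^ 2 * δ = 6 * (E * (E * δ)) := by ring
  rw [h7]
  linarith

end Pool.Agent.Lib.MP_4d5ce1_nt
end

section

set_option autoImplicit false
set_option linter.unusedSectionVars false

namespace Pool.Agent.Lib.MP_4d5ce1_nt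

/-- The part of the blocks `A` of the forms `≠ k` outside `G`. -/
def ax {ι : Type*} [DecidableEq ι] (E : ℕ) (k : Fin 3) (A : Fin 3 → ℕ → Bool) (P : Finset ι)
    (lab : ι → Fin 3) (e : ι → ℕ) (G : Finset ι) : Finset ι :=
  (P.filter (fun v => lab v ≠ k ∧ A (lab v) (blk E (e v)) = true)) \ G

/-- The hypotheses for a pair. -/
structure PD {ι : Type*} [DecidableEq ι] (E : ℕ) (k i j : Fin 3) (A : Fin 3 → ℕ → Bool)
    (T : ℕ → Bool) (w : ι → ℝ) (P P' : Finset ι) (lab lab' : ι → Fin 3) (e e' : ι → ℕ)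
    (I I' : Fin 3 → ℝ) (G Tx : Finset ι) (Q : Finset ι) (lq : ι → Fin 3) (eq : ι → ℕ)
    (Iy : Fin 3 → ℝ) (C : ℝ) : Prop where
  hE : 2 ≤ E
  hij : i ≠ j
  hik : i ≠ k
  hjk : j ≠ k
  hw : ∀ v, 0 ≤ w v
  he : ∀ v ∈ P, 1 ≤ e v
  he' : ∀ v ∈ P', 1 ≤ e' v
  hI : ∀ l, 0 ≤ I l
  hI' : ∀ l, 0 ≤ I' l
  hG : ∀ v ∈ G, v ∈ P ∧ v ∈ P' ∧ lab v ≠ k ∧ A (lab v) (blk E (e v)) = true ∧
    lab' v = lab v ∧ e' v = e v
  hTx : Tx = P.filter (fun v => lab v = k ∧ T (blk E (e v)) = true)
  hdvd : ∀ v ∈ Q, (lq v = 0 ∨ lq v = 1) → ∀ n : ℕ, (v ∈ ax E k A P lab e G → n ∣ e v) →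
    (v ∈ ax E k A P' lab' e' G → n ∣ e' v) → n ∣ eq v
  hle : ∀ v ∈ Q, (lq v = 0 ∨ lq v = 1) → (eq v : ℝ) ≤
    (if v ∈ ax E k A P lab e G then (e v : ℝ) else 0) +
    (if v ∈ ax E k A P' lab' e' G then (e' v : ℝ) else 0)
  hT : ∀ v ∈ Tx, v ∈ Q ∧ lq v = 2 ∧ e v ≤ eq v
  hIy : I k ≤ Iy 2 + C
  hC : 0 ≤ C
  hH : ∑ v ∈ Tx, (e v : ℝ) * w v + I k ≤
    ∑ v ∈ (ax E k A P lab e G).filter (fun v => lab v = i), (e v : ℝ) * w v +
    ∑ v ∈ (ax E k A P' lab' e' G).filter (fun v => lab' v = j), (e' v : ℝ) * w v + C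

section

variable {ι : Type*} [DecidableEq ι] {E : ℕ} {k i j : Fin 3} {A : Fin 3 → ℕ → Bool}
  {T : ℕ → Bool} {w : ι → ℝ} {P P' : Finset ι} {lab lab' : ι → Fin 3} {e e' : ι → ℕ}
  {I I' : Fin 3 → ℝ} {G Tx : Finset ι} {Q : Finset ι} {lq : ι → Fin 3} {eq : ι → ℕ}
  {Iy : Fin 3 → ℝ} {C : ℝ}

lemma bs_ax (f : ι → ℝ) (hG : ∀ v ∈ G, v ∈ P ∧ lab v ≠ k ∧ A (lab v) (blk E (e v)) = true)
    {l : Fin 3} (hl : l ≠ k) {b : ℕ} (hA : A l b = true) :
    bs E (ax E k A P lab e G) lab e f l b = bs E P lab e f l b - bs E G lab e f l b := by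
  unfold bs ax
  rw [eq_sub_iff_add_eq, ← Finset.sum_union]
  · refine Finset.sum_congr ?_ fun _ _ => rfl
    ext v
    simp only [Finset.mem_union, Finset.mem_filter, Finset.mem_sdiff]
    constructor
    · rintro (⟨⟨⟨hv, _⟩, _⟩, h⟩ | ⟨hv, h⟩)
      · exact ⟨hv, h⟩
      · exact ⟨(hG v hv).1, h⟩
    · rintro ⟨hv, h1, h2⟩
      by_cases hvG : v ∈ G
      · exact Or.inr ⟨hvG, h1, h2⟩
      · refine Or.inl ⟨⟨⟨hv, ?_, ?_⟩, hvG⟩, h1, h2⟩
        · rw [h1]; exact hl
        · rw [h1, h2]; exact hA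
  · rw [Finset.disjoint_left]
    intro v hv hv'
    exact (Finset.mem_sdiff.mp (Finset.mem_filter.mp hv).1).2 (Finset.mem_filter.mp hv').1

lemma bs_congr (f g : ι → ℝ) (h : ∀ v ∈ G, lab' v = lab v ∧ e' v = e v ∧ f v = g v)
    (l : Fin 3) (b : ℕ) : bs E G lab' e' f l b = bs E G lab e g l b := by
  unfold bs
  refine Finset.sum_congr ?_ fun v hv => (h v (Finset.mem_filter.mp hv).1).2.2
  ext v
  simp only [Finset.mem_filter]
  constructor
  · rintro ⟨hv, h1, h2⟩
    obtain ⟨h3, h4, _⟩ := h v hv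
    rw [← h3, ← h4]
    exact ⟨hv, h1, h2⟩
  · rintro ⟨hv, h1, h2⟩
    obtain ⟨h3, h4, _⟩ := h v hv
    rw [h3, h4]
    exact ⟨hv, h1, h2⟩

lemma mem_ax {v : ι} : v ∈ ax E k A P lab e G ↔
    (v ∈ P ∧ lab v ≠ k ∧ A (lab v) (blk E (e v)) = true) ∧ v ∉ G := by
  unfold ax
  rw [Finset.mem_sdiff, Finset.mem_filter]

/-- Sums over a subset of `ax`. -/
lemma sum_ax (hE : 2 ≤ E) (f : ι → ℝ)
    (hG : ∀ v ∈ G, v ∈ P ∧ lab v ≠ k ∧ A (lab v) (blk E (e v)) = true)
    (c : Fin 3 → ℕ → Prop) [∀ l b, Decidable (c l b)] :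
    ∑ v ∈ (ax E k A P lab e G).filter (fun v => c (lab v) (blk E (e v))), f v =
      ∑ l ∈ Finset.univ.filter (fun l => l ≠ k), ∑ b ∈ Finset.range E,
        if A l b then (if c l b then bs E P lab e f l b - bs E G lab e f l b else 0) else 0 := by
  have h1 : (ax E k A P lab e G).filter (fun v => c (lab v) (blk E (e v))) =
      (ax E k A P lab e G).filter (fun v => lab v ≠ k ∧
        (A (lab v) (blk E (e v)) = true ∧ c (lab v) (blk E (e v)))) := by
    ext v
    simp only [Finset.mem_filter]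
    constructor
    · rintro ⟨hv, h⟩
      have := mem_ax.mp hv
      exact ⟨hv, this.1.2.1, this.1.2.2, h⟩
    · rintro ⟨hv, _, _, h⟩
      exact ⟨hv, h⟩
  rw [h1, sum_blocks_ne hE _ lab e f k (fun l b => A l b = true ∧ c l b)]
  refine Finset.sum_congr rfl fun l hl => Finset.sum_congr rfl fun b _ => ?_
  have hl' := (Finset.mem_filter.mp hl).2
  by_cases hA : A l b = true
  · by_cases hc : c l b
    · rw [if_pos ⟨hA, hc⟩, if_pos hA, if_pos hc, bs_ax f hG hl' hA]
    · rw [if_neg (fun h => hc h.2), if_pos hA, if_neg hc]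
  · rw [if_neg (fun h => hA h.1), if_neg hA]

/-- The tool. -/
def ytW (E : ℕ) (k : Fin 3) (A : Fin 3 → ℕ → Bool) (P P' : Finset ι) (lab lab' : ι → Fin 3)
    (e e' : ι → ℕ) (G Tx Q : Finset ι) (t : YT) : Finset ι :=
  Q.filter (fun v => (v ∈ ax E k A P lab e G ∧ t.out (lab v) (blk E (e v)) ≤ 1) ∨
    (v ∈ ax E k A P' lab' e' G ∧ t.out (lab' v) (blk E (e' v)) = 0) ∨
    (v ∈ Tx ∧ t.tp (blk E (e v)) = true))

lemma yt_dvd (h : PD E k i j A T w P P' lab lab' e e' I I' G Tx Q lq eq Iy C) (t : YT)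
    (ht : t.ok E k A T) :
    ∀ v ∈ Q, v ∉ ytW E k A P P' lab lab' e e' G Tx Q t → (lq v = 0 ∨ lq v = 1) →
      t.n ∣ eq v := by
  intro v hv hW hl
  apply h.hdvd v hv hl
  · intro hax
    have h1 := mem_ax.mp hax
    have h2 : 1 ≤ t.out (lab v) (blk E (e v)) := by
      by_contra h3
      apply hW
      unfold ytW
      rw [Finset.mem_filter]
      exact ⟨hv, Or.inl ⟨hax, by omega⟩⟩
    have h3 := (ht.2.2.1 (lab v) h1.1.2.1 _ (blk_mem h.hE) h1.1.2.2).2 h2
    split_ifs at h3 with h4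
    · rw [h3]; exact one_dvd _
    · rw [← blk_eq_of_lt (h.he v h1.1.1) h4 h.hE] at h3
      exact h3
  · intro hax
    have h1 := mem_ax.mp hax
    have h2 : 1 ≤ t.out (lab' v) (blk E (e' v)) := by
      by_contra h3
      apply hW
      unfold ytW
      rw [Finset.mem_filter]
      exact ⟨hv, Or.inr (Or.inl ⟨hax, by omega⟩)⟩
    have h3 := (ht.2.2.1 (lab' v) h1.1.2.1 _ (blk_mem h.hE) h1.1.2.2).2 h2
    split_ifs at h3 with h4
    · rw [h3]; exact one_dvd _
    · rw [← blk_eq_of_lt (h.he' v h1.1.1) h4 h.hE] at h3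
      exact h3

lemma sum_union_le' (s u : Finset ι) (f : ι → ℝ) (hf : ∀ v, 0 ≤ f v) :
    ∑ v ∈ s ∪ u, f v ≤ ∑ v ∈ s, f v + ∑ v ∈ u, f v := by
  have h1 := Finset.sum_union_inter (s₁ := s) (s₂ := u) (f := f)
  have h2 : 0 ≤ ∑ v ∈ s ∩ u, f v := Finset.sum_nonneg fun v _ => hf v
  linarith

/-- The cost of the tool in terms of the finite sets. -/
lemma yt_raw (h : PD E k i j A T w P P' lab lab' e e' I I' G Tx Q lq eq Iy C) (t : YT)
    (ht : t.ok E k A T) :
    toolCost Q lq eq w Iy t.n 0 1 (ytW E k A P P' lab lab' e e' G Tx Q t) ≤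
      ∑ v ∈ (ax E k A P lab e G).filter (fun v => t.out (lab v) (blk E (e v)) ≤ 1), w v +
      ∑ v ∈ (ax E k A P' lab' e' G).filter (fun v => t.out (lab' v) (blk E (e' v)) = 0), w v +
      ∑ v ∈ Tx.filter (fun v => t.tp (blk E (e v)) = true), w v +
      max 0 ((∑ v ∈ (ax E k A P lab e G).filter (fun v => ¬ t.out (lab v) (blk E (e v)) ≤ 1),
          (e v : ℝ) * w v +
        ∑ v ∈ (ax E k A P' lab' e' G).filter (fun v => ¬ t.out (lab' v) (blk E (e' v)) = 0),
          (e' v : ℝ) * w v) / (t.n : ℝ) -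
        ∑ v ∈ Tx.filter (fun v => t.tp (blk E (e v)) = true), (e v : ℝ) * w v - I k) + C := by
  have hn : (0:ℝ) < t.n := by exact_mod_cast ht.1
  have hsub : ∀ (s u : Finset ι) (f : ι → ℝ), (∀ v, 0 ≤ f v) → s ⊆ u →
      ∑ v ∈ s, f v ≤ ∑ v ∈ u, f v := fun s u f hf hs =>
    Finset.sum_le_sum_of_subset_of_nonneg hs fun v _ _ => hf v
  unfold toolCost
  -- first sum
  have h1 : ∑ v ∈ ytW E k A P P' lab lab' e e' G Tx Q t, w v ≤
      ∑ v ∈ (ax E k A P lab e G).filter (fun v => t.out (lab v) (blk E (e v)) ≤ 1), w v +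
      ∑ v ∈ (ax E k A P' lab' e' G).filter (fun v => t.out (lab' v) (blk E (e' v)) = 0), w v +
      ∑ v ∈ Tx.filter (fun v => t.tp (blk E (e v)) = true), w v := by
    have h2 : ytW E k A P P' lab lab' e e' G Tx Q t ⊆
        ((ax E k A P lab e G).filter (fun v => t.out (lab v) (blk E (e v)) ≤ 1) ∪
        (ax E k A P' lab' e' G).filter (fun v => t.out (lab' v) (blk E (e' v)) = 0)) ∪
        Tx.filter (fun v => t.tp (blk E (e v)) = true) := by
      intro v hv
      have h3 := (Finset.mem_filter.mp hv).2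
      simp only [Finset.mem_union, Finset.mem_filter]
      rcases h3 with h3 | h3 | h3
      · exact Or.inl (Or.inl h3)
      · exact Or.inl (Or.inr h3)
      · exact Or.inr h3
    refine (hsub _ _ w h.hw h2).trans ?_
    refine (sum_union_le' _ _ w h.hw).trans ?_
    exact add_le_add (sum_union_le' _ _ w h.hw) le_rfl
  -- second sum
  have hew : ∀ v, 0 ≤ (e v : ℝ) * w v := fun v => mul_nonneg (Nat.cast_nonneg _) (h.hw v)
  have hew' : ∀ v, 0 ≤ (e' v : ℝ) * w v := fun v => mul_nonneg (Nat.cast_nonneg _) (h.hw v)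
  have h2 : ∑ v ∈ Q.filter (fun v => v ∉ ytW E k A P P' lab lab' e e' G Tx Q t ∧
      (lq v = 0 ∨ lq v = 1)), (eq v : ℝ) * w v ≤
      ∑ v ∈ (ax E k A P lab e G).filter (fun v => ¬ t.out (lab v) (blk E (e v)) ≤ 1),
          (e v : ℝ) * w v +
        ∑ v ∈ (ax E k A P' lab' e' G).filter (fun v => ¬ t.out (lab' v) (blk E (e' v)) = 0),
          (e' v : ℝ) * w v := by
    have h3 : ∀ v ∈ Q.filter (fun v => v ∉ ytW E k A P P' lab lab' e e' G Tx Q t ∧
      (lq v = 0 ∨ lq v = 1)), (eq v : ℝ) * w v ≤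
      (if v ∈ (ax E k A P lab e G).filter (fun v => ¬ t.out (lab v) (blk E (e v)) ≤ 1) then
          (e v : ℝ) * w v else 0) +
      (if v ∈ (ax E k A P' lab' e' G).filter (fun v => ¬ t.out (lab' v) (blk E (e' v)) = 0) then
          (e' v : ℝ) * w v else 0) := by
      intro v hv
      obtain ⟨hvQ, hvW, hvl⟩ := Finset.mem_filter.mp hv
      have h4 := h.hle v hvQ hvl
      have h5 : v ∈ ax E k A P lab e G → ¬ t.out (lab v) (blk E (e v)) ≤ 1 := by
        intro h6 h7
        exact hvW (Finset.mem_filter.mpr ⟨hvQ, Or.inl ⟨h6, h7⟩⟩)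
      have h5' : v ∈ ax E k A P' lab' e' G → ¬ t.out (lab' v) (blk E (e' v)) = 0 := by
        intro h6 h7
        exact hvW (Finset.mem_filter.mpr ⟨hvQ, Or.inr (Or.inl ⟨h6, h7⟩)⟩)
      have h6 := mul_le_mul_of_nonneg_right h4 (h.hw v)
      refine h6.trans (le_of_eq ?_)
      rw [add_mul]
      congr 1
      · by_cases h7 : v ∈ ax E k A P lab e G
        · rw [if_pos h7, if_pos (Finset.mem_filter.mpr ⟨h7, h5 h7⟩)]
        · rw [if_neg h7, if_neg (fun h8 => h7 (Finset.mem_filter.mp h8).1), zero_mul]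
      · by_cases h7 : v ∈ ax E k A P' lab' e' G
        · rw [if_pos h7, if_pos (Finset.mem_filter.mpr ⟨h7, h5' h7⟩)]
        · rw [if_neg h7, if_neg (fun h8 => h7 (Finset.mem_filter.mp h8).1), zero_mul]
    refine (Finset.sum_le_sum h3).trans ?_
    rw [Finset.sum_add_distrib]
    apply add_le_add
    · rw [← Finset.sum_filter]
      apply hsub _ _ _ hew
      intro v hv
      exact (Finset.mem_filter.mp hv).2
    · rw [← Finset.sum_filter]
      apply hsub _ _ _ hew'
      intro v hv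
      exact (Finset.mem_filter.mp hv).2
  -- third sum
  have h3 : ∑ v ∈ Tx.filter (fun v => t.tp (blk E (e v)) = true), (e v : ℝ) * w v ≤
      ∑ v ∈ (ytW E k A P P' lab lab' e e' G Tx Q t).filter (fun v => lq v ≠ 0 ∧ lq v ≠ 1),
        (eq v : ℝ) * w v := by
    calc ∑ v ∈ Tx.filter (fun v => t.tp (blk E (e v)) = true), (e v : ℝ) * w v
        ≤ ∑ v ∈ Tx.filter (fun v => t.tp (blk E (e v)) = true), (eq v : ℝ) * w v := by
          refine Finset.sum_le_sum fun v hv => ?_
          apply mul_le_mul_of_nonneg_right _ (h.hw v)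
          exact_mod_cast (h.hT v (Finset.mem_filter.mp hv).1).2.2
      _ ≤ _ := by
          apply hsub _ _ _ (fun v => mul_nonneg (Nat.cast_nonneg _) (h.hw v))
          intro v hv
          obtain ⟨hv1, hv2⟩ := Finset.mem_filter.mp hv
          obtain ⟨h4, h5, _⟩ := h.hT v hv1
          rw [Finset.mem_filter]
          refine ⟨Finset.mem_filter.mpr ⟨h4, Or.inr (Or.inr ⟨hv1, hv2⟩)⟩, ?_, ?_⟩
          · rw [h5]; decide
          · rw [h5]; decide
  have h4 : ∑ l ∈ Finset.univ.filter (fun l : Fin 3 => l ≠ 0 ∧ l ≠ 1), Iy l = Iy 2 := by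
    have : Finset.univ.filter (fun l : Fin 3 => l ≠ 0 ∧ l ≠ 1) = {2} := by decide
    rw [this, Finset.sum_singleton]
  have h5 : max 0 ((∑ v ∈ Q.filter (fun v => v ∉ ytW E k A P P' lab lab' e e' G Tx Q t ∧
      (lq v = 0 ∨ lq v = 1)), (eq v : ℝ) * w v) / (t.n : ℝ) -
      ∑ v ∈ (ytW E k A P P' lab lab' e e' G Tx Q t).filter (fun v => lq v ≠ 0 ∧ lq v ≠ 1),
        (eq v : ℝ) * w v - ∑ l ∈ Finset.univ.filter (fun l : Fin 3 => l ≠ 0 ∧ l ≠ 1), Iy l) ≤
      max 0 ((∑ v ∈ (ax E k A P lab e G).filter (fun v => ¬ t.out (lab v) (blk E (e v)) ≤ 1),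
          (e v : ℝ) * w v +
        ∑ v ∈ (ax E k A P' lab' e' G).filter (fun v => ¬ t.out (lab' v) (blk E (e' v)) = 0),
          (e' v : ℝ) * w v) / (t.n : ℝ) -
        ∑ v ∈ Tx.filter (fun v => t.tp (blk E (e v)) = true), (e v : ℝ) * w v - I k) + C := by
    apply max_zero_add h.hC
    rw [h4]
    have h6 := div_le_div_of_nonneg_right h2 hn.le
    have h7 := h.hIy
    linarith
  have h6 : ∑ v ∈ ytW E k A P P' lab lab' e e' G Tx Q t, w v +
      max 0 ((∑ v ∈ Q.filter (fun v => v ∉ ytW E k A P P' lab lab' e e' G Tx Q t ∧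
      (lq v = 0 ∨ lq v = 1)), (eq v : ℝ) * w v) / (t.n : ℝ) -
      ∑ v ∈ (ytW E k A P P' lab lab' e e' G Tx Q t).filter (fun v => lq v ≠ 0 ∧ lq v ≠ 1),
        (eq v : ℝ) * w v - ∑ l ∈ Finset.univ.filter (fun l : Fin 3 => l ≠ 0 ∧ l ≠ 1), Iy l) ≤
      (∑ v ∈ (ax E k A P lab e G).filter (fun v => t.out (lab v) (blk E (e v)) ≤ 1), w v +
      ∑ v ∈ (ax E k A P' lab' e' G).filter (fun v => t.out (lab' v) (blk E (e' v)) = 0), w v +
      ∑ v ∈ Tx.filter (fun v => t.tp (blk E (e v)) = true), w v) +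
      (max 0 ((∑ v ∈ (ax E k A P lab e G).filter (fun v => ¬ t.out (lab v) (blk E (e v)) ≤ 1),
          (e v : ℝ) * w v +
        ∑ v ∈ (ax E k A P' lab' e' G).filter (fun v => ¬ t.out (lab' v) (blk E (e' v)) = 0),
          (e' v : ℝ) * w v) / (t.n : ℝ) -
        ∑ v ∈ Tx.filter (fun v => t.tp (blk E (e v)) = true), (e v : ℝ) * w v - I k) + C) :=
    add_le_add h1 h5
  convert h6 using 1
  · congr!
  · ring

/-- The configuration of the common part. -/
noncomputable def gcf (E : ℕ) (r : ℝ) (G : Finset ι) (lab : ι → Fin 3) (e : ι → ℕ)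
    (w : ι → ℝ) : Cfg := cf E r G lab e w (fun _ => 0)

lemma PD.hG1 (h : PD E k i j A T w P P' lab lab' e e' I I' G Tx Q lq eq Iy C) :
    ∀ v ∈ G, v ∈ P ∧ lab v ≠ k ∧ A (lab v) (blk E (e v)) = true := fun v hv =>
  ⟨(h.hG v hv).1, (h.hG v hv).2.2.1, (h.hG v hv).2.2.2.1⟩

lemma PD.hG2 (h : PD E k i j A T w P P' lab lab' e e' I I' G Tx Q lq eq Iy C) :
    ∀ v ∈ G, v ∈ P' ∧ lab' v ≠ k ∧ A (lab' v) (blk E (e' v)) = true := fun v hv => by
  obtain ⟨h1, h2, h3, h4, h5, h6⟩ := h.hG v hv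
  rw [h5, h6]
  exact ⟨h2, h3, h4⟩

lemma PD.heG (h : PD E k i j A T w P P' lab lab' e e' I I' G Tx Q lq eq Iy C) :
    ∀ v ∈ G, 1 ≤ e v := fun v hv => h.he v (h.hG v hv).1

lemma sumT_le (hE : 2 ≤ E) {r : ℝ} (hr : 0 < r) (he : ∀ v ∈ P, 1 ≤ e v) (hI : ∀ l, 0 ≤ I l)
    (k : Fin 3) (T : ℕ → Bool) :
    r * ∑ b ∈ Finset.range E, (if T b then (cf E r P lab e w I).I E k b else 0) ≤
      ∑ b ∈ Finset.range E,
        (if T b then bs E P lab e (fun v => (e v : ℝ) * w v) k b else 0) + I k := by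
  have h7 := sum_last_le hE T (I k) (hI k)
  have h8 : r * ∑ b ∈ Finset.range E, (if T b then (cf E r P lab e w I).I E k b else 0) =
    ∑ b ∈ Finset.range E,
      (if T b then bs E P lab e (fun v => (e v : ℝ) * w v) k b else 0) +
    ∑ b ∈ Finset.range E, (if T b then (if b + 1 = E then I k else 0) else 0) := by
    rw [Finset.mul_sum, ← Finset.sum_add_distrib]
    refine Finset.sum_congr rfl fun b _ => ?_
    split_ifs with h9 h10
    · rw [cf_I hE hr P lab e w he, if_pos h10]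
    · rw [cf_I hE hr P lab e w he, if_neg h10]
    · simp
  linarith

lemma I_ge (hE : 2 ≤ E) {r : ℝ} (hr : 0 < r) (he : ∀ v ∈ P, 1 ≤ e v) (hI : ∀ l, 0 ≤ I l)
    (l : Fin 3) (b : ℕ) : bs E P lab e (fun v => (e v : ℝ) * w v) l b ≤
      r * (cf E r P lab e w I).I E l b := by
  rw [cf_I hE hr P lab e w he]
  have := hI l
  split_ifs <;> linarith

lemma gI_eq (hE : 2 ≤ E) {r : ℝ} (hr : 0 < r) (he : ∀ v ∈ G, 1 ≤ e v)
    (l : Fin 3) (b : ℕ) : r * (gcf E r G lab e w).I E l b =
      bs E G lab e (fun v => (e v : ℝ) * w v) l b := by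
  unfold gcf
  rw [cf_I hE hr G lab e w he]
  simp

/-- Cost of the tool for a pair in terms of a configuration close to both points. -/
lemma yt_cost (h : PD E k i j A T w P P' lab lab' e e' I I' G Tx Q lq eq Iy C) {r δ : ℝ}
    (hr : 0 < r) (hδ : 0 ≤ δ) {p : Cfg} (hp : Close E δ (cf E r P lab e w I) p)
    (hp' : Close E δ (cf E r P' lab' e' w I') p) (t : YT) (ht : t.ok E k A T) :
    toolCost Q lq eq w Iy t.n 0 1 (ytW E k A P P' lab lab' e e' G Tx Q t) + ∑ v ∈ G, w v ≤
      r * (t.cost E k A p (gcf E r G lab e w) + 20 * E ^ 2 * δ) + C := by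
  have hE := h.hE
  have hE' : (2:ℝ) ≤ E := by exact_mod_cast hE
  have hn : (1:ℝ) ≤ t.n := by exact_mod_cast ht.1
  have raw := yt_raw h t ht
  set ew : ι → ℝ := fun v => (e v : ℝ) * w v with hew
  set ew' : ι → ℝ := fun v => (e' v : ℝ) * w v with hew'
  set q := cf E r P lab e w I with hq
  set q' := cf E r P' lab' e' w I' with hq'
  set g := gcf E r G lab e w with hg
  have hGw : ∀ l b, bs E G lab' e' w l b = bs E G lab e w l b := fun l b =>
    bs_congr w w (fun v hv => ⟨(h.hG v hv).2.2.2.2.1, (h.hG v hv).2.2.2.2.2, rfl⟩) l b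
  have hGe : ∀ l b, bs E G lab' e' ew' l b = bs E G lab e ew l b := fun l b =>
    bs_congr ew' ew (fun v hv => ⟨(h.hG v hv).2.2.2.2.1, (h.hG v hv).2.2.2.2.2, by
      simp only [hew, hew']; rw [(h.hG v hv).2.2.2.2.2]⟩) l b
  have rS : ∀ l b, r * q.S l b = bs E P lab e w l b := fun l b => cf_S E hr P lab e w I l b
  have rS' : ∀ l b, r * q'.S l b = bs E P' lab' e' w l b := fun l b =>
    cf_S E hr P' lab' e' w I' l b
  have rg : ∀ l b, r * g.S l b = bs E G lab e w l b := fun l b =>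
    cf_S E hr G lab e w _ l b
  have rI : ∀ l b, bs E P lab e ew l b ≤ r * q.I E l b := fun l b => I_ge hE hr h.he h.hI l b
  have rI' : ∀ l b, bs E P' lab' e' ew' l b ≤ r * q'.I E l b := fun l b =>
    I_ge hE hr h.he' h.hI' l b
  have rgI : ∀ l b, r * g.I E l b = bs E G lab e ew l b := fun l b => gI_eq hE hr h.heG l b
  have dS : ∀ l, ∀ b ∈ Finset.range E, r * q.S l b ≤ r * p.S l b + r * δ := by
    clear raw
    intro l b hb
    have := (abs_le.mp (hp.1 l b hb)).2
    have := mul_le_mul_of_nonneg_left this hr.le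
    linarith
  have dS' : ∀ l, ∀ b ∈ Finset.range E, r * q'.S l b ≤ r * p.S l b + r * δ := by
    clear raw
    intro l b hb
    have := (abs_le.mp (hp'.1 l b hb)).2
    have := mul_le_mul_of_nonneg_left this hr.le
    linarith
  have dI : ∀ l, ∀ b ∈ Finset.range E, r * q.I E l b ≤ r * p.I E l b + r * (E * δ) := by
    clear raw
    intro l b hb
    have := (abs_le.mp (hp.I_le hE hδ l b hb)).2
    have := mul_le_mul_of_nonneg_left this hr.le
    linarith
  have dI' : ∀ l, ∀ b ∈ Finset.range E, r * q'.I E l b ≤ r * p.I E l b + r * (E * δ) := by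
    clear raw
    intro l b hb
    have := (abs_le.mp (hp'.I_le hE hδ l b hb)).2
    have := mul_le_mul_of_nonneg_left this hr.le
    linarith
  have dI2 : ∀ l, ∀ b ∈ Finset.range E, r * p.I E l b ≤ r * q.I E l b + r * (E * δ) := by
    clear raw
    intro l b hb
    have := (abs_le.mp (hp.I_le hE hδ l b hb)).1
    have := mul_le_mul_of_nonneg_left this hr.le
    linarith
  have hrδ : 0 ≤ r * δ := mul_nonneg hr.le hδ
  have hrEδ : 0 ≤ r * (E * δ) := by positivity
  -- the sum of sizes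
  have m1 : ∑ v ∈ (ax E k A P lab e G).filter (fun v => t.out (lab v) (blk E (e v)) ≤ 1), w v +
      ∑ v ∈ (ax E k A P' lab' e' G).filter (fun v => t.out (lab' v) (blk E (e' v)) = 0), w v +
      ∑ v ∈ G, w v ≤
      r * (∑ l ∈ Finset.univ.filter (fun l => l ≠ k), ∑ b ∈ Finset.range E,
        (if A l b then (2 - (t.out l b : ℝ)) * (p.S l b - g.S l b) + g.S l b else 0)) +
        3 * (E * (2 * (r * δ))) := by
    clear raw
    have e1 := sum_ax (k := k) (A := A) hE w h.hG1 (fun l b => t.out l b ≤ 1)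
    have e2 := sum_ax (k := k) (A := A) hE w h.hG2 (fun l b => t.out l b = 0)
    have eG : ∑ v ∈ G, w v = ∑ l ∈ Finset.univ.filter (fun l => l ≠ k), ∑ b ∈ Finset.range E,
        (if A l b then bs E G lab e w l b else 0) := by
      rw [← sum_blocks_ne hE G lab e w k (fun l b => A l b = true)]
      refine Finset.sum_congr ?_ fun _ _ => rfl
      ext v
      simp only [Finset.mem_filter]
      exact ⟨fun hv => ⟨hv, (h.hG1 v hv).2⟩, fun hv => hv.1⟩
    rw [e1, e2, eG, ← Finset.sum_add_distrib, ← Finset.sum_add_distrib, Finset.mul_sum]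
    simp_rw [← Finset.sum_add_distrib, Finset.mul_sum]
    apply sum3E_le (by positivity)
    intro l hl b hb
    have hl' := (Finset.mem_filter.mp hl).2
    by_cases hA : A l b = true
    · simp only [hA, if_true]
      have ho := (ht.2.2.1 l hl' b hb hA).1
      have a1 := rS l b
      have a2 := rS' l b
      have a3 := rg l b
      have a4 := dS l b hb
      have a5 := dS' l b hb
      rw [hGw]
      interval_cases h0 : t.out l b
      · simp only [zero_le, if_true, Nat.cast_zero]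
        linarith
      · simp only [le_refl, if_true, Nat.cast_one, one_ne_zero, if_false]
        linarith
      · simp only [Nat.not_ofNat_le_one, if_false, OfNat.ofNat_ne_zero, Nat.cast_ofNat]
        linarith
    · simp only [hA, if_false, Bool.false_eq_true]
      linarith
  have m2 : ∑ v ∈ (ax E k A P lab e G).filter (fun v => ¬ t.out (lab v) (blk E (e v)) ≤ 1),
          ew v +
        ∑ v ∈ (ax E k A P' lab' e' G).filter (fun v => ¬ t.out (lab' v) (blk E (e' v)) = 0),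
          ew' v ≤
      r * (∑ l ∈ Finset.univ.filter (fun l => l ≠ k), ∑ b ∈ Finset.range E,
        (if A l b then (t.out l b : ℝ) * (p.I E l b - g.I E l b) else 0)) +
        3 * (E * (2 * (r * (E * δ)))) := by
    clear raw m1
    have e3 := sum_ax (k := k) (A := A) hE ew h.hG1 (fun l b => ¬ t.out l b ≤ 1)
    have e4 := sum_ax (k := k) (A := A) hE ew' h.hG2 (fun l b => ¬ t.out l b = 0)
    rw [e3, e4, ← Finset.sum_add_distrib, Finset.mul_sum]
    simp_rw [← Finset.sum_add_distrib, Finset.mul_sum]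
    apply sum3E_le (by positivity)
    intro l hl b hb
    have hl' := (Finset.mem_filter.mp hl).2
    by_cases hA : A l b = true
    · simp only [hA, if_true]
      have ho := (ht.2.2.1 l hl' b hb hA).1
      have a1 := rI l b
      have a2 := rI' l b
      have a3 := rgI l b
      have a4 := dI l b hb
      have a5 := dI' l b hb
      rw [hGe]
      interval_cases h0 : t.out l b
      · simp
        linarith
      · simp
        linarith
      · simp
        linarith
    · simp only [hA, if_false, Bool.false_eq_true]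
      linarith
  have eT : ∀ f : ι → ℝ, ∑ v ∈ Tx.filter (fun v => t.tp (blk E (e v)) = true), f v =
      ∑ b ∈ Finset.range E, (if t.tp b then bs E P lab e f k b else 0) := by
    intro f
    rw [← sum_blocks_eq hE P lab e f k (fun b => t.tp b = true), h.hTx, Finset.filter_filter]
    refine Finset.sum_congr ?_ fun _ _ => rfl
    ext v
    simp only [Finset.mem_filter]
    constructor
    · rintro ⟨hv, ⟨h1, _⟩, h2⟩
      exact ⟨hv, h1, h2⟩
    · rintro ⟨hv, h1, h2⟩
      exact ⟨hv, ⟨h1, ht.2.2.2 _ (blk_mem hE) h2⟩, h2⟩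
  have m3 : ∑ v ∈ Tx.filter (fun v => t.tp (blk E (e v)) = true), w v ≤
      r * ∑ b ∈ Finset.range E, (if t.tp b then p.S k b else 0) + E * (r * δ) := by
    clear raw m1 m2
    rw [eT, Finset.mul_sum]
    apply sumE_le
    intro b hb
    have a1 := rS k b
    have a2 := dS k b hb
    split_ifs <;> linarith
  have m4 : r * ∑ b ∈ Finset.range E, (if t.tp b then p.I E k b else 0) ≤
      ∑ v ∈ Tx.filter (fun v => t.tp (blk E (e v)) = true), ew v + I k + E * (r * (E * δ)) := by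
    clear raw m1 m2 m3
    have a1 := sumT_le (w := w) (lab := lab) hE hr h.he h.hI k t.tp
    rw [← eT] at a1
    have a2 : r * ∑ b ∈ Finset.range E, (if t.tp b then p.I E k b else 0) ≤
        r * ∑ b ∈ Finset.range E, (if t.tp b then q.I E k b else 0) + E * (r * (E * δ)) := by
      rw [Finset.mul_sum, Finset.mul_sum]
      apply sumE_le
      intro b hb
      have a2 := dI2 k b hb
      split_ifs <;> linarith
    linarith
  have m5 : max 0 ((∑ v ∈ (ax E k A P lab e G).filter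
          (fun v => ¬ t.out (lab v) (blk E (e v)) ≤ 1), ew v +
        ∑ v ∈ (ax E k A P' lab' e' G).filter (fun v => ¬ t.out (lab' v) (blk E (e' v)) = 0),
          ew' v) / (t.n : ℝ) -
        ∑ v ∈ Tx.filter (fun v => t.tp (blk E (e v)) = true), ew v - I k) ≤
      r * max 0 ((∑ l ∈ Finset.univ.filter (fun l => l ≠ k), ∑ b ∈ Finset.range E,
      (if A l b then (t.out l b : ℝ) * (p.I E l b - g.I E l b) else 0)) / (t.n : ℝ) -
      ∑ b ∈ Finset.range E, (if t.tp b then p.I E k b else 0)) + 7 * (E * (r * (E * δ))) := by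
    clear raw m1 m3
    refine (max_zero_add (b := r * ((∑ l ∈ Finset.univ.filter (fun l => l ≠ k),
      ∑ b ∈ Finset.range E,
      (if A l b then (t.out l b : ℝ) * (p.I E l b - g.I E l b) else 0)) / (t.n : ℝ) -
      ∑ b ∈ Finset.range E, (if t.tp b then p.I E k b else 0)))
      (c := 7 * (E * (r * (E * δ)))) (by positivity) ?_).trans ?_
    · have a1 := (div_le_div_of_nonneg_right m2 (by linarith : (0:ℝ) ≤ t.n)).trans
        (le_of_eq (add_div _ _ _))
      have a2 : 3 * ((E:ℝ) * (2 * (r * (E * δ)))) / t.n ≤ 3 * (E * (2 * (r * (E * δ)))) :=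
        div_le_self (by positivity) hn
      rw [mul_sub, ← mul_div_assoc]
      linarith
    · apply add_le_add _ le_rfl
      exact max_zero_mul hr le_rfl
  have m6 : (E:ℝ) * (r * δ) ≤ E * (r * (E * δ)) := by
    clear raw m1 m2 m3 m4 m5
    have h0 : 0 ≤ (E:ℝ) * (r * δ) := by positivity
    have h1 : (E:ℝ) * (r * (E * δ)) = E * (E * (r * δ)) := by ring
    rw [h1]
    exact le_mul_of_one_le_left h0 (by linarith)
  have m7 : 0 ≤ E * (r * (E * δ)) := by positivity
  unfold YT.cost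
  have m8 : r * (20 * (E:ℝ) ^ 2 * δ) = 20 * (E * (r * (E * δ))) := by ring
  rw [mul_add, mul_add, mul_add, m8]
  clear m2 m4 m8
  linarith

lemma sum_ne_pair {i j k : Fin 3} (hij : i ≠ j) (hik : i ≠ k) (hjk : j ≠ k) (f : Fin 3 → ℝ) :
    ∑ l ∈ Finset.univ.filter (fun l => l ≠ k), f l = f i + f j := by
  have : Finset.univ.filter (fun l => l ≠ k) = {i, j} := by
    ext l
    simp only [Finset.mem_filter, Finset.mem_univ, true_and, Finset.mem_insert,
      Finset.mem_singleton]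
    exact (ne_iff_or hij hik hjk l).symm
  rw [this, Finset.sum_pair hij]

/-- Sums over the form `i` in `ax`. -/
lemma sum_ax_form (hE : 2 ≤ E) (f : ι → ℝ)
    (hG : ∀ v ∈ G, v ∈ P ∧ lab v ≠ k ∧ A (lab v) (blk E (e v)) = true) {i : Fin 3} (hi : i ≠ k) :
    ∑ v ∈ (ax E k A P lab e G).filter (fun v => lab v = i), f v =
      ∑ b ∈ Finset.range E,
        if A i b then bs E P lab e f i b - bs E G lab e f i b else 0 := by
  have h1 := sum_ax (k := k) (A := A) hE f hG (fun l _ => l = i)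
  rw [h1, Finset.sum_eq_single i]
  · simp
  · intro l _ hl
    apply Finset.sum_eq_zero
    intro b _
    simp [hl]
  · intro h
    exact absurd (show i ∈ Finset.univ.filter (fun l => l ≠ k) by simp [hi]) h

/-- The common part is admissible. -/
lemma admG (h : PD E k i j A T w P P' lab lab' e e' I I' G Tx Q lq eq Iy C) {r δ ε : ℝ}
    (hr : 0 < r) (hδ : 0 ≤ δ) {p : Cfg} (hp : Close E δ (cf E r P lab e w I) p)
    (hp' : Close E δ (cf E r P' lab' e' w I') p) (hε : 3 * E ^ 2 * δ + C / r ≤ ε) :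
    AdmG E ε p k A T (gcf E r G lab e w) := by
  have hE := h.hE
  have hE' : (2:ℝ) ≤ E := by exact_mod_cast hE
  have hCr : 0 ≤ C / r := div_nonneg h.hC hr.le
  set ew : ι → ℝ := fun v => (e v : ℝ) * w v with hew
  set ew' : ι → ℝ := fun v => (e' v : ℝ) * w v with hew'
  set q := cf E r P lab e w I with hq
  set q' := cf E r P' lab' e' w I' with hq'
  set g := gcf E r G lab e w with hg
  have hGe : ∀ l b, bs E G lab' e' ew' l b = bs E G lab e ew l b := fun l b =>
    bs_congr ew' ew (fun v hv => ⟨(h.hG v hv).2.2.2.2.1, (h.hG v hv).2.2.2.2.2, by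
      simp only [hew, hew']; rw [(h.hG v hv).2.2.2.2.2]⟩) l b
  have rS : ∀ l b, r * q.S l b = bs E P lab e w l b := fun l b => cf_S E hr P lab e w I l b
  have rg : ∀ l b, r * g.S l b = bs E G lab e w l b := fun l b =>
    cf_S E hr G lab e w _ l b
  have rI : ∀ l b, bs E P lab e ew l b ≤ r * q.I E l b := fun l b => I_ge hE hr h.he h.hI l b
  have rI' : ∀ l b, bs E P' lab' e' ew' l b ≤ r * q'.I E l b := fun l b =>
    I_ge hE hr h.he' h.hI' l b
  have rgI : ∀ l b, r * g.I E l b = bs E G lab e ew l b := fun l b => gI_eq hE hr h.heG l b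
  have hε1 : 3 * (E:ℝ) ^ 2 * δ ≤ ε := by linarith
  have hE2 : (E:ℝ) * δ ≤ E ^ 2 * δ := by
    exact mul_le_mul_of_nonneg_right (le_self_pow₀ (by linarith) two_ne_zero) hδ
  have hδE : δ ≤ E * δ := le_mul_of_one_le_left hδ (by linarith)
  have hE2' : 0 ≤ (E:ℝ) ^ 2 * δ := by positivity
  have hlast : ∀ p : Cfg, ∀ l, p.I E l (E - 1) = p.J l := by
    intro p l
    unfold Cfg.I
    rw [if_pos (by omega)]
  have hsub : ∀ l b, ∀ f : ι → ℝ, (∀ v, 0 ≤ f v) → bs E G lab e f l b ≤ bs E P lab e f l b := by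
    intro l b f hf
    unfold bs
    apply Finset.sum_le_sum_of_subset_of_nonneg
    · intro v hv
      obtain ⟨h1, h2⟩ := Finset.mem_filter.mp hv
      exact Finset.mem_filter.mpr ⟨(h.hG v h1).1, h2⟩
    · intro v _ _; exact hf v
  have hE1 : E - 1 ∈ Finset.range E := Finset.mem_range.mpr (by omega)
  refine ⟨?_, ?_, ?_⟩
  · intro l hl b hb hA
    have h1 : 0 ≤ g.S l b := by
      have := bs_nonneg E G lab e w (fun v _ => h.hw v) l b
      rw [← rg] at this
      exact (mul_nonneg_iff_of_pos_left hr).mp this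
    have h2 : g.S l b ≤ q.S l b := by
      have := hsub l b w h.hw
      rw [← rg, ← rS] at this
      exact le_of_mul_le_mul_left this hr
    have h3 := (abs_le.mp (hp.1 l b hb)).2
    constructor
    · linarith
    · linarith
  · intro l hl hA
    -- the last block
    have key : ∀ Z : Finset ι, (∀ v ∈ Z, 1 ≤ e v) →
        (E:ℝ) * bs E Z lab e w l (E - 1) ≤ bs E Z lab e ew l (E - 1) := by
      intro Z hZ
      unfold bs
      rw [Finset.mul_sum]
      refine Finset.sum_le_sum fun v hv => ?_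
      obtain ⟨h1, _, h2⟩ := Finset.mem_filter.mp hv
      have h3 := le_of_blk_last (hZ v h1) (by rw [h2]; omega)
      have h4 : (E:ℝ) ≤ e v := by exact_mod_cast h3
      exact mul_le_mul_of_nonneg_right h4 (h.hw v)
    have k1 := key G h.heG
    have k2 := key (ax E k A P lab e G) (fun v hv => h.he v (mem_ax.mp hv).1.1)
    rw [bs_ax w h.hG1 hl hA, bs_ax ew h.hG1 hl hA] at k2
    have gJ : r * g.J l = bs E G lab e ew l (E - 1) := by
      rw [← rgI, hlast]
    have qJ : bs E P lab e ew l (E - 1) ≤ r * q.J l := by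
      rw [← hlast q l]; exact rI l (E - 1)
    have k3 : (E:ℝ) * g.S l (E - 1) ≤ g.J l := by
      apply le_of_mul_le_mul_left _ hr
      calc r * ((E:ℝ) * g.S l (E - 1)) = E * (r * g.S l (E - 1)) := by ring
        _ ≤ r * g.J l := by rw [rg, gJ]; exact k1
    have k4 : (E:ℝ) * (q.S l (E - 1) - g.S l (E - 1)) ≤ q.J l - g.J l := by
      apply le_of_mul_le_mul_left _ hr
      calc r * ((E:ℝ) * (q.S l (E - 1) - g.S l (E - 1))) =
            E * (r * q.S l (E - 1) - r * g.S l (E - 1)) := by ring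
        _ ≤ r * q.J l - r * g.J l := by rw [rg, rS, gJ]; linarith
        _ = _ := by ring
    have k5 := (abs_le.mp (hp.1 l (E - 1) hE1)).1
    have k6 := (abs_le.mp (hp.2 l)).2
    constructor
    · have : 0 ≤ 3 * (E:ℝ) ^ 2 * δ := by positivity
      linarith
    · have k7 : (E:ℝ) * p.S l (E - 1) ≤ E * q.S l (E - 1) + E * δ := by
        have k0 := mul_le_mul_of_nonneg_left k5 (by linarith : (0:ℝ) ≤ E)
        linarith
      have k8 : (E:ℝ) * (p.S l (E - 1) - g.S l (E - 1)) =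
        E * p.S l (E - 1) - E * g.S l (E - 1) := by ring
      have k9 : (E:ℝ) * (q.S l (E - 1) - g.S l (E - 1)) =
        E * q.S l (E - 1) - E * g.S l (E - 1) := by ring
      rw [k9] at k4
      rw [k8]
      linarith
  · -- the height inequality
    have hH := h.hH
    have eT : ∑ v ∈ Tx, ew v =
        ∑ b ∈ Finset.range E, (if T b then bs E P lab e ew k b else 0) := by
      rw [← sum_blocks_eq hE P lab e ew k (fun b => T b = true), h.hTx]
    have s1 := sum_ax_form (A := A) hE ew h.hG1 h.hik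
    have s2 := sum_ax_form (A := A) hE ew' h.hG2 h.hjk
    have a1 := sumT_le (w := w) (lab := lab) hE hr h.he h.hI k T
    have a2 : r * ∑ b ∈ Finset.range E, (if T b then p.I E k b else 0) ≤
        r * ∑ b ∈ Finset.range E, (if T b then q.I E k b else 0) + E * (r * (E * δ)) := by
      rw [Finset.mul_sum, Finset.mul_sum]
      apply sumE_le
      intro b hb
      have := (abs_le.mp (hp.I_le hE hδ k b hb)).1
      have := mul_le_mul_of_nonneg_left this hr.le
      have h4 : 0 ≤ r * (E * δ) := by positivity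
      split_ifs <;> linarith
    have a3 : ∑ b ∈ Finset.range E, (if A i b then bs E P lab e ew i b - bs E G lab e ew i b
        else 0) ≤ r * ∑ b ∈ Finset.range E, (if A i b then p.I E i b - g.I E i b else 0) +
        E * (r * (E * δ)) := by
      rw [Finset.mul_sum]
      apply sumE_le
      intro b hb
      have h1 := (abs_le.mp (hp.I_le hE hδ i b hb)).2
      have h2 := mul_le_mul_of_nonneg_left h1 hr.le
      have h3 := rI i b
      have h5 := rgI i b
      have h4 : 0 ≤ r * (E * δ) := by positivity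
      split_ifs
      · linarith
      · linarith
    have a4 : ∑ b ∈ Finset.range E, (if A j b then bs E P' lab' e' ew' j b -
        bs E G lab' e' ew' j b else 0) ≤
        r * ∑ b ∈ Finset.range E, (if A j b then p.I E j b - g.I E j b else 0) +
        E * (r * (E * δ)) := by
      rw [Finset.mul_sum]
      apply sumE_le
      intro b hb
      have h1 := (abs_le.mp (hp'.I_le hE hδ j b hb)).2
      have h2 := mul_le_mul_of_nonneg_left h1 hr.le
      have h3 := rI' j b
      have h5 := rgI j b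
      have h4 : 0 ≤ r * (E * δ) := by positivity
      rw [hGe]
      split_ifs
      · linarith
      · linarith
    have hH' : ∑ v ∈ Tx, ew v + I k ≤
      ∑ v ∈ (ax E k A P lab e G).filter (fun v => lab v = i), ew v +
      ∑ v ∈ (ax E k A P' lab' e' G).filter (fun v => lab' v = j), ew' v + C := hH
    rw [eT, s1, s2] at hH'
    rw [sum_ne_pair h.hij h.hik h.hjk]
    have a5 : r * ∑ b ∈ Finset.range E, (if T b then p.I E k b else 0) ≤
        r * (∑ b ∈ Finset.range E, (if A i b then p.I E i b - g.I E i b else 0) +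
        ∑ b ∈ Finset.range E, (if A j b then p.I E j b - g.I E j b else 0) +
        (3 * E ^ 2 * δ + C / r)) := by
      have a6 : r * (3 * (E:ℝ) ^ 2 * δ + C / r) = 3 * (E * (r * (E * δ))) + C := by
        field_simp
      rw [mul_add, mul_add, a6]
      linarith
    have a7 := le_of_mul_le_mul_left a5 hr
    linarith

end

end Pool.Agent.Lib.MP_4d5ce1_nt
end
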