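import Pool.Agent.Lib.MP_4d5ce1_nt.Cert3Tool

set_option autoImplicit false

/-!
Branch and bound certificate for `q = 3` (generated linear arithmetic; helper62, JOB U).
-/

namespace Pool.Agent.Lib.MP_4d5ce1_nt

namespace Cert3

theorem cert3_core (a01 a02 a03 a04 c0 J0 a11 a12 a13 a14 c1 J1 a21 a22 a23 a24 c2 J2 H K : ℝ)
    (hH : 0 ≤ H) (hK : 0 < K)
    (n01 : 0 ≤ a01)    (n02 : 0 ≤ a02)    (n03 : 0 ≤ a03)    (n04 : 0 ≤ a04)
    (nc0 : 0 ≤ c0) (j0 : 5 * c0 ≤ J0)
    (m0p : a01 + 2 * a02 + 3 * a03 + 4 * a04 + J0 - H ≤ K) (m0m : -K ≤ a01 + 2 * a02 + 3 * a03 + 4 * a04 + J0 - H)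
    (n11 : 0 ≤ a11)    (n12 : 0 ≤ a12)    (n13 : 0 ≤ a13)    (n14 : 0 ≤ a14)
    (nc1 : 0 ≤ c1) (j1 : 5 * c1 ≤ J1)
    (m1p : a11 + 2 * a12 + 3 * a13 + 4 * a14 + J1 - H ≤ K) (m1m : -K ≤ a11 + 2 * a12 + 3 * a13 + 4 * a14 + J1 - H)
    (n21 : 0 ≤ a21)    (n22 : 0 ≤ a22)    (n23 : 0 ≤ a23)    (n24 : 0 ≤ a24)
    (nc2 : 0 ≤ c2) (j2 : 5 * c2 ≤ J2)
    (m2p : a21 + 2 * a22 + 3 * a23 + 4 * a24 + J2 - H ≤ K) (m2m : -K ≤ a21 + 2 * a22 + 3 * a23 + 4 * a24 + J2 - H)
    (tot : a01 + a02 + a03 + a04 + c0 + (a11 + a12 + a13 + a14 + c1) + (a21 + a22 + a23 + a24 + c2) ≤ H + K)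
    (o01 : a11 + a12 + a13 + a14 + c1 ≤ a01 + a02 + a03 + a04 + c0)
    (o12 : a21 + a22 + a23 + a24 + c2 ≤ a11 + a12 + a13 + a14 + c1)
    (t0 : 80 / 133 * H + 10 * K < c0 + c1 + (a01 + a02 + a03 + 0) + (a11 + a12 + a13 + 0) + (0 + a23 + a24 + c2) ∨
      80 / 133 * H + 10 * K < c0 + c1 + (a01 + a02 + a03 + 0) + (a11 + a12 + a13 + 0) + (0 + a23 + a24 + c2) +
        (0 + 0 + 0 + 4 / 4 * a04) + (0 + 0 + 0 + 4 / 4 * a14) - (0 + 3 * a23 + 4 * a24 + J2))
    (t1 : 80 / 133 * H + 10 * K < c0 + c1 + (a01 + a02 + 0 + a04) + (a11 + a12 + 0 + a14) + (0 + a23 + a24 + c2) ∨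
      80 / 133 * H + 10 * K < c0 + c1 + (a01 + a02 + 0 + a04) + (a11 + a12 + 0 + a14) + (0 + a23 + a24 + c2) +
        (0 + 0 + 3 / 3 * a03 + 0) + (0 + 0 + 3 / 3 * a13 + 0) - (0 + 3 * a23 + 4 * a24 + J2))
    (t2 : 80 / 133 * H + 10 * K < c0 + c1 + (a01 + 0 + a03 + a04) + (a11 + 0 + a13 + a14) + (0 + a23 + a24 + c2) ∨
      80 / 133 * H + 10 * K < c0 + c1 + (a01 + 0 + a03 + a04) + (a11 + 0 + a13 + a14) + (0 + a23 + a24 + c2) +
        (0 + 2 / 2 * a02 + 0 + 0) + (0 + 2 / 2 * a12 + 0 + 0) - (0 + 3 * a23 + 4 * a24 + J2))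
    (t3 : 80 / 133 * H + 10 * K < c2 + c0 + (a21 + a22 + a23 + 0) + (a01 + 0 + a03 + a04) + (a12 + a13 + a14 + c1) ∨
      80 / 133 * H + 10 * K < c2 + c0 + (a21 + a22 + a23 + 0) + (a01 + 0 + a03 + a04) + (a12 + a13 + a14 + c1) +
        (0 + 0 + 0 + 4 / 2 * a24) + (0 + 2 / 2 * a02 + 0 + 0) - (2 * a12 + 3 * a13 + 4 * a14 + J1))
    (t4 : 80 / 133 * H + 10 * K < c1 + c2 + (a11 + a12 + a13 + a14) + (a21 + a22 + 0 + a24) + (0 + 0 + 0 + c0) ∨
      80 / 133 * H + 10 * K < c1 + c2 + (a11 + a12 + a13 + a14) + (a21 + a22 + 0 + a24) + (0 + 0 + 0 + c0) +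
        (0 + 0 + 0 + 0) + (0 + 0 + 3 / 3 * a23 + 0) - (0 + 0 + 0 + J0))
    (t5 : 80 / 133 * H + 10 * K < c1 + c2 + (0 + 0 + 0 + a14) + (0 + a22 + a23 + a24) + (0 + 0 + a04 + c0) ∨
      80 / 133 * H + 10 * K < c1 + c2 + (0 + 0 + 0 + a14) + (0 + a22 + a23 + a24) + (0 + 0 + a04 + c0) +
        (1 / 1 * a11 + 2 / 1 * a12 + 3 / 1 * a13 + 0) + (1 / 1 * a21 + 0 + 0 + 0) - (0 + 0 + 4 * a04 + J0))
    (t6 : 80 / 133 * H + 10 * K < c1 + c2 + (a11 + a12 + a13 + 0) + (a21 + 0 + a23 + 0) + (a02 + a03 + a04 + c0) ∨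
      80 / 133 * H + 10 * K < c1 + c2 + (a11 + a12 + a13 + 0) + (a21 + 0 + a23 + 0) + (a02 + a03 + a04 + c0) +
        (0 + 0 + 0 + 4 / 2 * a14) + (0 + 2 / 2 * a22 + 0 + 4 / 2 * a24) - (2 * a02 + 3 * a03 + 4 * a04 + J0))
    (t7 : 80 / 133 * H + 10 * K < c1 + c2 + (0 + 0 + a13 + a14) + (0 + 0 + 0 + a24) + (0 + 0 + a04 + c0) ∨
      80 / 133 * H + 10 * K < c1 + c2 + (0 + 0 + a13 + a14) + (0 + 0 + 0 + a24) + (0 + 0 + a04 + c0) +
        (1 / 1 * a11 + 2 / 1 * a12 + 0 + 0) + (1 / 1 * a21 + 2 / 1 * a22 + 3 / 1 * a23 + 0) - (0 + 0 + 4 * a04 + J0))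
    (t8 : 80 / 133 * H + 10 * K < c2 + c0 + (a21 + a22 + a23 + 0) + (a01 + a02 + a03 + 0) + (0 + 0 + a14 + c1) ∨
      80 / 133 * H + 10 * K < c2 + c0 + (a21 + a22 + a23 + 0) + (a01 + a02 + a03 + 0) + (0 + 0 + a14 + c1) +
        (0 + 0 + 0 + 4 / 4 * a24) + (0 + 0 + 0 + 4 / 4 * a04) - (0 + 0 + 4 * a14 + J1))
    (t9 : 80 / 133 * H + 10 * K < c1 + c2 + (a11 + 0 + a13 + 0) + (a21 + 0 + a23 + a24) + (0 + 0 + a04 + c0) ∨
      80 / 133 * H + 10 * K < c1 + c2 + (a11 + 0 + a13 + 0) + (a21 + 0 + a23 + a24) + (0 + 0 + a04 + c0) +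
        (0 + 2 / 2 * a12 + 0 + 4 / 2 * a14) + (0 + 2 / 2 * a22 + 0 + 0) - (0 + 0 + 4 * a04 + J0))
    (t10 : 80 / 133 * H + 10 * K < c1 + c2 + (0 + 0 + 0 + a14) + (0 + 0 + a23 + 0) + (0 + 0 + a04 + c0) ∨
      80 / 133 * H + 10 * K < c1 + c2 + (0 + 0 + 0 + a14) + (0 + 0 + a23 + 0) + (0 + 0 + a04 + c0) +
        (1 / 1 * a11 + 2 / 1 * a12 + 3 / 1 * a13 + 0) + (1 / 1 * a21 + 2 / 1 * a22 + 0 + 4 / 1 * a24) - (0 + 0 + 4 * a04 + J0))
    (t11 : 80 / 133 * H + 10 * K < c2 + c0 + (a21 + a22 + 0 + a24) + (a01 + a02 + a03 + a04) + (0 + 0 + 0 + c1) ∨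
      80 / 133 * H + 10 * K < c2 + c0 + (a21 + a22 + 0 + a24) + (a01 + a02 + a03 + a04) + (0 + 0 + 0 + c1) +
        (0 + 0 + 3 / 3 * a23 + 0) + (0 + 0 + 0 + 0) - (0 + 0 + 0 + J1))
    (t12 : 80 / 133 * H + 10 * K < c1 + c2 + (0 + a12 + a13 + a14) + (0 + 0 + 0 + a24) + (a02 + a03 + 0 + c0) ∨
      80 / 133 * H + 10 * K < c1 + c2 + (0 + a12 + a13 + a14) + (0 + 0 + 0 + a24) + (a02 + a03 + 0 + c0) +
        (1 / 1 * a11 + 0 + 0 + 0) + (1 / 1 * a21 + 2 / 1 * a22 + 3 / 1 * a23 + 0) - (2 * a02 + 3 * a03 + 0 + J0))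
    (t13 : 80 / 133 * H + 10 * K < c2 + c0 + (a21 + 0 + a23 + 0) + (a01 + 0 + a03 + a04) + (0 + a13 + 0 + c1) ∨
      80 / 133 * H + 10 * K < c2 + c0 + (a21 + 0 + a23 + 0) + (a01 + 0 + a03 + a04) + (0 + a13 + 0 + c1) +
        (0 + 2 / 2 * a22 + 0 + 4 / 2 * a24) + (0 + 2 / 2 * a02 + 0 + 0) - (0 + 3 * a13 + 0 + J1))
    (t14 : 80 / 133 * H + 10 * K < c1 + c2 + (0 + a12 + 0 + a14) + (0 + 0 + 0 + a24) + (a02 + a03 + a04 + c0) ∨
      80 / 133 * H + 10 * K < c1 + c2 + (0 + a12 + 0 + a14) + (0 + 0 + 0 + a24) + (a02 + a03 + a04 + c0) +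
        (1 / 1 * a11 + 0 + 3 / 1 * a13 + 0) + (1 / 1 * a21 + 2 / 1 * a22 + 3 / 1 * a23 + 0) - (2 * a02 + 3 * a03 + 4 * a04 + J0))
    (t15 : 80 / 133 * H + 10 * K < c2 + c0 + (a21 + 0 + a23 + 0) + (a01 + 0 + a03 + 0) + (0 + 0 + 0 + c1) ∨
      80 / 133 * H + 10 * K < c2 + c0 + (a21 + 0 + a23 + 0) + (a01 + 0 + a03 + 0) + (0 + 0 + 0 + c1) +
        (0 + 2 / 2 * a22 + 0 + 4 / 2 * a24) + (0 + 2 / 2 * a02 + 0 + 4 / 2 * a04) - (0 + 0 + 0 + J1))
    (t16 : 80 / 133 * H + 10 * K < c1 + c2 + (0 + a12 + a13 + a14) + (a21 + 0 + 0 + a24) + (a02 + a03 + a04 + c0) ∨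
      80 / 133 * H + 10 * K < c1 + c2 + (0 + a12 + a13 + a14) + (a21 + 0 + 0 + a24) + (a02 + a03 + a04 + c0) +
        (1 / 1 * a11 + 0 + 0 + 0) + (0 + 2 / 1 * a22 + 3 / 1 * a23 + 0) - (2 * a02 + 3 * a03 + 4 * a04 + J0))
    (t17 : 80 / 133 * H + 10 * K < c2 + c0 + (a21 + 0 + a23 + 0) + (a01 + 0 + a03 + 0) + (0 + 0 + a14 + c1) ∨
      80 / 133 * H + 10 * K < c2 + c0 + (a21 + 0 + a23 + 0) + (a01 + 0 + a03 + 0) + (0 + 0 + a14 + c1) +
        (0 + 2 / 2 * a22 + 0 + 4 / 2 * a24) + (0 + 2 / 2 * a02 + 0 + 4 / 2 * a04) - (0 + 0 + 4 * a14 + J1))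
    (t18 : 80 / 133 * H + 10 * K < c1 + c2 + (0 + a12 + a13 + a14) + (0 + 0 + 0 + a24) + (0 + a03 + a04 + c0) ∨
      80 / 133 * H + 10 * K < c1 + c2 + (0 + a12 + a13 + a14) + (0 + 0 + 0 + a24) + (0 + a03 + a04 + c0) +
        (1 / 1 * a11 + 0 + 0 + 0) + (1 / 1 * a21 + 2 / 1 * a22 + 3 / 1 * a23 + 0) - (0 + 3 * a03 + 4 * a04 + J0))
    (t19 : 80 / 133 * H + 10 * K < c1 + c2 + (a11 + 0 + a13 + 0) + (a21 + 0 + a23 + 0) + (a02 + a03 + 0 + 0) ∨
      80 / 133 * H + 10 * K < c1 + c2 + (a11 + 0 + a13 + 0) + (a21 + 0 + a23 + 0) + (a02 + a03 + 0 + 0) +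
        (0 + 2 / 2 * a12 + 0 + 4 / 2 * a14) + (0 + 2 / 2 * a22 + 0 + 4 / 2 * a24) - (2 * a02 + 3 * a03 + 0 + 0))
    (t20 : 80 / 133 * H + 10 * K < c1 + c2 + (a11 + a12 + 0 + a14) + (a21 + a22 + a23 + a24) + (0 + 0 + a04 + c0) ∨
      80 / 133 * H + 10 * K < c1 + c2 + (a11 + a12 + 0 + a14) + (a21 + a22 + a23 + a24) + (0 + 0 + a04 + c0) +
        (0 + 0 + 3 / 3 * a13 + 0) + (0 + 0 + 0 + 0) - (0 + 0 + 4 * a04 + J0))
    (t21 : 80 / 133 * H + 10 * K < c1 + c2 + (a11 + 0 + a13 + a14) + (a21 + a22 + a23 + a24) + (0 + 0 + a04 + c0) ∨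
      80 / 133 * H + 10 * K < c1 + c2 + (a11 + 0 + a13 + a14) + (a21 + a22 + a23 + a24) + (0 + 0 + a04 + c0) +
        (0 + 2 / 2 * a12 + 0 + 0) + (0 + 0 + 0 + 0) - (0 + 0 + 4 * a04 + J0))
    (t22 : 80 / 133 * H + 10 * K < c0 + c1 + (a01 + 0 + a03 + 0) + (a11 + 0 + a13 + 0) + (a22 + 0 + a24 + c2) ∨
      80 / 133 * H + 10 * K < c0 + c1 + (a01 + 0 + a03 + 0) + (a11 + 0 + a13 + 0) + (a22 + 0 + a24 + c2) +
        (0 + 2 / 2 * a02 + 0 + 4 / 2 * a04) + (0 + 2 / 2 * a12 + 0 + 4 / 2 * a14) - (2 * a22 + 0 + 4 * a24 + J2))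
    (t23 : 80 / 133 * H + 10 * K < c1 + c2 + (0 + 0 + a13 + a14) + (0 + 0 + a23 + a24) + (0 + 0 + a04 + c0) ∨
      80 / 133 * H + 10 * K < c1 + c2 + (0 + 0 + a13 + a14) + (0 + 0 + a23 + a24) + (0 + 0 + a04 + c0) +
        (1 / 1 * a11 + 2 / 1 * a12 + 0 + 0) + (1 / 1 * a21 + 2 / 1 * a22 + 0 + 0) - (0 + 0 + 4 * a04 + J0))
    (t24 : 80 / 133 * H + 10 * K < c1 + c2 + (a11 + a12 + 0 + a14) + (a21 + a22 + 0 + a24) + (0 + 0 + a04 + c0) ∨
      80 / 133 * H + 10 * K < c1 + c2 + (a11 + a12 + 0 + a14) + (a21 + a22 + 0 + a24) + (0 + 0 + a04 + c0) +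
        (0 + 0 + 3 / 3 * a13 + 0) + (0 + 0 + 3 / 3 * a23 + 0) - (0 + 0 + 4 * a04 + J0))
    (t25 : 80 / 133 * H + 10 * K < c1 + c2 + (0 + 0 + 0 + a14) + (0 + a22 + a23 + a24) + (a02 + a03 + a04 + c0) ∨
      80 / 133 * H + 10 * K < c1 + c2 + (0 + 0 + 0 + a14) + (0 + a22 + a23 + a24) + (a02 + a03 + a04 + c0) +
        (1 / 1 * a11 + 2 / 1 * a12 + 3 / 1 * a13 + 0) + (1 / 1 * a21 + 0 + 0 + 0) - (2 * a02 + 3 * a03 + 4 * a04 + J0))
    (t26 : 80 / 133 * H + 10 * K < c2 + c0 + (a21 + 0 + a23 + 0) + (a01 + a02 + a03 + 0) + (0 + a13 + 0 + c1) ∨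
      80 / 133 * H + 10 * K < c2 + c0 + (a21 + 0 + a23 + 0) + (a01 + a02 + a03 + 0) + (0 + a13 + 0 + c1) +
        (0 + 2 / 2 * a22 + 0 + 4 / 2 * a24) + (0 + 0 + 0 + 4 / 2 * a04) - (0 + 3 * a13 + 0 + J1))
    (t27 : 80 / 133 * H + 10 * K < c2 + c0 + (a21 + a22 + a23 + a24) + (a01 + a02 + a03 + 0) + (a12 + 0 + a14 + c1) ∨
      80 / 133 * H + 10 * K < c2 + c0 + (a21 + a22 + a23 + a24) + (a01 + a02 + a03 + 0) + (a12 + 0 + a14 + c1) +
        (0 + 0 + 0 + 0) + (0 + 0 + 0 + 4 / 4 * a04) - (2 * a12 + 0 + 4 * a14 + J1))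
    (t28 : 80 / 133 * H + 10 * K < c2 + c0 + (a21 + a22 + a23 + 0) + (a01 + a02 + a03 + 0) + (0 + a13 + 0 + 0) ∨
      80 / 133 * H + 10 * K < c2 + c0 + (a21 + a22 + a23 + 0) + (a01 + a02 + a03 + 0) + (0 + a13 + 0 + 0) +
        (0 + 0 + 0 + 4 / 4 * a24) + (0 + 0 + 0 + 4 / 4 * a04) - (0 + 3 * a13 + 0 + 0))
    (t29 : 80 / 133 * H + 10 * K < c2 + c0 + (a21 + 0 + a23 + 0) + (a01 + 0 + a03 + 0) + (0 + a13 + a14 + c1) ∨
      80 / 133 * H + 10 * K < c2 + c0 + (a21 + 0 + a23 + 0) + (a01 + 0 + a03 + 0) + (0 + a13 + a14 + c1) +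
        (0 + 2 / 2 * a22 + 0 + 4 / 2 * a24) + (0 + 2 / 2 * a02 + 0 + 4 / 2 * a04) - (0 + 3 * a13 + 4 * a14 + J1))
    (t30 : 80 / 133 * H + 10 * K < c2 + c0 + (a21 + a22 + 0 + a24) + (a01 + a02 + 0 + a04) + (0 + 0 + a14 + c1) ∨
      80 / 133 * H + 10 * K < c2 + c0 + (a21 + a22 + 0 + a24) + (a01 + a02 + 0 + a04) + (0 + 0 + a14 + c1) +
        (0 + 0 + 3 / 3 * a23 + 0) + (0 + 0 + 3 / 3 * a03 + 0) - (0 + 0 + 4 * a14 + J1))
    (t31 : 80 / 133 * H + 10 * K < c1 + c2 + (0 + 0 + 0 + a14) + (0 + 0 + a23 + 0) + (0 + a03 + 0 + 0) ∨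
      80 / 133 * H + 10 * K < c1 + c2 + (0 + 0 + 0 + a14) + (0 + 0 + a23 + 0) + (0 + a03 + 0 + 0) +
        (1 / 1 * a11 + 2 / 1 * a12 + 3 / 1 * a13 + 0) + (1 / 1 * a21 + 2 / 1 * a22 + 0 + 4 / 1 * a24) - (0 + 3 * a03 + 0 + 0))
    (t32 : 80 / 133 * H + 10 * K < c0 + c1 + (a01 + 0 + a03 + a04) + (a11 + a12 + a13 + 0) + (0 + 0 + a24 + c2) ∨
      80 / 133 * H + 10 * K < c0 + c1 + (a01 + 0 + a03 + a04) + (a11 + a12 + a13 + 0) + (0 + 0 + a24 + c2) +
        (0 + 2 / 2 * a02 + 0 + 0) + (0 + 0 + 0 + 4 / 2 * a14) - (0 + 0 + 4 * a24 + J2))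
    (t33 : 80 / 133 * H + 10 * K < c1 + c2 + (0 + 0 + a13 + 0) + (0 + 0 + a23 + a24) + (0 + a03 + a04 + 0) ∨
      80 / 133 * H + 10 * K < c1 + c2 + (0 + 0 + a13 + 0) + (0 + 0 + a23 + a24) + (0 + a03 + a04 + 0) +
        (1 / 1 * a11 + 2 / 1 * a12 + 0 + 4 / 1 * a14) + (1 / 1 * a21 + 2 / 1 * a22 + 0 + 0) - (0 + 3 * a03 + 4 * a04 + 0))
    (t34 : 80 / 133 * H + 10 * K < c1 + c2 + (0 + a12 + a13 + a14) + (0 + a22 + a23 + a24) + (a02 + 0 + 0 + 0) ∨
      80 / 133 * H + 10 * K < c1 + c2 + (0 + a12 + a13 + a14) + (0 + a22 + a23 + a24) + (a02 + 0 + 0 + 0) +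
        (1 / 1 * a11 + 0 + 0 + 0) + (1 / 1 * a21 + 0 + 0 + 0) - (2 * a02 + 0 + 0 + 0))
    (t35 : 80 / 133 * H + 10 * K < c1 + c2 + (0 + 0 + a13 + a14) + (0 + a22 + a23 + a24) + (a02 + 0 + a04 + c0) ∨
      80 / 133 * H + 10 * K < c1 + c2 + (0 + 0 + a13 + a14) + (0 + a22 + a23 + a24) + (a02 + 0 + a04 + c0) +
        (1 / 1 * a11 + 2 / 1 * a12 + 0 + 0) + (1 / 1 * a21 + 0 + 0 + 0) - (2 * a02 + 0 + 4 * a04 + J0))
    (t36 : 80 / 133 * H + 10 * K < c2 + c0 + (a21 + a22 + 0 + a24) + (a01 + a02 + 0 + a04) + (0 + 0 + 0 + c1) ∨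
      80 / 133 * H + 10 * K < c2 + c0 + (a21 + a22 + 0 + a24) + (a01 + a02 + 0 + a04) + (0 + 0 + 0 + c1) +
        (0 + 0 + 3 / 3 * a23 + 0) + (0 + 0 + 3 / 3 * a03 + 0) - (0 + 0 + 0 + J1))
    (t37 : 80 / 133 * H + 10 * K < c0 + c1 + (a01 + a02 + 0 + a04) + (a11 + a12 + a13 + a14) + (0 + 0 + 0 + c2) ∨
      80 / 133 * H + 10 * K < c0 + c1 + (a01 + a02 + 0 + a04) + (a11 + a12 + a13 + a14) + (0 + 0 + 0 + c2) +
        (0 + 0 + 3 / 3 * a03 + 0) + (0 + 0 + 0 + 0) - (0 + 0 + 0 + J2))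
    (t38 : 80 / 133 * H + 10 * K < c1 + c2 + (a11 + a12 + a13 + a14) + (0 + a22 + a23 + a24) + (0 + 0 + a04 + 0) ∨
      80 / 133 * H + 10 * K < c1 + c2 + (a11 + a12 + a13 + a14) + (0 + a22 + a23 + a24) + (0 + 0 + a04 + 0) +
        (0 + 0 + 0 + 0) + (1 / 1 * a21 + 0 + 0 + 0) - (0 + 0 + 4 * a04 + 0))
    (t39 : 80 / 133 * H + 10 * K < c1 + c2 + (a11 + 0 + a13 + 0) + (a21 + 0 + a23 + 0) + (0 + a03 + 0 + 0) ∨
      80 / 133 * H + 10 * K < c1 + c2 + (a11 + 0 + a13 + 0) + (a21 + 0 + a23 + 0) + (0 + a03 + 0 + 0) +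
        (0 + 2 / 2 * a12 + 0 + 4 / 2 * a14) + (0 + 2 / 2 * a22 + 0 + 4 / 2 * a24) - (0 + 3 * a03 + 0 + 0))
    (t40 : 80 / 133 * H + 10 * K < c1 + c2 + (0 + 0 + a13 + a14) + (0 + 0 + 0 + a24) + (a02 + 0 + a04 + c0) ∨
      80 / 133 * H + 10 * K < c1 + c2 + (0 + 0 + a13 + a14) + (0 + 0 + 0 + a24) + (a02 + 0 + a04 + c0) +
        (1 / 1 * a11 + 2 / 1 * a12 + 0 + 0) + (1 / 1 * a21 + 2 / 1 * a22 + 3 / 1 * a23 + 0) - (2 * a02 + 0 + 4 * a04 + J0))
    (t41 : 80 / 133 * H + 10 * K < c1 + c2 + (0 + 0 + 0 + a14) + (0 + 0 + a23 + 0) + (0 + a03 + a04 + c0) ∨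
      80 / 133 * H + 10 * K < c1 + c2 + (0 + 0 + 0 + a14) + (0 + 0 + a23 + 0) + (0 + a03 + a04 + c0) +
        (1 / 1 * a11 + 2 / 1 * a12 + 3 / 1 * a13 + 0) + (1 / 1 * a21 + 2 / 1 * a22 + 0 + 4 / 1 * a24) - (0 + 3 * a03 + 4 * a04 + J0))
    (t42 : 80 / 133 * H + 10 * K < c1 + c2 + (a11 + 0 + a13 + 0) + (a21 + 0 + a23 + 0) + (0 + a03 + 0 + c0) ∨
      80 / 133 * H + 10 * K < c1 + c2 + (a11 + 0 + a13 + 0) + (a21 + 0 + a23 + 0) + (0 + a03 + 0 + c0) +
        (0 + 2 / 2 * a12 + 0 + 4 / 2 * a14) + (0 + 2 / 2 * a22 + 0 + 4 / 2 * a24) - (0 + 3 * a03 + 0 + J0))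
    (t43 : 80 / 133 * H + 10 * K < c1 + c2 + (a11 + a12 + a13 + 0) + (a21 + a22 + a23 + 0) + (a02 + 0 + 0 + 0) ∨
      80 / 133 * H + 10 * K < c1 + c2 + (a11 + a12 + a13 + 0) + (a21 + a22 + a23 + 0) + (a02 + 0 + 0 + 0) +
        (0 + 0 + 0 + 4 / 4 * a14) + (0 + 0 + 0 + 4 / 4 * a24) - (2 * a02 + 0 + 0 + 0))
    (t44 : 80 / 133 * H + 10 * K < c2 + c0 + (a21 + 0 + a23 + 0) + (a01 + 0 + a03 + a04) + (0 + 0 + 0 + c1) ∨
      80 / 133 * H + 10 * K < c2 + c0 + (a21 + 0 + a23 + 0) + (a01 + 0 + a03 + a04) + (0 + 0 + 0 + c1) +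
        (0 + 2 / 2 * a22 + 0 + 4 / 2 * a24) + (0 + 2 / 2 * a02 + 0 + 0) - (0 + 0 + 0 + J1))
    (t45 : 80 / 133 * H + 10 * K < c2 + c0 + (0 + 0 + 0 + a24) + (a01 + 0 + a03 + a04) + (0 + 0 + a14 + c1) ∨
      80 / 133 * H + 10 * K < c2 + c0 + (0 + 0 + 0 + a24) + (a01 + 0 + a03 + a04) + (0 + 0 + a14 + c1) +
        (1 / 1 * a21 + 2 / 1 * a22 + 3 / 1 * a23 + 0) + (0 + 2 / 1 * a02 + 0 + 0) - (0 + 0 + 4 * a14 + J1))
    (t46 : 80 / 133 * H + 10 * K < c2 + c0 + (a21 + a22 + a23 + a24) + (a01 + a02 + 0 + a04) + (0 + 0 + 0 + c1) ∨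
      80 / 133 * H + 10 * K < c2 + c0 + (a21 + a22 + a23 + a24) + (a01 + a02 + 0 + a04) + (0 + 0 + 0 + c1) +
        (0 + 0 + 0 + 0) + (0 + 0 + 3 / 3 * a03 + 0) - (0 + 0 + 0 + J1))
    (t47 : 80 / 133 * H + 10 * K < c0 + c1 + (a01 + 0 + a03 + a04) + (a11 + 0 + a13 + 0) + (0 + 0 + 0 + c2) ∨
      80 / 133 * H + 10 * K < c0 + c1 + (a01 + 0 + a03 + a04) + (a11 + 0 + a13 + 0) + (0 + 0 + 0 + c2) +
        (0 + 2 / 2 * a02 + 0 + 0) + (0 + 2 / 2 * a12 + 0 + 4 / 2 * a14) - (0 + 0 + 0 + J2))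
    (t48 : 80 / 133 * H + 10 * K < c1 + c2 + (a11 + a12 + a13 + 0) + (a21 + 0 + a23 + 0) + (0 + a03 + 0 + 0) ∨
      80 / 133 * H + 10 * K < c1 + c2 + (a11 + a12 + a13 + 0) + (a21 + 0 + a23 + 0) + (0 + a03 + 0 + 0) +
        (0 + 0 + 0 + 4 / 2 * a14) + (0 + 2 / 2 * a22 + 0 + 4 / 2 * a24) - (0 + 3 * a03 + 0 + 0))
    (t49 : 80 / 133 * H + 10 * K < c2 + c0 + (0 + 0 + a23 + a24) + (a01 + 0 + a03 + a04) + (0 + 0 + a14 + c1) ∨
      80 / 133 * H + 10 * K < c2 + c0 + (0 + 0 + a23 + a24) + (a01 + 0 + a03 + a04) + (0 + 0 + a14 + c1) +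
        (1 / 1 * a21 + 2 / 1 * a22 + 0 + 0) + (0 + 2 / 1 * a02 + 0 + 0) - (0 + 0 + 4 * a14 + J1))
    (t50 : 80 / 133 * H + 10 * K < c1 + c2 + (0 + 0 + a13 + 0) + (0 + 0 + 0 + 0) + (0 + a03 + 0 + 0) ∨
      80 / 133 * H + 10 * K < c1 + c2 + (0 + 0 + a13 + 0) + (0 + 0 + 0 + 0) + (0 + a03 + 0 + 0) +
        (1 / 1 * a11 + 2 / 1 * a12 + 0 + 4 / 1 * a14) + (1 / 1 * a21 + 2 / 1 * a22 + 3 / 1 * a23 + 4 / 1 * a24) - (0 + 3 * a03 + 0 + 0))
    (t51 : 80 / 133 * H + 10 * K < c2 + c0 + (a21 + a22 + 0 + a24) + (a01 + a02 + 0 + a04) + (0 + a13 + a14 + c1) ∨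
      80 / 133 * H + 10 * K < c2 + c0 + (a21 + a22 + 0 + a24) + (a01 + a02 + 0 + a04) + (0 + a13 + a14 + c1) +
        (0 + 0 + 3 / 3 * a23 + 0) + (0 + 0 + 3 / 3 * a03 + 0) - (0 + 3 * a13 + 4 * a14 + J1))
    (t52 : 80 / 133 * H + 10 * K < c1 + c2 + (a11 + a12 + a13 + 0) + (a21 + a22 + a23 + 0) + (a02 + 0 + a04 + 0) ∨
      80 / 133 * H + 10 * K < c1 + c2 + (a11 + a12 + a13 + 0) + (a21 + a22 + a23 + 0) + (a02 + 0 + a04 + 0) +
        (0 + 0 + 0 + 4 / 4 * a14) + (0 + 0 + 0 + 4 / 4 * a24) - (2 * a02 + 0 + 4 * a04 + 0))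
    (t53 : 80 / 133 * H + 10 * K < c1 + c2 + (a11 + a12 + 0 + a14) + (a21 + a22 + 0 + a24) + (a02 + 0 + a04 + 0) ∨
      80 / 133 * H + 10 * K < c1 + c2 + (a11 + a12 + 0 + a14) + (a21 + a22 + 0 + a24) + (a02 + 0 + a04 + 0) +
        (0 + 0 + 3 / 3 * a13 + 0) + (0 + 0 + 3 / 3 * a23 + 0) - (2 * a02 + 0 + 4 * a04 + 0))
    (t54 : 80 / 133 * H + 10 * K < c2 + c0 + (a21 + a22 + a23 + 0) + (a01 + 0 + a03 + 0) + (a12 + a13 + a14 + c1) ∨
      80 / 133 * H + 10 * K < c2 + c0 + (a21 + a22 + a23 + 0) + (a01 + 0 + a03 + 0) + (a12 + a13 + a14 + c1) +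
        (0 + 0 + 0 + 4 / 2 * a24) + (0 + 2 / 2 * a02 + 0 + 4 / 2 * a04) - (2 * a12 + 3 * a13 + 4 * a14 + J1))
    (t55 : 80 / 133 * H + 10 * K < c0 + c1 + (a01 + 0 + a03 + 0) + (a11 + 0 + a13 + 0) + (0 + a23 + a24 + c2) ∨
      80 / 133 * H + 10 * K < c0 + c1 + (a01 + 0 + a03 + 0) + (a11 + 0 + a13 + 0) + (0 + a23 + a24 + c2) +
        (0 + 2 / 2 * a02 + 0 + 4 / 2 * a04) + (0 + 2 / 2 * a12 + 0 + 4 / 2 * a14) - (0 + 3 * a23 + 4 * a24 + J2))
    (t56 : 80 / 133 * H + 10 * K < c1 + c2 + (0 + 0 + 0 + a14) + (0 + 0 + 0 + a24) + (a02 + 0 + a04 + 0) ∨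
      80 / 133 * H + 10 * K < c1 + c2 + (0 + 0 + 0 + a14) + (0 + 0 + 0 + a24) + (a02 + 0 + a04 + 0) +
        (1 / 1 * a11 + 2 / 1 * a12 + 3 / 1 * a13 + 0) + (1 / 1 * a21 + 2 / 1 * a22 + 3 / 1 * a23 + 0) - (2 * a02 + 0 + 4 * a04 + 0))
    (t57 : 80 / 133 * H + 10 * K < c1 + c2 + (0 + a12 + a13 + a14) + (0 + a22 + a23 + a24) + (0 + 0 + a04 + 0) ∨
      80 / 133 * H + 10 * K < c1 + c2 + (0 + a12 + a13 + a14) + (0 + a22 + a23 + a24) + (0 + 0 + a04 + 0) +
        (1 / 1 * a11 + 0 + 0 + 0) + (1 / 1 * a21 + 0 + 0 + 0) - (0 + 0 + 4 * a04 + 0))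
    (t58 : 80 / 133 * H + 10 * K < c2 + c0 + (a21 + a22 + a23 + a24) + (a01 + 0 + a03 + 0) + (0 + 0 + a14 + c1) ∨
      80 / 133 * H + 10 * K < c2 + c0 + (a21 + a22 + a23 + a24) + (a01 + 0 + a03 + 0) + (0 + 0 + a14 + c1) +
        (0 + 0 + 0 + 0) + (0 + 2 / 2 * a02 + 0 + 4 / 2 * a04) - (0 + 0 + 4 * a14 + J1))
    (t59 : 80 / 133 * H + 10 * K < c0 + c1 + (a01 + a02 + 0 + a04) + (a11 + a12 + 0 + a14) + (0 + 0 + 0 + c2) ∨
      80 / 133 * H + 10 * K < c0 + c1 + (a01 + a02 + 0 + a04) + (a11 + a12 + 0 + a14) + (0 + 0 + 0 + c2) +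
        (0 + 0 + 3 / 3 * a03 + 0) + (0 + 0 + 3 / 3 * a13 + 0) - (0 + 0 + 0 + J2))
    (t60 : 80 / 133 * H + 10 * K < c1 + c2 + (0 + 0 + a13 + a14) + (0 + 0 + 0 + a24) + (0 + 0 + a04 + 0) ∨
      80 / 133 * H + 10 * K < c1 + c2 + (0 + 0 + a13 + a14) + (0 + 0 + 0 + a24) + (0 + 0 + a04 + 0) +
        (1 / 1 * a11 + 2 / 1 * a12 + 0 + 0) + (1 / 1 * a21 + 2 / 1 * a22 + 3 / 1 * a23 + 0) - (0 + 0 + 4 * a04 + 0))
    (t61 : 80 / 133 * H + 10 * K < c1 + c2 + (0 + a12 + 0 + a14) + (0 + 0 + a23 + a24) + (0 + a03 + a04 + c0) ∨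
      80 / 133 * H + 10 * K < c1 + c2 + (0 + a12 + 0 + a14) + (0 + 0 + a23 + a24) + (0 + a03 + a04 + c0) +
        (1 / 1 * a11 + 0 + 3 / 1 * a13 + 0) + (1 / 1 * a21 + 2 / 1 * a22 + 0 + 0) - (0 + 3 * a03 + 4 * a04 + J0))
    (t62 : 80 / 133 * H + 10 * K < c2 + c0 + (a21 + a22 + 0 + a24) + (a01 + a02 + 0 + a04) + (0 + a13 + 0 + 0) ∨
      80 / 133 * H + 10 * K < c2 + c0 + (a21 + a22 + 0 + a24) + (a01 + a02 + 0 + a04) + (0 + a13 + 0 + 0) +
        (0 + 0 + 3 / 3 * a23 + 0) + (0 + 0 + 3 / 3 * a03 + 0) - (0 + 3 * a13 + 0 + 0))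
    (t63 : 80 / 133 * H + 10 * K < c1 + c2 + (0 + a12 + 0 + a14) + (0 + 0 + a23 + a24) + (0 + a03 + a04 + 0) ∨
      80 / 133 * H + 10 * K < c1 + c2 + (0 + a12 + 0 + a14) + (0 + 0 + a23 + a24) + (0 + a03 + a04 + 0) +
        (1 / 1 * a11 + 0 + 3 / 1 * a13 + 0) + (1 / 1 * a21 + 2 / 1 * a22 + 0 + 0) - (0 + 3 * a03 + 4 * a04 + 0))
    (t64 : 80 / 133 * H + 10 * K < c0 + c1 + (a01 + 0 + a03 + a04) + (a11 + a12 + a13 + 0) + (0 + 0 + 0 + c2) ∨
      80 / 133 * H + 10 * K < c0 + c1 + (a01 + 0 + a03 + a04) + (a11 + a12 + a13 + 0) + (0 + 0 + 0 + c2) +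
        (0 + 2 / 2 * a02 + 0 + 0) + (0 + 0 + 0 + 4 / 2 * a14) - (0 + 0 + 0 + J2))
    (t65 : 80 / 133 * H + 10 * K < c1 + c2 + (a11 + a12 + a13 + 0) + (a21 + a22 + a23 + 0) + (0 + a03 + 0 + c0) ∨
      80 / 133 * H + 10 * K < c1 + c2 + (a11 + a12 + a13 + 0) + (a21 + a22 + a23 + 0) + (0 + a03 + 0 + c0) +
        (0 + 0 + 0 + 4 / 4 * a14) + (0 + 0 + 0 + 4 / 4 * a24) - (0 + 3 * a03 + 0 + J0))
    (t66 : 80 / 133 * H + 10 * K < c2 + c0 + (a21 + 0 + a23 + 0) + (a01 + 0 + a03 + a04) + (0 + 0 + a14 + c1) ∨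
      80 / 133 * H + 10 * K < c2 + c0 + (a21 + 0 + a23 + 0) + (a01 + 0 + a03 + a04) + (0 + 0 + a14 + c1) +
        (0 + 2 / 2 * a22 + 0 + 4 / 2 * a24) + (0 + 2 / 2 * a02 + 0 + 0) - (0 + 0 + 4 * a14 + J1))
    (t67 : 80 / 133 * H + 10 * K < c2 + c0 + (a21 + a22 + a23 + 0) + (a01 + a02 + a03 + 0) + (0 + 0 + a14 + 0) ∨
      80 / 133 * H + 10 * K < c2 + c0 + (a21 + a22 + a23 + 0) + (a01 + a02 + a03 + 0) + (0 + 0 + a14 + 0) +
        (0 + 0 + 0 + 4 / 4 * a24) + (0 + 0 + 0 + 4 / 4 * a04) - (0 + 0 + 4 * a14 + 0))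
    (t68 : 80 / 133 * H + 10 * K < c1 + c2 + (a11 + a12 + 0 + a14) + (a21 + a22 + 0 + a24) + (0 + 0 + a04 + 0) ∨
      80 / 133 * H + 10 * K < c1 + c2 + (a11 + a12 + 0 + a14) + (a21 + a22 + 0 + a24) + (0 + 0 + a04 + 0) +
        (0 + 0 + 3 / 3 * a13 + 0) + (0 + 0 + 3 / 3 * a23 + 0) - (0 + 0 + 4 * a04 + 0))
    (t69 : 80 / 133 * H + 10 * K < c1 + c2 + (a11 + a12 + 0 + a14) + (a21 + a22 + a23 + a24) + (0 + 0 + a04 + 0) ∨
      80 / 133 * H + 10 * K < c1 + c2 + (a11 + a12 + 0 + a14) + (a21 + a22 + a23 + a24) + (0 + 0 + a04 + 0) +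
        (0 + 0 + 3 / 3 * a13 + 0) + (0 + 0 + 0 + 0) - (0 + 0 + 4 * a04 + 0))
    (t70 : 80 / 133 * H + 10 * K < c2 + c0 + (a21 + a22 + a23 + 0) + (a01 + a02 + a03 + 0) + (a12 + 0 + a14 + c1) ∨
      80 / 133 * H + 10 * K < c2 + c0 + (a21 + a22 + a23 + 0) + (a01 + a02 + a03 + 0) + (a12 + 0 + a14 + c1) +
        (0 + 0 + 0 + 4 / 4 * a24) + (0 + 0 + 0 + 4 / 4 * a04) - (2 * a12 + 0 + 4 * a14 + J1))
    (t71 : 80 / 133 * H + 10 * K < c1 + c2 + (0 + a12 + a13 + a14) + (0 + 0 + a23 + a24) + (0 + 0 + a04 + 0) ∨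
      80 / 133 * H + 10 * K < c1 + c2 + (0 + a12 + a13 + a14) + (0 + 0 + a23 + a24) + (0 + 0 + a04 + 0) +
        (1 / 1 * a11 + 0 + 0 + 0) + (1 / 1 * a21 + 2 / 1 * a22 + 0 + 0) - (0 + 0 + 4 * a04 + 0))
    (t72 : 80 / 133 * H + 10 * K < c0 + c1 + (a01 + a02 + a03 + 0) + (a11 + a12 + a13 + 0) + (0 + 0 + a24 + c2) ∨
      80 / 133 * H + 10 * K < c0 + c1 + (a01 + a02 + a03 + 0) + (a11 + a12 + a13 + 0) + (0 + 0 + a24 + c2) +
        (0 + 0 + 0 + 4 / 4 * a04) + (0 + 0 + 0 + 4 / 4 * a14) - (0 + 0 + 4 * a24 + J2))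
    (t73 : 80 / 133 * H + 10 * K < c1 + c2 + (a11 + a12 + 0 + a14) + (a21 + a22 + 0 + a24) + (0 + a03 + 0 + 0) ∨
      80 / 133 * H + 10 * K < c1 + c2 + (a11 + a12 + 0 + a14) + (a21 + a22 + 0 + a24) + (0 + a03 + 0 + 0) +
        (0 + 0 + 3 / 3 * a13 + 0) + (0 + 0 + 3 / 3 * a23 + 0) - (0 + 3 * a03 + 0 + 0))
    (t74 : 80 / 133 * H + 10 * K < c1 + c2 + (a11 + 0 + a13 + a14) + (a21 + 0 + a23 + a24) + (0 + 0 + a04 + 0) ∨
      80 / 133 * H + 10 * K < c1 + c2 + (a11 + 0 + a13 + a14) + (a21 + 0 + a23 + a24) + (0 + 0 + a04 + 0) +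
        (0 + 2 / 2 * a12 + 0 + 0) + (0 + 2 / 2 * a22 + 0 + 0) - (0 + 0 + 4 * a04 + 0))
    (t75 : 80 / 133 * H + 10 * K < c0 + c1 + (a01 + a02 + 0 + a04) + (a11 + a12 + 0 + a14) + (0 + a23 + 0 + c2) ∨
      80 / 133 * H + 10 * K < c0 + c1 + (a01 + a02 + 0 + a04) + (a11 + a12 + 0 + a14) + (0 + a23 + 0 + c2) +
        (0 + 0 + 3 / 3 * a03 + 0) + (0 + 0 + 3 / 3 * a13 + 0) - (0 + 3 * a23 + 0 + J2))
    (t76 : 80 / 133 * H + 10 * K < c2 + c0 + (a21 + a22 + 0 + a24) + (a01 + a02 + 0 + a04) + (0 + a13 + 0 + c1) ∨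
      80 / 133 * H + 10 * K < c2 + c0 + (a21 + a22 + 0 + a24) + (a01 + a02 + 0 + a04) + (0 + a13 + 0 + c1) +
        (0 + 0 + 3 / 3 * a23 + 0) + (0 + 0 + 3 / 3 * a03 + 0) - (0 + 3 * a13 + 0 + J1))
    (t77 : 80 / 133 * H + 10 * K < c1 + c2 + (a11 + a12 + a13 + 0) + (a21 + 0 + a23 + 0) + (0 + a03 + 0 + c0) ∨
      80 / 133 * H + 10 * K < c1 + c2 + (a11 + a12 + a13 + 0) + (a21 + 0 + a23 + 0) + (0 + a03 + 0 + c0) +
        (0 + 0 + 0 + 4 / 2 * a14) + (0 + 2 / 2 * a22 + 0 + 4 / 2 * a24) - (0 + 3 * a03 + 0 + J0))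
    (t78 : 80 / 133 * H + 10 * K < c2 + c0 + (a21 + a22 + a23 + a24) + (a01 + a02 + 0 + a04) + (0 + a13 + 0 + c1) ∨
      80 / 133 * H + 10 * K < c2 + c0 + (a21 + a22 + a23 + a24) + (a01 + a02 + 0 + a04) + (0 + a13 + 0 + c1) +
        (0 + 0 + 0 + 0) + (0 + 0 + 3 / 3 * a03 + 0) - (0 + 3 * a13 + 0 + J1)) : False := by
  rcases t0 with h0 | h0
  · rcases t1 with h1 | h1
    · rcases t2 with h2 | h2
      · rcases t3 with h3 | h3
        · rcases t4 with h4 | h4
          · rcases t5 with h5 | h5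
            · rcases t6 with h6 | h6
              · rcases t7 with h7 | h7
                · rcases t8 with h8 | h8
                  · linarith only [h0, h5, h6, h7, h8, j0, j1, j2, n02, n03, n12, m0p, m1p, m2p, hH, hK]
                  · linarith only [h5, h8, j0, j1, n21, tot, o01, o12, n02, n03, nc0, nc1, m0p, hH, hK]
                · rcases t9 with h8 | h8
                  · rcases t10 with h9 | h9
                    · rcases t11 with h10 | h10
                      · linarith only [h4, h7, h9, h10, j0, j1, n21, j2, tot, o01, o12, n04, n13, n14, n24, m1p, m2p, hH, hK]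
                      · linarith only [h4, h7, h8, h9, h10, j0, j1, j2, tot, o01, o12, n02, n03, n04, n22, n24, m0p, m2p, hH, hK]
                    · rcases t12 with h10 | h10
                      · rcases t13 with h11 | h11
                        · linarith only [h4, h5, h7, h8, h9, h10, h11, j0, j1, n21, j2, o01, o12, n03, n04, nc2, m0p, m1p, m2p, hH, hK]
                        · linarith only [h4, h5, h7, h8, h9, h11, j0, j1, j2, tot, o01, o12, n12, n13, nc2, m1m, m2p, hH, hK]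
                      · rcases t14 with h11 | h11
                        · rcases t15 with h12 | h12
                          · linarith only [h4, h5, h8, h9, h10, h11, h12, j0, j1, j2, tot, o01, o12, n02, n14, nc2, m0m, m1p, m2p, hH, hK]
                          · linarith only [h4, h5, h7, h8, h10, h11, h12, j0, j1, n21, j2, tot, o01, o12, n03, nc2, m0m, m2p, hH, hK]
                        · rcases t16 with h12 | h12
                          · rcases t17 with h13 | h13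
                            · linarith only [h4, h5, h7, h8, h9, h10, h12, h13, j0, n11, j1, j2, tot, o01, o12, n02, m0m, m1p, m2p, hH, hK]
                            · linarith only [h4, h5, h7, h8, h11, h13, j0, n11, j1, n21, tot, o01, o12, n14, nc2, m0m, m1m, hH, hK]
                          · linarith only [h4, h5, h9, h12, j0, j1, n21, tot, o01, o12, nc1, nc2, m0m, m1p, hH, hK]
                  · rcases t18 with h9 | h9
                    · rcases t19 with h10 | h10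
                      · linarith only [h1, h4, h5, h8, h9, h10, j0, j1, n21, j2, o01, o12, n02, nc0, n12, n13, m0p, m1p, m2p, hH, hK]
                      · linarith only [h0, h4, h5, h6, h8, h9, h10, n01, j0, j1, j2, tot, o01, o12, n13, nc1, m0p, m1p, m2p, hH, hK]
                    · linarith only [h4, h6, h8, h9, n01, tot, n04, n24, m0m, hH, hK]
              · linarith only [h6, n11, n21, tot, n12, n13, j1, nc1, n22, n23, j2, nc2, m0m, m1p, m2p, hH, hK]
            · rcases t20 with h6 | h6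
              · rcases t21 with h7 | h7
                · rcases t22 with h8 | h8
                  · rcases t23 with h9 | h9
                    · rcases t8 with h10 | h10
                      · rcases t24 with h11 | h11
                        · rcases t25 with h12 | h12
                          · linarith only [h1, h5, h8, h9, h10, h11, h12, j0, j1, j2, tot, o01, o12, n12, nc1, n23, m0p, m1p, m2p, hH, hK]
                          · linarith only [h1, h5, h10, h11, h12, j0, n11, j2, tot, o01, n03, n14, nc1, n22, n23, n24, m0m, m2p, hH, hK]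
                        · linarith only [h1, h4, h6, h9, h11, n01, j0, j1, j2, tot, o01, n04, n12, nc1, n22, nc2, m0m, m1p, m2p, hH, hK]
                      · rcases t26 with h11 | h11
                        · rcases t27 with h12 | h12
                          · linarith only [h6, h10, h12, j0, n11, tot, o01, n02, n03, n14, nc1, m0p, m1m, hH, hK]
                          · linarith only [h6, h12, j0, tot, o01, o12, n02, n03, nc0, m0p, m1m, hH, hK]
                        · rcases t28 with h12 | h12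
                          · linarith only [h10, h11, h12, n11, tot, n12, nc1, j1, m1m, hH, hK]
                          · linarith only [h5, h7, h10, h12, j0, n11, tot, o01, nc0, n14, nc1, m1m, hH, hK]
                    · rcases t29 with h10 | h10
                      · rcases t30 with h11 | h11
                        · rcases t31 with h12 | h12
                          · rcases t32 with h13 | h13
                            · rcases t33 with h14 | h14
                              · rcases t34 with h15 | h15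
                                · linarith only [h4, h11, h12, h14, h15, n01, j0, j1, j2, tot, o12, n04, nc0, n12, n13, n24, m0p, m1p, m2p, hH, hK]
                                · linarith only [h1, h4, h5, h7, h11, h12, h14, h15, j0, j1, j2, tot, nc0, n22, n23, m0m, m1p, m2p, hH, hK]
                              · rcases t35 with h15 | h15
                                · rcases t36 with h16 | h16
                                  · linarith only [h4, h5, h12, h13, h15, h16, j0, j1, j2, tot, o12, n04, nc0, n12, n13, n24, m0p, m1p, m2p, hH, hK]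
                                  · linarith only [h1, h4, h6, h11, h12, h13, h15, h16, j0, j1, n21, j2, tot, nc0, n12, n24, m0p, m1p, m2p, hH, hK]
                                · rcases t37 with h16 | h16
                                  · rcases t38 with h17 | h17
                                    · linarith only [h5, h7, h8, h11, h15, h16, h17, j0, j1, j2, tot, n02, nc0, nc1, n23, n24, m0m, m1p, m2p, hH, hK]
                                    · linarith only [h5, h7, h11, h15, h16, h17, j0, j1, j2, tot, n04, n13, nc1, n22, n23, n24, m0m, m1p, m2p, hH, hK]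
                                  · linarith only [h4, h11, h12, h16, j0, j1, j2, tot, o12, n02, n04, nc0, n12, n13, nc1, m0p, m1p, hH, hK]
                            · linarith only [h1, h4, h5, h8, h11, h12, h13, n01, j0, j1, n21, tot, o12, n04, nc1, n24, m0m, m1p, m2m, hH, hK]
                          · rcases t39 with h13 | h13
                            · rcases t40 with h14 | h14
                              · linarith only [h2, h6, h7, h9, h10, h12, h13, h14, n01, j0, j1, j2, tot, o12, n04, n23, m0m, m1p, m2p, hH, hK]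
                              · rcases t41 with h15 | h15
                                · linarith only [h1, h5, h9, h11, h12, h13, h15, j0, j1, j2, tot, o01, o12, n02, nc0, n12, m0p, m1p, m2p, hH, hK]
                                · rcases t34 with h16 | h16
                                  · linarith only [h1, h6, h7, h10, h11, h13, h14, h15, h16, j0, j1, j2, tot, o12, n04, n14, m0m, m1p, m2p, hH, hK]
                                  · linarith only [h1, h5, h6, h11, h13, h14, h15, h16, j0, j1, j2, tot, o12, nc0, n14, n23, m0m, m1p, m2p, hH, hK]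
                            · rcases t42 with h14 | h14
                              · linarith only [h9, h13, h14, n01, tot, o01, o12, n04, m0m, hH, hK]
                              · linarith only [h4, h5, h8, h9, h10, h13, h14, j0, j1, j2, tot, o12, n04, nc1, n23, nc2, m0m, m1p, m2p, hH, hK]
                        · linarith only [h1, h6, h9, h10, h11, j0, n11, n21, tot, o01, n02, nc0, n14, nc1, n24, m0m, m1m, hH, hK]
                      · linarith only [h5, h7, h8, h9, h10, j0, n11, j2, tot, o01, n02, nc0, n14, nc1, n23, nc2, m1m, m2p, hH, hK]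
                  · linarith only [h4, h5, h8, j0, j1, tot, o01, o12, n02, n03, n04, nc1, m0p, m1p, m2m, hH, hK]
                · rcases t30 with h8 | h8
                  · rcases t43 with h9 | h9
                    · rcases t34 with h10 | h10
                      · rcases t44 with h11 | h11
                        · rcases t45 with h12 | h12
                          · rcases t46 with h13 | h13
                            · rcases t37 with h14 | h14
                              · linarith only [h7, h10, h12, h13, h14, j0, j1, j2, tot, n04, nc0, n13, n23, m0m, m1p, m2p, hH, hK]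
                              · linarith only [h4, h7, h8, h9, h10, h11, h14, j0, j1, j2, tot, o12, n04, n13, n14, n22, m0m, m1p, m2m, hH, hK]
                            · linarith only [h1, h7, h9, h11, h12, h13, n11, j1, j2, tot, o12, n22, n23, n24, m0m, m1m, m2p, hH, hK]
                          · linarith only [h2, h4, h6, h7, h8, h11, h12, n01, j0, j1, j2, tot, o12, n04, n14, n24, m0m, m1m, m2p, hH, hK]
                        · rcases t47 with h12 | h12
                          · linarith only [h6, h7, h8, h9, h10, h11, h12, n01, j1, j2, tot, n04, nc0, j0, n23, n24, m0m, m1m, m2p, hH, hK]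
                          · linarith only [h1, h2, h4, h6, h7, h8, h9, h11, h12, n01, j1, n21, tot, o12, n04, nc0, m0m, m1m, m2m, hH, hK]
                      · linarith only [h1, h5, h7, h8, h9, h10, n01, j1, j2, tot, n04, nc0, n13, n22, n23, m0m, m1p, m2p, hH, hK]
                    · rcases t48 with h10 | h10
                      · rcases t37 with h11 | h11
                        · linarith only [h5, h7, h8, h9, h11, j1, j2, tot, n02, nc1, n22, n23, n24, m0m, m1p, m2p, hH, hK]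
                        · linarith only [h5, h7, h8, h9, h10, h11, j1, tot, o12, n22, n23, m0m, m1p, m2m, hH, hK]
                      · linarith only [h5, h7, h9, h10, n01, j1, j2, tot, n04, nc0, nc1, n22, n23, nc2, m0m, m1p, m2p, hH, hK]
                  · linarith only [h1, h4, h6, h7, h8, n01, j0, n11, j2, tot, o01, nc0, n14, nc1, n22, nc2, m0m, m1m, m2p, hH, hK]
              · rcases t30 with h7 | h7
                · rcases t43 with h8 | h8
                  · rcases t34 with h9 | h9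
                    · rcases t13 with h10 | h10
                      · rcases t47 with h11 | h11
                        · rcases t49 with h12 | h12
                          · rcases t50 with h13 | h13
                            · linarith only [h1, h4, h6, h7, h9, h12, h13, j0, j1, j2, tot, n04, n14, n23, n24, m0p, m1p, m2p, hH, hK]
                            · linarith only [h1, h4, h6, h7, h9, h10, h11, h12, h13, j0, j1, j2, tot, n04, nc0, m0m, m1p, m2p, hH, hK]
                          · linarith only [h1, h6, h7, h10, h11, h12, n01, j0, j1, j2, tot, n04, nc0, n14, n23, n24, m0m, m1m, m2p, hH, hK]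
                        · linarith only [h1, h4, h6, h7, h8, h10, h11, j0, j1, j2, tot, o12, n04, n12, n14, n22, m0m, m1p, m2m, hH, hK]
                      · rcases t47 with h11 | h11
                        · linarith only [h5, h7, h8, h10, h11, j0, j1, j2, tot, n04, nc0, n13, nc1, n22, n23, m0m, m1m, m2p, hH, hK]
                        · linarith only [h2, h4, h6, h8, h10, h11, n01, n21, tot, n04, nc0, m0m, m1m, m2m, hH, hK]
                    · linarith only [h1, h5, h6, h7, h8, h9, n01, j1, j2, tot, n04, nc0, n13, n22, n23, m0m, m1p, m2p, hH, hK]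
                  · rcases t48 with h9 | h9
                    · rcases t37 with h10 | h10
                      · linarith only [h5, h6, h7, h8, h10, j1, j2, tot, n02, nc1, n22, n23, n24, m0m, m1p, m2p, hH, hK]
                      · linarith only [h5, h6, h7, h8, h9, h10, j1, tot, o12, n22, n23, m0m, m1p, m2m, hH, hK]
                    · linarith only [h5, h6, h8, h9, n01, j1, j2, tot, n04, nc0, nc1, n22, n23, nc2, m0m, m1p, m2p, hH, hK]
                · linarith only [h1, h6, h7, n01, n11, n21, tot, n04, j0, nc0, n14, j1, nc1, n22, m0m, m1m, hH, hK]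
          · rcases t51 with h5 | h5
            · rcases t52 with h6 | h6
              · rcases t53 with h7 | h7
                · rcases t54 with h8 | h8
                  · rcases t55 with h9 | h9
                    · rcases t40 with h10 | h10
                      · rcases t56 with h11 | h11
                        · rcases t57 with h12 | h12
                          · linarith only [h4, h8, h9, h11, h12, j0, j1, j2, tot, n03, nc0, n12, n13, n22, n23, m0p, m1p, m2p, hH, hK]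
                          · linarith only [h3, h4, h9, h11, h12, n01, j1, j2, tot, n04, nc0, n12, n13, n22, n23, m0m, m1p, m2p, hH, hK]
                        · rcases t58 with h12 | h12
                          · rcases t59 with h13 | h13
                            · rcases t60 with h14 | h14
                              · rcases t61 with h15 | h15
                                · linarith only [h4, h6, h7, h9, h11, h12, h13, h14, h15, j0, n11, j1, j2, tot, n02, nc1, m0m, m1p, m2p, hH, hK]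
                                · linarith only [h4, h7, h9, h12, h13, h14, h15, j0, j1, n21, j2, tot, o12, nc0, n12, n23, m0m, m1p, m2p, hH, hK]
                              · rcases t62 with h15 | h15
                                · rcases t63 with h16 | h16
                                  · linarith only [h4, h9, h10, h11, h12, h13, h14, h15, h16, j0, j1, j2, tot, o12, nc0, n22, m0m, m1p, m2p, hH, hK]
                                  · linarith only [h4, h9, h12, h13, h14, h16, j0, j1, n21, j2, tot, o12, nc0, n12, n23, n24, m0m, m1p, m2p, hH, hK]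
                                · rcases t64 with h16 | h16
                                  · linarith only [h4, h9, h10, h11, h12, h15, h16, n01, j0, j1, j2, tot, o12, nc0, n14, n22, m0m, m1p, m2p, hH, hK]
                                  · linarith only [h4, h8, h9, h10, h11, h13, h15, h16, j0, j1, j2, tot, o12, nc0, n12, n22, m0m, m1p, m2p, hH, hK]
                            · rcases t65 with h14 | h14
                              · rcases t66 with h15 | h15
                                · linarith only [h4, h7, h10, h12, h13, h14, h15, j0, j1, j2, tot, o01, o12, n12, n14, n22, m0p, m1p, m2m, hH, hK]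
                                · linarith only [h1, h4, h10, h12, h14, h15, j0, j1, j2, tot, n14, n22, m2p, hH, hK]
                              · rcases t67 with h15 | h15
                                · linarith only [h7, h8, h9, h10, h11, h12, h14, h15, j0, j1, n21, j2, tot, o12, n03, n12, m0m, m1p, m2p, hH, hK]
                                · linarith only [h7, h10, h11, h12, h14, h15, j0, j1, n21, j2, tot, o12, n02, n03, n12, nc2, m0m, m1p, m2p, hH, hK]
                          · rcases t8 with h13 | h13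
                            · rcases t68 with h14 | h14
                              · linarith only [h7, h9, h11, h12, h13, h14, n11, j1, j2, tot, o12, n22, n23, n24, m1m, m2p, hH, hK]
                              · linarith only [h1, h4, h12, h13, h14, n01, n11, n21, tot, nc0, n14, j1, nc1, n22, n24, m0m, m1m, hH, hK]
                            · rcases t69 with h14 | h14
                              · rcases t70 with h15 | h15
                                · linarith only [h7, h9, h13, h14, h15, j0, j1, n21, j2, tot, o01, n02, n03, nc0, n14, n22, m0p, m1m, m2p, hH, hK]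
                                · linarith only [h1, h7, h8, h14, h15, j0, n11, j2, tot, o01, n03, nc0, n22, n23, m0p, m1m, m2p, hH, hK]
                              · linarith only [h1, h4, h13, h14, n01, n11, n21, tot, n04, nc0, n14, j1, nc1, n22, m0m, m1m, hH, hK]
                      · rcases t29 with h11 | h11
                        · rcases t71 with h12 | h12
                          · rcases t23 with h13 | h13
                            · rcases t72 with h14 | h14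
                              · rcases t73 with h15 | h15
                                · linarith only [h5, h6, h7, h10, h13, h14, h15, j0, j1, j2, tot, o01, o12, n02, nc0, nc2, m0p, m1p, m2p, hH, hK]
                                · linarith only [h4, h5, h7, h9, h10, h11, h14, h15, j1, j2, tot, n03, n14, n22, n24, m0m, m1p, m2p, hH, hK]
                              · linarith only [h5, h7, h9, h10, h11, h14, j1, n21, tot, o12, n12, n13, n24, m0m, m1p, m2m, hH, hK]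
                            · rcases t74 with h14 | h14
                              · rcases t75 with h15 | h15
                                · linarith only [h5, h7, h9, h12, h13, h14, h15, n01, j1, j2, tot, o01, nc0, j0, n22, n24, m0m, m1p, m2p, hH, hK]
                                · linarith only [h1, h4, h6, h7, h10, h11, h12, h13, h15, j1, j2, tot, o12, n14, n22, m0m, m1p, m2m, hH, hK]
                              · linarith only [h1, h4, h5, h7, h9, h11, h12, h14, j1, j2, tot, n04, n22, m0m, m1p, m2p, hH, hK]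
                          · rcases t33 with h13 | h13
                            · rcases t50 with h14 | h14
                              · linarith only [h1, h4, h5, h10, h14, j0, j1, j2, tot, nc0, n14, n24, m0m, m1p, m2p, hH, hK]
                              · rcases t59 with h15 | h15
                                · linarith only [h4, h5, h11, h12, h13, h14, h15, n01, j0, j1, n21, j2, tot, nc0, n12, m0m, m1p, m2p, hH, hK]
                                · rcases t36 with h16 | h16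
                                  · linarith only [h4, h6, h11, h12, h15, h16, j0, j1, tot, o12, n04, nc0, n12, n14, m0m, m1p, m2m, hH, hK]
                                  · linarith only [h1, h4, h6, h7, h11, h12, h13, h15, h16, n01, j1, j2, tot, o12, nc0, n12, m0m, m1p, m2m, hH, hK]
                            · rcases t76 with h14 | h14
                              · linarith only [h1, h4, h7, h9, h10, h11, h13, h14, j0, j1, n21, j2, tot, o12, nc0, n12, m0m, m1p, m2p, hH, hK]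
                              · linarith only [h4, h5, h6, h9, h10, h12, h14, j0, j1, n21, j2, tot, nc0, n12, nc1, n24, m0m, m1m, m2p, hH, hK]
                        · linarith only [h5, h6, h9, h10, h11, j0, n11, n21, j2, tot, o01, n02, nc0, n14, nc2, m0m, m1m, m2p, hH, hK]
                    · linarith only [h0, h9, n21, tot, m2m, hH, hK]
                  · linarith only [h8, j0, n21, j2, tot, o01, n02, n03, nc0, n22, n23, nc2, m0p, m1m, m2p, hH, hK]
                · linarith only [h1, h4, h5, h6, h7, j1, j2, tot, o01, o12, n04, n12, n13, n22, n23, m0m, m1p, m2p, hH, hK]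
              · rcases t77 with h7 | h7
                · rcases t37 with h8 | h8
                  · linarith only [h1, h4, h5, h6, h8, j1, j2, tot, n02, n04, n12, n13, nc1, n22, n23, m0m, m1p, m2p, hH, hK]
                  · rcases t78 with h9 | h9
                    · linarith only [h1, h4, h5, h6, h9, j1, j2, tot, o12, n02, n04, n12, n14, n22, nc2, m0m, m1p, m2p, hH, hK]
                    · linarith only [h1, h4, h5, h6, h7, h8, h9, j0, j1, j2, tot, o01, o12, n22, n23, m0m, m2m, hH, hK]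
                · linarith only [h6, h7, j1, j2, tot, o01, o12, n12, n13, nc1, n22, n23, nc2, m0m, m1p, m2p, hH, hK]
            · linarith only [h5, n11, tot, n13, n14, j1, nc1, m1m, hH, hK]
        · linarith only [h3, n21, tot, n22, n23, j2, nc2, m1m, m2p, hH, hK]
      · linarith only [h2, n21, tot, o01, o12, n23, n24, nc2, m2m, hH, hK]
    · linarith only [h1, n21, tot, o01, o12, n23, n24, nc2, m2m, hH, hK]
  · linarith only [h0, n21, tot, o01, o12, n23, n24, nc2, m2m, hH, hK]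

end Cert3

end Pool.Agent.Lib.MP_4d5ce1_nt
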