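import Pool.Agent.Lib.MP_4d5ce1_nt.Combi

set_option autoImplicit false

/-!
Tools for `q = 3` in block variables (helper62, JOB U).
-/

namespace Pool.Agent.Lib.MP_4d5ce1_nt

namespace Cert3

variable {ι : Type*} (P : Finset ι) (lab : ι → Fin 3) (e : ι → ℕ) (b : ι → ℝ)

open Classical in
/-- block sums -/
noncomputable def US (l : Fin 3) (m : ℕ) : ℝ := ∑ v ∈ P, if lab v = l ∧ e v = m then b v else 0

open Classical in
/-- rest block -/
noncomputable def CS (l : Fin 3) : ℝ := ∑ v ∈ P, if lab v = l ∧ 5 ≤ e v then b v else 0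

open Classical in
/-- rest block with multiplicity -/
noncomputable def RS (l : Fin 3) : ℝ :=
  ∑ v ∈ P, if lab v = l ∧ 5 ≤ e v then (e v : ℝ) * b v else 0

variable {P lab e b}

theorem sum_blocks (he : ∀ v ∈ P, 1 ≤ e v) (x y z : Fin 3) (hxy : x ≠ y) (hxz : x ≠ z)
    (hyz : y ≠ z) (φ : Fin 3 → ℕ → ℝ) (hφ : ∀ l m, 5 ≤ m → φ l m = φ l 5) :
    ∑ v ∈ P, φ (lab v) (e v) * b v =
      (φ x 1 * US P lab e b x 1 + φ x 2 * US P lab e b x 2 + φ x 3 * US P lab e b x 3 +
        φ x 4 * US P lab e b x 4 + φ x 5 * CS P lab e b x) +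
      (φ y 1 * US P lab e b y 1 + φ y 2 * US P lab e b y 2 + φ y 3 * US P lab e b y 3 +
        φ y 4 * US P lab e b y 4 + φ y 5 * CS P lab e b y) +
      (φ z 1 * US P lab e b z 1 + φ z 2 * US P lab e b z 2 + φ z 3 * US P lab e b z 3 +
        φ z 4 * US P lab e b z 4 + φ z 5 * CS P lab e b z) := by
  classical
  unfold US CS
  simp only [Finset.mul_sum, ← Finset.sum_add_distrib]
  apply Finset.sum_congr rfl
  intro v hv
  have h1 := he v hv
  have hlab : lab v = x ∨ lab v = y ∨ lab v = z := by omega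
  have hcase : e v = 1 ∨ e v = 2 ∨ e v = 3 ∨ e v = 4 ∨ 5 ≤ e v := by omega
  rcases hlab with hl | hl | hl <;> rcases hcase with hc | hc | hc | hc | hc
  all_goals first
    | (simp [hl, hc, hxy, hxz, hyz, hxy.symm, hxz.symm, hyz.symm]; done)
    | (have a1 : e v ≠ 1 := by omega
       have a2 : e v ≠ 2 := by omega
       have a3 : e v ≠ 3 := by omega
       have a4 : e v ≠ 4 := by omega
       simp [hl, hc, hxy, hxz, hyz, hxy.symm, hxz.symm, hyz.symm, a1, a2, a3, a4,
         hφ _ _ hc])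

theorem sum_blocks' (he : ∀ v ∈ P, 1 ≤ e v) (x y z : Fin 3) (hxy : x ≠ y) (hxz : x ≠ z)
    (hyz : y ≠ z) (φ : Fin 3 → ℕ → ℝ) (hφ : ∀ l m, 5 ≤ m → φ l m = φ l 5) :
    ∑ v ∈ P, φ (lab v) (e v) * ((e v : ℝ) * b v) =
      (φ x 1 * US P lab e b x 1 + φ x 2 * (2 * US P lab e b x 2) +
        φ x 3 * (3 * US P lab e b x 3) +
        φ x 4 * (4 * US P lab e b x 4) + φ x 5 * RS P lab e b x) +
      (φ y 1 * US P lab e b y 1 + φ y 2 * (2 * US P lab e b y 2) +
        φ y 3 * (3 * US P lab e b y 3) +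
        φ y 4 * (4 * US P lab e b y 4) + φ y 5 * RS P lab e b y) +
      (φ z 1 * US P lab e b z 1 + φ z 2 * (2 * US P lab e b z 2) +
        φ z 3 * (3 * US P lab e b z 3) +
        φ z 4 * (4 * US P lab e b z 4) + φ z 5 * RS P lab e b z) := by
  classical
  unfold US RS
  simp only [Finset.mul_sum, ← Finset.sum_add_distrib]
  apply Finset.sum_congr rfl
  intro v hv
  have h1 := he v hv
  have hlab : lab v = x ∨ lab v = y ∨ lab v = z := by omega
  have hcase : e v = 1 ∨ e v = 2 ∨ e v = 3 ∨ e v = 4 ∨ 5 ≤ e v := by omega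
  rcases hlab with hl | hl | hl <;> rcases hcase with hc | hc | hc | hc | hc
  all_goals first
    | (simp [hl, hc, hxy, hxz, hyz, hxy.symm, hxz.symm, hyz.symm]; done)
    | (have a1 : e v ≠ 1 := by omega
       have a2 : e v ≠ 2 := by omega
       have a3 : e v ≠ 3 := by omega
       have a4 : e v ≠ 4 := by omega
       simp [hl, hc, hxy, hxz, hyz, hxy.symm, hxz.symm, hyz.symm, a1, a2, a3, a4,
         hφ _ _ hc])

open Classical in
/-- The set of a tool: blocks of form `x` not in `a`, of form `y` not in `c`, of form `z` in `t`. -/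
noncomputable def WS (P : Finset ι) (lab : ι → Fin 3) (e : ι → ℕ) (pr : Fin 3 → ℕ → Bool) :
    Finset ι := P.filter (fun v => pr (lab v) (e v) = true)

/-- Membership predicate of the tool. -/
def prd (x y : Fin 3) (a c t : ℕ → Bool) (l : Fin 3) (m : ℕ) : Bool :=
  if l = x then !(a m) else if l = y then !(c m) else t m

/-- The Boolean function on exponents given by its values at `1, 2, 3, 4` and `≥ 5`. -/
def bf (b1 b2 b3 b4 b5 : Bool) (m : ℕ) : Bool :=
  if m = 1 then b1 else if m = 2 then b2 else if m = 3 then b3 else if m = 4 then b4 else b5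

theorem bf_ge (b1 b2 b3 b4 b5 : Bool) (m : ℕ) (hm : 5 ≤ m) : bf b1 b2 b3 b4 b5 m = b5 := by
  unfold bf
  rw [if_neg (by omega), if_neg (by omega), if_neg (by omega), if_neg (by omega)]

theorem cm1 (a : Bool) (u : ℝ) : (cond (!a) 1 0 : ℝ) * u = cond a 0 u := by cases a <;> simp
theorem cm2 (a : Bool) (u : ℝ) : (cond (!a) 0 1 : ℝ) * u = cond a u 0 := by cases a <;> simp
theorem cm3 (a : Bool) (u : ℝ) : (cond a 1 0 : ℝ) * u = cond a u 0 := by cases a <;> simp
theorem cm4 (a : Bool) (k u : ℝ) : cond a (k * u) 0 = k * cond a u 0 := by cases a <;> simp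

theorem max_aux {A x L R : ℝ} (h1 : A = L) (h2 : L + x ≤ R) : A + max 0 x ≤ max L R := by
  subst h1
  rcases le_total x 0 with h | h
  · rw [max_eq_left h, add_zero]; exact le_max_left _ _
  · rw [max_eq_right h]; exact h2.trans (le_max_right _ _)

theorem toolCost_le (he : ∀ v ∈ P, 1 ≤ e v) (I : Fin 3 → ℝ) (hI : ∀ l, 0 ≤ I l)
    (hb : ∀ v ∈ P, 0 < b v)
    (x y z : Fin 3) (hxy : x ≠ y) (hxz : x ≠ z)
    (hyz : y ≠ z) (n : ℕ) (nr : ℝ) (hnr : nr = n) (hn : 1 ≤ n)
    (a1 a2 a3 a4 c1 c2 c3 c4 t2 t3 t4 r : Bool) :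
    toolCost P lab e b I n x y
      (WS P lab e (prd x y (bf a1 a2 a3 a4 false) (bf c1 c2 c3 c4 false) (bf false t2 t3 t4 r))) ≤
    max (CS P lab e b x + CS P lab e b y +
        (cond a1 0 (US P lab e b x 1) + cond a2 0 (US P lab e b x 2) +
          cond a3 0 (US P lab e b x 3) + cond a4 0 (US P lab e b x 4)) +
        (cond c1 0 (US P lab e b y 1) + cond c2 0 (US P lab e b y 2) +
          cond c3 0 (US P lab e b y 3) + cond c4 0 (US P lab e b y 4)) +
        (cond t2 (US P lab e b z 2) 0 + cond t3 (US P lab e b z 3) 0 +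
          cond t4 (US P lab e b z 4) 0 + cond r (CS P lab e b z) 0))
      (CS P lab e b x + CS P lab e b y +
        (cond a1 0 (US P lab e b x 1) + cond a2 0 (US P lab e b x 2) +
          cond a3 0 (US P lab e b x 3) + cond a4 0 (US P lab e b x 4)) +
        (cond c1 0 (US P lab e b y 1) + cond c2 0 (US P lab e b y 2) +
          cond c3 0 (US P lab e b y 3) + cond c4 0 (US P lab e b y 4)) +
        (cond t2 (US P lab e b z 2) 0 + cond t3 (US P lab e b z 3) 0 +
          cond t4 (US P lab e b z 4) 0 + cond r (CS P lab e b z) 0) +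
        (cond a1 (1 / nr * US P lab e b x 1) 0 + cond a2 (2 / nr * US P lab e b x 2) 0 +
          cond a3 (3 / nr * US P lab e b x 3) 0 + cond a4 (4 / nr * US P lab e b x 4) 0) +
        (cond c1 (1 / nr * US P lab e b y 1) 0 + cond c2 (2 / nr * US P lab e b y 2) 0 +
          cond c3 (3 / nr * US P lab e b y 3) 0 + cond c4 (4 / nr * US P lab e b y 4) 0) -
        (cond t2 (2 * US P lab e b z 2) 0 + cond t3 (3 * US P lab e b z 3) 0 +
          cond t4 (4 * US P lab e b z 4) 0 + cond r (I z + RS P lab e b z) 0)) := by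
  classical
  set pr : Fin 3 → ℕ → Bool :=
    prd x y (bf a1 a2 a3 a4 false) (bf c1 c2 c3 c4 false) (bf false t2 t3 t4 r) with hpr
  have hprge : ∀ l m, 5 ≤ m → pr l m = pr l 5 := by
    intro l m hm
    simp only [hpr, prd]
    rw [bf_ge _ _ _ _ _ m hm, bf_ge _ _ _ _ _ m hm, bf_ge _ _ _ _ _ m hm,
      bf_ge _ _ _ _ _ 5 le_rfl, bf_ge _ _ _ _ _ 5 le_rfl, bf_ge _ _ _ _ _ 5 le_rfl]
  have hx : ∀ m, pr x m = !(bf a1 a2 a3 a4 false m) := by intro m; simp [hpr, prd]
  have hy : ∀ m, pr y m = !(bf c1 c2 c3 c4 false m) := by intro m; simp [hpr, prd, hxy.symm]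
  have hz : ∀ m, pr z m = bf false t2 t3 t4 r m := by
    intro m; simp [hpr, prd, hxz.symm, hyz.symm]
  have h1 : ∑ v ∈ WS P lab e pr, b v = ∑ v ∈ P, (cond (pr (lab v) (e v)) 1 0 : ℝ) * b v := by
    unfold WS
    rw [Finset.sum_filter]
    apply Finset.sum_congr rfl
    intro v _
    cases pr (lab v) (e v) <;> simp
  have h2 : ∑ v ∈ P.filter (fun v => v ∉ WS P lab e pr ∧ (lab v = x ∨ lab v = y)),
      (e v : ℝ) * b v =
      ∑ v ∈ P, (if lab v = z then 0 else (cond (pr (lab v) (e v)) 0 1 : ℝ)) *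
        ((e v : ℝ) * b v) := by
    rw [Finset.sum_filter]
    apply Finset.sum_congr rfl
    intro v hv
    have hlab : lab v = x ∨ lab v = y ∨ lab v = z := by omega
    by_cases hlz : lab v = z
    · simp [hlz, hxz.symm, hyz.symm]
    · have h3 : lab v = x ∨ lab v = y := by tauto
      have h4 : v ∈ WS P lab e pr ↔ pr (lab v) (e v) = true := by
        unfold WS
        rw [Finset.mem_filter]
        tauto
      cases hc : pr (lab v) (e v) <;> simp [h4, h3, hlz, hc]
  have h3 : ∑ v ∈ (WS P lab e pr).filter (fun v => lab v ≠ x ∧ lab v ≠ y), (e v : ℝ) * b v =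
      ∑ v ∈ P, (if lab v = z then (cond (pr (lab v) (e v)) 1 0 : ℝ) else 0) *
        ((e v : ℝ) * b v) := by
    unfold WS
    rw [Finset.filter_filter, Finset.sum_filter]
    apply Finset.sum_congr rfl
    intro v hv
    have hlab : lab v = x ∨ lab v = y ∨ lab v = z := by omega
    by_cases hlz : lab v = z
    · cases hc : pr (lab v) (e v) <;>
        simp [hlz, hxz.symm, hyz.symm]
    · have h3 : lab v = x ∨ lab v = y := by tauto
      have h4 : ¬ (lab v ≠ x ∧ lab v ≠ y) := by tauto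
      rw [if_neg (by tauto), if_neg hlz, zero_mul]
  have h4 : ∑ l ∈ Finset.univ.filter (fun l => l ≠ x ∧ l ≠ y), I l = I z := by
    have : Finset.univ.filter (fun l => l ≠ x ∧ l ≠ y) = {z} := by
      ext l
      simp only [Finset.mem_filter, Finset.mem_univ, true_and, Finset.mem_singleton]
      omega
    rw [this, Finset.sum_singleton]
  unfold toolCost
  rw [h1, h2, h3, h4]
  rw [sum_blocks he x y z hxy hxz hyz (fun l m => (cond (pr l m) 1 0 : ℝ))
    (fun l m hm => by simp only [hprge l m hm])]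
  rw [sum_blocks' he x y z hxy hxz hyz
    (fun l m => (if l = z then 0 else (cond (pr l m) 0 1 : ℝ)))
    (fun l m hm => by simp only [hprge l m hm])]
  rw [sum_blocks' he x y z hxy hxz hyz
    (fun l m => (if l = z then (cond (pr l m) 1 0 : ℝ) else 0))
    (fun l m hm => by simp only [hprge l m hm])]
  have hIz := hI z
  have hRz : 0 ≤ RS P lab e b z := by
    unfold RS
    apply Finset.sum_nonneg
    intro v hv
    split_ifs
    · have := hb v hv
      positivity
    · exact le_rfl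
  have bx1 : pr x 1 = !a1 := by rw [hx]; rfl
  have bx2 : pr x 2 = !a2 := by rw [hx]; rfl
  have bx3 : pr x 3 = !a3 := by rw [hx]; rfl
  have bx4 : pr x 4 = !a4 := by rw [hx]; rfl
  have bx5 : pr x 5 = !false := by rw [hx]; rfl
  have by1 : pr y 1 = !c1 := by rw [hy]; rfl
  have by2 : pr y 2 = !c2 := by rw [hy]; rfl
  have by3 : pr y 3 = !c3 := by rw [hy]; rfl
  have by4 : pr y 4 = !c4 := by rw [hy]; rfl
  have by5 : pr y 5 = !false := by rw [hy]; rfl
  have bz1 : pr z 1 = false := by rw [hz]; rfl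
  have bz2 : pr z 2 = t2 := by rw [hz]; rfl
  have bz3 : pr z 3 = t3 := by rw [hz]; rfl
  have bz4 : pr z 4 = t4 := by rw [hz]; rfl
  have bz5 : pr z 5 = r := by rw [hz]; rfl
  simp only [bx1, bx2, bx3, bx4, bx5, by1, by2, by3, by4, by5, bz1, bz2, bz3, bz4, bz5,
    if_true, if_false, hxz, hyz, cm1, cm2]
  simp only [cm3, cm4, zero_mul, add_zero, zero_add, cond_false]
  have hnr0 : 0 < nr := by
    rw [hnr]; exact_mod_cast hn
  rw [← hnr]
  set L : ℝ := CS P lab e b x + CS P lab e b y +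
        (cond a1 0 (US P lab e b x 1) + cond a2 0 (US P lab e b x 2) +
          cond a3 0 (US P lab e b x 3) + cond a4 0 (US P lab e b x 4)) +
        (cond c1 0 (US P lab e b y 1) + cond c2 0 (US P lab e b y 2) +
          cond c3 0 (US P lab e b y 3) + cond c4 0 (US P lab e b y 4)) +
        (cond t2 (US P lab e b z 2) 0 + cond t3 (US P lab e b z 3) 0 +
          cond t4 (US P lab e b z 4) 0 + cond r (CS P lab e b z) 0) with hL
  have hIr : -(cond r (RS P lab e b z) 0) - I z ≤ -(cond r (I z + RS P lab e b z) 0) := by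
    cases r
    · simp only [cond_false]; linarith
    · simp only [cond_true]; linarith
  refine max_aux ?_ ?_
  · rw [hL]
    ring
  · rw [← sub_nonneg]
    have h5 : 0 ≤ -(cond r (I z + RS P lab e b z) 0) - (-(cond r (RS P lab e b z) 0) - I z) := by
      linarith
    refine h5.trans (le_of_eq ?_)
    ring

theorem bf_true_dvd {n : ℕ} {a1 a2 a3 a4 : Bool}
    (h : (a1 = true → n ∣ 1) ∧ (a2 = true → n ∣ 2) ∧ (a3 = true → n ∣ 3) ∧ (a4 = true → n ∣ 4))
    (m : ℕ) (hm : bf a1 a2 a3 a4 false m = true) : n ∣ m := by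
  unfold bf at hm
  split_ifs at hm with h1 h2 h3 h4
  · rw [h1]; exact h.1 hm
  · rw [h2]; exact h.2.1 hm
  · rw [h3]; exact h.2.2.1 hm
  · rw [h4]; exact h.2.2.2 hm

theorem tool_or (he : ∀ v ∈ P, 1 ≤ e v) {I : Fin 3 → ℝ} (hI : ∀ l, 0 ≤ I l)
    (hb : ∀ v ∈ P, 0 < b v)
    (x y z : Fin 3) (hxy : x ≠ y) (hxz : x ≠ z)
    (hyz : y ≠ z) (n : ℕ) (nr : ℝ) (hnr : nr = n) (hn : 1 ≤ n) (hn4 : n ≤ 4)
    (a1 a2 a3 a4 c1 c2 c3 c4 t2 t3 t4 r : Bool)
    (hda : (a1 = true → n ∣ 1) ∧ (a2 = true → n ∣ 2) ∧ (a3 = true → n ∣ 3) ∧ (a4 = true → n ∣ 4))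
    (hdc : (c1 = true → n ∣ 1) ∧ (c2 = true → n ∣ 2) ∧ (c3 = true → n ∣ 3) ∧ (c4 = true → n ∣ 4))
    (B : ℝ) (hno : ¬ HasTool P lab e b I 4 B) :
    B < (CS P lab e b x + CS P lab e b y +
        (cond a1 0 (US P lab e b x 1) + cond a2 0 (US P lab e b x 2) +
          cond a3 0 (US P lab e b x 3) + cond a4 0 (US P lab e b x 4)) +
        (cond c1 0 (US P lab e b y 1) + cond c2 0 (US P lab e b y 2) +
          cond c3 0 (US P lab e b y 3) + cond c4 0 (US P lab e b y 4)) +
        (cond t2 (US P lab e b z 2) 0 + cond t3 (US P lab e b z 3) 0 +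
          cond t4 (US P lab e b z 4) 0 + cond r (CS P lab e b z) 0)) ∨
    B < (CS P lab e b x + CS P lab e b y +
        (cond a1 0 (US P lab e b x 1) + cond a2 0 (US P lab e b x 2) +
          cond a3 0 (US P lab e b x 3) + cond a4 0 (US P lab e b x 4)) +
        (cond c1 0 (US P lab e b y 1) + cond c2 0 (US P lab e b y 2) +
          cond c3 0 (US P lab e b y 3) + cond c4 0 (US P lab e b y 4)) +
        (cond t2 (US P lab e b z 2) 0 + cond t3 (US P lab e b z 3) 0 +
          cond t4 (US P lab e b z 4) 0 + cond r (CS P lab e b z) 0) +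
        (cond a1 (1 / nr * US P lab e b x 1) 0 + cond a2 (2 / nr * US P lab e b x 2) 0 +
          cond a3 (3 / nr * US P lab e b x 3) 0 + cond a4 (4 / nr * US P lab e b x 4) 0) +
        (cond c1 (1 / nr * US P lab e b y 1) 0 + cond c2 (2 / nr * US P lab e b y 2) 0 +
          cond c3 (3 / nr * US P lab e b y 3) 0 + cond c4 (4 / nr * US P lab e b y 4) 0) -
        (cond t2 (2 * US P lab e b z 2) 0 + cond t3 (3 * US P lab e b z 3) 0 +
          cond t4 (4 * US P lab e b z 4) 0 + cond r (I z + RS P lab e b z) 0)) := by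
  classical
  by_contra hcon
  push Not at hcon
  apply hno
  have hcost := toolCost_le (lab := lab) he I hI hb x y z hxy hxz hyz n nr hnr hn a1 a2 a3 a4 c1 c2 c3 c4
    t2 t3 t4 r
  refine ⟨n, hn, hn4, x, y, hxy, _, ?_, ?_, hcost.trans (max_le hcon.1 hcon.2)⟩
  · unfold WS
    exact Finset.filter_subset _ _
  · intro v hv hvW hl
    unfold WS at hvW
    rw [Finset.mem_filter] at hvW
    have h1 : prd x y (bf a1 a2 a3 a4 false) (bf c1 c2 c3 c4 false) (bf false t2 t3 t4 r)
        (lab v) (e v) = false := by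
      cases h : prd x y (bf a1 a2 a3 a4 false) (bf c1 c2 c3 c4 false) (bf false t2 t3 t4 r)
        (lab v) (e v)
      · rfl
      · exact absurd ⟨hv, h⟩ hvW
    rcases hl with hl | hl
    · rw [hl] at h1
      unfold prd at h1
      rw [if_pos rfl] at h1
      exact bf_true_dvd hda _ (by simpa using h1)
    · rw [hl] at h1
      unfold prd at h1
      rw [if_neg hxy.symm, if_pos rfl] at h1
      exact bf_true_dvd hdc _ (by simpa using h1)

theorem exists_sorted (r : Fin 3 → ℝ) : ∃ x y z : Fin 3, x ≠ y ∧ x ≠ z ∧ y ≠ z ∧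
    r y ≤ r x ∧ r z ≤ r y := by
  rcases le_total (r 0) (r 1) with h1 | h1 <;> rcases le_total (r 1) (r 2) with h2 | h2 <;>
    rcases le_total (r 0) (r 2) with h3 | h3
  · exact ⟨2, 1, 0, by decide, by decide, by decide, h2, h1⟩
  · exact ⟨2, 1, 0, by decide, by decide, by decide, h2, h1⟩
  · exact ⟨1, 2, 0, by decide, by decide, by decide, h2, h3⟩
  · exact ⟨1, 0, 2, by decide, by decide, by decide, h1, h3⟩
  · exact ⟨2, 0, 1, by decide, by decide, by decide, h3, h1⟩
  · exact ⟨0, 2, 1, by decide, by decide, by decide, h3, h2⟩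
  · exact ⟨0, 1, 2, by decide, by decide, by decide, h1, h2⟩
  · exact ⟨0, 1, 2, by decide, by decide, by decide, h1, h2⟩

theorem US_nonneg (hb : ∀ v ∈ P, 0 < b v) (l : Fin 3) (m : ℕ) : 0 ≤ US P lab e b l m := by
  unfold US
  apply Finset.sum_nonneg
  intro v hv
  split_ifs
  · exact (hb v hv).le
  · exact le_rfl

theorem CS_nonneg (hb : ∀ v ∈ P, 0 < b v) (l : Fin 3) : 0 ≤ CS P lab e b l := by
  unfold CS
  apply Finset.sum_nonneg
  intro v hv
  split_ifs
  · exact (hb v hv).le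
  · exact le_rfl

theorem CS_le_RS (hb : ∀ v ∈ P, 0 < b v) (l : Fin 3) :
    5 * CS P lab e b l ≤ RS P lab e b l := by
  unfold CS RS
  rw [Finset.mul_sum]
  apply Finset.sum_le_sum
  intro v hv
  split_ifs with h
  · have h5 : (5 : ℝ) ≤ e v := by exact_mod_cast h.2
    have := hb v hv
    gcongr
  · simp

theorem mass_eq (he : ∀ v ∈ P, 1 ≤ e v) (x y z : Fin 3) (hxy : x ≠ y) (hxz : x ≠ z)
    (hyz : y ≠ z) : ∑ v ∈ P.filter (fun v => lab v = x), (e v : ℝ) * b v =
      US P lab e b x 1 + 2 * US P lab e b x 2 + 3 * US P lab e b x 3 + 4 * US P lab e b x 4 +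
        RS P lab e b x := by
  classical
  have h1 : ∑ v ∈ P.filter (fun v => lab v = x), (e v : ℝ) * b v =
      ∑ v ∈ P, (if lab v = x then (1 : ℝ) else 0) * ((e v : ℝ) * b v) := by
    rw [Finset.sum_filter]
    apply Finset.sum_congr rfl
    intro v _
    split_ifs <;> simp
  rw [h1, sum_blocks' he x y z hxy hxz hyz (fun l _ => if l = x then (1 : ℝ) else 0)
    (fun l m hm => rfl)]
  simp [hxy.symm, hxz.symm]

theorem total_eq (he : ∀ v ∈ P, 1 ≤ e v) (x y z : Fin 3) (hxy : x ≠ y) (hxz : x ≠ z)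
    (hyz : y ≠ z) : ∑ v ∈ P, b v =
      US P lab e b x 1 + US P lab e b x 2 + US P lab e b x 3 + US P lab e b x 4 +
        CS P lab e b x +
      (US P lab e b y 1 + US P lab e b y 2 + US P lab e b y 3 + US P lab e b y 4 +
        CS P lab e b y) +
      (US P lab e b z 1 + US P lab e b z 2 + US P lab e b z 3 + US P lab e b z 4 +
        CS P lab e b z) := by
  have h1 := sum_blocks (b := b) (lab := lab) he x y z hxy hxz hyz (fun _ _ => (1 : ℝ))
    (fun l m hm => rfl)
  simpa using h1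

end Cert3

end Pool.Agent.Lib.MP_4d5ce1_nt
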