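import Pool.Agent.Lib.MP_4d5ce1_nt.Cert3Core

set_option autoImplicit false

/-!
The certificate for `q = 3` (helper62, JOB U).
-/

namespace Pool.Agent.Lib.MP_4d5ce1_nt

open Cert3 in
set_option maxHeartbeats 4000000 in
theorem certificate3 : ∃ C : ℝ, 0 < C ∧ ∀ {ι : Type*} (P : Finset ι) (lab : ι → Fin 3) (e : ι → ℕ)
    (b : ι → ℝ) (I : Fin 3 → ℝ) (H K : ℝ), 0 ≤ H → 0 < K → (∀ v ∈ P, 1 ≤ e v ∧ 0 < b v) →
    (∀ l, 0 ≤ I l) →
    (∀ l, |∑ v ∈ P.filter (fun v => lab v = l), (e v : ℝ) * b v + I l - H| ≤ K) →
    ∑ v ∈ P, b v ≤ H + K →
    HasTool P lab e b I 4 (80 / 133 * H + C * K) := by
  refine ⟨10, by norm_num, ?_⟩
  intro ι P lab e b I H K hH hK hP hI hmass htot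
  by_contra hno
  have he : ∀ v ∈ P, 1 ≤ e v := fun v hv => (hP v hv).1
  have hb : ∀ v ∈ P, 0 < b v := fun v hv => (hP v hv).2
  obtain ⟨x, y, z, hxy, hxz, hyz, hr1, hr2⟩ := exists_sorted (fun l =>
    US P lab e b l 1 + US P lab e b l 2 + US P lab e b l 3 + US P lab e b l 4 + CS P lab e b l)
  have mx := hmass x
  have my := hmass y
  have mz := hmass z
  rw [mass_eq he x y z hxy hxz hyz, abs_le] at mx
  rw [mass_eq he y x z hxy.symm hyz hxz, abs_le] at my
  rw [mass_eq he z x y hxz.symm hyz.symm hxy, abs_le] at mz
  rw [total_eq (lab := lab) he x y z hxy hxz hyz] at htot
  have Rx := CS_le_RS (lab := lab) (e := e) hb x
  have Ry := CS_le_RS (lab := lab) (e := e) hb y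
  have Rz := CS_le_RS (lab := lab) (e := e) hb z
  have Ix := hI x
  have Iy := hI y
  have Iz := hI z
  exact cert3_core
    (US P lab e b x 1) (US P lab e b x 2) (US P lab e b x 3) (US P lab e b x 4)
    (CS P lab e b x) (I x + RS P lab e b x)
    (US P lab e b y 1) (US P lab e b y 2) (US P lab e b y 3) (US P lab e b y 4)
    (CS P lab e b y) (I y + RS P lab e b y)
    (US P lab e b z 1) (US P lab e b z 2) (US P lab e b z 3) (US P lab e b z 4)
    (CS P lab e b z) (I z + RS P lab e b z) H K hH hK
    (US_nonneg hb x 1) (US_nonneg hb x 2) (US_nonneg hb x 3) (US_nonneg hb x 4)
    (CS_nonneg hb x) (by linarith) (by linarith) (by linarith)
    (US_nonneg hb y 1) (US_nonneg hb y 2) (US_nonneg hb y 3) (US_nonneg hb y 4)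
    (CS_nonneg hb y) (by linarith) (by linarith) (by linarith)
    (US_nonneg hb z 1) (US_nonneg hb z 2) (US_nonneg hb z 3) (US_nonneg hb z 4)
    (CS_nonneg hb z) (by linarith) (by linarith) (by linarith)
    htot hr1 hr2
    (tool_or he hI hb x y z hxy hxz hyz 4 4 (by norm_num) (by norm_num) (by norm_num) false false false true false false false true false true true true
      (by decide) (by decide) _ hno)
    (tool_or he hI hb x y z hxy hxz hyz 3 3 (by norm_num) (by norm_num) (by norm_num) false false true false false false true false false true true true
      (by decide) (by decide) _ hno)
    (tool_or he hI hb x y z hxy hxz hyz 2 2 (by norm_num) (by norm_num) (by norm_num) false true false false false true false false false true true true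
      (by decide) (by decide) _ hno)
    (tool_or he hI hb z x y hxz.symm hyz.symm hxy 2 2 (by norm_num) (by norm_num) (by norm_num) false false false true false true false false true true true true
      (by decide) (by decide) _ hno)
    (tool_or he hI hb y z x hyz hxy.symm hxz.symm 3 3 (by norm_num) (by norm_num) (by norm_num) false false false false false false true false false false false true
      (by decide) (by decide) _ hno)
    (tool_or he hI hb y z x hyz hxy.symm hxz.symm 1 1 (by norm_num) (by norm_num) (by norm_num) true true true false true false false false false false true true
      (by decide) (by decide) _ hno)
    (tool_or he hI hb y z x hyz hxy.symm hxz.symm 2 2 (by norm_num) (by norm_num) (by norm_num) false false false true false true false true true true true true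
      (by decide) (by decide) _ hno)
    (tool_or he hI hb y z x hyz hxy.symm hxz.symm 1 1 (by norm_num) (by norm_num) (by norm_num) true true false false true true true false false false true true
      (by decide) (by decide) _ hno)
    (tool_or he hI hb z x y hxz.symm hyz.symm hxy 4 4 (by norm_num) (by norm_num) (by norm_num) false false false true false false false true false false true true
      (by decide) (by decide) _ hno)
    (tool_or he hI hb y z x hyz hxy.symm hxz.symm 2 2 (by norm_num) (by norm_num) (by norm_num) false true false true false true false false false false true true
      (by decide) (by decide) _ hno)
    (tool_or he hI hb y z x hyz hxy.symm hxz.symm 1 1 (by norm_num) (by norm_num) (by norm_num) true true true false true true false true false false true true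
      (by decide) (by decide) _ hno)
    (tool_or he hI hb z x y hxz.symm hyz.symm hxy 3 3 (by norm_num) (by norm_num) (by norm_num) false false true false false false false false false false false true
      (by decide) (by decide) _ hno)
    (tool_or he hI hb y z x hyz hxy.symm hxz.symm 1 1 (by norm_num) (by norm_num) (by norm_num) true false false false true true true false true true false true
      (by decide) (by decide) _ hno)
    (tool_or he hI hb z x y hxz.symm hyz.symm hxy 2 2 (by norm_num) (by norm_num) (by norm_num) false true false true false true false false false true false true
      (by decide) (by decide) _ hno)
    (tool_or he hI hb y z x hyz hxy.symm hxz.symm 1 1 (by norm_num) (by norm_num) (by norm_num) true false true false true true true false true true true true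
      (by decide) (by decide) _ hno)
    (tool_or he hI hb z x y hxz.symm hyz.symm hxy 2 2 (by norm_num) (by norm_num) (by norm_num) false true false true false true false true false false false true
      (by decide) (by decide) _ hno)
    (tool_or he hI hb y z x hyz hxy.symm hxz.symm 1 1 (by norm_num) (by norm_num) (by norm_num) true false false false false true true false true true true true
      (by decide) (by decide) _ hno)
    (tool_or he hI hb z x y hxz.symm hyz.symm hxy 2 2 (by norm_num) (by norm_num) (by norm_num) false true false true false true false true false false true true
      (by decide) (by decide) _ hno)
    (tool_or he hI hb y z x hyz hxy.symm hxz.symm 1 1 (by norm_num) (by norm_num) (by norm_num) true false false false true true true false false true true true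
      (by decide) (by decide) _ hno)
    (tool_or he hI hb y z x hyz hxy.symm hxz.symm 2 2 (by norm_num) (by norm_num) (by norm_num) false true false true false true false true true true false false
      (by decide) (by decide) _ hno)
    (tool_or he hI hb y z x hyz hxy.symm hxz.symm 3 3 (by norm_num) (by norm_num) (by norm_num) false false true false false false false false false false true true
      (by decide) (by decide) _ hno)
    (tool_or he hI hb y z x hyz hxy.symm hxz.symm 2 2 (by norm_num) (by norm_num) (by norm_num) false true false false false false false false false false true true
      (by decide) (by decide) _ hno)
    (tool_or he hI hb x y z hxy hxz hyz 2 2 (by norm_num) (by norm_num) (by norm_num) false true false true false true false true true false true true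
      (by decide) (by decide) _ hno)
    (tool_or he hI hb y z x hyz hxy.symm hxz.symm 1 1 (by norm_num) (by norm_num) (by norm_num) true true false false true true false false false false true true
      (by decide) (by decide) _ hno)
    (tool_or he hI hb y z x hyz hxy.symm hxz.symm 3 3 (by norm_num) (by norm_num) (by norm_num) false false true false false false true false false false true true
      (by decide) (by decide) _ hno)
    (tool_or he hI hb y z x hyz hxy.symm hxz.symm 1 1 (by norm_num) (by norm_num) (by norm_num) true true true false true false false false true true true true
      (by decide) (by decide) _ hno)
    (tool_or he hI hb z x y hxz.symm hyz.symm hxy 2 2 (by norm_num) (by norm_num) (by norm_num) false true false true false false false true false true false true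
      (by decide) (by decide) _ hno)
    (tool_or he hI hb z x y hxz.symm hyz.symm hxy 4 4 (by norm_num) (by norm_num) (by norm_num) false false false false false false false true true false true true
      (by decide) (by decide) _ hno)
    (tool_or he hI hb z x y hxz.symm hyz.symm hxy 4 4 (by norm_num) (by norm_num) (by norm_num) false false false true false false false true false true false false
      (by decide) (by decide) _ hno)
    (tool_or he hI hb z x y hxz.symm hyz.symm hxy 2 2 (by norm_num) (by norm_num) (by norm_num) false true false true false true false true false true true true
      (by decide) (by decide) _ hno)
    (tool_or he hI hb z x y hxz.symm hyz.symm hxy 3 3 (by norm_num) (by norm_num) (by norm_num) false false true false false false true false false false true true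
      (by decide) (by decide) _ hno)
    (tool_or he hI hb y z x hyz hxy.symm hxz.symm 1 1 (by norm_num) (by norm_num) (by norm_num) true true true false true true false true false true false false
      (by decide) (by decide) _ hno)
    (tool_or he hI hb x y z hxy hxz hyz 2 2 (by norm_num) (by norm_num) (by norm_num) false true false false false false false true false false true true
      (by decide) (by decide) _ hno)
    (tool_or he hI hb y z x hyz hxy.symm hxz.symm 1 1 (by norm_num) (by norm_num) (by norm_num) true true false true true true false false false true true false
      (by decide) (by decide) _ hno)
    (tool_or he hI hb y z x hyz hxy.symm hxz.symm 1 1 (by norm_num) (by norm_num) (by norm_num) true false false false true false false false true false false false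
      (by decide) (by decide) _ hno)
    (tool_or he hI hb y z x hyz hxy.symm hxz.symm 1 1 (by norm_num) (by norm_num) (by norm_num) true true false false true false false false true false true true
      (by decide) (by decide) _ hno)
    (tool_or he hI hb z x y hxz.symm hyz.symm hxy 3 3 (by norm_num) (by norm_num) (by norm_num) false false true false false false true false false false false true
      (by decide) (by decide) _ hno)
    (tool_or he hI hb x y z hxy hxz hyz 3 3 (by norm_num) (by norm_num) (by norm_num) false false true false false false false false false false false true
      (by decide) (by decide) _ hno)
    (tool_or he hI hb y z x hyz hxy.symm hxz.symm 1 1 (by norm_num) (by norm_num) (by norm_num) false false false false true false false false false false true false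
      (by decide) (by decide) _ hno)
    (tool_or he hI hb y z x hyz hxy.symm hxz.symm 2 2 (by norm_num) (by norm_num) (by norm_num) false true false true false true false true false true false false
      (by decide) (by decide) _ hno)
    (tool_or he hI hb y z x hyz hxy.symm hxz.symm 1 1 (by norm_num) (by norm_num) (by norm_num) true true false false true true true false true false true true
      (by decide) (by decide) _ hno)
    (tool_or he hI hb y z x hyz hxy.symm hxz.symm 1 1 (by norm_num) (by norm_num) (by norm_num) true true true false true true false true false true true true
      (by decide) (by decide) _ hno)
    (tool_or he hI hb y z x hyz hxy.symm hxz.symm 2 2 (by norm_num) (by norm_num) (by norm_num) false true false true false true false true false true false true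
      (by decide) (by decide) _ hno)
    (tool_or he hI hb y z x hyz hxy.symm hxz.symm 4 4 (by norm_num) (by norm_num) (by norm_num) false false false true false false false true true false false false
      (by decide) (by decide) _ hno)
    (tool_or he hI hb z x y hxz.symm hyz.symm hxy 2 2 (by norm_num) (by norm_num) (by norm_num) false true false true false true false false false false false true
      (by decide) (by decide) _ hno)
    (tool_or he hI hb z x y hxz.symm hyz.symm hxy 1 1 (by norm_num) (by norm_num) (by norm_num) true true true false false true false false false false true true
      (by decide) (by decide) _ hno)
    (tool_or he hI hb z x y hxz.symm hyz.symm hxy 3 3 (by norm_num) (by norm_num) (by norm_num) false false false false false false true false false false false true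
      (by decide) (by decide) _ hno)
    (tool_or he hI hb x y z hxy hxz hyz 2 2 (by norm_num) (by norm_num) (by norm_num) false true false false false true false true false false false true
      (by decide) (by decide) _ hno)
    (tool_or he hI hb y z x hyz hxy.symm hxz.symm 2 2 (by norm_num) (by norm_num) (by norm_num) false false false true false true false true false true false false
      (by decide) (by decide) _ hno)
    (tool_or he hI hb z x y hxz.symm hyz.symm hxy 1 1 (by norm_num) (by norm_num) (by norm_num) true true false false false true false false false false true true
      (by decide) (by decide) _ hno)
    (tool_or he hI hb y z x hyz hxy.symm hxz.symm 1 1 (by norm_num) (by norm_num) (by norm_num) true true false true true true true true false true false false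
      (by decide) (by decide) _ hno)
    (tool_or he hI hb z x y hxz.symm hyz.symm hxy 3 3 (by norm_num) (by norm_num) (by norm_num) false false true false false false true false false true true true
      (by decide) (by decide) _ hno)
    (tool_or he hI hb y z x hyz hxy.symm hxz.symm 4 4 (by norm_num) (by norm_num) (by norm_num) false false false true false false false true true false true false
      (by decide) (by decide) _ hno)
    (tool_or he hI hb y z x hyz hxy.symm hxz.symm 3 3 (by norm_num) (by norm_num) (by norm_num) false false true false false false true false true false true false
      (by decide) (by decide) _ hno)
    (tool_or he hI hb z x y hxz.symm hyz.symm hxy 2 2 (by norm_num) (by norm_num) (by norm_num) false false false true false true false true true true true true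
      (by decide) (by decide) _ hno)
    (tool_or he hI hb x y z hxy hxz hyz 2 2 (by norm_num) (by norm_num) (by norm_num) false true false true false true false true false true true true
      (by decide) (by decide) _ hno)
    (tool_or he hI hb y z x hyz hxy.symm hxz.symm 1 1 (by norm_num) (by norm_num) (by norm_num) true true true false true true true false true false true false
      (by decide) (by decide) _ hno)
    (tool_or he hI hb y z x hyz hxy.symm hxz.symm 1 1 (by norm_num) (by norm_num) (by norm_num) true false false false true false false false false false true false
      (by decide) (by decide) _ hno)
    (tool_or he hI hb z x y hxz.symm hyz.symm hxy 2 2 (by norm_num) (by norm_num) (by norm_num) false false false false false true false true false false true true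
      (by decide) (by decide) _ hno)
    (tool_or he hI hb x y z hxy hxz hyz 3 3 (by norm_num) (by norm_num) (by norm_num) false false true false false false true false false false false true
      (by decide) (by decide) _ hno)
    (tool_or he hI hb y z x hyz hxy.symm hxz.symm 1 1 (by norm_num) (by norm_num) (by norm_num) true true false false true true true false false false true false
      (by decide) (by decide) _ hno)
    (tool_or he hI hb y z x hyz hxy.symm hxz.symm 1 1 (by norm_num) (by norm_num) (by norm_num) true false true false true true false false false true true true
      (by decide) (by decide) _ hno)
    (tool_or he hI hb z x y hxz.symm hyz.symm hxy 3 3 (by norm_num) (by norm_num) (by norm_num) false false true false false false true false false true false false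
      (by decide) (by decide) _ hno)
    (tool_or he hI hb y z x hyz hxy.symm hxz.symm 1 1 (by norm_num) (by norm_num) (by norm_num) true false true false true true false false false true true false
      (by decide) (by decide) _ hno)
    (tool_or he hI hb x y z hxy hxz hyz 2 2 (by norm_num) (by norm_num) (by norm_num) false true false false false false false true false false false true
      (by decide) (by decide) _ hno)
    (tool_or he hI hb y z x hyz hxy.symm hxz.symm 4 4 (by norm_num) (by norm_num) (by norm_num) false false false true false false false true false true false true
      (by decide) (by decide) _ hno)
    (tool_or he hI hb z x y hxz.symm hyz.symm hxy 2 2 (by norm_num) (by norm_num) (by norm_num) false true false true false true false false false false true true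
      (by decide) (by decide) _ hno)
    (tool_or he hI hb z x y hxz.symm hyz.symm hxy 4 4 (by norm_num) (by norm_num) (by norm_num) false false false true false false false true false false true false
      (by decide) (by decide) _ hno)
    (tool_or he hI hb y z x hyz hxy.symm hxz.symm 3 3 (by norm_num) (by norm_num) (by norm_num) false false true false false false true false false false true false
      (by decide) (by decide) _ hno)
    (tool_or he hI hb y z x hyz hxy.symm hxz.symm 3 3 (by norm_num) (by norm_num) (by norm_num) false false true false false false false false false false true false
      (by decide) (by decide) _ hno)
    (tool_or he hI hb z x y hxz.symm hyz.symm hxy 4 4 (by norm_num) (by norm_num) (by norm_num) false false false true false false false true true false true true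
      (by decide) (by decide) _ hno)
    (tool_or he hI hb y z x hyz hxy.symm hxz.symm 1 1 (by norm_num) (by norm_num) (by norm_num) true false false false true true false false false false true false
      (by decide) (by decide) _ hno)
    (tool_or he hI hb x y z hxy hxz hyz 4 4 (by norm_num) (by norm_num) (by norm_num) false false false true false false false true false false true true
      (by decide) (by decide) _ hno)
    (tool_or he hI hb y z x hyz hxy.symm hxz.symm 3 3 (by norm_num) (by norm_num) (by norm_num) false false true false false false true false false true false false
      (by decide) (by decide) _ hno)
    (tool_or he hI hb y z x hyz hxy.symm hxz.symm 2 2 (by norm_num) (by norm_num) (by norm_num) false true false false false true false false false false true false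
      (by decide) (by decide) _ hno)
    (tool_or he hI hb x y z hxy hxz hyz 3 3 (by norm_num) (by norm_num) (by norm_num) false false true false false false true false false true false true
      (by decide) (by decide) _ hno)
    (tool_or he hI hb z x y hxz.symm hyz.symm hxy 3 3 (by norm_num) (by norm_num) (by norm_num) false false true false false false true false false true false true
      (by decide) (by decide) _ hno)
    (tool_or he hI hb y z x hyz hxy.symm hxz.symm 2 2 (by norm_num) (by norm_num) (by norm_num) false false false true false true false true false true false true
      (by decide) (by decide) _ hno)
    (tool_or he hI hb z x y hxz.symm hyz.symm hxy 3 3 (by norm_num) (by norm_num) (by norm_num) false false false false false false true false false true false true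
      (by decide) (by decide) _ hno)

end Pool.Agent.Lib.MP_4d5ce1_nt
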