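import Pool.Agent.Lib.MP_4d5ce1_nt.Basic
import Pool.Agent.Lib.MP_4d5ce1_nt.Kummer

section

set_option autoImplicit false

open NumberField IsDedekindDomain

namespace Pool.Agent.Lib.MP_4d5ce1_nt

variable {K : Type*} [Field K] [NumberField K]

/-- A complex number whose `n`-th power is near `1` is near an `n`-th root of unity. -/
lemma root_near (n : ℕ) (hn : 1 ≤ n) : ∃ c : ℝ, 0 < c ∧ ∀ u : ℂ,
    ∃ ζ ∈ Polynomial.nthRootsFinset n (1 : ℂ), c * ‖u - ζ‖ ≤ ‖u ^ n - 1‖ := by
  classical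
  set Z := Polynomial.nthRootsFinset n (1 : ℂ) with hZ
  have hn0 : NeZero n := ⟨by omega⟩
  have h1Z : (1 : ℂ) ∈ Z := Polynomial.one_mem_nthRootsFinset (by omega)
  let cz : ℂ → ℝ := fun ζ0 => ∏ ζ ∈ Z.erase ζ0, ‖ζ - ζ0‖ / 2
  have hcz : ∀ ζ0, 0 < cz ζ0 := by
    intro ζ0
    apply Finset.prod_pos
    intro ζ hζ
    have : ζ ≠ ζ0 := (Finset.mem_erase.1 hζ).1
    have : 0 < ‖ζ - ζ0‖ := norm_pos_iff.2 (sub_ne_zero.2 this)
    positivity
  obtain ⟨ζm, _, hζm⟩ := Finset.exists_min_image Z cz ⟨1, h1Z⟩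
  refine ⟨cz ζm, hcz _, ?_⟩
  intro u
  obtain ⟨ζ0, hζ0, hmin⟩ := Finset.exists_min_image Z (fun ζ => ‖u - ζ‖) ⟨1, h1Z⟩
  refine ⟨ζ0, hζ0, ?_⟩
  have hprod : u ^ n - 1 = ∏ ζ ∈ Z, (u - ζ) := by
    have h := Polynomial.X_pow_sub_one_eq_prod (R := ℂ) (ζ := Complex.exp (2 * Real.pi * Complex.I / n))
      (by omega) (Complex.isPrimitiveRoot_exp n (by omega))
    have h2 := congrArg (Polynomial.eval u) h
    rw [Polynomial.eval_prod] at h2
    simpa using h2
  rw [hprod, norm_prod, ← Finset.mul_prod_erase Z _ hζ0]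
  rw [mul_comm]
  apply mul_le_mul_of_nonneg_left _ (norm_nonneg _)
  refine (hζm ζ0 hζ0).trans ?_
  apply Finset.prod_le_prod
  · intro ζ _; positivity
  · intro ζ hζ
    have h1 := hmin ζ (Finset.mem_of_mem_erase hζ)
    have h2 : ‖ζ - ζ0‖ ≤ ‖u - ζ0‖ + ‖u - ζ‖ := by
      have : ζ - ζ0 = (u - ζ0) - (u - ζ) := by ring
      rw [this]; exact norm_sub_le _ _
    linarith

/-- Coding a bounded real number by the cell of side `s` containing it. -/
lemma cell_real (m : ℕ) (x : ℝ) (s : ℝ) (hs : 0 < s) (hx : |x| ≤ m * s) :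
    (⌊x / s⌋ + m).toNat < 2 * m + 1 ∧ ((⌊x / s⌋ + m).toNat : ℤ) = ⌊x / s⌋ + m := by
  have h1 : |x / s| ≤ m := by
    rw [abs_div, abs_of_pos hs, div_le_iff₀ hs]; exact hx
  rw [abs_le] at h1
  have h2 : -(m : ℤ) ≤ ⌊x / s⌋ := by
    rw [Int.le_floor]; push_cast; linarith
  have h3 : ⌊x / s⌋ ≤ m := by
    rw [← Int.cast_le (R := ℝ)]
    exact (Int.floor_le _).trans (by push_cast; linarith)
  omega

lemma cell_close {x y s : ℝ} (hs : 0 < s) (h : ⌊x / s⌋ = ⌊y / s⌋) : |x - y| ≤ s := by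
  have h1 := Int.abs_sub_lt_one_of_floor_eq_floor h
  rw [← sub_div, abs_div, abs_of_pos hs, div_lt_one hs] at h1
  exact h1.le

theorem arch_cells (w : InfinitePlace K) (n : ℕ) (hn : 1 ≤ n) (A : ℝ) (hA : 1 ≤ A) :
    ∃ C : ℝ, 0 < C ∧ ∀ R σ : ℝ, 0 < R → R ≤ 1 → 0 < σ → σ ≤ 1 →
      ∃ N : ℕ, (N : ℝ) ≤ C / σ ^ w.mult ∧ ∃ f : K → Fin N, ∀ z z' : K,
        w (z ^ n - 1) ≤ A * R → w (z' ^ n - 1) ≤ A * R → f z = f z' → w (z - z') ≤ σ * R := by
  classical
  obtain ⟨c, hc, hroot⟩ := root_near n hn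
  set Z := Polynomial.nthRootsFinset n (1 : ℂ) with hZ
  set D : ℝ := A / c with hD
  have hDpos : 0 < D := by positivity
  set k := Z.card with hk
  have hk1 : 1 ≤ k := Finset.card_pos.2 ⟨1, Polynomial.one_mem_nthRootsFinset (by omega)⟩
  let e : Z ≃ Fin k := Z.equivFin
  refine ⟨k * (4 * D + 3) ^ 2, by positivity, ?_⟩
  intro R σ hR _ hσ hσ1
  set s : ℝ := σ * R / 2 with hs
  have hspos : 0 < s := by positivity
  set m : ℕ := ⌈2 * D / σ⌉₊ with hm
  have hm1 : 2 * D / σ ≤ m := Nat.le_ceil _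
  have hm2 : (m : ℝ) < 2 * D / σ + 1 := Nat.ceil_lt_add_one (by positivity)
  have hmD : D * R ≤ m * s := by
    calc D * R = (2 * D / σ) * s := by rw [hs]; field_simp
      _ ≤ m * s := mul_le_mul_of_nonneg_right hm1 hspos.le
  have hcount : ((2 * m + 1 : ℕ) : ℝ) ≤ (4 * D + 3) / σ := by
    push_cast
    have h1 : (2 * (m : ℝ) + 1) ≤ 4 * D / σ + 3 := by
      have : 4 * D / σ = 2 * (2 * D / σ) := by ring
      rw [this]; linarith
    have h2 : (3 : ℝ) ≤ 3 / σ := by
      rw [le_div_iff₀ hσ]; nlinarith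
    calc (2 * (m : ℝ) + 1) ≤ 4 * D / σ + 3 := h1
      _ ≤ 4 * D / σ + 3 / σ := by linarith
      _ = (4 * D + 3) / σ := by ring
  -- choice of the root
  have hex : ∀ z : K, ∃ ζ : Z, w (z ^ n - 1) ≤ A * R → ‖w.embedding z - ζ‖ ≤ D * R := by
    intro z
    obtain ⟨ζ, hζ, h⟩ := hroot (w.embedding z)
    refine ⟨⟨ζ, hζ⟩, ?_⟩
    intro hz
    rw [← w.norm_embedding_eq, map_sub, map_pow, map_one] at hz
    have h1 : c * ‖w.embedding z - ζ‖ ≤ A * R := h.trans hz
    rw [hD, div_mul_eq_mul_div, le_div_iff₀ hc]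
    linarith
  choose ζ hζ using hex
  let dre : K → ℝ := fun z => (w.embedding z - ζ z).re
  let dim : K → ℝ := fun z => (w.embedding z - ζ z).im
  have hre : ∀ z, w (z ^ n - 1) ≤ A * R → |dre z| ≤ m * s := fun z hz =>
    (Complex.abs_re_le_norm _).trans ((hζ z hz).trans hmD)
  have him : ∀ z, w (z ^ n - 1) ≤ A * R → |dim z| ≤ m * s := fun z hz =>
    (Complex.abs_im_le_norm _).trans ((hζ z hz).trans hmD)
  let code : ℝ → Fin (2 * m + 1) := fun x =>
    if h : (⌊x / s⌋ + m).toNat < 2 * m + 1 then ⟨(⌊x / s⌋ + m).toNat, h⟩ else ⟨0, by omega⟩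
  have hcode : ∀ x y : ℝ, |x| ≤ m * s → |y| ≤ m * s → code x = code y → |x - y| ≤ s := by
    intro x y hx hy hxy
    obtain ⟨h1, h2⟩ := cell_real m x s hspos hx
    obtain ⟨h3, h4⟩ := cell_real m y s hspos hy
    simp only [code, h1, h3, dif_pos, Fin.mk.injEq] at hxy
    apply cell_close hspos
    omega
  by_cases hw : w.IsReal
  · have hmult : w.mult = 1 := by simp [InfinitePlace.mult, hw]
    refine ⟨k * (2 * m + 1), ?_, ?_⟩
    · rw [hmult, pow_one, Nat.cast_mul]
      have h0 : (1 : ℝ) ≤ 4 * D + 3 := by linarith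
      have hkk : (0 : ℝ) ≤ k := Nat.cast_nonneg _
      calc (k : ℝ) * ((2 * m + 1 : ℕ) : ℝ) ≤ k * ((4 * D + 3) / σ) :=
            mul_le_mul_of_nonneg_left hcount hkk
        _ ≤ k * ((4 * D + 3) ^ 2 / σ) := by
            apply mul_le_mul_of_nonneg_left _ hkk
            apply div_le_div_of_nonneg_right _ hσ.le
            nlinarith
        _ = k * (4 * D + 3) ^ 2 / σ := by ring
    · refine ⟨fun z => finProdFinEquiv (e (ζ z), code (dre z)), ?_⟩
      intro z z' hz hz' h
      have h1 := finProdFinEquiv.injective h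
      rw [Prod.mk.injEq] at h1
      have hζe : ζ z = ζ z' := e.injective h1.1
      have h2 := hcode _ _ (hre z hz) (hre z' hz') h1.2
      have him0 : ∀ x : K, (w.embedding x).im = 0 := by
        intro x
        rw [← InfinitePlace.embedding_of_isReal_apply hw]
        exact Complex.ofReal_im _
      have h3 : w.embedding (z - z') = ((dre z - dre z' : ℝ) : ℂ) := by
        apply Complex.ext
        · simp only [dre, hζe, map_sub, Complex.sub_re, Complex.ofReal_re]
          ring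
        · rw [him0, Complex.ofReal_im]
      rw [← w.norm_embedding_eq, h3, Complex.norm_real, Real.norm_eq_abs]
      refine h2.trans ?_
      rw [hs]
      have : 0 < σ * R := by positivity
      linarith
  · have hmult : w.mult = 2 := by simp [InfinitePlace.mult, hw]
    refine ⟨k * ((2 * m + 1) * (2 * m + 1)), ?_, ?_⟩
    · rw [hmult, Nat.cast_mul, Nat.cast_mul]
      have hkk : (0 : ℝ) ≤ k := Nat.cast_nonneg _
      have h5 : ((2 * m + 1 : ℕ) : ℝ) * ((2 * m + 1 : ℕ) : ℝ) ≤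
          ((4 * D + 3) / σ) * ((4 * D + 3) / σ) :=
        mul_le_mul hcount hcount (Nat.cast_nonneg _) (by positivity)
      calc (k : ℝ) * (((2 * m + 1 : ℕ) : ℝ) * ((2 * m + 1 : ℕ) : ℝ)) ≤
            k * (((4 * D + 3) / σ) * ((4 * D + 3) / σ)) := mul_le_mul_of_nonneg_left h5 hkk
        _ = k * (4 * D + 3) ^ 2 / σ ^ 2 := by field_simp
    · refine ⟨fun z => finProdFinEquiv (e (ζ z), finProdFinEquiv (code (dre z), code (dim z))), ?_⟩
      intro z z' hz hz' h
      have h1 := finProdFinEquiv.injective h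
      rw [Prod.mk.injEq] at h1
      have hζe : ζ z = ζ z' := e.injective h1.1
      have h1' := finProdFinEquiv.injective h1.2
      rw [Prod.mk.injEq] at h1'
      have h2 := hcode _ _ (hre z hz) (hre z' hz') h1'.1
      have h3 := hcode _ _ (him z hz) (him z' hz') h1'.2
      rw [← w.norm_embedding_eq]
      refine (Complex.norm_le_abs_re_add_abs_im _).trans ?_
      have h4 : (w.embedding (z - z')).re = dre z - dre z' := by
        simp only [dre, hζe, map_sub, Complex.sub_re]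
        ring
      have h5 : (w.embedding (z - z')).im = dim z - dim z' := by
        simp only [dim, hζe, map_sub, Complex.sub_im]
        ring
      rw [h4, h5]
      rw [hs] at h2 h3
      linarith

end Pool.Agent.Lib.MP_4d5ce1_nt
end

section

set_option autoImplicit false

open NumberField IsDedekindDomain

namespace Pool.Agent.Lib.MP_4d5ce1_nt

variable {K : Type*} [Field K] [NumberField K]

/-- Comparison of the real absolute value with the valuation. -/
lemma fa_le_zpow_iff_valuation (v : HeightOneSpectrum (𝓞 K)) (x : K) (c : ℤ) :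
    fa v x ≤ nv v ^ (-c) ↔ v.valuation K x ≤ WithZero.exp (-c) := by
  by_cases hx : x = 0
  · subst hx
    simp only [fa_zero, map_zero, zero_le, iff_true]
    exact (zpow_pos (nv_pos v) _).le
  · rw [fa_eq v hx, zpow_le_zpow_iff_right₀ (one_lt_nv v)]
    have hne : v.valuation K x ≠ 0 := (Valuation.ne_zero_iff _).mpr hx
    rw [← WithZero.log_le_iff_le_exp hne]
    unfold ordv
    omega

/-- Approximation of a `v`-integral element by an algebraic integer. -/
lemma exists_int_approx (v : HeightOneSpectrum (𝓞 K)) (c : ℕ) {w : K} (hw : fa v w ≤ 1) :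
    ∃ a : 𝓞 K, fa v (algebraMap (𝓞 K) K a - w) ≤ nv v ^ (-(c : ℤ)) := by
  have hw' : v.valuation K w ≤ 1 := by
    have := (fa_le_zpow_iff_valuation v w 0).1 (by simpa using hw)
    simpa using this
  obtain ⟨a, ha⟩ := HeightOneSpectrum.exists_valuation_sub_lt_of_integer v hw'
    (Units.mk0 (WithZero.exp (-(c : ℤ))) (by simp))
  refine ⟨a, ?_⟩
  rw [fa_le_zpow_iff_valuation]
  exact ha.le

lemma fa_int_le_iff_mem (v : HeightOneSpectrum (𝓞 K)) (c : ℕ) (a : 𝓞 K) :
    fa v (algebraMap (𝓞 K) K a) ≤ nv v ^ (-(c : ℤ)) ↔ a ∈ v.asIdeal ^ c := by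
  rw [fa_le_zpow_iff_valuation, HeightOneSpectrum.valuation_of_algebraMap,
    HeightOneSpectrum.intValuation_le_pow_iff_mem]

lemma fa_lt_one_iff_le (v : HeightOneSpectrum (𝓞 K)) (x : K) :
    fa v x < 1 ↔ fa v x ≤ nv v ^ (-((1 : ℕ) : ℤ)) := by
  by_cases hx : x = 0
  · subst hx
    simp only [fa_zero, zero_lt_one, true_iff]
    exact (zpow_pos (nv_pos v) _).le
  · rw [fa_eq v hx, zpow_le_zpow_iff_right₀ (one_lt_nv v)]
    rw [show (1:ℝ) = nv v ^ (0:ℤ) by simp, zpow_lt_zpow_iff_right₀ (one_lt_nv v)]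
    push_cast
    omega

theorem local_finite_classes (v : HeightOneSpectrum (𝓞 K)) (δ : ℝ) (hδ : 0 < δ) :
    ∃ N : ℕ, ∃ f : K → Fin N, ∀ w w' : K, fa v w ≤ 1 → fa v w' ≤ 1 →
      f w = f w' → fa v (w - w') < δ := by
  classical
  -- choose the exponent
  obtain ⟨c, hc⟩ : ∃ c : ℕ, nv v ^ (-(c : ℤ)) < δ := by
    obtain ⟨c, hc⟩ := exists_pow_lt_of_lt_one hδ (inv_lt_one_of_one_lt₀ (one_lt_nv v))
    refine ⟨c, ?_⟩
    rw [zpow_neg, zpow_natCast, ← inv_pow]
    exact hc
  have hfin : Finite (𝓞 K ⧸ v.asIdeal ^ c) :=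
    Ideal.finiteQuotientOfFreeOfNeBot _ (pow_ne_zero _ v.ne_bot)
  obtain ⟨N, ⟨e⟩⟩ := Finite.exists_equiv_fin (𝓞 K ⧸ v.asIdeal ^ c)
  have hex : ∀ w : K, ∃ a : 𝓞 K, fa v w ≤ 1 →
      fa v (algebraMap (𝓞 K) K a - w) ≤ nv v ^ (-(c : ℤ)) := by
    intro w
    by_cases hw : fa v w ≤ 1
    · obtain ⟨a, ha⟩ := exists_int_approx v c hw
      exact ⟨a, fun _ => ha⟩
    · exact ⟨0, fun h => absurd h hw⟩
  choose a ha using hex
  refine ⟨N, fun w => e (Ideal.Quotient.mk _ (a w)), ?_⟩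
  intro w w' hw hw' h
  have h1 := e.injective h
  rw [Ideal.Quotient.eq] at h1
  have h2 := (fa_int_le_iff_mem v c _).2 h1
  rw [map_sub] at h2
  have h3 : w - w' = (algebraMap (𝓞 K) K (a w) - algebraMap (𝓞 K) K (a w')) +
      ((algebraMap (𝓞 K) K (a w') - w') - (algebraMap (𝓞 K) K (a w) - w)) := by ring
  rw [h3]
  refine lt_of_le_of_lt ((fa_add_le v _ _).trans (max_le h2 ((fa_sub_le v _ _).trans
    (max_le (ha w' hw') (ha w hw))))) hc

theorem local_classes (v : HeightOneSpectrum (𝓞 K)) (n : ℕ) (hn : 1 ≤ n)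
    (hvn : fa v (n : K) = 1) :
    ∃ f : K → Fin n, ∀ w w' : K, fa v (w ^ n - 1) < 1 → fa v (w' ^ n - 1) < 1 →
      f w = f w' → fa v (w - w') < 1 := by
  classical
  let k := 𝓞 K ⧸ v.asIdeal
  let _inst : Field k := Ideal.Quotient.field v.asIdeal
  have hkey : ∀ w : K, fa v (w ^ n - 1) < 1 → ∃ a : 𝓞 K,
      fa v (algebraMap (𝓞 K) K a - w) < 1 ∧ (Ideal.Quotient.mk v.asIdeal a) ^ n = 1 := by
    intro w hw
    have hw1 : fa v w = 1 := by
      have h1 : fa v (w ^ n) = 1 := by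
        have := fa_add_eq_right v (x := w ^ n - 1) (y := 1) (by simpa using hw)
        simpa using this
      rw [fa_pow] at h1
      exact (pow_eq_one_iff_of_nonneg (fa_nonneg v w) (by omega)).1 h1
    obtain ⟨a, ha⟩ := exists_int_approx v 1 hw1.le
    rw [← fa_lt_one_iff_le] at ha
    refine ⟨a, ha, ?_⟩
    have hdiv : ∃ q : K, fa v q ≤ 1 ∧
        (algebraMap (𝓞 K) K a) ^ n - w ^ n = (algebraMap (𝓞 K) K a - w) * q := by
      refine ⟨∑ i ∈ Finset.range n, (algebraMap (𝓞 K) K a) ^ i * w ^ (n - 1 - i), ?_, ?_⟩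
      · apply fa_sum_le _ _ _ _ zero_le_one
        intro i _
        have ha1 : fa v (algebraMap (𝓞 K) K a) ≤ 1 := by
          have h := (fa_int_le_iff_mem v 0 a).2 (by simp)
          simpa using h
        rw [fa_mul, fa_pow, fa_pow, hw1, one_pow, mul_one]
        exact pow_le_one₀ (fa_nonneg v _) ha1
      · exact ((Commute.all _ _).mul_geom_sum₂ n).symm
    obtain ⟨q, hq, hqe⟩ := hdiv
    have h4 : fa v (algebraMap (𝓞 K) K (a ^ n - 1)) < 1 := by
      have : algebraMap (𝓞 K) K (a ^ n - 1) =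
          ((algebraMap (𝓞 K) K a) ^ n - w ^ n) + (w ^ n - 1) := by
        rw [map_sub, map_pow, map_one]; ring
      rw [this, hqe]
      refine lt_of_le_of_lt (fa_add_le v _ _) (max_lt ?_ hw)
      rw [fa_mul]
      calc fa v (algebraMap (𝓞 K) K a - w) * fa v q ≤ fa v (algebraMap (𝓞 K) K a - w) * 1 :=
            mul_le_mul_of_nonneg_left hq (fa_nonneg v _)
        _ < 1 := by rw [mul_one]; exact ha
    rw [fa_lt_one_iff_le, fa_int_le_iff_mem, pow_one] at h4
    have h5 := Ideal.Quotient.eq_zero_iff_mem.2 h4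
    rw [map_sub, map_pow, map_one, sub_eq_zero] at h5
    exact h5
  -- the roots of unity of the residue field
  have hcard : (Polynomial.nthRoots n (1 : k)).toFinset.card ≤ n :=
    (Multiset.toFinset_card_le _).trans (Polynomial.card_nthRoots n 1)
  obtain ⟨g⟩ : Nonempty ((Polynomial.nthRoots n (1 : k)).toFinset ↪ Fin n) := by
    apply Function.Embedding.nonempty_of_card_le
    rw [Fintype.card_coe, Fintype.card_fin]
    exact hcard
  have hroot : ∀ a : k, a ^ n = 1 → a ∈ (Polynomial.nthRoots n (1 : k)).toFinset := by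
    intro a ha
    rw [Multiset.mem_toFinset, Polynomial.mem_nthRoots (by omega)]
    exact ha
  have hex : ∀ w : K, ∃ i : Fin n, fa v (w ^ n - 1) < 1 → ∃ (a : 𝓞 K)
      (h : (Ideal.Quotient.mk v.asIdeal a) ^ n = 1), fa v (algebraMap (𝓞 K) K a - w) < 1 ∧
      g ⟨_, hroot _ h⟩ = i := by
    intro w
    by_cases hw : fa v (w ^ n - 1) < 1
    · obtain ⟨a, ha, ha'⟩ := hkey w hw
      exact ⟨g ⟨_, hroot _ ha'⟩, fun _ => ⟨a, ha', ha, rfl⟩⟩
    · exact ⟨⟨0, by omega⟩, fun h => absurd h hw⟩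
  choose f hf using hex
  refine ⟨f, ?_⟩
  intro w w' hw hw' h
  obtain ⟨a, ha, haw, hg⟩ := hf w hw
  obtain ⟨a', ha', haw', hg'⟩ := hf w' hw'
  rw [← hg, ← hg'] at h
  have h1 := congrArg Subtype.val (g.injective h)
  simp only at h1
  rw [Ideal.Quotient.eq] at h1
  have h2 : fa v (algebraMap (𝓞 K) K (a - a')) < 1 := by
    rw [fa_lt_one_iff_le, fa_int_le_iff_mem, pow_one]
    exact h1
  rw [map_sub] at h2
  have h3 : w - w' = (algebraMap (𝓞 K) K a - algebraMap (𝓞 K) K a') +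
      ((algebraMap (𝓞 K) K a' - w') - (algebraMap (𝓞 K) K a - w)) := by ring
  rw [h3]
  exact lt_of_le_of_lt (fa_add_le v _ _) (max_lt h2 (lt_of_le_of_lt (fa_sub_le v _ _)
    (max_lt haw' haw)))

end Pool.Agent.Lib.MP_4d5ce1_nt
end

section

set_option autoImplicit false

open NumberField IsDedekindDomain

namespace Pool.Agent.Lib.MP_4d5ce1_nt

variable {K : Type*} [Field K] [NumberField K]

lemma fa_nat_pos (v : HeightOneSpectrum (𝓞 K)) {n : ℕ} (hn : 1 ≤ n) : 0 < fa v (n : K) := by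
  apply fa_pos
  exact_mod_cast (by omega : n ≠ 0)

lemma natCast_ne_zero' {n : ℕ} (hn : 1 ≤ n) : (n : K) ≠ 0 := by
  exact_mod_cast (by omega : n ≠ 0)

/-- If `|x| = 1` and `|x - 1| < |n|` then `|x^n - 1| = |n| |x - 1|`. -/
lemma fa_pow_sub_one (v : HeightOneSpectrum (𝓞 K)) {n : ℕ} {x : K}
    (hx : fa v x = 1) (h : fa v (x - 1) < fa v (n : K)) :
    fa v (x ^ n - 1) = fa v (n : K) * fa v (x - 1) := by
  have hgeom : x ^ n - 1 = (∑ i ∈ Finset.range n, x ^ i) * (x - 1) := (geom_sum_mul x n).symm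
  have hpow : ∀ i : ℕ, fa v (x ^ i - 1) ≤ fa v (x - 1) := by
    intro i
    have h1 : x ^ i - 1 = (∑ j ∈ Finset.range i, x ^ j) * (x - 1) := (geom_sum_mul x i).symm
    rw [h1, fa_mul]
    have h2 : fa v (∑ j ∈ Finset.range i, x ^ j) ≤ 1 := by
      apply fa_sum_le v _ _ 1 zero_le_one
      intro j _
      rw [fa_pow, hx, one_pow]
    calc _ ≤ 1 * fa v (x - 1) := mul_le_mul_of_nonneg_right h2 (fa_nonneg _ _)
      _ = _ := one_mul _
  have hsum : fa v (∑ i ∈ Finset.range n, x ^ i) = fa v (n : K) := by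
    have h1 : ∑ i ∈ Finset.range n, x ^ i =
        (∑ i ∈ Finset.range n, (x ^ i - 1)) + (n : K) := by
      rw [Finset.sum_sub_distrib]; simp
    rw [h1]
    apply fa_add_eq_right
    refine lt_of_le_of_lt ?_ h
    exact fa_sum_le v _ _ _ (fa_nonneg _ _) (fun i _ => hpow i)
  rw [hgeom, fa_mul, hsum]

/-- Local class function at a finite place, uniform version. -/
lemma local_code (V₀ : Finset (HeightOneSpectrum (𝓞 K))) (n : ℕ) (hn : 1 ≤ n)
    (v : HeightOneSpectrum (𝓞 K)) :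
    ∃ N : ℕ, ((v ∉ V₀ ∧ fa v (n : K) = 1) → N = n) ∧ ∃ f : K → Fin N, ∀ w w' : K,
      fa v w = 1 → fa v w' = 1 → (v ∉ V₀ → fa v (w ^ n - 1) < 1 ∧ fa v (w' ^ n - 1) < 1) →
      f w = f w' → fa v (w - w') < fa v (n : K) := by
  by_cases h : v ∉ V₀ ∧ fa v (n : K) = 1
  · obtain ⟨f, hf⟩ := local_classes v n hn h.2
    refine ⟨n, fun _ => rfl, f, ?_⟩
    intro w w' _ _ h1 h2
    rw [h.2]
    exact hf w w' (h1 h.1).1 (h1 h.1).2 h2
  · obtain ⟨N, f, hf⟩ := local_finite_classes v (fa v (n : K)) (fa_nat_pos v hn)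
    refine ⟨N, fun h' => absurd h' h, f, ?_⟩
    intro w w' hw hw' _ h2
    exact hf w w' hw.le hw'.le h2

open Classical in
/-- The key inequality coming from the product formula. -/
lemma key_inequality (n : ℕ) (hn : 1 ≤ n)
    (V₀ : Finset (HeightOneSpectrum (𝓞 K))) (A : ℝ) (hA : 1 ≤ A)
    (V₁ : Finset (HeightOneSpectrum (𝓞 K)))
    (hV₁ : ∀ v, fa v (n : K) ≠ 1 → v ∈ V₁) :
    ∀ (T : Finset (HeightOneSpectrum (𝓞 K)))
      (e : HeightOneSpectrum (𝓞 K) → ℕ) (R : InfinitePlace K → ℝ) (M σ D : ℝ) (w₁ : K),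
      0 < M → 0 < σ → 1 ≤ D → w₁ ≠ 0 → w₁ ^ n ≠ 1 →
      (∀ v ∈ T, fa v w₁ = 1 ∧ fa v (w₁ - 1) < fa v (n : K) ∧
        fa v (w₁ ^ n - 1) ≤ (if v ∈ V₀ then A else 1) * (nv v ^ (e v))⁻¹) →
      (∀ w, 0 < R w ∧ R w ≤ 1) →
      (∀ w : InfinitePlace K, w (w₁ - 1) ≤ σ * R w * D) →
      (∑ᶠ v : HeightOneSpectrum (𝓞 K), Real.log (max 1 (fa v (w₁ ^ n))) ≤ n * Real.log M) →
      1 ≤ (D ^ (Module.finrank ℚ K) * A ^ V₀.card * (∏ v ∈ V₁, (fa v (n : K))⁻¹)) *
        σ ^ (Module.finrank ℚ K) *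
        (M * (∏ w, R w ^ w.mult) / ∏ v ∈ T, nv v ^ (e v)) := by
  classical
  intro T e R M σ D w₁ hM hσ hD hw₁ hw₁n hT hR harch hfin
  have hne : w₁ - 1 ≠ 0 := by
    intro h
    apply hw₁n
    have : w₁ = 1 := by linear_combination h
    rw [this, one_pow]
  have hpf := product_formula hne
  -- archimedean part
  have harch' : ∑ w : InfinitePlace K, (w.mult : ℝ) * Real.log (w (w₁ - 1)) ≤
      ∑ w : InfinitePlace K, (w.mult : ℝ) * (Real.log σ + Real.log (R w) + Real.log D) := by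
    apply Finset.sum_le_sum
    intro w _
    apply mul_le_mul_of_nonneg_left _ (by positivity)
    have h1 : 0 < w (w₁ - 1) := InfinitePlace.pos_iff.mpr hne
    have h2 := Real.log_le_log h1 (harch w)
    rwa [Real.log_mul (by have := (hR w).1; positivity) (by positivity),
      Real.log_mul hσ.ne' (hR w).1.ne'] at h2
  -- finite part, pointwise bound
  set g : HeightOneSpectrum (𝓞 K) → ℝ := fun v => (1 / (n:ℝ)) * Real.log (max 1 (fa v (w₁ ^ n)))
    with hg
  set c : HeightOneSpectrum (𝓞 K) → ℝ := fun v =>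
    if v ∈ T then ((if v ∈ V₀ then Real.log A else 0) - (e v : ℝ) * Real.log (nv v)
      - Real.log (fa v (n : K))) else 0 with hc
  have hnpos : (0:ℝ) < n := by exact_mod_cast (by omega : 0 < n)
  have hg_eq : ∀ v, g v = Real.log (max 1 (fa v w₁)) := by
    intro v
    simp only [hg]
    rw [fa_pow]
    have : max 1 (fa v w₁ ^ n) = (max 1 (fa v w₁)) ^ n := by
      rcases le_total 1 (fa v w₁) with h | h
      · rw [max_eq_right h, max_eq_right (one_le_pow₀ h)]
      · rw [max_eq_left h, max_eq_left (pow_le_one₀ (fa_nonneg _ _) h), one_pow]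
    rw [this, Real.log_pow]
    field_simp
  have hpt : ∀ v, Real.log (fa v (w₁ - 1)) ≤ g v + c v := by
    intro v
    by_cases hv : v ∈ T
    · obtain ⟨h1, h2, h3⟩ := hT v hv
      have h4 := fa_pow_sub_one v h1 h2
      rw [h4] at h3
      have hnn := fa_nat_pos (K := K) v hn
      have hpos : 0 < fa v (w₁ - 1) := fa_pos v hne
      have h5 := Real.log_le_log (mul_pos hnn hpos) h3
      rw [Real.log_mul hnn.ne' hpos.ne', Real.log_mul, Real.log_inv, Real.log_pow] at h5
      · simp only [hc, if_pos hv, hg_eq v, h1, max_self, Real.log_one]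
        split_ifs at h5 ⊢ with h6
        · linarith
        · simp only [Real.log_one] at h5
          linarith
      · split_ifs <;> positivity
      · exact (inv_pos.mpr (pow_pos (nv_pos v) _)).ne'
    · simp only [hc, if_neg hv, add_zero, hg_eq v]
      apply Real.log_le_log (fa_pos v hne)
      have := fa_sub_le v w₁ 1
      rw [fa_one] at this
      rwa [max_comm]
  -- supports
  have hs1 : (Function.support fun v : HeightOneSpectrum (𝓞 K) =>
      Real.log (fa v (w₁ - 1))).Finite := by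
    refine (finite_fa_ne_one hne).subset ?_
    intro v hv h
    exact hv (by simp [h])
  have hs2 : (Function.support g).Finite := by
    refine (finite_fa_ne_one hw₁).subset ?_
    intro v hv h
    apply hv
    rw [hg_eq v, h]; simp
  have hs3 : (Function.support c).Finite := by
    refine T.finite_toSet.subset ?_
    intro v hv
    by_contra h
    exact hv (by simp only [hc]; rw [if_neg (by simpa using h)])
  have hs4 : (Function.support fun v => g v + c v).Finite :=
    (hs2.union hs3).subset (Function.support_add _ _)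
  have hfin1 : ∑ᶠ v : HeightOneSpectrum (𝓞 K), Real.log (fa v (w₁ - 1)) ≤
      ∑ᶠ v, (g v + c v) := finsum_le_finsum' hs1 hs4 hpt
  rw [finsum_add_distrib hs2 hs3] at hfin1
  have hfin2 : ∑ᶠ v, g v ≤ Real.log M := by
    simp only [hg]
    rw [← mul_finsum]
    calc 1 / (n:ℝ) * ∑ᶠ v, Real.log (max 1 (fa v (w₁ ^ n))) ≤ 1 / (n:ℝ) * (n * Real.log M) := by
            apply mul_le_mul_of_nonneg_left hfin (by positivity)
      _ = Real.log M := by field_simp
  have hc_sum : ∑ᶠ v, c v = ∑ v ∈ T, ((if v ∈ V₀ then Real.log A else 0)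
      - (e v : ℝ) * Real.log (nv v) - Real.log (fa v (n : K))) := by
    rw [finsum_eq_sum_of_support_subset (s := T)]
    · apply Finset.sum_congr rfl
      intro v hv
      simp only [hc, if_pos hv]
    · intro v hv
      by_contra h
      exact hv (by simp only [hc]; rw [if_neg (by simpa using h)])
  have hA0 : 0 ≤ Real.log A := Real.log_nonneg hA
  have hb1 : ∑ v ∈ T, (if v ∈ V₀ then Real.log A else 0) ≤ V₀.card * Real.log A := by
    rw [← Finset.sum_filter, Finset.sum_const, nsmul_eq_mul]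
    apply mul_le_mul_of_nonneg_right _ hA0
    have : (T.filter (· ∈ V₀)).card ≤ V₀.card := by
      apply Finset.card_le_card
      intro v hv
      exact (Finset.mem_filter.mp hv).2
    exact_mod_cast this
  have hlogn : ∀ v : HeightOneSpectrum (𝓞 K), 0 ≤ - Real.log (fa v (n : K)) := by
    intro v
    have := Real.log_nonpos (fa_nonneg v _) (fa_natCast_le_one (K := K) v n)
    linarith
  have hb2 : ∑ v ∈ T, - Real.log (fa v (n : K)) ≤ ∑ v ∈ V₁, - Real.log (fa v (n : K)) := by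
    have h1 : ∑ v ∈ T, - Real.log (fa v (n : K)) =
        ∑ v ∈ T.filter (· ∈ V₁), - Real.log (fa v (n : K)) := by
      rw [Finset.sum_filter]
      apply Finset.sum_congr rfl
      intro v _
      split_ifs with h
      · rfl
      · have : fa v (n : K) = 1 := by
          by_contra h'
          exact h (hV₁ v h')
        rw [this]; simp
    rw [h1]
    apply Finset.sum_le_sum_of_subset_of_nonneg
    · intro v hv
      exact (Finset.mem_filter.mp hv).2
    · intro v _ _
      exact hlogn v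
  have hmult : ∑ w : InfinitePlace K, (w.mult : ℝ) = Module.finrank ℚ K := by
    exact_mod_cast InfinitePlace.sum_mult_eq (K := K)
  have harch2 : ∑ w : InfinitePlace K, (w.mult : ℝ) * (Real.log σ + Real.log (R w) + Real.log D) =
      Module.finrank ℚ K * Real.log σ + (∑ w : InfinitePlace K, (w.mult : ℝ) * Real.log (R w)) +
        Module.finrank ℚ K * Real.log D := by
    simp only [mul_add, Finset.sum_add_distrib]
    rw [← Finset.sum_mul, ← Finset.sum_mul, hmult]
  -- conclude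
  have hprodR : 0 < ∏ w : InfinitePlace K, R w ^ w.mult :=
    Finset.prod_pos fun w _ => pow_pos (hR w).1 _
  have hprodN : 0 < ∏ v ∈ T, nv v ^ (e v) := Finset.prod_pos fun v _ => pow_pos (nv_pos v) _
  have hprodn : 0 < ∏ v ∈ V₁, (fa v (n : K))⁻¹ :=
    Finset.prod_pos fun v _ => inv_pos.mpr (fa_nat_pos v hn)
  have hfinal : 0 ≤ Real.log ((D ^ (Module.finrank ℚ K) * A ^ V₀.card *
      (∏ v ∈ V₁, (fa v (n : K))⁻¹)) * σ ^ (Module.finrank ℚ K) *
        (M * (∏ w, R w ^ w.mult) / ∏ v ∈ T, nv v ^ (e v))) := by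
    have hD0 : 0 < D := by linarith
    have hA00 : 0 < A := by linarith
    rw [Real.log_mul (by positivity) (by positivity), Real.log_mul (by positivity) (by positivity),
      Real.log_mul (by positivity) (by positivity), Real.log_mul (by positivity) (by positivity),
      Real.log_pow, Real.log_pow, Real.log_pow, Real.log_div (by positivity) (by positivity),
      Real.log_mul (by positivity) (by positivity),
      Real.log_prod (fun v _ => (inv_pos.mpr (fa_nat_pos (K := K) v hn)).ne'),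
      Real.log_prod (fun w _ => (pow_pos (hR w).1 _).ne'),
      Real.log_prod (fun v _ => (pow_pos (nv_pos v) _).ne')]
    simp only [Real.log_pow, Real.log_inv]
    rw [Finset.sum_sub_distrib, Finset.sum_sub_distrib] at hc_sum
    have : ∑ v ∈ T, Real.log (fa v (n : K)) = - ∑ v ∈ T, - Real.log (fa v (n : K)) := by
      rw [Finset.sum_neg_distrib, neg_neg]
    linarith
  by_contra hlt
  push Not at hlt
  have hpos : 0 < (D ^ (Module.finrank ℚ K) * A ^ V₀.card *
      (∏ v ∈ V₁, (fa v (n : K))⁻¹)) * σ ^ (Module.finrank ℚ K) *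
        (M * (∏ w, R w ^ w.mult) / ∏ v ∈ T, nv v ^ (e v)) := by
    have hD0 : 0 < D := by linarith
    have hA00 : 0 < A := by linarith
    positivity
  have := Real.log_neg hpos hlt
  linarith


lemma finrank_pos' : 0 < Module.finrank ℚ K := Module.finrank_pos

/-- Existence of the scale `σ`. -/
lemma exists_sigma (d : ℕ) (hd : 0 < d) (y : ℝ) (hy : 0 < y) :
    ∃ σ : ℝ, 0 < σ ∧ σ ≤ 1 ∧ σ ^ d * y < 1 ∧ (σ ^ d)⁻¹ ≤ 1 + 2 * y := by
  set z : ℝ := min 1 (1 / (2 * y)) with hz
  have hz0 : 0 < z := lt_min one_pos (by positivity)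
  have hz1 : z ≤ 1 := min_le_left _ _
  refine ⟨z ^ (1 / (d:ℝ)), Real.rpow_pos_of_pos hz0 _, ?_, ?_, ?_⟩
  · exact Real.rpow_le_one hz0.le hz1 (by positivity)
  · rw [← Real.rpow_natCast, ← Real.rpow_mul hz0.le,
      one_div_mul_cancel (by positivity), Real.rpow_one]
    have : z ≤ 1 / (2 * y) := min_le_right _ _
    calc z * y ≤ 1 / (2 * y) * y := mul_le_mul_of_nonneg_right this hy.le
      _ = 1 / 2 := by field_simp
      _ < 1 := by norm_num
  · rw [← Real.rpow_natCast, ← Real.rpow_mul hz0.le,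
      one_div_mul_cancel (by positivity), Real.rpow_one]
    rcases min_cases 1 (1 / (2 * y)) with ⟨h1, _⟩ | ⟨h1, _⟩
    · rw [hz, h1]; simp; positivity
    · rw [hz, h1]; simp

open Classical in
/-- **Packing theorem.** -/
theorem packing (K : Type*) [Field K] [NumberField K] (n : ℕ) (hn : 1 ≤ n)
    (V₀ : Finset (HeightOneSpectrum (𝓞 K))) (A : ℝ) (hA : 1 ≤ A) :
    ∃ C : ℝ, 0 < C ∧ ∀ (𝒯 : Finset K) (T : Finset (HeightOneSpectrum (𝓞 K)))
      (e : HeightOneSpectrum (𝓞 K) → ℕ) (R : InfinitePlace K → ℝ) (M : ℝ),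
      0 < M →
      (∀ t ∈ 𝒯, t ≠ 0) →
      (∀ t ∈ 𝒯, ∀ t' ∈ 𝒯, ∀ v : HeightOneSpectrum (𝓞 K), (n : ℤ) ∣ ordv v (t / t')) →
      (∀ v ∈ T, v ∉ V₀ → 1 ≤ e v) →
      (∀ t ∈ 𝒯, ∀ t' ∈ 𝒯, ∀ v ∈ T, fa v (t / t') = 1 ∧
        fa v (t / t' - 1) ≤ (if v ∈ V₀ then A else 1) * (nv v ^ (e v))⁻¹) →
      (∀ w, 0 < R w ∧ R w ≤ 1) →
      (∀ t ∈ 𝒯, ∀ t' ∈ 𝒯, ∀ w : InfinitePlace K, w (t / t' - 1) ≤ A * R w) →
      (∀ t ∈ 𝒯, ∀ t' ∈ 𝒯, ∑ᶠ v : HeightOneSpectrum (𝓞 K), Real.log (max 1 (fa v (t / t'))) ≤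
        n * Real.log M) →
      (𝒯.card : ℝ) ≤ C * (n:ℝ) ^ T.card *
        (1 + M * (∏ w, R w ^ w.mult) / ∏ v ∈ T, nv v ^ (e v)) := by
  -- the exceptional finite set V₁
  have hfinn : {v : HeightOneSpectrum (𝓞 K) | fa v (n : K) ≠ 1}.Finite :=
    finite_fa_ne_one (natCast_ne_zero' hn)
  set V₁ : Finset (HeightOneSpectrum (𝓞 K)) := V₀ ∪ hfinn.toFinset with hV₁
  have hV₁n : ∀ v, fa v (n : K) ≠ 1 → v ∈ V₁ := by
    intro v hv
    rw [hV₁, Finset.mem_union]
    right
    simpa using hv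
  -- the codes
  obtain ⟨NK, hNK⟩ := kummer_classes K n hn
  choose Nv hNv fv hfv using fun v => local_code (K := K) V₀ n hn v
  choose Cw hCw hfw using fun w : InfinitePlace K => arch_cells w n hn A hA
  set d := Module.finrank ℚ K with hd
  have hdpos : 0 < d := finrank_pos'
  set D : ℝ := A + 1 with hD
  have hD1 : 1 ≤ D := by linarith
  set C₂ : ℝ := D ^ d * A ^ V₀.card * (∏ v ∈ V₁, (fa v (n : K))⁻¹) with hC₂
  have hC₂pos : 0 < C₂ := by
    have : 0 < ∏ v ∈ V₁, (fa v (n : K))⁻¹ :=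
      Finset.prod_pos fun v _ => inv_pos.mpr (fa_nat_pos v hn)
    have hA0 : 0 < A := by linarith
    positivity
  set Cloc : ℝ := ∏ v ∈ V₁, (max 1 (Nv v : ℝ)) with hCloc
  have hCloc1 : 1 ≤ Cloc := Finset.one_le_prod fun v _ => le_max_left _ _
  have hprodCw : 0 < ∏ w, Cw w := Finset.prod_pos fun w _ => hCw w
  refine ⟨((NK:ℝ) + 1) * Cloc * (∏ w, Cw w) * (1 + 2 * C₂), by positivity, ?_⟩
  intro 𝒯 T e R M hM h0 hK heT hT hR harch hfin
  have hprodR : 0 < ∏ w : InfinitePlace K, R w ^ w.mult :=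
    Finset.prod_pos fun w _ => pow_pos (hR w).1 _
  have hprodN : 0 < ∏ v ∈ T, nv v ^ (e v) := Finset.prod_pos fun v _ => pow_pos (nv_pos v) _
  set ρ : ℝ := M * (∏ w, R w ^ w.mult) / ∏ v ∈ T, nv v ^ (e v) with hρ
  have hρpos : 0 < ρ := by positivity
  rcases 𝒯.eq_empty_or_nonempty with rfl | hne
  · simp only [Finset.card_empty, Nat.cast_zero]; positivity
  obtain ⟨fK, hfK⟩ := hNK 𝒯 h0 hK
  obtain ⟨σ, hσ0, hσ1, hσ2, hσ3⟩ := exists_sigma d hdpos (C₂ * ρ) (by positivity)
  choose Nw hNw fw hfw' using fun w : InfinitePlace K => hfw w (R w) σ (hR w).1 (hR w).2 hσ0 hσ1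
  -- base points
  have hbase : ∀ k : Fin NK, ∃ b : K, (∃ t ∈ 𝒯, fK t = k) → b ∈ 𝒯 ∧ fK b = k := by
    intro k
    by_cases h : ∃ t ∈ 𝒯, fK t = k
    · obtain ⟨t, ht, htk⟩ := h
      exact ⟨t, fun _ => ⟨ht, htk⟩⟩
    · exact ⟨0, fun h' => absurd h' h⟩
  choose base hbase using hbase
  have hb : ∀ t ∈ 𝒯, base (fK t) ∈ 𝒯 ∧ fK (base (fK t)) = fK t :=
    fun t ht => hbase (fK t) ⟨t, ht, rfl⟩
  have hroot : ∀ t : K, ∃ w : K, t ∈ 𝒯 → w ^ n = t / base (fK t) := by
    intro t
    by_cases ht : t ∈ 𝒯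
    · obtain ⟨w, hw⟩ := hfK t ht _ (hb t ht).1 (hb t ht).2.symm
      exact ⟨w, fun _ => hw⟩
    · exact ⟨0, fun h => absurd h ht⟩
  choose r hr using hroot
  -- facts on r
  have hr0 : ∀ t ∈ 𝒯, r t ≠ 0 := by
    intro t ht h
    have := hr t ht
    rw [h, zero_pow (by omega)] at this
    exact (div_ne_zero (h0 t ht) (h0 _ (hb t ht).1)) this.symm
  have hrv : ∀ t ∈ 𝒯, ∀ v ∈ T, fa v (r t) = 1 := by
    intro t ht v hv
    have h1 := (hT t ht _ (hb t ht).1 v hv).1
    rw [← hr t ht, fa_pow] at h1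
    exact (pow_eq_one_iff_of_nonneg (fa_nonneg _ _) (by omega)).mp h1
  -- the coding map
  let code : 𝒯 → Fin NK × (∀ v : T, Fin (Nv v)) × (∀ w : InfinitePlace K, Fin (Nw w)) :=
    fun t => (fK t, fun v => fv v (r t), fun w => fw w (r t))
  have hinj : Function.Injective code := by
    intro ⟨t, ht⟩ ⟨t', ht'⟩ hcode
    simp only [code, Prod.mk.injEq] at hcode
    obtain ⟨hc1, hc2, hc3⟩ := hcode
    by_contra hne'
    have hne : t ≠ t' := fun h => hne' (by simp [h])
    have hbb : base (fK t) = base (fK t') := by rw [hc1]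
    have hw1 : (r t / r t') ^ n = t / t' := by
      rw [div_pow, hr t ht, hr t' ht', hbb]
      have h1 := h0 _ (hb t' ht').1
      have h2 := h0 _ ht'
      field_simp
    have hkey := key_inequality n hn V₀ A hA V₁ hV₁n T e R M σ D (r t / r t') hM hσ0 hD1
      (div_ne_zero (hr0 t ht) (hr0 t' ht'))
      (by rw [hw1]; intro h; exact hne ((div_eq_one_iff_eq (h0 _ ht')).mp h))
      (by
        intro v hv
        have hv1 := hrv t ht v hv
        have hv2 := hrv t' ht' v hv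
        have hc := congrFun hc2 ⟨v, hv⟩
        refine ⟨?_, ?_, ?_⟩
        · rw [fa_div, hv1, hv2, div_one]
        · have h3 := hfv v (r t) (r t') hv1 hv2 (by
            intro hvV
            have he := heT v hv hvV
            have h4 := (hT t ht _ (hb t ht).1 v hv).2
            have h5 := (hT t' ht' _ (hb t' ht').1 v hv).2
            rw [← hr t ht, if_neg hvV, one_mul] at h4
            rw [← hr t' ht', if_neg hvV, one_mul] at h5
            have h6 : (nv v ^ (e v))⁻¹ < 1 := by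
              apply inv_lt_one_of_one_lt₀
              exact one_lt_pow₀ (one_lt_nv v) (by omega)
            exact ⟨h4.trans_lt h6, h5.trans_lt h6⟩) hc
          have : r t / r t' - 1 = (r t - r t') / r t' := by
            have := hr0 t' ht'
            field_simp
          rw [this, fa_div, hv2, div_one]
          exact h3
        · rw [hw1]
          exact (hT t ht t' ht' v hv).2)
      hR
      (by
        intro w
        have hc := congrFun hc3 w
        have h4 := harch t ht _ (hb t ht).1 w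
        have h5 := harch t' ht' _ (hb t' ht').1 w
        rw [← hr t ht] at h4
        rw [← hr t' ht'] at h5
        have h6 := hfw' w (r t) (r t') h4 h5 hc
        have : r t / r t' - 1 = (r t - r t') / r t' := by
          have := hr0 t' ht'
          field_simp
        rw [this, map_div₀]
        -- lower bound for w (r t')
        have h7 := harch _ (hb t' ht').1 t' ht' w
        have h8 : w (base (fK t') / t') ≤ D := by
          have h9 : w (base (fK t') / t') ≤ w (base (fK t') / t' - 1) + w 1 := by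
            have := fun a b : K => w.1.add_le a b
            have h9' := this (base (fK t') / t' - 1) 1
            rw [sub_add_cancel] at h9'
            exact h9'
          rw [map_one] at h9
          have h10 : A * R w ≤ A := by
            have := (hR w).2
            nlinarith
          linarith
        have h9 : base (fK t') / t' = ((r t') ^ n)⁻¹ := by
          rw [hr t' ht', inv_div]
        rw [h9, map_inv₀, map_pow] at h8
        have h10 : 0 < w (r t') := InfinitePlace.pos_iff.mpr (hr0 t' ht')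
        have h11 : (w (r t'))⁻¹ ≤ D := by
          by_contra hlt
          push Not at hlt
          have h12 : 1 ≤ (w (r t'))⁻¹ := hD1.trans hlt.le
          have h13 : (w (r t'))⁻¹ ≤ ((w (r t'))⁻¹) ^ n := le_self_pow₀ h12 (by omega)
          rw [inv_pow] at h13
          linarith
        rw [div_eq_mul_inv]
        apply mul_le_mul h6 h11 (by positivity)
        have := (hR w).1
        positivity)
      (by
        rw [hw1]
        exact hfin t ht t' ht')
    have : (1:ℝ) ≤ C₂ * σ ^ d * ρ := hkey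
    nlinarith [hσ2]
  have hcard : 𝒯.card ≤ NK * ((∏ v ∈ T, Nv v) * ∏ w, Nw w) := by
    have h1 := Fintype.card_le_of_injective code hinj
    rw [Fintype.card_coe, Fintype.card_prod, Fintype.card_prod, Fintype.card_pi, Fintype.card_pi,
      Fintype.card_fin] at h1
    simp only [Fintype.card_fin] at h1
    rwa [Finset.prod_coe_sort T (fun v => Nv v)] at h1
  have hprodNv : (∏ v ∈ T, (Nv v : ℝ)) ≤ Cloc * (n:ℝ) ^ T.card := by
    have hn1 : (1:ℝ) ≤ n := by exact_mod_cast hn
    calc (∏ v ∈ T, (Nv v : ℝ)) ≤ ∏ v ∈ T, ((if v ∈ V₁ then max 1 (Nv v : ℝ) else 1) * (n:ℝ)) := by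
          apply Finset.prod_le_prod (fun v _ => by positivity)
          intro v hv
          split_ifs with h
          · calc (Nv v : ℝ) ≤ max 1 (Nv v : ℝ) * 1 := by rw [mul_one]; exact le_max_right _ _
              _ ≤ _ := mul_le_mul_of_nonneg_left hn1 (by positivity)
          · rw [one_mul]
            have : v ∉ V₀ ∧ fa v (n : K) = 1 := by
              constructor
              · intro h'; exact h (Finset.mem_union_left _ h')
              · by_contra h'; exact h (hV₁n v h')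
            rw [hNv v this]
      _ = (∏ v ∈ T, (if v ∈ V₁ then max 1 (Nv v : ℝ) else 1)) * (n:ℝ) ^ T.card := by
          rw [Finset.prod_mul_distrib, Finset.prod_const]
      _ ≤ Cloc * (n:ℝ) ^ T.card := by
          apply mul_le_mul_of_nonneg_right _ (by positivity)
          rw [← Finset.prod_filter]
          have hsub : T.filter (· ∈ V₁) ⊆ V₁ := fun v hv => (Finset.mem_filter.mp hv).2
          rw [hCloc, ← Finset.prod_sdiff hsub]
          have h1 : (1:ℝ) ≤ ∏ v ∈ V₁ \ T.filter (· ∈ V₁), max 1 (Nv v : ℝ) :=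
            Finset.one_le_prod fun v _ => le_max_left _ _
          exact le_mul_of_one_le_left (Finset.prod_nonneg fun v _ => by positivity) h1
  have hprodNw : (∏ w, (Nw w : ℝ)) ≤ (∏ w, Cw w) * (σ ^ d)⁻¹ := by
    calc (∏ w, (Nw w : ℝ)) ≤ ∏ w, (Cw w / σ ^ w.mult) :=
          Finset.prod_le_prod (fun w _ => by positivity) (fun w _ => hNw w)
      _ = (∏ w, Cw w) * (σ ^ d)⁻¹ := by
          rw [Finset.prod_div_distrib, div_eq_mul_inv, Finset.prod_pow_eq_pow_sum,
            InfinitePlace.sum_mult_eq]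
  have hcardR : (𝒯.card : ℝ) ≤ NK * ((∏ v ∈ T, (Nv v : ℝ)) * ∏ w, (Nw w : ℝ)) := by
    exact_mod_cast hcard
  calc (𝒯.card : ℝ) ≤ NK * ((∏ v ∈ T, (Nv v : ℝ)) * ∏ w, (Nw w : ℝ)) := hcardR
    _ ≤ ((NK:ℝ) + 1) * ((Cloc * (n:ℝ) ^ T.card) * ((∏ w, Cw w) * (1 + 2 * (C₂ * ρ)))) := by
        apply mul_le_mul (by linarith) _ (by positivity) (by positivity)
        apply mul_le_mul hprodNv _ (by positivity) (by positivity)
        exact hprodNw.trans (mul_le_mul_of_nonneg_left hσ3 hprodCw.le)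
    _ ≤ ((NK:ℝ) + 1) * ((Cloc * (n:ℝ) ^ T.card) * ((∏ w, Cw w) * ((1 + 2 * C₂) * (1 + ρ)))) := by
        have : 1 + 2 * (C₂ * ρ) ≤ (1 + 2 * C₂) * (1 + ρ) := by nlinarith
        gcongr
    _ = ((NK:ℝ) + 1) * Cloc * (∏ w, Cw w) * (1 + 2 * C₂) * (n:ℝ) ^ T.card * (1 + ρ) := by ring

end Pool.Agent.Lib.MP_4d5ce1_nt
end
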