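import Pool.Agent.Lib.MP_4d5ce1_nt.BCheckCore

set_option autoImplicit false

/-!
# The checker for basic tools and any number `q` of forms: the program

Packed linear forms as in `BCheckCore`; slot `0` is the height `H`.
-/

namespace Pool.Agent.Lib.MP_4d5ce1_nt.QC

open BC

/-- block `t = E l + b` belongs to the form `i` or `j` -/
def inIJ (P : Par) (i j t : ℕ) : Bool := or (Nat.beq (Nat.div t P.E) i) (Nat.beq (Nat.div t P.E) j)

/-- The tool `(i, j, n, W)`, `W` coded by the bits of `m`, is admissible. -/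
def toolOk (P : Par) (q i j n m : ℕ) : Bool :=
  and (and (and (Nat.blt i q) (Nat.blt j q)) (not (Nat.beq i j)))
    (and (and (Nat.blt 0 n) (Nat.ble n P.E))
      (allTo (fun t => or (bt m t) (or (not (inIJ P i j t))
        (cond (Nat.beq (Nat.succ (Nat.mod t P.E)) P.E) (Nat.beq n 1)
          (Nat.beq (Nat.mod (Nat.succ (Nat.mod t P.E)) n) 0)))) (Nat.mul q P.E)))

/-- `td (size of W) - tn H` -/
def qF1 (P : Par) (q m : ℕ) : ℕ :=
  Nat.add (Nat.mul P.td (sumTo (fun t => cond (bt m t)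
    (sF P true (Nat.div t P.E) (Nat.mod t P.E)) 0) (Nat.mul q P.E)))
    (Nat.mul P.tn (atm P false 0))

def qAr (P : Par) (q i j n m : ℕ) : ℕ :=
  sumTo (fun t => cond (inIJ P i j t)
    (cond (bt m t) 0 (iF P true (Nat.div t P.E) (Nat.mod t P.E)))
    (cond (bt m t) (Nat.mul n (iF P false (Nat.div t P.E) (Nat.mod t P.E))) 0)) (Nat.mul q P.E)

def qF2 (P : Par) (q i j n m f1 : ℕ) : ℕ :=
  Nat.add (Nat.mul n f1) (Nat.mul P.td (qAr P q i j n m))

/-- the packed form `T` is a constant `≤ 0` -/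
def negOk0 (P : Par) (T : ℕ) : Bool :=
  force (Nat.mod T (Nat.pow 2 (Nat.mul P.w P.K))) fun p =>
  force (Nat.mod (Nat.shiftRight T (Nat.mul P.w P.K)) (Nat.pow 2 (Nat.mul P.w P.K))) fun q =>
    and (Nat.ble p q)
      (Nat.blt (Nat.add (Nat.shiftRight T (Nat.mul P.w (Nat.mul 2 P.K))) (Nat.sub q p))
        (Nat.pow 2 P.w))

def leafOk0 (P : Par) (wl N dep : ℕ) (ctx : List ℕ) : Bool :=
  force (Nat.shiftRight N 8) fun N' =>
    and (and (Nat.blt (Nat.mod N 256) dep) (Nat.blt 0 (Nat.mod N' (Nat.pow 2 wl))))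
      (force (comb wl ctx (Nat.mod N 256) N' 0) (negOk0 P))

/-- Certificates. -/
inductive QTree where
  | leaf (wl N : ℕ)
  | node (i j n m : ℕ) (t1 t2 : QTree)

/-- The checker. -/
noncomputable def check (P : Par) (q : ℕ) (t : QTree) : List ℕ → ℕ → Bool :=
  QTree.rec (motive := fun _ => List ℕ → ℕ → Bool)
    (fun wl N ctx dep => leafOk0 P wl N dep ctx)
    (fun i j n m _ _ ih1 ih2 ctx dep => and (toolOk P q i j n m)
      (force (Nat.succ dep) fun d => force (qF1 P q m) fun f1 => and (ih1 (f1 :: ctx) d)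
        (force (qF2 P q i j n m f1) fun f2 => ih2 (f2 :: ctx) d)))
    t

def rootForms (P : Par) (q : ℕ) (c : List ℕ) (κ : List ℕ → Bool) : Bool :=
  Nat.rec (motive := fun _ => List ℕ → (List ℕ → Bool) → Bool) (fun c κ => κ c)
    (fun l ih c κ => rootForm P l c fun c' => ih c' κ) q c κ

def rootSort (P : Par) (q : ℕ) (c : List ℕ) (κ : List ℕ → Bool) : Bool :=
  Nat.rec (motive := fun _ => List ℕ → (List ℕ → Bool) → Bool) (fun c κ => κ c)
    (fun l ih c κ => push (Nat.add (radF P true l) (radF P false (Nat.succ l))) c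
      fun c' => ih c' κ) q c κ

def qroot (P : Par) (q : ℕ) (κ : List ℕ → Bool) : Bool :=
  rootForms P q [] fun c =>
  push (Nat.add (Nat.mul (Nat.sub q 2) (atm P true 0)) (sumTo (fun l => radF P false l) q)) c
    fun c => rootSort P (Nat.sub q 1) c κ

noncomputable def checkAll (P : Par) (q : ℕ) (t : QTree) : Bool :=
  and (and (and (Nat.ble 2 P.E) (Nat.ble 1 P.td))
    (and (Nat.ble 2 q) (Nat.ble (Nat.succ (Nat.mul q (Nat.succ P.E))) P.K)))
    (qroot P q fun c => check P q t c 0)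

end Pool.Agent.Lib.MP_4d5ce1_nt.QC
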