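import Pool.Agent.Lib.MP_4d5ce1_nt.BCheckForms
import Pool.Agent.Lib.MP_4d5ce1_nt.QCheckCore
import Pool.Agent.Lib.MP_4d5ce1_nt.Combi
import Pool.Agent.Lib.MP_4d5ce1_nt.Count
import Pool.Agent.Lib.MP_4d5ce1_nt.QCert4
import Pool.Agent.Lib.MP_4d5ce1_nt.QCert5
import Pool.Agent.Lib.MP_4d5ce1_nt.QCert6

section

set_option autoImplicit false

/-!
# The checker for basic tools and any number `q` of forms: soundness
-/

namespace Pool.Agent.Lib.MP_4d5ce1_nt.QC

open BC Finset

/-- index of block `b` of form `l` -/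
def Ix (E : ℕ) (S : ℕ → ℕ → ℝ) (J : ℕ → ℝ) (l b : ℕ) : ℝ :=
  if b + 1 = E then J l else ((b : ℝ) + 1) * S l b

/-- The values of the variables. -/
structure Vals (P : Par) (q : ℕ) (v : ℕ → ℝ) (H : ℝ) (S : ℕ → ℕ → ℝ) (J : ℕ → ℝ) : Prop where
  v0 : v 0 = H
  vJ : ∀ l < q, v (slot P 1 l P.E) = J l
  vS : ∀ l < q, ∀ b < P.E, v (slot P 1 l b) = S l b
  sum : ∀ l < q, ∑ b ∈ range P.E, Ix P.E S J l b = H

variable {P : Par} {q n : ℕ} {v : ℕ → ℝ} {H : ℝ} {S : ℕ → ℕ → ℝ} {J : ℕ → ℝ}

theorem slot_lt' (P : Par) {q l b : ℕ} (hl : l < q) (hb : b ≤ P.E) :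
    slot P 1 l b < 1 + q * (P.E + 1) := by
  rw [slot_eq]
  have h1 : (l + 1) * (P.E + 1) ≤ q * (P.E + 1) := Nat.mul_le_mul_right _ hl
  have h2 : (l + 1) * (P.E + 1) = (P.E + 1) * l + (P.E + 1) := by ring
  omega

theorem S_zero (hE : 2 ≤ P.E) (hR : Vals P q v H S J) {l : ℕ} (hl : l < q) :
    S l 0 = H - J l - ∑ i ∈ range (P.E - 2), ((i : ℝ) + 2) * S l (i + 1) := by
  have h := hR.sum l hl
  obtain ⟨e, he⟩ : ∃ e, P.E = e + 2 := ⟨P.E - 2, by omega⟩
  rw [he, Finset.sum_range_succ, Finset.sum_range_succ'] at h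
  have h1 : Ix (e + 2) S J l (e + 1) = J l := by simp [Ix]
  have h2 : Ix (e + 2) S J l 0 = S l 0 := by simp [Ix]
  have h3 : ∀ i ∈ range e, Ix (e + 2) S J l (i + 1) = ((i : ℝ) + 2) * S l (i + 1) := by
    intro i hi
    have : i + 1 + 1 ≠ e + 2 := by
      have := Finset.mem_range.1 hi
      omega
    simp only [Ix, if_neg this]
    push_cast
    ring
  rw [h1, h2, Finset.sum_congr rfl h3] at h
  rw [he, Nat.add_sub_cancel]
  linarith

theorem sF_rep (hE : 2 ≤ P.E) (hR : Vals P q v H S J) (hn0 : 1 + q * (P.E + 1) ≤ n)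
    (hn : n ≤ P.K) (s : Bool) {l b : ℕ} (hl : l < q) (hb : b < P.E) :
    Rep P n v (sF P s l b) (sg s * S l b) := by
  have hs : ∀ b ≤ P.E, slot P 1 l b < n := fun b hb => (slot_lt' P hl hb).trans_le hn0
  cases b with
  | zero =>
    have h1 : Rep P n v (sF P s l 0) (sg s * v 0 + sg (!s) * v (slot P 1 l P.E) +
        ∑ i ∈ range (P.E - 2), ((i + 2 : ℕ) : ℝ) * (sg (!s) * v (slot P 1 l (i + 1)))) := by
      refine ((Rep.atm s (by omega) hn).add (Rep.atm (!s) (hs P.E le_rfl) hn)).add ?_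
      refine Rep.sumTo fun i hi => ?_
      have hi' : i < P.E - 2 := hi
      exact (Rep.atm (!s) (hs (i + 1) (by omega)) hn).mul (i + 2)
    refine h1.cast ?_
    rw [hR.v0, hR.vJ l hl, sg_not, S_zero hE hR hl, mul_sub, mul_sub, Finset.mul_sum]
    rw [sub_eq_add_neg, sub_eq_add_neg, ← Finset.sum_neg_distrib]
    congr 1
    · ring
    · refine Finset.sum_congr rfl fun i hi => ?_
      rw [hR.vS l hl (i + 1) (by have := Finset.mem_range.1 hi; omega)]
      push_cast
      ring
  | succ b =>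
    have h1 : Rep P n v (sF P s l (b + 1)) (sg s * v (slot P 1 l (b + 1))) :=
      Rep.atm s (hs (b + 1) hb.le) hn
    rwa [hR.vS l hl (b + 1) hb] at h1

theorem iF_rep (hE : 2 ≤ P.E) (hR : Vals P q v H S J) (hn0 : 1 + q * (P.E + 1) ≤ n)
    (hn : n ≤ P.K) (s : Bool) {l b : ℕ} (hl : l < q) (hb : b < P.E) :
    Rep P n v (iF P s l b) (sg s * Ix P.E S J l b) := by
  unfold iF Ix
  rw [beq_succ]
  by_cases h : b + 1 = P.E
  · rw [if_pos h, decide_eq_true h]
    have h1 : Rep P n v (atm P s (slot P 1 l P.E)) (sg s * v (slot P 1 l P.E)) :=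
      Rep.atm s ((slot_lt' P hl le_rfl).trans_le hn0) hn
    rwa [hR.vJ l hl] at h1
  · rw [if_neg h, decide_eq_false h]
    refine ((sF_rep hE hR hn0 hn s hl hb).mul (b + 1)).cast ?_
    push_cast
    ring

theorem rep_blocks' {f : ℕ → ℕ} {r : ℕ → ℕ → ℝ}
    (h : ∀ l < q, ∀ b < P.E, Rep P n v (f (P.E * l + b)) (r l b)) :
    Rep P n v (sumTo f (Nat.mul q P.E)) (∑ l ∈ range q, ∑ b ∈ range P.E, r l b) := by
  rw [sumTo_eq]
  show Rep P n v (∑ i ∈ range (q * P.E), f i) _
  rw [sum_blocks]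
  exact Rep.sum fun l hl => Rep.sum fun b hb => h l (Finset.mem_range.1 hl) b
    (Finset.mem_range.1 hb)

/-! ### Tools -/

/-- size of the coded set -/
noncomputable def sizeW (P : Par) (q m : ℕ) (S : ℕ → ℕ → ℝ) : ℝ :=
  ∑ l ∈ range q, ∑ b ∈ range P.E, if bt m (P.E * l + b) = true then S l b else 0

/-- index of the blocks of `i, j` left out -/
noncomputable def areaW (P : Par) (q i j m : ℕ) (S : ℕ → ℕ → ℝ) (J : ℕ → ℝ) : ℝ :=
  ∑ l ∈ range q, ∑ b ∈ range P.E,
    if l = i ∨ l = j then (if bt m (P.E * l + b) = true then 0 else Ix P.E S J l b) else 0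

/-- index of the coded blocks of the other forms -/
noncomputable def idxW (P : Par) (q i j m : ℕ) (S : ℕ → ℕ → ℝ) (J : ℕ → ℝ) : ℝ :=
  ∑ l ∈ range q, ∑ b ∈ range P.E,
    if l = i ∨ l = j then 0 else (if bt m (P.E * l + b) = true then Ix P.E S J l b else 0)

theorem qF1_rep (hE : 2 ≤ P.E) (hR : Vals P q v H S J) (hn0 : 1 + q * (P.E + 1) ≤ n)
    (hn : n ≤ P.K) (m : ℕ) :
    Rep P n v (qF1 P q m) (P.td * sizeW P q m S - P.tn * H) := by
  have h1 : Rep P n v (sumTo (fun t => cond (bt m t)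
      (sF P true (Nat.div t P.E) (Nat.mod t P.E)) 0) (Nat.mul q P.E)) (sizeW P q m S) := by
    refine rep_blocks' fun l hl b hb => ?_
    simp only [div_blk hb, mod_blk hb]
    cases h : bt m (P.E * l + b)
    · simpa using Rep.zero
    · simpa using sF_rep hE hR hn0 hn true hl hb
  have h2 : Rep P n v (atm P false 0) (sg false * v 0) := Rep.atm false (by omega) hn
  refine ((h1.mul P.td).add (h2.mul P.tn)).cast ?_
  rw [sg_false, hR.v0]
  ring

theorem inIJ_eq (i j l b : ℕ) (hb : b < P.E) :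
    inIJ P i j (P.E * l + b) = decide (l = i ∨ l = j) := by
  unfold inIJ
  rw [div_blk hb, Bool.eq_iff_iff]
  simp [Bool.or_eq_true, Nat.beq_eq]

theorem qAr_rep (hE : 2 ≤ P.E) (hR : Vals P q v H S J) (hn0 : 1 + q * (P.E + 1) ≤ n)
    (hn : n ≤ P.K) (i j k m : ℕ) :
    Rep P n v (qAr P q i j k m) (areaW P q i j m S J - k * idxW P q i j m S J) := by
  have h1 : Rep P n v (qAr P q i j k m) (∑ l ∈ range q, ∑ b ∈ range P.E,
      ((if l = i ∨ l = j then (if bt m (P.E * l + b) = true then 0 else Ix P.E S J l b) else 0) -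
        k * (if l = i ∨ l = j then 0 else
          (if bt m (P.E * l + b) = true then Ix P.E S J l b else 0)))) := by
    refine rep_blocks' fun l hl b hb => ?_
    simp only [div_blk hb, mod_blk hb, inIJ_eq i j l b hb]
    by_cases hij : l = i ∨ l = j
    · rw [decide_eq_true hij]
      cases h : bt m (P.E * l + b)
      · simpa [hij] using iF_rep hE hR hn0 hn true hl hb
      · simpa [hij] using Rep.zero
    · rw [decide_eq_false hij]
      cases h : bt m (P.E * l + b)
      · simpa [hij] using Rep.zero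
      · have h3 := (iF_rep hE hR hn0 hn false hl hb).mul k
        refine Rep.cast h3 ?_
        simp [hij]
  refine h1.cast ?_
  unfold areaW idxW
  simp only [Finset.sum_sub_distrib, Finset.mul_sum]

theorem qF2_rep (hE : 2 ≤ P.E) (hR : Vals P q v H S J) (hn0 : 1 + q * (P.E + 1) ≤ n)
    (hn : n ≤ P.K) (i j k m : ℕ) :
    Rep P n v (qF2 P q i j k m (qF1 P q m)) (k * (P.td * sizeW P q m S - P.tn * H) +
      P.td * (areaW P q i j m S J - k * idxW P q i j m S J)) :=
  ((qF1_rep hE hR hn0 hn m).mul k).add ((qAr_rep hE hR hn0 hn i j k m).mul P.td)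

/-! ### Leaves -/

theorem negOk0_eq (P : Par) (T : ℕ) : negOk0 P T =
    (decide (T % (2 ^ P.w) ^ P.K ≤ T / (2 ^ P.w) ^ P.K % (2 ^ P.w) ^ P.K) &&
    decide (T / ((2 ^ P.w) ^ P.K) ^ 2 +
      (T / (2 ^ P.w) ^ P.K % (2 ^ P.w) ^ P.K - T % (2 ^ P.w) ^ P.K) < 2 ^ P.w)) := by
  unfold negOk0
  rw [force_eq, force_eq]
  show (Nat.ble (T % 2 ^ (P.w * P.K)) ((T >>> (P.w * P.K)) % 2 ^ (P.w * P.K)) &&
    Nat.blt (T >>> (P.w * (2 * P.K)) + ((T >>> (P.w * P.K)) % 2 ^ (P.w * P.K) -
      T % 2 ^ (P.w * P.K))) (2 ^ P.w)) = _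
  rw [Nat.shiftRight_eq_div_pow, Nat.shiftRight_eq_div_pow]
  have h1 : 2 ^ (P.w * P.K) = (2 ^ P.w) ^ P.K := by rw [pow_mul]
  have h2 : 2 ^ (P.w * (2 * P.K)) = ((2 ^ P.w) ^ P.K) ^ 2 := by
    rw [← pow_mul, ← pow_mul]
    congr 1
    ring
  rw [h1, h2]
  have h3 : ∀ a b : ℕ, Nat.blt a b = decide (a < b) := by
    intro a b
    rw [Bool.eq_iff_iff]
    simp [Nat.blt_eq]
  have h4 : ∀ a b : ℕ, Nat.ble a b = decide (a ≤ b) := by
    intro a b
    rw [Bool.eq_iff_iff]
    simp [Nat.ble_eq]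
  rw [h3, h4]

theorem nonpos_of_negOk0 {T : ℕ} {r : ℝ} (h : negOk0 P T = true) (hr : Rep P n v T r)
    (h0 : 0 ≤ v 0) : r ≤ 0 := by
  obtain ⟨a, b, -, hT, hr⟩ := hr
  rw [negOk0_eq, Bool.and_eq_true, decide_eq_true_iff, decide_eq_true_iff] at h
  obtain ⟨h1, h2⟩ := h
  set B : ℕ := 2 ^ P.w with hB
  have hBpos : 0 < B := Nat.pow_pos (by norm_num)
  set M : ℕ := B ^ P.K with hM
  have hMpos : 0 < M := Nat.pow_pos hBpos
  set p' : ℕ := ∑ j ∈ range P.K, a j * B ^ j with hp'
  set q' : ℕ := ∑ j ∈ range P.K, b j * B ^ j with hq'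
  set s' : ℕ := ∑ j ∈ range P.K, (a j + b j) with hs'
  have hTe : T = p' + M * (q' + M * s') := by
    rw [hT, hp', hq', hs', Finset.mul_sum, ← Finset.sum_add_distrib, Finset.mul_sum,
      ← Finset.sum_add_distrib]
    refine Finset.sum_congr rfl fun j _ => ?_
    rw [atm_true, atm_false]
    ring
  have hs1 : s' ≤ T / M ^ 2 := by
    rw [Nat.le_div_iff_mul_le (Nat.pow_pos hMpos), hTe]
    have : s' * M ^ 2 = M * (M * s') := by ring
    rw [this]
    have h3 : M * (M * s') ≤ M * (q' + M * s') := Nat.mul_le_mul_left _ (Nat.le_add_left _ _)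
    omega
  have hsB : s' < B := by omega
  have hab : ∀ j ∈ range P.K, a j + b j ≤ s' := fun j hj =>
    Finset.single_le_sum (f := fun j => a j + b j) (fun _ _ => Nat.zero_le _) hj
  have ha : ∀ j < P.K, a j < B := fun j hj => by
    have := hab j (Finset.mem_range.2 hj)
    omega
  have hb : ∀ j < P.K, b j < B := fun j hj => by
    have := hab j (Finset.mem_range.2 hj)
    omega
  have hpM : p' < M := sum_digits_lt hBpos a P.K ha
  have hqM : q' < M := sum_digits_lt hBpos b P.K hb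
  have hp : T % M = p' := by
    rw [hTe, Nat.add_mul_mod_self_left, Nat.mod_eq_of_lt hpM]
  have hTM : T / M = q' + M * s' := by
    rw [hTe, Nat.add_mul_div_left _ _ hMpos, Nat.div_eq_of_lt hpM, zero_add]
  have hq : T / M % M = q' := by
    rw [hTM, Nat.add_mul_mod_self_left, Nat.mod_eq_of_lt hqM]
  have hs : T / M ^ 2 = s' := by
    rw [pow_two, ← Nat.div_div_eq_div_mul, hTM, Nat.add_mul_div_left _ _ hMpos,
      Nat.div_eq_of_lt hqM, zero_add]
  rw [hp, hq] at h1
  rw [hs, hp, hq] at h2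
  rcases Nat.eq_zero_or_pos P.K with hK | hK
  · rw [hr, hK]
    simp
  set c : ℕ := q' - p' with hc
  have hcq : p' + c = q' := by omega
  have key : ∀ j < P.K, (fun j => a j + if j = 0 then c else 0) j = b j := by
    refine digits_unique hBpos _ _ P.K ?_ hb ?_
    · intro j hj
      have h3 := hab j (Finset.mem_range.2 hj)
      show a j + (if j = 0 then c else 0) < B
      split_ifs <;> omega
    · show ∑ j ∈ range P.K, (a j + if j = 0 then c else 0) * B ^ j = q'
      rw [← hcq]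
      have h3 : ∀ j ∈ range P.K, (a j + if j = 0 then c else 0) * B ^ j =
          a j * B ^ j + if j = 0 then c else 0 := by
        intro j _
        split_ifs with h4
        · rw [h4, pow_zero]
          ring
        · ring
      rw [Finset.sum_congr rfl h3, Finset.sum_add_distrib, Finset.sum_ite_eq' (range P.K) 0,
        if_pos (Finset.mem_range.2 hK)]
  have hrr : r = -(c : ℝ) * v 0 := by
    rw [hr]
    have h3 : ∀ j ∈ range P.K, ((a j : ℝ) - b j) * v j = if j = 0 then -(c : ℝ) * v 0 else 0 := by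
      intro j hj
      have h4 := key j (Finset.mem_range.1 hj)
      simp only at h4
      rw [← h4]
      split_ifs with h5
      · rw [h5]
        push_cast
        ring
      · push_cast
        ring
    rw [Finset.sum_congr rfl h3, Finset.sum_ite_eq' (range P.K) 0,
      if_pos (Finset.mem_range.2 hK)]
  rw [hrr]
  have : (0 : ℝ) ≤ (c : ℝ) * v 0 := mul_nonneg (Nat.cast_nonneg _) h0
  linarith

theorem comb_drop (wl : ℕ) : ∀ (ctx : List ℕ) (g N acc : ℕ),
    comb wl ctx g N acc = comb wl (ctx.drop g) 0 N acc := by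
  intro ctx
  induction ctx with
  | nil => intro g N acc; simp; rfl
  | cons X ctx ih =>
    intro g N acc
    cases g with
    | zero => rfl
    | succ g =>
      rw [comb_cons_succ, ih]
      rfl

theorem comb_sound' (wl : ℕ) (ctx : List ℕ) : ∀ g N : ℕ, ∃ Λ : ℕ, ∀ (P : Par) (n : ℕ)
    (v : ℕ → ℝ) (δ a : ℝ) (acc : ℕ), 0 ≤ δ → CtxOk P n v δ ctx → (∃ r, Rep P n v acc r ∧ a ≤ r) →
    ∃ r, Rep P n v (comb wl ctx g N acc) r ∧ a - Λ * δ ≤ r := by
  induction ctx with
  | nil =>
    intro g N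
    refine ⟨0, fun P n v δ a acc _ _ h => ?_⟩
    obtain ⟨r, h1, h2⟩ := h
    exact ⟨r, h1, by simpa using h2⟩
  | cons X ctx ih =>
    intro g N
    cases g with
    | succ g =>
      obtain ⟨Λ, h⟩ := ih g N
      refine ⟨Λ, fun P n v δ a acc h0 h1 h2 => ?_⟩
      rw [comb_cons_succ]
      exact h P n v δ a acc h0 (fun Y hY => h1 Y (List.mem_cons_of_mem _ hY)) h2
    | zero =>
      by_cases hN : N = 0
      · refine ⟨0, fun P n v δ a acc h0 h1 h2 => ?_⟩
        obtain ⟨r, h3, h4⟩ := h2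
        rw [comb_cons_zero, hN]
        exact ⟨r, h3, by simpa using h4⟩
      · obtain ⟨Λ', h⟩ := ih (Nat.mod (Nat.shiftRight N wl) 256)
          (Nat.shiftRight (Nat.shiftRight N wl) 8)
        refine ⟨Λ' + N % 2 ^ wl, fun P n v δ a acc h0 h1 h2 => ?_⟩
        have hN' : Nat.beq N 0 = false := by
          rw [← Bool.not_eq_true, Nat.beq_eq]
          exact hN
        rw [comb_cons_zero, hN']
        obtain ⟨r, hr1, hr2⟩ := h2
        obtain ⟨s, hs1, hs2⟩ := h1 X (List.mem_cons_self ..)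
        have h3 : -((N % 2 ^ wl : ℕ) * δ) ≤ ((N % 2 ^ wl : ℕ) : ℝ) * s := by
          have := mul_le_mul_of_nonneg_left hs2 (Nat.cast_nonneg (α := ℝ) (N % 2 ^ wl))
          linarith
        obtain ⟨r', h4, h5⟩ := h P n v δ (a - ((N % 2 ^ wl : ℕ) : ℝ) * δ)
          (acc + (N % 2 ^ wl) * X) h0 (fun Y hY => h1 Y (List.mem_cons_of_mem _ hY))
          ⟨_, hr1.add (hs1.mul (N % 2 ^ wl)), by linarith⟩
        refine ⟨r', h4, ?_⟩
        push_cast at h5 ⊢
        linarith

/-- the first `dep` forms of the context are `≥ M` -/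
def TopOk (P : Par) (n : ℕ) (v : ℕ → ℝ) (M : ℝ) (dep : ℕ) (ctx : List ℕ) : Prop :=
  ∀ g < dep, ∃ X rest, ctx.drop g = X :: rest ∧ ∃ r, Rep P n v X r ∧ M ≤ r

theorem TopOk.cons {M : ℝ} {dep : ℕ} {ctx : List ℕ} (h : TopOk P n v M dep ctx) {X : ℕ} {r : ℝ}
    (hX : Rep P n v X r) (hr : M ≤ r) : TopOk P n v M (dep + 1) (X :: ctx) := by
  intro g hg
  cases g with
  | zero => exact ⟨X, ctx, rfl, r, hX, hr⟩
  | succ g =>
    obtain ⟨Y, rest, h1, h2⟩ := h g (by omega)
    exact ⟨Y, rest, h1, h2⟩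

theorem leaf_sound' (P : Par) (wl N dep : ℕ) (ctx : List ℕ)
    (h : leafOk0 P wl N dep ctx = true) :
    ∃ Λ : ℕ, ∀ (n : ℕ) (v : ℕ → ℝ) (δ M : ℝ), 0 ≤ δ → 0 ≤ M → Λ * δ < M → 0 ≤ v 0 →
      CtxOk P n v δ ctx → TopOk P n v M dep ctx → False := by
  unfold leafOk0 at h
  rw [force_eq, force_eq, Bool.and_eq_true, Bool.and_eq_true] at h
  obtain ⟨⟨h1, h2⟩, h3⟩ := h
  have h1' : N % 256 < dep := by rw [Nat.blt_eq] at h1; exact h1
  set N' := Nat.shiftRight N 8 with hN'
  have h2' : 0 < N' % 2 ^ wl := by rw [Nat.blt_eq] at h2; exact h2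
  obtain ⟨Λ, hΛ⟩ := comb_sound' wl (ctx.drop (N % 256 + 1)) (Nat.mod (Nat.shiftRight N' wl) 256)
    (Nat.shiftRight (Nat.shiftRight N' wl) 8)
  refine ⟨Λ, fun n v δ M h0 hM hlt hv hctx htop => ?_⟩
  obtain ⟨X, rest, h4, r, h5, h6⟩ := htop _ h1'
  have h7 : ctx.drop (N % 256 + 1) = rest := by
    have : ctx.drop (N % 256 + 1) = (ctx.drop (N % 256)).drop 1 := by
      rw [List.drop_drop]
    rw [this, h4]
    rfl
  have h8 : comb wl ctx (Nat.mod N 256) N' 0 = comb wl rest (Nat.mod (Nat.shiftRight N' wl) 256)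
      (Nat.shiftRight (Nat.shiftRight N' wl) 8) (0 + (N' % 2 ^ wl) * X) := by
    rw [comb_drop]
    show comb wl (ctx.drop (N % 256)) 0 N' 0 = _
    rw [h4, comb_cons_zero]
    have : Nat.beq N' 0 = false := by
      rw [← Bool.not_eq_true, Nat.beq_eq]
      intro h9
      rw [h9] at h2'
      simp at h2'
    rw [this]
    rfl
  rw [h8] at h3
  have h9 : CtxOk P n v δ rest := by
    intro Y hY
    apply hctx
    have : Y ∈ ctx.drop (N % 256) := by rw [h4]; exact List.mem_cons_of_mem _ hY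
    exact List.mem_of_mem_drop this
  rw [h7] at hΛ
  have h10 : M ≤ ((N' % 2 ^ wl : ℕ) : ℝ) * r := by
    have h11 : (1 : ℝ) ≤ ((N' % 2 ^ wl : ℕ) : ℝ) := Nat.one_le_cast.2 h2'
    exact h6.trans (le_mul_of_one_le_left (hM.trans h6) h11)
  obtain ⟨r', h11, h12⟩ := hΛ P n v δ M (0 + (N' % 2 ^ wl) * X) h0 h9
    ⟨_, Rep.zero.add (h5.mul (N' % 2 ^ wl)), by linarith⟩
  have h13 := nonpos_of_negOk0 h3 h11 hv
  linarith

/-! ### The tree -/

theorem check_leaf (q wl N : ℕ) (ctx : List ℕ) (dep : ℕ) :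
    check P q (.leaf wl N) ctx dep = leafOk0 P wl N dep ctx := rfl

theorem check_node (q i j k m : ℕ) (t1 t2 : QTree) (ctx : List ℕ) (dep : ℕ) :
    check P q (.node i j k m t1 t2) ctx dep = (toolOk P q i j k m &&
      (check P q t1 (qF1 P q m :: ctx) (dep + 1) &&
        check P q t2 (qF2 P q i j k m (qF1 P q m) :: ctx) (dep + 1))) := by
  have h : check P q (.node i j k m t1 t2) ctx dep = (toolOk P q i j k m &&
      force (dep + 1) fun d => force (qF1 P q m) fun f1 => (check P q t1 (f1 :: ctx) d &&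
        force (qF2 P q i j k m f1) fun f2 => check P q t2 (f2 :: ctx) d)) := rfl
  rw [h, force_eq, force_eq, force_eq]

theorem toolOk_pos {q i j k m : ℕ} (h : toolOk P q i j k m = true) : 1 ≤ k := by
  unfold toolOk at h
  simp only [Bool.and_eq_true] at h
  have h1 := h.2.1.1
  rw [Nat.blt_eq] at h1
  exact h1

/-- cost of the tool -/
noncomputable def costW (P : Par) (q i j k m : ℕ) (S : ℕ → ℕ → ℝ) (J : ℕ → ℝ) : ℝ :=
  sizeW P q m S + max 0 (areaW P q i j m S J / k - idxW P q i j m S J)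

theorem node_ok (hE : 2 ≤ P.E) (htd : 1 ≤ P.td) (q : ℕ) (t : QTree) :
    ∀ (ctx : List ℕ) (dep : ℕ), check P q t ctx dep = true →
    ∃ Λ : ℕ, ∀ (n : ℕ) (v : ℕ → ℝ) (δ M H : ℝ) (S : ℕ → ℕ → ℝ) (J : ℕ → ℝ), 0 ≤ δ → 0 ≤ M →
      Λ * δ < M → 0 ≤ H → Vals P q v H S J → 1 + q * (P.E + 1) ≤ n → n ≤ P.K →
      CtxOk P n v δ ctx → TopOk P n v M dep ctx →
      ∃ i j k m : ℕ, toolOk P q i j k m = true ∧
        costW P q i j k m S J ≤ (P.tn : ℝ) / P.td * H + M := by
  induction t with
  | leaf wl N =>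
    intro ctx dep h
    rw [check_leaf] at h
    obtain ⟨Λ, hΛ⟩ := leaf_sound' P wl N dep ctx h
    refine ⟨Λ, fun n v δ M H S J h0 hM hlt hH hR _ _ hc ht => ?_⟩
    exact (hΛ n v δ M h0 hM hlt (by rw [hR.v0]; exact hH) hc ht).elim
  | node i j k m t1 t2 ih1 ih2 =>
    intro ctx dep h
    rw [check_node, Bool.and_eq_true, Bool.and_eq_true] at h
    obtain ⟨h1, h2, h3⟩ := h
    obtain ⟨Λ₁, hΛ₁⟩ := ih1 _ _ h2
    obtain ⟨Λ₂, hΛ₂⟩ := ih2 _ _ h3
    refine ⟨Λ₁ + Λ₂, fun n v δ M H S J h0 hM hlt hH hR hn0 hn hc ht => ?_⟩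
    by_cases hcost : costW P q i j k m S J ≤ (P.tn : ℝ) / P.td * H + M
    · exact ⟨i, j, k, m, h1, hcost⟩
    rw [not_le] at hcost
    have hk : (1 : ℝ) ≤ k := by exact_mod_cast toolOk_pos h1
    have htd' : (1 : ℝ) ≤ P.td := by exact_mod_cast htd
    have htd0 : (0 : ℝ) < P.td := by linarith
    have hL : (((Λ₁ + Λ₂ : ℕ) : ℝ)) * δ = Λ₁ * δ + Λ₂ * δ := by push_cast; ring
    have hΛ1' : (0 : ℝ) ≤ Λ₁ * δ := by positivity
    have hΛ2' : (0 : ℝ) ≤ Λ₂ * δ := by positivity
    unfold costW at hcost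
    rcases le_total (areaW P q i j m S J / k - idxW P q i j m S J) 0 with hX | hX
    · -- the size is large
      rw [max_eq_left hX, add_zero] at hcost
      have hv : M ≤ P.td * sizeW P q m S - P.tn * H := by
        have h4 : (P.td : ℝ) * ((P.tn : ℝ) / P.td * H + M) < P.td * sizeW P q m S :=
          mul_lt_mul_of_pos_left hcost htd0
        have h5 : (P.td : ℝ) * ((P.tn : ℝ) / P.td * H + M) = P.tn * H + P.td * M := by
          field_simp
        rw [h5] at h4
        have h7 : M ≤ P.td * M := le_mul_of_one_le_left hM htd'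
        linarith only [h4, h7]
      have hrep := qF1_rep hE hR hn0 hn m
      refine hΛ₁ n v δ M H S J h0 hM (by linarith) hH hR hn0 hn ?_ (ht.cons hrep hv)
      intro X hX'
      rcases List.mem_cons.1 hX' with h6 | h6
      · rw [h6]
        exact ⟨_, hrep, by linarith⟩
      · exact hc X h6
    · rw [max_eq_right hX] at hcost
      have hv : M ≤ k * (P.td * sizeW P q m S - P.tn * H) +
          P.td * (areaW P q i j m S J - k * idxW P q i j m S J) := by
        have hk0 : (0 : ℝ) < k := by linarith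
        have h4 : (k * P.td : ℝ) * ((P.tn : ℝ) / P.td * H + M) < k * P.td *
            (sizeW P q m S + (areaW P q i j m S J / k - idxW P q i j m S J)) :=
          mul_lt_mul_of_pos_left hcost (by positivity)
        have h5 : (k * P.td : ℝ) * ((P.tn : ℝ) / P.td * H + M) =
            k * (P.tn * H) + (k * P.td) * M := by
          field_simp
        have h6 : (k * P.td : ℝ) *
            (sizeW P q m S + (areaW P q i j m S J / k - idxW P q i j m S J)) =
            k * (P.td * sizeW P q m S) + P.td * (areaW P q i j m S J - k * idxW P q i j m S J) := by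
          field_simp
        rw [h5, h6] at h4
        have h7 : M ≤ (k * P.td) * M := by
          have : (1 : ℝ) ≤ k * P.td := one_le_mul_of_one_le_of_one_le hk htd'
          exact le_mul_of_one_le_left hM this
        linarith
      have hrep := qF2_rep hE hR hn0 hn i j k m
      refine hΛ₂ n v δ M H S J h0 hM (by linarith) hH hR hn0 hn ?_ (ht.cons hrep hv)
      intro X hX'
      rcases List.mem_cons.1 hX' with h6 | h6
      · rw [h6]
        exact ⟨_, hrep, by linarith⟩
      · exact hc X h6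

/-! ### The root -/

/-- The hypotheses on the sizes. -/
structure Hyp (P : Par) (q : ℕ) (H K : ℝ) (S : ℕ → ℕ → ℝ) (J : ℕ → ℝ) : Prop where
  K0 : 0 < K
  S0 : ∀ l < q, ∀ b < P.E, 0 ≤ S l b
  J0 : ∀ l < q, -K ≤ J l
  JE : ∀ l < q, P.E * S l (P.E - 1) - K ≤ J l
  tot : ∑ l ∈ range q, ∑ b ∈ range P.E, S l b ≤ ((q : ℝ) - 2) * H + K
  sort : ∀ l, l + 1 < q → ∑ b ∈ range P.E, S (l + 1) b ≤ ∑ b ∈ range P.E, S l b

theorem ctxOk_cons' {δ : ℝ} {c : List ℕ} (hc : CtxOk P n v δ c) {X : ℕ} {r : ℝ}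
    (hX : Rep P n v X r) (hr : -δ ≤ r) : CtxOk P n v δ (X :: c) := by
  intro Y hY
  rcases List.mem_cons.1 hY with h | h
  · rw [h]
    exact ⟨r, hX, hr⟩
  · exact hc Y h

/-- everything needed at the root -/
structure RootH (P : Par) (q n : ℕ) (v : ℕ → ℝ) (H K : ℝ) (S : ℕ → ℕ → ℝ) (J : ℕ → ℝ) :
    Prop where
  hE : 2 ≤ P.E
  hn0 : 1 + q * (P.E + 1) ≤ n
  hn : n ≤ P.K
  vals : Vals P q v H S J
  hyp : Hyp P q H K S J

/-- the continuation receives a context which is fine -/
def Goes (P : Par) (q : ℕ) (c : List ℕ) (κ : List ℕ → Bool) : Prop :=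
  ∃ c', κ c' = true ∧ ∀ (n : ℕ) (v : ℕ → ℝ) (H K : ℝ) (S : ℕ → ℕ → ℝ) (J : ℕ → ℝ),
    RootH P q n v H K S J → CtxOk P n v K c → CtxOk P n v K c'

theorem rootLoop_sound {l : ℕ} (hl : l < q) (N : ℕ) (hN : N ≤ P.E) :
    ∀ {c : List ℕ} {κ : List ℕ → Bool},
    (Nat.rec (motive := fun _ => List ℕ → (List ℕ → Bool) → Bool) (fun c κ => κ c)
    (fun b ih c κ => push (sF P true l b) c fun c' => ih c' κ) N c κ : Bool) = true →
    Goes P q c κ := by
  induction N with
  | zero =>
    intro c κ h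
    exact ⟨c, h, fun _ _ _ _ _ _ _ hc => hc⟩
  | succ N ih =>
    intro c κ h
    have h1 : push (sF P true l N) c (fun c' =>
      (Nat.rec (motive := fun _ => List ℕ → (List ℕ → Bool) → Bool) (fun c κ => κ c)
      (fun b ih c κ => push (sF P true l b) c fun c' => ih c' κ) N c' κ : Bool)) = true := h
    rw [push_eq] at h1
    obtain ⟨c', h2, h3⟩ := ih (by omega) h1
    refine ⟨c', h2, fun n v H K S J hh hc => h3 n v H K S J hh ?_⟩
    refine ctxOk_cons' hc (sF_rep hh.hE hh.vals hh.hn0 hh.hn true hl (by omega)) ?_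
    rw [sg_true, one_mul]
    have h4 := hh.hyp.S0 l hl N (by omega)
    have := hh.hyp.K0
    linarith

theorem Ix_last {E : ℕ} (hE : E - 1 + 1 = E) (l : ℕ) : Ix E S J l (E - 1) = J l := by
  simp [Ix, hE]

theorem rootForm_sound {l : ℕ} (hl : l < q) {c : List ℕ} {κ : List ℕ → Bool}
    (h : rootForm P l c κ = true) : Goes P q c κ := by
  obtain ⟨c1, h1, h2⟩ := rootLoop_sound hl P.E le_rfl h
  beta_reduce at h1
  rw [push_eq, push_eq] at h1
  refine ⟨_, h1, fun n v H K S J hh hc => ?_⟩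
  have hb : P.E - 1 < P.E := by have := hh.hE; omega
  have hlast : P.E - 1 + 1 = P.E := by have := hh.hE; omega
  have hI := fun s => iF_rep hh.hE hh.vals hh.hn0 hh.hn s hl hb
  simp only [Ix_last hlast] at hI
  have hS := fun s => sF_rep hh.hE hh.vals hh.hn0 hh.hn s hl hb
  have h3 := hh.hyp.J0 l hl
  have h4 := hh.hyp.JE l hl
  refine ctxOk_cons' (ctxOk_cons' (h2 n v H K S J hh hc) (hI true) ?_)
    ((hI true).add ((hS false).mul P.E)) ?_
  · rw [sg_true]
    linarith
  · rw [sg_true, sg_false]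
    linarith

theorem rootForms_sound (N : ℕ) (hN : N ≤ q) :
    ∀ {c : List ℕ} {κ : List ℕ → Bool}, rootForms P N c κ = true → Goes P q c κ := by
  induction N with
  | zero =>
    intro c κ h
    exact ⟨c, h, fun _ _ _ _ _ _ _ hc => hc⟩
  | succ N ih =>
    intro c κ h
    have h1 : rootForm P N c (fun c' => rootForms P N c' κ) = true := h
    obtain ⟨c1, h2, h3⟩ := rootForm_sound (q := q) (by omega) h1
    obtain ⟨c2, h4, h5⟩ := ih (by omega) h2
    exact ⟨c2, h4, fun n v H K S J hh hc => h5 n v H K S J hh (h3 n v H K S J hh hc)⟩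

theorem radF_rep {K : ℝ} (hh : RootH P q n v H K S J) (s : Bool) {l : ℕ} (hl : l < q) :
    Rep P n v (radF P s l) (sg s * ∑ b ∈ range P.E, S l b) := by
  have h : Rep P n v (radF P s l) (∑ b ∈ range P.E, sg s * S l b) :=
    Rep.sumTo fun b hb => sF_rep hh.hE hh.vals hh.hn0 hh.hn s hl hb
  refine h.cast ?_
  rw [← Finset.mul_sum]

theorem rootSort_sound (N : ℕ) (hN : N + 1 ≤ q) :
    ∀ {c : List ℕ} {κ : List ℕ → Bool}, rootSort P N c κ = true → Goes P q c κ := by
  induction N with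
  | zero =>
    intro c κ h
    exact ⟨c, h, fun _ _ _ _ _ _ _ hc => hc⟩
  | succ N ih =>
    intro c κ h
    have h1 : push (radF P true N + radF P false (N + 1)) c
      (fun c' => rootSort P N c' κ) = true := h
    rw [push_eq] at h1
    obtain ⟨c2, h4, h5⟩ := ih (by omega) h1
    refine ⟨c2, h4, fun n v H K S J hh hc => h5 n v H K S J hh ?_⟩
    refine ctxOk_cons' hc ((radF_rep hh true (l := N) (by omega)).add
      (radF_rep hh false (l := N + 1) (by omega))) ?_
    rw [sg_true, sg_false]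
    have h6 := hh.hyp.sort N (by omega)
    have := hh.hyp.K0
    linarith

theorem qroot_sound (hq : 2 ≤ q) {κ : List ℕ → Bool} (h : qroot P q κ = true) :
    ∃ c', κ c' = true ∧ ∀ (n : ℕ) (v : ℕ → ℝ) (H K : ℝ) (S : ℕ → ℕ → ℝ) (J : ℕ → ℝ),
      RootH P q n v H K S J → CtxOk P n v K c' := by
  obtain ⟨c1, h1, h2⟩ := rootForms_sound q le_rfl h
  beta_reduce at h1
  rw [push_eq] at h1
  obtain ⟨c2, h3, h4⟩ := rootSort_sound (q := q) (q - 1) (by omega) h1
  refine ⟨c2, h3, fun n v H K S J hh => h4 n v H K S J hh ?_⟩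
  have hc := h2 n v H K S J hh (fun X hX => by simp at hX)
  have hat := Rep.atm (P := P) (n := n) (v := v) (j := 0) true
    (by have := hh.hn0; omega) hh.hn
  rw [hh.vals.v0] at hat
  have hsum : Rep P n v (sumTo (fun l => radF P false l) q)
      (∑ l ∈ range q, sg false * ∑ b ∈ range P.E, S l b) :=
    Rep.sumTo fun l hl => radF_rep hh false hl
  refine ctxOk_cons' hc ((hat.mul (q - 2)).add hsum) ?_
  have h5 := hh.hyp.tot
  rw [← Finset.mul_sum, sg_false, sg_true]
  have h6 : ((q - 2 : ℕ) : ℝ) = (q : ℝ) - 2 := by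
    rw [Nat.cast_sub hq]
    norm_num
  rw [h6]
  linarith

theorem ble_iff' {a b : ℕ} : Nat.ble a b = true ↔ a ≤ b := by simp [Nat.ble_eq]

/-- the assignment -/
noncomputable def asg (P : Par) (H : ℝ) (S : ℕ → ℕ → ℝ) (J : ℕ → ℝ) (t : ℕ) : ℝ :=
  if t = 0 then H else
    if (t - 1) % (P.E + 1) = P.E then J ((t - 1) / (P.E + 1))
    else S ((t - 1) / (P.E + 1)) ((t - 1) % (P.E + 1))

theorem asg_slot {l b : ℕ} (hb : b ≤ P.E) :
    asg P H S J (slot P 1 l b) = if b = P.E then J l else S l b := by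
  have h1 : slot P 1 l b ≠ 0 := by
    rw [slot_eq]
    omega
  have h2 : slot P 1 l b - 1 = (P.E + 1) * l + b := by
    rw [slot_eq]
    omega
  have hb' : b < P.E + 1 := by omega
  rw [asg, if_neg h1, h2, Nat.mul_add_mod, Nat.mod_eq_of_lt hb', Nat.mul_add_div (by omega),
    Nat.div_eq_of_lt hb', add_zero]

/-- **Soundness of the checker.** -/
theorem sound {t : QTree} (h : checkAll P q t = true) :
    2 ≤ P.E ∧ 2 ≤ q ∧ ∃ Λ : ℕ, ∀ (H K M : ℝ) (S : ℕ → ℕ → ℝ) (J : ℕ → ℝ), 0 ≤ H → 0 ≤ M →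
      Λ * K < M → Hyp P q H K S J → (∀ l < q, ∑ b ∈ range P.E, Ix P.E S J l b = H) →
      ∃ i j k m : ℕ, toolOk P q i j k m = true ∧
        costW P q i j k m S J ≤ (P.tn : ℝ) / P.td * H + M := by
  unfold checkAll at h
  rw [Bool.and_eq_true, Bool.and_eq_true, Bool.and_eq_true, Bool.and_eq_true, ble_iff', ble_iff',
    ble_iff', ble_iff'] at h
  obtain ⟨⟨⟨hE, htd⟩, hq, hK⟩, h⟩ := h
  obtain ⟨c, h1, h2⟩ := qroot_sound hq h
  obtain ⟨Λ, hΛ⟩ := node_ok hE htd q t c 0 h1
  refine ⟨hE, hq, Λ, fun H K M S J hH hM hlt hyp hsum => ?_⟩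
  have hv : Vals P q (asg P H S J) H S J := by
    refine ⟨by simp [asg], fun l _ => ?_, fun l _ b hb => ?_, hsum⟩
    · rw [asg_slot le_rfl, if_pos rfl]
    · rw [asg_slot hb.le, if_neg hb.ne]
  have hK' : 1 + q * (P.E + 1) ≤ P.K := by
    have : Nat.succ (q * (P.E + 1)) ≤ P.K := hK
    omega
  refine hΛ (1 + q * (P.E + 1)) (asg P H S J) K M H S J hyp.K0.le hM hlt hH hv le_rfl hK'
    (h2 _ _ H K S J ⟨hE, le_rfl, hK', hv, hyp⟩) ?_
  intro g hg
  omega

end Pool.Agent.Lib.MP_4d5ce1_nt.QC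
end

section

set_option autoImplicit false

/-!
# The checker for basic tools: transfer to configurations
-/

namespace Pool.Agent.Lib.MP_4d5ce1_nt.QC

open BC Finset

universe u

section

variable {ι : Type u} {q : ℕ}

/-- the block of an exponent -/
def blk (E e : ℕ) : ℕ := min (e - 1) (E - 1)

theorem blk_lt {E : ℕ} (hE : 2 ≤ E) (e : ℕ) : blk E e < E := by
  unfold blk
  omega

open Classical in
/-- sum of `f` over the block `b` of the form `l` -/
noncomputable def bs (P : Finset ι) (lab : ι → Fin q) (e : ι → ℕ) (E : ℕ) (f : ι → ℝ)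
    (l : Fin q) (b : ℕ) : ℝ :=
  ∑ v ∈ P.filter (fun v => lab v = l ∧ blk E (e v) = b), f v

variable {P : Finset ι} {lab : ι → Fin q} {e : ι → ℕ} {E : ℕ}

open Classical in
theorem sum_eq_bs (hE : 2 ≤ E) (f : ι → ℝ) (c : Fin q → ℕ → ℝ) :
    ∑ v ∈ P, c (lab v) (blk E (e v)) * f v =
      ∑ l, ∑ b ∈ range E, c l b * bs P lab e E f l b := by
  have h1 : ∀ v ∈ P, c (lab v) (blk E (e v)) * f v =
      ∑ l, ∑ b ∈ range E, if lab v = l ∧ blk E (e v) = b then c l b * f v else 0 := by
    intro v _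
    rw [Finset.sum_eq_single (lab v)]
    · rw [Finset.sum_eq_single (blk E (e v))]
      · simp
      · intro b _ hb
        rw [if_neg]
        rintro ⟨-, h⟩
        exact hb h.symm
      · intro h
        exact absurd (Finset.mem_range.2 (blk_lt hE _)) h
    · intro l _ hl
      refine Finset.sum_eq_zero fun b _ => ?_
      rw [if_neg]
      rintro ⟨h, -⟩
      exact hl h.symm
    · intro h
      exact absurd (Finset.mem_univ _) h
  rw [Finset.sum_congr rfl h1, Finset.sum_comm]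
  refine Finset.sum_congr rfl fun l _ => ?_
  rw [Finset.sum_comm]
  refine Finset.sum_congr rfl fun b _ => ?_
  rw [bs, Finset.mul_sum, Finset.sum_filter]

open Classical in
theorem form_eq_bs (hE : 2 ≤ E) (f : ι → ℝ) (l : Fin q) :
    ∑ v ∈ P.filter (fun v => lab v = l), f v = ∑ b ∈ range E, bs P lab e E f l b := by
  have h := sum_eq_bs (P := P) (lab := lab) (e := e) hE f (fun l' _ => if l' = l then 1 else 0)
  rw [Finset.sum_filter]
  have h1 : ∀ v ∈ P, (if lab v = l then f v else 0) = (if lab v = l then (1 : ℝ) else 0) * f v := by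
    intro v _
    split_ifs <;> simp
  rw [Finset.sum_congr rfl h1, h, Finset.sum_eq_single l]
  · simp
  · intro l' _ hl'
    simp [hl']
  · intro h
    exact absurd (Finset.mem_univ _) h

theorem bs_nonneg {f : ι → ℝ} (hf : ∀ v ∈ P, 0 ≤ f v) (l : Fin q) (b : ℕ) :
    0 ≤ bs P lab e E f l b :=
  Finset.sum_nonneg fun v hv => hf v (Finset.mem_filter.1 hv).1

theorem bs_exact {b : ι → ℝ} (he : ∀ v ∈ P, 1 ≤ e v) (l : Fin q) {t : ℕ} (ht : t + 1 < E) :
    bs P lab e E (fun v => (e v : ℝ) * b v) l t = ((t : ℝ) + 1) * bs P lab e E b l t := by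
  unfold bs
  rw [Finset.mul_sum]
  refine Finset.sum_congr rfl fun v hv => ?_
  have h1 := (Finset.mem_filter.1 hv).2.2
  have h2 := he v (Finset.mem_filter.1 hv).1
  unfold blk at h1
  have h3 : e v = t + 1 := by omega
  show (e v : ℝ) * b v = _
  rw [h3]
  push_cast
  ring

theorem bs_rest {b : ι → ℝ} (hb : ∀ v ∈ P, 0 < b v) (hE : 2 ≤ E) (l : Fin q) :
    (E : ℝ) * bs P lab e E b l (E - 1) ≤ bs P lab e E (fun v => (e v : ℝ) * b v) l (E - 1) := by
  unfold bs
  rw [Finset.mul_sum]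
  refine Finset.sum_le_sum fun v hv => ?_
  have h1 := (Finset.mem_filter.1 hv).2.2
  have h2 := hb v (Finset.mem_filter.1 hv).1
  unfold blk at h1
  have h3 : E ≤ e v := by omega
  have h4 : (E : ℝ) ≤ e v := by exact_mod_cast h3
  exact mul_le_mul_of_nonneg_right h4 h2.le

end

/-- a permutation of the forms sorting `r` in decreasing order -/
theorem exists_sort {q : ℕ} (r : Fin q → ℝ) :
    ∃ σ : Equiv.Perm (Fin q), ∀ l m : Fin q, l ≤ m → r (σ m) ≤ r (σ l) := by
  refine ⟨Tuple.sort (fun l => -r l), fun l m h => ?_⟩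
  have h1 := Tuple.monotone_sort (fun l => -r l) h
  simp only [Function.comp] at h1
  linarith

theorem sum_range_fin {q : ℕ} (F : ℕ → ℝ) : ∑ l ∈ range q, F l = ∑ l : Fin q, F l :=
  Finset.sum_range F

open Classical in
/-- **Transfer.** A certificate accepted by the checker gives the combinatorial bound. -/
theorem combBound_of_checkAll {P : Par} {q : ℕ} {t : QTree} (h : checkAll P q t = true) :
    CombBound.{u} q 2 ((P.tn : ℝ) / P.td) P.E := by
  obtain ⟨hE, hq, Λ, hΛ⟩ := sound h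
  have hq0 : NeZero q := ⟨by omega⟩
  refine ⟨Λ + 1 + q, by positivity, ?_⟩
  intro ι Q lab e b I H K hH hK hP hI hmass htot
  have he : ∀ v ∈ Q, 1 ≤ e v := fun v hv => (hP v hv).1
  have hb : ∀ v ∈ Q, 0 < b v := fun v hv => (hP v hv).2
  have hb0 : ∀ v ∈ Q, 0 ≤ b v := fun v hv => (hb v hv).le
  set E := P.E with hEdef
  have hE1 : E - 1 + 1 = E := by omega
  have hE1' : E - 1 < E := by omega
  obtain ⟨σ, hσ⟩ := exists_sort (fun l => ∑ t ∈ range E, bs Q lab e E b l t)
  -- sizes
  set S : ℕ → ℕ → ℝ := fun l t => bs Q lab e E b (σ (Fin.ofNat q l)) t with hS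
  set R : Fin q → ℕ → ℝ := fun l t => bs Q lab e E (fun v => (e v : ℝ) * b v) l t with hR
  set J : ℕ → ℝ := fun l => H - ∑ t ∈ range (E - 1), ((t : ℝ) + 1) * S l t with hJ
  have hofNat : ∀ l : Fin q, Fin.ofNat q (l : ℕ) = l := fun l => by simp
  have hRS : ∀ (l : ℕ) (t : ℕ), t + 1 < E →
      R (σ (Fin.ofNat q l)) t = ((t : ℝ) + 1) * S l t := by
    intro l t ht
    exact bs_exact he _ ht
  -- masses
  have hmass' : ∀ l : Fin q, ∑ t ∈ range E, R l t = ∑ v ∈ Q.filter (fun v => lab v = l),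
      (e v : ℝ) * b v := fun l => (form_eq_bs (e := e) hE _ l).symm
  have hJR : ∀ l : ℕ, J l = R (σ (Fin.ofNat q l)) (E - 1) + I (σ (Fin.ofNat q l)) -
      (∑ v ∈ Q.filter (fun v => lab v = σ (Fin.ofNat q l)), (e v : ℝ) * b v +
        I (σ (Fin.ofNat q l)) - H) := by
    intro l
    rw [← hmass' (σ (Fin.ofNat q l))]
    have h1 : ∑ t ∈ range E, R (σ (Fin.ofNat q l)) t =
        ∑ t ∈ range (E - 1), R (σ (Fin.ofNat q l)) t + R (σ (Fin.ofNat q l)) (E - 1) := by
      conv_lhs => rw [← hE1, Finset.sum_range_succ]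
    have h2 : ∑ t ∈ range (E - 1), R (σ (Fin.ofNat q l)) t =
        ∑ t ∈ range (E - 1), ((t : ℝ) + 1) * S l t :=
      Finset.sum_congr rfl fun t ht => hRS l t (by have := Finset.mem_range.1 ht; omega)
    rw [h1, h2]
    simp only [hJ]
    ring
  have hJle : ∀ l : ℕ, J l ≤ R (σ (Fin.ofNat q l)) (E - 1) + I (σ (Fin.ofNat q l)) + K := by
    intro l
    have h1 := hmass (σ (Fin.ofNat q l))
    rw [abs_le] at h1
    rw [hJR l]
    linarith [h1.1]
  have hJge : ∀ l : ℕ, R (σ (Fin.ofNat q l)) (E - 1) + I (σ (Fin.ofNat q l)) - K ≤ J l := by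
    intro l
    have h1 := hmass (σ (Fin.ofNat q l))
    rw [abs_le] at h1
    rw [hJR l]
    linarith [h1.2]
  have hR0 : ∀ (l : Fin q) (t : ℕ), 0 ≤ R l t := fun l t =>
    bs_nonneg (fun v hv => mul_nonneg (Nat.cast_nonneg _) (hb0 v hv)) l t
  have hS0 : ∀ l t, 0 ≤ S l t := fun l t => bs_nonneg hb0 _ t
  have hRest : ∀ l : ℕ, (E : ℝ) * S l (E - 1) ≤ R (σ (Fin.ofNat q l)) (E - 1) := fun l =>
    bs_rest hb hE _
  have hyp : Hyp P q H K S J := by
    refine ⟨hK, fun l _ t _ => hS0 l t, fun l _ => ?_, fun l _ => ?_, ?_, ?_⟩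
    · have h1 := hJge l
      have h2 := hR0 (σ (Fin.ofNat q l)) (E - 1)
      have h3 := hI (σ (Fin.ofNat q l))
      linarith
    · have h1 := hJge l
      have h2 := hRest l
      have h3 := hI (σ (Fin.ofNat q l))
      linarith
    · rw [sum_range_fin]
      have h1 : ∑ l : Fin q, ∑ t ∈ range E, S l t = ∑ l : Fin q, ∑ t ∈ range E,
          bs Q lab e E b l t := by
        simp only [hS, hofNat]
        exact Equiv.sum_comp σ (fun l => ∑ t ∈ range E, bs Q lab e E b l t)
      rw [h1]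
      have h2 := sum_eq_bs (P := Q) (lab := lab) (e := e) hE b (fun _ _ => 1)
      simp only [one_mul] at h2
      rw [← h2]
      exact htot
    · intro l hl
      have h1 := hσ (Fin.ofNat q l) (Fin.ofNat q (l + 1)) (by
        rw [Fin.le_def]
        simp only [Fin.ofNat_eq_cast, Fin.val_natCast]
        rw [Nat.mod_eq_of_lt (by omega), Nat.mod_eq_of_lt hl]
        omega)
      exact h1
  have hsum : ∀ l < q, ∑ t ∈ range P.E, Ix P.E S J l t = H := by
    intro l _
    rw [← hEdef]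
    conv_lhs => rw [← hE1, Finset.sum_range_succ]
    have h1 : ∑ t ∈ range (E - 1), Ix (E - 1 + 1) S J l t =
        ∑ t ∈ range (E - 1), ((t : ℝ) + 1) * S l t := by
      refine Finset.sum_congr rfl fun t ht => ?_
      have := Finset.mem_range.1 ht
      rw [Ix, if_neg (by omega)]
    rw [h1, Ix, if_pos rfl]
    simp only [hJ]
    ring
  obtain ⟨i, j, k, m, htool, hcost⟩ := hΛ H K ((Λ + 1) * K) S J hH (by positivity)
    (by nlinarith) hyp hsum
  -- the tool
  unfold toolOk at htool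
  simp only [Bool.and_eq_true] at htool
  obtain ⟨⟨⟨hi, hj⟩, hij⟩, ⟨hk1, hkE⟩, hall⟩ := htool
  rw [Nat.blt_eq] at hi hj hk1
  rw [Nat.ble_eq] at hkE
  have hij' : i ≠ j := by
    intro h1
    rw [h1] at hij
    simp at hij
  rw [allTo_iff] at hall
  set W : Finset ι := Q.filter (fun v =>
    bt m (E * (σ.symm (lab v) : ℕ) + blk E (e v)) = true) with hW
  set i' : Fin q := σ ⟨i, hi⟩ with hi'
  set j' : Fin q := σ ⟨j, hj⟩ with hj'
  have hlab : ∀ (l : Fin q) (x : ℕ) (hx : x < q), l = σ ⟨x, hx⟩ ↔ (σ.symm l : ℕ) = x := by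
    intro l x hx
    rw [← Equiv.symm_apply_eq, Fin.ext_iff]
  refine ⟨k, hk1, hkE, i', j', ?_, W, Finset.filter_subset _ _, ?_, ?_⟩
  · intro h1
    apply hij'
    have := σ.injective h1
    simpa using this
  · intro v hv hvW hvl
    have hbt : ¬ bt m (E * (σ.symm (lab v) : ℕ) + blk E (e v)) = true := by
      intro h1
      exact hvW (Finset.mem_filter.2 ⟨hv, h1⟩)
    have hlt : E * (σ.symm (lab v) : ℕ) + blk E (e v) < q * E := by
      have h1 : ((σ.symm (lab v) : ℕ) + 1) * E ≤ q * E := Nat.mul_le_mul_right _ (by omega)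
      have h2 := blk_lt hE (e v)
      have h3 : ((σ.symm (lab v) : ℕ) + 1) * E = E * (σ.symm (lab v) : ℕ) + E := by ring
      omega
    have h1 := hall _ hlt
    have hin : inIJ P i j (E * (σ.symm (lab v) : ℕ) + blk E (e v)) = true := by
      rw [inIJ_eq i j _ _ (blk_lt hE _), decide_eq_true_iff]
      rcases hvl with h2 | h2
      · exact Or.inl ((hlab _ _ hi).1 h2)
      · exact Or.inr ((hlab _ _ hj).1 h2)
    rw [hin, Bool.not_eq_true _ |>.mp hbt] at h1
    simp only [Bool.not_true, Bool.false_or] at h1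
    rw [mod_blk (blk_lt hE _), beq_succ] at h1
    by_cases h2 : blk E (e v) + 1 = P.E
    · rw [decide_eq_true h2, cond_true, Nat.beq_eq] at h1
      rw [h1]
      exact one_dvd _
    · rw [decide_eq_false h2, cond_false, Nat.beq_eq] at h1
      have h3 : blk E (e v) + 1 = e v := by
        have h4 := he v hv
        unfold blk at h2 ⊢
        omega
      have h4 : (blk E (e v) + 1) % k = 0 := h1
      rw [h3] at h4
      exact Nat.dvd_of_mod_eq_zero h4
  · -- the cost
    have hgen : ∀ (f : ι → ℝ) (c : ℕ → ℕ → ℝ),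
        ∑ v ∈ Q, c (σ.symm (lab v)) (blk E (e v)) * f v =
        ∑ l ∈ range q, ∑ t ∈ range E, c l t * bs Q lab e E f (σ (Fin.ofNat q l)) t := by
      intro f c
      rw [sum_eq_bs (P := Q) (lab := lab) (e := e) hE f (fun l t => c (σ.symm l) t),
        sum_range_fin, ← Equiv.sum_comp σ]
      refine Finset.sum_congr rfl fun l _ => Finset.sum_congr rfl fun t _ => ?_
      rw [hofNat, Equiv.symm_apply_apply]
    have hsize : ∑ v ∈ W, b v = sizeW P q m S := by
      have h1 := hgen b (fun l t => if bt m (E * l + t) = true then 1 else 0)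
      rw [hW, Finset.sum_filter]
      have h2 : ∀ v ∈ Q, (if bt m (E * (σ.symm (lab v) : ℕ) + blk E (e v)) = true then b v
          else 0) = (if bt m (E * (σ.symm (lab v) : ℕ) + blk E (e v)) = true then (1 : ℝ)
          else 0) * b v := by
        intro v _
        split_ifs <;> simp
      rw [Finset.sum_congr rfl h2, h1]
      unfold sizeW
      refine Finset.sum_congr rfl fun l _ => Finset.sum_congr rfl fun t _ => ?_
      simp only [hS, ← hEdef]
      split_ifs <;> simp
    -- the area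
    set F : ι → ℝ := fun v => (e v : ℝ) * b v with hF
    have harea : ∑ v ∈ Q.filter (fun v => v ∉ W ∧ (lab v = i' ∨ lab v = j')), F v =
        ∑ l ∈ range q, ∑ t ∈ range E, (if l = i ∨ l = j then
          (if bt m (E * l + t) = true then 0 else R (σ (Fin.ofNat q l)) t) else 0) := by
      have h1 := hgen F (fun l t => if l = i ∨ l = j then
        (if bt m (E * l + t) = true then 0 else 1) else 0)
      rw [Finset.sum_filter]
      have h2 : ∀ v ∈ Q, (if v ∉ W ∧ (lab v = i' ∨ lab v = j') then F v else 0) =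
          (if ((σ.symm (lab v) : ℕ) = i ∨ (σ.symm (lab v) : ℕ) = j) then
          (if bt m (E * (σ.symm (lab v) : ℕ) + blk E (e v)) = true then (0 : ℝ) else 1)
          else 0) * F v := by
        intro v hv
        have h3 : (lab v = i' ∨ lab v = j') ↔
            ((σ.symm (lab v) : ℕ) = i ∨ (σ.symm (lab v) : ℕ) = j) := by
          rw [hi', hj', hlab _ _ hi, hlab _ _ hj]
        have h4 : v ∉ W ↔ ¬ bt m (E * (σ.symm (lab v) : ℕ) + blk E (e v)) = true := by
          rw [hW, Finset.mem_filter]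
          simp [hv]
        simp only [h3, h4]
        by_cases h5 : ((σ.symm (lab v) : ℕ) = i ∨ (σ.symm (lab v) : ℕ) = j)
        · by_cases h6 : bt m (E * (σ.symm (lab v) : ℕ) + blk E (e v)) = true
          · simp [h5, h6]
          · simp [h5, h6]
        · simp [h5]
      rw [Finset.sum_congr rfl h2, h1]
      refine Finset.sum_congr rfl fun l _ => Finset.sum_congr rfl fun t _ => ?_
      split_ifs <;> simp [hR]
    have hidx : ∑ v ∈ W.filter (fun v => lab v ≠ i' ∧ lab v ≠ j'), F v =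
        ∑ l ∈ range q, ∑ t ∈ range E, (if l = i ∨ l = j then 0 else
          (if bt m (E * l + t) = true then R (σ (Fin.ofNat q l)) t else 0)) := by
      have h1 := hgen F (fun l t => if l = i ∨ l = j then 0 else
        (if bt m (E * l + t) = true then 1 else 0))
      rw [hW, Finset.filter_filter, Finset.sum_filter]
      have h2 : ∀ v ∈ Q, (if (bt m (E * (σ.symm (lab v) : ℕ) + blk E (e v)) = true ∧
          (lab v ≠ i' ∧ lab v ≠ j')) then F v else 0) =
          (if ((σ.symm (lab v) : ℕ) = i ∨ (σ.symm (lab v) : ℕ) = j) then (0 : ℝ) else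
          (if bt m (E * (σ.symm (lab v) : ℕ) + blk E (e v)) = true then (1 : ℝ) else 0)) * F v := by
        intro v hv
        have h3 : (lab v ≠ i' ∧ lab v ≠ j') ↔
            ¬ ((σ.symm (lab v) : ℕ) = i ∨ (σ.symm (lab v) : ℕ) = j) := by
          rw [not_or, hi', hj', Ne, Ne, hlab _ _ hi, hlab _ _ hj]
        simp only [h3]
        by_cases h5 : ((σ.symm (lab v) : ℕ) = i ∨ (σ.symm (lab v) : ℕ) = j)
        · simp [h5]
        · by_cases h6 : bt m (E * (σ.symm (lab v) : ℕ) + blk E (e v)) = true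
          · simp [h5, h6]
          · simp [h5, h6]
      rw [Finset.sum_congr rfl h2, h1]
      refine Finset.sum_congr rfl fun l _ => Finset.sum_congr rfl fun t _ => ?_
      split_ifs <;> simp [hR]
    have hIs : ∑ l ∈ Finset.univ.filter (fun l => l ≠ i' ∧ l ≠ j'), I l =
        ∑ l ∈ range q, (if l = i ∨ l = j then 0 else I (σ (Fin.ofNat q l))) := by
      rw [Finset.sum_filter, sum_range_fin, ← Equiv.sum_comp σ]
      refine Finset.sum_congr rfl fun l _ => ?_
      have h3 : (σ l ≠ i' ∧ σ l ≠ j') ↔ ¬ ((l : ℕ) = i ∨ (l : ℕ) = j) := by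
        rw [not_or, hi', hj', Ne, Ne, hlab _ _ hi, hlab _ _ hj, Equiv.symm_apply_apply]
      simp only [h3, hofNat]
      by_cases h5 : ((l : ℕ) = i ∨ (l : ℕ) = j)
      · simp [h5]
      · simp [h5]
    -- comparison, form by form
    have hk1' : (1 : ℝ) ≤ k := by exact_mod_cast hk1
    have hk0 : (0 : ℝ) < k := by linarith
    have hIxR : ∀ (l t : ℕ), t + 1 ≠ E → t < E →
        Ix P.E S J l t = R (σ (Fin.ofNat q l)) t := by
      intro l t h1 h2
      rw [Ix, if_neg (by rw [← hEdef]; exact h1), hRS l t (by omega)]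
    have hIxL : ∀ l : ℕ, Ix P.E S J l (E - 1) = J l := fun l => Ix_last hE1 l
    have hsplit : ∀ G : ℕ → ℝ, ∑ t ∈ range E, G t = ∑ t ∈ range (E - 1), G t + G (E - 1) := by
      intro G
      conv_lhs => rw [← hE1, Finset.sum_range_succ]
    have hA : ∑ l ∈ range q, ∑ t ∈ range E, (if l = i ∨ l = j then
          (if bt m (E * l + t) = true then 0 else R (σ (Fin.ofNat q l)) t) else 0) ≤
        areaW P q i j m S J + ∑ l ∈ range q, (if l = i ∨ l = j then K else 0) := by
      unfold areaW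
      rw [← Finset.sum_add_distrib]
      refine Finset.sum_le_sum fun l _ => ?_
      rw [← hEdef, hsplit, hsplit (fun t => if l = i ∨ l = j then
        (if bt m (E * l + t) = true then 0 else Ix E S J l t) else 0)]
      have h1 : ∑ t ∈ range (E - 1), (if l = i ∨ l = j then
          (if bt m (E * l + t) = true then 0 else R (σ (Fin.ofNat q l)) t) else 0) =
          ∑ t ∈ range (E - 1), (if l = i ∨ l = j then
          (if bt m (E * l + t) = true then 0 else Ix E S J l t) else 0) := by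
        refine Finset.sum_congr rfl fun t ht => ?_
        have := Finset.mem_range.1 ht
        rw [← hIxR l t (by omega) (by omega)]
      rw [h1, hIxL l]
      have h2 := hJge l
      have h3 := hI (σ (Fin.ofNat q l))
      by_cases h5 : l = i ∨ l = j
      · simp only [h5, if_true]
        by_cases h6 : bt m (E * l + (E - 1)) = true
        · simp only [h6, if_true]
          linarith
        · rw [if_neg h6, if_neg h6]
          linarith
      · simp only [h5, if_false]
        linarith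
    have hB : idxW P q i j m S J ≤ ∑ l ∈ range q, ∑ t ∈ range E, (if l = i ∨ l = j then 0 else
          (if bt m (E * l + t) = true then R (σ (Fin.ofNat q l)) t else 0)) +
        ∑ l ∈ range q, (if l = i ∨ l = j then 0 else I (σ (Fin.ofNat q l))) +
        ∑ l ∈ range q, (if l = i ∨ l = j then 0 else K) := by
      unfold idxW
      rw [← Finset.sum_add_distrib, ← Finset.sum_add_distrib]
      refine Finset.sum_le_sum fun l _ => ?_
      rw [← hEdef, hsplit, hsplit (fun t => if l = i ∨ l = j then 0 else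
        (if bt m (E * l + t) = true then R (σ (Fin.ofNat q l)) t else 0))]
      have h1 : ∑ t ∈ range (E - 1), (if l = i ∨ l = j then 0 else
          (if bt m (E * l + t) = true then R (σ (Fin.ofNat q l)) t else 0)) =
          ∑ t ∈ range (E - 1), (if l = i ∨ l = j then 0 else
          (if bt m (E * l + t) = true then Ix E S J l t else 0)) := by
        refine Finset.sum_congr rfl fun t ht => ?_
        have := Finset.mem_range.1 ht
        rw [← hIxR l t (by omega) (by omega)]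
      rw [h1, hIxL l]
      have h2 := hJle l
      have h3 := hI (σ (Fin.ofNat q l))
      by_cases h5 : l = i ∨ l = j
      · simp only [h5, if_true]
        linarith
      · simp only [h5, if_false]
        by_cases h6 : bt m (E * l + (E - 1)) = true
        · simp only [h6, if_true]
          linarith
        · rw [if_neg h6, if_neg h6]
          linarith
    have hKs : ∑ l ∈ range q, (if l = i ∨ l = j then K else 0) +
        ∑ l ∈ range q, (if l = i ∨ l = j then 0 else K) = q * K := by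
      rw [← Finset.sum_add_distrib]
      have h1 : ∀ l ∈ range q, ((if l = i ∨ l = j then K else 0) +
          (if l = i ∨ l = j then 0 else K)) = K := by
        intro l _
        split_ifs <;> simp
      rw [Finset.sum_congr rfl h1, Finset.sum_const, Finset.card_range, nsmul_eq_mul]
    have hKA : 0 ≤ ∑ l ∈ range q, (if l = i ∨ l = j then K else 0) :=
      Finset.sum_nonneg fun l _ => by split_ifs <;> linarith
    unfold toolCost
    have hgoal : (∑ v ∈ Q.filter (fun v => v ∉ W ∧ (lab v = i' ∨ lab v = j')),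
          (e v : ℝ) * b v) / (k : ℝ)
        - ∑ v ∈ W.filter (fun v => lab v ≠ i' ∧ lab v ≠ j'), (e v : ℝ) * b v
        - ∑ l ∈ Finset.univ.filter (fun l => l ≠ i' ∧ l ≠ j'), I l ≤
        areaW P q i j m S J / k - idxW P q i j m S J + q * K := by
      have h1 : (∑ v ∈ Q.filter (fun v => v ∉ W ∧ (lab v = i' ∨ lab v = j')),
          (e v : ℝ) * b v) / (k : ℝ) ≤ areaW P q i j m S J / k +
            ∑ l ∈ range q, (if l = i ∨ l = j then K else 0) := by
        rw [harea]
        have h2 : (∑ l ∈ range q, (if l = i ∨ l = j then K else 0)) / (k : ℝ) ≤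
            ∑ l ∈ range q, (if l = i ∨ l = j then K else 0) := div_le_self hKA hk1'
        have h3 := div_le_div_of_nonneg_right hA hk0.le
        rw [add_div] at h3
        linarith
      have h4 : ∑ v ∈ W.filter (fun v => lab v ≠ i' ∧ lab v ≠ j'), (e v : ℝ) * b v = _ := hidx
      rw [h4, hIs]
      linarith
    have hqK : 0 ≤ (q : ℝ) * K := by positivity
    have hmax : max 0 ((∑ v ∈ Q.filter (fun v => v ∉ W ∧ (lab v = i' ∨ lab v = j')),
          (e v : ℝ) * b v) / (k : ℝ)
        - ∑ v ∈ W.filter (fun v => lab v ≠ i' ∧ lab v ≠ j'), (e v : ℝ) * b v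
        - ∑ l ∈ Finset.univ.filter (fun l => l ≠ i' ∧ l ≠ j'), I l) ≤
        max 0 (areaW P q i j m S J / k - idxW P q i j m S J) + q * K := by
      apply max_le
      · have := le_max_left 0 (areaW P q i j m S J / k - idxW P q i j m S J)
        linarith
      · have := le_max_right 0 (areaW P q i j m S J / k - idxW P q i j m S J)
        linarith
    unfold costW at hcost
    rw [hsize]
    have h9 : (Λ + 1 + q : ℝ) * K = (Λ + 1) * K + q * K := by ring
    rw [h9]
    linarith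

end Pool.Agent.Lib.MP_4d5ce1_nt.QC
end

section

set_option autoImplicit false

/-!
# Combinatorial bounds for the basic tools, `q = 4, 5, 6`

`θ_4 ≤ 18/23`, `θ_5 ≤ 1`, `θ_6 ≤ 1`.  The value `18/23` is exact for the cost functions of the
basic tools.
-/

namespace Pool.Agent.Lib.MP_4d5ce1_nt.QC

universe u

/-- basic tools, four linear forms: `18/23` -/
theorem combBound_four : CombBound.{u} 4 2 (18 / 23) 6 := by
  have h := combBound_of_checkAll.{u} QCert4.tree_ok
  norm_num at h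
  exact h

/-- basic tools, five linear forms: `1` -/
theorem combBound_five : CombBound.{u} 5 2 1 4 := by
  have h := combBound_of_checkAll.{u} QCert5.tree_ok
  norm_num at h
  exact h

/-- basic tools, six linear forms: `1` -/
theorem combBound_six : CombBound.{u} 6 2 1 4 := by
  have h := combBound_of_checkAll.{u} QCert6.tree_ok
  norm_num at h
  exact h

end Pool.Agent.Lib.MP_4d5ce1_nt.QC
end
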